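import Pool.Agent.W808.KC.Stm
import Pool.Agent.W808.HB.T_AS

set_option autoImplicit false

/-! KC-AS : asymptotics of `Pk`. -/

namespace Pool.Agent.W808.KC

namespace TAS

open Pool.Agent.W808.HB.AS (log_add_bound compare pow_compare)

/-- the factors of `Cn` -/
noncomputable def hf (t i : ℕ) : ℝ :=
  (((2 * t + 3 * i + 2 : ℕ) : ℝ) * (i + 1).factorial *
      ∏ s ∈ Finset.range (i + 1), (((2 * t + 3 + 4 * i + 2 * s) * (2 * t + 1 + 2 * i + s) : ℕ) : ℝ)) /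
    ((2 * i + 2).factorial * ∏ s ∈ Finset.range (i + 2), ((2 * t + 1 + 2 * i + 2 * s : ℕ) : ℝ))

lemma Cn_eq (t M : ℕ) : Cn t M = ∏ i ∈ Finset.range M, hf t i := rfl

lemma hf_pos (t i : ℕ) : 0 < hf t i := by
  unfold hf
  have h1 : 0 < ∏ s ∈ Finset.range (i + 1),
      (((2 * t + 3 + 4 * i + 2 * s) * (2 * t + 1 + 2 * i + s) : ℕ) : ℝ) := by
    apply Finset.prod_pos
    intro s _
    have : 0 < (2 * t + 3 + 4 * i + 2 * s) * (2 * t + 1 + 2 * i + s) := by positivity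
    exact_mod_cast this
  have h2 : 0 < ∏ s ∈ Finset.range (i + 2), ((2 * t + 1 + 2 * i + 2 * s : ℕ) : ℝ) := by
    apply Finset.prod_pos
    intro s _
    have : 0 < 2 * t + 1 + 2 * i + 2 * s := by positivity
    exact_mod_cast this
  have h3 : (0 : ℝ) < ((2 * t + 3 * i + 2 : ℕ) : ℝ) := by
    have : 0 < 2 * t + 3 * i + 2 := by positivity
    exact_mod_cast this
  positivity

lemma Cn_pos (t M : ℕ) : 0 < Cn t M := Finset.prod_pos fun i _ => hf_pos t i

/-- `R(M) = P(m+1, M) / P(m, M+1)` -/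
noncomputable def R (m M : ℕ) : ℝ := Cn (2 * m + 2) M / Cn (2 * m) (M + 1)

lemma R_pos (m M : ℕ) : 0 < R m M := div_pos (Cn_pos _ _) (Cn_pos _ _)

lemma hf_ratio (t M : ℕ) : hf (t + 2) M * ((2 * t + 6 * M + 9) * (t + M + 2)) =
    hf t (M + 1) * ((2 * t + 3 * M + 6) * (2 * M + 3)) := by
  -- products
  have hA : ∏ s ∈ Finset.range (M + 1 + 1), ((2 * t + 3 + 4 * (M + 1) + 2 * s : ℕ) : ℝ) =
      (∏ s ∈ Finset.range (M + 1), ((2 * (t + 2) + 3 + 4 * M + 2 * s : ℕ) : ℝ)) *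
        (2 * t + 6 * M + 9) := by
    rw [Finset.prod_range_succ]
    congr 1
    · apply Finset.prod_congr rfl
      intro s _
      push_cast
      ring
    · push_cast
      ring
  have hB : (∏ s ∈ Finset.range (M + 1 + 1), ((2 * t + 1 + 2 * (M + 1) + s : ℕ) : ℝ)) *
      (2 * t + 3 * M + 5) =
      (∏ s ∈ Finset.range (M + 1), ((2 * (t + 2) + 1 + 2 * M + s : ℕ) : ℝ)) *
        ((2 * t + 2 * M + 3) * (2 * t + 2 * M + 4)) := by
    rw [Finset.prod_range_succ' _ (M + 1), Finset.prod_range_succ' _ M,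
      Finset.prod_range_succ _ M]
    have e : ∏ s ∈ Finset.range M, ((2 * t + 1 + 2 * (M + 1) + (s + 1 + 1) : ℕ) : ℝ) =
        ∏ s ∈ Finset.range M, ((2 * (t + 2) + 1 + 2 * M + s : ℕ) : ℝ) := by
      apply Finset.prod_congr rfl
      intro s _
      push_cast
      ring
    rw [e]
    push_cast
    ring
  have hC : ∏ s ∈ Finset.range (M + 1 + 2), ((2 * t + 1 + 2 * (M + 1) + 2 * s : ℕ) : ℝ) =
      (∏ s ∈ Finset.range (M + 2), ((2 * (t + 2) + 1 + 2 * M + 2 * s : ℕ) : ℝ)) *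
        (2 * t + 2 * M + 3) := by
    rw [show M + 1 + 2 = (M + 2) + 1 by ring, Finset.prod_range_succ']
    congr 1
    · apply Finset.prod_congr rfl
      intro s _
      push_cast
      ring
    · push_cast
      ring
  have p1 : 0 < ∏ s ∈ Finset.range (M + 1), ((2 * (t + 2) + 3 + 4 * M + 2 * s : ℕ) : ℝ) := by
    apply Finset.prod_pos
    intro s _
    have : 0 < 2 * (t + 2) + 3 + 4 * M + 2 * s := by positivity
    exact_mod_cast this
  have p2 : 0 < ∏ s ∈ Finset.range (M + 1), ((2 * (t + 2) + 1 + 2 * M + s : ℕ) : ℝ) := by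
    apply Finset.prod_pos
    intro s _
    have : 0 < 2 * (t + 2) + 1 + 2 * M + s := by positivity
    exact_mod_cast this
  have p3 : 0 < ∏ s ∈ Finset.range (M + 2), ((2 * (t + 2) + 1 + 2 * M + 2 * s : ℕ) : ℝ) := by
    apply Finset.prod_pos
    intro s _
    have : 0 < 2 * (t + 2) + 1 + 2 * M + 2 * s := by positivity
    exact_mod_cast this
  unfold hf
  simp only [Nat.cast_mul] at *
  rw [Finset.prod_mul_distrib, Finset.prod_mul_distrib, hA, hC]
  set A := ∏ s ∈ Finset.range (M + 1), ((2 * (t + 2) + 3 + 4 * M + 2 * s : ℕ) : ℝ)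
  set B := ∏ s ∈ Finset.range (M + 1), ((2 * (t + 2) + 1 + 2 * M + s : ℕ) : ℝ)
  set C := ∏ s ∈ Finset.range (M + 2), ((2 * (t + 2) + 1 + 2 * M + 2 * s : ℕ) : ℝ)
  set B' := ∏ s ∈ Finset.range (M + 1 + 1), ((2 * t + 1 + 2 * (M + 1) + s : ℕ) : ℝ)
  have eB : B' = B * ((2 * t + 2 * M + 3) * (2 * t + 2 * M + 4)) / (2 * t + 3 * M + 5) := by
    rw [eq_div_iff (by positivity), hB]
  rw [eB, Nat.factorial_succ (M + 1), show 2 * (M + 1) + 2 = (2 * M + 2) + 1 + 1 by ring,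
    Nat.factorial_succ (2 * M + 2 + 1), Nat.factorial_succ (2 * M + 2)]
  push_cast
  have f1 : (0:ℝ) < (M + 1).factorial := by positivity
  have f2 : (0:ℝ) < (2 * M + 2).factorial := by positivity
  field_simp
  ring

lemma R_ratio (m M : ℕ) : R m (M + 1) * ((4 * m + 6 * M + 9) * (2 * m + M + 2)) =
    R m M * ((4 * m + 3 * M + 6) * (2 * M + 3)) := by
  have h := hf_ratio (2 * m) M
  push_cast at h
  unfold R
  rw [Cn_eq (2 * m + 2) (M + 1), Finset.prod_range_succ, ← Cn_eq, Cn_eq (2 * m) (M + 1 + 1),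
    Finset.prod_range_succ, ← Cn_eq]
  have h1 := Cn_pos (2 * m + 2) M
  have h2 := Cn_pos (2 * m) (M + 1)
  have h3 := hf_pos (2 * m) (M + 1)
  rw [div_mul_eq_mul_div, div_mul_eq_mul_div, div_eq_div_iff (by positivity) (by positivity)]
  linear_combination (Cn (2 * m + 2) M * Cn (2 * m) (M + 1)) * h

/-- asymptotics of `R` -/
lemma R_asymp (m : ℕ) : ∃ c C : ℝ, 0 < c ∧ 0 < C ∧ ∀ M : ℕ,
    c * ((M : ℝ) + 1) ^ (-(4 * m / 3 : ℝ)) ≤ R m M ∧
      R m M ≤ C * ((M : ℝ) + 1) ^ (-(4 * m / 3 : ℝ)) := by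
  refine compare (R m) (R_pos m) (4 * m / 3)
    (((4 * m + 3) / 3) ^ 2 + ((4 * m + 3) / 6) ^ 2 + (1 / 2) ^ 2 + (2 * m + 1) ^ 2 + 4 * m / 3)
    fun M => ?_
  have hm : (0:ℝ) ≤ m := Nat.cast_nonneg m
  have hM : (0:ℝ) ≤ M := Nat.cast_nonneg M
  set x : ℝ := (M : ℝ) + 1 with hx
  have hx0 : 0 < x := by positivity
  have e : Real.log (R m (M + 1)) - Real.log (R m M) =
      Real.log (x + (4 * m + 3) / 3) + Real.log (x + 1 / 2) - Real.log (x + (4 * m + 3) / 6)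
        - Real.log (x + (2 * m + 1)) := by
    have h := congrArg Real.log (R_ratio m M)
    rw [Real.log_mul (R_pos _ _).ne' (by positivity), Real.log_mul (R_pos _ _).ne' (by positivity),
      show (4 * (m:ℝ) + 6 * M + 9) * (2 * m + M + 2) =
        6 * ((x + (4 * m + 3) / 6) * (x + (2 * m + 1))) by rw [hx]; ring,
      show (4 * (m:ℝ) + 3 * M + 6) * (2 * M + 3) =
        6 * ((x + (4 * m + 3) / 3) * (x + 1 / 2)) by rw [hx]; ring,
      Real.log_mul (by norm_num) (by positivity), Real.log_mul (by positivity) (by positivity),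
      Real.log_mul (by norm_num) (by positivity), Real.log_mul (by positivity) (by positivity)] at h
    linarith
  have b1 := abs_le.mp (log_add_bound hx0 (show (0:ℝ) ≤ (4 * m + 3) / 3 by positivity))
  have b2 := abs_le.mp (log_add_bound hx0 (show (0:ℝ) ≤ 1 / 2 by positivity))
  have b3 := abs_le.mp (log_add_bound hx0 (show (0:ℝ) ≤ (4 * m + 3) / 6 by positivity))
  have b4 := abs_le.mp (log_add_bound hx0 (show (0:ℝ) ≤ 2 * m + 1 by positivity))
  have b5 := abs_le.mp (log_add_bound hx0 (show (0:ℝ) ≤ 1 by positivity))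
  have e2 : (M : ℝ) + 2 = x + 1 := by rw [hx]; ring
  rw [e, e2]
  have e3 : ((4 * (m:ℝ) + 3) / 3) / x + (1 / 2) / x - ((4 * m + 3) / 6) / x - (2 * m + 1) / x +
      4 * m / 3 * (1 / x) = 0 := by field_simp; ring
  have e4 : (((4 * (m:ℝ) + 3) / 3) ^ 2 + ((4 * m + 3) / 6) ^ 2 + (1 / 2) ^ 2 + (2 * m + 1) ^ 2 +
      4 * m / 3) / x ^ 2 = ((4 * (m:ℝ) + 3) / 3) ^ 2 / x ^ 2 + ((4 * m + 3) / 6) ^ 2 / x ^ 2 +
        (1 / 2) ^ 2 / x ^ 2 + (2 * m + 1) ^ 2 / x ^ 2 + 4 * m / 3 * (1 ^ 2 / x ^ 2) := by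
    ring
  have hs : (0:ℝ) ≤ 4 * m / 3 := by positivity
  have b5l := mul_le_mul_of_nonneg_left b5.1 hs
  have b5u := mul_le_mul_of_nonneg_left b5.2 hs
  rw [e4, abs_le]
  constructor
  · nlinarith [b1.1, b2.1, b3.2, b4.2, b5l]
  · nlinarith [b1.2, b2.2, b3.1, b4.1, b5u]

lemma Pk_step (m M : ℕ) (hm : 1 ≤ m) : Pk (m + 1) M = Pk m (M + 1) * R m M := by
  unfold Pk R
  rw [show m + 1 + M - 1 = m + M by omega, show m + (M + 1) - 1 = m + M by omega,
    show 2 * (m + 1) = 2 * m + 2 by ring]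
  have h1 := Cn_pos (2 * m) (M + 1)
  have h2 := Cn_pos 2 (m + M)
  field_simp

end TAS

open TAS in
theorem t_AS : S_AS := by
  intro m hm
  induction m, hm using Nat.le_induction with
  | base =>
    refine ⟨1, 1, one_pos, one_pos, fun M => ?_⟩
    have hP : Pk 1 M = 1 := by
      unfold Pk
      rw [show 1 + M - 1 = M by omega, mul_one, div_self (Cn_pos 2 M).ne']
    have he : -(2 * ((1 : ℕ) : ℝ) * (((1 : ℕ) : ℝ) - 1) / 3) = 0 := by norm_num
    rw [hP, he, Real.rpow_zero]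
    norm_num
  | succ k hk ih =>
    obtain ⟨c1, C1, hc1, hC1, h1⟩ := ih
    obtain ⟨c2, C2, hc2, hC2, h2⟩ := R_asymp k
    have he : (0:ℝ) ≤ 2 * (k : ℝ) * (k - 1) / 3 := by
      have : (1:ℝ) ≤ k := by exact_mod_cast hk
      have : (0:ℝ) ≤ 2 * (k : ℝ) * (k - 1) := by nlinarith
      positivity
    refine ⟨c1 * 2 ^ (-(2 * (k : ℝ) * (k - 1) / 3)) * c2, C1 * C2, by positivity, by positivity,
      fun M => ?_⟩
    have h3 := h1 (M + 1)
    push_cast at h3
    rw [show (M : ℝ) + 1 + 1 = (M : ℝ) + 2 by ring] at h3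
    have h4 := Pool.Agent.W808.HB.AS.pow_compare he M
    have h5 := h2 M
    have hM0 : (0:ℝ) < (M : ℝ) + 1 := by positivity
    have e1 : ((M : ℝ) + 1) ^ (-(2 * ((k + 1 : ℕ) : ℝ) * (((k + 1 : ℕ) : ℝ) - 1) / 3)) =
        ((M : ℝ) + 1) ^ (-(2 * (k : ℝ) * (k - 1) / 3)) * ((M : ℝ) + 1) ^ (-(4 * k / 3 : ℝ)) := by
      rw [← Real.rpow_add hM0]
      congr 1
      push_cast
      ring
    rw [e1, Pk_step k M hk]
    set A := ((M : ℝ) + 1) ^ (-(2 * (k : ℝ) * (k - 1) / 3)) with hA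
    set B := ((M : ℝ) + 1) ^ (-(4 * k / 3 : ℝ)) with hB
    have hA0 : 0 < A := Real.rpow_pos_of_pos hM0 _
    have hB0 : 0 < B := Real.rpow_pos_of_pos hM0 _
    have hR := R_pos k M
    constructor
    · calc c1 * 2 ^ (-(2 * (k : ℝ) * (k - 1) / 3)) * c2 * (A * B)
          = (c1 * (2 ^ (-(2 * (k : ℝ) * (k - 1) / 3)) * A)) * (c2 * B) := by ring
        _ ≤ Pk k (M + 1) * R k M := by
          refine mul_le_mul ?_ h5.1 (by positivity) ?_
          · exact le_trans (mul_le_mul_of_nonneg_left h4.1 hc1.le) h3.1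
          · exact le_trans (by positivity) h3.1
    · calc Pk k (M + 1) * R k M ≤ (C1 * A) * (C2 * B) := by
            refine mul_le_mul ?_ h5.2 hR.le (by positivity)
            exact le_trans h3.2 (mul_le_mul_of_nonneg_left h4.2 hC1.le)
        _ = _ := by ring

end Pool.Agent.W808.KC
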