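import Pool.Agent.W808.KC.Stm

set_option autoImplicit false

namespace Pool.Agent.W808.KC
open H974 H906.Cyl
open H12S (Dir hbE segD rimE H4 Crs Nr sqE)
open Pool.Agent.H160R2

namespace TBADQ

theorem bad_of {c N r ρ l n M : ℕ} (hn : n = 8 * N * r) {F : Finset Edg}
    (h : BadQ c N r ρ l n M F) : MU.Bad c N r ρ l (16 * N) (2 * n) M F := by
  rcases h with ⟨ζ, h1, h2, h3⟩ | ⟨d, x0, y0, i, j, h1, h2, h3, h4⟩
  · left
    refine ⟨ζ, ?_, ?_, h3⟩
    · push_cast; linarith
    · intro s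
      have := h2 (2 * s)
      have e : (2 * s) * (8 * (N : ℤ)) = s * ((16 * N : ℕ) : ℤ) := by push_cast; ring
      rw [e] at this
      exact this
  · right
    refine ⟨d, x0, y0, i, j, ?_, ?_, h3, h4⟩
    · push_cast; linarith
    · intro s
      have := h2 (2 * s)
      have e : (2 * s) * (n : ℤ) = s * ((2 * n : ℕ) : ℤ) := by push_cast; ring
      rw [e] at this
      exact this

end TBADQ

theorem t_BADQ : MU.S_BADP → S_BADQ := by
  intro h N hN δ hδ
  obtain ⟨M3, M4, h3, h4, hP⟩ := h N (16 * N) hN (by omega) δ hδ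
  refine ⟨M3, M4, h3, h4, ?_⟩
  intro c r n hc hr hn
  have key := hP c r hc hr
  have e1 : 16 * N * r = 2 * n := by rw [hn]; ring
  have e2 : 4 * (16 * N * r) = 8 * n := by rw [hn]; ring
  rw [e2, e1] at key
  refine le_trans ?_ key
  unfold MU.PC
  apply Pr_mono (fun _ => by constructor <;> norm_num)
  intro F _ hF
  exact TBADQ.bad_of hn hF

end Pool.Agent.W808.KC
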