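import Pool.Agent.W808.KC.Stm

/-!
# Arms at a corner: convergence of the law of the word
-/

set_option autoImplicit false

namespace Pool.Agent.W808.KC
open Pool.Agent.H988R2.Perc (Word ins cap act rainbow Dyck LP Fw fac q mem_LP)
open Filter Topology

namespace TCV

open Pool.Agent.H988R2.Perc (length_ins length_cap dyck_cap length_act dyck_act act_ins_left)

/-! ### rows preserve the set of words -/

lemma length_fwdW (L : ℕ) (c : ℕ → Bool) (w : Word) (h : L + 2 ≤ w.length) :
    (fwdW L c w).length = w.length := by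
  induction L with
  | zero => rfl
  | succ L ih =>
    have h1 := ih (by omega)
    simp only [fwdW]
    split_ifs
    · rw [length_act (by omega), h1]
    · exact h1

lemma dyck_fwdW (L : ℕ) (c : ℕ → Bool) (w : Word) (h : L + 2 ≤ w.length) (hw : Dyck w) :
    Dyck (fwdW L c w) := by
  induction L with
  | zero => exact hw
  | succ L ih =>
    have h1 := ih (by omega)
    simp only [fwdW]
    split_ifs
    · exact dyck_act h1 (by rw [length_fwdW L c w (by omega)]; omega)
    · exact h1

lemma bwdW_spec (L : ℕ) (c : ℕ → Bool) : ∀ w : Word, L + 2 ≤ w.length → Dyck w →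
    (bwdW L c w).length = w.length ∧ Dyck (bwdW L c w) := by
  induction L with
  | zero => exact fun w _ hw => ⟨rfl, hw⟩
  | succ L ih =>
    intro w h hw
    simp only [bwdW]
    split_ifs
    · have h1 := ih (act (L + 1) w) (by rw [length_act (by omega)]; omega)
        (dyck_act hw (by omega))
      rw [length_act (by omega)] at h1
      exact h1
    · exact ih w (by omega) hw

lemma rowW_mem {N : ℕ} {c c' : ℕ → Bool} {w : Word} (hw : w ∈ LP N) :
    rowW N c c' w ∈ LP N := by
  rw [mem_LP] at hw ⊢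
  obtain ⟨hl, hd⟩ := hw
  have h0 : (ins 0 w).length = N + 2 := by rw [length_ins, hl]
  have hd0 : Dyck (ins 0 w) := Dyck.ins 0 w (Nat.zero_le _) hd
  have h1 := length_fwdW N c (ins 0 w) (by omega)
  have hd1 := dyck_fwdW N c (ins 0 w) (by omega) hd0
  have h2 := bwdW_spec N c' _ (by rw [h1]; omega) hd1
  unfold rowW
  refine ⟨?_, dyck_cap h2.2 (by rw [h2.1, h1]; omega)⟩
  rw [length_cap (by rw [h2.1, h1]; omega), h2.1, h1, h0]
  omega

lemma w0_mem (n : ℕ) : w0 n ∈ LP (2 * n) := by
  rw [mem_LP]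
  induction n with
  | zero => exact ⟨rfl, Dyck.nil⟩
  | succ n ih =>
    have e : w0 (n + 1) = ins 0 (w0 n) := by
      unfold w0 ins
      rw [List.replicate_succ, List.flatten_cons]
      simp
    rw [e, length_ins, ih.1]
    exact ⟨by ring, Dyck.ins 0 _ (Nat.zero_le _) ih.2⟩

/-! ### the coupling row -/

/-- bits `i odd` -/
def cOdd (N : ℕ) : Fin N → Bool := fun j => decide ((j.1 + 1) % 2 = 1)

lemma ex_cOdd {N i : ℕ} (h1 : 1 ≤ i) (h2 : i ≤ N) : ex (cOdd N) i = decide (i % 2 = 1) := by
  unfold ex cOdd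
  rw [dif_pos ⟨h1, h2⟩]
  congr 2
  simp only
  omega

lemma ex_false {N : ℕ} (i : ℕ) : ex (fun _ : Fin N => false) i = false := by
  unfold ex
  split_ifs <;> rfl

lemma bwdW_false {N : ℕ} (L : ℕ) (w : Word) : bwdW L (ex (fun _ : Fin N => false)) w = w := by
  induction L generalizing w with
  | zero => rfl
  | succ L ih =>
    simp only [bwdW, ex_false]
    exact ih w

lemma length_iter_ins (j : ℕ) (u : Word) : ((ins 1)^[j] u).length = u.length + 2 * j := by
  induction j with
  | zero => rfl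
  | succ j ih =>
    rw [Function.iterate_succ_apply', length_ins, ih]
    ring

lemma length_iter_cap (j : ℕ) (u : Word) (h : 2 * j + 1 ≤ u.length) :
    ((cap 1)^[j] u).length = u.length - 2 * j := by
  induction j with
  | zero => rfl
  | succ j ih =>
    have h1 := ih (by omega)
    rw [Function.iterate_succ_apply', length_cap (by omega), h1]
    omega

lemma dyck_iter_cap (j : ℕ) (u : Word) (h : 2 * j + 1 ≤ u.length) (hu : Dyck u) :
    Dyck ((cap 1)^[j] u) := by
  induction j with
  | zero => exact hu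
  | succ j ih =>
    rw [Function.iterate_succ_apply']
    exact dyck_cap (ih (by omega)) (by rw [length_iter_cap j u (by omega)]; omega)

lemma act_iter_ins (j : ℕ) (u : Word) (h : 3 ≤ u.length) :
    act (2 * j + 1) ((ins 1)^[j] u) = (ins 1)^[j] (act 1 u) := by
  induction j with
  | zero => rfl
  | succ j ih =>
    rw [Function.iterate_succ_apply', Function.iterate_succ_apply', ← ih,
      act_ins_left (by omega) (by rw [length_iter_ins]; omega)]
    congr 2

lemma fwdW_odd (n j : ℕ) (hj : j ≤ n) (W : Word) (hW : W.length = 2 * n + 2) :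
    fwdW (2 * j) (ex (cOdd (2 * n))) W = (ins 1)^[j] ((cap 1)^[j] W) := by
  induction j with
  | zero => rfl
  | succ j ih =>
    have h1 := ih (by omega)
    rw [show 2 * (j + 1) = 2 * j + 1 + 1 by ring]
    simp only [fwdW]
    rw [ex_cOdd (by omega) (by omega), ex_cOdd (by omega) (by omega), h1]
    have h2 : ¬ (decide ((2 * j + 1 + 1) % 2 = 1) = true) := by
      rw [decide_eq_true_eq]
      omega
    have h3 : decide ((2 * j + 1) % 2 = 1) = true := by
      rw [decide_eq_true_eq]
      omega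
    rw [if_neg h2, if_pos h3]
    rw [act_iter_ins j _ (by rw [length_iter_cap j W (by omega)]; omega)]
    rw [Function.iterate_succ_apply, Function.iterate_succ_apply' (cap 1) j W]
    rfl

lemma dyck_two {w : Word} (hw : Dyck w) (h : w.length = 2) : w = [true, false] := by
  cases hw with
  | nil => simp at h
  | ins i w' hi hw' =>
    rw [length_ins] at h
    have h1 : w' = [] := List.length_eq_zero_iff.1 (by omega)
    subst h1
    have h2 : i = 0 := by simpa using hi
    subst h2
    rfl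

/-- the word reached by the coupling row -/
def wst (n : ℕ) : Word := cap 0 ((ins 1)^[n] [true, false])

lemma rowW_odd (n : ℕ) {w : Word} (hw : w ∈ LP (2 * n)) :
    rowW (2 * n) (ex (cOdd (2 * n))) (ex (fun _ : Fin (2 * n) => false)) w = wst n := by
  rw [mem_LP] at hw
  obtain ⟨hl, hd⟩ := hw
  have h0 : (ins 0 w).length = 2 * n + 2 := by rw [length_ins, hl]
  have hd0 : Dyck (ins 0 w) := Dyck.ins 0 w (Nat.zero_le _) hd
  unfold rowW wst
  rw [bwdW_false, fwdW_odd n n le_rfl _ h0]
  rw [dyck_two (dyck_iter_cap n _ (by omega) hd0) (by rw [length_iter_cap n _ (by omega)]; omega)]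

/-! ### the operator -/

/-- the double row acting on vectors -/
noncomputable def Tn (n : ℕ) (f : Word → ℂ) (w' : Word) : ℂ :=
  (∑ w ∈ LP (2 * n), ∑ c : Fin (2 * n) → Bool, ∑ c' : Fin (2 * n) → Bool,
      if rowW (2 * n) (ex c) (ex c') w = w' then f w else 0) / 4 ^ (2 * n)

abbrev PP (n : ℕ) : Type := (Fin (2 * n) → Bool) × (Fin (2 * n) → Bool)

/-- a row with given bits -/
def row (n : ℕ) (p : PP n) (w : Word) : Word := rowW (2 * n) (ex p.1) (ex p.2) w

lemma Tn_eq (n : ℕ) (f : Word → ℂ) (w' : Word) :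
    Tn n f w' = (∑ p : PP n, ∑ w ∈ LP (2 * n), if row n p w = w' then f w else 0) / 4 ^ (2 * n) := by
  unfold Tn
  rw [Finset.sum_comm]
  congr 1
  refine Eq.symm ?_
  rw [Finset.sum_comm]
  refine Eq.trans ?_ Finset.sum_comm
  refine Finset.sum_congr rfl fun w _ => ?_
  rw [Fintype.sum_prod_type]
  rfl

lemma card_PP (n : ℕ) : Fintype.card (PP n) = 4 ^ (2 * n) := by
  rw [Fintype.card_prod, Fintype.card_fun, Fintype.card_bool, Fintype.card_fin, ← mul_pow]
  norm_num

lemma mass_Tn (n : ℕ) (f : Word → ℂ) :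
    ∑ w' ∈ LP (2 * n), Tn n f w' = ∑ w ∈ LP (2 * n), f w := by
  simp only [Tn_eq]
  rw [← Finset.sum_div, Finset.sum_comm]
  have h1 : ∀ p : PP n, ∑ w' ∈ LP (2 * n), ∑ w ∈ LP (2 * n),
      (if row n p w = w' then f w else 0) = ∑ w ∈ LP (2 * n), f w := by
    intro p
    rw [Finset.sum_comm]
    refine Finset.sum_congr rfl fun w hw => ?_
    rw [Finset.sum_ite_eq, if_pos (show row n p w ∈ LP (2 * n) from rowW_mem hw)]
  rw [Finset.sum_congr rfl fun p _ => h1 p, Finset.sum_const, Finset.card_univ, card_PP,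
    nsmul_eq_mul]
  push_cast
  field_simp

lemma norm_Tn (n : ℕ) (f : Word → ℂ) (hf : ∑ w ∈ LP (2 * n), f w = 0) :
    ∑ w' ∈ LP (2 * n), ‖Tn n f w'‖ ≤
      (1 - 1 / (4 : ℝ) ^ (2 * n)) * ∑ w ∈ LP (2 * n), ‖f w‖ := by
  classical
  let p0 : PP n := (cOdd (2 * n), fun _ => false)
  have h4 : (0 : ℝ) < 4 ^ (2 * n) := by positivity
  have h1 : ∀ w' ∈ LP (2 * n), ‖Tn n f w'‖ ≤
      (∑ p ∈ Finset.univ.erase p0, ∑ w ∈ LP (2 * n), if row n p w = w' then ‖f w‖ else 0) /
        4 ^ (2 * n) := by
    intro w' _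
    rw [Tn_eq, norm_div, norm_pow]
    have e4 : ‖(4 : ℂ)‖ = 4 := by norm_num
    rw [e4]
    refine div_le_div_of_nonneg_right ?_ h4.le
    rw [← Finset.add_sum_erase _ _ (Finset.mem_univ p0)]
    have h2 : ∑ w ∈ LP (2 * n), (if row n p0 w = w' then f w else 0) = 0 := by
      have h3 : ∀ w ∈ LP (2 * n), (if row n p0 w = w' then f w else 0) =
          if wst n = w' then f w else 0 := by
        intro w hw
        have : row n p0 w = wst n := rowW_odd n hw
        rw [this]
      rw [Finset.sum_congr rfl h3]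
      split_ifs
      · exact hf
      · exact Finset.sum_const_zero
    rw [h2, zero_add]
    refine (norm_sum_le _ _).trans (Finset.sum_le_sum fun p _ => ?_)
    refine (norm_sum_le _ _).trans (Finset.sum_le_sum fun w _ => ?_)
    split_ifs
    · exact le_rfl
    · rw [norm_zero]
  refine (Finset.sum_le_sum h1).trans ?_
  rw [← Finset.sum_div, Finset.sum_comm]
  have h5 : ∀ p : PP n, ∑ w' ∈ LP (2 * n), ∑ w ∈ LP (2 * n),
      (if row n p w = w' then ‖f w‖ else 0) = ∑ w ∈ LP (2 * n), ‖f w‖ := by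
    intro p
    rw [Finset.sum_comm]
    refine Finset.sum_congr rfl fun w hw => ?_
    rw [Finset.sum_ite_eq, if_pos (show row n p w ∈ LP (2 * n) from rowW_mem hw)]
  rw [Finset.sum_congr rfl fun p _ => h5 p, Finset.sum_const,
    Finset.card_erase_of_mem (Finset.mem_univ _), Finset.card_univ, card_PP, nsmul_eq_mul]
  rw [Nat.cast_sub (Nat.one_le_pow _ _ (by norm_num))]
  push_cast
  refine le_of_eq ?_
  field_simp

lemma lawW_succ (n K : ℕ) (w' : Word) :
    ((lawW n (K + 1) w' : ℝ) : ℂ) = Tn n (fun w => ((lawW n K w : ℝ) : ℂ)) w' := by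
  simp only [lawW, Tn]
  push_cast
  simp only [apply_ite (fun x : ℝ => (x : ℂ)), Complex.ofReal_zero]

lemma Tn_sub (n : ℕ) (f g : Word → ℂ) (w' : Word) :
    Tn n (fun w => f w - g w) w' = Tn n f w' - Tn n g w' := by
  simp only [Tn_eq]
  rw [← sub_div, ← Finset.sum_sub_distrib]
  congr 1
  refine Finset.sum_congr rfl fun p _ => ?_
  rw [← Finset.sum_sub_distrib]
  refine Finset.sum_congr rfl fun w _ => ?_
  split_ifs
  · rfl
  · rw [sub_zero]

end TCV

open TCV in
theorem t_CV : S_SW → S_CV := by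
  intro hSW n hn hZ
  set Z : ℂ := ∑ w ∈ LP (2 * n), Fw w (List.replicate (2 * n) 1) with hZd
  let v : Word → ℂ := fun w => Fw w (List.replicate (2 * n) 1) / Z
  have hv : ∀ w' ∈ LP (2 * n), Tn n v w' = v w' := by
    intro w' hw'
    have h := hSW n hn w' hw'
    have e : ∑ w ∈ LP (2 * n), ∑ c : Fin (2 * n) → Bool, ∑ c' : Fin (2 * n) → Bool,
        (if rowW (2 * n) (ex c) (ex c') w = w' then v w else 0) =
        (∑ w ∈ LP (2 * n), ∑ c : Fin (2 * n) → Bool, ∑ c' : Fin (2 * n) → Bool,
        (if rowW (2 * n) (ex c) (ex c') w = w' then Fw w (List.replicate (2 * n) 1) else 0)) / Z := by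
      rw [Finset.sum_div]
      refine Finset.sum_congr rfl fun w _ => ?_
      rw [Finset.sum_div]
      refine Finset.sum_congr rfl fun c _ => ?_
      rw [Finset.sum_div]
      refine Finset.sum_congr rfl fun c' _ => ?_
      split_ifs
      · rfl
      · rw [zero_div]
    unfold Tn
    rw [e, h]
    have h4 : (4 : ℂ) ^ (2 * n) ≠ 0 := pow_ne_zero _ (by norm_num)
    simp only [v]
    field_simp
  have hvm : ∑ w ∈ LP (2 * n), v w = 1 := by
    simp only [v]
    rw [← Finset.sum_div, ← hZd, div_self hZ]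
  let d : ℕ → Word → ℂ := fun K w => ((lawW n K w : ℝ) : ℂ) - v w
  have hd : ∀ K, ∀ w' ∈ LP (2 * n), d (K + 1) w' = Tn n (d K) w' := by
    intro K w' hw'
    simp only [d]
    rw [Tn_sub, hv w' hw', lawW_succ]
  have hm : ∀ K, ∑ w ∈ LP (2 * n), d K w = 0 := by
    intro K
    induction K with
    | zero =>
      simp only [d, lawW]
      rw [Finset.sum_sub_distrib, hvm]
      simp only [apply_ite (fun x : ℝ => (x : ℂ)), Complex.ofReal_zero, Complex.ofReal_one]
      rw [Finset.sum_ite_eq', if_pos (w0_mem n), sub_self]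
    | succ K ih =>
      rw [Finset.sum_congr rfl (hd K), mass_Tn, ih]
  set r : ℝ := 1 - 1 / (4 : ℝ) ^ (2 * n) with hr
  have h4 : (1 : ℝ) ≤ 4 ^ (2 * n) := one_le_pow₀ (by norm_num)
  have hr0 : 0 ≤ r := by
    rw [hr]
    have : 1 / (4 : ℝ) ^ (2 * n) ≤ 1 := by
      rw [div_le_one (by positivity)]
      exact h4
    linarith
  have hr1 : r < 1 := by
    rw [hr]
    have : 0 < 1 / (4 : ℝ) ^ (2 * n) := by positivity
    linarith
  have hN : ∀ K, ∑ w ∈ LP (2 * n), ‖d K w‖ ≤ r ^ K * ∑ w ∈ LP (2 * n), ‖d 0 w‖ := by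
    intro K
    induction K with
    | zero => simp
    | succ K ih =>
      have h1 := norm_Tn n (d K) (hm K)
      rw [← Finset.sum_congr rfl fun w' hw' => congrArg norm (hd K w' hw')] at h1
      refine h1.trans ?_
      rw [pow_succ, mul_comm (r ^ K) r, mul_assoc]
      exact mul_le_mul_of_nonneg_left ih hr0
  intro w hw
  have h1 : Tendsto (fun K => r ^ K * ∑ w ∈ LP (2 * n), ‖d 0 w‖) atTop (𝓝 0) := by
    have := (tendsto_pow_atTop_nhds_zero_of_lt_one hr0 hr1).mul_const
      (∑ w ∈ LP (2 * n), ‖d 0 w‖)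
    rwa [zero_mul] at this
  have h2 : Tendsto (fun K => d K w) atTop (𝓝 0) := by
    refine squeeze_zero_norm (fun K => ?_) h1
    exact (Finset.single_le_sum (f := fun w => ‖d K w‖) (fun _ _ => norm_nonneg _) hw).trans (hN K)
  have h3 := h2.add_const (v w)
  rw [zero_add] at h3
  refine h3.congr fun K => ?_
  simp only [d, v]
  ring

end Pool.Agent.W808.KC
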