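import Pool.Agent.W808.KC.Stm

set_option autoImplicit false

/-! KC-DC : the Mills-Robbins-Rumsey determinant. -/

namespace Pool.Agent.W808.KC

namespace TDC

open Polynomial

lemma chR_nat (N n : ℕ) : chR (N : ℝ) n = ((N.choose n : ℕ) : ℝ) := by
  unfold chR
  induction n with
  | zero => simp
  | succ n ih =>
    rw [Finset.prod_range_succ, Nat.factorial_succ]
    have h1 : (((n + 1) * n.factorial : ℕ) : ℝ) = (n.factorial : ℝ) * (n + 1) := by
      push_cast
      ring
    rw [h1, mul_div_mul_comm, ih]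
    have h2 := Nat.choose_succ_right_eq N n
    have h3 : ((n : ℝ) + 1) ≠ 0 := by positivity
    rw [mul_div_assoc', div_eq_iff h3]
    by_cases h : n ≤ N
    · have h4 : ((N - n : ℕ) : ℝ) = N - n := by rw [Nat.cast_sub h]
      rw [← h4]
      exact_mod_cast h2.symm
    · rw [Nat.choose_eq_zero_of_lt (show N < n by omega),
        Nat.choose_eq_zero_of_lt (show N < n + 1 by omega)]
      simp

lemma uc_eq (t k l : ℕ) : (uc t k l : ℝ) = uR ((t : ℝ) + 1) k l := by
  unfold uc uR
  split_ifs with h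
  · rw [← chR_nat]
    push_cast
    rfl
  · simp

/-- the entries as polynomials -/
noncomputable def uP (k l : ℕ) : ℝ[X] := if k ≤ 2 * l + 1 then
  C (((2 * l + 1 - k).factorial : ℝ)⁻¹) * ∏ i ∈ Finset.range (2 * l + 1 - k), (X + C ((k : ℝ) + l - i))
  else 0

lemma uP_eval (p : ℝ) (k l : ℕ) : (uP k l).eval p = uR p k l := by
  unfold uP uR chR
  split_ifs with h
  · rw [eval_mul, eval_C, eval_prod, div_eq_inv_mul]
    congr 1
    apply Finset.prod_congr rfl
    intro i _
    rw [eval_add, eval_X, eval_C]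
    ring
  · simp

lemma det_eval (M : ℕ) (p : ℝ) : ((Matrix.of fun k l : Fin M => uP k l).det).eval p =
    (Matrix.of fun k l : Fin M => uR p k l).det := by
  have h := (evalRingHom p).map_det (Matrix.of fun k l : Fin M => uP k l)
  rw [coe_evalRingHom, RingHom.mapMatrix_apply] at h
  rw [h]
  congr 1
  ext k l
  simp [uP_eval]

/-- numerator -/
noncomputable def Nu (M : ℕ) : ℝ[X] := ∏ i ∈ Finset.range M,
  ((C 2 * X + C (3 * (i : ℝ))) * C ((i + 1).factorial : ℝ) *
    ∏ s ∈ Finset.range (i + 1), ((C 2 * X + C (1 + 4 * (i : ℝ) + 2 * s)) *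
      (C 2 * X + C (-1 + 2 * (i : ℝ) + s))))

/-- denominator -/
noncomputable def De (M : ℕ) : ℝ[X] := ∏ i ∈ Finset.range M,
  (C ((2 * i + 2).factorial : ℝ) * ∏ s ∈ Finset.range (i + 2), (C 2 * X + C (-1 + 2 * (i : ℝ) + 2 * s)))

lemma Nu_eval (M : ℕ) (p : ℝ) : (Nu M).eval p = ∏ i ∈ Finset.range M,
    ((2 * p + 3 * i) * (i + 1).factorial *
      ∏ s ∈ Finset.range (i + 1), ((2 * p + 1 + 4 * i + 2 * s) * (2 * p - 1 + 2 * i + s))) := by
  unfold Nu
  rw [eval_prod]
  apply Finset.prod_congr rfl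
  intro i _
  rw [eval_mul, eval_mul, eval_prod]
  congr 1
  · simp
  · apply Finset.prod_congr rfl
    intro s _
    simp only [eval_mul, eval_add, eval_C, eval_X]
    ring

lemma De_eval (M : ℕ) (p : ℝ) : (De M).eval p = ∏ i ∈ Finset.range M,
    ((2 * i + 2).factorial * ∏ s ∈ Finset.range (i + 2), (2 * p - 1 + 2 * i + 2 * s)) := by
  unfold De
  rw [eval_prod]
  apply Finset.prod_congr rfl
  intro i _
  rw [eval_mul, eval_prod]
  congr 1
  · simp
  · apply Finset.prod_congr rfl
    intro s _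
    simp only [eval_mul, eval_add, eval_C, eval_X]
    ring

lemma De_pos (M : ℕ) (p : ℝ) (hp : 1 ≤ p) : 0 < (De M).eval p := by
  rw [De_eval]
  apply Finset.prod_pos
  intro i _
  have : 0 < ∏ s ∈ Finset.range (i + 2), (2 * p - 1 + 2 * i + 2 * s) := by
    apply Finset.prod_pos
    intro s _
    have h1 : (0 : ℝ) ≤ i := Nat.cast_nonneg i
    have h2 : (0 : ℝ) ≤ s := Nat.cast_nonneg s
    linarith
  positivity

lemma key (h : S_MRb) (M : ℕ) : (Matrix.of fun k l : Fin M => uP k l).det * De M = Nu M := by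
  apply Polynomial.eq_of_infinite_eval_eq
  apply Set.infinite_of_injective_forall_mem (f := fun n : ℕ => ((n + 3 : ℕ) : ℝ) - 1 / 2)
  · intro a b hab
    simp only at hab
    have : ((a + 3 : ℕ) : ℝ) = ((b + 3 : ℕ) : ℝ) := by linarith
    have := Nat.cast_injective this
    omega
  · intro n
    rw [Set.mem_ofPred_eq]
    rw [eval_mul, det_eval, h M (n + 3) (by omega), Finset.prod_div_distrib]
    have h1 : (1 : ℝ) ≤ ((n + 3 : ℕ) : ℝ) - 1 / 2 := by
      push_cast
      have : (0 : ℝ) ≤ n := Nat.cast_nonneg n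
      linarith
    have h2 := De_pos M _ h1
    rw [Nu_eval]
    rw [De_eval] at h2 ⊢
    rw [div_mul_cancel₀ _ h2.ne']

end TDC

open TDC in
theorem t_DC (h : S_MRb) : S_DC := by
  intro t M
  have h1 := congrArg (Polynomial.eval ((t : ℝ) + 1)) (key h M)
  have h2 : (Matrix.of fun k l : Fin M => (uc t k l : ℝ)) =
      Matrix.of fun k l : Fin M => uR ((t : ℝ) + 1) k l := by
    ext k l
    simp only [Matrix.of_apply]
    exact uc_eq t k l
  unfold Dc
  rw [h2, ← det_eval]
  rw [Polynomial.eval_mul] at h1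
  have h3 := De_pos M ((t : ℝ) + 1) (by
    have : (0 : ℝ) ≤ t := Nat.cast_nonneg t
    linarith)
  rw [← eq_div_iff h3.ne'] at h1
  rw [h1, Nu_eval, De_eval, ← Finset.prod_div_distrib]
  unfold Cn
  apply Finset.prod_congr rfl
  intro i _
  congr 1
  · congr 1
    · congr 1
      push_cast
      ring
    · apply Finset.prod_congr rfl
      intro s _
      push_cast
      ring
  · congr 1
    apply Finset.prod_congr rfl
    intro s _
    push_cast
    ring

end Pool.Agent.W808.KC
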