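import Pool.Agent.W808.KC.Stm
import Pool.Agent.H160R2.MU.T_MON

/-!
# DEC: the leg event implies the arm events at both corners
-/

set_option autoImplicit false

namespace Pool.Agent.W808.KC
open H974 H906.Cyl
open Pool.Agent.H160R2.ML (nm)
open Pool.Agent.H160R2.MU.TMON (nm_le_iff nm_tgt_le nm_src_le mem_box box_mono)

namespace TDEC

theorem qbx_sub_box {R : ℕ} {e : Edg} (he : e ∈ qbx (R : ℤ)) : e ∈ boxE R :=
  mem_box he.2.2.1 he.2.2.2

theorem qbx_sub_Ss {n : ℕ} {R : ℤ} (h : R ≤ n) : qbx R ⊆ Ss n := by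
  intro e he
  have h1 := (nm_le_iff _ _).1 he.2.2.1
  simp only [src] at h1
  exact ⟨he.1, he.2.1, by omega⟩

theorem adj_qbx {n : ℕ} {R : ℤ} {G : Set Edg} (hG : G ⊆ Ss n) {b c : Vtx} (h : Adj G b c)
    (hb : nm b < R) : Adj (G ∩ qbx R) b c ∧ nm c ≤ R := by
  obtain ⟨e, he, h1⟩ := h
  have h3 := nm_tgt_le e
  have h4 := nm_src_le e
  have h5 := hG he
  rcases h1 with ⟨rfl, rfl⟩ | ⟨rfl, rfl⟩
  · exact ⟨⟨e, ⟨he, h5.1, h5.2.1, by omega, by omega⟩, Or.inl ⟨rfl, rfl⟩⟩, by omega⟩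
  · exact ⟨⟨e, ⟨he, h5.1, h5.2.1, by omega, by omega⟩, Or.inr ⟨rfl, rfl⟩⟩, by omega⟩

/-- first passage at distance `R` -/
theorem pass {n : ℕ} {R : ℤ} {G : Set Edg} (hG : G ⊆ Ss n) {x y : Vtx} (hx : nm x ≤ R)
    (h : Reach G x y) (hy : R ≤ nm y) : ∃ z : Vtx, nm z = R ∧ Reach (G ∩ qbx R) x z := by
  have key : (nm y < R ∧ Reach (G ∩ qbx R) x y) ∨ ∃ z : Vtx, nm z = R ∧ Reach (G ∩ qbx R) x z := by
    clear hy
    induction h with
    | refl =>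
      rcases hx.lt_or_eq with h1 | h1
      · exact Or.inl ⟨h1, Reach.refl _ _⟩
      · exact Or.inr ⟨x, h1, Reach.refl _ _⟩
    | tail _ hs ih =>
      rcases ih with ⟨h1, h2⟩ | h1
      · obtain ⟨h3, h4⟩ := adj_qbx hG hs h1
        have h5 := Reach.trans h2 h3.reach
        rcases h4.lt_or_eq with h6 | h6
        · exact Or.inl ⟨h6, h5⟩
        · exact Or.inr ⟨_, h6, h5⟩
      · exact Or.inr h1
  rcases key with ⟨h1, _⟩ | h1
  · omega
  · exact h1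

theorem cv_nm {i : ℕ} {R : ℤ} (hi : (i : ℤ) ≤ R) : nm (cv i) ≤ R := by
  rw [nm_le_iff]
  simp only [cv]
  omega

theorem cw_nm {n j : ℕ} {R : ℤ} (hj : (j : ℤ) < R) (hn : 4 * R ≤ n) : R ≤ nm (cw n j) := by
  by_contra hc
  have h1 : nm (cw n j) ≤ R - 1 := by omega
  rw [nm_le_iff] at h1
  simp only [cw] at h1
  omega

/-- the event only depends on the edges of the box -/
theorem seq_congr {m : ℕ} {R : ℤ} {G G' : Set Edg} (h : ∀ e ∈ qbx R, (e ∈ G ↔ e ∈ G')) :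
    SEq m R G ↔ SEq m R G' := by
  have h1 : G ∩ qbx R = G' ∩ qbx R := by
    ext e
    constructor
    · exact fun he => ⟨(h e he.2).1 he.1, he.2⟩
    · exact fun he => ⟨(h e he.2).2 he.1, he.2⟩
  unfold SEq
  rw [h1]

/-- the left corner -/
theorem left {n m R : ℕ} (hm : 2 ≤ m) (hmR : m ≤ R) (hn : 4 * R ≤ n) {G : Set Edg}
    (hP : P0 n m G) : SEq m (R : ℤ) G := by
  have hsub : qbx (R : ℤ) ⊆ Ss n := qbx_sub_Ss (by omega)
  have hmono : G ∩ qbx (R : ℤ) ⊆ G ∩ Ss n := Set.inter_subset_inter_right _ hsub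
  refine ⟨fun i j hi hj hij hc => hP.1 i j hi hj hij (hc.mono hmono), fun i hi => ?_,
    fun hodd i j hi hj hjR hc => ?_⟩
  · obtain ⟨j, hj, hr⟩ := hP.2.1 i hi
    obtain ⟨z, hz1, hz2⟩ := pass (n := n) (R := (R : ℤ)) (G := G ∩ Ss n) (fun e he => he.2)
      (cv_nm (by omega)) hr (cw_nm (by omega) (by omega))
    have h3 : (G ∩ Ss n) ∩ qbx (R : ℤ) ⊆ G ∩ qbx (R : ℤ) := fun e he => ⟨he.1.1, he.2⟩
    exact ⟨z, hz1, Reach.mono h3 hz2⟩
  · exact hP.2.2 hodd i j hi hj (by omega) (hc.mono hmono)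

end TDEC

open TDEC in
theorem t_DEC : S_MIR → S_DEC := by
  intro hmir n M m R hm hmR hn hM B F hB hF h1 h2 hP
  constructor
  · have h3 : ∀ e ∈ qbx (R : ℤ), (e ∈ per (2 * n) B ↔ e ∈ per (2 * n) F) :=
      fun e he => h1 e (qbx_sub_box he)
    exact (seq_congr h3).1 (left hm hmR hn hP)
  · have h3 : ∀ e ∈ qbx (R : ℤ),
        (e ∈ mirG n (per (2 * n) B) ↔ e ∈ mirG n (per (2 * n) F)) :=
      fun e he => h2 e (qbx_sub_box he)
    exact (seq_congr h3).1 (left hm hmR hn (((hmir n m _).2).2 hP))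

end Pool.Agent.W808.KC
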