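import Pool.Agent.W808.KC.Stm
import Pool.Agent.H160R2.MU.T_DET

/-!
Task DET of project KC: landing at the cells at both corners gives the leg event in the strip.
-/

set_option autoImplicit false

namespace Pool.Agent.W808.KC
open H974 H906.Cyl
open H12S (Dir hbE segD rimE H4 Crs Nr sqE)
open Pool.Agent.H160R2.ML (nm)
open Pool.Agent.H160R2.MU (EP inSq PC Cc)
open Pool.Agent.H160R2.MU.TDET (she shv dco_she src_she tgt_she red_she red_eq nm_le box_sq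
  sq_near sqE_inSq)

namespace TDET

/-! ### mirror image -/

/-- mirror image of a vertex -/
def mv (n : ℕ) (v : Vtx) : Vtx := ((n : ℤ) - v.2, (n : ℤ) - v.1)

theorem mv_mv (n : ℕ) (v : Vtx) : mv n (mv n v) = v := by
  simp only [mv, sub_sub_cancel]

theorem src_mir (n : ℕ) (e : Edg) : src (mirE n e) = mv n (tgt e) := by
  obtain ⟨x, y, _ | _⟩ := e
  · simp only [mirE, mv, src, tgt, Bool.false_eq_true, if_false, Prod.mk.injEq, and_true]
    omega
  · simp only [mirE, mv, src, tgt, if_true, Prod.mk.injEq, true_and]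
    omega

theorem tgt_mir (n : ℕ) (e : Edg) : tgt (mirE n e) = mv n (src e) := by
  obtain ⟨x, y, _ | _⟩ := e
  · simp only [mirE, mv, src, tgt, Bool.false_eq_true, if_false, if_true, Prod.mk.injEq, and_true]
    omega
  · simp only [mirE, mv, src, tgt, Bool.false_eq_true, if_false, if_true, Prod.mk.injEq, true_and]
    omega

theorem dco_mir (n : ℕ) (e : Edg) : dco (mirE n e) = dco e := by
  obtain ⟨x, y, _ | _⟩ := e
  · simp only [mirE, dco, if_true, Bool.false_eq_true, if_false]; ring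
  · simp only [mirE, dco, if_true, Bool.false_eq_true, if_false]; ring

theorem sum_mir (n : ℕ) (e : Edg) :
    (mirE n e).1 + (mirE n e).2.1 = 2 * n - 1 - (e.1 + e.2.1) := by
  obtain ⟨x, y, _ | _⟩ := e
  · simp only [mirE, Bool.false_eq_true, if_false]; ring
  · simp only [mirE, if_true]; ring

theorem mir_mir (n : ℕ) (e : Edg) : mirE n (mirE n e) = e := by
  obtain ⟨x, y, _ | _⟩ := e
  · simp only [mirE, if_true, Bool.false_eq_true, if_false, Prod.mk.injEq, and_true]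
    constructor <;> ring
  · simp only [mirE, if_true, Bool.false_eq_true, if_false, Prod.mk.injEq, and_true]
    constructor <;> ring

theorem mir_sq {N r n : ℕ} (hn : n = 8 * N * r) {b : ℤ × ℤ} {e : Edg} (h : e ∈ sqE r b) :
    mirE n e ∈ sqE r (8 * (N : ℤ) - 1 - b.2, 8 * (N : ℤ) - 1 - b.1) := by
  subst hn
  obtain ⟨x, y, _ | _⟩ := e
  · simp only [sqE, mem_RE_false] at h
    simp only [sqE, mirE, Bool.false_eq_true, if_false, mem_RE_true]
    obtain ⟨h1, h2, h3, h4⟩ := h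
    have h5 : y + 1 ≤ r * b.2 + r := by omega
    push_cast
    refine ⟨?_, ?_, ?_, ?_⟩
    · linarith
    · have : 8 * (N : ℤ) * r - y - 1 < r * (8 * N - 1 - b.2) + r := by linarith
      exact this
    · linarith
    · linarith
  · simp only [sqE, mem_RE_true] at h
    simp only [sqE, mirE, if_true, mem_RE_false]
    obtain ⟨h1, h2, h3, h4⟩ := h
    have h5 : x + 1 ≤ r * b.1 + r := by omega
    push_cast
    refine ⟨?_, ?_, ?_, ?_⟩
    · linarith
    · linarith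
    · linarith
    · have : 8 * (N : ℤ) * r - x - 1 < r * (8 * N - 1 - b.1) + r := by linarith
      exact this

/-! ### periodicity -/

theorem BxQ_per {N : ℕ} {z : ℤ × ℤ} (h : z ∈ BxQ N) (s : ℤ) :
    (z.1 + s * (8 * N), z.2 + s * (8 * N)) ∈ BxQ N := by
  obtain ⟨t, h⟩ := h
  refine ⟨t + s, ?_⟩
  have e1 : z.1 + s * (8 * N) - (t + s) * (8 * N) = z.1 - t * (8 * N) := by ring
  have e2 : z.2 + s * (8 * N) - (t + s) * (8 * N) = z.2 - t * (8 * N) := by ring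
  show _ ∧ _
  simp only [e1, e2]
  exact h

theorem CrC_per {N k : ℕ} {c : Fin k → ℤ} {z : ℤ × ℤ} (h : z ∈ CrC N k c) (s : ℤ) :
    (z.1 + s * (8 * N), z.2 + s * (8 * N)) ∈ CrC N k c := by
  obtain ⟨a, t, h⟩ := h
  refine ⟨a, t + s, ?_⟩
  have e1 : z.1 + s * (8 * N) - (t + s) * (8 * N) = z.1 - t * (8 * N) := by ring
  have e2 : z.2 + s * (8 * N) - (t + s) * (8 * N) = z.2 - t * (8 * N) := by ring
  show (z.1 + s * (8 * N) - (t + s) * (8 * N), z.2 + s * (8 * N) - (t + s) * (8 * N)) ∈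
    TbC N (c a)
  rw [e1, e2]
  exact h

theorem EP_per {N r n : ℕ} (hn : n = 8 * N * r) {P : Set (ℤ × ℤ)}
    (hP : ∀ z ∈ P, ∀ s : ℤ, (z.1 + s * (8 * N), z.2 + s * (8 * N)) ∈ P) {e : Edg} (q : ℤ)
    (h : e ∈ EP r P) : she (2 * n) q e ∈ EP r P := by
  obtain ⟨z, hz, he⟩ := h
  refine ⟨_, hP z hz (2 * q), ?_⟩
  subst hn
  obtain ⟨x, y, _ | _⟩ := e
  · simp only [sqE, mem_RE_false, she] at he ⊢
    obtain ⟨h1, h2, h3, h4⟩ := he
    push_cast
    refine ⟨?_, ?_, ?_, ?_⟩ <;> linarith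
  · simp only [sqE, mem_RE_true, she] at he ⊢
    obtain ⟨h1, h2, h3, h4⟩ := he
    push_cast
    refine ⟨?_, ?_, ?_, ?_⟩ <;> linarith

theorem EP_per_iff {N r n : ℕ} (hn : n = 8 * N * r) {P : Set (ℤ × ℤ)}
    (hP : ∀ z ∈ P, ∀ s : ℤ, (z.1 + s * (8 * N), z.2 + s * (8 * N)) ∈ P) {e : Edg} (q : ℤ) :
    she (2 * n) q e ∈ EP r P ↔ e ∈ EP r P := by
  refine ⟨fun h => ?_, EP_per hn hP q⟩
  have := EP_per hn hP (-q) h
  have e1 : she (2 * n) (-q) (she (2 * n) q e) = e := by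
    obtain ⟨x, y, b⟩ := e
    simp only [she, Prod.mk.injEq, and_true]
    constructor <;> ring
  rwa [e1] at this

/-- edges of the box are in its squares -/
theorem box_sqE {N r : ℕ} (hN : 1 ≤ N) (hr : 1 ≤ r) {e : Edg} (h1 : nm (src e) ≤ (N * r : ℕ))
    (h2 : nm (tgt e) ≤ (N * r : ℕ)) :
    ∃ b : ℤ × ℤ, (-(N : ℤ) ≤ b.1 ∧ b.1 < N ∧ -(N : ℤ) ≤ b.2 ∧ b.2 < N) ∧ e ∈ sqE r b := by
  have hr' : (0 : ℤ) < r := by omega
  have one : ∀ x : ℤ, -((N * r : ℕ) : ℤ) ≤ x → x ≤ (N * r : ℕ) →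
      ∃ b : ℤ, -(N : ℤ) ≤ b ∧ b < N ∧ r * b ≤ x ∧ x ≤ r * b + r := by
    intro x h1 h2
    obtain ⟨b, hb, hb'⟩ := box_sq (v := (x, x)) hN hr (by rw [nm_le]; exact ⟨⟨h1, h2⟩, h1, h2⟩)
    exact ⟨b.1, hb.1, hb.2.1, hb'.1, hb'.2.1⟩
  have two : ∀ x : ℤ, -((N * r : ℕ) : ℤ) ≤ x → x < (N * r : ℕ) →
      ∃ b : ℤ, -(N : ℤ) ≤ b ∧ b < N ∧ r * b ≤ x ∧ x < r * b + r := by
    intro x h1 h2
    push_cast at h1 h2
    refine ⟨x / r, ?_, ?_, ?_, ?_⟩
    · rw [Int.le_ediv_iff_mul_le hr']; linarith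
    · rw [Int.ediv_lt_iff_lt_mul hr']; exact h2
    · exact Int.mul_ediv_self_le (by omega)
    · have := Int.lt_mul_ediv_self_add (x := x) hr'
      linarith
  rw [nm_le] at h1 h2
  obtain ⟨x, y, _ | _⟩ := e
  · simp only [src_mk, tgt_false] at h1 h2
    obtain ⟨b1, p1, p2, p3, p4⟩ := one x h1.1.1 h1.1.2
    obtain ⟨b2, q1, q2, q3, q4⟩ := two y h1.2.1 (by omega)
    refine ⟨(b1, b2), ⟨p1, p2, q1, q2⟩, ?_⟩
    simp only [sqE, mem_RE_false]; exact ⟨p3, p4, q3, q4⟩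
  · simp only [src_mk, tgt_true] at h1 h2
    obtain ⟨b1, p1, p2, p3, p4⟩ := two x h1.1.1 (by omega)
    obtain ⟨b2, q1, q2, q3, q4⟩ := one y h1.2.1 h1.2.2
    refine ⟨(b1, b2), ⟨p1, p2, q1, q2⟩, ?_⟩
    simp only [sqE, mem_RE_true]; exact ⟨p3, p4, q3, q4⟩

theorem out {r N : ℕ} {h : ℤ} {v : Vtx} (hv : inSq r ((N : ℤ), h) v) :
    ((N * r : ℕ) : ℤ) ≤ nm v := by
  unfold inSq at hv
  unfold nm
  rw [le_max_iff, le_abs, le_abs]
  left; left
  push_cast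
  have := hv.1
  simp only at this
  linarith

/-! ### the data -/

/-- the data -/
structure D (N r m : ℕ) (c : Fin (m / 2) → ℤ) (n M : ℕ) (F : Finset Edg) (G : Set Edg) : Prop where
  q1 : S_q1
  q3 : S_q3
  hm : 2 ≤ m
  hN : m + 4 ≤ N
  hr : 2 ≤ r
  hc : AdmC N (m / 2) c
  hn : n = 8 * N * r
  hM : M = 8 * n
  hG : G = per (2 * n) F
  L0 : LandC N r m c G
  L1 : LandC N r m c (mirG n G)

variable {N r m : ℕ} {c : Fin (m / 2) → ℤ} {n M : ℕ} {F : Finset Edg} {G : Set Edg}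

theorem D.nR (d : D N r m c n M F G) : (n : ℤ) = 8 * ((N * r : ℕ) : ℤ) := by
  rw [d.hn]; push_cast; ring

theorem D.R0 (d : D N r m c n M F G) : (m : ℤ) + 4 ≤ ((N * r : ℕ) : ℤ) := by
  have h1 := d.hr
  have h2 := d.hN
  have : N * 1 ≤ N * r := Nat.mul_le_mul_left _ (by omega)
  have h3 : ((N * 1 : ℕ) : ℤ) ≤ ((N * r : ℕ) : ℤ) := by exact_mod_cast this
  push_cast at h3 ⊢
  omega

theorem D.n0 (d : D N r m c n M F G) : 0 < 2 * n := by
  have h1 := d.nR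
  have h2 := d.R0
  omega

theorem mem_FA {e : Edg} : e ∈ FA N r (m / 2) c n M F ↔ e ∈ CE (2 * n) M ∧
    ((e ∈ EP r (BxQ N) ∧ e ∈ F) ∨ (e ∉ EP r (BxQ N) ∧ e ∈ EP r (CrC N (m / 2) c))) := by
  classical
  unfold FA
  simp only [Finset.mem_filter]

/-- the edges of the periodic configuration -/
theorem D.mem (d : D N r m c n M F G) {e : Edg} : e ∈ per (2 * n) (FA N r (m / 2) c n M F) ↔
    red (2 * n) e ∈ CE (2 * n) M ∧ ((e ∈ EP r (BxQ N) ∧ e ∈ G) ∨
      (e ∉ EP r (BxQ N) ∧ e ∈ EP r (CrC N (m / 2) c))) := by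
  show red (2 * n) e ∈ FA N r (m / 2) c n M F ↔ _
  rw [mem_FA]
  have h3 := red_eq (2 * n) e
  have h4 : e ∈ G ↔ red (2 * n) e ∈ F := by rw [d.hG]; rfl
  rw [h4]
  rw [show (red (2 * n) e ∈ EP r (BxQ N) ↔ e ∈ EP r (BxQ N)) by
    rw [h3, EP_per_iff d.hn (fun z hz s => BxQ_per hz s)],
    show (red (2 * n) e ∈ EP r (CrC N (m / 2) c) ↔ e ∈ EP r (CrC N (m / 2) c)) by
    rw [h3, EP_per_iff d.hn (fun z hz s => CrC_per hz s)]]

/-- extent of the boxes -/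
theorem D.inbox (d : D N r m c n M F G) {z : ℤ × ℤ} {v : Vtx} {s : ℤ}
    (hz : -(N : ℤ) ≤ z.1 - s * (8 * N) ∧ z.1 - s * (8 * N) < N ∧
      -(N : ℤ) ≤ z.2 - s * (8 * N) ∧ z.2 - s * (8 * N) < N) (hv : inSq r z v) :
    (s * n - (N * r : ℕ) ≤ v.1 ∧ v.1 ≤ s * n + (N * r : ℕ)) ∧
    (s * n - (N * r : ℕ) ≤ v.2 ∧ v.2 ≤ s * n + (N * r : ℕ)) := by
  obtain ⟨a1, a2, a3, a4⟩ := hv
  obtain ⟨b1, b2, b3, b4⟩ := hz
  have hr' : (0 : ℤ) < r := by have := d.hr; omega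
  have hn' : (n : ℤ) = 8 * N * r := by rw [d.hn]; push_cast; ring
  rw [hn']
  push_cast
  refine ⟨⟨?_, ?_⟩, ?_, ?_⟩ <;> nlinarith

/-- only two boxes meet the strip -/
theorem D.box01 (d : D N r m c n M F G) {e : Edg} (h : e ∈ EP r (BxQ N)) (hs : e ∈ Ss n) :
    e ∈ qbx (N * r : ℕ) ∨ mirE n e ∈ qbx (N * r : ℕ) := by
  obtain ⟨z, ⟨s, hz⟩, hez⟩ := h
  obtain ⟨h1, h2⟩ := sqE_inSq hez
  have g1 := d.inbox hz h1
  have g2 := d.inbox hz h2
  have hn := d.nR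
  have hR := d.R0
  obtain ⟨s1, s2, s3⟩ := hs
  have e1 : (src e).1 = e.1 := rfl
  have e2 : (src e).2 = e.2.1 := rfl
  rw [e1, e2] at g1
  have hlo : 0 ≤ s := by
    by_contra hc
    push Not at hc
    have : s * (n : ℤ) ≤ -n := by nlinarith
    omega
  have hhi : s ≤ 1 := by
    by_contra hc
    push Not at hc
    have : 2 * (n : ℤ) ≤ s * n := by nlinarith
    omega
  have hcase : s = 0 ∨ s = 1 := by omega
  rcases hcase with rfl | rfl
  · left
    refine ⟨s1, s2, ?_, ?_⟩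
    · rw [nm_le, e1, e2]
      omega
    · rw [nm_le]
      omega
  · right
    refine ⟨by rw [dco_mir]; exact s1, by rw [sum_mir]; omega, ?_, ?_⟩
    · rw [src_mir, nm_le]
      simp only [mv]
      omega
    · rw [tgt_mir, nm_le]
      simp only [mv]
      rw [e1, e2]
      omega

/-- a vertex of a tube in the left box is in the cell -/
theorem D.cellL (d : D N r m c n M F G) {a : Fin (m / 2)} {z : ℤ × ℤ} {v : Vtx}
    (hz : z ∈ TubeC N (m / 2) c a 0) (hv : inSq r z v) (h : nm v ≤ (N * r : ℕ)) :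
    inSq r ((N : ℤ), c a) v ∧ nm v = (N * r : ℕ) := by
  have hN := d.hN
  have hr := d.hr
  obtain ⟨b, hb, hbv⟩ := box_sq (by omega) (by omega) h
  obtain ⟨h1, h2⟩ := sq_near (by omega) hv hbv
  have h3 := (d.q1 N (m / 2) c (by omega) d.hc).2.1 a 0 0 z b hz
    (by simpa using hb) h1 h2
  rcases h3 with ⟨-, h3⟩ | ⟨h3, -⟩
  · have h4 : z = ((N : ℤ), c a) := by rw [h3]; simp
    rw [h4] at hv
    exact ⟨hv, le_antisymm h (out hv)⟩
  · omega

/-- a vertex of a tube in the right box is in the cell -/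
theorem D.cellR (d : D N r m c n M F G) {a : Fin (m / 2)} {z : ℤ × ℤ} {v : Vtx}
    (hz : z ∈ TubeC N (m / 2) c a 0) (hv : inSq r z v) (h : nm (mv n v) ≤ (N * r : ℕ)) :
    inSq r ((N : ℤ), c a) (mv n v) ∧ nm (mv n v) = (N * r : ℕ) := by
  have hN := d.hN
  have hr := d.hr
  have hn' : (n : ℤ) = 8 * N * r := by rw [d.hn]; push_cast; ring
  obtain ⟨b, hb, hbv⟩ := box_sq (by omega) (by omega) h
  have hbv' : inSq r (8 * (N : ℤ) - 1 - b.2, 8 * (N : ℤ) - 1 - b.1) v := by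
    obtain ⟨x1, x2, x3, x4⟩ := hbv
    simp only [mv] at x1 x2 x3 x4
    rw [hn'] at x1 x2 x3 x4
    refine ⟨?_, ?_, ?_, ?_⟩ <;> simp only <;> linarith
  obtain ⟨h1, h2⟩ := sq_near (by omega) hv hbv'
  have h3 := (d.q1 N (m / 2) c (by omega) d.hc).2.1 a 0 1 z _ hz
    (by simp only; omega) h1 h2
  rcases h3 with ⟨h3, -⟩ | ⟨-, h3⟩
  · omega
  · have h4 : inSq r ((N : ℤ), c a) (mv n v) := by
      rw [h3] at hv
      obtain ⟨x1, x2, x3, x4⟩ := hv
      simp only at x1 x2 x3 x4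
      refine ⟨?_, ?_, ?_, ?_⟩ <;> simp only [mv] <;> rw [hn'] <;> linarith
    exact ⟨h4, le_antisymm h (out h4)⟩

/-! ### the invariant -/

/-- vertices attached to the tube `a` -/
def TA (N r m : ℕ) (c : Fin (m / 2) → ℤ) (n : ℕ) (G : Set Edg) (a : Fin (m / 2)) (w : Vtx) : Prop :=
  (∃ z ∈ TubeC N (m / 2) c a 0, inSq r z w) ∨
  (nm w ≤ (N * r : ℕ) ∧ ∃ u : Vtx, inSq r ((N : ℤ), c a) u ∧ nm u = (N * r : ℕ) ∧
    Reach (G ∩ qbx (N * r : ℕ)) w u) ∨
  (nm (mv n w) ≤ (N * r : ℕ) ∧ ∃ u : Vtx, inSq r ((N : ℤ), c a) u ∧ nm u = (N * r : ℕ) ∧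
    Reach (mirG n G ∩ qbx (N * r : ℕ)) (mv n w) u)

theorem D.innerL (d : D N r m c n M F G) {a : Fin (m / 2)} {w : Vtx}
    (h : TA N r m c n G a w) (hs : nm w ≤ (N * r : ℕ)) :
    ∃ u : Vtx, inSq r ((N : ℤ), c a) u ∧ nm u = (N * r : ℕ) ∧
      Reach (G ∩ qbx (N * r : ℕ)) w u := by
  rcases h with ⟨z, hz, hv⟩ | ⟨-, h⟩ | ⟨h1, -⟩
  · obtain ⟨h1, h2⟩ := d.cellL hz hv hs
    exact ⟨w, h1, h2, Relation.ReflTransGen.refl⟩
  · exact h
  · exfalso
    rw [nm_le] at hs h1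
    simp only [mv] at h1
    have h2 := d.nR
    have h3 := d.R0
    omega

theorem D.innerR (d : D N r m c n M F G) {a : Fin (m / 2)} {w : Vtx}
    (h : TA N r m c n G a w) (hs : nm (mv n w) ≤ (N * r : ℕ)) :
    ∃ u : Vtx, inSq r ((N : ℤ), c a) u ∧ nm u = (N * r : ℕ) ∧
      Reach (mirG n G ∩ qbx (N * r : ℕ)) (mv n w) u := by
  rcases h with ⟨z, hz, hv⟩ | ⟨h1, -⟩ | ⟨-, h⟩
  · obtain ⟨h1, h2⟩ := d.cellR hz hv hs
    exact ⟨_, h1, h2, Relation.ReflTransGen.refl⟩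
  · exfalso
    rw [nm_le] at hs h1
    simp only [mv] at hs
    have h2 := d.nR
    have h3 := d.R0
    omega
  · exact h

/-- members in a closed square of a tube -/
theorem D.tube_lab (d : D N r m c n M F G) {a a' : Fin (m / 2)} {w : Vtx} {z : ℤ × ℤ}
    (h : TA N r m c n G a w) (hz : z ∈ TubeC N (m / 2) c a' 0) (hv : inSq r z w) : a = a' := by
  have hr := d.hr
  have hN := d.hN
  rcases h with ⟨z', hz', hv'⟩ | ⟨h, u, h2, h3, h5⟩ | ⟨h, u, h2, h3, h5⟩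
  · obtain ⟨e1, e2⟩ := sq_near (by omega) hv' hv
    exact ((d.q1 N (m / 2) c (by omega) d.hc).1 a a' 0 0 z' z hz' hz e1 e2).1
  · obtain ⟨e1, e2⟩ := d.cellL hz hv h
    by_contra hab
    exact d.L0.2.1 a a' hab u w h2 h3 e1 e2 (Reach.symm h5)
  · obtain ⟨e1, e2⟩ := d.cellR hz hv h
    by_contra hab
    exact d.L1.2.1 a a' hab u _ h2 h3 e1 e2 (Reach.symm h5)

/-- extent of the tubes -/
theorem D.tube_ext (d : D N r m c n M F G) {a : Fin (m / 2)} {s : ℤ} {z : ℤ × ℤ} {v : Vtx}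
    (hz : z ∈ TubeC N (m / 2) c a s) (hv : inSq r z v) :
    2 * r ≤ v.1 - v.2 ∧ v.1 - v.2 ≤ 11 * (N * r : ℕ) ∧
    3 * r ≤ v.1 + v.2 - 2 * (s * n) ∧ v.1 + v.2 - 2 * (s * n) ≤ 2 * n - 3 * r := by
  have hN := d.hN
  obtain ⟨x1, x2, x3, x4⟩ := (d.q1 N (m / 2) c (by omega) d.hc).2.2 a s z hz
  obtain ⟨a1, a2, a3, a4⟩ := hv
  have hr' : (2 : ℤ) ≤ r := by exact_mod_cast d.hr
  have hN' : (4 : ℤ) ≤ N := by omega
  have hn' : (n : ℤ) = 8 * N * r := by rw [d.hn]; push_cast; ring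
  have y1 : (r : ℤ) * 3 ≤ r * (z.1 - z.2) := mul_le_mul_of_nonneg_left x1 (by omega)
  have y2 : (r : ℤ) * (z.1 - z.2) ≤ r * (10 * N) := mul_le_mul_of_nonneg_left x2 (by omega)
  have y3 : (r : ℤ) * 3 ≤ r * (z.1 + z.2 - 2 * s * (8 * N)) :=
    mul_le_mul_of_nonneg_left x3 (by omega)
  have y4 : (r : ℤ) * (z.1 + z.2 - 2 * s * (8 * N)) ≤ r * (2 * (8 * N) - 5) :=
    mul_le_mul_of_nonneg_left x4 (by omega)
  have y5 : (4 : ℤ) * r ≤ N * r := by nlinarith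
  rw [hn']
  push_cast
  refine ⟨?_, ?_, ?_, ?_⟩ <;> nlinarith

/-- one direction of the invariance along edges -/
theorem D.step (d : D N r m c n M F G) {a : Fin (m / 2)} {e : Edg} {v w : Vtx} (h0 : e ∈ Ss n)
    (he : (e ∈ EP r (BxQ N) ∧ e ∈ G) ∨ (e ∉ EP r (BxQ N) ∧ e ∈ EP r (CrC N (m / 2) c)))
    (hvw : (v = src e ∧ w = tgt e) ∨ (v = tgt e ∧ w = src e))
    (h : TA N r m c n G a v) : TA N r m c n G a w := by
  rcases he with ⟨heB, heG⟩ | ⟨_, z, ⟨a', s, hz⟩, hez⟩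
  · rcases d.box01 heB h0 with hq | hq
    · have hb : nm v ≤ (N * r : ℕ) ∧ nm w ≤ (N * r : ℕ) := by
        rcases hvw with ⟨ha, hb⟩ | ⟨ha, hb⟩
        · rw [ha, hb]; exact ⟨hq.2.2.1, hq.2.2.2⟩
        · rw [ha, hb]; exact ⟨hq.2.2.2, hq.2.2.1⟩
      obtain ⟨u, g2, g3, g4⟩ := d.innerL h hb.1
      refine Or.inr (Or.inl ⟨hb.2, u, g2, g3, ?_⟩)
      have hl : Reach (G ∩ qbx (N * r : ℕ)) w v := by
        refine Relation.ReflTransGen.single ⟨e, ⟨heG, hq⟩, ?_⟩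
        rcases hvw with ⟨ha, hb⟩ | ⟨ha, hb⟩
        · right; rw [ha, hb]; exact ⟨rfl, rfl⟩
        · left; rw [ha, hb]; exact ⟨rfl, rfl⟩
      exact hl.trans g4
    · have hb : nm (mv n v) ≤ (N * r : ℕ) ∧ nm (mv n w) ≤ (N * r : ℕ) := by
        have k1 := hq.2.2.1
        have k2 := hq.2.2.2
        rw [src_mir] at k1
        rw [tgt_mir] at k2
        rcases hvw with ⟨ha, hb⟩ | ⟨ha, hb⟩
        · rw [ha, hb]; exact ⟨k2, k1⟩
        · rw [ha, hb]; exact ⟨k1, k2⟩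
      obtain ⟨u, g2, g3, g4⟩ := d.innerR h hb.1
      refine Or.inr (Or.inr ⟨hb.2, u, g2, g3, ?_⟩)
      have hl : Reach (mirG n G ∩ qbx (N * r : ℕ)) (mv n w) (mv n v) := by
        refine Relation.ReflTransGen.single ⟨mirE n e, ⟨?_, hq⟩, ?_⟩
        · show mirE n (mirE n e) ∈ G
          rw [mir_mir]; exact heG
        · rw [src_mir, tgt_mir]
          rcases hvw with ⟨ha, hb⟩ | ⟨ha, hb⟩
          · left; rw [ha, hb]; exact ⟨rfl, rfl⟩
          · right; rw [ha, hb]; exact ⟨rfl, rfl⟩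
      exact hl.trans g4
  · obtain ⟨h1, h2⟩ := sqE_inSq hez
    have hs : s = 0 := by
      have k1 := (d.tube_ext hz h1).2.2
      have hn := d.nR
      have hR := d.R0
      have hr : (2 : ℤ) ≤ r := by exact_mod_cast d.hr
      obtain ⟨s1, s2, s3⟩ := h0
      have e1 : (src e).1 = e.1 := rfl
      have e2 : (src e).2 = e.2.1 := rfl
      rw [e1, e2] at k1
      by_contra hne
      rcases lt_or_gt_of_ne hne with hlt | hgt
      · have : s * (n : ℤ) ≤ -n := by nlinarith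
        omega
      · have : (n : ℤ) ≤ s * n := by nlinarith
        omega
    subst hs
    have hv : inSq r z v := by rcases hvw with ⟨h, -⟩ | ⟨h, -⟩ <;> rw [h] <;> assumption
    have hw : inSq r z w := by rcases hvw with ⟨-, h⟩ | ⟨-, h⟩ <;> rw [h] <;> assumption
    have := d.tube_lab h hz hv
    subst this
    exact Or.inl ⟨z, hz, hw⟩

/-- the invariant is invariant -/
theorem D.inv (d : D N r m c n M F G) (a : Fin (m / 2)) {x y : Vtx}
    (h : Reach (per (2 * n) (FA N r (m / 2) c n M F) ∩ Ss n) x y) :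
    TA N r m c n G a x → TA N r m c n G a y := by
  intro hx
  induction h with
  | refl => exact hx
  | tail _ hs ih =>
    obtain ⟨e, ⟨he, h0⟩, hvw⟩ := hs
    refine d.step (e := e) h0 ((d.mem.1 he).2) ?_ ih
    rcases hvw with ⟨h1, h2⟩ | ⟨h1, h2⟩
    · left; exact ⟨h1.symm, h2.symm⟩
    · right; exact ⟨h2.symm, h1.symm⟩

/-! ### building connections -/

theorem D.inM (d : D N r m c n M F G) {e : Edg} (h0 : 0 ≤ dco e)
    (h1 : dco e ≤ 11 * (N * r : ℕ)) : red (2 * n) e ∈ CE (2 * n) M := by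
  have h2 := d.nR
  have h3 := d.R0
  have h4 := d.hM
  exact red_mem d.n0 (by omega) (by omega)

theorem dco_le (e : Edg) : dco e ≤ (src e).1 - (src e).2 := by
  obtain ⟨x, y, _ | _⟩ := e
  · simp only [dco, Bool.false_eq_true, if_false, src_mk]; omega
  · simp only [dco, if_true, src_mk]; omega

theorem dco_ge (e : Edg) : (src e).1 - (src e).2 - 1 ≤ dco e := by
  obtain ⟨x, y, _ | _⟩ := e
  · simp only [dco, Bool.false_eq_true, if_false, src_mk]; omega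
  · simp only [dco, if_true, src_mk]; omega

/-- connections of the left box -/
theorem D.box_L (d : D N r m c n M F G) {w w' : Vtx}
    (h : Reach (G ∩ qbx (N * r : ℕ)) w w') :
    Reach (per (2 * n) (FA N r (m / 2) c n M F) ∩ Ss n) w w' := by
  induction h with
  | refl => exact Relation.ReflTransGen.refl
  | tail _ hs ih =>
    refine ih.tail ?_
    obtain ⟨e, ⟨he, h0, h1, h2, h3⟩, hvw⟩ := hs
    have hN := d.hN
    have hr := d.hr
    have hn := d.nR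
    have hR := d.R0
    obtain ⟨b, hb, hbe⟩ := box_sqE (N := N) (r := r) (by omega) (by omega) h2 h3
    have hd := dco_le e
    rw [nm_le] at h2
    refine ⟨e, ⟨?_, h0, h1, ?_⟩, hvw⟩
    · rw [d.mem]
      refine ⟨d.inM h0 (by omega), Or.inl ⟨⟨b, ⟨0, ?_⟩, hbe⟩, he⟩⟩
      simpa using hb
    · have e1 : (src e).1 = e.1 := rfl
      have e2 : (src e).2 = e.2.1 := rfl
      rw [e1, e2] at h2
      omega

/-- connections of the right box -/
theorem D.box_R (d : D N r m c n M F G) {w w' : Vtx}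
    (h : Reach (mirG n G ∩ qbx (N * r : ℕ)) w w') :
    Reach (per (2 * n) (FA N r (m / 2) c n M F) ∩ Ss n) (mv n w) (mv n w') := by
  induction h with
  | refl => exact Relation.ReflTransGen.refl
  | tail _ hs ih =>
    refine ih.tail ?_
    obtain ⟨e, ⟨he, h0, h1, h2, h3⟩, hvw⟩ := hs
    have hN := d.hN
    have hr := d.hr
    have hn := d.nR
    have hR := d.R0
    obtain ⟨b, hb, hbe⟩ := box_sqE (N := N) (r := r) (by omega) (by omega) h2 h3
    have hd := dco_le e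
    rw [nm_le] at h2
    refine ⟨mirE n e, ⟨?_, ?_, ?_, ?_⟩, ?_⟩
    · rw [d.mem]
      refine ⟨d.inM (by rw [dco_mir]; exact h0) (by rw [dco_mir]; omega),
        Or.inl ⟨⟨_, ⟨1, ?_⟩, mir_sq d.hn hbe⟩, he⟩⟩
      simp only
      omega
    · rw [dco_mir]; exact h0
    · rw [sum_mir]
      have e1 : (src e).1 = e.1 := rfl
      have e2 : (src e).2 = e.2.1 := rfl
      rw [e1, e2] at h2
      omega
    · rw [sum_mir]; omega
    · rw [src_mir, tgt_mir]
      rcases hvw with ⟨h1, h2⟩ | ⟨h1, h2⟩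
      · right; rw [h1, h2]; exact ⟨rfl, rfl⟩
      · left; rw [h1, h2]; exact ⟨rfl, rfl⟩

/-- connections of a tube -/
theorem D.tube_R (d : D N r m c n M F G) {a : Fin (m / 2)} {u v : Vtx}
    (h : Reach (EP r (TubeC N (m / 2) c a 0) \ EP r (BxQ N)) u v) :
    Reach (per (2 * n) (FA N r (m / 2) c n M F) ∩ Ss n) u v := by
  induction h with
  | refl => exact Relation.ReflTransGen.refl
  | tail _ hs ih =>
    refine ih.tail ?_
    obtain ⟨e, ⟨⟨z, hz, hez⟩, heB⟩, he⟩ := hs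
    obtain ⟨h1, h2⟩ := sqE_inSq hez
    obtain ⟨x1, x2, x3, x4⟩ := d.tube_ext hz h1
    have hr' : (2 : ℤ) ≤ r := by exact_mod_cast d.hr
    have hd := dco_le e
    have hd' := dco_ge e
    have e1 : (src e).1 = e.1 := rfl
    have e2 : (src e).2 = e.2.1 := rfl
    refine ⟨e, ⟨?_, ?_, ?_, ?_⟩, he⟩
    · rw [d.mem]
      exact ⟨d.inM (by omega) (by omega), Or.inr ⟨heB, z, ⟨a, 0, hz⟩, hez⟩⟩
    · omega
    · rw [e1, e2] at x3; omega
    · rw [e1, e2] at x4; omega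

theorem cv_nm (i : ℕ) : nm (cv i) = i := by
  unfold cv nm
  simp only [max_self]
  exact abs_of_nonneg (by positivity)

theorem cv_mv (n i : ℕ) : mv n (cv i) = cw n i := rfl

end TDET

open TDET

theorem t_DET : S_q1 → S_q3 → S_MIR → S_DET := by
  intro g1 g3 _ N r m c hm hN hr hc n M hn hM F hF hL hL'
  have d : D N r m c n M F (per (2 * n) F) :=
    { q1 := g1, q3 := g3, hm := hm, hN := hN, hr := hr, hc := hc, hn := hn, hM := hM,
      hG := rfl, L0 := hL, L1 := hL' }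
  obtain ⟨⟨π, hinj, hπ⟩, hsep, hodd⟩ := hL
  obtain ⟨⟨π', hinj', hπ'⟩, hsep', hodd'⟩ := hL'
  have h4 := d.nR
  have h5 := d.R0
  have hsur : ∀ i, i < m / 2 → ∃ a, π a = i := by
    intro i hi
    let f : Fin (m / 2) → Fin (m / 2) := fun a => ⟨π a, (hπ a).1⟩
    have hf : Function.Injective f := by
      intro a b hab
      exact hinj (congrArg Fin.val hab)
    obtain ⟨a, ha⟩ := (Finite.injective_iff_surjective.1 hf) ⟨i, hi⟩
    exact ⟨a, congrArg Fin.val ha⟩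
  have hcvL : ∀ i : ℕ, i < m / 2 → nm (cv i) ≤ (N * r : ℕ) := by
    intro i hi
    rw [cv_nm]
    omega
  have hSL : ∀ a : Fin (m / 2), TA N r m c n (per (2 * n) F) a (cv (π a)) := by
    intro a
    obtain ⟨h1, v, h6, h7, h8⟩ := hπ a
    exact Or.inr (Or.inl ⟨hcvL _ h1, v, h6, h7, h8⟩)
  refine ⟨?_, ?_, ?_⟩
  · intro i j hi hj hij hR
    obtain ⟨a, rfl⟩ := hsur i hi
    obtain ⟨b, rfl⟩ := hsur j hj
    have h6 := d.inv a hR (hSL a)
    obtain ⟨u, u1, u2, u3⟩ := d.innerL h6 (hcvL _ hj)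
    obtain ⟨-, v, v1, v2, v3⟩ := hπ b
    have hab : a ≠ b := fun h => hij (congrArg π h)
    exact hsep a b hab u v u1 u2 v1 v2 ((Reach.symm u3).trans v3)
  · intro i hi
    obtain ⟨a, rfl⟩ := hsur i hi
    obtain ⟨h1, v, h6, h7, h8⟩ := hπ a
    obtain ⟨k1, w, k6, k7, k8⟩ := hπ' a
    refine ⟨π' a, k1, ?_⟩
    rw [← cv_mv]
    refine (d.box_L h8).trans ?_
    refine Relation.ReflTransGen.trans ?_ (Reach.symm (d.box_R k8))
    have hn' : (n : ℤ) = 8 * N * r := by rw [hn]; push_cast; ring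
    have hca := hc.1 a
    have t1 : ((N : ℤ), c a) ∈ TubeC N (m / 2) c a 0 := by
      left
      simp only
      omega
    have t2 : (8 * (N : ℤ) - 1 - c a, 7 * (N : ℤ) - 1) ∈ TubeC N (m / 2) c a 0 := by
      right
      simp only
      omega
    refine d.tube_R (g3 N (m / 2) c (by omega) hc r a 0 _ _ _ _ (by omega) t1 t2 h6 ?_)
    obtain ⟨x1, x2, x3, x4⟩ := k6
    simp only at x1 x2 x3 x4
    refine ⟨?_, ?_, ?_, ?_⟩ <;> simp only [mv] <;> rw [hn'] <;> linarith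
  · intro hmod i j hi hj hjn hR
    obtain ⟨a, rfl⟩ := hsur i hi
    have h6 := d.inv a hR (hSL a)
    by_cases hjL : (j : ℤ) ≤ (N * r : ℕ)
    · obtain ⟨u, u1, u2, u3⟩ := d.innerL h6 (by rw [cv_nm]; exact hjL)
      exact hodd hmod a u u1 u2 j hj (by exact_mod_cast hjL) (Reach.symm u3)
    · have hjn' : j ≤ n := by omega
      have e1 : mv n (cv j) = cv (n - j) := by
        simp only [mv, cv]
        rw [Nat.cast_sub hjn']
      by_cases hjR : ((n - j : ℕ) : ℤ) ≤ (N * r : ℕ)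
      · obtain ⟨u, u1, u2, u3⟩ := d.innerR h6 (by rw [e1, cv_nm]; exact hjR)
        rw [e1] at u3
        exact hodd' hmod a u u1 u2 (n - j) (by omega) (by exact_mod_cast hjR) (Reach.symm u3)
      · rcases h6 with ⟨z, hz, hv⟩ | ⟨h6, -⟩ | ⟨h6, -⟩
        · have h7 := (d.tube_ext hz hv).1
          simp only [cv] at h7
          omega
        · rw [cv_nm] at h6
          exact hjL h6
        · rw [e1, cv_nm] at h6
          exact hjR h6

end Pool.Agent.W808.KC
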