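import Pool.Agent.W808.KC.Stm
import Pool.Agent.H160R2.MU.T_DETP

/-!
# Task DETP: transport of the landing events at the two corners to the cylinder
-/

set_option autoImplicit false

namespace Pool.Agent.W808.KC
open H974 H906.Cyl
open H12S (Dir hbE segD rimE H4 Crs Nr sqE)
open Pool.Agent.H160R2.ML (nm)
open Pool.Agent.H160R2.MU (EP inSq PC Cc)

namespace TDETP

/-! ### the mirror image -/

theorem mirE_mirE (n : ℕ) (e : Edg) : mirE n (mirE n e) = e := by
  obtain ⟨x, y, _ | _⟩ := e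
  · simp only [mirE, Bool.false_eq_true, if_false, if_true, Prod.mk.injEq, and_true]
    constructor <;> ring
  · simp only [mirE, Bool.false_eq_true, if_false, if_true, Prod.mk.injEq, and_true]
    constructor <;> ring

theorem dco_mirE (n : ℕ) (e : Edg) : dco (mirE n e) = dco e := by
  obtain ⟨x, y, _ | _⟩ := e
  · simp only [mirE, dco, Bool.false_eq_true, if_false, if_true]
    ring
  · simp only [mirE, dco, Bool.false_eq_true, if_false, if_true]
    ring

theorem mirE_inj (n : ℕ) {e e' : Edg} (h : mirE n e = mirE n e') : e = e' := by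
  rw [← mirE_mirE n e, h, mirE_mirE]

/-- coordinates of the mirror image of an edge of the box -/
theorem mirE_close {n R : ℕ} {e : Edg} (he : e ∈ boxE R) :
    |(mirE n e).1 - n| ≤ R ∧ |(mirE n e).2.1 - n| ≤ R := by
  obtain ⟨x, y, _ | _⟩ := e
  · simp only [boxE, mem_RE_false] at he
    simp only [mirE, Bool.false_eq_true, if_false, abs_le]
    omega
  · simp only [boxE, mem_RE_true] at he
    simp only [mirE, if_true, abs_le]
    omega

theorem box_close {R : ℕ} {e : Edg} (he : e ∈ boxE R) : |e.1| ≤ R ∧ |e.2.1| ≤ R := by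
  obtain ⟨x, y, _ | _⟩ := e
  · simp only [boxE, mem_RE_false] at he
    simp only [abs_le]
    omega
  · simp only [boxE, mem_RE_true] at he
    simp only [abs_le]
    omega

theorem box_dco {R : ℕ} {e : Edg} (he : e ∈ boxE R) : -(2 * R : ℤ) ≤ dco e ∧ dco e < 2 * R := by
  have := RE_dco he
  omega

/-! ### equal representatives -/

theorem red_eq {n : ℕ} {e e' : Edg} (h : red n e = red n e') : ∃ K : ℤ,
    e.1 - e'.1 = K * n ∧ e.2.1 - e'.2.1 = K * n ∧ e.2.2 = e'.2.2 := by
  obtain ⟨x, y, b⟩ := e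
  obtain ⟨x', y', b'⟩ := e'
  simp only [red, Prod.mk.injEq] at h
  obtain ⟨h1, h2, h3⟩ := h
  refine ⟨(x + y) / (2 * (n : ℤ)) - (x' + y') / (2 * (n : ℤ)), ?_, ?_, h3⟩
  · linarith
  · linarith

theorem small_zero {n R K : ℤ} (hR : 2 * R < n) (h : |K * n| ≤ 2 * R) : K = 0 := by
  by_contra hK
  have h1 : 1 ≤ |K| := Int.one_le_abs hK
  rw [abs_mul] at h
  have h2 : n ≤ |n| := le_abs_self n
  nlinarith [abs_nonneg n, abs_nonneg K]

/-! ### general transport -/

theorem Pr_inj {q : ℝ} {S B : Finset Edg} (f : Edg → Edg) (hinj : Set.InjOn f B)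
    (hS : B.image f ⊆ S) (A : Finset Edg → Prop) :
    Pr (fun _ => q) S (fun F => A (B.filter (fun e => f e ∈ F))) = Pr (fun _ => q) B A := by
  have e1 : Pr (fun _ => q) S (fun F => A (B.filter (fun e => f e ∈ F)))
      = Pr (fun _ => q) (B.image f) (fun F => A (B.filter (fun e => f e ∈ F))) := by
    apply Pr_local hS
    intro F _
    have : B.filter (fun e => f e ∈ F) =
        B.filter (fun e => f e ∈ F ∩ B.image f) := by
      apply Finset.filter_congr
      intro e he
      rw [Finset.mem_inter]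
      exact ⟨fun h => ⟨h, Finset.mem_image_of_mem _ he⟩, fun h => h.1⟩
    rw [this]
  rw [e1]
  unfold Pr
  rw [Ex_image _ _ _ hinj]
  apply Ex_congr
  intro F hF
  apply ind_congr
  have : B.filter (fun e => f e ∈ F.image f) = F := by
    ext e
    rw [Finset.mem_filter, Finset.mem_image]
    constructor
    · rintro ⟨h1, a, h2, h3⟩
      have := hinj (Finset.mem_coe.2 (hF h2)) (Finset.mem_coe.2 h1) h3
      exact this ▸ h2
    · intro h
      exact ⟨hF h, e, h, rfl⟩
  show A (B.filter (fun e => f e ∈ F.image f)) ↔ A F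
  rw [this]

/-- the second box -/
def fm (n : ℕ) (e : Edg) : Edg := red (2 * n) (mirE n e)

theorem inj1 {n R : ℕ} (h : 4 * R < n) : Set.InjOn (red (2 * n)) (boxE R : Set Edg) := by
  unfold boxE
  apply red_inj_x
  push_cast
  omega

theorem inj2 {n R : ℕ} (h : 4 * R < n) : Set.InjOn (fm n) (boxE R : Set Edg) := by
  intro e he e' he' hee
  obtain ⟨K, h1, h2, h3⟩ := red_eq hee
  have c1 := mirE_close (n := n) (Finset.mem_coe.1 he)
  have c2 := mirE_close (n := n) (Finset.mem_coe.1 he')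
  have hK : K = 0 := by
    apply small_zero (n := ((2 * n : ℕ) : ℤ)) (R := R)
    · push_cast
      omega
    · rw [← h1]
      rw [abs_le] at c1 c2 ⊢
      constructor <;> linarith [c1.1.1, c1.1.2, c2.1.1, c2.1.2]
  subst hK
  apply mirE_inj n
  apply Prod.ext
  · linarith
  · apply Prod.ext
    · linarith
    · exact h3

theorem sub1 {n R M : ℕ} (hn : 0 < n) (h : 2 * R ≤ M) :
    (boxE R).image (red (2 * n)) ⊆ CE (2 * n) M := by
  intro e he
  obtain ⟨e', he', rfl⟩ := Finset.mem_image.1 he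
  have := box_dco he'
  apply red_mem (by omega)
  · omega
  · omega

theorem sub2 {n R M : ℕ} (hn : 0 < n) (h : 2 * R ≤ M) :
    (boxE R).image (fm n) ⊆ CE (2 * n) M := by
  intro e he
  obtain ⟨e', he', rfl⟩ := Finset.mem_image.1 he
  have := box_dco he'
  have h2 := dco_mirE n e'
  apply red_mem (by omega)
  · omega
  · omega

theorem disj {n R : ℕ} (h : 4 * R < n) :
    Disjoint ((boxE R).image (red (2 * n))) ((boxE R).image (fm n)) := by
  rw [Finset.disjoint_left]
  intro e he1 he2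
  obtain ⟨e1, h1, rfl⟩ := Finset.mem_image.1 he1
  obtain ⟨e2, h2, h3⟩ := Finset.mem_image.1 he2
  obtain ⟨K, h4, h5, h6⟩ := red_eq h3
  have c1 := box_close h1
  have c2 := mirE_close (n := n) h2
  -- (mirE n e2).1 - e1.1 = K * (2 n), close to n
  have h7 : |((2 * K - 1) * n : ℤ)| ≤ 2 * R := by
    have : ((2 * K - 1) * n : ℤ) = ((mirE n e2).1 - n) - e1.1 := by
      push_cast at h4
      linarith
    rw [this]
    have a1 := c1.1
    have a2 := c2.1
    rw [abs_le] at a1 a2 ⊢
    constructor <;> linarith [a1.1, a1.2, a2.1, a2.2]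
  have := small_zero (n := (n : ℤ)) (R := R) (by omega) h7
  omega

/-- both corners -/
theorem Pr_two {n R M : ℕ} {q : ℝ} (hn : 4 * R < n) (hM : 2 * R ≤ M) (A : Finset Edg → Prop) :
    Pr (fun _ => q) (CE (2 * n) M) (fun F => A ((boxE R).filter (fun e => red (2 * n) e ∈ F)) ∧
      A ((boxE R).filter (fun e => fm n e ∈ F))) = Pr (fun _ => q) (boxE R) A ^ 2 := by
  have hn0 : 0 < n := by omega
  have e1 : ∀ f : Edg → Edg, ∀ F : Finset Edg, (boxE R).filter (fun e => f e ∈ F) =
      (boxE R).filter (fun e => f e ∈ F ∩ (boxE R).image f) := by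
    intro f F
    apply Finset.filter_congr
    intro e he
    rw [Finset.mem_inter]
    exact ⟨fun h => ⟨h, Finset.mem_image_of_mem _ he⟩, fun h => h.1⟩
  rw [Pr_indep (A := fun F => A ((boxE R).filter (fun e => red (2 * n) e ∈ F)))
    (B := fun F => A ((boxE R).filter (fun e => fm n e ∈ F))) (sub1 hn0 hM) (sub2 hn0 hM) (disj hn)
    (fun F _ => by rw [← e1 (red (2 * n)) F]) (fun F _ => by rw [← e1 (fm n) F]),
    Pr_inj (red (2 * n)) (inj1 hn) (sub1 hn0 hM) A, Pr_inj (fm n) (inj2 hn) (sub2 hn0 hM) A, sq]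

theorem inter_congr {R : ℤ} {G G' : Set Edg}
    (h : ∀ e, nm (src e) ≤ R → nm (tgt e) ≤ R → (e ∈ G ↔ e ∈ G')) : G ∩ qbx R = G' ∩ qbx R := by
  ext e
  constructor
  · rintro ⟨h1, h2⟩
    exact ⟨(h e h2.2.2.1 h2.2.2.2).1 h1, h2⟩
  · rintro ⟨h1, h2⟩
    exact ⟨(h e h2.2.2.1 h2.2.2.2).2 h1, h2⟩

theorem LandC_congr {N r m : ℕ} {c : Fin (m / 2) → ℤ} {G G' : Set Edg}
    (h : ∀ e, nm (src e) ≤ (N * r : ℕ) → nm (tgt e) ≤ (N * r : ℕ) → (e ∈ G ↔ e ∈ G')) :
    LandC N r m c G ↔ LandC N r m c G' := by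
  unfold LandC
  rw [inter_congr h]

theorem SEq_congr {m R : ℕ} {G G' : Set Edg}
    (h : ∀ e, nm (src e) ≤ (R : ℤ) → nm (tgt e) ≤ (R : ℤ) → (e ∈ G ↔ e ∈ G')) :
    SEq m R G ↔ SEq m R G' := by
  unfold SEq
  rw [inter_congr h]

end TDETP

theorem t_DETP : S_DET → S_DETP := by
  intro hD N r m c hm hN hr hc n M hn hM
  have hpos : 0 < N * r := Nat.mul_pos (by omega) (by omega)
  have hn' : n = 8 * (N * r) := by rw [hn]; ring
  rw [← TDETP.Pr_two (n := n) (R := N * r) (M := M) (by omega) (by omega)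
    (fun F => LandC N r m c (↑F : Set Edg))]
  unfold PC
  apply Pr_mono (okq (q := 1/2) (by norm_num) (by norm_num))
  intro F hF hL
  apply hD N r m c hm hN hr hc n M hn hM F hF
  · refine (TDETP.LandC_congr ?_).1 hL.1
    intro e h1 h2
    rw [Finset.mem_coe, Finset.mem_filter]
    exact ⟨fun h => h.2, fun h => ⟨Pool.Agent.H160R2.MU.TDETP.mem_box h1 h2, h⟩⟩
  · refine (TDETP.LandC_congr ?_).1 hL.2
    intro e h1 h2
    rw [Finset.mem_coe, Finset.mem_filter]
    exact ⟨fun h => h.2, fun h => ⟨Pool.Agent.H160R2.MU.TDETP.mem_box h1 h2, h⟩⟩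

end Pool.Agent.W808.KC
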