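import Pool.Agent.W808.KC.Stm
import Pool.Agent.H160R2.MU.T_UB

/-!
# KC, tasks RCR, UB, LB, SHARP: end of the proof
-/

set_option autoImplicit false

namespace Pool.Agent.W808.KC
open H974 H906.Cyl
open Pool.Agent.H160R2.MU (PC)
open Filter Topology

namespace TEND

theorem okh : Ok (fun _ : Edg => (1 / 2 : ℝ)) := fun _ => by norm_num

theorem sPq_nonneg (m R : ℕ) : 0 ≤ sPq m R := Pr_nonneg okh _ _

theorem sPq_le_one (m R : ℕ) : sPq m R ≤ 1 := Pr_le_one okh _ _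

/-- the three steps for one family of cells -/
theorem one (hDETP : S_DETP) (hSTA : S_STA) (hSTB : S_STB) (N m : ℕ) (c : Fin (m / 2) → ℤ)
    (hm : 2 ≤ m) (hN : m + 4 ≤ N) (hc : AdmC N (m / 2) c) (δ : ℝ) (hδ : 0 < δ) :
    ∃ C : ℝ, 0 < C ∧ ∃ r0 : ℕ, ∀ r : ℕ, r0 ≤ r → ∀ (n M : ℕ), n = 8 * N * r → M = 8 * n →
    Pr (fun _ => (1 / 2 : ℝ)) (boxE (N * r)) (fun F => LandC N r m c (↑F : Set Edg)) ^ 2 ≤
      δ * sPq m (N * r / 2) ^ 2 +
        C * PC (2 * n) M (fun F => P0 n m (per (2 * n) F) ∧ Shl n m M (per (2 * n) F)) := by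
  obtain ⟨CA, hCA, rA, hA⟩ := hSTA N m c hm hN hc (δ / 2) (by positivity)
  obtain ⟨CB, hCB, rB, hB⟩ := hSTB N m c hm hN hc (δ / (2 * CA)) (by positivity)
  refine ⟨CA * CB, by positivity, max (max rA rB) 2, fun r hr n M hn hM => ?_⟩
  have hrA : rA ≤ r := (le_max_left _ _).trans ((le_max_left _ _).trans hr)
  have hrB : rB ≤ r := (le_max_right _ _).trans ((le_max_left _ _).trans hr)
  have hr2 : 2 ≤ r := (le_max_right _ _).trans hr
  have h1 := hDETP N r m c hm hN hr2 hc n M hn hM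
  have h2 := hA r hrA n M hn hM
  have h3 := hB r hrB n M hn hM
  have h4 := mul_le_mul_of_nonneg_left h3 hCA.le
  have h5 : CA * (δ / (2 * CA) * sPq m (N * r / 2) ^ 2 +
      CB * PC (2 * n) M (fun F => P0 n m (per (2 * n) F) ∧ Shl n m M (per (2 * n) F))) =
      δ / 2 * sPq m (N * r / 2) ^ 2 +
        CA * CB * PC (2 * n) M (fun F => P0 n m (per (2 * n) F) ∧ Shl n m M (per (2 * n) F)) := by
    field_simp
  rw [h5] at h4
  linarith

theorem real_sq {x δ s y C1 C2 : ℝ} (hδ : 0 ≤ δ) (hs : 0 ≤ s) (hy : 0 ≤ y) (h1 : 0 ≤ C1)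
    (h2 : 0 ≤ C2) (h : x ^ 2 ≤ δ ^ 2 * s ^ 2 + C1 * (C2 * y ^ 2)) :
    x ≤ δ * s + Real.sqrt (C1 * C2) * y := by
  have h9 : Real.sqrt (C1 * C2) ^ 2 = C1 * C2 := Real.sq_sqrt (mul_nonneg h1 h2)
  have hq : 0 ≤ Real.sqrt (C1 * C2) := Real.sqrt_nonneg _
  generalize Real.sqrt (C1 * C2) = q at h9 hq ⊢
  have h10 : 0 ≤ 2 * (δ * s) * (q * y) :=
    mul_nonneg (mul_nonneg (by norm_num) (mul_nonneg hδ hs)) (mul_nonneg hq hy)
  refine (abs_le_of_sq_le_sq' ?_ (add_nonneg (mul_nonneg hδ hs) (mul_nonneg hq hy))).2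
  have h11 : (δ * s + q * y) ^ 2 = δ ^ 2 * s ^ 2 + 2 * (δ * s) * (q * y) + q ^ 2 * y ^ 2 := by ring
  rw [h11, h9]
  linarith

/-- one family of cells, in terms of the exact law -/
theorem two (hDETP : S_DETP) (hSTA : S_STA) (hSTB : S_STB) (hFIN : S_FIN) (hAS : S_AS) (N m : ℕ)
    (c : Fin (m / 2) → ℤ) (hm : 2 ≤ m) (hN : m + 4 ≤ N) (hc : AdmC N (m / 2) c) (δ : ℝ)
    (hδ : 0 < δ) :
    ∃ C : ℝ, 0 < C ∧ ∃ r0 : ℕ, ∀ r : ℕ, r0 ≤ r →
    Pr (fun _ => (1 / 2 : ℝ)) (boxE (N * r)) (fun F => LandC N r m c (↑F : Set Edg)) ≤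
      δ * sPq m (N * r / 2) + C * (r : ℝ) ^ (-((m : ℝ) * (m - 1) / 3)) := by
  obtain ⟨C1, hC1, r1, h1⟩ := one hDETP hSTA hSTB N m c hm hN hc (δ ^ 2) (by positivity)
  obtain ⟨_, C2, -, hC2, hPk⟩ := hAS m (by omega)
  set e : ℝ := (m : ℝ) * (m - 1) / 3 with he
  have he1 : 2 * (m : ℝ) * (m - 1) / 3 = 2 * e := by rw [he]; ring
  have he0 : 0 ≤ e := by
    have : (2 : ℝ) ≤ m := by exact_mod_cast hm
    rw [he]
    have h1 : (0 : ℝ) ≤ m - 1 := by linarith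
    positivity
  refine ⟨Real.sqrt (C1 * C2), Real.sqrt_pos.2 (by positivity), max r1 1, fun r hr => ?_⟩
  have hr1 : r1 ≤ r := (le_max_left _ _).trans hr
  have hr0 : 1 ≤ r := (le_max_right _ _).trans hr
  have hrR : (1 : ℝ) ≤ r := by exact_mod_cast hr0
  have hrp : (0 : ℝ) < r := by linarith
  set n : ℕ := 8 * N * r with hn
  have hNr : N * 1 ≤ N * r := Nat.mul_le_mul_left _ hr0
  have hNr2 : 6 * r ≤ N * r := Nat.mul_le_mul_right _ (by omega)
  have hn2 : n = 8 * (N * r) := by rw [hn]; ring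
  have hmn : m ≤ n + 1 := by omega
  have h2 := h1 r hr1 n (8 * n) hn rfl
  have h3 := hFIN n (8 * n) m hm hmn
  have h4 := (hPk (n + 1 - m)).2
  have hrn : r ≤ n + 1 - m + 1 := by omega
  have h5 : (((n + 1 - m : ℕ) : ℝ) + 1) ^ (-(2 * (m : ℝ) * (m - 1) / 3)) ≤
      (r : ℝ) ^ (-(2 * e)) := by
    rw [he1]
    refine Real.rpow_le_rpow_of_nonpos hrp ?_ (by linarith)
    exact_mod_cast hrn
  set s := sPq m (N * r / 2) with hs
  have hs0 : 0 ≤ s := sPq_nonneg _ _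
  set x := Pr (fun _ => (1 / 2 : ℝ)) (boxE (N * r)) (fun F => LandC N r m c (↑F : Set Edg)) with hx
  have hr2 : (r : ℝ) ^ (-(2 * e)) = ((r : ℝ) ^ (-e)) ^ 2 := by
    rw [← Real.rpow_natCast, ← Real.rpow_mul hrp.le]
    congr 1
    push_cast
    ring
  have h6 : x ^ 2 ≤ δ ^ 2 * s ^ 2 + C1 * (C2 * ((r : ℝ) ^ (-e)) ^ 2) := by
    rw [← hr2]
    refine h2.trans ?_
    have h7 := mul_le_mul_of_nonneg_left h5 hC2.le
    have h8 := mul_le_mul_of_nonneg_left (h3.trans (h4.trans h7)) hC1.le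
    linarith
  exact real_sq hδ.le hs0 (Real.rpow_nonneg hrp.le _) hC1.le hC2.le h6

/-- all families of cells -/
theorem all (hDETP : S_DETP) (hSTA : S_STA) (hSTB : S_STB) (hFIN : S_FIN) (hAS : S_AS) (N m : ℕ)
    (hm : 2 ≤ m) (hN : m + 4 ≤ N) (δ : ℝ) (hδ : 0 < δ) (Cs : Finset (Fin (m / 2) → ℤ))
    (hCs : ∀ c ∈ Cs, AdmC N (m / 2) c) :
    ∃ C : ℝ, 0 ≤ C ∧ ∃ r0 : ℕ, ∀ r : ℕ, r0 ≤ r →
    ∑ c ∈ Cs, Pr (fun _ => (1 / 2 : ℝ)) (boxE (N * r)) (fun F => LandC N r m c (↑F : Set Edg)) ≤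
      Cs.card * (δ * sPq m (N * r / 2)) + C * (r : ℝ) ^ (-((m : ℝ) * (m - 1) / 3)) := by
  classical
  induction Cs using Finset.induction_on with
  | empty =>
    refine ⟨0, le_rfl, 0, fun r _ => ?_⟩
    simp
  | insert c Cs hcn ih =>
    obtain ⟨C1, hC1, r1, h1⟩ := ih fun c' hc' => hCs c' (Finset.mem_insert_of_mem hc')
    obtain ⟨C2, hC2, r2, h2⟩ := two hDETP hSTA hSTB hFIN hAS N m c hm hN
      (hCs c (Finset.mem_insert_self _ _)) δ hδ
    refine ⟨C2 + C1, by positivity, max r1 r2, fun r hr => ?_⟩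
    have h3 := h1 r ((le_max_left _ _).trans hr)
    have h4 := h2 r ((le_max_right _ _).trans hr)
    rw [Finset.sum_insert hcn, Finset.card_insert_of_notMem hcn]
    push_cast
    linarith

end TEND

theorem t_RCR : S_LAND → S_DETP → S_STA → S_STB → S_FIN → S_AS → S_RCR := by
  intro hLAND hDETP hSTA hSTB hFIN hAS m hm δ hδ
  obtain ⟨N, hN, Cs, hCs, r1, hL⟩ := hLAND m hm (δ / 2) (by positivity)
  obtain ⟨K, hK, r2, hall⟩ := TEND.all hDETP hSTA hSTB hFIN hAS N m hm hN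
    (δ / (2 * (Cs.card + 1))) (by positivity) Cs hCs
  refine ⟨N, hN, K + 1, by positivity, max r1 r2, fun r hr => ?_⟩
  have h1 := hL r ((le_max_left _ _).trans hr)
  have h2 := hall r ((le_max_right _ _).trans hr)
  have hS := TEND.sPq_nonneg m (N * r / 2)
  have h3 : (Cs.card : ℝ) * (δ / (2 * (Cs.card + 1)) * sPq m (N * r / 2)) ≤
      δ / 2 * sPq m (N * r / 2) := by
    have h4 : (Cs.card : ℝ) * (δ / (2 * (Cs.card + 1))) ≤ δ / 2 := by
      have h5 : (0 : ℝ) ≤ Cs.card := Nat.cast_nonneg _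
      rw [mul_div_assoc', div_le_div_iff₀ (by positivity) (by norm_num)]
      nlinarith
    rw [← mul_assoc]
    exact mul_le_mul_of_nonneg_right h4 hS
  have h4 : 0 ≤ (r : ℝ) ^ (-((m : ℝ) * (m - 1) / 3)) := Real.rpow_nonneg (Nat.cast_nonneg _) _
  have h5 : (K + 1) * (r : ℝ) ^ (-((m : ℝ) * (m - 1) / 3)) =
      K * (r : ℝ) ^ (-((m : ℝ) * (m - 1) / 3)) + (r : ℝ) ^ (-((m : ℝ) * (m - 1) / 3)) := by ring
  rw [h5]
  linarith

theorem t_UB : S_RCR → S_MON → S_UB := by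
  intro hR hM k hk
  set e : ℝ := (k : ℝ) * (k - 1) / 3 with he
  have hk2 : (2 : ℝ) ≤ k := by exact_mod_cast hk
  have he0 : 0 < e := by
    rw [he]
    have h1 : (0 : ℝ) < k - 1 := by linarith
    positivity
  obtain ⟨N, hN, C, hC, r0, h⟩ := hR k hk (1 / 2 * (4:ℝ) ^ (-e)) (by positivity)
  set r1 : ℕ := max r0 (max 3 k) with hr1
  set C' : ℝ := max ((N * r1 : ℕ) : ℝ) 1 ^ e + 2 * C * (2 * N : ℝ) ^ e with hC'
  have hNr : (0 : ℝ) < max ((N * r1 : ℕ) : ℝ) 1 := lt_max_of_lt_right one_pos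
  have hNpos : (0 : ℝ) < N := by exact_mod_cast (by omega : 0 < N)
  have hp1 : 0 < max ((N * r1 : ℕ) : ℝ) 1 ^ e := Real.rpow_pos_of_pos hNr _
  have hp2 : 0 < 2 * C * (2 * N : ℝ) ^ e := by positivity
  have hC'0 : 0 < C' := by rw [hC']; linarith
  refine ⟨C', hC'0, ?_⟩
  intro m
  induction m using Nat.strong_induction_on with
  | _ m ih =>
    intro hm
    have hmpos : (0 : ℝ) < m := by exact_mod_cast (by omega : 0 < m)
    by_cases hbig : N * r1 ≤ m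
    · have hN0 : 0 < N := by omega
      set r : ℕ := m / N with hr
      have hr1r : r1 ≤ r := (Nat.le_div_iff_mul_le hN0).2 (by rw [Nat.mul_comm]; exact hbig)
      have hr3 : 3 ≤ r := le_trans ((le_max_left _ _).trans (le_max_right _ _)) hr1r
      have hrk : k ≤ r := le_trans ((le_max_right _ _).trans (le_max_right _ _)) hr1r
      have hr0 : r0 ≤ r := le_trans (le_max_left _ _) hr1r
      have hdm := Nat.div_add_mod m N
      have hml := Nat.mod_lt m hN0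
      have hmr : N * r ≤ m := by rw [hr]; omega
      have hmlt : m < N * (r + 1) := by rw [hr, Nat.mul_add]; omega
      have h3N : 3 * N ≤ N * r := by
        calc 3 * N = N * 3 := by ring
          _ ≤ N * r := Nat.mul_le_mul_left _ hr3
      have hkN : 2 * k ≤ N * r := by
        calc 2 * k ≤ N * k := Nat.mul_le_mul_right _ (by omega)
          _ ≤ N * r := Nat.mul_le_mul_left _ hrk
      have hs : sPq k m ≤ (1 / 2 * (4:ℝ) ^ (-e)) * sPq k (N * r / 2) + C * (r : ℝ) ^ (-e) :=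
        (hM k (N * r) m hk (by omega) hmr).trans (h r hr0)
      have hs' := ih (N * r / 2) (by omega) (by omega)
      exact Pool.Agent.H160R2.MU.TUB.real_step e he0 N r m (N * r / 2) C C' _ _ (by omega) hr3
        hmlt hmr rfl (by omega) hs hs' hC (by rw [hC']; linarith)
    · push Not at hbig
      refine (TEND.sPq_le_one k m).trans ?_
      have h1 : (1 : ℝ) ≤ max ((N * r1 : ℕ) : ℝ) 1 ^ e * (m : ℝ) ^ (-e) := by
        rw [Real.rpow_neg hmpos.le, ← div_eq_mul_inv, one_le_div (Real.rpow_pos_of_pos hmpos _)]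
        refine Real.rpow_le_rpow hmpos.le ?_ he0.le
        refine le_trans ?_ (le_max_left _ _)
        exact_mod_cast hbig.le
      refine h1.trans (mul_le_mul_of_nonneg_right ?_ (Real.rpow_pos_of_pos hmpos _).le)
      rw [hC']
      linarith

theorem t_LB : S_SQ → S_LIM → S_AS → S_MON → S_LB := by
  intro hSQ hLIM hAS _ m hm
  obtain ⟨c, _, hc, -, hPk⟩ := hAS m (by omega)
  set e : ℝ := (m : ℝ) * (m - 1) / 3 with he
  have hm2 : (2 : ℝ) ≤ m := by exact_mod_cast hm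
  have he1 : 2 * (m : ℝ) * (m - 1) / 3 = 2 * e := by rw [he]; ring
  have he0 : 0 ≤ e := by
    rw [he]
    have h1 : (0 : ℝ) ≤ m - 1 := by linarith
    positivity
  refine ⟨Real.sqrt c * (4 : ℝ) ^ (-e), mul_pos (Real.sqrt_pos.2 hc)
    (Real.rpow_pos_of_pos (by norm_num) _), fun R hR => ?_⟩
  have hR0 : (0 : ℝ) < R := by exact_mod_cast (by omega : 0 < R)
  have h1 : Pk m (4 * R + 1 - m) ≤ sPq m R ^ 2 := by
    refine le_of_tendsto (hLIM (4 * R) m hm (by omega)) ?_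
    filter_upwards [eventually_ge_atTop R] with K hK
    exact hSQ (4 * R) m (2 * K) R hm hR le_rfl (by omega)
  have h2 := (hPk (4 * R + 1 - m)).1
  rw [he1] at h2
  have h3 : (4 * (R : ℝ)) ^ (-(2 * e)) ≤ (((4 * R + 1 - m : ℕ) : ℝ) + 1) ^ (-(2 * e)) := by
    refine Real.rpow_le_rpow_of_nonpos (by positivity) ?_ (by linarith)
    have : 4 * R + 1 - m + 1 ≤ 4 * R := by omega
    exact_mod_cast this
  have h4 : c * (4 * (R : ℝ)) ^ (-(2 * e)) ≤ sPq m R ^ 2 :=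
    (mul_le_mul_of_nonneg_left h3 hc.le).trans (h2.trans h1)
  have h5 : (4 * (R : ℝ)) ^ (-(2 * e)) = ((4 : ℝ) ^ (-e) * (R : ℝ) ^ (-e)) ^ 2 := by
    rw [← Real.mul_rpow (by norm_num) hR0.le, ← Real.rpow_natCast,
      ← Real.rpow_mul (by positivity)]
    congr 1
    push_cast
    ring
  refine abs_le_of_sq_le_sq' ?_ (TEND.sPq_nonneg m R) |>.2
  rw [mul_assoc, mul_pow, Real.sq_sqrt hc.le, ← h5]
  exact h4

theorem t_SHARP : S_LB → S_UB → S_SHARP := by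
  intro hLB hUB m hm
  obtain ⟨c, hc, hL⟩ := hLB m hm
  obtain ⟨C, hC, hU⟩ := hUB m hm
  exact ⟨c, C, hc, hC, fun R hR => ⟨hL R hR, hU R hR⟩⟩

end Pool.Agent.W808.KC
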