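import Pool.Agent.W808.KC.Stm
import Pool.Agent.H988R2.Perc.T01
import Pool.Agent.H988R2.Perc.T02

/-!
# Closings at distance commute; the leg functional and closings
-/

set_option autoImplicit false

namespace Pool.Agent.W808.KC
open Pool.Agent.H988R2.Perc (Word ins cap act rainbow Dyck LP Fw fac q)

namespace TEc
open Pool.Agent.H988R2.Perc

/-- closings at distance commute -/
theorem cap_cap {w : Word} (hw : Dyck w) : ∀ (i k : ℕ), i + 2 ≤ k → k + 2 ≤ w.length →
    cap i (cap k w) = cap (k - 2) (cap i w) := by
  induction hw with
  | nil => intro i k _ h; simp at h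
  | ins p u hp hu ih =>
    intro i k hik hk
    rw [length_ins] at hk
    have hk' : k ≤ u.length := by omega
    by_cases h1 : p + 2 ≤ i
    · rw [cap_ins_left (by omega : p + 2 ≤ k) hk', cap_ins_left h1 (by omega : i ≤ u.length)]
      have e1 : (cap (k - 2) u).length = u.length - 2 := by
        have := @length_cap (k - 2) u (by omega); omega
      have e2 : (cap (i - 2) u).length = u.length - 2 := by
        have := @length_cap (i - 2) u (by omega); omega
      rw [cap_ins_left h1 (by omega), cap_ins_left (by omega : p + 2 ≤ k - 2) (by omega)]
      rw [ih (i - 2) (k - 2) (by omega) (by omega)]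
    · by_cases h2 : p ≤ i + 1
      · -- p = i - 1, i, i + 1
        have hc : ∀ v : Word, i ≤ v.length → p ≤ v.length → cap i (ins p v) = v := by
          intro v hv hv'
          rcases (by omega : p + 1 = i ∨ p = i ∨ p = i + 1) with h | h | h
          · subst h; exact cap_succ_ins hv
          · subst h; exact cap_ins_self hv
          · subst h; exact cap_ins_succ hv'
        rw [hc u (by omega) hp]
        by_cases h3 : p + 2 ≤ k
        · rw [cap_ins_left h3 hk']
          have e1 : (cap (k - 2) u).length = u.length - 2 := by
            have := @length_cap (k - 2) u (by omega); omega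
          rw [hc _ (by omega) (by omega)]
        · have h4 : p + 1 = k := by omega
          have h5 : i = k - 2 := by omega
          subst h4
          rw [cap_succ_ins hk', h5]
      · by_cases h3 : k + 2 ≤ p
        · rw [cap_ins_right h3 hp, cap_ins_right (by omega : i + 2 ≤ p) hp]
          have e1 : (cap k u).length = u.length - 2 := by
            have := @length_cap k u (by omega); omega
          have e2 : (cap i u).length = u.length - 2 := by
            have := @length_cap i u (by omega); omega
          rw [cap_ins_right (by omega : i + 2 ≤ p - 2) (by omega),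
            cap_ins_right (by omega : k - 2 + 2 ≤ p - 2) (by omega), ih i k hik (by omega)]
        · by_cases h4 : p + 2 ≤ k
          · rw [cap_ins_left h4 hk', cap_ins_right (by omega : i + 2 ≤ p) hp]
            have e1 : (cap (k - 2) u).length = u.length - 2 := by
              have := @length_cap (k - 2) u (by omega); omega
            have e2 : (cap i u).length = u.length - 2 := by
              have := @length_cap i u (by omega); omega
            rw [cap_ins_right (by omega : i + 2 ≤ p) (by omega),
              cap_ins_left (by omega : p - 2 + 2 ≤ k - 2) (by omega),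
              ih i (k - 2) (by omega) (by omega)]
          · -- p = k - 1, k, k + 1 and i + 2 ≤ p
            have hc : ∀ (a b : ℕ) (v : Word), (b + 1 = a ∨ b = a ∨ b = a + 1) → a ≤ v.length →
                b ≤ v.length → cap a (ins b v) = v := by
              intro a b v hab hv hv'
              rcases hab with h | h | h
              · subst h; exact cap_succ_ins hv
              · subst h; exact cap_ins_self hv
              · subst h; exact cap_ins_succ hv'
            rw [hc k p u (by omega) hk' hp, cap_ins_right (by omega : i + 2 ≤ p) hp]
            have e2 : (cap i u).length = u.length - 2 := by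
              have := @length_cap i u (by omega); omega
            rw [hc (k - 2) (p - 2) _ (by omega) (by omega) (by omega)]

theorem capit_cap (m : ℕ) : ∀ (j M : ℕ) (w : Word), Dyck w → w.length = 2 * m + 2 * M + 2 → j ≤ M →
    capit m M (cap (m + 2 * j) w) = capit m M (cap m w) := by
  intro j
  induction j with
  | zero => intro M w _ _ _; simp
  | succ j ih =>
    intro M w hw hl hj
    obtain ⟨M, rfl⟩ : ∃ M', M = M' + 1 := ⟨M - 1, by omega⟩
    have h1 : cap m (cap (m + 2 * (j + 1)) w) = cap (m + 2 * j) (cap m w) := by
      rw [cap_cap hw m (m + 2 * (j + 1)) (by omega) (by omega)]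
      congr 1
    have h2 : (cap m w).length = 2 * m + 2 * M + 2 := by
      have := @length_cap m w (by omega); omega
    show capit m M (cap m (cap (m + 2 * (j + 1)) w)) = capit m M (cap m (cap m w))
    rw [h1, ih M (cap m w) (dyck_cap hw (by omega)) h2 (by omega)]

theorem two {w : Word} (hw : Dyck w) (h : w.length = 2) : w = rainbow 1 := by
  cases hw with
  | nil => simp at h
  | ins i u hi hu =>
    rw [length_ins] at h
    have h0 : u = [] := List.eq_nil_of_length_eq_zero (by omega)
    subst h0
    simp [ins, rainbow]

theorem capit_one : ∀ (n : ℕ) (w : Word), Dyck w → w.length = 2 * n + 2 →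
    capit 1 n w = rainbow 1 := by
  intro n
  induction n with
  | zero => intro w hw hl; show w = rainbow 1; exact two hw (by omega)
  | succ n ih =>
    intro w hw hl
    show capit 1 n (cap 1 w) = rainbow 1
    refine ih _ (dyck_cap hw (by omega)) ?_
    have := @length_cap 1 w (by omega); omega

end TEc

/-- **closings inside and the leg functional** -/
theorem t_Ec : S_Ec := by
  intro m M j w hw hl hj
  have hl' : (cap (m + 2 * j) w).length = 2 * m + 2 * M := by
    have := @Pool.Agent.H988R2.Perc.length_cap (m + 2 * j) w (by omega); omega
  unfold Gd
  rw [hl', hl]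
  have e1 : (2 * m + 2 * M - 2 * m) / 2 = M := by omega
  have e2 : (2 * m + 2 * M + 2 - 2 * m) / 2 = M + 1 := by omega
  rw [e1, e2, TEc.capit_cap m j M w hw hl hj]
  exact Iff.rfl

/-- **one leg; no other strands** -/
theorem t_E1 : S_E1 := by
  refine ⟨fun w hw hl => ?_, fun m w hl => ?_⟩
  · have hev := Pool.Agent.H988R2.Perc.dyck_even hw
    obtain ⟨k, hk⟩ := hev
    obtain ⟨n, rfl⟩ : ∃ n, k = n + 1 := ⟨k - 1, by omega⟩
    unfold Gd
    have e1 : (w.length - 2 * 1) / 2 = n := by omega
    rw [e1]
    exact TEc.capit_one n w hw (by omega)
  · unfold Gd
    have e1 : (w.length - 2 * m) / 2 = 0 := by omega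
    rw [e1]
    exact Iff.rfl

end Pool.Agent.W808.KC
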