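import Pool.Agent.W808.KC.Stm

/-!
# Arms at a corner: arcs and the leg functional
-/

set_option autoImplicit false

namespace Pool.Agent.W808.KC

namespace TEi
open Pool.Agent.H988R2.Perc (Word ins cap act rainbow Dyck)

theorem capit_ins (m : ℕ) : ∀ (M i : ℕ) (u : Word), u.length = 2 * m + 2 * M → i ≤ u.length →
    m ≤ i + 1 → i ≤ m + 2 * M + 1 → capit m (M + 1) (ins i u) = capit m M u := by
  intro M
  induction M with
  | zero =>
    intro i u hu hi h1 h2
    have h3 : i = m ∨ i + 1 = m ∨ i = m + 1 := by omega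
    rcases h3 with h3 | h3 | h3
    · subst h3
      simp only [capit]
      exact Pool.Agent.H988R2.Perc.cap_ins_self hi
    · subst h3
      simp only [capit]
      exact Pool.Agent.H988R2.Perc.cap_succ_ins (by omega)
    · subst h3
      simp only [capit]
      exact Pool.Agent.H988R2.Perc.cap_ins_succ (by omega)
  | succ M ih =>
    intro i u hu hi h1 h2
    have h3 : i = m ∨ i + 1 = m ∨ i = m + 1 ∨ m + 2 ≤ i := by omega
    rcases h3 with h3 | h3 | h3 | h3
    · subst h3
      rw [capit, Pool.Agent.H988R2.Perc.cap_ins_self hi]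
    · subst h3
      rw [capit, Pool.Agent.H988R2.Perc.cap_succ_ins (by omega)]
    · subst h3
      rw [capit, Pool.Agent.H988R2.Perc.cap_ins_succ (by omega)]
    · have h4 : (cap m u).length = u.length - 2 :=
        Pool.Agent.H988R2.Perc.length_cap (by omega)
      rw [capit, Pool.Agent.H988R2.Perc.cap_ins_right h3 hi,
        ih (i - 2) (cap m u) (by omega) (by omega) (by omega) (by omega)]
      rfl

theorem capit_ne (m : ℕ) : ∀ (M i : ℕ) (u : Word), u.length + 2 = 2 * m + 2 * M → i ≤ u.length →
    (i + 2 ≤ m ∨ m + 2 * M ≤ i) → capit m M (ins i u) ≠ rainbow m := by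
  intro M
  induction M with
  | zero =>
    intro i u hu hi h h'
    obtain ⟨n, rfl⟩ : ∃ n, m = n + 1 := ⟨m - 1, by omega⟩
    have h1 := (Pool.Agent.H988R2.Perc.ins_eq_rainbow hi (n := n) h').1
    omega
  | succ M ih =>
    intro i u hu hi h
    rcases h with h | h
    · have h4 : (cap (m - 2) u).length = u.length - 2 :=
        Pool.Agent.H988R2.Perc.length_cap (by omega)
      rw [capit, Pool.Agent.H988R2.Perc.cap_ins_left h (by omega)]
      exact ih i _ (by omega) (by omega) (Or.inl h)
    · have h4 : (cap m u).length = u.length - 2 :=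
        Pool.Agent.H988R2.Perc.length_cap (by omega)
      rw [capit, Pool.Agent.H988R2.Perc.cap_ins_right (by omega) hi]
      exact ih (i - 2) _ (by omega) (by omega) (Or.inr (by omega))

end TEi

theorem t_Ez : S_Ez := by
  intro m M i u _ hl hi h hG
  have h1 : ((Pool.Agent.H988R2.Perc.ins i u).length - 2 * m) / 2 = M := by
    rw [Pool.Agent.H988R2.Perc.length_ins]; omega
  unfold Gd at hG
  rw [h1] at hG
  exact TEi.capit_ne m M i u hl hi h hG

theorem t_Ei : S_Ei := by
  intro m M i u _ hl hi h1 h2
  have h3 : ((Pool.Agent.H988R2.Perc.ins i u).length - 2 * m) / 2 = M + 1 := by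
    rw [Pool.Agent.H988R2.Perc.length_ins]; omega
  have h4 : (u.length - 2 * m) / 2 = M := by omega
  unfold Gd
  rw [h3, h4, TEi.capit_ins m M i u hl hi h1 h2]

end Pool.Agent.W808.KC
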