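import Pool.Agent.W808.KC.Stm

/-!
# KC, task FIN: from the band to the half-infinite strip
-/

set_option autoImplicit false

namespace Pool.Agent.W808.KC
open H974 H906.Cyl
open Pool.Agent.H160R2.MU (PC)
open Filter Topology

namespace TFIN

theorem okh : Ok (fun _ : Edg => (1 / 2 : ℝ)) := fun _ => by norm_num

theorem mem_SE {n M : ℕ} {e : Edg} : e ∈ SE n M ↔ e ∈ Ss n ∧ dco e < M := by
  obtain ⟨x, y, b⟩ := e
  unfold SE Ss edz dco
  simp only [Finset.mem_image, Finset.mem_product, Finset.mem_range, Prod.exists, Set.mem_ofPred_eq]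
  constructor
  · rintro ⟨s, r, ⟨h1, h2⟩, h3⟩
    split_ifs at h3 with h4
    · simp only [Prod.mk.injEq] at h3
      obtain ⟨h5, h6, h7⟩ := h3
      subst h7
      simp only [if_true]
      omega
    · simp only [Prod.mk.injEq] at h3
      obtain ⟨h5, h6, h7⟩ := h3
      subst h7
      simp only [Bool.false_eq_true, if_false]
      omega
  · rintro ⟨⟨h1, h2, h3⟩, h4⟩
    cases b
    · simp only [Bool.false_eq_true, if_false] at h1 h4
      refine ⟨(x + y + 1).toNat, (x - y - 1).toNat, ⟨by omega, by omega⟩, ?_⟩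
      rw [if_neg (by omega)]
      simp only [Prod.mk.injEq, and_true]
      omega
    · simp only [if_true] at h1 h4
      refine ⟨(x + y + 1).toNat, (x - y).toNat, ⟨by omega, by omega⟩, ?_⟩
      rw [if_pos (by omega)]
      simp only [Prod.mk.injEq, and_true]
      omega

theorem SE_mono {n M M' : ℕ} (h : M ≤ M') : SE n M ⊆ SE n M' := by
  intro e he
  rw [mem_SE] at he ⊢
  exact ⟨he.1, he.2.trans_le (by exact_mod_cast h)⟩

theorem red_inj {n M : ℕ} (hn : 1 ≤ n) : Set.InjOn (red (2 * n)) (SE n M : Set Edg) := by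
  rintro ⟨x, y, b⟩ h1 ⟨x', y', b'⟩ h2 h3
  rw [Finset.mem_coe, mem_SE] at h1 h2
  obtain ⟨⟨-, h4, h5⟩, -⟩ := h1
  obtain ⟨⟨-, h6, h7⟩, -⟩ := h2
  simp only at h4 h5 h6 h7
  simp only [red, Prod.mk.injEq] at h3
  obtain ⟨h8, h9, h10⟩ := h3
  subst h10
  set Q := (x + y) / (2 * ((2 * n : ℕ) : ℤ)) with hQ
  set Q' := (x' + y') / (2 * ((2 * n : ℕ) : ℤ)) with hQ'
  have h11 : ((2 * n : ℕ) : ℤ) * (2 * (Q - Q')) = (x + y) - (x' + y') := by linear_combination -h8 - h9
  have hK : Q = Q' := by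
    by_contra hne
    push_cast at h11
    have hn' : (1 : ℤ) ≤ n := by exact_mod_cast hn
    rcases lt_or_gt_of_ne hne with h12 | h12
    · have : Q - Q' ≤ -1 := by omega
      nlinarith
    · have : 1 ≤ Q - Q' := by omega
      nlinarith
  rw [hK] at h8 h9
  simp only [Prod.mk.injEq, and_true]
  constructor <;> linarith

theorem image_sub {n M : ℕ} (hn : 1 ≤ n) : (SE n M).image (red (2 * n)) ⊆ CE (2 * n) M := by
  intro e he
  obtain ⟨e', he', rfl⟩ := Finset.mem_image.1 he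
  rw [mem_SE] at he'
  obtain ⟨⟨h1, -⟩, h2⟩ := he'
  exact red_mem (by omega) (by omega) h2

/-- the periodic configuration in the strip -/
theorem per_Ss {n M : ℕ} {F : Finset Edg} (hF : F ⊆ CE (2 * n) M) :
    per (2 * n) F ∩ Ss n =
      (↑((SE n M).filter (fun e => red (2 * n) e ∈ F)) : Set Edg) ∩ Ss n := by
  ext e
  constructor
  · rintro ⟨h1, h2⟩
    refine ⟨?_, h2⟩
    rw [Finset.mem_coe, Finset.mem_filter, mem_SE]
    refine ⟨⟨h2, ?_⟩, h1⟩
    have h3 := (mem_CE.1 (hF h1)).2.2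
    rwa [dco_red] at h3
  · rintro ⟨h1, h2⟩
    rw [Finset.mem_coe, Finset.mem_filter] at h1
    exact ⟨h1.2, h2⟩

theorem P0_congr {n m : ℕ} {G G' : Set Edg} (h : G ∩ Ss n = G' ∩ Ss n) : P0 n m G ↔ P0 n m G' := by
  unfold P0
  rw [h]

theorem Shl_congr {n m M : ℕ} {G G' : Set Edg} (h : G ∩ Ss n = G' ∩ Ss n) :
    Shl n m M G ↔ Shl n m M G' := by
  unfold Shl
  rw [h]

/-- the band in the strip -/
theorem PC_eq {n M m : ℕ} (hn : 1 ≤ n) :
    PC (2 * n) M (fun F => P0 n m (per (2 * n) F) ∧ Shl n m M (per (2 * n) F)) =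
      Pr (fun _ => (1 / 2 : ℝ)) (SE n M)
        (fun F => P0 n m (↑F : Set Edg) ∧ Shl n m M (↑F : Set Edg)) := by
  have h := Pr_red (n := 2 * n) (q := 1 / 2) (S := CE (2 * n) M) (B := SE n M) (red_inj hn)
    (image_sub hn) (fun F => P0 n m (↑F : Set Edg) ∧ Shl n m M (↑F : Set Edg))
  rw [← h]
  unfold PC
  refine Pr_congr fun F hF => ?_
  rw [P0_congr (per_Ss hF), Shl_congr (per_Ss hF)]

/-- the clusters of the corner are the same in every extension -/
theorem clu {n M m : ℕ} {G G' : Set Edg} (hG : ∀ e, dco e < M → (e ∈ G ↔ e ∈ G'))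
    (hS : Shl n m M G') {i : ℕ} (hi : i < m / 2) {u : Vtx} (h : Reach (G ∩ Ss n) (cv i) u) :
    Reach (G' ∩ Ss n) (cv i) u := by
  induction h with
  | refl => exact Relation.ReflTransGen.refl
  | tail _ hs ih =>
    have h1 := hS i _ hi ih
    refine Relation.ReflTransGen.tail ih ?_
    obtain ⟨e, ⟨he, h0⟩, hst⟩ := hs
    have h2 : dco e < M := by
      obtain ⟨x, y, b⟩ := e
      cases b
      · rcases hst with ⟨rfl, -⟩ | ⟨-, rfl⟩
        · simp only [src_mk] at h1
          simp only [dco, Bool.false_eq_true, if_false]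
          omega
        · simp only [tgt_false] at h1
          simp only [dco, Bool.false_eq_true, if_false]
          omega
      · rcases hst with ⟨rfl, -⟩ | ⟨-, rfl⟩
        · simp only [src_mk] at h1
          simp only [dco, if_true]
          omega
        · simp only [tgt_true] at h1
          simp only [dco, if_true]
          omega
    exact ⟨e, ⟨(hG e h2).1 he, h0⟩, hst⟩

theorem ext {n M m : ℕ} {G G' : Set Edg} (hG : ∀ e, dco e < M → (e ∈ G ↔ e ∈ G'))
    (hGG : G' ⊆ G) (hP : P0 n m G') (hS : Shl n m M G') : P0 n m G := by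
  refine ⟨fun i j hi hj hij h => hP.1 i j hi hj hij (clu hG hS hi h), fun i hi => ?_,
    fun hm i j hi hj hj' h => hP.2.2 hm i j hi hj hj' (clu hG hS hi h)⟩
  obtain ⟨j, hj, hr⟩ := hP.2.1 i hi
  exact ⟨j, hj, hr.mono (Set.inter_subset_inter_left _ hGG)⟩

/-- comparison with the finite strips -/
theorem le_pS {n M m K : ℕ} (hn : 1 ≤ n) (hK : M ≤ K) :
    PC (2 * n) M (fun F => P0 n m (per (2 * n) F) ∧ Shl n m M (per (2 * n) F)) ≤ pS n m K := by
  rw [PC_eq hn]
  have h1 : Pr (fun _ => (1 / 2 : ℝ)) (SE n M)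
        (fun F => P0 n m (↑F : Set Edg) ∧ Shl n m M (↑F : Set Edg)) =
      Pr (fun _ => (1 / 2 : ℝ)) (SE n K)
        (fun F => P0 n m (↑(F ∩ SE n M) : Set Edg) ∧ Shl n m M (↑(F ∩ SE n M) : Set Edg)) := by
    rw [Pr_local (S := SE n K) (S' := SE n M) (SE_mono hK)
      (A := fun F => P0 n m (↑(F ∩ SE n M) : Set Edg) ∧ Shl n m M (↑(F ∩ SE n M) : Set Edg))]
    · refine Pr_congr fun F hF => ?_
      rw [Finset.inter_eq_left.2 hF]
    · intro F _
      rw [Finset.inter_assoc, Finset.inter_self]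
  rw [h1]
  refine Pr_mono okh fun F hF h => ?_
  refine ext (G' := (↑(F ∩ SE n M) : Set Edg)) (fun e he => ?_) ?_ h.1 h.2
  · rw [Finset.mem_coe, Finset.mem_coe, Finset.mem_inter]
    refine ⟨fun h3 => ⟨h3, ?_⟩, fun h3 => h3.1⟩
    rw [mem_SE]
    exact ⟨(mem_SE.1 (hF h3)).1, he⟩
  · exact_mod_cast Finset.inter_subset_left

end TFIN

theorem t_FIN : S_LIM → S_FIN := by
  intro hL n M m hm hmn
  refine ge_of_tendsto (hL n m hm hmn) ?_
  filter_upwards [eventually_ge_atTop M] with K hK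
  exact TFIN.le_pS (by omega) (by omega)

end Pool.Agent.W808.KC
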