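import Pool.Agent.W808.KC.Stm

/-!
Faces of words: the relation `Fc` under `ins`, `act`, `cap` (all faces of both classes).
-/

set_option autoImplicit false

namespace Pool.Agent.W808.KC.TFc

open Pool.Agent.H988R2.Perc
open Pool.Agent.H988R2.Perc.St (low up)

/-! ### `Fc w` is an equivalence relation -/

theorem Fc_refl (w : Word) (a : ℕ) : Fc w a a := by
  refine ⟨rfl, fun c h1 h2 => ?_⟩
  have : c = a := by omega
  rw [this]

theorem Fc_symm {w : Word} {a b : ℕ} (h : Fc w a b) : Fc w b a := by
  obtain ⟨h1, h2⟩ := h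
  refine ⟨h1.symm, fun c h3 h4 => ?_⟩
  rw [← h1]
  exact h2 c (by omega) (by omega)

theorem Fc_comm (w : Word) (a b : ℕ) : Fc w a b ↔ Fc w b a := ⟨Fc_symm, Fc_symm⟩

theorem Fc_trans {w : Word} {a b c : ℕ} (h : Fc w a b) (k : Fc w b c) : Fc w a c := by
  obtain ⟨h1, h2⟩ := h
  obtain ⟨k1, k2⟩ := k
  refine ⟨h1.trans k1, fun d h3 h4 => ?_⟩
  by_cases hd : min a b ≤ d ∧ d ≤ max a b
  · exact h2 d hd.1 hd.2
  · rw [h1]
    exact k2 d (by omega) (by omega)

theorem Fc_eqv (w : Word) : Equivalence (Fc w) :=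
  ⟨Fc_refl w, fun h => Fc_symm h, fun h k => Fc_trans h k⟩

theorem Fc_le {w : Word} {a b : ℕ} (hab : a ≤ b) :
    Fc w a b ↔ hgt w a = hgt w b ∧ ∀ c, a ≤ c → c ≤ b → hgt w a ≤ hgt w c := by
  unfold Fc
  rw [min_eq_left hab, max_eq_right hab]

/-! ### heights -/

theorem hgt_zero (w : Word) : hgt w 0 = 0 := by simp [hgt]

theorem hgt_append_le (u v : Word) {a : ℕ} (h : a ≤ u.length) : hgt (u ++ v) a = hgt u a := by
  unfold hgt
  rw [List.take_append_of_le_length h]

theorem hgt_append_add (u v : Word) (k : ℕ) :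
    hgt (u ++ v) (u.length + k) = hgt u u.length + hgt v k := by
  unfold hgt
  rw [List.take_length_add_append, List.take_length]
  simp only [List.count_append]
  push_cast
  ring

theorem hgt_cons (x : Bool) (v : Word) (k : ℕ) :
    hgt (x :: v) (k + 1) = (if x = true then 1 else -1) + hgt v k := by
  unfold hgt
  rw [List.take_succ_cons]
  cases x <;> simp <;> ring

theorem hgt_ins {i : ℕ} {w : Word} (hi : i ≤ w.length) (a : ℕ) :
    hgt (ins i w) a = if a ≤ i then hgt w a else if a = i + 1 then hgt w i + 1 else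
      hgt w (a - 2) := by
  obtain ⟨u, v, rfl, hu⟩ := exists_split hi
  rw [ins_app _ _ hu]
  subst hu
  split_ifs with h1 h2
  · rw [hgt_append_le _ _ h1, hgt_append_le _ _ h1]
  · subst h2
    rw [hgt_append_add, hgt_append_le _ _ le_rfl, hgt_cons, hgt_zero]
    simp
  · obtain ⟨k, rfl⟩ : ∃ k, a = u.length + (k + 2) := ⟨a - u.length - 2, by omega⟩
    have e : u.length + (k + 2) - 2 = u.length + k := by omega
    rw [hgt_append_add, e, hgt_append_add, hgt_cons, hgt_cons]
    simp

theorem hgt_ge {w : Word} {a : ℕ} (h : w.length ≤ a) : hgt w a = hgt w w.length := by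
  unfold hgt
  rw [List.take_of_length_le h, List.take_length]

theorem hgt_dyck {w : Word} (hw : Dyck w) : hgt w w.length = 0 := by
  unfold hgt
  rw [List.take_length, dyck_count hw]
  simp

theorem hgt_nonneg {w : Word} (hw : Dyck w) (a : ℕ) : 0 ≤ hgt w a := by
  have := dyck_prefix hw a
  unfold hgt
  omega

theorem hgt_succ {w : Word} {a : ℕ} (h : a < w.length) :
    hgt w (a + 1) = hgt w a + (if w[a] = true then 1 else -1) := by
  unfold hgt
  rw [List.take_succ_eq_append_getElem h]
  simp only [List.count_append]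
  cases hx : w[a] <;> simp <;> ring

theorem hgt_parity {w : Word} {a : ℕ} (h : a ≤ w.length) : (hgt w a - a) % 2 = 0 := by
  induction a with
  | zero => simp [hgt_zero]
  | succ a ih =>
    have := ih (by omega)
    rw [hgt_succ (by omega)]
    split_ifs <;> push_cast <;> omega

/-- joined faces are in the same class -/
theorem Fc_parity {w : Word} {a b : ℕ} (ha : a ≤ w.length) (hb : b ≤ w.length) (h : Fc w a b) :
    a % 2 = b % 2 := by
  have h1 := hgt_parity ha
  have h2 := hgt_parity hb
  have h3 := h.1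
  omega

/-! ### relations -/

/-- the relation after the insertion of a small arc at `i` -/
def insR (i : ℕ) (R : ℕ → ℕ → Prop) (a b : ℕ) : Prop :=
  a = b ∨ (a ≠ i + 1 ∧ b ≠ i + 1 ∧ R (low i a) (low i b))

/-- the relation after the action of the generator at `i` -/
def actR (i : ℕ) (R : ℕ → ℕ → Prop) (a b : ℕ) : Prop :=
  a = b ∨ (a ≠ i + 1 ∧ b ≠ i + 1 ∧ (R a b ∨ (R a i ∧ R (i + 2) b) ∨ (R a (i + 2) ∧ R i b)))

theorem actR_insR_self {i : ℕ} {R : ℕ → ℕ → Prop} (hR : Equivalence R) (a b : ℕ) :
    actR i (insR i R) a b ↔ insR i R a b := by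
  obtain ⟨hr, hs, ht⟩ := hR
  unfold actR insR low
  grind

theorem actR_insR_succ {i : ℕ} {R : ℕ → ℕ → Prop} (hR : Equivalence R) (a b : ℕ) :
    actR i (insR (i + 1) R) a b ↔ insR i R a b := by
  obtain ⟨hr, hs, ht⟩ := hR
  unfold actR insR low
  grind

theorem actR_succ_insR {i : ℕ} {R : ℕ → ℕ → Prop} (hR : Equivalence R) (a b : ℕ) :
    actR (i + 1) (insR i R) a b ↔ insR (i + 1) R a b := by
  obtain ⟨hr, hs, ht⟩ := hR
  unfold actR insR low
  grind

theorem low_up (i a : ℕ) : low i (up i a) = a := by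
  unfold low up; grind

theorem actR_insR_right {i j : ℕ} (h : i + 2 ≤ j) {R : ℕ → ℕ → Prop} (hR : Equivalence R)
    (a b : ℕ) : actR i (insR j R) a b ↔ insR j (actR i R) a b := by
  have h1 : low j i = i := by unfold low; grind
  have h2 : low j (i+2) = i+2 := by unfold low; grind
  obtain ⟨hr, hs, ht⟩ := hR
  unfold actR insR
  simp only [h1, h2]
  unfold low
  by_cases ha : a ≤ j <;> by_cases hb : b ≤ j <;> simp only [ha, hb, if_true, if_false]
  · grind
  · grind
  · grind
  · grind

theorem actR_insR_left {i j : ℕ} (h : j ≤ i) {R : ℕ → ℕ → Prop} (hR : Equivalence R)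
    (a b : ℕ) : actR (i + 2) (insR j R) a b ↔ insR j (actR i R) a b := by
  have h1 : low j (i+2) = i := by unfold low; grind
  have h2 : low j (i+2+2) = i+2 := by unfold low; grind
  obtain ⟨hr, hs, ht⟩ := hR
  unfold actR insR
  simp only [h1, h2]
  unfold low
  by_cases ha : a ≤ j <;> by_cases hb : b ≤ j <;> simp only [ha, hb, if_true, if_false]
  · grind
  · grind
  · grind
  · grind

/-! ### faces under `ins`, `act`, `cap` -/

theorem Fc_ins_lt {i : ℕ} {w : Word} (hi : i ≤ w.length) {a b : ℕ} (hab : a < b) :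
    Fc (ins i w) a b ↔ (a ≠ i + 1 ∧ b ≠ i + 1 ∧ Fc w (low i a) (low i b)) := by
  rw [Fc_le hab.le]
  constructor
  · rintro ⟨h1, h2⟩
    have ha : a ≠ i + 1 := by
      rintro rfl
      have := h2 (i + 2) (by omega) (by omega)
      rw [hgt_ins hi, hgt_ins hi] at this
      simp at this
    have hb : b ≠ i + 1 := by
      rintro rfl
      have := h2 i (by omega) (by omega)
      rw [h1, hgt_ins hi, hgt_ins hi] at this
      simp at this
    refine ⟨ha, hb, ?_⟩
    have hlab : low i a ≤ low i b := by unfold low; split_ifs <;> omega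
    have e : ∀ c, c ≠ i + 1 → hgt (ins i w) c = hgt w (low i c) := by
      intro c hc
      rw [hgt_ins hi]
      unfold low
      split_ifs <;> rfl
    rw [Fc_le hlab]
    rw [e a ha, e b hb] at h1
    refine ⟨h1, fun c hc1 hc2 => ?_⟩
    have key : ∃ d, a ≤ d ∧ d ≤ b ∧ d ≠ i + 1 ∧ low i d = c := by
      rcases lt_trichotomy c i with h | h | h
      · refine ⟨c, ?_, ?_, by omega, ?_⟩ <;> unfold low at * <;> split_ifs at * <;> omega
      · by_cases hai : a ≤ i
        · refine ⟨i, ?_, ?_, by omega, ?_⟩ <;> unfold low at * <;> split_ifs at * <;> omega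
        · refine ⟨i + 2, ?_, ?_, by omega, ?_⟩ <;> unfold low at * <;> split_ifs at * <;> omega
      · refine ⟨c + 2, ?_, ?_, by omega, ?_⟩ <;> unfold low at * <;> split_ifs at * <;> omega
    obtain ⟨d, hd1, hd2, hd3, hd4⟩ := key
    have := h2 d hd1 hd2
    rwa [e a ha, e d hd3, hd4] at this
  · rintro ⟨ha, hb, h⟩
    have hlab : low i a ≤ low i b := by unfold low; split_ifs <;> omega
    have e : ∀ c, c ≠ i + 1 → hgt (ins i w) c = hgt w (low i c) := by
      intro c hc
      rw [hgt_ins hi]
      unfold low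
      split_ifs <;> rfl
    rw [Fc_le hlab] at h
    obtain ⟨h1, h2⟩ := h
    rw [e a ha, e b hb]
    refine ⟨h1, fun c hc1 hc2 => ?_⟩
    by_cases hc : c = i + 1
    · subst hc
      have := h2 i (by unfold low; split_ifs <;> omega) (by unfold low; split_ifs <;> omega)
      rw [hgt_ins hi (i + 1), if_neg (by omega), if_pos rfl]
      omega
    · rw [e c hc]
      exact h2 _ (by unfold low; split_ifs <;> omega) (by unfold low; split_ifs <;> omega)

/-- insertion of a small arc -/
theorem Fc_ins {i : ℕ} {w : Word} (hi : i ≤ w.length) (a b : ℕ) :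
    Fc (ins i w) a b ↔ insR i (Fc w) a b := by
  rcases lt_trichotomy a b with h | h | h
  · rw [Fc_ins_lt hi h]
    unfold insR
    constructor
    · exact fun k => Or.inr k
    · rintro (k | k)
      · omega
      · exact k
  · subst h
    exact ⟨fun _ => Or.inl rfl, fun _ => Fc_refl _ _⟩
  · rw [Fc_comm, Fc_ins_lt hi h]
    unfold insR
    constructor
    · exact fun k => Or.inr ⟨k.2.1, k.1, Fc_symm k.2.2⟩
    · rintro (k | k)
      · omega
      · exact ⟨k.2.1, k.1, Fc_symm k.2.2⟩

theorem insR_congr {i : ℕ} {R R' : ℕ → ℕ → Prop} (h : ∀ a b, R a b ↔ R' a b) (a b : ℕ) :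
    insR i R a b ↔ insR i R' a b := by
  unfold insR
  rw [h]

theorem actR_congr {i : ℕ} {R R' : ℕ → ℕ → Prop} (h : ∀ a b, R a b ↔ R' a b) (a b : ℕ) :
    actR i R a b ↔ actR i R' a b := by
  unfold actR
  rw [h, h, h, h, h]

/-- action of a generator -/
theorem Fc_act {w : Word} (hw : Dyck w) : ∀ {i : ℕ}, i + 2 ≤ w.length → ∀ a b : ℕ,
    (Fc (act i w) a b ↔ actR i (Fc w) a b) := by
  induction hw with
  | nil => intro i h; simp at h
  | ins j x hj hx ih =>
    intro i hi a b
    rw [length_ins] at hi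
    rw [actR_congr (Fc_ins hj)]
    rcases lt_trichotomy i j with h | h | h
    · rcases Nat.lt_or_ge (i + 1) j with h' | h'
      · rw [act_ins_right (by omega) (by omega), actR_insR_right (by omega) (Fc_eqv x),
          Fc_ins (by rw [length_act (by omega)]; omega)]
        exact insR_congr (ih (by omega)) a b
      · obtain rfl : j = i + 1 := by omega
        rw [act_ins_succ (by omega), actR_insR_succ (Fc_eqv x), Fc_ins (by omega)]
    · subst h
      rw [act_ins_self (by omega), actR_insR_self (Fc_eqv x), Fc_ins (by omega)]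
    · rcases Nat.lt_or_ge (j + 1) i with h' | h'
      · obtain ⟨k, rfl⟩ : ∃ k, i = k + 2 := ⟨i - 2, by omega⟩
        rw [act_ins_left (by omega) (by omega), Nat.add_sub_cancel,
          actR_insR_left (by omega) (Fc_eqv x), Fc_ins (by rw [length_act (by omega)]; omega)]
        exact insR_congr (ih (by omega)) a b
      · obtain rfl : i = j + 1 := by omega
        rw [act_succ_ins (by omega), actR_succ_insR (Fc_eqv x), Fc_ins (by omega)]

theorem up_ne (i a : ℕ) : up i a ≠ i + 1 := by unfold up; split_ifs <;> omega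

/-- closing two points -/
theorem Fc_cap {w : Word} {i : ℕ} (hi : i + 2 ≤ w.length) (a b : ℕ) :
    Fc (cap i w) a b ↔ Fc (act i w) (up i a) (up i b) := by
  unfold act
  rw [Fc_ins (by rw [length_cap hi]; omega)]
  unfold insR
  rw [low_up, low_up]
  constructor
  · exact fun h => Or.inr ⟨up_ne i a, up_ne i b, h⟩
  · rintro (h | h)
    · have : low i (up i a) = low i (up i b) := by rw [h]
      rw [low_up, low_up] at this
      rw [this]
      exact Fc_refl _ _
    · exact h.2.2

/-- closing two points, in terms of the faces of the word -/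
theorem Fc_cap' {w : Word} (hw : Dyck w) {i : ℕ} (hi : i + 2 ≤ w.length) (a b : ℕ) :
    Fc (cap i w) a b ↔ (Fc w (up i a) (up i b) ∨ (Fc w (up i a) i ∧ Fc w (i + 2) (up i b)) ∨
      (Fc w (up i a) (i + 2) ∧ Fc w i (up i b))) := by
  rw [Fc_cap hi, Fc_act hw hi]
  unfold actR
  constructor
  · rintro (h | h)
    · rw [h]
      exact Or.inl (Fc_refl _ _)
    · exact h.2.2
  · exact fun h => Or.inr ⟨up_ne i a, up_ne i b, h⟩

end Pool.Agent.W808.KC.TFc
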