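import Pool.Agent.W808.KC.Stm
import Pool.Agent.W808.HB.T_HV

/-!
# Task HV: the homogeneous value
-/

set_option autoImplicit false

namespace Pool.Agent.W808.KC
open Pool.Agent.H160R2.ML (Gn)
open Pool.Agent.H160R2
open Pool.Agent.H988R2.Perc (Word PD LP Fw q q_spec Fw_V)
open Pool.Agent.H988R2.Perc.T10 (pairs fA fB)
open Pool.Agent.W808.HB (prs Xf Yf vdx wdx bet xY Yv)
open Pool.Agent.W808.HB.THV
open Filter Topology

namespace THV

theorem contAt_pd3 {n d : ℕ} {G : List ℂ → ℂ} (h : PD n d G) (A B : List ℂ) (M : ℕ)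
    (hl : A.length + 2 * M + B.length = n) :
    ContinuousAt (fun x : Fin M → ℂ => G (A ++ prs (List.ofFn x) ++ B)) (fun _ => 1) := by
  obtain ⟨p, -, hp⟩ := h
  have h1 : (fun x : Fin M → ℂ => G (A ++ prs (List.ofFn x) ++ B)) = fun x =>
      MvPolynomial.eval (fun i : Fin n => (A ++ prs (List.ofFn x) ++ B).getD i 0) p := by
    funext x
    exact hp _ (by simp [prs_length]; omega)
  rw [h1]
  refine ContinuousAt.comp (f := fun x : Fin M → ℂ =>
      (fun i : Fin n => (A ++ prs (List.ofFn x) ++ B).getD i 0))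
    (g := fun v : Fin n → ℂ => MvPolynomial.eval v p)
    (MvPolynomial.continuous_eval p).continuousAt (continuousAt_pi.2 fun i => ?_)
  by_cases hi : (i : ℕ) < A.length
  · have h2 : (fun x : Fin M → ℂ => (A ++ prs (List.ofFn x) ++ B).getD i 0) =
        fun _ => A.getD i 0 := by
      funext x
      rw [List.append_assoc]
      exact List.getD_append _ _ _ _ hi
    rw [h2]
    exact continuousAt_const
  · by_cases hi2 : (i : ℕ) < A.length + 2 * M
    · have h2 : (fun x : Fin M → ℂ => (A ++ prs (List.ofFn x) ++ B).getD i 0) =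
          fun x => if ((i : ℕ) - A.length) % 2 = 0 then
            (List.ofFn x).getD (((i : ℕ) - A.length) / 2) 0
            else ((List.ofFn x).getD (((i : ℕ) - A.length) / 2) 0)⁻¹ := by
        funext x
        rw [List.getD_append _ _ _ _ (by
          rw [List.length_append, prs_length, List.length_ofFn]; exact hi2),
          List.getD_append_right _ _ _ _ (not_lt.1 hi), prs_getD]
      rw [h2]
      have hjM : ((i : ℕ) - A.length) / 2 < M := by omega
      split_ifs with h3
      · exact (getD_ofFn_cont _).continuousAt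
      · refine (getD_ofFn_cont _).continuousAt.inv₀ ?_
        rw [List.getD_eq_getElem _ _ (by simpa using hjM)]
        simp
    · have h2 : (fun x : Fin M → ℂ => (A ++ prs (List.ofFn x) ++ B).getD i 0) =
          fun _ => B.getD ((i : ℕ) - (A.length + 2 * M)) 0 := by
        funext x
        rw [List.getD_append_right _ _ _ _ (by
          rw [List.length_append, prs_length, List.length_ofFn]; omega),
          List.length_append, prs_length, List.length_ofFn]
      rw [h2]
      exact continuousAt_const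

theorem contAt_GG (A B : List ℂ) (M : ℕ) :
    ContinuousAt (fun x : Fin M → ℂ => GG A (prs (List.ofFn x)) B) (fun _ => 1) := by
  have h1 : (fun x : Fin M → ℂ => GG A (prs (List.ofFn x)) B) = fun x =>
      ∑ w ∈ LP (A.length + 2 * M + B.length),
        el A.length w * Fw w (A ++ prs (List.ofFn x) ++ B) := by
    funext x
    unfold GG
    rw [prs_length, List.length_ofFn]
  rw [h1]
  refine tendsto_finsetSum _ fun w hw => ?_
  exact (contAt_pd3 (Fw_V hw).pd A B M rfl).const_mul _

theorem pairs_rep (f : ℂ → ℂ → ℂ) (m : ℕ) :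
    pairs f (List.replicate m 1) ^ 2 = f 1 1 ^ (m * (m - 1)) := by
  induction m with
  | zero => simp [pairs]
  | succ k ih =>
    have h1 : pairs f (List.replicate (k + 1) 1) = f 1 1 ^ k * pairs f (List.replicate k 1) := by
      rw [List.replicate_succ]
      simp [pairs]
    rw [h1, mul_pow, ih, ← pow_mul, ← pow_add]
    congr 1
    rcases k with _ | k
    · simp
    · simp only [Nat.add_sub_cancel]
      ring

theorem pairs_rep' (f : ℂ → ℂ → ℂ) (m c : ℕ) (hc : m * (m - 1) = 2 * c) :
    pairs f (List.replicate m 1) = f 1 1 ^ c := by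
  induction m generalizing c with
  | zero =>
    have : c = 0 := by omega
    subst this
    simp [pairs]
  | succ k ih =>
    have h1 : pairs f (List.replicate (k + 1) 1) = f 1 1 ^ k * pairs f (List.replicate k 1) := by
      rw [List.replicate_succ]
      simp [pairs]
    obtain ⟨d, hd⟩ : ∃ d, k * (k - 1) = 2 * d := (Nat.even_mul_pred_self k).two_dvd
    rw [h1, ih d hd, ← pow_add]
    congr 1
    rcases k with _ | k
    · simp at hc hd
      omega
    · simp only [Nat.add_sub_cancel] at hc hd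
      have h2 : (k + 1 + 1) * (k + 1) = (k + 1) * k + 2 * (k + 1) := by ring
      omega

theorem mid (K S N W D R : ℂ) : K * (S * (N * W / D) * R) = (K * (S * (N * W) * R)) / D := by
  ring

end THV

open THV in
theorem t_HV (h2 : S_M2) (hT : S_TK) (hK : S_KL) : S_HV := by
  intro m M hm
  classical
  have hq : q ^ 2 + q + 1 = 0 := q_spec
  have hq3 : q ^ 3 = 1 := by linear_combination (q - 1) * hq
  have hq1 : q + 1 ≠ 0 := by
    intro h
    have : q ^ 2 = 0 := by linear_combination hq - h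
    rw [pow_eq_zero_iff (by norm_num)] at this
    rw [this] at hq3
    norm_num at hq3
  have hqm : q - 1 ≠ 0 := by
    intro h
    have h3 : q = 1 := by linear_combination h
    rw [h3] at hq
    norm_num at hq
  have hAA : List.replicate m (1 : ℂ) ++ List.replicate m 1 = List.replicate (2 * m) 1 := by
    rw [List.replicate_append_replicate, two_mul]
  -- the general formula
  have hform : ∀ x : Fin M → ℂ, Gn (prs (List.ofFn x)) →
      GG (List.replicate m 1) (prs (List.ofFn x)) (List.replicate m 1) * vdx x ^ 2 =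
        kap m M * (pairs fA (List.replicate m 1) * pairs fB (List.replicate m 1)) *
          (wdx x * TT (List.replicate m 1 ++ List.replicate m 1) x) := by
    intro x hx
    exact h2 m M hm (List.replicate m 1) (List.replicate m 1) x (by simp) (by simp) hx
  set A : List ℂ := List.replicate m 1 with hA
  set l : Filter ℝ := 𝓝[>] (0 : ℝ) with hl
  have hpos : ∀ᶠ t in l, (0 : ℝ) < t := self_mem_nhdsWithin
  set Yr : ℝ → ℕ → ℝ := fun t i => 1 + t * (i + 1) with hYr
  set x : ℝ → Fin M → ℂ := fun t i => xY q (Yr t i) with hx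
  have hYc : ∀ i : ℕ, Tendsto (fun t => ((Yr t i : ℝ) : ℂ)) l (𝓝 1) := by
    intro i
    have h1 : Continuous (fun t : ℝ => ((Yr t i : ℝ) : ℂ)) := by
      simp only [hYr]
      fun_prop
    have h3 := h1.tendsto 0
    have h4 : ((Yr 0 i : ℝ) : ℂ) = 1 := by simp [hYr]
    rw [h4] at h3
    exact h3.mono_left nhdsWithin_le_nhds
  have hbc : ∀ i : ℕ, Tendsto (fun t => bet (Yr t i)) l (𝓝 0) := by
    intro i
    have h1 : ContinuousAt bet 1 := by
      unfold bet
      exact ((continuousAt_id.sub continuousAt_const).pow 2).div continuousAt_id one_ne_zero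
    have h3 := h1.tendsto.comp (hYc i)
    have h4 : bet 1 = 0 := by simp [bet]
    rw [h4] at h3
    exact h3
  have hxc : ∀ i : Fin M, Tendsto (fun t => x t i) l (𝓝 1) := by
    intro i
    have h1 : ContinuousAt (xY q) 1 := by
      unfold xY
      exact (continuousAt_const.add (continuousAt_const.mul continuousAt_id)).div
        (continuousAt_const.add continuousAt_id) hq1
    have h3 := h1.tendsto.comp (hYc i)
    have h4 : xY q 1 = 1 := by
      unfold xY
      rw [mul_one, add_comm 1 q]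
      exact div_self hq1
    rw [h4] at h3
    exact h3
  have hXc : ∀ i : Fin M, Tendsto (fun t => Xf (x t i)) l (𝓝 2) := by
    intro i
    have h1 := (hxc i).add ((hxc i).inv₀ one_ne_zero)
    have h3 : (1 : ℂ) + 1⁻¹ = 2 := by norm_num
    rw [h3] at h1
    exact h1
  have hxt : Tendsto x l (𝓝 (fun _ => (1 : ℂ))) := tendsto_pi_nhds.2 hxc
  have hG : Tendsto (fun t => GG A (prs (List.ofFn (x t))) A) l
      (𝓝 (GG A (prs (List.ofFn (fun _ : Fin M => (1 : ℂ)))) A)) :=
    (contAt_GG A A M).tendsto.comp hxt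
  rw [List.ofFn_const, prs_replicate] at hG
  -- eventual conditions
  have hYpos : ∀ t : ℝ, 0 < t → ∀ i, 0 < Yr t i := by
    intro t ht i
    simp only [hYr]
    positivity
  have hYne : ∀ t : ℝ, 0 < t → ∀ i, Yr t i ≠ 1 := by
    intro t ht i
    simp only [hYr]
    have : 0 < t * ((i : ℝ) + 1) := by positivity
    linarith
  have hbinj : ∀ t : ℝ, 0 < t → ∀ i j : ℕ, bet (Yr t i) = bet (Yr t j) → i = j := by
    intro t ht i j hij
    have hi := hYpos t ht i
    have hj := hYpos t ht j
    have h3 : (Yr t i - 1) ^ 2 / Yr t i = (Yr t j - 1) ^ 2 / Yr t j := by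
      unfold bet at hij
      exact_mod_cast hij
    rw [div_eq_div_iff hi.ne' hj.ne'] at h3
    have h4 : (Yr t i - Yr t j) * (Yr t i * Yr t j - 1) = 0 := by linear_combination h3
    have hi1 : 1 < Yr t i := by
      simp only [hYr]
      have : 0 < t * ((i : ℝ) + 1) := by positivity
      linarith
    have hj1 : 1 < Yr t j := by
      simp only [hYr]
      have : 0 < t * ((j : ℝ) + 1) := by positivity
      linarith
    have h5 : Yr t i * Yr t j - 1 ≠ 0 := by nlinarith
    have h6 := (mul_eq_zero.1 h4).resolve_right h5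
    simp only [hYr] at h6
    have h7 : t * ((i : ℝ) - j) = 0 := by linear_combination h6
    have h8 := (mul_eq_zero.1 h7).resolve_left ht.ne'
    have h9 : (i : ℝ) = j := by linarith
    exact_mod_cast h9
  have hb0 : ∀ t : ℝ, 0 < t → ∀ i, bet (Yr t i) ≠ 0 := by
    intro t ht i h
    unfold bet at h
    have hi : ((Yr t i : ℝ) : ℂ) ≠ 0 := by exact_mod_cast (hYpos t ht i).ne'
    rw [div_eq_zero_iff] at h
    have h3 := h.resolve_right hi
    rw [pow_eq_zero_iff (by norm_num)] at h3
    have h4 : ((Yr t i : ℝ) : ℂ) = 1 := by linear_combination h3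
    exact hYne t ht i (by exact_mod_cast h4)
  have e1 : ∀ᶠ t in l, ∀ i j : Fin M,
      (1 : ℂ) - bet (Yr t i) * ((Yr t j : ℂ) * (Yr t j - 1)) ≠ 0 := by
    refine eventually_all.2 fun i => eventually_all.2 fun j => ?_
    have h3 : Tendsto (fun t => (1 : ℂ) - bet (Yr t i) * ((Yr t j : ℂ) * (Yr t j - 1))) l
        (𝓝 (1 - 0 * (1 * (1 - 1)))) :=
      ((hbc i).mul ((hYc j).mul ((hYc j).sub_const 1))).const_sub 1
    exact h3.eventually_ne (by norm_num)
  have e2 : ∀ᶠ t in l, ∀ i j : Fin M,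
      (1 : ℂ) - bet (Yr t i) * ((Yr t j : ℂ)⁻¹ * ((Yr t j : ℂ)⁻¹ - 1)) ≠ 0 := by
    refine eventually_all.2 fun i => eventually_all.2 fun j => ?_
    have h3 : Tendsto (fun t => (1 : ℂ) - bet (Yr t i) * ((Yr t j : ℂ)⁻¹ * ((Yr t j : ℂ)⁻¹ - 1))) l
        (𝓝 (1 - 0 * (1⁻¹ * (1⁻¹ - 1)))) :=
      ((hbc i).mul (((hYc j).inv₀ one_ne_zero).mul
        (((hYc j).inv₀ one_ne_zero).sub_const 1))).const_sub 1
    exact h3.eventually_ne (by norm_num)
  have e3 : ∀ᶠ t in l, ∀ i j : Fin M, x t i ^ 2 + x t i * x t j + x t j ^ 2 ≠ 0 := by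
    refine eventually_all.2 fun i => eventually_all.2 fun j => ?_
    have h3 : Tendsto (fun t => x t i ^ 2 + x t i * x t j + x t j ^ 2) l
        (𝓝 (1 ^ 2 + 1 * 1 + 1 ^ 2)) :=
      (((hxc i).pow 2).add ((hxc i).mul (hxc j))).add ((hxc j).pow 2)
    exact h3.eventually_ne (by norm_num)
  have e4 : ∀ᶠ t in l, ∀ i j : Fin M, x t i ^ 2 + x t i * (x t j)⁻¹ + (x t j)⁻¹ ^ 2 ≠ 0 := by
    refine eventually_all.2 fun i => eventually_all.2 fun j => ?_
    have h3 : Tendsto (fun t => x t i ^ 2 + x t i * (x t j)⁻¹ + (x t j)⁻¹ ^ 2) l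
        (𝓝 (1 ^ 2 + 1 * 1⁻¹ + 1⁻¹ ^ 2)) :=
      (((hxc i).pow 2).add ((hxc i).mul ((hxc j).inv₀ one_ne_zero))).add
        (((hxc j).inv₀ one_ne_zero).pow 2)
    exact h3.eventually_ne (by norm_num)
  have e5 : ∀ᶠ t in l, ∀ i : Fin M, x t i + 1 ≠ 0 := by
    refine eventually_all.2 fun i => ?_
    have h3 : Tendsto (fun t => x t i + 1) l (𝓝 (1 + 1)) := (hxc i).add_const 1
    exact h3.eventually_ne (by norm_num)
  -- the pieces
  set c : ℕ := ∑ i : Fin M, (Finset.Ioi i).card with hc
  have hc2 : 2 * c = M * (M - 1) := by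
    have h3 : c = ∑ i : Fin M, (M - 1 - (i : ℕ)) := by
      rw [hc]
      refine Finset.sum_congr rfl fun i _ => ?_
      rw [Fin.card_Ioi]
    rw [h3, Fin.sum_univ_eq_sum_range (fun i => M - 1 - i) M, Finset.sum_range_reflect (fun i => i) M,
      mul_comm, Finset.sum_range_id_mul_two]
  have hconst : ∀ a : ℂ, (∏ i : Fin M, ∏ _j ∈ Finset.Ioi i, a) = a ^ c := by
    intro a
    simp only [Finset.prod_const]
    rw [Finset.prod_pow_eq_pow_sum]
  set SS : ℝ → ℂ := fun t => ∏ i : Fin M, ∏ j ∈ Finset.Ioi i,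
    (Xf (x t i) ^ 2 + Xf (x t i) * Xf (x t j) + Xf (x t j) ^ 2 - 3) ^ 2 with hSS
  set RR : ℝ → ℂ := fun t => ∏ i : Fin M, ∏ j ∈ Finset.Ioi i,
    ((1 + bet (Yr t i)) * (1 + bet (Yr t j))) ^ 2 with hRR
  have hSSt : Tendsto SS l (𝓝 (81 ^ c)) := by
    have h3 : Tendsto SS l (𝓝 (∏ i : Fin M, ∏ _j ∈ Finset.Ioi i,
        ((2 : ℂ) ^ 2 + 2 * 2 + 2 ^ 2 - 3) ^ 2)) := by
      refine tendsto_finsetProd _ fun i _ => tendsto_finsetProd _ fun j _ => ?_
      exact (((((hXc i).pow 2).add ((hXc i).mul (hXc j))).add ((hXc j).pow 2)).sub_const 3).pow 2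
    rw [hconst] at h3
    have h4 : ((2 : ℂ) ^ 2 + 2 * 2 + 2 ^ 2 - 3) ^ 2 = 81 := by norm_num
    rw [h4] at h3
    exact h3
  have hRRt : Tendsto RR l (𝓝 1) := by
    have h3 : Tendsto RR l (𝓝 (∏ i : Fin M, ∏ _j ∈ Finset.Ioi i,
        (((1 : ℂ) + 0) * (1 + 0)) ^ 2)) := by
      refine tendsto_finsetProd _ fun i _ => tendsto_finsetProd _ fun j _ => ?_
      exact (((hbc i).const_add 1).mul ((hbc j).const_add 1)).pow 2
    rw [hconst] at h3
    have h4 : (((1 : ℂ) + 0) * (1 + 0)) ^ 2 = 1 := by norm_num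
    rw [h4, one_pow] at h3
    exact h3
  have hP1 : Tendsto (fun t => ∏ j : Fin M, (1 - 2 * bet (Yr t j))) l (𝓝 1) := by
    have h3 : Tendsto (fun t => ∏ j : Fin M, (1 - 2 * bet (Yr t j))) l
        (𝓝 (∏ _j : Fin M, (1 - 2 * (0 : ℂ)))) :=
      tendsto_finsetProd _ fun j _ => ((hbc j).const_mul 2).const_sub 1
    simpa using h3
  have hP0 : Tendsto (fun t => ∏ j : Fin M, (1 + bet (Yr t j))) l (𝓝 1) := by
    have h3 : Tendsto (fun t => ∏ j : Fin M, (1 + bet (Yr t j))) l
        (𝓝 (∏ _j : Fin M, (1 + (0 : ℂ)))) :=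
      tendsto_finsetProd _ fun j _ => (hbc j).const_add 1
    simpa using h3
  have hP2 : Tendsto (fun t => ∏ j : Fin M, (1 + bet (Yr t j)) ^ (2 * m)) l (𝓝 1) := by
    have h3 : Tendsto (fun t => ∏ j : Fin M, (1 + bet (Yr t j)) ^ (2 * m)) l
        (𝓝 (∏ _j : Fin M, (1 + (0 : ℂ)) ^ (2 * m))) :=
      tendsto_finsetProd _ fun j _ => ((hbc j).const_add 1).pow (2 * m)
    simpa using h3
  have hKL := hK (2 * m) M
  set W : ℝ → ℂ := fun t => (Matrix.of fun i j : Fin M => Kf (2 * m) (bet (Yv t i)) (Yv t j)).det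
      / (Matrix.vandermonde (fun i : Fin M => bet (Yv t i))).det ^ 2 with hW
  have heq : ∀ᶠ t in l, GG A (prs (List.ofFn (x t))) A * 9 ^ c =
      (kap m M * (pairs fA A * pairs fB A)) * (SS t * ((3 ^ (2 * m) * q ^ 2 / (q - 1)) ^ M * (∏ j : Fin M, (1 + bet (Yr t j))) * (∏ j : Fin M, (1 - 2 * bet (Yr t j))) * W t /
        (∏ j : Fin M, (1 + bet (Yr t j)) ^ (2 * m))) * RR t) := by
    filter_upwards [hpos, e1, e2, e3, e4, e5] with t ht g1 g2 g3 g4 g5
    have hx0 : ∀ i, x t i ≠ 0 := fun i => xY_ne hq _ (hYpos t ht i)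
    have hXd : ∀ i j : Fin M, Xf (x t i) - Xf (x t j) =
        3 * (bet (Yr t j) - bet (Yr t i)) / ((1 + bet (Yr t i)) * (1 + bet (Yr t j))) :=
      fun i j => Xf_sub hq _ _ (hYpos t ht i) (hYpos t ht j)
    have hb1 : ∀ i : ℕ, (1 : ℂ) + bet (Yr t i) ≠ 0 := fun i => bet_ne (hYpos t ht i)
    have hXne : ∀ i j : Fin M, i ≠ j → Xf (x t i) - Xf (x t j) ≠ 0 := by
      intro i j hij
      rw [hXd]
      refine div_ne_zero (mul_ne_zero (by norm_num) ?_) (mul_ne_zero (hb1 _) (hb1 _))
      intro h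
      exact hij (Fin.ext (hbinj t ht i j (by linear_combination -h)))
    have hGn : Gn (prs (List.ofFn (x t))) := by
      apply gn_prs
      · intro y hy
        rw [List.mem_ofFn] at hy
        obtain ⟨i, rfl⟩ := hy
        exact hx0 i
      · intro y hy
        rw [List.mem_ofFn] at hy
        obtain ⟨i, rfl⟩ := hy
        intro h
        have h3 : (x t i - (x t i)⁻¹) * (x t i ^ 2 + x t i * (x t i)⁻¹ + (x t i)⁻¹ ^ 2) = 0 := by
          linear_combination h
        have h4 := (mul_eq_zero.1 h3).resolve_right (g4 i i)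
        have h5 : (x t i - 1) * (x t i + 1) = 0 := by
          have h6 : x t i * (x t i)⁻¹ = 1 := mul_inv_cancel₀ (hx0 i)
          linear_combination x t i * h4 + h6
        have h6 := (mul_eq_zero.1 h5).resolve_right (g5 i)
        have h7 : x t i = 1 := by linear_combination h6
        have h8 := Xf_xY hq _ (hYpos t ht i)
        have h9 : Xf (x t i) = 2 := by rw [h7]; unfold Xf; norm_num
        have h10 : (3 : ℂ) / (1 + bet (Yr t i)) - 1 = 2 := h8.symm.trans h9
        have h11 : bet (Yr t i) = 0 := by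
          have := hb1 i
          field_simp at h10
          linear_combination -(1 / 3) * h10
        exact hb0 t ht i h11
      · rw [List.pairwise_ofFn]
        intro i j hij
        constructor
        · intro h
          have h3 : (x t i - x t j) * (x t i ^ 2 + x t i * x t j + x t j ^ 2) = 0 := by
            linear_combination h
          have h4 := (mul_eq_zero.1 h3).resolve_right (g3 i j)
          have h5 : x t i = x t j := by linear_combination h4
          exact hXne i j hij.ne (by rw [h5, sub_self])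
        · intro h
          have h3 : (x t i - (x t j)⁻¹) * (x t i ^ 2 + x t i * (x t j)⁻¹ + (x t j)⁻¹ ^ 2) = 0 := by
            linear_combination h
          have h4 := (mul_eq_zero.1 h3).resolve_right (g4 i j)
          have h5 : x t i = (x t j)⁻¹ := by linear_combination h4
          apply hXne i j hij.ne
          unfold Xf
          rw [h5, inv_inv]
          ring
    have h1 := hform (x t) hGn
    have hTK := hT (2 * m) M (fun i => Yr t i) (fun i => hYpos t ht i) (fun i => hYne t ht i) g1 g2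
    -- `wdx = vdx * SS`
    have hwd : wdx (x t) = vdx (x t) * SS t := by
      simp only [wdx, vdx, hSS, ← Finset.prod_mul_distrib]
      refine Finset.prod_congr rfl fun i _ => Finset.prod_congr rfl fun j _ => ?_
      rw [cubes _ _ (hx0 i) (hx0 j), mul_pow]
    have hV : (Matrix.vandermonde (fun i : Fin M => bet (Yr t i))).det ≠ 0 := by
      rw [Matrix.det_vandermonde_ne_zero_iff]
      intro i j hij
      exact Fin.ext (hbinj t ht i j hij)
    have hvd : vdx (x t) * RR t =
        9 ^ c * (Matrix.vandermonde (fun i : Fin M => bet (Yr t i))).det ^ 2 := by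
      rw [sq, ← HL.HomogAux.vand_sq, ← hconst]
      simp only [vdx, hRR, ← Finset.prod_mul_distrib]
      refine Finset.prod_congr rfl fun i _ => Finset.prod_congr rfl fun j _ => ?_
      rw [hXd]
      have := hb1 i
      have := hb1 j
      field_simp
      ring
    have hRne : RR t ≠ 0 := by
      simp only [hRR]
      refine Finset.prod_ne_zero_iff.2 fun i _ => Finset.prod_ne_zero_iff.2 fun j _ => ?_
      exact pow_ne_zero _ (mul_ne_zero (hb1 _) (hb1 _))
    have hvne : vdx (x t) ≠ 0 := by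
      simp only [vdx]
      refine Finset.prod_ne_zero_iff.2 fun i _ => Finset.prod_ne_zero_iff.2 fun j hj => ?_
      refine pow_ne_zero _ (hXne i j ?_)
      exact (Finset.mem_Ioi.1 hj).ne
    have hPne : (∏ j : Fin M, (1 + bet (Yr t j)) ^ (2 * m)) ≠ 0 :=
      Finset.prod_ne_zero_iff.2 fun j _ => pow_ne_zero _ (hb1 _)
    have hWt : W t * (Matrix.vandermonde (fun i : Fin M => bet (Yr t i))).det ^ 2 =
        (Matrix.of fun i j : Fin M => Kf (2 * m) (bet (Yr t i)) (Yr t j)).det :=
      div_mul_cancel₀ _ (pow_ne_zero 2 hV)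
    rw [hwd] at h1
    have h3 : GG A (prs (List.ofFn (x t))) A * vdx (x t) =
        (kap m M * (pairs fA A * pairs fB A)) * (SS t * TT (A ++ A) (x t)) := by
      apply mul_left_cancel₀ hvne
      linear_combination h1
    have hTK' : TT (A ++ A) (x t) * (∏ j : Fin M, (1 + bet (Yr t j)) ^ (2 * m)) =
        (3 ^ (2 * m) * q ^ 2 / (q - 1)) ^ M * (∏ j : Fin M, (1 + bet (Yr t j))) * (∏ j : Fin M, (1 - 2 * bet (Yr t j)))
          * (Matrix.of fun i j : Fin M => Kf (2 * m) (bet (Yr t i)) (Yr t j)).det := by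
      rw [hAA]
      exact hTK
    rw [← hWt] at hTK'
    rw [mid, eq_div_iff hPne]
    apply mul_left_cancel₀ (pow_ne_zero 2 hV)
    linear_combination (-(GG A (prs (List.ofFn (x t))) A *
        (∏ j : Fin M, (1 + bet (Yr t j)) ^ (2 * m)))) * hvd
      + (RR t * (∏ j : Fin M, (1 + bet (Yr t j)) ^ (2 * m))) * h3
      + (kap m M * (pairs fA A * pairs fB A)) * SS t * RR t * hTK'
  have hL := (hG.mul_const (9 ^ c)).congr' heq
  have hR : Tendsto (fun t => (kap m M * (pairs fA A * pairs fB A)) * (SS t * ((3 ^ (2 * m) * q ^ 2 / (q - 1)) ^ M * (∏ j : Fin M, (1 + bet (Yr t j))) *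
      (∏ j : Fin M, (1 - 2 * bet (Yr t j))) * W t /
        (∏ j : Fin M, (1 + bet (Yr t j)) ^ (2 * m))) * RR t)) l
      (𝓝 ((kap m M * (pairs fA A * pairs fB A)) * (81 ^ c * ((3 ^ (2 * m) * q ^ 2 / (q - 1)) ^ M * 1 * 1 *
        (Matrix.of fun k l : Fin M => (uc (2 * m) k l : ℂ)).det / 1) * 1))) :=
    ((hSSt.mul ((((hP0.const_mul _).mul hP1).mul hKL).div hP2 one_ne_zero)).mul hRRt).const_mul _
  have hfin := tendsto_nhds_unique hL hR
  have hdet : (Matrix.of fun k l : Fin M => (uc (2 * m) k l : ℂ)).det =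
      ((Dc (2 * m) M : ℝ) : ℂ) := by
    unfold Dc
    have h3 := RingHom.map_det Complex.ofRealHom
      (Matrix.of fun k l : Fin M => (uc (2 * m) k l : ℝ))
    have h4 : (Complex.ofRealHom.mapMatrix (Matrix.of fun k l : Fin M =>
        (uc (2 * m) k l : ℝ))) = Matrix.of fun k l : Fin M => (uc (2 * m) k l : ℂ) := by
      ext k l
      simp
    rw [h4] at h3
    exact h3.symm
  rw [hdet] at hfin
  obtain ⟨d, hd⟩ : ∃ d, m * (m - 1) = 2 * d := (Nat.even_mul_pred_self m).two_dvd
  have hPP : pairs fA A * pairs fB A = (3 * q) ^ (m * (m - 1)) := by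
    rw [hA, pairs_rep' fA m d hd, pairs_rep' fB m d hd, ← mul_pow, hd, pow_mul]
    congr 1
    unfold fA fB
    linear_combination (q ^ 6 - 3 * q ^ 5 + q ^ 4 + 6 * q ^ 3 - 8 * q ^ 2) * hq
  have hkap : kap m M * (3 ^ (2 * m) * q ^ 2 / (q - 1)) ^ M =
      3 ^ (2 * m * M) * q ^ (M * (2 * m + M) + 2 * M) := by
    unfold kap
    rw [div_pow, mul_pow, ← pow_mul, ← pow_mul, pow_add]
    have := pow_ne_zero M hqm
    field_simp
  have h9 : (9 : ℂ) ^ c ≠ 0 := pow_ne_zero _ (by norm_num)
  apply mul_right_cancel₀ h9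
  rw [hfin]
  have h81 : (81 : ℂ) ^ c = 9 ^ c * 3 ^ (M * (M - 1)) := by
    rw [← hc2, pow_mul, ← mul_pow]
    norm_num
  have hexp : (3 * q) ^ (m * (m - 1)) * (3 ^ (M * (M - 1)) * (3 ^ (2 * m * M) *
      q ^ (M * (2 * m + M) + 2 * M))) = (3 * q) ^ ((m + M) * (m + M - 1)) := by
    have e1 : (m + M) * (m + M - 1) = m * (m - 1) + M * (M - 1) + 2 * m * M := by
      obtain ⟨m', rfl⟩ : ∃ m', m = m' + 1 := ⟨m - 1, by omega⟩
      rcases M with _ | M
      · simp
      · have : m' + 1 + (M + 1) - 1 = m' + M + 1 := by omega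
        rw [this]
        simp only [Nat.add_sub_cancel]
        ring
    have e2 : M * (2 * m + M) + 2 * M = M * (M - 1) + 2 * m * M + 3 * M := by
      rcases M with _ | M
      · simp
      · simp only [Nat.add_sub_cancel]
        ring
    have e3 : q ^ (M * (2 * m + M) + 2 * M) = q ^ (M * (M - 1)) * q ^ (2 * m * M) := by
      rw [e2, pow_add, pow_mul q 3 M, hq3, one_pow, mul_one, pow_add]
    rw [e1, e3, pow_add (3 * q), pow_add (3 * q), mul_pow 3 q (M * (M - 1)),
      mul_pow 3 q (2 * m * M)]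
    ring
  rw [hPP, h81, ← hexp]
  linear_combination ((3 * q) ^ (m * (m - 1)) * 9 ^ c * 3 ^ (M * (M - 1)) *
    ((Dc (2 * m) M : ℝ) : ℂ)) * hkap

end Pool.Agent.W808.KC
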