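import Pool.Agent.W808.KC.Stm
import Pool.Agent.H988R2.Perc.T23

/-!
# INF: the exact law in the half-infinite strip
-/

set_option autoImplicit false

namespace Pool.Agent.W808.KC
open H974 H906.Cyl
open Pool.Agent.H988R2.Perc (perc coin)
open MeasureTheory Filter Topology

namespace TINF

open Classical in
/-- the open edges of a finite set -/
noncomputable def op (S : Finset Edg) (ω : Edg → Bool) : Finset Edg := S.filter (fun e => ω e = true)

/-- the cell of a finite configuration -/
def cell (S F : Finset Edg) : Set (Edg → Bool) := {ω | op S ω = F}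

open Classical in
theorem cell_eq {S F : Finset Edg} (hF : F ⊆ S) :
    cell S F = Set.pi (S : Set Edg) (fun e => if e ∈ F then {true} else {false}) := by
  ext ω
  simp only [cell, op, Set.mem_ofPred_eq, Set.mem_pi, Finset.mem_coe]
  constructor
  · rintro h e he
    by_cases heF : e ∈ F
    · rw [if_pos heF]
      rw [← h] at heF
      exact (Finset.mem_filter.1 heF).2
    · rw [if_neg heF, Set.mem_singleton_iff]
      by_contra hc
      have : ω e = true := by simpa using hc
      apply heF
      rw [← h]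
      exact Finset.mem_filter.2 ⟨he, this⟩
  · intro h
    ext e
    rw [Finset.mem_filter]
    constructor
    · rintro ⟨he, ho⟩
      by_contra heF
      have := h e he
      rw [if_neg heF, Set.mem_singleton_iff, ho] at this
      exact absurd this (by simp)
    · intro heF
      refine ⟨hF heF, ?_⟩
      have := h e (hF heF)
      rw [if_pos heF] at this
      exact this

theorem meas_cell {S F : Finset Edg} (hF : F ⊆ S) : MeasurableSet (cell S F) := by
  classical
  rw [cell_eq hF]
  apply MeasurableSet.pi S.countable_toSet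
  intro e _
  exact (Set.toFinite _).measurableSet

theorem perc_cell {S F : Finset Edg} (hF : F ⊆ S) : perc.real (cell S F) = (1 / 2 : ℝ) ^ S.card := by
  classical
  rw [cell_eq hF, measureReal_def]
  unfold perc
  rw [Measure.infinitePi_pi]
  · have : ∀ e ∈ S, coin (if e ∈ F then {true} else {false}) = 1 / 2 := by
      intro e _
      split_ifs
      · exact Pool.Agent.H988R2.Perc.T23.coin_singleton true
      · exact Pool.Agent.H988R2.Perc.T23.coin_singleton false
    rw [Finset.prod_congr rfl this, Finset.prod_const]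
    simp
  · intro e _
    exact (Set.toFinite _).measurableSet

theorem event_eq (S : Finset Edg) (A : Finset Edg → Prop) [DecidablePred A] :
    {ω | A (op S ω)} = ⋃ F ∈ S.powerset.filter A, cell S F := by
  ext ω
  simp only [Set.mem_ofPred_eq, Set.mem_iUnion, exists_prop, Finset.mem_filter, Finset.mem_powerset, cell]
  constructor
  · intro h
    exact ⟨op S ω, ⟨Finset.filter_subset _ _, h⟩, rfl⟩
  · rintro ⟨F, ⟨_, h⟩, rfl⟩
    exact h

theorem meas_event (S : Finset Edg) (A : Finset Edg → Prop) : MeasurableSet {ω | A (op S ω)} := by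
  classical
  rw [event_eq]
  apply Finset.measurableSet_biUnion
  intro F hF
  exact meas_cell (Finset.mem_powerset.1 (Finset.mem_filter.1 hF).1)

/-- finite dimensional laws -/
theorem perc_event (S : Finset Edg) (A : Finset Edg → Prop) :
    perc.real {ω | A (op S ω)} = Pr (fun _ => (1 / 2 : ℝ)) S A := by
  classical
  rw [event_eq, measureReal_biUnion_finset]
  · unfold Pr Ex
    rw [Finset.sum_filter]
    apply Finset.sum_congr rfl
    intro F hF
    have hFS := Finset.mem_powerset.1 hF
    rw [perc_cell hFS, Finset.prod_const, Finset.prod_const]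
    have e : (1 / 2 : ℝ) ^ F.card * (1 - 1 / 2 : ℝ) ^ (S \ F).card = (1 / 2 : ℝ) ^ S.card := by
      have : (1 - 1 / 2 : ℝ) = 1 / 2 := by norm_num
      rw [this, ← pow_add]
      congr 1
      rw [Finset.card_sdiff_of_subset hFS]
      have := Finset.card_le_card hFS
      omega
    rw [e]
    show _ = (1 / 2 : ℝ) ^ S.card * ind (A F)
    by_cases h : A F
    · rw [if_pos h, ind_of h, mul_one]
    · rw [if_neg h]
      simp [ind, h]
  · intro F _ F' _ hne
    apply Set.disjoint_left.2
    intro ω h1 h2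
    exact hne (h1.symm.trans h2)
  · intro F hF
    exact meas_cell (Finset.mem_powerset.1 (Finset.mem_filter.1 hF).1)

theorem mem_SE {n M : ℕ} {e : Edg} : e ∈ SE n M ↔ e ∈ Ss n ∧ dco e < M := by
  obtain ⟨x, y, b⟩ := e
  unfold SE Ss edz dco
  simp only [Finset.mem_image, Finset.mem_product, Finset.mem_range, Prod.exists, Set.mem_ofPred_eq]
  constructor
  · rintro ⟨s, r, ⟨h1, h2⟩, h3⟩
    split_ifs at h3 with h4
    · simp only [Prod.mk.injEq] at h3
      obtain ⟨h5, h6, h7⟩ := h3
      subst h7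
      simp only [if_true]
      omega
    · simp only [Prod.mk.injEq] at h3
      obtain ⟨h5, h6, h7⟩ := h3
      subst h7
      simp only [Bool.false_eq_true, if_false]
      omega
  · rintro ⟨⟨h1, h2, h3⟩, h4⟩
    cases b
    · simp only [Bool.false_eq_true, if_false] at h1 h4
      refine ⟨(x + y + 1).toNat, (x - y - 1).toNat, ⟨by omega, by omega⟩, ?_⟩
      rw [if_neg (by omega)]
      simp only [Prod.mk.injEq, and_true]
      omega
    · simp only [if_true] at h1 h4
      refine ⟨(x + y + 1).toNat, (x - y).toNat, ⟨by omega, by omega⟩, ?_⟩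
      rw [if_pos (by omega)]
      simp only [Prod.mk.injEq, and_true]
      omega

/-- connections appear at finite depth -/
theorem reach_fin (n : ℕ) (ω : Edg → Bool) {a b : Vtx} (h : Reach ({e | ω e = true} ∩ Ss n) a b) :
    ∀ᶠ K : ℕ in atTop, Reach ((↑(op (SE n (2 * K)) ω) : Set Edg) ∩ Ss n) a b := by
  induction h with
  | refl => exact Eventually.of_forall fun K => Reach.refl _ _
  | tail _ hs ih =>
    obtain ⟨e, he, h1⟩ := hs
    filter_upwards [ih, eventually_gt_atTop (dco e).toNat] with K hK1 hK2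
    refine hK1.trans (Adj.reach ⟨e, ⟨?_, he.2⟩, h1⟩)
    rw [Finset.mem_coe]
    unfold op
    rw [Finset.mem_filter, mem_SE]
    refine ⟨⟨he.2, ?_⟩, he.1⟩
    push_cast
    omega

theorem reach_iff (n : ℕ) (ω : Edg → Bool) (a b : Vtx) :
    ∀ᶠ K : ℕ in atTop, (Reach ((↑(op (SE n (2 * K)) ω) : Set Edg) ∩ Ss n) a b ↔
      Reach ({e | ω e = true} ∩ Ss n) a b) := by
  by_cases h : Reach ({e | ω e = true} ∩ Ss n) a b
  · filter_upwards [reach_fin n ω h] with K hK
    exact ⟨fun _ => h, fun _ => hK⟩
  · refine Eventually.of_forall fun K => ⟨fun h' => ?_, fun h' => absurd h' h⟩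
    refine h'.mono ?_
    rintro e ⟨he, hS⟩
    refine ⟨?_, hS⟩
    rw [Finset.mem_coe] at he
    exact (Finset.mem_filter.1 he).2

theorem P0_congr {n m B : ℕ} (hB : n + m < B) {G G' : Set Edg}
    (h : ∀ i ∈ Finset.range B, ∀ j ∈ Finset.range B,
      (Reach (G ∩ Ss n) (cv i) (cv j) ↔ Reach (G' ∩ Ss n) (cv i) (cv j)) ∧
      (Reach (G ∩ Ss n) (cv i) (cw n j) ↔ Reach (G' ∩ Ss n) (cv i) (cw n j))) :
    P0 n m G ↔ P0 n m G' := by
  have h1 : ∀ i j, i < B → j < B →
      (Reach (G ∩ Ss n) (cv i) (cv j) ↔ Reach (G' ∩ Ss n) (cv i) (cv j)) :=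
    fun i j hi hj => (h i (Finset.mem_range.2 hi) j (Finset.mem_range.2 hj)).1
  have h2 : ∀ i j, i < B → j < B →
      (Reach (G ∩ Ss n) (cv i) (cw n j) ↔ Reach (G' ∩ Ss n) (cv i) (cw n j)) :=
    fun i j hi hj => (h i (Finset.mem_range.2 hi) j (Finset.mem_range.2 hj)).2
  have aux : ∀ {G G' : Set Edg},
      (∀ i j, i < B → j < B →
        (Reach (G ∩ Ss n) (cv i) (cv j) ↔ Reach (G' ∩ Ss n) (cv i) (cv j))) →
      (∀ i j, i < B → j < B →
        (Reach (G ∩ Ss n) (cv i) (cw n j) ↔ Reach (G' ∩ Ss n) (cv i) (cw n j))) →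
      P0 n m G → P0 n m G' := by
    intro G G' h1 h2 hP
    refine ⟨fun i j hi hj hij hr => hP.1 i j hi hj hij ((h1 i j (by omega) (by omega)).2 hr),
      fun i hi => ?_, fun hm i j hi hj hjn hr =>
        hP.2.2 hm i j hi hj hjn ((h1 i j (by omega) (by omega)).2 hr)⟩
    obtain ⟨j, hj, hr⟩ := hP.2.1 i hi
    exact ⟨j, hj, (h2 i j (by omega) (by omega)).1 hr⟩
  exact ⟨aux h1 h2, aux (fun i j hi hj => (h1 i j hi hj).symm) (fun i j hi hj => (h2 i j hi hj).symm)⟩

theorem P0_lim (n m : ℕ) (ω : Edg → Bool) :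
    ∀ᶠ K : ℕ in atTop, (P0 n m (↑(op (SE n (2 * K)) ω) : Set Edg) ↔ P0 n m {e | ω e = true}) := by
  have h : ∀ᶠ K : ℕ in atTop, ∀ i ∈ Finset.range (n + m + 1), ∀ j ∈ Finset.range (n + m + 1),
      (Reach ((↑(op (SE n (2 * K)) ω) : Set Edg) ∩ Ss n) (cv i) (cv j) ↔
        Reach ({e | ω e = true} ∩ Ss n) (cv i) (cv j)) ∧
      (Reach ((↑(op (SE n (2 * K)) ω) : Set Edg) ∩ Ss n) (cv i) (cw n j) ↔
        Reach ({e | ω e = true} ∩ Ss n) (cv i) (cw n j)) := by
    rw [Filter.eventually_all_finset]
    intro i _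
    rw [Filter.eventually_all_finset]
    intro j _
    exact (reach_iff n ω _ _).and (reach_iff n ω _ _)
  filter_upwards [h] with K hK
  exact P0_congr (Nat.lt_succ_self _) hK

end TINF

theorem t_INF (hL : S_LIM) : S_INF := by
  intro n m hm hmn
  have h1 := tendsto_measure_of_tendsto_indicator_of_isFiniteMeasure (L := atTop) perc
    (As := fun K : ℕ => {ω | P0 n m (↑(TINF.op (SE n (2 * K)) ω) : Set Edg)})
    (A := {ω | P0 n m {e | ω e = true}})
    (fun K => TINF.meas_event (SE n (2 * K)) (fun F => P0 n m (↑F : Set Edg)))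
    (fun ω => TINF.P0_lim n m ω)
  have h2 := (ENNReal.tendsto_toReal (measure_ne_top perc _)).comp h1
  have h3 : (fun K : ℕ => (perc {ω | P0 n m (↑(TINF.op (SE n (2 * K)) ω) : Set Edg)}).toReal) =
      fun K => pS n m (2 * K) := by
    funext K
    exact TINF.perc_event (SE n (2 * K)) (fun F => P0 n m (↑F : Set Edg))
  have h4 := hL n m hm hmn
  rw [← h3] at h4
  exact tendsto_nhds_unique h2 h4

end Pool.Agent.W808.KC
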