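import Pool.Agent.W808.KC.Stm
import Pool.Agent.W808.HB.T_KL

/-! KL: the limit of the determinant at the homogeneous point, by helper440
(adapted from `Pool.Agent.W808.HB.T_KL`). -/

set_option autoImplicit false

namespace Pool.Agent.W808.KC
open Pool.Agent.H863R2.Cyl
open Pool.Agent.H863R2.Cyl.HomLim (LL LL_add LL_smul LL_sum LL_mono det_LL det_vandermonde_smul
  inv_one_sub)
open Filter Topology Matrix
open Pool.Agent.W808.HB (bet Yv)
open Pool.Agent.W808.HB.KL (ep Path tendsto_t tendsto_eps eventually_pos eventually_ne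
  tendsto_pow_mul tendsto_mono tendsto_rem path_of al Yv_eq Yv_tendsto Yv_ne bet_eq al_tendsto
  al_inj aa)

namespace TKL

lemma uc_zero {m k l : ℕ} (h : m + 2 * k + 1 ≤ l) : uc m k l = 0 := by
  unfold uc
  split_ifs
  · exact Nat.choose_eq_zero_of_lt (by omega)
  · rfl

/-- the remainder of the geometric series -/
noncomputable def Rm (m K : ℕ) (b Y : ℂ) : ℂ :=
  (Y ^ (m + 1) * (aa Y ^ K * (1 - b * aa Y)⁻¹)
    - Y⁻¹ ^ (m + 1) * (aa Y⁻¹ ^ K * (1 - b * aa Y⁻¹)⁻¹)) / (Y - Y⁻¹)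

lemma Kf_expand (h : S_U) (m K : ℕ) (b Y : ℂ) (hY : Y ≠ 0) (hY1 : Y - Y⁻¹ ≠ 0)
    (h1 : 1 - b * aa Y ≠ 0) (h2 : 1 - b * aa Y⁻¹ ≠ 0) :
    Kf m b Y = (∑ k ∈ Finset.range K, ∑ l ∈ Finset.range (m + 2 * k + 1),
      (uc m k l : ℂ) * (b ^ k * bet Y ^ l)) + b ^ K * Rm m K b Y := by
  have e1 := inv_one_sub h1 K
  have e2 := inv_one_sub h2 K
  have e3 : ∀ k ∈ Finset.range K, ∑ l ∈ Finset.range (m + 2 * k + 1),
      (uc m k l : ℂ) * (b ^ k * bet Y ^ l) = b ^ k * ((Y ^ (m + 1) * (Y * (Y - 1)) ^ k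
        - Y⁻¹ ^ (m + 1) * (Y⁻¹ * (Y⁻¹ - 1)) ^ k) / (Y - Y⁻¹)) := by
    intro k _
    rw [h m k Y hY hY1, Finset.mul_sum]
    refine Finset.sum_congr rfl fun l _ => ?_
    ring
  rw [Finset.sum_congr rfl e3]
  unfold Kf Rm
  have e4 : Y ^ (m + 1) / (1 - b * (Y * (Y - 1))) =
      Y ^ (m + 1) * (1 - b * aa Y)⁻¹ := by
    rw [div_eq_mul_inv]; rfl
  have e5 : Y⁻¹ ^ (m + 1) / (1 - b * (Y⁻¹ * (Y⁻¹ - 1))) =
      Y⁻¹ ^ (m + 1) * (1 - b * aa Y⁻¹)⁻¹ := by
    rw [div_eq_mul_inv]; rfl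
  rw [e4, e5]
  have e6 : ∑ k ∈ Finset.range K, b ^ k * ((Y ^ (m + 1) * (Y * (Y - 1)) ^ k
        - Y⁻¹ ^ (m + 1) * (Y⁻¹ * (Y⁻¹ - 1)) ^ k) / (Y - Y⁻¹)) =
      (Y ^ (m + 1) * (∑ k ∈ Finset.range K, (b * aa Y) ^ k)
        - Y⁻¹ ^ (m + 1) * (∑ k ∈ Finset.range K, (b * aa Y⁻¹) ^ k)) / (Y - Y⁻¹) := by
    rw [Finset.mul_sum, Finset.mul_sum, ← Finset.sum_sub_distrib, Finset.sum_div]
    refine Finset.sum_congr rfl fun k _ => ?_
    rw [mul_pow b (aa Y), mul_pow b (aa Y⁻¹)]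
    have f1 : (Y * (Y - 1)) ^ k = aa Y ^ k := rfl
    have f2 : (Y⁻¹ * (Y⁻¹ - 1)) ^ k = aa Y⁻¹ ^ k := rfl
    rw [f1, f2]
    ring
  rw [e6]
  set u := (1 - b * aa Y)⁻¹
  set v := (1 - b * aa Y⁻¹)⁻¹
  set S1 := ∑ k ∈ Finset.range K, (b * aa Y) ^ k
  set S2 := ∑ k ∈ Finset.range K, (b * aa Y⁻¹) ^ k
  rw [mul_pow] at e1 e2
  linear_combination (Y ^ (m + 1) / (Y - Y⁻¹)) * e1
    - (Y⁻¹ ^ (m + 1) / (Y - Y⁻¹)) * e2

lemma Rm_tendsto {M : ℕ} (m K : ℕ) (hK : 0 < K) (i j : Fin M) :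
    ∃ r0, Tendsto (fun t => Rm m K (bet (Yv t i)) (Yv t j)) (𝓝[>] 0) (𝓝 r0) := by
  have hY := Yv_tendsto j
  have hYi : Tendsto (fun t => (Yv t j)⁻¹) (𝓝[>] 0) (𝓝 1) := by
    simpa using hY.inv₀ one_ne_zero
  have hb : Tendsto (fun t => bet (Yv t i)) (𝓝[>] 0) (𝓝 0) := by
    have h1 : Tendsto (fun t => ep t * al t i) (𝓝[>] 0) (𝓝 (0 * (((i : ℕ) + 1 : ℂ) ^ 2))) :=
      tendsto_eps.mul (al_tendsto i)
    rw [zero_mul] at h1
    exact h1.congr fun t => (bet_eq t i).symm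
  have ha : Tendsto (fun t => aa (Yv t j)) (𝓝[>] 0) (𝓝 0) := by
    have h1 := hY.mul (hY.sub_const 1)
    simp only [sub_self, mul_zero] at h1
    exact h1
  have ha' : Tendsto (fun t => aa (Yv t j)⁻¹) (𝓝[>] 0) (𝓝 0) := by
    have h1 := hYi.mul (hYi.sub_const 1)
    simp only [sub_self, mul_zero] at h1
    exact h1
  -- the quotients by `Y - 1/Y`
  have hq : Tendsto (fun t => Yv t j ^ 2 / (Yv t j + 1)) (𝓝[>] 0) (𝓝 (1 ^ 2 / (1 + 1))) :=
    (hY.pow 2).div (hY.add_const 1) (by norm_num)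
  have hq' : Tendsto (fun t => (Yv t j)⁻¹ / (Yv t j + 1)) (𝓝[>] 0) (𝓝 (1 / (1 + 1))) :=
    hYi.div (hY.add_const 1) (by norm_num)
  have h1 : Tendsto (fun t => 1 - bet (Yv t i) * aa (Yv t j)) (𝓝[>] 0) (𝓝 1) := by
    have := (hb.mul ha).const_sub 1
    simpa using this
  have h2 : Tendsto (fun t => 1 - bet (Yv t i) * aa (Yv t j)⁻¹) (𝓝[>] 0) (𝓝 1) := by
    have := (hb.mul ha').const_sub 1
    simpa using this
  refine ⟨_, Tendsto.congr' ?_ ((((hY.pow (m + 1)).mul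
    ((ha.pow (K - 1)).mul (h1.inv₀ one_ne_zero))).mul hq).add
    (((hYi.pow (m + 1)).mul
    ((ha'.pow (K - 1)).mul (h2.inv₀ one_ne_zero))).mul hq'))⟩
  filter_upwards [eventually_pos] with t ht
  obtain ⟨K', rfl⟩ : ∃ K', K = K' + 1 := ⟨K - 1, by omega⟩
  have hY0 := Yv_ne ht (j : ℕ)
  have hY1 : Yv t j - 1 ≠ 0 := by
    have : Yv t j - 1 = ((t * ((j : ℕ) + 1) : ℝ) : ℂ) := by rw [Yv_eq]; push_cast; ring
    rw [this]
    have : (0 : ℝ) < t * ((j : ℕ) + 1) := by positivity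
    exact_mod_cast this.ne'
  have hY2 : Yv t j + 1 ≠ 0 := by
    have : Yv t j + 1 = ((2 + t * ((j : ℕ) + 1) : ℝ) : ℂ) := by rw [Yv_eq]; push_cast; ring
    rw [this]
    have : (0 : ℝ) < 2 + t * ((j : ℕ) + 1) := by positivity
    exact_mod_cast this.ne'
  unfold Rm
  simp only [Nat.add_sub_cancel]
  set Y := Yv t j
  have e1 : Y - Y⁻¹ = (Y - 1) * (Y + 1) * Y⁻¹ := by field_simp; ring
  have e2 : aa Y = Y * (Y - 1) := rfl
  have e3 : aa Y⁻¹ = -(Y⁻¹ ^ 2 * (Y - 1)) := by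
    unfold aa
    field_simp
    ring
  have e4 : aa Y ^ (K' + 1) / (Y - Y⁻¹) = aa Y ^ K' * (Y ^ 2 / (Y + 1)) := by
    rw [pow_succ, e1]
    nth_rewrite 2 [e2]
    field_simp
  have e5 : aa Y⁻¹ ^ (K' + 1) / (Y - Y⁻¹) = -(aa Y⁻¹ ^ K' * (Y⁻¹ / (Y + 1))) := by
    rw [pow_succ, e1]
    nth_rewrite 2 [e3]
    field_simp
  have e6 : ∀ p r u v : ℂ, (p * (aa Y ^ (K' + 1) * u) - r * (aa Y⁻¹ ^ (K' + 1) * v)) / (Y - Y⁻¹) =
      p * u * (aa Y ^ (K' + 1) / (Y - Y⁻¹)) - r * v * (aa Y⁻¹ ^ (K' + 1) / (Y - Y⁻¹)) := by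
    intro p r u v
    ring
  rw [e6, e4, e5]
  ring

end TKL

open TKL in
theorem t_KL (h : S_U) : S_KL := by
  intro m M
  have hP : Path (fun t => (vandermonde (al (M := M) t))⁻¹) (fun t => al t) :=
    path_of al_tendsto al_inj
  set A : ℝ → Matrix (Fin M) (Fin M) ℂ := fun t => (vandermonde (al (M := M) t))⁻¹ with hA
  set F : ℝ → Matrix (Fin M) (Fin M) ℂ := fun t =>
    Matrix.of fun i j => Kf m (bet (Yv t i)) (Yv t j) with hF
  -- the entries
  have hlim : ∀ k l : Fin M, Tendsto (fun t => LL (A t) (A t) (ep t) k l (F t)) (𝓝[>] 0)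
      (𝓝 (uc m k l : ℂ)) := by
    intro k l
    have h1 : Tendsto (fun t => ∑ p ∈ Finset.range (2 * M), ∑ r ∈ Finset.range (m + 2 * p + 1),
        (uc m p r : ℂ) * LL (A t) (A t) (ep t) k l
          (fun i j => (ep t * al t i) ^ p * (ep t * al t j) ^ r)) (𝓝[>] 0)
        (𝓝 (uc m k l : ℂ)) := by
      have h2 := tendsto_finsetSum (Finset.range (2 * M)) (fun p _ =>
        tendsto_finsetSum (Finset.range (m + 2 * p + 1)) (fun r _ =>
          (tendsto_mono hP k l p r).const_mul ((uc m p r : ℂ))))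
      convert h2 using 2
      rw [Finset.sum_eq_single (k : ℕ)]
      · by_cases hl : (l : ℕ) < m + 2 * k + 1
        · rw [Finset.sum_eq_single (l : ℕ)]
          · simp
          · intro b _ hb
            rw [if_neg (fun h' => hb h'.2.symm), mul_zero]
          · intro h'
            exact absurd (Finset.mem_range.2 hl) h'
        · rw [uc_zero (not_lt.1 hl), Nat.cast_zero, eq_comm]
          apply Finset.sum_eq_zero
          intro r hr
          rw [if_neg, mul_zero]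
          rintro ⟨-, h'⟩
          apply hl
          rw [h']
          exact Finset.mem_range.1 hr
      · intro b _ hb
        apply Finset.sum_eq_zero
        intro r _
        rw [if_neg (fun h' => hb h'.1.symm), mul_zero]
      · intro h'
        exfalso
        apply h'
        rw [Finset.mem_range]
        have := k.2
        omega
    have h3 := tendsto_rem hP k l
      (fun t i j => al t i ^ (2 * M) * Rm m (2 * M) (bet (Yv t i)) (Yv t j)) (fun i j => by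
        obtain ⟨r0, hr0⟩ := Rm_tendsto m (2 * M) (by have := i.2; omega) i j
        exact ⟨_, ((al_tendsto i).pow (2 * M)).mul hr0⟩)
    have h4 := h1.add h3
    rw [add_zero] at h4
    apply h4.congr'
    have hb : ∀ i : Fin M, Tendsto (fun t => bet (Yv t i)) (𝓝[>] 0) (𝓝 0) := by
      intro i
      have h1 : Tendsto (fun t => ep t * al t i) (𝓝[>] 0) (𝓝 (0 * (((i : ℕ) + 1 : ℂ) ^ 2))) :=
        tendsto_eps.mul (al_tendsto i)
      rw [zero_mul] at h1
      exact h1.congr fun t => (bet_eq t i).symm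
    have hne : ∀ᶠ t in 𝓝[>] (0 : ℝ), ∀ i j : Fin M, 1 - bet (Yv t i) * aa (Yv t j) ≠ 0 := by
      rw [eventually_all]; intro i; rw [eventually_all]; intro j
      have hY := Yv_tendsto (j : ℕ)
      have h1 := ((hb i).mul (hY.mul (hY.sub_const 1))).const_sub 1
      simp only [zero_mul, sub_zero] at h1
      exact h1.eventually_ne one_ne_zero
    have hne' : ∀ᶠ t in 𝓝[>] (0 : ℝ), ∀ i j : Fin M, 1 - bet (Yv t i) * aa (Yv t j)⁻¹ ≠ 0 := by
      rw [eventually_all]; intro i; rw [eventually_all]; intro j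
      have hY : Tendsto (fun t => (Yv t j)⁻¹) (𝓝[>] 0) (𝓝 1) := by
        simpa using (Yv_tendsto (j : ℕ)).inv₀ one_ne_zero
      have h1 := ((hb i).mul (hY.mul (hY.sub_const 1))).const_sub 1
      simp only [zero_mul, sub_zero] at h1
      exact h1.eventually_ne one_ne_zero
    filter_upwards [hne, hne', eventually_pos] with t e1 e2 ht
    have e3 : (F t : Fin M → Fin M → ℂ) = fun i j : Fin M =>
        (∑ p ∈ Finset.range (2 * M), ∑ r ∈ Finset.range (m + 2 * p + 1),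
          (uc m p r : ℂ) * ((ep t * al t i) ^ p * (ep t * al t j) ^ r)) +
        ep t ^ (2 * M) * (al t i ^ (2 * M) * Rm m (2 * M) (bet (Yv t i)) (Yv t j)) := by
      funext i j
      have hY0 := Yv_ne ht (j : ℕ)
      have hY1 : Yv t j - (Yv t j)⁻¹ ≠ 0 := by
        intro h0
        have h5 : Yv t j ^ 2 = 1 := by
          field_simp at h0
          linear_combination h0
        have h6 : Yv t j = ((1 + t * ((j : ℕ) + 1) : ℝ) : ℂ) := rfl
        rw [h6] at h5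
        have h7 : (1 + t * ((j : ℕ) + 1) : ℝ) ^ 2 = 1 := by exact_mod_cast h5
        have h8 : 0 < t * ((j : ℕ) + 1 : ℝ) := by positivity
        nlinarith
      show Kf m (bet (Yv t i)) (Yv t j) = _
      rw [Kf_expand h m (2 * M) _ _ hY0 hY1 (e1 i j) (e2 i j), bet_eq t i, bet_eq t j]
      ring
    rw [e3, LL_add, LL_sum]
    congr 1
    refine Finset.sum_congr rfl fun p _ => ?_
    rw [LL_sum]
    refine Finset.sum_congr rfl fun r _ => ?_
    rw [LL_smul]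
  have hdetlim : Tendsto (fun t => (Matrix.of fun k l : Fin M =>
      LL (A t) (A t) (ep t) k l (F t)).det) (𝓝[>] 0)
      (𝓝 (Matrix.of fun k l : Fin M => (uc m k l : ℂ)).det) := by
    refine ((Continuous.matrix_det continuous_id).tendsto _).comp ?_
    apply tendsto_pi_nhds.mpr; intro k
    apply tendsto_pi_nhds.mpr; intro l
    exact hlim k l
  apply hdetlim.congr'
  have hV : Tendsto (fun t => (vandermonde (al (M := M) t)).det) (𝓝[>] 0)
      (𝓝 (vandermonde (fun i : Fin M => (((i : ℕ) + 1 : ℂ) ^ 2))).det) := by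
    refine ((Continuous.matrix_det continuous_id).tendsto _).comp ?_
    apply tendsto_pi_nhds.mpr; intro i
    apply tendsto_pi_nhds.mpr; intro j
    exact (al_tendsto i).pow _
  have hV0 : (vandermonde (fun i : Fin M => (((i : ℕ) + 1 : ℂ) ^ 2))).det ≠ 0 :=
    det_vandermonde_ne_zero_iff.mpr al_inj
  filter_upwards [hP.inv, eventually_ne, hV.eventually_ne hV0] with t h1 h2 h3
  have h4 := det_LL (A t) (A t) (vandermonde (al t)) (vandermonde (al t)) h1 h1 h2 (F t)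
  have h5 : (vandermonde (fun i : Fin M => bet (Yv t i))).det =
      (∏ k : Fin M, ep t ^ (k : ℕ)) * (vandermonde (al (M := M) t)).det := by
    rw [← det_vandermonde_smul]
    congr 2
    funext i
    exact bet_eq t i
  have h6 : (∏ k : Fin M, ep t ^ (k : ℕ)) ≠ 0 :=
    Finset.prod_ne_zero_iff.2 fun k _ => pow_ne_zero _ h2
  show _ = (F t).det / (vandermonde (fun i : Fin M => bet (Yv t i))).det ^ 2
  rw [h4, h5]
  field_simp

end Pool.Agent.W808.KC
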