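import Pool.Agent.W808.KC.Stm
import Pool.Agent.W808.HU.T_LAND

/-! LAND in the quarter-plane: the clusters of the quarter box land at separated cells (helper462,
adapted from the half-plane version). -/

set_option autoImplicit false

namespace Pool.Agent.W808.KC
open H974 H906.Cyl
open H12S (Dir hbE segD rimE H4 Crs Nr sqE)
open Pool.Agent.H160R2.ML (nm)
open Pool.Agent.H160R2.MU (EP inSq PC Cc)

namespace TLANDQ
open Pool.Agent.H160R2.MU (TIND.Crs_mono' TMON.nm_tgt_le)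
open Pool.Agent.H160R2.MU.TLAND
open Pool.Agent.W808.HU.TLANDH (dco_f dco_t)

/-- exit of a region, quarter box -/
theorem exit_q {R : ℤ} {G : Set Edg} {P : Vtx → Prop} {S : Set Edg}
    (hS : ∀ e ∈ G, e ∈ qbx R → (P (src e) ∨ P (tgt e)) → e ∈ S)
    {u w : Vtx} (h : Reach (G ∩ qbx R) u w) (hu : P u) (hw : ¬ P w) :
    ∃ z, ¬ P z ∧ Reach (G ∩ S) u z := by
  by_contra hA
  have key : ∀ v, Reach (G ∩ qbx R) u v → P v ∧ Reach (G ∩ S) u v := by
    intro v hv
    induction hv with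
    | refl => exact ⟨hu, Reach.refl _ _⟩
    | tail _ hs ih =>
      rename_i x y _
      obtain ⟨e, ⟨heG, heS⟩, hxy⟩ := hs
      have heS' : e ∈ S := by
        refine hS e heG heS ?_
        rcases hxy with ⟨rfl, -⟩ | ⟨-, rfl⟩
        · exact Or.inl ih.1
        · exact Or.inr ih.1
      have hr : Reach (G ∩ S) u y := Relation.ReflTransGen.tail ih.2 ⟨e, ⟨heG, heS'⟩, hxy⟩
      by_cases hy : P y
      · exact ⟨hy, hr⟩
      · exact absurd ⟨y, hy, hr⟩ hA
  exact hw (key w h).1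

theorem hbE_qs {R x : ℤ} {b : ℕ} (hx : |x| + 2 * b ≤ R) (e : Edg)
    (he : e ∈ hbE Dir.lf (ctr Dir.lf R x).1 (ctr Dir.lf R x).2 b) :
    0 ≤ dco e ∧ -1 ≤ e.1 + e.2.1 := by
  have hx1 := le_abs_self x
  have hx2 := neg_abs_le x
  obtain ⟨p, q, _ | _⟩ := e
  · simp only [ctr, hbE, mem_RE_false] at he
    rw [dco_f]
    dsimp only
    omega
  · simp only [ctr, hbE, mem_RE_true] at he
    rw [dco_t]
    dsimp only
    omega

theorem hbE_qbx {R x : ℤ} {b : ℕ} (hx : |x| + 2 * b ≤ R) :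
    (↑(hbE Dir.lf (ctr Dir.lf R x).1 (ctr Dir.lf R x).2 b) : Set Edg) ⊆ qbx R := by
  intro e he
  have h1 := hbE_ends (b := b) (by omega) e (Finset.mem_coe.1 he)
  have h2 := hbE_qs hx e (Finset.mem_coe.1 he)
  exact ⟨h2.1, h2.2, h1.1.2, h1.2.2⟩

/-- key lemma: two different clusters of the quarter box near a boundary point -/
theorem two_q {R x : ℤ} {a b : ℕ} {G : Set Edg} (hab : a < b)
    (hx : |x| + 2 * b ≤ R) {u u' w w' : Vtx}
    (hu : nm u = R) (hud : onS Dir.lf R u) (hux : |tc Dir.lf u - x| ≤ a)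
    (hu' : nm u' = R) (hud' : onS Dir.lf R u') (hux' : |tc Dir.lf u' - x| ≤ a)
    (h : Reach (G ∩ qbx R) u w) (hw : ¬ Pin Dir.lf R x b w)
    (h' : Reach (G ∩ qbx R) u' w') (hw' : ¬ Pin Dir.lf R x b w')
    (hne : ¬ Reach (G ∩ qbx R) u u') :
    H4 Dir.lf (ctr Dir.lf R x).1 (ctr Dir.lf R x).2 a b G := by
  have hx0 := abs_nonneg x
  have hex : ∀ (u w : Vtx), nm u = R → onS Dir.lf R u → |tc Dir.lf u - x| ≤ a →
      Reach (G ∩ qbx R) u w → ¬ Pin Dir.lf R x b w →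
      ∃ z ∈ rimE Dir.lf (ctr Dir.lf R x).1 (ctr Dir.lf R x).2 b,
        Reach (G ∩ ↑(hbE Dir.lf (ctr Dir.lf R x).1 (ctr Dir.lf R x).2 b)) u z := by
    intro u w hu hud hux h hw
    have hPu := pin_of hab hu hud hux
    obtain ⟨z, hz, hr⟩ := exit_q (S := (↑(hbE Dir.lf (ctr Dir.lf R x).1 (ctr Dir.lf R x).2 b) :
      Set Edg))
      (fun e _ h1 h3 => pin_edge (by omega) (by omega) e h1.2.2.1 h1.2.2.2 h3) h hPu hw
    refine ⟨z, rim_of (by omega) hz ?_, hr⟩
    rcases Relation.ReflTransGen.cases_tail hr with rfl | ⟨y, -, e, ⟨-, he⟩, hyz⟩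
    · exact absurd hPu hz
    · exact ⟨e, Finset.mem_coe.1 he, by tauto⟩
  refine ⟨u, seg_of hud hux, u', seg_of hud' hux', hex u w hu hud hux h hw,
    hex u' w' hu' hud' hux' h' hw', fun hr => hne ?_⟩
  exact hr.mono (Set.inter_subset_inter_right _ (hbE_qbx hx))

/-- the vertices of a cluster of the quarter box are in the quarter-plane -/
theorem quart_of {R : ℤ} {G : Set Edg} {u v : Vtx} (h : Reach (G ∩ qbx R) u v)
    (hu : u.2 ≤ u.1 ∧ -1 ≤ u.1 + u.2) : v.2 ≤ v.1 ∧ -1 ≤ v.1 + v.2 := by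
  have key : ∀ e : Edg, 0 ≤ dco e → -1 ≤ e.1 + e.2.1 → ((src e).2 ≤ (src e).1 ∧
      -1 ≤ (src e).1 + (src e).2) ∧ ((tgt e).2 ≤ (tgt e).1 ∧ -1 ≤ (tgt e).1 + (tgt e).2) := by
    intro e he he2
    obtain ⟨p, q, _ | _⟩ := e
    · rw [dco_f] at he
      dsimp only at he2
      simp only [src, tgt, Bool.false_eq_true, if_false]
      omega
    · rw [dco_t] at he
      dsimp only at he2
      simp only [src, tgt, if_true]
      omega
  induction h with
  | refl => exact hu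
  | tail _ hs _ =>
    obtain ⟨e, ⟨-, heS⟩, hxy⟩ := hs
    have h1 := key e heS.1 heS.2.1
    rcases hxy with ⟨-, rfl⟩ | ⟨rfl, -⟩
    · exact h1.2
    · exact h1.1

theorem corner_q {R ρ : ℕ} {k : ℤ} {G : Set Edg} (hρ : 64 * ρ ≤ R) (hρ1 : 1 ≤ ρ) (hk : 64 * k ≤ R)
    (hC : ¬ ∃ s1 s2 : Bool, Crs (sg s1 R) (sg s2 R) (4 * ρ) (R / 4) G) {d : Dir} {u w : Vtx}
    (hu : nm u = R) (hud : onS d R u) (h : Reach (G ∩ qbx R) u w)
    (hw : nm w ≤ k) : |tc d u| + 4 * ρ < R := by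
  by_contra hcon
  rw [not_lt] at hcon
  have hu' := (nm_eq hu).1
  obtain ⟨s1, s2, h1, h2⟩ : ∃ s1 s2 : Bool, |u.1 - sg s1 R| ≤ 4 * ρ ∧ |u.2 - sg s2 R| ≤ 4 * ρ := by
    rcases abs_cases (tc d u) with ⟨ha, -⟩ | ⟨ha, -⟩ <;> rw [ha] at hcon <;> cases d <;>
      simp only [onS, tc] at hud hcon
    · exact ⟨true, false, by simp only [sg, if_true]; rw [abs_le]; omega,
        by simp only [sg, Bool.false_eq_true, if_false]; rw [abs_le]; omega⟩
    · exact ⟨true, true, by simp only [sg, if_true]; rw [abs_le]; omega,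
        by simp only [sg, if_true]; rw [abs_le]; omega⟩
    · exact ⟨false, true, by simp only [sg, Bool.false_eq_true, if_false]; rw [abs_le]; omega,
        by simp only [sg, if_true]; rw [abs_le]; omega⟩
    · exact ⟨true, true, by simp only [sg, if_true]; rw [abs_le]; omega,
        by simp only [sg, if_true]; rw [abs_le]; omega⟩
    · exact ⟨false, false, by simp only [sg, Bool.false_eq_true, if_false]; rw [abs_le]; omega,
        by simp only [sg, Bool.false_eq_true, if_false]; rw [abs_le]; omega⟩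
    · exact ⟨false, true, by simp only [sg, Bool.false_eq_true, if_false]; rw [abs_le]; omega,
        by simp only [sg, if_true]; rw [abs_le]; omega⟩
    · exact ⟨false, false, by simp only [sg, Bool.false_eq_true, if_false]; rw [abs_le]; omega,
        by simp only [sg, Bool.false_eq_true, if_false]; rw [abs_le]; omega⟩
    · exact ⟨true, false, by simp only [sg, if_true]; rw [abs_le]; omega,
        by simp only [sg, Bool.false_eq_true, if_false]; rw [abs_le]; omega⟩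
  apply hC
  have hsg : ∀ s : Bool, sg s (R : ℤ) = R ∨ sg s (R : ℤ) = -R := by
    intro s
    cases s <;> simp [sg]
  have hR4 : (((R / 4 : ℕ) : ℤ)) * 4 ≤ R := by exact_mod_cast Nat.div_mul_le_self R 4
  have hR4' : (R : ℤ) < ((R / 4 : ℕ) : ℤ) * 4 + 4 := by
    have : R < R / 4 * 4 + 4 := by omega
    exact_mod_cast this
  obtain ⟨z, hz, hr⟩ := exit_q (S := Set.univ)
    (P := fun v => |v.1 - sg s1 R| < (R / 4 : ℕ) ∧ |v.2 - sg s2 R| < (R / 4 : ℕ))
    (fun _ _ _ _ => trivial) h ⟨by omega, by omega⟩ (by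
      rintro ⟨h3, -⟩
      rw [nm_le] at hw
      rw [abs_lt] at h3
      rcases hsg s1 with e | e <;> rw [e] at h3 <;> omega)
  refine ⟨s1, s2, u, z, ?_, ?_, hr.mono (Set.inter_subset_left)⟩
  · rw [abs_le] at h1 h2
    unfold inR
    push_cast
    omega
  · rw [abs_lt, abs_lt] at hz
    omega

/-- different clusters land far from each other -/
theorem far_q {R ρ l : ℕ} {k : ℤ} {G : Set Edg} (hl : 1 ≤ l) (hlρ : 64 * l ≤ ρ) (hρ : 64 * ρ ≤ R)
    (hk : 64 * k ≤ R)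
    (hB : ¬ ∃ (d : Dir) (i : ℤ), |(l : ℤ) * i| + ρ ≤ R ∧
      H4 d (ctr d R (l * i)).1 (ctr d R (l * i)).2 (8 * l) ρ G) {u v w w' : Vtx}
    (hu : nm u = R) (hud : onS Dir.lf R u) (ht : |tc Dir.lf u| + 4 * ρ < R) (hv : nm v = R)
    (hw : nm w ≤ k) (hw' : nm w' ≤ k) (h : Reach (G ∩ qbx R) u w)
    (h' : Reach (G ∩ qbx R) v w') (hne : ¬ Reach (G ∩ qbx R) u v) :
    ¬ (|u.1 - v.1| ≤ l ∧ |u.2 - v.2| ≤ l) := by
  rintro ⟨h1, h2⟩
  obtain ⟨hvd, hvt⟩ := same_side (l := l) (ρ := ρ) hu hud ht (by omega) (by omega) hv h1 h2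
  obtain ⟨e1, e2⟩ := ediv_near (t := tc Dir.lf u) hl
  rw [abs_le] at hvt
  have ht2 := abs_lt.1 (by omega : |tc Dir.lf u| < R - 4 * ρ)
  have hx : |(l : ℤ) * (tc Dir.lf u / l)| + 2 * ρ ≤ R := by
    have : |(l : ℤ) * (tc Dir.lf u / l)| ≤ R - 2 * ρ := by rw [abs_le]; omega
    omega
  refine hB ⟨Dir.lf, tc Dir.lf u / l, by omega, ?_⟩
  refine two_q (w := w) (w' := w') (by omega) hx hu hud ?_ hv hvd
    ?_ h (not_pin_of hw (by omega)) h' (not_pin_of hw' (by omega)) hne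
  · rw [abs_le]; push_cast; omega
  · rw [abs_le]; push_cast; omega

/-- near a landing point every cluster reaching far is the landing cluster -/
theorem near_q {R r l : ℕ} {k : ℤ} {G : Set Edg} (hr : 1 ≤ r) (hrl : 64 * r ≤ l) (hl : 64 * l ≤ R)
    (hk : 64 * k ≤ R)
    (hB : ¬ ∃ (d : Dir) (i : ℤ), |(r : ℤ) * i| + (l / 4 : ℕ) ≤ R ∧
      H4 d (ctr d R (r * i)).1 (ctr d R (r * i)).2 (8 * r) (l / 4) G) {y u w w' : Vtx}
    (hy : nm y = R) (hyd : onS Dir.lf R y) (ht : |tc Dir.lf y| + l < R) (hu : nm u = R)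
    (hud : onS Dir.lf R u) (hut : |tc Dir.lf u - tc Dir.lf y| ≤ r) (hw' : nm w' ≤ k)
    (h : Reach (G ∩ qbx R) y w') (hw : ¬ (|w.1 - y.1| ≤ (l / 2 : ℕ) ∧
      |w.2 - y.2| ≤ (l / 2 : ℕ))) (h' : Reach (G ∩ qbx R) u w) :
    Reach (G ∩ qbx R) u y := by
  by_contra hne
  obtain ⟨e1, e2⟩ := ediv_near (t := tc Dir.lf y) hr
  rw [abs_le] at hut
  have ht2 := abs_lt.1 (by omega : |tc Dir.lf y| < R - l)
  have hl4 : ((l / 4 : ℕ) : ℤ) * 4 ≤ l ∧ (l : ℤ) < ((l / 4 : ℕ) : ℤ) * 4 + 4 := by omega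
  have hl2 : ((l / 2 : ℕ) : ℤ) * 2 ≤ l ∧ (l : ℤ) < ((l / 2 : ℕ) : ℤ) * 2 + 2 := by omega
  have hx : |(r : ℤ) * (tc Dir.lf y / r)| + 2 * (l / 4 : ℕ) ≤ R := by
    have : |(r : ℤ) * (tc Dir.lf y / r)| ≤ R - 2 * (l / 4 : ℕ) := by rw [abs_le]; omega
    omega
  refine hB ⟨Dir.lf, tc Dir.lf y / r, by omega, ?_⟩
  refine two_q (w := w) (w' := w') (by omega) hx hu hud ?_ hy hyd
    ?_ h' ?_ h (not_pin_of hw' (by omega)) hne
  · rw [abs_le]; push_cast; omega
  · rw [abs_le]; push_cast; omega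
  · rintro ⟨-, h3, h4⟩
    apply hw
    rw [abs_lt] at h3 h4
    rw [abs_le, abs_le]
    simp only [ctr, onS, tc] at *
    omega

theorem cv_le {k i : ℕ} (hi : i < k) : nm (cv i) ≤ k := by
  rw [nm_le]
  unfold cv
  dsimp only
  omega

/-- the side on which the clusters land -/
theorem side_q {R ρ k : ℕ} {G : Set Edg} (hρ : 64 * ρ ≤ R) (hρ1 : 1 ≤ ρ) (hk : 64 * k ≤ R)
    (hC : ¬ ∃ s1 s2 : Bool, Crs (sg s1 R) (sg s2 R) (4 * ρ) (R / 4) G) {y : Vtx} {i : ℕ}
    (hi : i < k) (hy : nm y = R) (h : Reach (G ∩ qbx R) (cv i) y) :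
    onS Dir.lf R y ∧ |tc Dir.lf y| + 4 * ρ < R := by
  obtain ⟨d, hd⟩ := side_of hy
  have hc := corner_q (w := cv i) (k := k) hρ hρ1 (by exact_mod_cast hk) hC hy hd h.symm (cv_le hi)
  have hq := quart_of h (by unfold cv; dsimp only; omega)
  have h3 := abs_lt.1 (show |tc d y| < R - 4 * ρ by omega)
  have h4 := (nm_eq hy).1
  cases d <;> first
    | exact ⟨hd, hc⟩
    | (exfalso; simp only [onS, tc] at hd h3; omega)

theorem det_q {N r l ρ m : ℕ} {G : Set Edg} (hm : 2 ≤ m) (hr : 1 ≤ r)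
    (hrl : 64 * r ≤ l) (hlρ : 64 * l ≤ ρ) (hρ : 64 * ρ ≤ N * r) (hkR : 64 * m ≤ N * r)
    (hB : ¬ BadL r l ρ (N * r) G) (hS : SEq m (N * r : ℕ) G) :
    ∃ c : Fin (m / 2) → ℤ, AdmC N (m / 2) c ∧ LandC N r m c G := by
  obtain ⟨hS1, hS2, hS3⟩ := hS
  set k := m / 2 with hkdef
  have hkm : k ≤ m := Nat.div_le_self _ _
  have hkR' : 64 * k ≤ N * r := by omega
  have hkRz : 64 * (k : ℤ) ≤ (N * r : ℕ) := by exact_mod_cast hkR'
  have hB1 : ¬ ∃ s1 s2 : Bool, Crs (sg s1 (N * r : ℕ)) (sg s2 (N * r : ℕ)) (4 * ρ) (N * r / 4) G :=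
    fun h => hB (Or.inl h)
  have hB2 := fun h => hB (Or.inr (Or.inl h))
  have hB3 := fun h => hB (Or.inr (Or.inr h))
  have hy0 : ∀ a : Fin k, ∃ (y : Vtx), nm y = ((N * r : ℕ) : ℤ) ∧
      onS Dir.lf (N * r : ℕ) y ∧ |tc Dir.lf y| + 4 * ρ < (N * r : ℕ) ∧
      Reach (G ∩ qbx (N * r : ℕ)) (cv a) y := by
    intro a
    obtain ⟨y, hy, hc⟩ := hS2 a a.2
    obtain ⟨h1, h2⟩ := side_q hρ (by omega) hkR' hB1 a.2 hy hc
    exact ⟨y, hy, h1, h2, hc⟩
  choose y hy hd ht hc using hy0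
  have hne : ∀ a b : Fin k, a ≠ b → ¬ Reach (G ∩ qbx (N * r : ℕ)) (y a) (y b) := by
    intro a b hab h
    refine hS1 a b a.2 b.2 (fun e => hab (Fin.ext e)) ?_
    exact ((hc a).trans h).trans (hc b).symm
  have hsep : ∀ a b : Fin k, a ≠ b →
      ¬ (|(y a).1 - (y b).1| ≤ l ∧ |(y a).2 - (y b).2| ≤ l) := by
    intro a b hab
    exact far_q (w := cv a) (w' := cv b) (by omega) hlρ hρ hkRz hB2 (hy a) (hd a)
      (ht a) (hy b) (cv_le a.2) (cv_le b.2) (hc a).symm (hc b).symm (hne a b hab)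
  have hcell : ∀ x : ℤ, Pool.Agent.H160R2.MU.csq N (cl Dir.lf x) = ((N : ℤ), x) := by
    intro x
    simp [cl, Pool.Agent.H160R2.MU.csq]
  have hin : ∀ a : Fin k, inSq r ((N : ℤ), tc Dir.lf (y a) / r) (y a) := by
    intro a
    have := inSq_cl (N := N) hr (hd a)
    rwa [hcell] at this
  have hcoarse : ∀ a b : Fin k, a ≠ b →
      2 ≤ |tc Dir.lf (y a) / r - tc Dir.lf (y b) / r| := by
    intro a b hab
    by_contra hcon
    rw [not_le] at hcon
    have h1 := inSq_near (hin a) (hin b) (by simp) (by dsimp only; omega)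
    exact hsep a b hab ⟨by omega, by omega⟩
  have hr0 : (0 : ℤ) < r := by exact_mod_cast hr
  have hx : ∀ a : Fin k, -(N : ℤ) + 3 ≤ tc Dir.lf (y a) / r ∧ tc Dir.lf (y a) / r + 3 ≤ N := by
    intro a
    have h3 := abs_lt.1 (show |tc Dir.lf (y a)| < ((N * r : ℕ) : ℤ) - 4 * ρ by
      have := ht a
      omega)
    push_cast at h3
    have h4 : 64 * 64 * r ≤ ρ := by omega
    have h4' : (64 * 64 * r : ℤ) ≤ ρ := by exact_mod_cast h4
    refine ⟨?_, ?_⟩
    · rw [Int.le_ediv_iff_mul_le hr0]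
      linarith [h3.1]
    · have h5 : tc Dir.lf (y a) / r < N - 2 := by
        rw [Int.ediv_lt_iff_lt_mul hr0]
        linarith [h3.2]
      omega
  set f : Fin k → ℤ := fun a => -(tc Dir.lf (y a) / r) with hf
  have hinj : Function.Injective f := by
    intro a b hab
    by_contra hne'
    have h2 := hcoarse a b hne'
    have h3 : tc Dir.lf (y a) / r = tc Dir.lf (y b) / r := neg_injective hab
    rw [h3, sub_self] at h2
    simp at h2
  have hst : StrictMono (f ∘ Tuple.sort f) :=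
    (Tuple.monotone_sort f).strictMono_of_injective (hinj.comp (Tuple.sort f).injective)
  have hσ : Function.Injective (Tuple.sort f) := (Tuple.sort f).injective
  refine ⟨fun a => tc Dir.lf (y (Tuple.sort f a)) / r, ⟨fun a => hx _, fun a b hab => ?_⟩,
    ⟨fun a => (Tuple.sort f a : Fin k), ?_, ?_⟩, ?_, ?_⟩
  · have h1 : -(tc Dir.lf (y (Tuple.sort f a)) / (r : ℤ)) <
        -(tc Dir.lf (y (Tuple.sort f b)) / (r : ℤ)) := hst hab
    have h2 := hcoarse (Tuple.sort f a) (Tuple.sort f b) (fun e => hab.ne (hσ e))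
    rcases abs_cases (tc Dir.lf (y (Tuple.sort f a)) / (r : ℤ) -
      tc Dir.lf (y (Tuple.sort f b)) / (r : ℤ)) with ⟨h3, h4⟩ | ⟨h3, h4⟩
    · rw [h3] at h2
      dsimp only
      omega
    · rw [h3] at h2
      dsimp only
      omega
  · intro a b hab
    exact hσ (Fin.ext hab)
  · intro a
    exact ⟨(Tuple.sort f a).2, y (Tuple.sort f a), hin _, hy _, hc _⟩
  · intro a b hab u v hu hnu hv hnv huv
    have hab' : Tuple.sort f a ≠ Tuple.sort f b := fun e => hab (hσ e)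
    dsimp only at hu hv
    generalize Tuple.sort f a = a' at *
    generalize Tuple.sort f b = b' at *
    obtain ⟨hu1, hu2⟩ := of_inSq (N := N) (d := Dir.lf) hr hnu (by rw [hcell]; exact hu)
    obtain ⟨hv1, hv2⟩ := of_inSq (N := N) (d := Dir.lf) hr hnv (by rw [hcell]; exact hv)
    have hl2 : ((l / 2 : ℕ) : ℤ) * 2 ≤ l ∧ (l : ℤ) < ((l / 2 : ℕ) : ℤ) * 2 + 2 := by omega
    have hsa := inSq_same hu (hin a')
    have hsb := inSq_same hv (hin b')
    have hs := hsep a' b' hab'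
    have h1 : Reach (G ∩ qbx (N * r : ℕ)) u (y a') := by
      refine near_q (l := l) (w := v) (w' := cv a') hr hrl
        (by omega) hkRz hB3 (hy a') (hd a') ?_ hnu hu1 hu2 (cv_le a'.2)
        (hc a').symm ?_ huv
      · have := ht a'
        omega
      · rintro ⟨h3, h4⟩
        apply hs
        rw [abs_le] at h3 h4 hsb ⊢
        rw [abs_le] at hsb ⊢
        omega
    have h2 : Reach (G ∩ qbx (N * r : ℕ)) v (y b') := by
      refine near_q (l := l) (w := u) (w' := cv b') hr hrl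
        (by omega) hkRz hB3 (hy b') (hd b') ?_ hnv hv1 hv2 (cv_le b'.2)
        (hc b').symm ?_ huv.symm
      · have := ht b'
        omega
      · rintro ⟨h3, h4⟩
        apply hs
        rw [abs_le] at h3 h4 hsa ⊢
        rw [abs_le] at hsa ⊢
        omega
    exact hne a' b' hab' ((h1.symm.trans huv).trans h2)
  · intro hodd a v hv hnv j hj hjR hvj
    dsimp only at hv
    generalize Tuple.sort f a = a' at *
    obtain ⟨hv1, hv2⟩ := of_inSq (N := N) (d := Dir.lf) hr hnv (by rw [hcell]; exact hv)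
    have h1 : Reach (G ∩ qbx (N * r : ℕ)) v (y a') := by
      refine near_q (l := l) (w := cv j) (w' := cv a') hr hrl
        (by omega) hkRz hB3 (hy a') (hd a') ?_ hnv hv1 hv2 (cv_le a'.2)
        (hc a').symm ?_ hvj
      · have := ht a'
        omega
      · rintro ⟨h3, h4⟩
        have h5 := ht a'
        have h6 := hd a'
        have h7 := le_abs_self (tc Dir.lf (y a'))
        have hl2 : ((l / 2 : ℕ) : ℤ) * 2 ≤ l := by omega
        simp only [onS] at h6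
        simp only [tc] at h5 h7
        unfold cv at h3 h4
        rw [abs_le] at h3 h4
        dsimp only at h3 h4
        omega
    refine hS3 hodd a' j a'.2 hj (by exact_mod_cast hjR) ?_
    exact ((hc a').trans h1.symm).trans hvj

/-! ### monotonicity and locality -/

theorem qbx_mono {R R' : ℤ} (h : R ≤ R') : qbx R ⊆ qbx R' :=
  fun _ he => ⟨he.1, he.2.1, he.2.2.1.trans h, he.2.2.2.trans h⟩

theorem seq_mono {m R R' : ℕ} (hkR : m ≤ R) (hR : R ≤ R') {G : Set Edg}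
    (h : SEq m (R' : ℤ) G) : SEq m (R : ℤ) G := by
  have hR' : (R : ℤ) ≤ R' := by exact_mod_cast hR
  have hmm : m / 2 ≤ m := Nat.div_le_self _ _
  have hsub := Set.inter_subset_inter_right G (qbx_mono hR')
  refine ⟨fun i j hi hj hij hc => h.1 i j hi hj hij (hc.mono hsub), fun i hi => ?_,
    fun ho i j hi hj hjR hc => h.2.2 ho i j hi hj (by omega) (hc.mono hsub)⟩
  obtain ⟨y, hy, hc⟩ := h.2.1 i hi
  obtain ⟨z, hz, hr⟩ := exit_q (S := qbx (R : ℤ)) (P := fun v => nm v < R) (fun e _ he hP => by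
      have h3 := Pool.Agent.H160R2.MU.TMON.nm_tgt_le e
      have h4 := Pool.Agent.H160R2.MU.TMON.nm_src_le e
      refine ⟨he.1, he.2.1, ?_, ?_⟩
      · rcases hP with hP | hP <;> omega
      · rcases hP with hP | hP <;> omega) hc
    (by
      show nm (cv i) < R
      have : nm (cv i) ≤ (R : ℤ) - 1 := by
        rw [nm_le]
        unfold cv
        dsimp only
        omega
      omega)
    (by
      show ¬ nm y < R
      omega)
  refine ⟨z, ?_, hr⟩
  have hz2 : nm z ≤ R := by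
    rcases Relation.ReflTransGen.cases_tail hr with e | ⟨x, -, e, ⟨-, he⟩, hyz⟩
    · rw [e, nm_le]
      unfold cv
      dsimp only
      omega
    · rcases hyz with ⟨-, rfl⟩ | ⟨rfl, -⟩
      · exact he.2.2.2
      · exact he.2.2.1
  have hz' : ¬ nm z < R := hz
  omega

theorem seq_local {m R : ℕ} (F : Finset Edg) :
    SEq m (R : ℤ) (↑F : Set Edg) ↔ SEq m (R : ℤ) (↑(F ∩ boxE R) : Set Edg) := by
  have h1 : (↑F : Set Edg) ∩ qbx (R : ℤ) = (↑(F ∩ boxE R) : Set Edg) ∩ qbx (R : ℤ) := by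
    ext e
    simp only [Set.mem_inter_iff, Finset.mem_coe, Finset.mem_inter]
    constructor
    · rintro ⟨he, h⟩
      exact ⟨⟨he, Pool.Agent.H160R2.MU.TMON.mem_box h.2.2.1 h.2.2.2⟩, h⟩
    · rintro ⟨he, h⟩
      exact ⟨he.1, h⟩
  unfold SEq
  rw [h1]

end TLANDQ

open TLANDQ Pool.Agent.H160R2.MU.TLAND in
open Pool.Agent.H160R2.MU (TMON.box_mono) in
theorem t_LAND : S_LAND := by
  classical
  intro m hm δ hδ
  obtain ⟨N, A, B, hN, hA, hB, hN2, hN3, hP⟩ := prob m δ hδ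
  refine ⟨N, hN, ((Fintype.piFinset (fun _ : Fin (m / 2) =>
    Finset.Ico (-(N : ℤ)) N)).filter (AdmC N (m / 2))),
    fun c hc => (Finset.mem_filter.1 hc).2, 1, ?_⟩
  intro r hr
  set Cs := ((Fintype.piFinset (fun _ : Fin (m / 2) =>
    Finset.Ico (-(N : ℤ)) N)).filter (AdmC N (m / 2))) with hCs
  set l := A * r with hl
  set ρ := B * (A * r) with hρ
  have h1 : 64 * r ≤ l := Nat.mul_le_mul_right r hA
  have h2 : 64 * l ≤ ρ := Nat.mul_le_mul_right _ hB
  have h3 : 64 * ρ ≤ N * r := by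
    calc 64 * ρ = 64 * (B * A) * r := by rw [hρ]; ring
      _ ≤ N * r := Nat.mul_le_mul_right r hN2
  have h4 : 64 * m ≤ N * r := by
    calc 64 * m ≤ N := hN3
      _ = N * 1 := (mul_one N).symm
      _ ≤ N * r := Nat.mul_le_mul_left N hr
  have hcov : sPq m (N * r) ≤ Pr (fun _ => (1 / 2 : ℝ)) (boxE (N * r)) (fun F =>
      (SEq m (N * r / 2 : ℕ) (↑F : Set Edg) ∧ BadL r l ρ (N * r) (↑F : Set Edg)) ∨
      ∃ c ∈ Cs, LandC N r m c (↑F : Set Edg)) := by
    unfold sPq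
    refine Pr_mono ok2 fun F _ hF => ?_
    by_cases hb : BadL r l ρ (N * r) (↑F : Set Edg)
    · exact Or.inl ⟨seq_mono (by omega) (Nat.div_le_self _ _) hF, hb⟩
    · right
      obtain ⟨c, hc, hc'⟩ := det_q hm hr h1 h2 h3 h4 hb hF
      refine ⟨c, ?_, hc'⟩
      rw [hCs, Finset.mem_filter, Fintype.mem_piFinset]
      refine ⟨fun a => ?_, hc⟩
      have := hc.1 a
      rw [Finset.mem_Ico]
      omega
  have hind : Pr (fun _ => (1 / 2 : ℝ)) (boxE (N * r)) (fun F =>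
      (SEq m (N * r / 2 : ℕ) (↑F : Set Edg) ∧ BadL r l ρ (N * r) (↑F : Set Edg))) =
      Pr (fun _ => (1 / 2 : ℝ)) (boxE (N * r)) (fun F => SEq m (N * r / 2 : ℕ) (↑F : Set Edg)) *
      Pr (fun _ => (1 / 2 : ℝ)) (boxE (N * r)) (fun F => BadL r l ρ (N * r) (↑F : Set Edg)) := by
    refine Pr_indep (S := boxE (N * r / 2)) (T := boxE (N * r) \ boxE (N * r / 2))
      (TMON.box_mono (Nat.div_le_self _ _)) Finset.sdiff_subset Finset.disjoint_sdiff
      (fun F _ => seq_local F) (fun F hF => ?_)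
    have key : ∀ e : Edg, e ∉ boxE (N * r / 2) →
        (e ∈ (↑F : Set Edg) ↔ e ∈ (↑(F ∩ (boxE (N * r) \ boxE (N * r / 2))) : Set Edg)) := by
      intro e he
      rw [Finset.mem_coe, Finset.mem_coe, Finset.mem_inter, Finset.mem_sdiff]
      exact ⟨fun h => ⟨h, hF h, he⟩, fun h => h.1⟩
    exact ⟨bad_mono hr h1 h2 h3 key, bad_mono hr h1 h2 h3 fun e he => (key e he).symm⟩
  have hsp : Pr (fun _ => (1 / 2 : ℝ)) (boxE (N * r))
      (fun F => SEq m (N * r / 2 : ℕ) (↑F : Set Edg)) = sPq m (N * r / 2) :=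
    Pr_local (TMON.box_mono (Nat.div_le_self _ _)) fun F _ => seq_local F
  have hsp0 : 0 ≤ sPq m (N * r / 2) := Pr_nonneg ok2 _ _
  refine hcov.trans ((Pr_or_le ok2 _ _ _).trans (add_le_add ?_ (Pr_exists_le ok2 _ _ _)))
  rw [hind, hsp, mul_comm]
  exact mul_le_mul_of_nonneg_right (hP r hr) hsp0

end Pool.Agent.W808.KC
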