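import Pool.Agent.W808.KC.Stm

/-!
# Arms at a corner: the exact law as a limit
-/

set_option autoImplicit false

namespace Pool.Agent.W808.KC
open Pool.Agent.H988R2.Perc (Word ins cap act rainbow Dyck LP Fw fac q mem_LP q_ne_zero)
open Filter Topology

namespace TLIM

lemma list_eq (m M N : ℕ) (h : 2 * m + 2 * M = N) :
    List.replicate m (1 : ℂ) ++ List.replicate (2 * M) 1 ++ List.replicate m 1 =
      List.replicate N 1 := by
  rw [← List.replicate_add, ← List.replicate_add]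
  congr 1
  omega

lemma GG_eq (m M N : ℕ) (h : 2 * m + 2 * M = N) :
    GG (List.replicate m 1) (List.replicate (2 * M) 1) (List.replicate m 1) =
      ∑ w ∈ LP N, el m w * Fw w (List.replicate N 1) := by
  unfold GG
  rw [list_eq m M N h]
  simp only [List.length_replicate]
  rw [show m + 2 * M + m = N by omega]

lemma Cn_pos (t M : ℕ) : 0 < Cn t M := by
  unfold Cn
  refine Finset.prod_pos fun i _ => ?_
  refine div_pos (mul_pos (mul_pos ?_ ?_) (Finset.prod_pos fun s _ => ?_))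
    (mul_pos ?_ (Finset.prod_pos fun s _ => ?_))
  · exact_mod_cast (by omega : 0 < 2 * t + 3 * i + 2)
  · exact_mod_cast Nat.factorial_pos _
  · have : 0 < (2 * t + 3 + 4 * i + 2 * s) * (2 * t + 1 + 2 * i + s) :=
      Nat.mul_pos (by omega) (by omega)
    exact_mod_cast this
  · exact_mod_cast Nat.factorial_pos _
  · exact_mod_cast (by omega : 0 < 2 * t + 1 + 2 * i + 2 * s)

end TLIM

open TLIM in
theorem t_LIM : S_CV → S_LW → S_HV → S_DC → S_E1 → S_LIM := by
  intro hCV hLW hHV hDC hE1 n m hm hmn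
  obtain ⟨M, hM⟩ : ∃ M, m + M = n + 1 := ⟨n + 1 - m, by omega⟩
  have hM' : n + 1 - m = M := by omega
  rw [hM']
  set Z : ℂ := ∑ w ∈ LP (2 * (n + 1)), Fw w (List.replicate (2 * (n + 1)) 1) with hZ
  have hZ1 : Z = (3 * q) ^ ((1 + n) * (1 + n - 1)) * (Dc (2 * 1) n : ℂ) := by
    rw [← hHV 1 n le_rfl, GG_eq 1 n (2 * (n + 1)) (by ring), hZ]
    refine Finset.sum_congr rfl fun w hw => ?_
    rw [mem_LP] at hw
    have h1 := hE1.1 w hw.2 (by omega)
    unfold el
    rw [if_pos h1, one_mul]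
  have h3q : (3 * q : ℂ) ≠ 0 := mul_ne_zero (by norm_num) q_ne_zero
  have hD1 : Dc (2 * 1) n ≠ 0 := by
    rw [hDC]
    exact (Cn_pos _ _).ne'
  have hZ0 : Z ≠ 0 := by
    rw [hZ1]
    exact mul_ne_zero (pow_ne_zero _ h3q) (by exact_mod_cast hD1)
  have hcv := hCV (n + 1) (by omega) hZ0
  have hG : ∑ w ∈ LP (2 * (n + 1)), el m w * Fw w (List.replicate (2 * (n + 1)) 1) =
      (3 * q) ^ ((1 + n) * (1 + n - 1)) * (Dc (2 * m) M : ℂ) := by
    rw [← GG_eq m M (2 * (n + 1)) (by omega), hHV m M (by omega)]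
    congr 3 <;> omega
  -- the complex limit
  have hlim : Tendsto (fun K => ∑ w ∈ LP (2 * (n + 1)), el m w * ((lawW (n + 1) K w : ℝ) : ℂ))
      atTop (𝓝 (∑ w ∈ LP (2 * (n + 1)), el m w *
        (Fw w (List.replicate (2 * (n + 1)) 1) / Z))) :=
    tendsto_finsetSum _ fun w hw => (hcv w hw).const_mul (el m w)
  have hval : ∑ w ∈ LP (2 * (n + 1)), el m w * (Fw w (List.replicate (2 * (n + 1)) 1) / Z) =
      ((Pk m M : ℝ) : ℂ) := by
    have e : ∑ w ∈ LP (2 * (n + 1)), el m w * (Fw w (List.replicate (2 * (n + 1)) 1) / Z) =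
        (∑ w ∈ LP (2 * (n + 1)), el m w * Fw w (List.replicate (2 * (n + 1)) 1)) / Z := by
      rw [Finset.sum_div]
      exact Finset.sum_congr rfl fun w _ => by ring
    rw [e, hG, hZ1, mul_div_mul_left _ _ (pow_ne_zero _ h3q), hDC, hDC]
    unfold Pk
    have h2 : m + M - 1 = n := by omega
    rw [h2]
    push_cast
    rfl
  rw [hval] at hlim
  have hre := (Complex.continuous_re.tendsto _).comp hlim
  rw [Complex.ofReal_re] at hre
  refine hre.congr fun K => ?_
  rw [hLW n m K hm (by omega), Function.comp, Complex.re_sum]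
  refine Finset.sum_congr rfl fun w _ => ?_
  unfold el
  split_ifs
  · rw [one_mul, Complex.ofReal_re]
  · rw [zero_mul, Complex.zero_re]

end Pool.Agent.W808.KC
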