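import Pool.Agent.W808.KC.T_CV

/-!
# Arms at a corner: probability in the finite strip and law of the word
-/

set_option autoImplicit false

namespace Pool.Agent.W808.KC
open H974 H906.Cyl
open Pool.Agent.H988R2.Perc (Word ins cap act rainbow Dyck LP Fw fac q mem_LP)
open Filter Topology

namespace TLW

/-! ### average over the subsets of the image of an injective map -/

/-- subsets and bits -/
def setE (ι : Type) [Fintype ι] [DecidableEq ι] : (ι → Bool) ≃ Finset ι where
  toFun x := Finset.univ.filter (fun i => x i = true)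
  invFun F := fun i => decide (i ∈ F)
  left_inv x := by
    funext i
    simp
  right_inv F := by
    ext i
    simp

lemma Ex_half {ι : Type} [Fintype ι] [DecidableEq ι] (φ : ι ↪ Edg) (f : Finset Edg → ℝ) :
    Ex (fun _ => (1 / 2 : ℝ)) (Finset.univ.map φ) f =
      (∑ x : ι → Bool, f ((setE ι x).map φ)) / 2 ^ Fintype.card ι := by
  rw [Ex_map]
  unfold Ex
  have h1 : ∀ F ∈ (Finset.univ : Finset ι).powerset,
      (∏ _e ∈ F, (1 / 2 : ℝ)) * (∏ _e ∈ Finset.univ \ F, (1 - 1 / 2 : ℝ)) * f (F.map φ) =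
        f (F.map φ) / 2 ^ Fintype.card ι := by
    intro F _
    rw [Finset.prod_const, Finset.prod_const, Finset.card_sdiff_of_subset (Finset.subset_univ F),
      Finset.card_univ]
    have h2 : F.card ≤ Fintype.card ι := Finset.card_le_univ F
    rw [show (1 - 1 / 2 : ℝ) = 1 / 2 by norm_num, ← pow_add, Nat.add_sub_cancel' h2]
    rw [one_div, inv_pow]
    ring
  rw [Finset.sum_congr rfl h1, ← Finset.sum_div, Finset.powerset_univ]
  congr 1
  exact (Equiv.sum_comp (setE ι) (fun F => f (F.map φ))).symm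

/-! ### the rows depend on finitely many bits -/

lemma fwdW_congr (L : ℕ) (c c' : ℕ → Bool) (h : ∀ i, 1 ≤ i → i ≤ L → c i = c' i) (w : Word) :
    fwdW L c w = fwdW L c' w := by
  induction L with
  | zero => rfl
  | succ L ih =>
    simp only [fwdW]
    rw [ih fun i h1 h2 => h i h1 (by omega), h (L + 1) (by omega) le_rfl]

lemma bwdW_congr (L : ℕ) (c c' : ℕ → Bool) (h : ∀ i, 1 ≤ i → i ≤ L → c i = c' i) (w : Word) :
    bwdW L c w = bwdW L c' w := by
  induction L generalizing w with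
  | zero => rfl
  | succ L ih =>
    simp only [bwdW]
    rw [h (L + 1) (by omega) le_rfl]
    exact ih (fun i h1 h2 => h i h1 (by omega)) _

lemma rowW_congr (L : ℕ) (c c' d d' : ℕ → Bool) (h : ∀ i, 1 ≤ i → i ≤ L → c i = c' i)
    (h' : ∀ i, 1 ≤ i → i ≤ L → d i = d' i) (w : Word) : rowW L c d w = rowW L c' d' w := by
  unfold rowW
  rw [fwdW_congr L c c' h, bwdW_congr L d d' h']

lemma XW_congr (L K : ℕ) (c c' : ℕ → ℕ → Bool) (w : Word)
    (h : ∀ k < 2 * K, ∀ i, 1 ≤ i → i ≤ L → c k i = c' k i) : XW L c w K = XW L c' w K := by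
  induction K with
  | zero => rfl
  | succ K ih =>
    simp only [XW]
    rw [ih fun k hk => h k (by omega),
      rowW_congr L _ _ _ _ (h (2 * K) (by omega)) (h (2 * K + 1) (by omega))]

/-! ### average over the bits -/

/-- extension of a family of rows -/
def exB {m L : ℕ} (b : Fin m → Fin L → Bool) (k : ℕ) : ℕ → Bool :=
  if h : k < m then ex (b ⟨k, h⟩) else fun _ => false

lemma exB_snoc_lt {m L : ℕ} (b : Fin m → Fin L → Bool) (c : Fin L → Bool) {k : ℕ} (hk : k < m) :
    exB (Fin.snoc b c : Fin (m + 1) → Fin L → Bool) k = exB b k := by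
  unfold exB
  rw [dif_pos hk, dif_pos (by omega)]
  congr 1
  have e : (⟨k, by omega⟩ : Fin (m + 1)) = Fin.castSucc ⟨k, hk⟩ := rfl
  rw [e, Fin.snoc_castSucc]

lemma exB_snoc_eq {m L : ℕ} (b : Fin m → Fin L → Bool) (c : Fin L → Bool) :
    exB (Fin.snoc b c : Fin (m + 1) → Fin L → Bool) m = ex c := by
  unfold exB
  rw [dif_pos (by omega)]
  congr 1
  have e : (⟨m, by omega⟩ : Fin (m + 1)) = Fin.last m := rfl
  rw [e, Fin.snoc_last]

lemma sum_snoc {m : ℕ} {α : Type} [Fintype α] [DecidableEq α] (g : (Fin (m + 1) → α) → ℝ) :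
    ∑ b, g b = ∑ c : α, ∑ b : Fin m → α, g (Fin.snoc b c) := by
  rw [← Equiv.sum_comp (Fin.snocEquiv (fun _ : Fin (m + 1) => α)), Fintype.sum_prod_type]
  rfl

lemma avg (n K : ℕ) (f : Word → ℝ) :
    ∑ b : Fin (2 * K) → Fin (2 * n) → Bool, f (XW (2 * n) (exB b) (w0 n) K) =
      4 ^ (2 * n * K) * ∑ w ∈ LP (2 * n), lawW n K w * f w := by
  induction K generalizing f with
  | zero =>
    have e : ∑ w ∈ LP (2 * n), lawW n 0 w * f w = f (w0 n) := by
      simp only [lawW, ite_mul, one_mul, zero_mul]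
      rw [Finset.sum_ite_eq', if_pos (TCV.w0_mem n)]
    rw [e]
    simp [XW]
  | succ K ih =>
    have h1 : ∑ b : Fin (2 * (K + 1)) → Fin (2 * n) → Bool,
        f (XW (2 * n) (exB b) (w0 n) (K + 1)) =
        ∑ c' : Fin (2 * n) → Bool, ∑ c : Fin (2 * n) → Bool,
          ∑ b : Fin (2 * K) → Fin (2 * n) → Bool,
            f (rowW (2 * n) (ex c) (ex c') (XW (2 * n) (exB b) (w0 n) K)) := by
      have h2 := sum_snoc (m := 2 * K + 1) (α := Fin (2 * n) → Bool)
        (fun b => f (XW (2 * n) (exB b) (w0 n) (K + 1)))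
      refine h2.trans (Finset.sum_congr rfl fun c' _ => ?_)
      rw [sum_snoc (m := 2 * K) (α := Fin (2 * n) → Bool)]
      refine Finset.sum_congr rfl fun c _ => Finset.sum_congr rfl fun b _ => ?_
      simp only [XW]
      rw [exB_snoc_eq, exB_snoc_lt _ _ (by omega), exB_snoc_eq]
      congr 2
      refine XW_congr _ _ _ _ _ fun k hk i _ _ => ?_
      rw [exB_snoc_lt _ _ (by omega), exB_snoc_lt _ _ hk]
    rw [h1]
    have h3 : ∀ c' c : Fin (2 * n) → Bool, ∑ b : Fin (2 * K) → Fin (2 * n) → Bool,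
            f (rowW (2 * n) (ex c) (ex c') (XW (2 * n) (exB b) (w0 n) K)) =
        4 ^ (2 * n * K) * ∑ w ∈ LP (2 * n), lawW n K w * f (rowW (2 * n) (ex c) (ex c') w) :=
      fun c' c => ih (fun w => f (rowW (2 * n) (ex c) (ex c') w))
    simp only [h3, ← Finset.mul_sum]
    have e4 : (4 : ℝ) ^ (2 * n * (K + 1)) = 4 ^ (2 * n * K) * 4 ^ (2 * n) := by
      rw [← pow_add]
      congr 1
    rw [e4, mul_assoc ((4 : ℝ) ^ (2 * n * K))]
    congr 1
    have h4 : ∀ w' : Word, lawW n (K + 1) w' * f w' =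
        (∑ w ∈ LP (2 * n), ∑ c : Fin (2 * n) → Bool, ∑ c' : Fin (2 * n) → Bool,
          if rowW (2 * n) (ex c) (ex c') w = w' then lawW n K w * f w' else 0) / 4 ^ (2 * n) := by
      intro w'
      simp only [lawW]
      rw [div_mul_eq_mul_div, Finset.sum_mul]
      congr 1
      refine Finset.sum_congr rfl fun w _ => ?_
      rw [Finset.sum_mul]
      refine Finset.sum_congr rfl fun c _ => ?_
      rw [Finset.sum_mul]
      refine Finset.sum_congr rfl fun c' _ => ?_
      rw [ite_mul, zero_mul]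
    rw [Finset.sum_congr rfl fun w' _ => h4 w', ← Finset.sum_div, mul_div_cancel₀ _ (by positivity)]
    rw [Finset.sum_comm]
    rw [Finset.sum_comm, Finset.sum_comm (s := LP (2 * n)) (t := LP (2 * n))]
    have h5 : ∀ w ∈ LP (2 * n), ∑ w' ∈ LP (2 * n), ∑ c : Fin (2 * n) → Bool,
        ∑ c' : Fin (2 * n) → Bool,
          (if rowW (2 * n) (ex c) (ex c') w = w' then lawW n K w * f w' else 0) =
        ∑ c : Fin (2 * n) → Bool, ∑ c' : Fin (2 * n) → Bool,
          lawW n K w * f (rowW (2 * n) (ex c) (ex c') w) := by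
      intro w hw
      rw [Finset.sum_comm]
      refine Finset.sum_congr rfl fun c _ => ?_
      rw [Finset.sum_comm]
      refine Finset.sum_congr rfl fun c' _ => ?_
      rw [Finset.sum_ite_eq, if_pos (TCV.rowW_mem hw)]
    rw [Finset.sum_congr rfl h5]
    rw [Finset.sum_comm (s := LP (2 * n))]
    rw [Finset.sum_comm]
    refine Finset.sum_congr rfl fun c _ => ?_
    rw [Finset.sum_comm]

/-! ### the edges and the bits -/

/-- the edge of the row `k` and the tile `j + 1` -/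
def phi (n K : ℕ) : Fin (2 * K) × Fin (2 * n + 2) ↪ Edg where
  toFun p := edz ((p.2.1 : ℤ) - 1) (2 * K - 1 - p.1.1)
  inj' := by
    rintro ⟨k, j⟩ ⟨k', j'⟩ h
    have hk := k.2
    have hk' := k'.2
    simp only [edz] at h
    have e : (k : ℕ) = k' ∧ (j : ℕ) = j' := by
      split_ifs at h <;> simp only [Prod.mk.injEq, reduceCtorEq, and_false, and_true] at h <;> omega
    exact Prod.ext (Fin.ext e.1) (Fin.ext e.2)

lemma phi_apply (n K : ℕ) (p : Fin (2 * K) × Fin (2 * n + 2)) :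
    phi n K p = edz ((p.2.1 : ℤ) - 1) (2 * K - 1 - p.1.1) := rfl

lemma SE_eq (n K : ℕ) : SE n (2 * K) = Finset.univ.map (phi n K) := by
  ext e
  simp only [SE, Finset.mem_image, Finset.mem_product, Finset.mem_range, Prod.exists,
    Finset.mem_map, Finset.mem_univ, true_and, phi_apply]
  constructor
  · rintro ⟨a, b, ⟨ha, hb⟩, rfl⟩
    refine ⟨⟨2 * K - 1 - b, by omega⟩, ⟨a, ha⟩, ?_⟩
    congr 1
    show (2 * (K : ℤ) - 1 - ((2 * K - 1 - b : ℕ) : ℤ)) = b
    omega
  · rintro ⟨k, j, rfl⟩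
    refine ⟨j, 2 * K - 1 - k, ⟨j.2, by have := k.2; omega⟩, ?_⟩
    congr 1
    have := k.2
    omega

/-- bits and states of the edges -/
def flp (n K : ℕ) : (Fin (2 * K) → Fin (2 * n + 2) → Bool) ≃
    (Fin (2 * K) × Fin (2 * n + 2) → Bool) where
  toFun b p := if (p.2.1 + 1) % 2 = 1 then b p.1 p.2 else !(b p.1 p.2)
  invFun x k j := if (j.1 + 1) % 2 = 1 then x (k, j) else !(x (k, j))
  left_inv b := by
    funext k j
    simp only
    split_ifs <;> simp
  right_inv x := by
    funext p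
    simp only
    split_ifs <;> simp

lemma mem_map_phi (n K : ℕ) (x : Fin (2 * K) × Fin (2 * n + 2) → Bool)
    (p : Fin (2 * K) × Fin (2 * n + 2)) :
    phi n K p ∈ (setE _ x).map (phi n K) ↔ x p = true := by
  rw [Finset.mem_map' (phi n K)]
  simp [setE]

/-- the bits with classical decidability -/
noncomputable def cFc (K : ℕ) (F : Set Edg) : ℕ → ℕ → Bool :=
  @cF K F (fun a => Classical.propDecidable (a ∈ F))

lemma cF_eq (n K : ℕ) (b : Fin (2 * K) → Fin (2 * n + 2) → Bool) (k i : ℕ) (hk : k < 2 * K)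
    (h1 : 1 ≤ i) (h2 : i ≤ 2 * n + 2) :
    cFc K (((setE _ (flp n K b)).map (phi n K) : Finset Edg) : Set Edg) k i = exB b k i := by
  classical
  obtain ⟨j, rfl⟩ : ∃ j, i = j + 1 := ⟨i - 1, by omega⟩
  have hj : j < 2 * n + 2 := by omega
  have he : edz (((j + 1 : ℕ) : ℤ) - 2) (2 * K - 1 - k) = phi n K (⟨k, hk⟩, ⟨j, hj⟩) := by
    rw [phi_apply]
    dsimp only
    congr 1
    push_cast
    ring
  have hm := mem_map_phi n K (flp n K b) (⟨k, hk⟩, ⟨j, hj⟩)
  unfold cFc cF exB ex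
  rw [dif_pos hk, dif_pos ⟨h1, h2⟩, he]
  simp only [Finset.mem_coe, hm]
  simp only [flp, Equiv.coe_fn_mk]
  have e2 : (⟨j + 1 - 1, by omega⟩ : Fin (2 * n + 2)) = ⟨j, hj⟩ := Fin.ext (by simp)
  rw [e2]
  split_ifs with h3
  · simp
  · simp

end TLW

open TLW in
theorem t_LW : S_PG → S_LW := by
  classical
  intro hPG n m K hm hmn
  unfold pS Pr
  have hdco : ∀ e ∈ SE n (2 * K), dco e < 2 * K := by
    intro e he
    simp only [SE, Finset.mem_image, Finset.mem_product, Finset.mem_range, Prod.exists] at he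
    obtain ⟨a, b, ⟨ha, hb⟩, rfl⟩ := he
    unfold edz dco
    split_ifs <;> simp_all <;> omega
  have h1 : Ex (fun _ => (1 / 2 : ℝ)) (SE n (2 * K)) (fun F => ind (P0 n m (↑F : Set Edg))) =
      Ex (fun _ => (1 / 2 : ℝ)) (SE n (2 * K))
        (fun F => ind (Gd m (XW (2 * n + 2) (cFc K (↑F : Set Edg)) (w0 (n + 1)) K))) := by
    refine Ex_congr fun F hF => ind_congr ?_
    exact (hPG n m K (↑F : Set Edg) hm hmn fun e he => hdco e (hF he)).1
  rw [h1, SE_eq, Ex_half, ← Equiv.sum_comp (flp n K)]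
  have h2 : ∀ b : Fin (2 * K) → Fin (2 * n + 2) → Bool,
      XW (2 * n + 2) (cFc K (((setE _ (flp n K b)).map (phi n K) : Finset Edg) : Set Edg))
        (w0 (n + 1)) K = XW (2 * n + 2) (exB b) (w0 (n + 1)) K := by
    intro b
    exact XW_congr _ _ _ _ _ fun k hk i h3 h4 => cF_eq n K b k i hk h3 h4
  simp only [h2]
  have h3 := avg (n + 1) K (fun w => ind (Gd m w))
  have h4 : ∑ b : Fin (2 * K) → Fin (2 * n + 2) → Bool,
      ind (Gd m (XW (2 * n + 2) (exB b) (w0 (n + 1)) K)) =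
      4 ^ (2 * (n + 1) * K) * ∑ w ∈ LP (2 * (n + 1)), lawW (n + 1) K w * ind (Gd m w) := h3
  rw [h4]
  have hc : (2 : ℝ) ^ Fintype.card (Fin (2 * K) × Fin (2 * n + 2)) = 4 ^ (2 * (n + 1) * K) := by
    rw [Fintype.card_prod, Fintype.card_fin, Fintype.card_fin, show (4 : ℝ) = 2 ^ 2 by norm_num,
      ← pow_mul]
    congr 1
    ring
  rw [hc, mul_div_cancel_left₀ _ (by positivity)]
  refine Finset.sum_congr rfl fun w _ => ?_
  unfold ind
  split_ifs <;> simp

end Pool.Agent.W808.KC
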