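import Pool.Agent.W808.KC.Stm
import Pool.Agent.W808.HB.T_M1

/-!
# The exact formula with legs at the two corners (task KC-M1)
-/

set_option autoImplicit false

namespace Pool.Agent.W808.KC
open Pool.Agent.H160R2.ML (Gn)
open Pool.Agent.H988R2.Perc (fac q q_cube q_spec q_ne_zero q_ne_one)
open Pool.Agent.H988R2.Perc.T10 (pairs fA fB pairs_append_singleton)
open Pool.Agent.W808.HB (prs Xf Yf vdx wdx)

namespace TM1

open Pool.Agent.W808.HB.TM1 (prs_nil prs_cons prs_append prs_len prs_even prs_perm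
  mem_prs prs_prod Gn_perm Gn_sub Gn_cons Gn_append Gn_inj ef vdx_perm wdx_perm vdx_cons wdx_cons
  Xf_inv ef_inv ofFn_cons YY wdx_cons')

/-! ### generic lists -/

theorem prs_perm_append (l : List ℂ) : (prs l).Perm (l ++ l.map (fun x => x⁻¹)) := by
  induction l with
  | nil => exact List.Perm.refl _
  | cons x l ih =>
    rw [prs_cons, List.map_cons, List.cons_append]
    refine List.Perm.cons _ ?_
    exact (ih.cons _).trans List.perm_middle.symm

theorem Gn_ninv {l : List ℂ} (h : Gn (prs l)) : ∀ b ∈ l, ∀ c ∈ l, b ^ 3 ≠ c⁻¹ ^ 3 := by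
  intro b hb c hc
  exact Gn_append (Gn_perm (prs_perm_append l) h) b hb c⁻¹
    (List.mem_map_of_mem (f := fun x : ℂ => x⁻¹) hc)

theorem mem_prs_self {x : ℂ} {l : List ℂ} (h : x ∈ l) : x ∈ prs l := by
  unfold prs
  rw [List.mem_flatMap]
  exact ⟨x, h, List.mem_cons_self⟩

theorem mem_prs_inv {x : ℂ} {l : List ℂ} (h : x ∈ l) : x⁻¹ ∈ prs l := by
  unfold prs
  rw [List.mem_flatMap]
  exact ⟨x, h, List.mem_cons_of_mem _ List.mem_cons_self⟩

theorem q4 : q ^ 4 = q := by linear_combination q * q_cube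

theorem cube_ne {u v : ℂ} (h : u ^ 3 ≠ v ^ 3) (i j : ℕ) : q ^ i * u ≠ q ^ j * v := by
  intro he
  apply h
  have h4 : (q ^ i * u) ^ 3 = (q ^ j * v) ^ 3 := by rw [he]
  have h5 : (q ^ i * u) ^ 3 = (q ^ 3) ^ i * u ^ 3 := by ring
  have h6 : (q ^ j * v) ^ 3 = (q ^ 3) ^ j * v ^ 3 := by ring
  rw [h5, h6, q_cube, one_pow, one_pow, one_mul, one_mul] at h4
  exact h4

theorem prod_ne {A : List ℂ} {f : ℂ → ℂ} (h : ∀ b ∈ A, f b ≠ 0) : (A.map f).prod ≠ 0 := by
  rw [Ne, List.prod_eq_zero_iff, List.mem_map]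
  rintro ⟨a, ha, h0⟩
  exact h a ha h0

/-! ### moving a leg -/

theorem move (hL : S_legx) (z B : List ℂ) (hz : Even z.length) (x : ℂ) (w v : List ℂ) :
    ∀ u : List ℂ, u.length + v.length + w.length + 1 = B.length →
    (v.map (fun b => q * x - q ^ 2 * b)).prod * GG (u ++ v ++ x :: w) z B =
      (v.map (fun b => q * b - q ^ 2 * x)).prod * GG (u ++ x :: (v ++ w)) z B := by
  induction v with
  | nil => intro u _; simp
  | cons b v ih =>
    intro u hu
    rw [List.length_cons] at hu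
    have h1 := ih (u ++ [b]) (by rw [List.length_append, List.length_singleton]; omega)
    have h2 := hL u (v ++ w) z B x b (by rw [List.length_append]; omega) hz
    have e2 : u ++ [b] ++ v ++ x :: w = u ++ (b :: v) ++ x :: w := by simp
    have e3 : u ++ [b] ++ x :: (v ++ w) = u ++ b :: x :: (v ++ w) := by simp
    rw [e2, e3] at h1
    rw [List.map_cons, List.prod_cons, List.map_cons, List.prod_cons, mul_assoc, h1,
      List.cons_append]
    linear_combination (v.map (fun b => q * b - q ^ 2 * x)).prod * h2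

/-- the partition function vanishes if the last leg is `q²` times another leg -/
theorem van1 (hL : S_legx) (z B : List ℂ) (hz : Even z.length) (A : List ℂ)
    (hlen : A.length + 1 = B.length) (hA : Gn (prs A)) (b : ℂ) (hb : b ∈ A) :
    GG (A ++ [q ^ 2 * b]) z B = 0 := by
  have hGA : Gn A := Gn_sub (List.sublist_append_left A _) (Gn_perm (prs_perm_append A) hA)
  obtain ⟨u, v, rfl⟩ := List.append_of_mem hb
  have hGv : ∀ c ∈ v, b ^ 3 ≠ c ^ 3 := Gn_cons (Gn_sub (List.sublist_append_right u (b :: v)) hGA)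
  have hb0 : b ≠ 0 := hGA.1 b hb
  rw [List.length_append, List.length_cons] at hlen
  have h1 := move hL z B hz (q ^ 2 * b) [] v (u ++ [b]) (by
    rw [List.length_append, List.length_singleton, List.length_nil]; omega)
  have h2 := hL u v z B (q ^ 2 * b) b (by omega) hz
  have h4 : GG (u ++ b :: (q ^ 2 * b) :: v) z B = 0 := by
    have h5 : (q * (q ^ 2 * b) - q ^ 2 * b) * GG (u ++ b :: (q ^ 2 * b) :: v) z B = 0 := by
      rw [h2]
      linear_combination (-b * GG (u ++ (q ^ 2 * b) :: b :: v) z B) * q4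
    rcases mul_eq_zero.1 h5 with h6 | h6
    · exfalso
      have h7 : (1 - q ^ 2) * b = 0 := by linear_combination h6 - b * q_cube
      rcases mul_eq_zero.1 h7 with h8 | h8
      · exact Pool.Agent.H988R2.Perc.q_sq_ne_one (sub_eq_zero.1 h8).symm
      · exact hb0 h8
    · exact h6
  have e2 : u ++ [b] ++ v ++ (q ^ 2 * b) :: [] = u ++ (b :: v) ++ [q ^ 2 * b] := by simp
  have e3 : u ++ [b] ++ (q ^ 2 * b) :: (v ++ []) = u ++ b :: (q ^ 2 * b) :: v := by simp
  rw [e2, e3, h4, mul_zero] at h1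
  rcases mul_eq_zero.1 h1 with h6 | h6
  · exfalso
    refine prod_ne (fun c hc => ?_) h6
    have := cube_ne (hGv c hc) 0 2
    intro h9
    apply this
    rw [pow_zero, one_mul]
    linear_combination h9 - b * q_cube
  · exact h6

theorem q_inv : q⁻¹ = q ^ 2 := inv_eq_of_mul_eq_one_right (by linear_combination q_cube)

/-- the partition function vanishes if the last leg is `q²` times the inverse of another leg -/
theorem van2 (hL : S_legx) (hI : S_inv) (z B : List ℂ) (hz : Even z.length) (A : List ℂ)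
    (hlen : A.length + 1 = B.length) (hA : Gn (prs A)) (b : ℂ) (hb : b ∈ A) :
    GG (A ++ [q ^ 2 * b⁻¹]) z B = 0 := by
  have hGA : Gn A := Gn_sub (List.sublist_append_left A _) (Gn_perm (prs_perm_append A) hA)
  have hinv := Gn_ninv hA
  have hb0 : b ≠ 0 := hGA.1 b hb
  have ha0 : q ^ 2 * b⁻¹ ≠ 0 := mul_ne_zero (pow_ne_zero 2 q_ne_zero) (inv_ne_zero hb0)
  have hai : (q ^ 2 * b⁻¹)⁻¹ = q * b := by
    rw [mul_inv, inv_inv, ← q_inv, inv_inv]
  have h1 := move hL z B hz (q ^ 2 * b⁻¹) [] A [] (by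
    rw [List.length_nil]; omega)
  have h2 := hI A z B (q ^ 2 * b⁻¹) ha0 hlen hz
  rw [hai] at h2
  have h5 : GG ((q * b) :: A) z B = 0 := by
    obtain ⟨u, v, rfl⟩ := List.append_of_mem hb
    rw [List.length_append, List.length_cons] at hlen
    have hGu : ∀ c ∈ u, c ^ 3 ≠ b ^ 3 := fun c hc =>
      Gn_append hGA c hc b List.mem_cons_self
    have h3 := move hL z B hz (q * b) (b :: v) u [] (by
      rw [List.length_nil, List.length_cons]; omega)
    have h4 := hL u v z B b (q * b) (by omega) hz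
    have h6 : GG (u ++ (q * b) :: b :: v) z B = 0 := by
      have h7 : (q * b - q ^ 2 * (q * b)) * GG (u ++ (q * b) :: b :: v) z B = 0 := by
        rw [h4]; ring
      rcases mul_eq_zero.1 h7 with h8 | h8
      · exfalso
        have h9 : (q - 1) * b = 0 := by linear_combination h8 + b * q_cube
        rcases mul_eq_zero.1 h9 with h10 | h10
        · exact q_ne_one (sub_eq_zero.1 h10)
        · exact hb0 h10
      · exact h8
    rw [List.nil_append, h6, mul_zero, List.nil_append] at h3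
    rcases mul_eq_zero.1 h3.symm with h8 | h8
    · exfalso
      refine prod_ne (fun c hc => ?_) h8
      intro h9
      apply cube_ne (hGu c hc) 1 0
      rw [pow_zero, one_mul, pow_one]
      linear_combination h9 + b * q_cube
    · exact h8
  rw [h5, mul_zero] at h2
  rw [List.nil_append, List.nil_append, List.append_nil, h2, mul_zero] at h1
  rcases mul_eq_zero.1 h1 with h8 | h8
  · exfalso
    refine prod_ne (fun c hc => ?_) h8
    intro h9
    apply cube_ne (hinv c hc b hb) 2 0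
    rw [pow_zero, one_mul]
    linear_combination -h9 + b⁻¹ * q_cube
  · exact h8

/-! ### the equation -/

/-- the formula for the legs `A` and the pairs `x` -/
def EQ (m : ℕ) (A B : List ℂ) {M : ℕ} (x : Fin M → ℂ) : Prop :=
  GG A (prs (List.ofFn x)) B * vdx x ^ 2 =
    kap m M * (pairs fA A * pairs fB B) * (wdx x * TT (A ++ B) x)

theorem EQ_perm (hsy : S_sym) (hTP : S_TP) {m : ℕ} {A B : List ℂ} (hl : A.length = B.length)
    {M : ℕ} {x : Fin M → ℂ} (hG : Gn (prs (List.ofFn x))) (s : Equiv.Perm (Fin M)) :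
    EQ m A B (x ∘ s) ↔ EQ m A B x := by
  have hpm : (List.ofFn (x ∘ s)).Perm (List.ofFn x) := Equiv.Perm.ofFn_comp_perm s x
  unfold EQ
  rw [← (hsy A B (List.ofFn x) hl hG).1 _ hpm.symm, vdx_perm, wdx_perm,
    (hTP (A ++ B) M x).2.2.1 s]

theorem EQ_inv (hsy : S_sym) (hTP : S_TP) {m : ℕ} {A B : List ℂ} (hl : A.length = B.length)
    {M : ℕ} {x0 : ℂ} {x : Fin M → ℂ} (hG : Gn (prs (x0 :: List.ofFn x))) :
    EQ m A B (Fin.cons x0⁻¹ x : Fin (M + 1) → ℂ) ↔
      EQ m A B (Fin.cons x0 x : Fin (M + 1) → ℂ) := by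
  have hx0 : x0 ≠ 0 := hG.1 x0 (by rw [prs_cons]; exact List.mem_cons_self)
  unfold EQ
  have h1 : GG A (prs (x0⁻¹ :: List.ofFn x)) B = GG A (prs (x0 :: List.ofFn x)) B :=
    (hsy A B (x0 :: List.ofFn x) hl hG).2 [] (List.ofFn x) x0 rfl
  have h2 := (hTP (A ++ B) (M + 1) (Fin.cons x0 x : Fin (M + 1) → ℂ)).2.2.2.1 0
    (by rw [Fin.cons_zero]; exact hx0)
  rw [Fin.cons_zero, Fin.update_cons_zero] at h2
  rw [ofFn_cons, ofFn_cons, h1, h2, vdx_cons, vdx_cons, wdx_cons, wdx_cons, Xf_inv, ef_inv]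

theorem TT_last (hTP : S_TP) (A B : List ℂ) (a : ℂ) {M : ℕ} (x : Fin M → ℂ) :
    TT (A ++ [a] ++ B) x = TT (a :: (A ++ B)) x := by
  refine (hTP _ M x).2.1 _ ?_
  rw [List.append_assoc, List.singleton_append]
  exact List.perm_middle

theorem key_inv {a : ℂ} (ha : a ≠ 0) (A : List ℂ) :
    (A.map (fun b => q * a⁻¹ - q ^ 2 * b)).prod * (A.map (fun b => q * b - q ^ 2 * a)).prod *
      (A.map (fun b => fA b a⁻¹)).prod * a ^ (2 * A.length) =
    (A.map (fun b => q * b - q ^ 2 * a⁻¹)).prod * (A.map (fun b => q * a - q ^ 2 * b)).prod *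
      (A.map (fun b => fA b a)).prod := by
  induction A with
  | nil => simp
  | cons b A ih =>
    have hb : (q * a⁻¹ - q ^ 2 * b) * (q * b - q ^ 2 * a) * fA b a⁻¹ * a ^ 2 =
        (q * b - q ^ 2 * a⁻¹) * (q * a - q ^ 2 * b) * fA b a := by
      unfold fA
      have h3 := q_cube
      have h1 : a * a⁻¹ = 1 := mul_inv_cancel₀ ha
      have e1 : q * a⁻¹ - q ^ 2 * b = -q ^ 2 * (b - q ^ 2 * a⁻¹) := by
        linear_combination (-q * a⁻¹) * h3
      have e2 : q * b - q ^ 2 * a = q * (b - q * a) := by ring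
      have e3 : a⁻¹ - q ^ 2 * b = -q ^ 2 * (b - q * a⁻¹) := by
        linear_combination (-a⁻¹) * h3
      have e4 : (b * a⁻¹ - q ^ 2) * a = b - q ^ 2 * a := by
        linear_combination b * h1
      have e5 : q * b - q ^ 2 * a⁻¹ = q * (b - q * a⁻¹) := by ring
      have e6 : q * a - q ^ 2 * b = -q ^ 2 * (b - q ^ 2 * a) := by
        linear_combination (-q * a) * h3
      have e7 : a - q ^ 2 * b = -q ^ 2 * (b - q * a) := by
        linear_combination (-a) * h3
      have e8 : (b * a - q ^ 2) = a * (b - q ^ 2 * a⁻¹) := by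
        linear_combination (q ^ 2) * h1
      have e9 : (q * a⁻¹ - q ^ 2 * b) * (q * b - q ^ 2 * a) * ((a⁻¹ - q ^ 2 * b) *
          (b * a⁻¹ - q ^ 2)) * a ^ 2 = (q * a⁻¹ - q ^ 2 * b) * (q * b - q ^ 2 * a) *
          ((a⁻¹ - q ^ 2 * b) * ((b * a⁻¹ - q ^ 2) * a)) * a := by ring
      rw [e9, e4, e1, e2, e3, e5, e6, e7, e8]
      ring
    simp only [List.map_cons, List.prod_cons, List.length_cons]
    have e10 : a ^ (2 * (A.length + 1)) = a ^ (2 * A.length) * a ^ 2 := by ring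
    rw [e10]
    linear_combination ((q * a⁻¹ - q ^ 2 * b) * (q * b - q ^ 2 * a) * fA b a⁻¹ * a ^ 2) * ih +
      ((A.map (fun b => q * b - q ^ 2 * a⁻¹)).prod * (A.map (fun b => q * a - q ^ 2 * b)).prod *
        (A.map (fun b => fA b a)).prod) * hb

/-- inversion of the last leg -/
theorem EQ_leg (hL : S_legx) (hI : S_inv) (hTP : S_TP) {m M : ℕ} {A B : List ℂ} {a : ℂ}
    (ha : a ≠ 0) (hlen : A.length + 1 = B.length) {x : Fin M → ℂ} (hx : ∀ i, x i ≠ 0)
    (hn1 : ∀ b ∈ A, q * a⁻¹ - q ^ 2 * b ≠ 0) (hn2 : ∀ b ∈ A, q * b - q ^ 2 * a ≠ 0)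
    (h : EQ m (A ++ [a]) B x) : EQ m (A ++ [a⁻¹]) B x := by
  set z := prs (List.ofFn x) with hzdef
  have hz : Even z.length := prs_even _
  have hlz : z.length = 2 * M := by rw [hzdef, prs_len, List.length_ofFn]
  have h1 := move hL z B hz a [] A [] (by rw [List.length_nil]; omega)
  have h2 := move hL z B hz a⁻¹ [] A [] (by rw [List.length_nil]; omega)
  have h3 := hI A z B a ha hlen hz
  have hT := (hTP (A ++ B) M x).2.2.2.2 hx a ha
  have hk := key_inv ha A
  rw [List.nil_append, List.nil_append, List.append_nil] at h1 h2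
  have eK : 2 * B.length + z.length - 2 = 2 * A.length + 2 * M := by rw [hlz, ← hlen]; omega
  rw [eK, pow_add] at h3
  unfold EQ at h ⊢
  rw [pairs_append_singleton, TT_last hTP] at h ⊢
  rw [← hzdef] at h ⊢
  have hne : (A.map (fun b => q * a⁻¹ - q ^ 2 * b)).prod *
      (A.map (fun b => q * b - q ^ 2 * a)).prod * (a ^ (2 * A.length) * a ^ (2 * M)) ≠ 0 :=
    mul_ne_zero (mul_ne_zero (prod_ne hn1) (prod_ne hn2))
      (mul_ne_zero (pow_ne_zero _ ha) (pow_ne_zero _ ha))
  refine mul_left_cancel₀ hne ?_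
  generalize GG (A ++ [a]) z B = G1 at *
  generalize GG (A ++ [a⁻¹]) z B = G2 at *
  generalize GG (a :: A) z B = G3 at *
  generalize GG (a⁻¹ :: A) z B = G4 at *
  generalize TT (a :: (A ++ B)) x = T1 at *
  generalize TT (a⁻¹ :: (A ++ B)) x = T2 at *
  generalize (A.map (fun b => q * a⁻¹ - q ^ 2 * b)).prod = D2 at *
  generalize (A.map (fun b => q * b - q ^ 2 * a⁻¹)).prod = N2 at *
  generalize (A.map (fun b => q * a - q ^ 2 * b)).prod = D1 at *
  generalize (A.map (fun b => q * b - q ^ 2 * a)).prod = N1 at *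
  generalize (A.map (fun b => fA b a)).prod = F1 at *
  generalize (A.map (fun b => fA b a⁻¹)).prod = F2 at *
  generalize a ^ (2 * A.length) = ap at *
  generalize a ^ (2 * M) = am at *
  generalize pairs fA A = PA at *
  generalize pairs fB B = PB at *
  generalize kap m M = k at *
  linear_combination (N1 * (ap * am) * vdx x ^ 2) * h2 - (N1 * N2 * vdx x ^ 2) * h3 -
    (N2 * vdx x ^ 2) * h1 + (N2 * D1) * h - (k * PA * PB * wdx x * T1) * hk -
    (k * PA * PB * wdx x * D2 * N1 * F2 * ap) * hT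

/-! ### identities -/

theorem q_fac {x0 x : ℂ} (h0 : x0 ≠ 0) (hx : x ≠ 0) :
    ((q * x0 - q ^ 2 * x) * (q * x0 * x - q ^ 2)) *
      ((q * x0 - q ^ 2 * x⁻¹) * (q * x0 * x⁻¹ - q ^ 2)) = x0 ^ 2 * (Xf x - Yf q x0) ^ 2 := by
  have h3 : q ^ 3 = 1 := q_cube
  have hy1 : x0 * x0⁻¹ = 1 := mul_inv_cancel₀ h0
  have hx1 : x * x⁻¹ = 1 := mul_inv_cancel₀ hx
  have e1 : (q * x0 - q ^ 2 * x) * (q * x0 - q ^ 2 * x⁻¹) = -x0 * (Xf x - Yf q x0) := by
    unfold Xf Yf
    linear_combination (q ^ 4) * hx1 - q * hy1 + (q - x0 * x - x0 * x⁻¹) * h3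
  have e2 : (q * x0 * x - q ^ 2) * (q * x0 * x⁻¹ - q ^ 2) = -x0 * (Xf x - Yf q x0) := by
    unfold Xf Yf
    linear_combination (q ^ 2 * x0 ^ 2) * hx1 - q * hy1 + (q - x0 * x - x0 * x⁻¹) * h3
  calc _ = ((q * x0 - q ^ 2 * x) * (q * x0 - q ^ 2 * x⁻¹)) *
        ((q * x0 * x - q ^ 2) * (q * x0 * x⁻¹ - q ^ 2)) := by ring
    _ = _ := by rw [e1, e2]; ring

theorem fac_prs {x0 : ℂ} (h0 : x0 ≠ 0) {M : ℕ} {x : Fin M → ℂ} (hx : ∀ j, x j ≠ 0) :
    ((prs (List.ofFn x)).map (fun y => (q * x0 - q ^ 2 * y) * (q * x0 * y - q ^ 2))).prod =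
      x0 ^ (2 * M) * YY x (Yf q x0) ^ 2 := by
  rw [prs_prod, List.map_ofFn, List.prod_ofFn, YY, ← Finset.prod_pow]
  have e : x0 ^ (2 * M) = ∏ _j : Fin M, x0 ^ 2 := by
    rw [Finset.prod_const, Finset.card_univ, Fintype.card_fin, ← pow_mul]
  rw [e, ← Finset.prod_mul_distrib]
  refine Finset.prod_congr rfl fun j _ => ?_
  simp only [Function.comp]
  exact q_fac h0 (hx j)

theorem fac_leg {x0 : ℂ} (h0 : x0 ≠ 0) (C : List ℂ) :
    (C.map (fun y => (q * x0 - q ^ 2 * y) * (q * x0 * y - q ^ 2))).prod =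
      (-x0) ^ C.length * HB.lp q C x0⁻¹ := by
  have h3 : q ^ 3 = 1 := q_cube
  have hy1 : x0 * x0⁻¹ = 1 := mul_inv_cancel₀ h0
  unfold HB.lp
  rw [inv_inv]
  induction C with
  | nil => simp
  | cons b C ih =>
    rw [List.map_cons, List.prod_cons, ih, List.map_cons, List.prod_cons, List.length_cons,
      pow_succ (-x0)]
    have e1 : q * x0 - q ^ 2 * b = -q ^ 2 * (b - q ^ 2 * x0) := by
      linear_combination (-q * x0) * h3
    have e2 : q * x0 * b - q ^ 2 = q * x0 * (b - q * x0⁻¹) := by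
      linear_combination (q ^ 2) * hy1
    rw [e1, e2]
    linear_combination (-x0 * (b - q ^ 2 * x0) * (b - q * x0⁻¹) * ((-x0) ^ C.length *
      (C.map (fun b => (b - q * x0⁻¹) * (b - q ^ 2 * x0))).prod)) * h3

theorem fA_q {x0 : ℂ} (h0 : x0 ≠ 0) (A : List ℂ) :
    (A.map (fun b => fA b (q * x0))).prod = (-x0) ^ A.length * HB.lp q A x0⁻¹ := by
  rw [← fac_leg h0]
  congr 1
  refine List.map_congr_left fun b _ => ?_
  unfold fA
  ring

theorem fA_i {x0 : ℂ} (h0 : x0 ≠ 0) (A : List ℂ) :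
    (A.map (fun b => fA b x0⁻¹)).prod = (-(q ^ 2 * x0⁻¹)) ^ A.length * HB.lp q A x0⁻¹ := by
  have h3 : q ^ 3 = 1 := q_cube
  have hy1 : x0 * x0⁻¹ = 1 := mul_inv_cancel₀ h0
  unfold HB.lp
  rw [inv_inv]
  induction A with
  | nil => simp
  | cons b A ih =>
    rw [List.map_cons, List.prod_cons, ih, List.map_cons, List.prod_cons, List.length_cons,
      pow_succ]
    have e1 : fA b x0⁻¹ = -(q ^ 2 * x0⁻¹) * ((b - q * x0⁻¹) * (b - q ^ 2 * x0)) := by
      unfold fA
      have e2 : x0⁻¹ - q ^ 2 * b = -q ^ 2 * (b - q * x0⁻¹) := by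
        linear_combination (-x0⁻¹) * h3
      have e3 : b * x0⁻¹ - q ^ 2 = x0⁻¹ * (b - q ^ 2 * x0) := by
        linear_combination (q ^ 2) * hy1
      rw [e2, e3]
      ring
    rw [e1]
    ring

theorem kap_succ (p M : ℕ) :
    kap (p + 1) (M + 1) * q ^ (M + 2) = kap (p + 1) M * ((q - 1) * q ^ 2 * (q ^ 2) ^ p) := by
  unfold kap
  have e1 : (M + 1) * (2 * (p + 1) + (M + 1)) + (M + 2) =
      M * (2 * (p + 1) + M) + 3 * (M + 1) + 2 + 2 * p := by ring
  have e2 : q ^ (3 * (M + 1)) = 1 := by rw [pow_mul, q_cube, one_pow]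
  calc (q - 1) ^ (M + 1) * q ^ ((M + 1) * (2 * (p + 1) + (M + 1))) * q ^ (M + 2)
      = (q - 1) ^ (M + 1) * q ^ ((M + 1) * (2 * (p + 1) + (M + 1)) + (M + 2)) := by
        rw [mul_assoc, ← pow_add]
    _ = (q - 1) ^ (M + 1) * (q ^ (M * (2 * (p + 1) + M)) * q ^ (3 * (M + 1)) * q ^ 2 *
          q ^ (2 * p)) := by rw [e1, pow_add q, pow_add q, pow_add q]
    _ = _ := by rw [e2, pow_mul, pow_succ (q - 1)]; ring

/-! ### evaluation at `q x₀` -/

/-- the statement for `M` pairs and `m` legs -/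
def Form (B : List ℂ) (m M : ℕ) : Prop :=
  ∀ (A : List ℂ) (x : Fin M → ℂ), A.length = m → Gn (prs (A ++ List.ofFn x)) → EQ m A B x

theorem evR (hR : S_mvR) (hTP : S_TP) (hTR : S_TR) {m M p : ℕ} (hm : p + 1 = m) {B : List ℂ}
    (hB : B.length = m) (hF : Form B m M)
    (A : List ℂ) (x0 : ℂ) (x : Fin M → ℂ) (hA : A.length = p)
    (hG : Gn (prs (A ++ x0 :: List.ofFn x))) :
    EQ m (A ++ [q * x0]) B (Fin.cons x0 x : Fin (M + 1) → ℂ) := by
  have h3 : q ^ 3 = 1 := q_cube
  rw [prs_append] at hG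
  have hGp : Gn (prs (x0 :: List.ofFn x)) := Gn_sub (List.sublist_append_right _ _) hG
  have hx0 : x0 ≠ 0 := hGp.1 x0 (by rw [prs_cons]; exact List.mem_cons_self)
  have hx : ∀ j, x j ≠ 0 := fun j => hGp.1 (x j)
    (mem_prs_self (List.mem_cons_of_mem _ (List.mem_ofFn.2 ⟨j, rfl⟩)))
  have e0 : q ^ 2 * (q * x0) = x0 := by linear_combination x0 * h3
  have hmv := hR A (prs (List.ofFn x)) B (q * x0) x0⁻¹ (by rw [hA, hB, hm]) (prs_even _)
  rw [e0] at hmv
  have hIH := hF (A ++ [x0⁻¹]) x (by rw [List.length_append, List.length_singleton, hA]; exact hm)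
    (by
      refine Gn_perm ?_ hG
      rw [List.append_assoc, prs_append, List.singleton_append]
      refine List.Perm.append_left _ ?_
      rw [prs_cons, prs_cons, inv_inv]
      exact List.Perm.swap _ _ _)
  have hT := hTR (A ++ B) M x0⁻¹ x (by
    refine Gn_perm ?_ hGp
    rw [prs_cons, prs_cons, inv_inv]
    exact List.Perm.swap _ _ _)
  have hT0 : TT ((q * x0) :: (A ++ B)) (Fin.cons x0⁻¹ x : Fin (M + 1) → ℂ) =
      TT ((q * x0) :: (A ++ B)) (Fin.cons x0 x : Fin (M + 1) → ℂ) := by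
    have h2 := (hTP ((q * x0) :: (A ++ B)) (M + 1) (Fin.cons x0 x : Fin (M + 1) → ℂ)).2.2.2.1 0
      (by rw [Fin.cons_zero]; exact hx0)
    rw [Fin.cons_zero, Fin.update_cons_zero] at h2
    exact h2
  rw [inv_inv, hT0] at hT
  have hfac : fac (q * x0) (A ++ x0⁻¹ :: prs (List.ofFn x) ++ B) =
      ((-x0) ^ p * HB.lp q A x0⁻¹) * (((q * x0 - q ^ 2 * x0⁻¹) * (q * x0 * x0⁻¹ - q ^ 2)) *
        (x0 ^ (2 * M) * YY x (Yf q x0) ^ 2)) * ((-x0) ^ m * HB.lp q B x0⁻¹) := by
    unfold fac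
    rw [List.map_append, List.prod_append, List.map_append, List.prod_append, List.map_cons,
      List.prod_cons, fac_prs hx0 hx, fac_leg hx0 A, fac_leg hx0 B, hA, hB]
  have hp1 : pairs fA (A ++ [x0⁻¹]) = pairs fA A * ((-(q ^ 2 * x0⁻¹)) ^ p *
      HB.lp q A x0⁻¹) := by
    rw [pairs_append_singleton, fA_i hx0, hA]
  have hp2 : pairs fA (A ++ [q * x0]) = pairs fA A * ((-x0) ^ p * HB.lp q A x0⁻¹) := by
    rw [pairs_append_singleton, fA_q hx0, hA]
  have hlp : HB.lp q (A ++ B) x0⁻¹ = HB.lp q A x0⁻¹ * HB.lp q B x0⁻¹ := by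
    unfold HB.lp
    rw [List.map_append, List.prod_append]
  have hY : ∏ j, (Xf (x j) - Yf q x0⁻¹) ^ 2 = YY x (Yf q x0⁻¹) ^ 2 := by
    rw [YY, ← Finset.prod_pow]
  have hk := kap_succ p M
  rw [hm] at hk
  unfold EQ at hIH ⊢
  rw [ofFn_cons, prs_cons, hmv, hfac, TT_last hTP, hp2, vdx_cons,
    wdx_cons' q_spec hx0 hx]
  rw [TT_last hTP, hp1] at hIH
  rw [hY, hlp, Xf_inv] at hT
  have hy1 : x0 * x0⁻¹ = 1 := mul_inv_cancel₀ hx0
  have e5 : (-x0) ^ m = (-x0) ^ p * (-x0) := by rw [← hm, pow_succ]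
  have e6 : (-(q ^ 2 * x0⁻¹)) ^ p * (-x0) ^ p = (q ^ 2) ^ p := by
    rw [← mul_pow]
    congr 1
    linear_combination (q ^ 2) * hy1
  have e7 : x0 ^ (2 * M + 1) = x0 ^ (2 * M) * x0 := pow_succ _ _
  rw [e7] at hT
  rw [e5]
  generalize GG (A ++ [x0⁻¹]) (prs (List.ofFn x)) B = G at *
  generalize TT ((q * x0) :: (A ++ B)) (Fin.cons x0 x : Fin (M + 1) → ℂ) = T1 at *
  generalize TT (x0⁻¹ :: (A ++ B)) x = T2 at *
  generalize YY x (Yf q x0) = Y1 at *
  generalize YY x (Yf q x0⁻¹) = Y2 at *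
  generalize (∏ j, (Xf x0 - Xf (x j)) ^ 2) = E at *
  generalize HB.lp q A x0⁻¹ = LA at *
  generalize HB.lp q B x0⁻¹ = LB at *
  generalize (-x0) ^ p = xp at *
  generalize (-(q ^ 2 * x0⁻¹)) ^ p = yp at *
  generalize (q ^ 2) ^ p = qp at *
  generalize x0 ^ (2 * M) = xm at *
  generalize q ^ (M + 2) = qm at *
  generalize kap m (M + 1) = k1 at *
  generalize kap m M = k0 at *
  generalize pairs fA A = PA at *
  generalize pairs fB B = PB at *
  have hI1 : (q * x0 - q ^ 2 * x0⁻¹) * (q * x0 * x0⁻¹ - q ^ 2) * (-x0) =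
      ((q - 1) * q ^ 2) * (x0 * (x0 - q * x0⁻¹)) := by
    linear_combination (-(q * x0 - q ^ 2 * x0⁻¹) * q * x0) * hy1
  linear_combination (xp * LA * (((q * x0 - q ^ 2 * x0⁻¹) * (q * x0 * x0⁻¹ - q ^ 2)) *
      (xm * Y1 ^ 2)) * (xp * (-x0) * LB) * E ^ 2) * hIH
    - (k1 * PA * xp * LA * PB * E * Y1 ^ 2 * wdx x) * hT
    - (xm * (x0 * (x0 - q * x0⁻¹)) * LA * LB * E * T2 * PA * xp * LA * PB * E * Y1 ^ 2 * wdx x) * hk
    + (xp * LA * xm * Y1 ^ 2 * xp * LB * E ^ 2 * k0 * PA * yp * LA * PB * wdx x * T2) * hI1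
    + (((q - 1) * q ^ 2) * (x0 * (x0 - q * x0⁻¹)) * LA * xm * Y1 ^ 2 * xp * LB * E ^ 2 * k0 * PA *
      LA * PB * wdx x * T2) * e6

/-! ### interpolation -/

theorem deg_fA (A : List ℂ) :
    ((A.map (fun b => (Polynomial.X - Polynomial.C (q ^ 2 * b)) *
      (Polynomial.C b * Polynomial.X - Polynomial.C (q ^ 2)))).prod).natDegree ≤ 2 * A.length := by
  induction A with
  | nil => simp
  | cons b A ih =>
    rw [List.map_cons, List.prod_cons, List.length_cons]
    refine Polynomial.natDegree_mul_le.trans ?_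
    have h : ((Polynomial.X - Polynomial.C (q ^ 2 * b)) *
      (Polynomial.C b * Polynomial.X - Polynomial.C (q ^ 2))).natDegree ≤ 2 := by
      compute_degree
    omega

theorem eval_fA (x : ℂ) (A : List ℂ) :
    ((A.map (fun b => (Polynomial.X - Polynomial.C (q ^ 2 * b)) *
      (Polynomial.C b * Polynomial.X - Polynomial.C (q ^ 2)))).prod).eval x
      = (A.map (fun b => fA b x)).prod := by
  induction A with
  | nil => simp
  | cons b A ih =>
    rw [List.map_cons, List.prod_cons, Polynomial.eval_mul, ih, List.map_cons, List.prod_cons]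
    simp [fA]

theorem step (hlx : S_legx) (hsy : S_sym) (hR : S_mvR) (hI : S_inv) (hd : S_deg) (hTP : S_TP)
    (hTR : S_TR) {m M : ℕ} (hm : 1 ≤ m) {B : List ℂ} (hB : B.length = m) (hF : Form B m M) :
    Form B m (M + 1) := by
  intro A0 x hA0 hG
  have h3 : q ^ 3 = 1 := q_cube
  obtain ⟨A, a, rfl⟩ : ∃ A a, A0 = A ++ [a] := by
    rcases List.eq_nil_or_concat A0 with h | ⟨A, a, h⟩
    · rw [h, List.length_nil] at hA0
      omega
    · exact ⟨A, a, by rw [h, List.concat_eq_append]⟩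
  obtain ⟨p, hp⟩ : ∃ p, p + 1 = m := ⟨m - 1, by omega⟩
  have hA : A.length = p := by
    rw [List.length_append, List.length_singleton] at hA0
    omega
  have hG' : Gn (prs (A ++ List.ofFn x)) := by
    refine Gn_sub ?_ hG
    rw [prs_append, prs_append, prs_append, List.append_assoc]
    exact List.Sublist.append_left (List.sublist_append_right _ _) _
  have hG2 : Gn (prs A ++ prs (List.ofFn x)) := by rw [← prs_append]; exact hG'
  have hGA : Gn (prs A) := Gn_sub (List.sublist_append_left _ _) hG2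
  have hGz : Gn (prs (List.ofFn x)) := Gn_sub (List.sublist_append_right _ _) hG2
  have hGAz : ∀ b ∈ prs A, ∀ c ∈ prs (List.ofFn x), b ^ 3 ≠ c ^ 3 := Gn_append hG2
  have hlB : ∀ c : ℂ, (A ++ [c]).length = B.length := fun c => by
    rw [List.length_append, List.length_singleton, hA, hB, hp]
  have hlB' : A.length + 1 = B.length := by rw [hA, hB, hp]
  -- the values
  have key0 : ∀ (x0 : ℂ) (x1 : Fin M → ℂ), Gn (prs (A ++ x0 :: List.ofFn x1)) →
      EQ m (A ++ [q * x0]) B (Fin.cons x0 x1 : Fin (M + 1) → ℂ) :=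
    fun x0 x1 h => evR hR hTP hTR hp hB hF A x0 x1 hA h
  have hsw : ∀ j : Fin (M + 1), ∃ x1 : Fin M → ℂ,
      (Fin.cons (x j) x1 : Fin (M + 1) → ℂ) = x ∘ Equiv.swap 0 j ∧
      (x j :: List.ofFn x1).Perm (List.ofFn x) := by
    intro j
    have e1 : (x ∘ Equiv.swap 0 j) 0 = x j := by simp
    have e2 : (Fin.cons (x j) (Fin.tail (x ∘ Equiv.swap 0 j)) : Fin (M + 1) → ℂ) =
        x ∘ Equiv.swap 0 j := by
      rw [← e1]
      exact Fin.cons_self_tail _
    refine ⟨Fin.tail (x ∘ Equiv.swap 0 j), e2, ?_⟩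
    rw [← ofFn_cons, e2]
    exact Equiv.Perm.ofFn_comp_perm (Equiv.swap 0 j) x
  have keyj : ∀ j : Fin (M + 1), EQ m (A ++ [q * x j]) B x := by
    intro j
    obtain ⟨x1, h1, h2⟩ := hsw j
    have h := key0 (x j) x1 (Gn_perm (prs_perm (List.Perm.append_left A h2.symm)) hG')
    rw [h1, EQ_perm hsy hTP (hlB _) hGz] at h
    exact h
  have keyj' : ∀ j : Fin (M + 1), EQ m (A ++ [q * (x j)⁻¹]) B x := by
    intro j
    obtain ⟨x1, h1, h2⟩ := hsw j
    have h := key0 (x j)⁻¹ x1 (by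
      refine Gn_perm ?_ hG2
      rw [prs_append]
      refine (List.Perm.append_left _ (prs_perm h2.symm)).trans (List.Perm.append_left _ ?_)
      rw [prs_cons, prs_cons, inv_inv]
      exact List.Perm.swap _ _ _)
    rw [EQ_inv hsy hTP (hlB _) (Gn_perm (prs_perm h2.symm) hGz), h1,
      EQ_perm hsy hTP (hlB _) hGz] at h
    exact h
  have hxm : ∀ j, x j ∈ List.ofFn x := fun j => List.mem_ofFn.2 ⟨j, rfl⟩
  have hx0 : ∀ j, x j ≠ 0 := fun j => hGz.1 _ (mem_prs_self (hxm j))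
  have hz0 : (x 0)⁻¹ ∈ prs (List.ofFn x) := mem_prs_inv (hxm 0)
  have ei : (q * x 0)⁻¹ = q ^ 2 * (x 0)⁻¹ := by rw [mul_inv, q_inv]
  have keyL : EQ m (A ++ [q ^ 2 * (x 0)⁻¹]) B x := by
    rw [← ei]
    refine EQ_leg hlx hI hTP (mul_ne_zero q_ne_zero (hx0 0)) hlB' hx0 ?_ ?_ (keyj 0)
    · intro b hb h9
      rw [ei] at h9
      apply cube_ne (hGAz b (mem_prs_self hb) _ hz0) 2 0
      rw [pow_zero, one_mul]
      linear_combination -h9 + (x 0)⁻¹ * h3
    · intro b hb h9
      apply cube_ne (hGAz b (mem_prs_self hb) _ (mem_prs_self (hxm 0))) 1 0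
      rw [pow_zero, one_mul, pow_one]
      linear_combination h9 + x 0 * h3
  have fzero : ∀ (c b : ℂ), b ∈ A → fA b c = 0 → pairs fA (A ++ [c]) = 0 := by
    intro c b hb h0
    rw [pairs_append_singleton]
    have h4 : (A.map (fun b => fA b c)).prod = 0 := by
      rw [List.prod_eq_zero_iff, List.mem_map]
      exact ⟨b, hb, h0⟩
    rw [h4, mul_zero]
  have keyA : ∀ b ∈ A, EQ m (A ++ [q ^ 2 * b]) B x := by
    intro b hb
    have h1 := van1 hlx (prs (List.ofFn x)) B (prs_even _) A hlB' hGA b hb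
    have h2 := fzero (q ^ 2 * b) b hb (by unfold fA; ring)
    unfold EQ
    rw [h1, h2]
    ring
  have keyA' : ∀ b ∈ A, EQ m (A ++ [q ^ 2 * b⁻¹]) B x := by
    intro b hb
    have h1 := van2 hlx hI (prs (List.ofFn x)) B (prs_even _) A hlB' hGA b hb
    have hb0 : b * b⁻¹ = 1 := mul_inv_cancel₀ (hGA.1 b (mem_prs_self hb))
    have h2 := fzero (q ^ 2 * b⁻¹) b hb (by
      unfold fA
      linear_combination ((q ^ 2 * b⁻¹ - q ^ 2 * b) * q ^ 2) * hb0)
    unfold EQ
    rw [h1, h2]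
    ring
  -- the polynomial
  obtain ⟨P1, hP1d, hP1⟩ := hd A [] (prs (List.ofFn x)) B (by rw [List.length_nil]; omega)
    (prs_even _)
  obtain ⟨⟨PT, hPTd, hPT⟩, -⟩ := hTP (A ++ B) (M + 1) x
  have hlen : (prs (List.ofFn x)).length = 2 * (M + 1) := by rw [prs_len, List.length_ofFn]
  rw [hlen, ← hlB', hA] at hP1d
  set K : ℂ := kap m (M + 1) * pairs fA A * pairs fB B * wdx x with hK
  set P : Polynomial ℂ := P1 * Polynomial.C (vdx x ^ 2) - Polynomial.C K *
    ((A.map (fun b => (Polynomial.X - Polynomial.C (q ^ 2 * b)) *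
      (Polynomial.C b * Polynomial.X - Polynomial.C (q ^ 2)))).prod * PT) with hPdef
  have hPd : P.natDegree ≤ 2 * p + 2 * (M + 1) := by
    refine (Polynomial.natDegree_sub_le _ _).trans (max_le ?_ ?_)
    · exact (Polynomial.natDegree_mul_C_le _ _).trans (by omega)
    · refine (Polynomial.natDegree_C_mul_le _ _).trans (Polynomial.natDegree_mul_le.trans ?_)
      have := deg_fA A
      rw [hA] at this
      omega
  have hPe : ∀ y, P.eval y = GG (A ++ [y]) (prs (List.ofFn x)) B * vdx x ^ 2 -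
      kap m (M + 1) * (pairs fA (A ++ [y]) * pairs fB B) * (wdx x * TT (A ++ [y] ++ B) x) := by
    intro y
    rw [hPdef, Polynomial.eval_sub, Polynomial.eval_mul, Polynomial.eval_C, Polynomial.eval_mul,
      Polynomial.eval_C, Polynomial.eval_mul, hP1, hPT, eval_fA, pairs_append_singleton,
      TT_last hTP, hK]
    ring
  have hzero : P = 0 := by
    set L : List ℂ := (prs A).map (fun u => q ^ 2 * u) ++
      ((prs (List.ofFn x)).map (fun u => q * u) ++ [q ^ 2 * (x 0)⁻¹]) with hLd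
    have hnd : L.Nodup := by
      rw [hLd, List.nodup_append, List.nodup_append]
      refine ⟨?_, ⟨?_, List.nodup_singleton _, ?_⟩, ?_⟩
      · exact (List.Nodup.of_map _ hGA.2).map (mul_right_injective₀ (pow_ne_zero 2 q_ne_zero))
      · exact (List.Nodup.of_map _ hGz.2).map (mul_right_injective₀ q_ne_zero)
      · intro b hb c hc
        rw [List.mem_map] at hb
        obtain ⟨u, hu, rfl⟩ := hb
        rw [List.mem_singleton] at hc
        subst hc
        by_cases hj : u ^ 3 = (x 0)⁻¹ ^ 3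
        · have h0 := Gn_inj hGz hu hz0 hj
          subst h0
          intro h
          have h5 : q * (x 0)⁻¹ * (q - 1) = 0 := by linear_combination -h
          rcases mul_eq_zero.1 h5 with h6 | h6
          · exact mul_ne_zero q_ne_zero (hGz.1 _ hz0) h6
          · exact q_ne_one (sub_eq_zero.1 h6)
        · have := cube_ne hj 1 2
          rw [pow_one] at this
          exact this
      · intro b hb c hc
        rw [List.mem_map] at hb
        obtain ⟨u, hu, rfl⟩ := hb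
        rw [List.mem_append, List.mem_map, List.mem_singleton] at hc
        rcases hc with ⟨v, hv, rfl⟩ | hc
        · have := cube_ne (hGAz u hu v hv) 2 1
          rw [pow_one] at this
          exact this
        · subst hc
          exact cube_ne (hGAz u hu _ hz0) 2 2
    refine Polynomial.eq_zero_of_natDegree_lt_card_of_eval_eq_zero' P L.toFinset ?_ ?_
    · intro y hyL
      rw [List.mem_toFinset, hLd, List.mem_append, List.mem_append, List.mem_map, List.mem_map,
        List.mem_singleton] at hyL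
      rw [hPe y, sub_eq_zero]
      rcases hyL with ⟨b, hb, rfl⟩ | ⟨u, hu, rfl⟩ | rfl
      · obtain ⟨v, hv, h⟩ := mem_prs hb
        rcases h with rfl | rfl
        · exact keyA _ hv
        · exact keyA' _ hv
      · obtain ⟨v, hv, h⟩ := mem_prs hu
        obtain ⟨j, rfl⟩ := List.mem_ofFn.1 hv
        rcases h with rfl | rfl
        · exact keyj j
        · exact keyj' j
      · exact keyL
    · rw [List.toFinset_card_of_nodup hnd, hLd, List.length_append, List.length_append,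
        List.length_map, List.length_map, prs_len, hA, hlen, List.length_singleton]
      omega
  have h := hPe a
  rw [hzero, Polynomial.eval_zero] at h
  exact sub_eq_zero.1 h.symm

theorem base (hb : S_bs) {m : ℕ} {B : List ℂ} (hB : B.length = m) : Form B m 0 := by
  intro A x hA hG
  have e0 : prs (List.ofFn x) = [] := by
    rw [List.ofFn_zero]
    rfl
  have h := hb A B (by rw [hA, hB])
  have h1 : vdx x = 1 := by simp [vdx]
  have h2 : wdx x = 1 := by simp [wdx]
  have h4 : TT (A ++ B) x = 1 := by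
    unfold TT
    exact Matrix.det_isEmpty
  unfold EQ
  rw [e0, h1, h2, h4, h]
  simp [kap]

end TM1

/-- **The exact formula** (generic parameters). -/
theorem t_M1 (hlx : S_legx) (hsy : S_sym) (hR : S_mvR) (hI : S_inv) (hd : S_deg) (hb : S_bs)
    (hTP : S_TP) (hTR : S_TR) : S_M1 := by
  intro m M hm A B x hA hB hG
  have h : TM1.Form B m M := by
    clear hG x
    induction M with
    | zero => exact TM1.base hb hB
    | succ M ih => exact TM1.step hlx hsy hR hI hd hTP hTR hm hB ih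
  exact h A x hA hG

end Pool.Agent.W808.KC
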