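import Pool.Agent.W808.KC.Stm
import Pool.Agent.W808.KC.T_sym
import Pool.Agent.H160R2.ML.T_TB

/-! KC-M2 (helper583): the exact formula for arbitrary legs. -/

set_option autoImplicit false

namespace Pool.Agent.W808.KC
open Pool.Agent.H160R2.ML (nm Gn)
open Pool.Agent.H988R2.Perc (Word ins cap act rainbow Dyck LP Fw fac q)
open Pool.Agent.H988R2.Perc.T10 (pairs fA fB)
open Pool.Agent.W808.HB (prs Xf Yf vdx wdx bet xY Yv)

namespace TM2

theorem fA_cont_left (y : ℂ) : Continuous fun b => fA b y := by
  unfold fA
  fun_prop

theorem fA_cont_right (a : ℂ) : Continuous fun b => fA a b := by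
  unfold fA
  fun_prop

theorem prod_cont_left (v : List ℂ) : Continuous fun b => (v.map (fA b)).prod := by
  induction v with
  | nil => simpa using continuous_const
  | cons y v ih =>
    simp only [List.map_cons, List.prod_cons]
    exact (fA_cont_left y).mul ih

theorem map_prod_cont {g : ℂ → ℂ} (hg : Continuous g) (u v : List ℂ) :
    Continuous fun b => ((u ++ b :: v).map g).prod := by
  simp only [List.map_append, List.map_cons, List.prod_append, List.prod_cons]
  exact continuous_const.mul (hg.mul continuous_const)

theorem pairs_cont (u v : List ℂ) : Continuous fun b => pairs fA (u ++ b :: v) := by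
  induction u with
  | nil =>
    show Continuous fun b => (v.map (fA b)).prod * pairs fA v
    exact (prod_cont_left v).mul continuous_const
  | cons a u ih =>
    show Continuous fun b => ((u ++ b :: v).map (fA a)).prod * pairs fA (u ++ b :: v)
    exact (map_prod_cont (fA_cont_right a) u v).mul ih

theorem lp_cont (u v : List ℂ) (y : ℂ) : Continuous fun b => HB.lp q (u ++ b :: v) y := by
  unfold HB.lp
  exact map_prod_cont (g := fun b => (b - q * y) * (b - q ^ 2 * y⁻¹)) (by fun_prop) u v

theorem TT_cont (u v : List ℂ) {M : ℕ} (x : Fin M → ℂ) : Continuous fun b => TT (u ++ b :: v) x := by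
  unfold TT
  refine Continuous.matrix_det ?_
  refine continuous_matrix fun i j => ?_
  exact ((continuous_const.mul (lp_cont u v _)).div_const _).add
    ((continuous_const.mul (lp_cont u v _)).div_const _)

theorem pow_fin (n : ℕ) (hn : 0 < n) (c : ℂ) : {b : ℂ | b ^ n = c}.Finite := by
  refine (Polynomial.nthRoots n c).toFinset.finite_toSet.subset fun b hb => ?_
  simpa using (Polynomial.mem_nthRoots hn).2 hb

theorem bad_finite (l : List ℂ) (hl : Gn (prs l)) : {b : ℂ | ¬ Gn (prs (b :: l))}.Finite := by
  have hfin : (({(0 : ℂ)} : Set ℂ) ∪ {b : ℂ | b ^ 6 = 1} ∪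
      ⋃ c ∈ (prs l).toFinset, ({b : ℂ | b ^ 3 = c ^ 3} ∪ {b : ℂ | b ^ 3 = (c ^ 3)⁻¹})).Finite := by
    refine ((Set.finite_singleton _).union (pow_fin 6 (by norm_num) 1)).union ?_
    refine Set.Finite.biUnion (Finset.finite_toSet _) fun c _ => ?_
    exact (pow_fin 3 (by norm_num) _).union (pow_fin 3 (by norm_num) _)
  refine hfin.subset fun b hb => ?_
  by_contra hcon
  apply hb
  simp only [Set.mem_union, Set.mem_singleton_iff, Set.mem_setOf_eq, Set.mem_iUnion,
    List.mem_toFinset, exists_prop, not_or, not_exists, not_and] at hcon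
  obtain ⟨⟨h0, h6⟩, hc⟩ := hcon
  rw [Tsym.prs_cons]
  refine ⟨?_, ?_⟩
  · intro y hy
    rcases List.mem_cons.1 hy with rfl | hy
    · exact h0
    · rcases List.mem_cons.1 hy with rfl | hy
      · exact inv_ne_zero h0
      · exact hl.1 y hy
  · rw [List.map_cons, List.map_cons, List.nodup_cons, List.nodup_cons]
    refine ⟨?_, ?_, hl.2⟩
    · intro hmem
      rcases List.mem_cons.1 hmem with h | h
      · apply h6
        have h3 : b ^ 3 ≠ 0 := pow_ne_zero 3 h0
        rw [inv_pow] at h
        have h4 : b ^ 3 * b ^ 3 = 1 := by
          nth_rewrite 1 [h]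
          exact inv_mul_cancel₀ h3
        linear_combination h4
      · obtain ⟨c, hcm, hc3⟩ := List.mem_map.1 h
        exact (hc c hcm).1 hc3.symm
    · intro hmem
      obtain ⟨c, hcm, hc3⟩ := List.mem_map.1 hmem
      apply (hc c hcm).2
      rw [hc3, inv_pow, inv_inv]

end TM2

open TM2 in
theorem t_M2 (h1 : S_M1) (hdeg : S_deg) (_ : S_TP) : S_M2 := by
  intro m M hm A B x hA hB hz
  have key : ∀ (u v B : List ℂ), (u ++ v).length = m → B.length = m →
      Gn (prs (v ++ List.ofFn x)) →
      GG (u ++ v) (prs (List.ofFn x)) B * vdx x ^ 2 =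
        kap m M * (pairs fA (u ++ v) * pairs fB B) * (wdx x * TT (u ++ v ++ B) x) := by
    intro u
    induction u using List.reverseRecOn with
    | nil =>
      intro v B hl hB hG
      exact h1 m M hm v B x hl hB hG
    | append_singleton u a ih =>
      intro v B hl hB hG
      simp only [List.append_assoc, List.cons_append, List.nil_append, List.length_append,
        List.length_cons] at hl ⊢
      have hev : Even (prs (List.ofFn x)).length := Tsym.even_prs _
      let f : ℂ → ℂ := fun b => GG (u ++ b :: v) (prs (List.ofFn x)) B * vdx x ^ 2 -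
        kap m M * (pairs fA (u ++ b :: v) * pairs fB B) * (wdx x * TT (u ++ b :: (v ++ B)) x)
      have hf : Continuous f := by
        obtain ⟨P, -, hP⟩ := hdeg u v (prs (List.ofFn x)) B (by omega) hev
        have c1 : Continuous fun b => GG (u ++ b :: v) (prs (List.ofFn x)) B := by
          have : (fun b => GG (u ++ b :: v) (prs (List.ofFn x)) B) = fun b => P.eval b := by
            funext b; rw [hP]
          rw [this]
          exact P.continuous
        exact (c1.mul continuous_const).sub ((continuous_const.mul
          ((pairs_cont u v).mul continuous_const)).mul (continuous_const.mul (TT_cont u (v ++ B) x)))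
      have h0 := Pool.Agent.H160R2.ML.TB.eq_zero_of_ne hf _ (bad_finite _ hG) (fun b hb => by
        have hG' : Gn (prs (b :: v ++ List.ofFn x)) := by
          by_contra hcon
          exact hb hcon
        have h2 := ih (b :: v) B (by simp only [List.length_append, List.length_cons]; omega) hB hG'
        rw [List.append_assoc] at h2
        show GG (u ++ b :: v) (prs (List.ofFn x)) B * vdx x ^ 2 -
          kap m M * (pairs fA (u ++ b :: v) * pairs fB B) * (wdx x * TT (u ++ b :: (v ++ B)) x) = 0
        exact sub_eq_zero.2 h2) a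
      exact sub_eq_zero.1 h0
  have h2 := key A [] B (by simpa using hA) hB (by simpa using hz)
  simpa using h2

end Pool.Agent.W808.KC
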