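import Pool.Agent.W808.KC.Stm

/-!
# MIR: the mirror image of the strip
-/

set_option autoImplicit false

namespace Pool.Agent.W808.KC
open H974 H906.Cyl

namespace TMIR

/-- the mirror image on vertices -/
def mirV (n : ℕ) (v : Vtx) : Vtx := ((n : ℤ) - v.2, (n : ℤ) - v.1)

theorem mirV_mirV (n : ℕ) (v : Vtx) : mirV n (mirV n v) = v := by
  obtain ⟨x, y⟩ := v
  simp [mirV]

theorem mirV_cv (n i : ℕ) : mirV n (cv i) = cw n i := rfl

theorem mirV_cw (n i : ℕ) : mirV n (cw n i) = cv i := by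
  simp [mirV, cw, cv]

theorem cw_cv {n j : ℕ} (h : j ≤ n) : cw n j = cv (n - j) := by
  simp [cw, cv, Nat.cast_sub h]

theorem mirE_prop (n : ℕ) (e : Edg) : mirE n (mirE n e) = e ∧ dco (mirE n e) = dco e ∧
    (mirE n e).1 + (mirE n e).2.1 = 2 * n - 1 - (e.1 + e.2.1) := by
  obtain ⟨x, y, b⟩ := e
  cases b
  · refine ⟨?_, ?_, ?_⟩
    · simp [mirE]; try omega
    · simp [mirE, dco]; omega
    · simp [mirE]; omega
  · refine ⟨?_, ?_, ?_⟩
    · simp [mirE]; try omega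
    · simp [mirE, dco]; omega
    · simp [mirE]; omega

theorem src_mirE (n : ℕ) (e : Edg) : src (mirE n e) = mirV n (tgt e) := by
  obtain ⟨x, y, b⟩ := e
  cases b
  · simp [mirE, mirV, src, tgt]; omega
  · simp [mirE, mirV, src, tgt]; omega

theorem tgt_mirE (n : ℕ) (e : Edg) : tgt (mirE n e) = mirV n (src e) := by
  obtain ⟨x, y, b⟩ := e
  cases b
  · simp [mirE, mirV, src, tgt]
  · simp [mirE, mirV, src, tgt]

theorem mirE_Ss (n : ℕ) {e : Edg} : mirE n e ∈ Ss n ↔ e ∈ Ss n := by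
  obtain ⟨_, h1, h2⟩ := mirE_prop n e
  unfold Ss
  simp only [Set.mem_ofPred_eq, h1, h2]
  constructor
  · rintro ⟨a, b, c⟩; refine ⟨a, ?_, ?_⟩ <;> omega
  · rintro ⟨a, b, c⟩; refine ⟨a, ?_, ?_⟩ <;> omega

theorem mirG_mirG (n : ℕ) (G : Set Edg) : mirG n (mirG n G) = G := by
  ext e
  unfold mirG
  simp only [Set.mem_ofPred_eq, (mirE_prop n e).1]

/-- transport of a path -/
theorem reach_mir (n : ℕ) {G H : Set Edg} (h : ∀ e ∈ G, mirE n e ∈ H) {u v : Vtx}
    (hr : Reach G u v) : Reach H (mirV n u) (mirV n v) := by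
  induction hr with
  | refl => exact Reach.refl _ _
  | tail _ hs ih =>
    refine ih.trans (Adj.reach ?_)
    obtain ⟨e, he, h1⟩ := hs
    refine ⟨mirE n e, h e he, ?_⟩
    rw [src_mirE, tgt_mirE]
    rcases h1 with ⟨rfl, rfl⟩ | ⟨rfl, rfl⟩
    · exact Or.inr ⟨rfl, rfl⟩
    · exact Or.inl ⟨rfl, rfl⟩

theorem reach_mirG (n : ℕ) {G : Set Edg} {u v : Vtx} (hr : Reach (mirG n G ∩ Ss n) u v) :
    Reach (G ∩ Ss n) (mirV n u) (mirV n v) :=
  reach_mir n (H := G ∩ Ss n) (fun _ he => And.intro he.1 ((mirE_Ss n).2 he.2)) hr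

theorem reach_mirG' (n : ℕ) {G : Set Edg} {u v : Vtx} (hr : Reach (G ∩ Ss n) (mirV n u) (mirV n v)) :
    Reach (mirG n G ∩ Ss n) u v := by
  have hsub : ∀ e ∈ G ∩ Ss n, mirE n e ∈ mirG n G ∩ Ss n := by
    intro e he
    refine ⟨?_, (mirE_Ss n).2 he.2⟩
    show mirE n (mirE n e) ∈ G
    rw [(mirE_prop n e).1]; exact he.1
  have := reach_mir n hsub hr
  rwa [mirV_mirV, mirV_mirV] at this

theorem mir_one {n m : ℕ} {G : Set Edg} (h : P0 n m G) : P0 n m (mirG n G) := by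
  obtain ⟨h1, h2, h3⟩ := h
  set k := m / 2 with hk
  choose σ hσ using fun i : Fin k => h2 i.1 i.2
  have hinj : Function.Injective (fun i : Fin k => (⟨σ i, (hσ i).1⟩ : Fin k)) := by
    intro i j hij
    by_contra hne
    have e : σ i = σ j := by simpa using hij
    have h4 := (hσ i).2
    rw [e] at h4
    exact h1 i.1 j.1 i.2 j.2 (fun h => hne (Fin.ext h)) (h4.trans (hσ j).2.symm)
  have hsurj := Finite.surjective_of_injective hinj
  have hback : ∀ i : ℕ, i < k → ∃ i' : Fin k, σ i' = i := by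
    intro i hi
    obtain ⟨i', hi'⟩ := hsurj ⟨i, hi⟩
    exact ⟨i', by simpa using hi'⟩
  refine ⟨?_, ?_, ?_⟩
  · intro i j hi hj hij hr
    have hr' := reach_mirG n hr
    rw [mirV_cv, mirV_cv] at hr'
    obtain ⟨i', hi'⟩ := hback i hi
    obtain ⟨j', hj'⟩ := hback j hj
    have a1 := (hσ i').2
    have a2 := (hσ j').2
    rw [hi'] at a1
    rw [hj'] at a2
    refine h1 i'.1 j'.1 i'.2 j'.2 (fun h => hij ?_) ((a1.trans hr').trans a2.symm)
    rw [← hi', ← hj', Fin.ext h]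
  · intro i hi
    obtain ⟨i', hi'⟩ := hback i hi
    refine ⟨i'.1, i'.2, ?_⟩
    apply reach_mirG'
    rw [mirV_cv, mirV_cw, ← hi']
    exact (hσ i').2.symm
  · intro hm i j hi hj hjn hr
    have hr' := reach_mirG n hr
    rw [mirV_cv, mirV_cv, cw_cv (by omega : j ≤ n)] at hr'
    obtain ⟨i', hi'⟩ := hback i hi
    have a1 := (hσ i').2
    rw [hi'] at a1
    exact h3 hm i'.1 (n - j) i'.2 (by omega) (by omega) (a1.trans hr')

end TMIR

theorem t_MIR : S_MIR := by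
  intro n m G
  refine ⟨fun e => TMIR.mirE_prop n e, fun h => ?_, fun h => TMIR.mir_one h⟩
  have := TMIR.mir_one h
  rwa [TMIR.mirG_mirG] at this

end Pool.Agent.W808.KC
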