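import Pool.Agent.W808.KC.Stm

/-!
# KC-MRa: multiplication by `Y ^ δ + Y ^ (-δ)` (`S_MRa`)
-/

set_option autoImplicit false

namespace Pool.Agent.W808.KC
namespace TMRa
open Finset

/-! ## recursion of `chR` and `uR` -/

theorem chR_zero (y : ℝ) : chR y 0 = 1 := by simp [chR]
theorem chR_one (y : ℝ) : chR y 1 = y := by simp [chR]

theorem chR_pascal (y : ℝ) (n : ℕ) : chR (y + 1) (n + 1) = chR y (n + 1) + chR y n := by
  have hs : ∏ i ∈ range n, (y + 1 - ((i + 1 : ℕ) : ℝ)) = ∏ i ∈ range n, (y - (i : ℝ)) := by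
    refine prod_congr rfl fun i _ => ?_
    push_cast; ring
  have hf : ((n + 1).factorial : ℝ) = (n + 1) * n.factorial := by
    rw [Nat.factorial_succ]; push_cast; ring
  have h0 : (n.factorial : ℝ) ≠ 0 := by exact_mod_cast n.factorial_ne_zero
  have h1 : ((n : ℝ) + 1) ≠ 0 := by positivity
  unfold chR
  rw [prod_range_succ' (fun i => y + 1 - (i : ℝ)) n, hs, prod_range_succ (fun i => y - (i : ℝ)) n, hf]
  field_simp
  push_cast
  ring

theorem chR_two (y : ℝ) (n : ℕ) :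
    chR (y + 1) (n + 2) + chR (y - 1) (n + 2) = 2 * chR y (n + 2) + chR (y - 1) n := by
  have h1 := chR_pascal y (n + 1)
  have h2 := chR_pascal (y - 1) (n + 1)
  have h3 := chR_pascal (y - 1) n
  rw [sub_add_cancel] at h2 h3
  linarith

/-- recursion, first level -/
theorem uR_zero (x : ℝ) (k : ℕ) : uR (x + 1) k 0 + uR (x - 1) k 0 = 2 * uR x k 0 := by
  unfold uR
  rcases k with _ | _ | k
  · simp [chR_one]; ring
  · simp [chR_zero]; norm_num
  · simp

theorem uR_succ (x : ℝ) (k l : ℕ) :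
    uR (x + 1) k (l + 1) + uR (x - 1) k (l + 1) = 2 * uR x k (l + 1) + uR x k l := by
  unfold uR
  by_cases h : k ≤ 2 * l + 1
  · obtain ⟨n, hn⟩ := Nat.exists_eq_add_of_le h
    have e1 : 2 * (l + 1) + 1 - k = n + 2 := by omega
    have e2 : 2 * l + 1 - k = n := by omega
    rw [if_pos h, if_pos (by omega), if_pos (by omega), if_pos (by omega), e1, e2]
    have := chR_two (x + k + (l + 1 : ℕ)) n
    have a1 : x + 1 + (k : ℝ) + ((l + 1 : ℕ) : ℝ) = x + k + (l + 1 : ℕ) + 1 := by ring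
    have a2 : x - 1 + (k : ℝ) + ((l + 1 : ℕ) : ℝ) = x + k + (l + 1 : ℕ) - 1 := by ring
    have a3 : x + (k : ℝ) + (l : ℝ) = x + k + (l + 1 : ℕ) - 1 := by push_cast; ring
    rw [a1, a2, a3, this]
  · rw [if_neg h]
    by_cases h2 : k ≤ 2 * (l + 1) + 1
    · rw [if_pos h2, if_pos h2, if_pos h2]
      have : 2 * (l + 1) + 1 - k = 0 ∨ 2 * (l + 1) + 1 - k = 1 := by omega
      rcases this with e | e
      · rw [e]; simp only [chR_zero]; norm_num
      · rw [e]; simp only [chR_one]; ring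
    · rw [if_neg h2, if_neg h2, if_neg h2]; norm_num

/-! ## recursion of `cD` -/

theorem cD_zero (δ : ℝ) : cD δ 0 = 2 := by simp [cD]

theorem prod_ab (δ : ℝ) (j : ℕ) : ∏ i ∈ range j, (δ ^ 2 - (i : ℝ) ^ 2)
    = (∏ i ∈ range j, (δ - i)) * ∏ i ∈ range j, (δ + i) := by
  rw [← prod_mul_distrib]
  refine prod_congr rfl fun i _ => ?_
  ring

theorem a_shift (δ : ℝ) (j : ℕ) :
    ∏ i ∈ range (j + 1), (δ - (i : ℝ)) = δ * ∏ i ∈ range j, (δ - 1 - (i : ℝ)) := by
  rw [prod_range_succ' (fun i => δ - (i : ℝ)) j, mul_comm]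
  congr 1
  · simp
  · refine prod_congr rfl fun i _ => ?_
    push_cast; ring

theorem b_shift (δ : ℝ) (j : ℕ) :
    ∏ i ∈ range (j + 1), (δ + (i : ℝ)) = δ * ∏ i ∈ range j, (δ + 1 + (i : ℝ)) := by
  rw [prod_range_succ' (fun i => δ + (i : ℝ)) j, mul_comm]
  congr 1
  · simp
  · refine prod_congr rfl fun i _ => ?_
    push_cast; ring

theorem P_rec (δ : ℝ) (hδ : 0 < δ) (j : ℕ) :
    (∏ i ∈ range (j + 1), ((δ + 1) ^ 2 - (i : ℝ) ^ 2)) + (∏ i ∈ range (j + 1), ((δ - 1) ^ 2 - (i : ℝ) ^ 2))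
      - 2 * (∏ i ∈ range (j + 1), (δ ^ 2 - (i : ℝ) ^ 2))
    = ((2 * j + 2) * (2 * j + 1)) * ∏ i ∈ range j, (δ ^ 2 - (i : ℝ) ^ 2) := by
  rw [prod_ab, prod_ab, prod_ab, prod_ab]
  have hA1 := a_shift (δ + 1) j
  rw [add_sub_cancel_right] at hA1
  have hA2 : ∏ i ∈ range (j + 1), (δ - (i : ℝ)) = (∏ i ∈ range j, (δ - (i : ℝ))) * (δ - j) :=
    prod_range_succ _ _
  have hA3 : (∏ i ∈ range j, (δ - (i : ℝ))) * (δ - j) * (δ - j - 1)
      = δ * ∏ i ∈ range (j + 1), (δ - 1 - (i : ℝ)) := by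
    rw [← a_shift, prod_range_succ, prod_range_succ]
    push_cast
    ring
  have hB1 : ∏ i ∈ range (j + 1), (δ + 1 + (i : ℝ)) = (∏ i ∈ range j, (δ + 1 + (i : ℝ))) * (δ + 1 + j) :=
    prod_range_succ _ _
  have hB2 := b_shift δ j
  have hB3 : (∏ i ∈ range j, (δ + (i : ℝ))) * (δ + j) = δ * ∏ i ∈ range j, (δ + 1 + (i : ℝ)) := by
    rw [← b_shift, prod_range_succ]
  have hB4 := b_shift (δ - 1) j
  rw [sub_add_cancel] at hB4
  rw [hA1, hA2, hB1, hB2, hB4]
  generalize (∏ i ∈ range j, (δ - (i : ℝ))) = A at *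
  generalize (∏ i ∈ range j, (δ + 1 + (i : ℝ))) = B at *
  generalize (∏ i ∈ range j, (δ + (i : ℝ))) = b at *
  generalize (∏ i ∈ range (j + 1), (δ - 1 - (i : ℝ))) = a at *
  have hne : δ * (δ + j) ≠ 0 := by positivity
  refine mul_left_cancel₀ hne ?_
  linear_combination (-(δ - 1) * (δ + j) * b) * hA3
    + (A * (δ - j) * (δ - j - 1) * (δ - 1) - (2 * j + 2) * (2 * j + 1) * A * δ) * hB3

theorem cD_succ (δ : ℝ) (hδ : 0 < δ) (j : ℕ) :
    cD (δ + 1) (j + 1) + cD (δ - 1) (j + 1) = 2 * cD δ (j + 1) + cD δ j := by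
  have h := P_rec δ hδ j
  have hf : ((2 * (j + 1)).factorial : ℝ) = ((2 * j + 2) * (2 * j + 1)) * (2 * j).factorial := by
    have : 2 * (j + 1) = (2 * j + 1) + 1 := by ring
    rw [this, Nat.factorial_succ, Nat.factorial_succ]
    push_cast; ring
  have h0 : ((2 * j).factorial : ℝ) ≠ 0 := by exact_mod_cast (2 * j).factorial_ne_zero
  have h1 : ((2 * j + 2 : ℝ) * (2 * j + 1)) ≠ 0 := by positivity
  unfold cD
  rw [hf]
  generalize ∏ i ∈ range (j + 1), ((δ + 1) ^ 2 - (i : ℝ) ^ 2) = P1 at *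
  generalize ∏ i ∈ range (j + 1), ((δ - 1) ^ 2 - (i : ℝ) ^ 2) = P2 at *
  generalize ∏ i ∈ range (j + 1), (δ ^ 2 - (i : ℝ) ^ 2) = P3 at *
  generalize ∏ i ∈ range j, (δ ^ 2 - (i : ℝ) ^ 2) = P4 at *
  generalize ((2 * j + 2 : ℝ) * (2 * j + 1)) = c at *
  field_simp
  linarith

/-! ## natural `δ` -/

/-- the convolution -/
noncomputable def cv (δ x : ℝ) (k l : ℕ) : ℝ := ∑ l' ∈ range (l + 1), cD δ (l - l') * uR x k l'

theorem cv_zero (δ x : ℝ) (k : ℕ) : cv δ x k 0 = 2 * uR x k 0 := by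
  simp [cv, cD_zero]

theorem cv_rec (δ : ℝ) (hδ : 0 < δ) (x : ℝ) (k l : ℕ) :
    cv (δ + 1) x k (l + 1) + cv (δ - 1) x k (l + 1) = 2 * cv δ x k (l + 1) + cv δ x k l := by
  unfold cv
  have e : ∀ d : ℝ, ∑ l' ∈ range (l + 1 + 1), cD d (l + 1 - l') * uR x k l'
      = (∑ l' ∈ range (l + 1), cD d (l - l' + 1) * uR x k l') + 2 * uR x k (l + 1) := by
    intro d
    rw [sum_range_succ, Nat.sub_self, cD_zero]
    congr 1
    refine sum_congr rfl fun i hi => ?_
    rw [mem_range] at hi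
    rw [show l + 1 - i = l - i + 1 by omega]
  rw [e, e, e]
  have : ∀ i ∈ range (l + 1), cD (δ + 1) (l - i + 1) * uR x k i + cD (δ - 1) (l - i + 1) * uR x k i
      = 2 * (cD δ (l - i + 1) * uR x k i) + cD δ (l - i) * uR x k i := by
    intro i _
    have := cD_succ δ hδ (l - i)
    linear_combination (uR x k i) * this
  have hs := sum_congr rfl this
  rw [sum_add_distrib, sum_add_distrib, ← mul_sum] at hs
  linarith

theorem cD_zero_left (j : ℕ) : cD 0 (j + 1) = 0 := by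
  unfold cD
  rw [prod_range_succ']
  simp

theorem cD_one_left (j : ℕ) : cD 1 (j + 2) = 0 := by
  unfold cD
  rw [prod_range_succ', prod_range_succ']
  simp

theorem cD_one_one : cD 1 1 = 1 := by
  simp [cD]

theorem cv_zero_left (x : ℝ) (k l : ℕ) : cv 0 x k l = 2 * uR x k l := by
  unfold cv
  rw [sum_range_succ, Nat.sub_self, cD_zero, sum_eq_zero, zero_add]
  intro i hi
  rw [mem_range] at hi
  obtain ⟨m, hm⟩ : ∃ m, l - i = m + 1 := ⟨l - i - 1, by omega⟩
  rw [hm, cD_zero_left, zero_mul]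

theorem cv_one_left (x : ℝ) (k l : ℕ) : cv 1 x k (l + 1) = 2 * uR x k (l + 1) + uR x k l := by
  unfold cv
  rw [sum_range_succ, sum_range_succ, Nat.sub_self, cD_zero, sum_eq_zero, zero_add,
    show l + 1 - l = 1 by omega, cD_one_one]
  · ring
  intro i hi
  rw [mem_range] at hi
  obtain ⟨m, hm⟩ : ∃ m, l + 1 - i = m + 2 := ⟨l - i - 1, by omega⟩
  rw [hm, cD_one_left, zero_mul]

theorem nat_zero (d : ℝ) (x : ℝ) (k : ℕ) : 2 * uR x k 0 = uR (x + d) k 0 + uR (x - d) k 0 := by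
  unfold uR
  rcases k with _ | _ | k
  · simp [chR_one]; ring
  · simp [chR_zero]; norm_num
  · simp

theorem nat_case (k : ℕ) : ∀ (d : ℕ) (x : ℝ) (l : ℕ),
    cv d x k l = uR (x + d) k l + uR (x - d) k l := by
  intro d
  induction d using Nat.strong_induction_on with
  | _ d ih =>
    intro x l
    rcases l with _ | l
    · rw [cv_zero, nat_zero (d : ℝ)]
    rcases d with _ | _ | d
    · simp only [Nat.cast_zero, add_zero, sub_zero]
      rw [cv_zero_left]; ring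
    · simp only [zero_add, Nat.cast_one]
      rw [cv_one_left, uR_succ]
    · have h1 := ih (d + 1) (by omega) x (l + 1)
      have h2 := ih d (by omega) x (l + 1)
      have h3 := ih (d + 1) (by omega) x l
      have hr := cv_rec ((d + 1 : ℕ) : ℝ) (by positivity) x k l
      have e1 : ((d + 1 : ℕ) : ℝ) + 1 = ((d + 1 + 1 : ℕ) : ℝ) := by push_cast; ring
      have e2 : ((d + 1 : ℕ) : ℝ) - 1 = (d : ℝ) := by push_cast; ring
      rw [e1, e2, h1, h2, h3] at hr
      have r1 := uR_succ (x + (d + 1 : ℕ)) k l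
      have r2 := uR_succ (x - (d + 1 : ℕ)) k l
      have f1 : x + ((d + 1 : ℕ) : ℝ) + 1 = x + ((d + 1 + 1 : ℕ) : ℝ) := by push_cast; ring
      have f2 : x + ((d + 1 : ℕ) : ℝ) - 1 = x + (d : ℝ) := by push_cast; ring
      have f3 : x - ((d + 1 : ℕ) : ℝ) + 1 = x - (d : ℝ) := by push_cast; ring
      have f4 : x - ((d + 1 : ℕ) : ℝ) - 1 = x - ((d + 1 + 1 : ℕ) : ℝ) := by push_cast; ring
      rw [f1, f2] at r1
      rw [f3, f4] at r2
      linarith

/-! ## polynomial extension -/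

open Polynomial in
theorem polyL (x : ℝ) (k l : ℕ) : ∃ P : ℝ[X], ∀ δ : ℝ, P.eval δ = cv δ x k l := by
  refine ⟨∑ l' ∈ range (l + 1), (C (2 / ((2 * (l - l')).factorial : ℝ) * uR x k l')
    * ∏ i ∈ range (l - l'), (X ^ 2 - C ((i : ℝ) ^ 2))), fun δ => ?_⟩
  rw [Polynomial.eval_finsetSum]
  refine sum_congr rfl fun i _ => ?_
  rw [Polynomial.eval_mul, Polynomial.eval_C, Polynomial.eval_prod]
  simp only [Polynomial.eval_sub, Polynomial.eval_pow, Polynomial.eval_X, Polynomial.eval_C]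
  unfold cD
  ring

open Polynomial in
theorem polyR (x s : ℝ) (k l : ℕ) : ∃ P : ℝ[X], ∀ δ : ℝ, P.eval δ = uR (x + s * δ) k l := by
  by_cases h : k ≤ 2 * l + 1
  · refine ⟨C (1 / ((2 * l + 1 - k).factorial : ℝ)) * ∏ i ∈ range (2 * l + 1 - k),
      (C s * X + C (x + k + l - i)), fun δ => ?_⟩
    rw [Polynomial.eval_mul, Polynomial.eval_C, Polynomial.eval_prod]
    simp only [Polynomial.eval_add, Polynomial.eval_mul, Polynomial.eval_X, Polynomial.eval_C]
    unfold uR chR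
    rw [if_pos h, one_div, ← div_eq_inv_mul]
    congr 1
    refine prod_congr rfl fun i _ => ?_
    ring
  · refine ⟨0, fun δ => ?_⟩
    unfold uR
    rw [if_neg h, Polynomial.eval_zero]

end TMRa

open TMRa in
theorem t_MRa : S_MRa := by
  intro x δ k l
  obtain ⟨P, hP⟩ := polyL x k l
  obtain ⟨Q1, hQ1⟩ := polyR x 1 k l
  obtain ⟨Q2, hQ2⟩ := polyR x (-1) k l
  have hPQ : P = Q1 + Q2 := by
    refine Polynomial.eq_of_infinite_eval_eq _ _ ?_
    refine Set.infinite_of_injective_forall_mem (f := fun n : ℕ => (n : ℝ)) Nat.cast_injective ?_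
    intro n
    show P.eval (n : ℝ) = (Q1 + Q2).eval (n : ℝ)
    rw [Polynomial.eval_add, hP, hQ1, hQ2, nat_case]
    ring_nf
  have := hP δ
  rw [hPQ, Polynomial.eval_add, hQ1, hQ2] at this
  have e1 : x + 1 * δ = x + δ := by ring
  have e2 : x + -1 * δ = x - δ := by ring
  rw [e1, e2] at this
  exact this.symm

end Pool.Agent.W808.KC
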