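import Pool.Agent.W808.KC.Stm
import Pool.Agent.W808.HB.T_DC

set_option autoImplicit false

/-! KC-MRb : half-integer values of the determinant by Krattenthaler's determinant. -/

namespace Pool.Agent.W808.KC

namespace TMRb

open Pool.Agent.W808.HB (KM KP rf S_KR)
open Pool.Agent.W808.HB.DC (rf_nat rf_neg choose_rf prod_shift)

lemma chR_nat (N n : ℕ) : chR (N : ℝ) n = ((N.choose n : ℕ) : ℝ) := by
  unfold chR
  induction n with
  | zero => simp
  | succ n ih =>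
    rw [Finset.prod_range_succ, Nat.factorial_succ]
    have h1 : (((n + 1) * n.factorial : ℕ) : ℝ) = (n.factorial : ℝ) * (n + 1) := by
      push_cast
      ring
    rw [h1, mul_div_mul_comm, ih]
    have h2 := Nat.choose_succ_right_eq N n
    have h3 : ((n : ℝ) + 1) ≠ 0 := by positivity
    rw [mul_div_assoc', div_eq_iff h3]
    by_cases h : n ≤ N
    · have h4 : ((N - n : ℕ) : ℝ) = N - n := by rw [Nat.cast_sub h]
      rw [← h4]
      exact_mod_cast h2.symm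
    · rw [Nat.choose_eq_zero_of_lt (show N < n by omega),
        Nat.choose_eq_zero_of_lt (show N < n + 1 by omega)]
      simp

lemma uR_nat (ν k l : ℕ) : uR (ν : ℝ) k l =
    ((if k ≤ 2 * l + 1 then (ν + k + l).choose (2 * l + 1 - k) else 0 : ℕ) : ℝ) := by
  unfold uR
  split_ifs with h
  · rw [← chR_nat]
    push_cast
    rfl
  · simp

/-- sum of two binomial coefficients -/
lemma two_choose (N n : ℕ) (hN : 1 ≤ N) : ((N.choose n : ℕ) : ℚ) + (((N - 1).choose n : ℕ) : ℚ) =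
    (2 * N - n) * ((N - 1).factorial * rf n * rf ((N : ℤ) - n)) := by
  rw [choose_rf, choose_rf]
  have e : (((N - 1 : ℕ) : ℤ) - n) = (N : ℤ) - n - 1 := by omega
  rw [e, ← HB.KR.rf_mul]
  obtain ⟨N, rfl⟩ : ∃ N', N = N' + 1 := ⟨N - 1, by omega⟩
  rw [Nat.factorial_succ, Nat.add_sub_cancel]
  push_cast
  ring

/-- the entries of the sum of the two matrices -/
lemma entry (y k l : ℕ) : uR (((y + 2 : ℕ) : ℝ)) k l + uR (((y + 1 : ℕ) : ℝ)) k l =
    (((2 * y + 3 * (k + 1) : ℚ) * (((y + l + 1 + (k + 1) - 1 : ℕ).factorial : ℚ) *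
      rf (2 * ((l + 1 : ℕ) : ℤ) - ((k + 1 : ℕ) : ℤ)) *
        rf ((y : ℤ) - ((l + 1 : ℕ) : ℤ) + 2 * ((k + 1 : ℕ) : ℤ))) : ℚ) : ℝ) := by
  rw [uR_nat, uR_nat]
  have h : (((if k ≤ 2 * l + 1 then (y + 2 + k + l).choose (2 * l + 1 - k) else 0 : ℕ) : ℚ) +
      ((if k ≤ 2 * l + 1 then (y + 1 + k + l).choose (2 * l + 1 - k) else 0 : ℕ) : ℚ)) =
      ((2 * y + 3 * (k + 1) : ℚ) * (((y + l + 1 + (k + 1) - 1 : ℕ).factorial : ℚ) *
      rf (2 * ((l + 1 : ℕ) : ℤ) - ((k + 1 : ℕ) : ℤ)) *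
        rf ((y : ℤ) - ((l + 1 : ℕ) : ℤ) + 2 * ((k + 1 : ℕ) : ℤ)))) := by
    split_ifs with h
    · have h1 := two_choose (y + 2 + k + l) (2 * l + 1 - k) (by omega)
      rw [show y + 2 + k + l - 1 = y + 1 + k + l by omega] at h1
      rw [h1]
      have e1 : (((2 * l + 1 - k : ℕ) : ℕ) : ℚ) = 2 * l + 1 - k := by
        rw [Nat.cast_sub h]
        push_cast
        ring
      have e2 : (((2 * l + 1 - k : ℕ) : ℕ) : ℤ) = 2 * ((l + 1 : ℕ) : ℤ) - ((k + 1 : ℕ) : ℤ) := by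
        omega
      have e3 : ((y + 2 + k + l : ℕ) : ℤ) - ((2 * l + 1 - k : ℕ) : ℤ) =
          (y : ℤ) - ((l + 1 : ℕ) : ℤ) + 2 * ((k + 1 : ℕ) : ℤ) := by
        omega
      rw [e3, e2, e1, show y + l + 1 + (k + 1) - 1 = y + 1 + k + l by omega]
      push_cast
      ring
    · rw [rf_neg (2 * ((l + 1 : ℕ) : ℤ) - ((k + 1 : ℕ) : ℤ)) (by omega)]
      simp
  rw [← h, Rat.cast_add, Rat.cast_natCast, Rat.cast_natCast]

/-- the first row of the Krattenthaler matrix -/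
lemma KM_det_succ (M : ℕ) (y : ℕ) (hy : 1 ≤ y) : (KM (M + 1) 0 y).det =
    (1 / (y : ℚ)) * ((KM (M + 1) 0 y).submatrix Fin.succ Fin.succ).det := by
  rw [Matrix.det_succ_row_zero, Fin.sum_univ_succ]
  have h0 : (KM (M + 1) 0 y) 0 0 = 1 / (y : ℚ) := by
    obtain ⟨y, rfl⟩ : ∃ y', y = y' + 1 := ⟨y - 1, by omega⟩
    simp only [KM, Matrix.of_apply]
    have e1 : ((0 : ℤ) + ((y + 1 : ℕ) : ℤ) + (((0 : Fin (M + 1)) : ℕ) : ℤ) +
        (((0 : Fin (M + 1)) : ℕ) : ℤ) - 1).toNat = y := by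
      simp
    have e2 : (0 : ℤ) + 2 * (((0 : Fin (M + 1)) : ℕ) : ℤ) - (((0 : Fin (M + 1)) : ℕ) : ℤ) =
        ((0 : ℕ) : ℤ) := by simp
    have e3 : ((y + 1 : ℕ) : ℤ) - (((0 : Fin (M + 1)) : ℕ) : ℤ) +
        2 * (((0 : Fin (M + 1)) : ℕ) : ℤ) = ((y + 1 : ℕ) : ℤ) := by simp
    rw [e1, e2, e3, rf_nat, rf_nat, Nat.factorial_succ]
    have : (y.factorial : ℚ) ≠ 0 := by positivity
    push_cast
    field_simp
    simp
  have hs : ∀ j : Fin M, (KM (M + 1) 0 y) 0 j.succ = 0 := by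
    intro j
    simp only [KM, Matrix.of_apply]
    rw [rf_neg ((0 : ℤ) + 2 * (((0 : Fin (M + 1)) : ℕ) : ℤ) - ((j.succ : ℕ) : ℤ))
      (by simp; omega)]
    simp
  rw [h0]
  have hz : ∑ i : Fin M, (-1 : ℚ) ^ ((i.succ : Fin (M + 1)) : ℕ) * (KM (M + 1) 0 y) 0 i.succ *
      ((KM (M + 1) 0 y).submatrix Fin.succ i.succ.succAbove).det = 0 := by
    apply Finset.sum_eq_zero
    intro j _
    rw [hs]
    simp
  rw [hz, add_zero]
  simp

lemma det_sub (M : ℕ) (y : ℕ) (hy : 1 ≤ y) (hK : S_KR) :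
    ((KM (M + 1) 0 y).submatrix Fin.succ Fin.succ).det =
      ∏ i ∈ Finset.range M, (((i + 1).factorial : ℚ) * ((y + i).factorial : ℚ) /
        (((2 * i + 2).factorial : ℚ) * ((y + 2 * i + 2).factorial : ℚ)) *
        ∏ s ∈ Finset.range (i + 1), (((y : ℚ) + 2 * i + 2 + s) * (2 * y + 2 * i + 2 + s))) := by
  have h1 := KM_det_succ M y hy
  rw [hK (M + 1) 0 y (by omega)] at h1
  unfold KP at h1
  rw [Finset.prod_range_succ'] at h1
  have hy0 : (y : ℚ) ≠ 0 := by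
    have : y ≠ 0 := by omega
    exact_mod_cast this
  have e0 : ((0 : ℕ).factorial : ℚ) * (((0 : ℤ) + y + ((0 : ℕ) : ℤ) - 1).toNat.factorial : ℚ) *
      rf (0 + 2 * ((0 : ℕ) : ℤ)) * rf ((y : ℤ) + 2 * ((0 : ℕ) : ℤ)) *
      ∏ t ∈ Finset.range 0, ((2 * 0 + (y : ℤ) + 2 * ((0 : ℕ) : ℤ) + t : ℤ) *
        (0 + 2 * (y : ℤ) + 2 * ((0 : ℕ) : ℤ) + t : ℤ) : ℚ) = 1 / (y : ℚ) := by
    obtain ⟨y, rfl⟩ : ∃ y', y = y' + 1 := ⟨y - 1, by omega⟩
    have e1 : ((0 : ℤ) + ((y + 1 : ℕ) : ℤ) + ((0 : ℕ) : ℤ) - 1).toNat = y := by simp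
    have e2 : (0 : ℤ) + 2 * ((0 : ℕ) : ℤ) = ((0 : ℕ) : ℤ) := by simp
    have e3 : ((y + 1 : ℕ) : ℤ) + 2 * ((0 : ℕ) : ℤ) = ((y + 1 : ℕ) : ℤ) := by simp
    rw [e1, e2, e3, rf_nat, rf_nat, Nat.factorial_succ]
    have : (y.factorial : ℚ) ≠ 0 := by positivity
    push_cast
    field_simp
    simp
  rw [e0, mul_comm] at h1
  have h2 := mul_left_cancel₀ (one_div_ne_zero hy0) h1
  rw [← h2]
  apply Finset.prod_congr rfl
  intro i _
  have e1 : ((0 : ℤ) + y + ((i + 1 : ℕ) : ℤ) - 1).toNat = y + i := by omega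
  have e2 : (0 : ℤ) + 2 * ((i + 1 : ℕ) : ℤ) = ((2 * i + 2 : ℕ) : ℤ) := by push_cast; ring
  have e3 : (y : ℤ) + 2 * ((i + 1 : ℕ) : ℤ) = ((y + 2 * i + 2 : ℕ) : ℤ) := by push_cast; ring
  rw [e1, e2, e3, rf_nat, rf_nat]
  have e4 : ∏ t ∈ Finset.range (i + 1), ((2 * 0 + (y : ℤ) + 2 * ((i + 1 : ℕ) : ℤ) + t : ℤ) *
      (0 + 2 * (y : ℤ) + 2 * ((i + 1 : ℕ) : ℤ) + t : ℤ) : ℚ) =
      ∏ s ∈ Finset.range (i + 1), (((y : ℚ) + 2 * i + 2 + s) * (2 * y + 2 * i + 2 + s)) := by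
    apply Finset.prod_congr rfl
    intro s _
    push_cast
    ring
  rw [e4]
  field_simp

/-- the upper triangular matrix -/
noncomputable def TM (M : ℕ) : Matrix (Fin M) (Fin M) ℝ :=
  Matrix.of fun l' l => if l'.val ≤ l.val then cD (1 / 2) (l.val - l'.val) else 0

lemma TM_det (M : ℕ) : (TM M).det = 2 ^ M := by
  rw [Matrix.det_of_isUpperTriangular]
  · have : ∀ i : Fin M, TM M i i = 2 := by
      intro i
      simp [TM, cD]
    rw [Finset.prod_congr rfl (fun i _ => this i), Finset.prod_const, Finset.card_univ,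
      Fintype.card_fin]
  · intro i j hij
    simp only [TM, Matrix.of_apply]
    rw [if_neg]
    have : j.val < i.val := hij
    omega

lemma U_mul (hM : S_MRa) (M : ℕ) (x : ℝ) :
    (Matrix.of fun k l : Fin M => uR x k l) * TM M =
      Matrix.of fun k l : Fin M => uR (x + 1 / 2) k l + uR (x - 1 / 2) k l := by
  ext k l
  rw [Matrix.mul_apply]
  simp only [TM, Matrix.of_apply]
  rw [← hM x (1 / 2) k l]
  have h1 : ∑ j : Fin M, uR x k j * (if j.val ≤ l.val then cD (1 / 2) (l.val - j.val) else 0) =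
      ∑ j ∈ Finset.range M, uR x k j * (if j ≤ l.val then cD (1 / 2) (l.val - j) else 0) :=
    Fin.sum_univ_eq_sum_range
      (fun j => uR x k j * (if j ≤ l.val then cD (1 / 2) (l.val - j) else 0)) M
  rw [h1]
  have h2 : Finset.range (l.val + 1) ⊆ Finset.range M := by
    apply Finset.range_mono
    have := l.2
    omega
  rw [← Finset.sum_subset h2]
  · apply Finset.sum_congr rfl
    intro j hj
    rw [Finset.mem_range] at hj
    rw [if_pos (by omega)]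
    ring
  · intro j _ hj
    rw [Finset.mem_range] at hj
    rw [if_neg (by omega), mul_zero]

/-- the product of consecutive factors -/
lemma prod_fac (y i : ℕ) : (∏ s ∈ Finset.range (i + 2), ((y : ℝ) + 1 + i + s)) * (y + i).factorial =
    (y + 2 * i + 2).factorial := by
  have h := prod_shift (y + i) (i + 2)
  rw [show y + i + (i + 2) = y + 2 * i + 2 by ring] at h
  have h2 : ((((∏ t ∈ Finset.range (i + 2), (((y + i : ℕ) : ℚ) + 1 + t)) * (y + i).factorial : ℚ)) : ℝ) =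
      (((y + 2 * i + 2).factorial : ℚ) : ℝ) := by rw [h]
  push_cast at h2
  rw [← h2]
  congr 1
  apply Finset.prod_congr rfl
  intro s _
  ring

end TMRb

open TMRb in
theorem t_MRb (hM : S_MRa) (hK : HB.S_KR) : S_MRb := by
  intro M ν hν
  obtain ⟨y, rfl⟩ : ∃ y, ν = y + 2 := ⟨ν - 2, by omega⟩
  have hy : 1 ≤ y := by omega
  set x : ℝ := ((y + 2 : ℕ) : ℝ) - 1 / 2 with hx
  have h1 := U_mul hM M x
  have h2 := congrArg Matrix.det h1
  rw [Matrix.det_mul, TM_det] at h2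
  have e1 : x + 1 / 2 = ((y + 2 : ℕ) : ℝ) := by rw [hx]; ring
  have e2 : x - 1 / 2 = ((y + 1 : ℕ) : ℝ) := by rw [hx]; push_cast; ring
  rw [e1, e2] at h2
  -- the right-hand side
  set N : Matrix (Fin M) (Fin M) ℚ := (HB.KM (M + 1) 0 y).submatrix Fin.succ Fin.succ with hN
  have h3 : (Matrix.of fun k l : Fin M => uR ((y + 2 : ℕ) : ℝ) k l + uR ((y + 1 : ℕ) : ℝ) k l) =
      (Matrix.of fun k l : Fin M => (2 * y + 3 * ((k : ℕ) + 1) : ℚ) * N.transpose k l).map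
        (Rat.castHom ℝ) := by
    ext k l
    simp only [Matrix.of_apply, Matrix.map_apply, Matrix.transpose_apply, hN,
      Matrix.submatrix_apply, HB.KM]
    rw [entry]
    simp only [Rat.coe_castHom]
    congr 2
    have e3 : ((0 : ℤ) + (y : ℤ) + ((l.succ : Fin (M + 1)) : ℕ) + ((k.succ : Fin (M + 1)) : ℕ)
        - 1).toNat = y + l + 1 + (k + 1) - 1 := by
      simp only [Fin.val_succ]
      omega
    rw [e3]
    simp only [Fin.val_succ, zero_add]
  rw [h3] at h2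
  have h4 := (RingHom.map_det (Rat.castHom ℝ)
    (Matrix.of fun k l : Fin M => (2 * y + 3 * ((k : ℕ) + 1) : ℚ) * N.transpose k l)).symm
  rw [RingHom.mapMatrix_apply] at h4
  rw [h4, Matrix.det_mul_column, Matrix.det_transpose, det_sub M y hy hK,
    Fin.prod_univ_eq_prod_range (fun k : ℕ => (2 * y + 3 * ((k : ℚ) + 1))) M,
    ← Finset.prod_mul_distrib] at h2
  have h5 : (Matrix.of fun k l : Fin M => uR x k l).det = (∏ _i ∈ Finset.range M, (1 / 2 : ℝ)) *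
      ((Matrix.of fun k l : Fin M => uR x k l).det * 2 ^ M) := by
    rw [Finset.prod_const, Finset.card_range]
    have : ((1 / 2 : ℝ)) ^ M * 2 ^ M = 1 := by rw [← mul_pow]; norm_num
    linear_combination (-(Matrix.of fun k l : Fin M => uR x k l).det) * this
  rw [h5, h2, Rat.coe_castHom, Rat.cast_prod, ← Finset.prod_mul_distrib]
  apply Finset.prod_congr rfl
  intro i _
  have hp := prod_fac y i
  have q1 : ∏ s ∈ Finset.range (i + 1), ((2 * x + 1 + 4 * i + 2 * s) * (2 * x - 1 + 2 * i + s)) =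
      2 ^ (i + 1) * ∏ s ∈ Finset.range (i + 1), (((y : ℝ) + 2 * i + 2 + s) *
        (2 * y + 2 * i + 2 + s)) := by
    have : (2 : ℝ) ^ (i + 1) = ∏ _s ∈ Finset.range (i + 1), (2 : ℝ) := by
      rw [Finset.prod_const, Finset.card_range]
    rw [this, ← Finset.prod_mul_distrib]
    apply Finset.prod_congr rfl
    intro s _
    rw [hx]
    push_cast
    ring
  have q2 : ∏ s ∈ Finset.range (i + 2), (2 * x - 1 + 2 * i + 2 * s) =
      2 ^ (i + 2) * ∏ s ∈ Finset.range (i + 2), ((y : ℝ) + 1 + i + s) := by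
    have : (2 : ℝ) ^ (i + 2) = ∏ _s ∈ Finset.range (i + 2), (2 : ℝ) := by
      rw [Finset.prod_const, Finset.card_range]
    rw [this, ← Finset.prod_mul_distrib]
    apply Finset.prod_congr rfl
    intro s _
    rw [hx]
    push_cast
    ring
  rw [q1, q2]
  have hP : 0 < ∏ s ∈ Finset.range (i + 2), ((y : ℝ) + 1 + i + s) := by
    apply Finset.prod_pos
    intro s _
    positivity
  set P := ∏ s ∈ Finset.range (i + 2), ((y : ℝ) + 1 + i + s)
  push_cast
  set Q := ∏ s ∈ Finset.range (i + 1), (((y : ℝ) + 2 * i + 2 + s) * (2 * y + 2 * i + 2 + s))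
  rw [← hp, hx]
  have f1 : (0:ℝ) < (y + i).factorial := by positivity
  have f2 : (0:ℝ) < (2 * i + 2).factorial := by positivity
  push_cast
  field_simp
  ring

end Pool.Agent.W808.KC
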