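import Pool.Agent.W808.KC.T_Fc

/-!
KC-OW: one class of faces is enough (words).
-/

set_option autoImplicit false

namespace Pool.Agent.W808.KC

open Pool.Agent.H988R2.Perc

namespace TOW

open TFc
open Pool.Agent.H988R2.Perc.St (low up)

/-! ### the closings -/

theorem dyck_capit (m : ℕ) : ∀ (M : ℕ) {w : Word}, Dyck w → w.length = 2 * m + 2 * M →
    Dyck (capit m M w) ∧ (capit m M w).length = 2 * m
  | 0, w, hw, hl => ⟨hw, by simpa [capit] using hl⟩
  | M + 1, w, hw, hl => by
    have h : m + 2 ≤ w.length := by omega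
    show Dyck (capit m M (cap m w)) ∧ (capit m M (cap m w)).length = 2 * m
    exact dyck_capit m M (dyck_cap hw h) (by rw [length_cap h]; omega)

/-- the face of the word before the closings -/
def sh (m M a : ℕ) : ℕ := if a ≤ m then a else a + 2 * M

/-- the relation after the closings -/
def Jn (m M : ℕ) (R : ℕ → ℕ → Prop) (x y : ℕ) : Prop :=
  R x y ∨ ((∃ j, j ≤ M ∧ R x (m + 2 * j)) ∧ (∃ j, j ≤ M ∧ R y (m + 2 * j)))

theorem up_sh (m M a : ℕ) : up m (sh m M a) = sh m (M + 1) a := by
  unfold up sh
  split_ifs <;> omega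

theorem up_mid_zero (m : ℕ) : up m (m + 2 * 0) = m := by
  unfold up
  simp

theorem up_mid_succ (m j : ℕ) : up m (m + 2 * (j + 1)) = m + 2 * (j + 1 + 1) := by
  unfold up
  split_ifs <;> omega

theorem mid_iff {m M : ℕ} {w : Word} (hw : Dyck w) (hl : m + 2 ≤ w.length) (x : ℕ) :
    (∃ j, j ≤ M ∧ Fc (cap m w) x (m + 2 * j)) ↔ ∃ j, j ≤ M + 1 ∧ Fc w (up m x) (m + 2 * j) := by
  constructor
  · rintro ⟨j, hj, h⟩
    rw [Fc_cap' hw hl] at h
    rcases h with h | h | h
    · cases j with
      | zero =>
        rw [up_mid_zero] at h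
        exact ⟨0, by omega, by simpa using h⟩
      | succ j =>
        rw [up_mid_succ] at h
        exact ⟨j + 1 + 1, by omega, h⟩
    · exact ⟨0, by omega, by simpa using h.1⟩
    · exact ⟨1, by omega, by simpa using h.1⟩
  · rintro ⟨j, hj, h⟩
    match j, hj, h with
    | 0, _, h =>
      refine ⟨0, by omega, ?_⟩
      rw [Fc_cap' hw hl, up_mid_zero]
      exact Or.inl (by simpa using h)
    | 1, _, h =>
      refine ⟨0, by omega, ?_⟩
      rw [Fc_cap' hw hl, up_mid_zero]
      exact Or.inr (Or.inr ⟨by simpa using h, Fc_refl _ _⟩)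
    | j + 1 + 1, hj, h =>
      refine ⟨j + 1, by omega, ?_⟩
      rw [Fc_cap' hw hl, up_mid_succ]
      exact Or.inl h

theorem Jn_step {m M : ℕ} {w : Word} (hw : Dyck w) (hl : m + 2 ≤ w.length) (x y : ℕ) :
    Jn m M (Fc (cap m w)) x y ↔ Jn m (M + 1) (Fc w) (up m x) (up m y) := by
  unfold Jn
  rw [mid_iff hw hl, mid_iff hw hl]
  constructor
  · rintro (h | h)
    · rw [Fc_cap' hw hl] at h
      rcases h with h | h | h
      · exact Or.inl h
      · exact Or.inr ⟨⟨0, by omega, by simpa using h.1⟩,
          ⟨1, by omega, Fc_symm (by simpa using h.2)⟩⟩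
      · exact Or.inr ⟨⟨1, by omega, by simpa using h.1⟩,
          ⟨0, by omega, Fc_symm (by simpa using h.2)⟩⟩
    · exact Or.inr h
  · rintro (h | h)
    · refine Or.inl ?_
      rw [Fc_cap' hw hl]
      exact Or.inl h
    · exact Or.inr h

/-- the faces after the closings -/
theorem Fc_capit (m : ℕ) : ∀ (M : ℕ) {w : Word}, Dyck w → w.length = 2 * m + 2 * M →
    ∀ a b, Fc (capit m M w) a b ↔ Jn m M (Fc w) (sh m M a) (sh m M b)
  | 0, w, hw, hl, a, b => by
    have e : ∀ a, sh m 0 a = a := fun a => by unfold sh; split_ifs <;> omega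
    rw [e, e]
    show Fc w a b ↔ _
    unfold Jn
    constructor
    · exact Or.inl
    · rintro (h | ⟨⟨j, hj, h⟩, ⟨k, hk, h'⟩⟩)
      · exact h
      · have hj : j = 0 := by omega
        have hk : k = 0 := by omega
        rw [hj] at h
        rw [hk] at h'
        exact Fc_trans h (Fc_symm h')
  | M + 1, w, hw, hl, a, b => by
    have h : m + 2 ≤ w.length := by omega
    show Fc (capit m M (cap m w)) a b ↔ _
    rw [Fc_capit m M (dyck_cap hw h) (by rw [length_cap h]; omega) a b, Jn_step hw h, up_sh, up_sh]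

/-! ### rainbows -/

theorem hgt_rainbow_le {m a : ℕ} (h : a ≤ m) : hgt (rainbow m) a = a := by
  unfold rainbow
  rw [hgt_append_le _ _ (by simpa using h)]
  unfold hgt
  rw [List.take_replicate, min_eq_left h]
  simp [List.count_replicate]

theorem hgt_rainbow_ge {m a : ℕ} (h : m ≤ a) (h' : a ≤ 2 * m) :
    hgt (rainbow m) a = 2 * m - a := by
  obtain ⟨k, rfl⟩ : ∃ k, a = m + k := ⟨a - m, by omega⟩
  have e : m + k = (List.replicate m true).length + k := by simp
  unfold rainbow
  rw [e, hgt_append_add]
  unfold hgt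
  rw [List.take_length, List.take_replicate, min_eq_left (show k ≤ m by omega)]
  simp [List.count_replicate]
  ring

theorem rb_inj {m c d : ℕ} (hc : c ≤ m) (hd : d ≤ m) (h : Fc (rainbow m) c d) : c = d := by
  have := h.1
  rw [hgt_rainbow_le hc, hgt_rainbow_le hd] at this
  omega

theorem rb_arc {m c : ℕ} (hc : c ≤ m) : Fc (rainbow m) c (2 * m - c) := by
  rw [Fc_le (by omega), hgt_rainbow_le hc]
  constructor
  · rw [hgt_rainbow_ge (by omega) (by omega)]
    omega
  · intro d h1 h2
    rcases le_total d m with h | h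
    · rw [hgt_rainbow_le h]
      omega
    · rw [hgt_rainbow_ge h (by omega)]
      omega

theorem rainbow_or {m : ℕ} {u : Word} (hu : Dyck u) (hl : u.length = 2 * m) :
    u = rainbow m ∨ ∃ (i : ℕ) (x : Word), i + 2 ≤ m ∧ i ≤ x.length ∧ u = ins i x := by
  classical
  by_cases h : ∀ k, k < m → u[k]? = some true
  · left
    have h1 : u.take m = List.replicate m true := by
      apply List.ext_getElem?
      intro k
      rw [List.getElem?_take, List.getElem?_replicate]
      split_ifs with hk
      · exact h k hk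
      · rfl
    have hc := dyck_count hu
    have hlen : u.count true + u.count false = u.length := by
      have := List.count_add_count_not u true
      simpa using this
    have h2 := congrArg (List.count true) (List.take_append_drop m u)
    rw [List.count_append, h1] at h2
    simp only [List.count_replicate_self] at h2
    have h3 : (u.drop m).count true = 0 := by omega
    have h4 : u.drop m = List.replicate m false := by
      rw [List.eq_replicate_iff]
      refine ⟨by rw [List.length_drop]; omega, fun b hb => ?_⟩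
      rw [List.count_eq_zero] at h3
      cases b
      · rfl
      · exact absurd hb h3
    rw [← List.take_append_drop m u, h1, h4]
    rfl
  · right
    push Not at h
    obtain ⟨k, ⟨hk1, hk2⟩, hmin⟩ : ∃ k, (k < m ∧ u[k]? ≠ some true) ∧
        ∀ j, j < k → ¬ (j < m ∧ u[j]? ≠ some true) :=
      ⟨Nat.find h, Nat.find_spec h, fun j hj => Nat.find_min h hj⟩
    have hku : k < u.length := by omega
    have hkf : u[k] = false := by
      rw [List.getElem?_eq_getElem hku] at hk2
      simpa using hk2
    have hk0 : k ≠ 0 := by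
      rintro rfl
      have h1 := hgt_nonneg hu (0 + 1)
      rw [hgt_succ hku, hkf, hgt_zero] at h1
      simp at h1
    obtain ⟨i, rfl⟩ : ∃ i, k = i + 1 := ⟨k - 1, by omega⟩
    have hit : u[i]'(by omega) = true := by
      have := hmin i (by omega)
      push Not at this
      have := this (by omega)
      rw [List.getElem?_eq_getElem (by omega)] at this
      simpa using this
    refine ⟨i, u.take i ++ u.drop (i + 2), by omega, by simp; omega, ?_⟩
    rw [ins_app _ _ (by simp; omega)]
    conv_lhs => rw [← List.take_append_drop i u]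
    rw [List.drop_eq_getElem_cons (show i < u.length by omega), hit,
      List.drop_eq_getElem_cons hku, hkf]

theorem iso_face {i : ℕ} {x : Word} (hi : i ≤ x.length) {b : ℕ} (h : Fc (ins i x) (i + 1) b) :
    b = i + 1 := by
  rw [Fc_ins hi] at h
  rcases h with h | h
  · exact h.symm
  · exact absurd rfl h.1

theorem join_face {i : ℕ} {x : Word} (hi : i ≤ x.length) : Fc (ins i x) i (i + 2) := by
  rw [Fc_ins hi]
  refine Or.inr ⟨by omega, by omega, ?_⟩
  have h1 : low i i = i := by unfold low; simp
  have h2 : low i (i + 2) = i := by unfold low; simp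
  rw [h1, h2]
  exact Fc_refl _ _

end TOW

open TFc TOW in
/-- one class is enough (words) -/
theorem t_OW : S_OW := by
  intro m w hm hw hl
  obtain ⟨M, hM⟩ : ∃ M, w.length = 2 * m + 2 * M := by
    have := dyck_even hw
    rw [Nat.even_iff] at this
    exact ⟨(w.length - 2 * m) / 2, by omega⟩
  have eM : (w.length - 2 * m) / 2 = M := by omega
  have hG : Gd m w ↔ capit m M w = rainbow m := by
    unfold Gd
    rw [eM]
  rw [hG]
  obtain ⟨hu, hul⟩ := dyck_capit m M hw hM
  have HF := Fc_capit m M hw hM
  generalize capit m M w = u at *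
  have s1 : ∀ a, a ≤ m → sh m M a = a := fun a ha => by unfold sh; rw [if_pos ha]
  have s2 : ∀ d, d < m → sh m M (2 * m - d) = w.length - d := fun d hd => by
    unfold sh
    rw [if_neg (by omega)]
    omega
  -- transfer
  have F1 : ∀ a b, a ≤ m → b ≤ m → Fc w a b → Fc u a b := by
    intro a b ha hb h
    rw [HF, s1 a ha, s1 b hb]
    exact Or.inl h
  have F2 : ∀ c d, c ≤ m → d < m → Fc w c (w.length - d) → Fc u c (2 * m - d) := by
    intro c d hc hd h
    rw [HF, s1 c hc, s2 d hd]
    exact Or.inl h
  have F3 : ∀ c j, c ≤ m → j ≤ M → Fc w c (m + 2 * j) → Fc u c m := by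
    intro c j hc hj h
    rw [HF, s1 c hc, s1 m le_rfl]
    exact Or.inr ⟨⟨j, hj, h⟩, ⟨0, by omega, Fc_refl _ _⟩⟩
  have F3' : ∀ c d, c ≤ m → m ≤ d → d + m ≤ w.length → m % 2 = d % 2 → Fc w c d → Fc u c m := by
    intro c d hc h1 h2 h3 h
    obtain ⟨j, rfl⟩ : ∃ j, d = m + 2 * j := ⟨(d - m) / 2, by omega⟩
    exact F3 c j hc (by omega) h
  -- the rainbow
  have R2 : u = rainbow m → ∀ c, c < m → Fc w c (w.length - c) := by
    intro hR c hc
    have h := rb_arc (m := m) hc.le
    rw [← hR, HF, s1 c hc.le, s2 c hc] at h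
    rcases h with h | ⟨⟨j, hj, h⟩, _⟩
    · exact h
    · have := F3 c j hc.le hj h
      rw [hR] at this
      have := rb_inj hc.le le_rfl this
      omega
  have R3 : u = rainbow m → ∀ c d, c < m → m ≤ d → d + m ≤ w.length → m % 2 = d % 2 →
      ¬ Fc w c d := by
    intro hR c d hc h1 h2 h3 h
    have := F3' c d hc.le h1 h2 h3 h
    rw [hR] at this
    have := rb_inj hc.le le_rfl this
    omega
  have R1 : u = rainbow m → ∀ c d, c < m → d < m → c ≠ d → ¬ Fc w c d := by
    intro hR c d hc hd hcd h
    have := F1 c d hc.le hd.le h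
    rw [hR] at this
    exact hcd (rb_inj hc.le hd.le this)
  -- not the rainbow
  have NR : u ≠ rainbow m → ∃ i, i + 2 ≤ m ∧ (∀ d, d < m → ¬ Fc w (i + 1) (w.length - d)) ∧
      (Fc w i (i + 2) ∨ ∃ d, m ≤ d ∧ d + m ≤ w.length ∧ i % 2 = d % 2 ∧ m % 2 = d % 2 ∧
        Fc w i d) := by
    intro hR
    rcases rainbow_or hu hul with h | ⟨i, x, hi, hx, hux⟩
    · exact absurd h hR
    refine ⟨i, hi, fun d hd h => ?_, ?_⟩
    · have := F2 (i + 1) d (by omega) hd h
      rw [hux] at this
      have := iso_face hx this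
      omega
    · have := join_face hx
      rw [← hux, HF, s1 i (by omega), s1 (i + 2) hi] at this
      rcases this with h | ⟨⟨j, hj, h⟩, _⟩
      · exact Or.inl h
      · refine Or.inr ⟨m + 2 * j, by omega, by omega, Fc_parity (by omega) (by omega) h,
          by omega, h⟩
  constructor
  · constructor
    · rintro ⟨O1, O2, O3⟩
      by_contra hR
      obtain ⟨i, hi, h1, h2⟩ := NR hR
      rcases Nat.mod_two_eq_zero_or_one i with hp | hp
      · obtain ⟨d, hd1, hd2, hd3⟩ := O2 (i + 1) (by omega) (by omega)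
        exact h1 d hd2 hd3
      · rcases h2 with h2 | ⟨d, hd1, hd2, hd3, hd4, hd5⟩
        · rcases Nat.lt_or_ge (i + 2) m with h | h
          · exact O1 i (i + 2) hp (by omega) (by omega) h (by omega) h2
          · exact O3 (by omega) i (i + 2) hp (by omega) (by omega) (by omega) (by omega) h2
        · exact O3 (by omega) i d hp (by omega) (by omega) hd1 hd2 hd5
    · intro hR
      refine ⟨fun c d _ _ hc hd hcd => R1 hR c d hc hd hcd, fun c hc hcm => ?_,
        fun hmo c d hc hcm hd h1 h2 => R3 hR c d hcm h1 h2 (by omega)⟩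
      exact ⟨c, hc, hcm, R2 hR c hcm⟩
  · constructor
    · rintro ⟨O1, O2, O3, O4⟩
      by_contra hR
      obtain ⟨i, hi, h1, h2⟩ := NR hR
      rcases Nat.mod_two_eq_zero_or_one i with hp | hp
      · rcases h2 with h2 | ⟨d, hd1, hd2, hd3, hd4, hd5⟩
        · rcases Nat.lt_or_ge (i + 2) m with h | h
          · rcases Nat.eq_zero_or_pos i with h0 | h0
            · subst h0
              exact O3 2 (by omega) (by omega) (by omega) (Fc_symm h2)
            · exact O1 i (i + 2) hp (by omega) (by omega) (by omega) (by omega) h (by omega) h2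
          · exact O4 (by omega) i (i + 2) hp (by omega) (by omega) (by omega) (by omega) h2
        · exact O4 (by omega) i d hp (by omega) (by omega) hd1 hd2 hd5
      · obtain ⟨d, hd1, hd2, hd3, hd4⟩ := O2 (i + 1) (by omega) (by omega) (by omega)
        exact h1 d hd3 hd4
    · intro hR
      refine ⟨fun c d _ _ _ _ hc hd hcd => R1 hR c d hc hd hcd, fun c hc hc1 hcm => ?_,
        fun c _ hc1 hcm => R1 hR c 0 hcm (by omega) (by omega),
        fun hmo c d hc hcm hd h1 h2 => R3 hR c d hcm h1 h2 (by omega)⟩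
      exact ⟨c, hc, hc1, hcm, R2 hR c hcm⟩

end Pool.Agent.W808.KC
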