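import Pool.Agent.W808.KC.Stm
import Pool.Agent.H988R2.Perc.T02

/-!
# PG, HG: the leg events and the word (helper52)
-/

set_option autoImplicit false

namespace Pool.Agent.W808.KC
open H974 H906.Cyl
open Pool.Agent.W808.HU (du)
open Pool.Agent.H988R2.Perc (Word ins cap act rainbow Dyck LP Fw)

namespace TPG

/-- the point of a vertex -/
def pv (u : Vtx) : ℤ × ℤ := (u.1 + u.2 + 1, u.1 - u.2)

/-- the point of a face -/
def pf (u : Vtx) : ℤ × ℤ := (u.1 + u.2 + 2, u.1 - u.2)

theorem pv_inj {u v : Vtx} (h : pv u = pv v) : u = v := by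
  obtain ⟨x, y⟩ := u
  obtain ⟨x', y'⟩ := v
  simp only [pv, Prod.mk.injEq] at h ⊢
  omega

theorem pf_inj {u v : Vtx} (h : pf u = pf v) : u = v := by
  obtain ⟨x, y⟩ := u
  obtain ⟨x', y'⟩ := v
  simp only [pf, Prod.mk.injEq] at h ⊢
  omega

theorem pv_ne_pf {u v : Vtx} (h : pv u = pf v) : False := by
  obtain ⟨x, y⟩ := u
  obtain ⟨x', y'⟩ := v
  simp only [pv, pf, Prod.mk.injEq] at h
  omega

/-! ## primal class -/

theorem reach_link {n : ℕ} {G : Set Edg} {u v : Vtx} (h : Reach (G ∩ Ss n) u v) :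
    Relation.EqvGen (SL n G) (pv u) (pv v) := by
  induction h with
  | refl => exact Relation.EqvGen.refl _
  | tail _ hs ih =>
    obtain ⟨e, he, h | h⟩ := hs
    · obtain ⟨rfl, rfl⟩ := h
      exact ih.trans _ _ _ (Relation.EqvGen.rel _ _ (SL.prim e he.1 he.2))
    · obtain ⟨rfl, rfl⟩ := h
      exact ih.trans _ _ _ ((Relation.EqvGen.rel _ _ (SL.prim e he.1 he.2)).symm)

theorem link_reach {n : ℕ} {G : Set Edg} {P Q : ℤ × ℤ} (h : Relation.EqvGen (SL n G) P Q) :
    (∀ u, P = pv u → ∃ v, Q = pv v ∧ Reach (G ∩ Ss n) u v) ∧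
    (∀ u, Q = pv u → ∃ v, P = pv v ∧ Reach (G ∩ Ss n) u v) := by
  induction h with
  | rel P Q h =>
    cases h with
    | prim e h1 h2 =>
      have ha : Adj (G ∩ Ss n) (src e) (tgt e) := ⟨e, ⟨h1, h2⟩, Or.inl ⟨rfl, rfl⟩⟩
      constructor
      · intro u hu
        have : src e = u := pv_inj hu
        subst this
        exact ⟨tgt e, rfl, Relation.ReflTransGen.single ha⟩
      · intro u hu
        have : tgt e = u := pv_inj hu
        subst this
        exact ⟨src e, rfl, Relation.ReflTransGen.single ha.symm⟩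
    | dual e h1 h2 =>
      exact ⟨fun u hu => (pv_ne_pf (v := src e) hu.symm).elim,
        fun u hu => (pv_ne_pf (v := tgt e) hu.symm).elim⟩
    | wallL s =>
      constructor
      · intro u hu; simp only [pv, Prod.mk.injEq] at hu; omega
      · intro u hu; simp only [pv, Prod.mk.injEq] at hu; omega
    | wallR s =>
      constructor
      · intro u hu; simp only [pv, Prod.mk.injEq] at hu; omega
      · intro u hu; simp only [pv, Prod.mk.injEq] at hu; omega
  | refl P => exact ⟨fun u hu => ⟨u, hu, Reach.refl _ _⟩, fun u hu => ⟨u, hu, Reach.refl _ _⟩⟩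
  | symm P Q _ ih => exact ⟨ih.2, ih.1⟩
  | trans P Q R _ _ ih1 ih2 =>
    constructor
    · intro u hu
      obtain ⟨v, hv, h1⟩ := ih1.1 u hu
      obtain ⟨w, hw, h2⟩ := ih2.1 v hv
      exact ⟨w, hw, h1.trans h2⟩
    · intro u hu
      obtain ⟨v, hv, h1⟩ := ih2.2 u hu
      obtain ⟨w, hw, h2⟩ := ih1.2 v hv
      exact ⟨w, hw, h1.trans h2⟩

theorem reach_iff {n : ℕ} {G : Set Edg} {u v : Vtx} :
    Relation.EqvGen (SL n G) (pv u) (pv v) ↔ Reach (G ∩ Ss n) u v := by
  refine ⟨fun h => ?_, reach_link⟩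
  obtain ⟨w, hw, h1⟩ := (link_reach h).1 u rfl
  rw [pv_inj hw]; exact h1

/-! ## dual class -/

theorem dreach_link {n : ℕ} {G : Set Edg} {u v : Vtx} (h : Reach (dlq n G) u v) :
    Relation.EqvGen (SL n G) (pf u) (pf v) := by
  induction h with
  | refl => exact Relation.EqvGen.refl _
  | tail _ hs ih =>
    obtain ⟨e, he, h | h⟩ := hs
    · obtain ⟨rfl, rfl⟩ := h
      exact ih.trans _ _ _ (Relation.EqvGen.rel _ _ (SL.dual e he.2 he.1))
    · obtain ⟨rfl, rfl⟩ := h
      exact ih.trans _ _ _ ((Relation.EqvGen.rel _ _ (SL.dual e he.2 he.1)).symm)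

/-- the cluster of the face contains no wall face -/
def NW (n : ℕ) (G : Set Edg) (u : Vtx) : Prop := ∀ v, Wl n v → ¬ Reach (dlq n G) u v

theorem NW.of_reach {n : ℕ} {G : Set Edg} {u v : Vtx} (h : NW n G u) (hr : Reach (dlq n G) u v) :
    NW n G v := fun w hw h2 => h w hw (hr.trans h2)

theorem link_dreach {n : ℕ} {G : Set Edg} {P Q : ℤ × ℤ} (h : Relation.EqvGen (SL n G) P Q) :
    (∀ u, P = pf u → NW n G u → ∃ v, Q = pf v ∧ Reach (dlq n G) u v) ∧
    (∀ u, Q = pf u → NW n G u → ∃ v, P = pf v ∧ Reach (dlq n G) u v) := by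
  induction h with
  | rel P Q h =>
    cases h with
    | prim e h1 h2 =>
      exact ⟨fun u hu => (pv_ne_pf (u := src e) hu).elim,
        fun u hu => (pv_ne_pf (u := tgt e) hu).elim⟩
    | dual e h1 h2 =>
      have ha : Adj (dlq n G) (src e) (tgt e) := ⟨e, ⟨h2, h1⟩, Or.inl ⟨rfl, rfl⟩⟩
      constructor
      · intro u hu _
        have : src e = u := pf_inj hu
        subst this
        exact ⟨tgt e, rfl, Relation.ReflTransGen.single ha⟩
      · intro u hu _
        have : tgt e = u := pf_inj hu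
        subst this
        exact ⟨src e, rfl, Relation.ReflTransGen.single ha.symm⟩
    | wallL s =>
      constructor
      · intro u hu hnw
        refine (hnw u ?_ (Reach.refl _ _)).elim
        simp only [pf, Prod.mk.injEq] at hu
        refine ⟨by omega, Or.inl (by omega)⟩
      · intro u hu hnw
        refine (hnw u ?_ (Reach.refl _ _)).elim
        simp only [pf, Prod.mk.injEq] at hu
        refine ⟨by omega, Or.inl (by omega)⟩
    | wallR s =>
      constructor
      · intro u hu hnw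
        refine (hnw u ?_ (Reach.refl _ _)).elim
        simp only [pf, Prod.mk.injEq] at hu
        refine ⟨by omega, Or.inr (by omega)⟩
      · intro u hu hnw
        refine (hnw u ?_ (Reach.refl _ _)).elim
        simp only [pf, Prod.mk.injEq] at hu
        refine ⟨by omega, Or.inr (by omega)⟩
  | refl P => exact ⟨fun u hu _ => ⟨u, hu, Reach.refl _ _⟩, fun u hu _ => ⟨u, hu, Reach.refl _ _⟩⟩
  | symm P Q _ ih => exact ⟨ih.2, ih.1⟩
  | trans P Q R _ _ ih1 ih2 =>
    constructor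
    · intro u hu hn
      obtain ⟨v, hv, h1⟩ := ih1.1 u hu hn
      obtain ⟨w, hw, h2⟩ := ih2.1 v hv (hn.of_reach h1)
      exact ⟨w, hw, h1.trans h2⟩
    · intro u hu hn
      obtain ⟨v, hv, h1⟩ := ih2.2 u hu hn
      obtain ⟨w, hw, h2⟩ := ih1.2 v hv (hn.of_reach h1)
      exact ⟨w, hw, h1.trans h2⟩

theorem dreach_of {n : ℕ} {G : Set Edg} {u v : Vtx} (hn : NW n G u)
    (h : Relation.EqvGen (SL n G) (pf u) (pf v)) : Reach (dlq n G) u v := by
  obtain ⟨w, hw, h1⟩ := (link_dreach h).1 u rfl hn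
  rw [pf_inj hw]; exact h1

theorem wallL_conn (n : ℕ) (G : Set Edg) (s : ℕ) :
    Relation.EqvGen (SL n G) ((0 : ℤ), ((2 * s : ℕ) : ℤ)) (0, 0) := by
  induction s with
  | zero => exact Relation.EqvGen.refl _
  | succ s ih =>
    have h := Relation.EqvGen.rel _ _ (SL.wallL (n := n) (G := G) s)
    have h2 : ((0 : ℤ), ((2 * (s + 1) : ℕ) : ℤ)) = (0, 2 * (s : ℤ) + 2) := by
      simp only [Prod.mk.injEq, true_and]; push_cast; ring
    rw [h2]
    have h3 : ((0 : ℤ), ((2 * s : ℕ) : ℤ)) = (0, 2 * (s : ℤ)) := by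
      simp only [Prod.mk.injEq, true_and]; push_cast; ring
    rw [h3] at ih
    exact h.symm.trans _ _ _ ih

theorem wallR_conn (n : ℕ) (G : Set Edg) (s : ℕ) :
    Relation.EqvGen (SL n G) (2 * (n : ℤ) + 2, ((2 * s : ℕ) : ℤ)) (2 * n + 2, 0) := by
  induction s with
  | zero => exact Relation.EqvGen.refl _
  | succ s ih =>
    have h := Relation.EqvGen.rel _ _ (SL.wallR (n := n) (G := G) s)
    have h2 : (2 * (n : ℤ) + 2, ((2 * (s + 1) : ℕ) : ℤ)) = (2 * (n : ℤ) + 2, 2 * (s : ℤ) + 2) := by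
      simp only [Prod.mk.injEq, true_and]; push_cast; ring
    rw [h2]
    have h3 : (2 * (n : ℤ) + 2, ((2 * s : ℕ) : ℤ)) = (2 * (n : ℤ) + 2, 2 * (s : ℤ)) := by
      simp only [Prod.mk.injEq, true_and]; push_cast; ring
    rw [h3] at ih
    exact h.symm.trans _ _ _ ih

/-- wall faces are linked to the corners -/
theorem wall_conn {n : ℕ} {G : Set Edg} {v : Vtx} (hv : Wl n v) :
    Relation.EqvGen (SL n G) (pf v) (0, 0) ∨ Relation.EqvGen (SL n G) (pf v) (2 * (n : ℤ) + 2, 0) := by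
  obtain ⟨x, y⟩ := v
  obtain ⟨h1, h2 | h2⟩ := hv
  · left
    simp only at h1 h2
    have h := wallL_conn n G ((x - y).toNat / 2)
    have h3 : pf (x, y) = (0, ((2 * ((x - y).toNat / 2) : ℕ) : ℤ)) := by
      simp only [pf, Prod.mk.injEq]
      constructor <;> omega
    rw [h3]; exact h
  · right
    simp only at h1 h2
    have h := wallR_conn n G ((x - y).toNat / 2)
    have h3 : pf (x, y) = (2 * (n : ℤ) + 2, ((2 * ((x - y).toNat / 2) : ℕ) : ℤ)) := by
      simp only [pf, Prod.mk.injEq]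
      constructor <;> omega
    rw [h3]; exact h

theorem hgt_nonneg {w : Word} (hw : Dyck w) (k : ℕ) : 0 ≤ hgt w k := by
  have := Pool.Agent.H988R2.Perc.dyck_prefix hw k
  unfold hgt
  omega

theorem hgt_zero (w : Word) : hgt w 0 = 0 := by
  simp [hgt]

theorem hgt_len {w : Word} (hw : Dyck w) : hgt w w.length = 0 := by
  have := Pool.Agent.H988R2.Perc.dyck_count hw
  unfold hgt
  rw [List.take_length]
  omega

/-- the two outer faces are joined -/
theorem fc_end {w : Word} (hw : Dyck w) {c : ℕ} (h : Fc w c w.length) : Fc w c 0 := by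
  have h0 : hgt w c = 0 := by rw [h.1, hgt_len hw]
  refine ⟨by rw [h0, hgt_zero], fun d _ _ => ?_⟩
  rw [h0]; exact hgt_nonneg hw d

theorem pt_cv (i : ℕ) : (((2 * i + 1 : ℕ) : ℤ), (0 : ℤ)) = pv (cv i) := by
  simp only [pv, cv, Prod.mk.injEq]
  constructor <;> omega

theorem pt_cw {n i : ℕ} (hi : i ≤ n) : (((2 * n + 2 - (2 * i + 1) : ℕ) : ℤ), (0 : ℤ)) = pv (cw n i) := by
  simp only [pv, cw, Prod.mk.injEq]
  constructor <;> omega

theorem pf_cv (i : ℕ) : (((2 * i + 2 : ℕ) : ℤ), (0 : ℤ)) = pf (cv i) := by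
  simp only [pf, cv, Prod.mk.injEq]
  constructor <;> omega

theorem pf_cw {n i : ℕ} (hi : i + 1 ≤ n) :
    (((2 * n + 2 - (2 * i + 2) : ℕ) : ℤ), (0 : ℤ)) = pf (cw n (i + 1)) := by
  simp only [pf, cw, Prod.mk.injEq]
  constructor <;> push_cast <;> omega

theorem pf_corner : ((0 : ℤ), (0 : ℤ)) = pf (-1, -1) := by
  simp [pf]

theorem core {n m : ℕ} {G : Set Edg} {w : Word} (h2 : 2 ≤ m) (hm : m ≤ n + 1)
    (hdyck : Dyck w) (hlen : w.length = 2 * n + 2)
    (hF : ∀ a b : ℕ, a ≤ 2 * n + 2 → b ≤ 2 * n + 2 →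
      (Fc w a b ↔ Relation.EqvGen (SL n G) ((a : ℤ), 0) ((b : ℤ), 0)))
    (hO : OC m w ↔ Gd m w) (hE : EC m w ↔ Gd m w) :
    (P0 n m G ↔ Gd m w) ∧ (P1 n m G ↔ Gd m w) := by
  rw [← hO]
  constructor
  · -- the primal class
    have e1 : ∀ i j : ℕ, 2 * i + 1 ≤ 2 * n + 2 → 2 * j + 1 ≤ 2 * n + 2 →
        (Fc w (2 * i + 1) (2 * j + 1) ↔ Reach (G ∩ Ss n) (cv i) (cv j)) := by
      intro i j hi hj
      rw [hF _ _ hi hj, pt_cv, pt_cv, reach_iff]
    have e2 : ∀ i j : ℕ, 2 * i + 1 ≤ 2 * n + 2 → 2 * j + 1 ≤ 2 * n + 2 →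
        (Fc w (2 * i + 1) (w.length - (2 * j + 1)) ↔ Reach (G ∩ Ss n) (cv i) (cw n j)) := by
      intro i j hi hj
      rw [hlen, hF _ _ hi (by omega), pt_cv, pt_cw (by omega), reach_iff]
    constructor
    · rintro ⟨a1, a2, a3⟩
      refine ⟨?_, ?_, ?_⟩
      · intro c d hc hd hcm hdm hne
        obtain ⟨i, rfl⟩ : ∃ i, c = 2 * i + 1 := ⟨c / 2, by omega⟩
        obtain ⟨j, rfl⟩ : ∃ j, d = 2 * j + 1 := ⟨d / 2, by omega⟩
        rw [e1 i j (by omega) (by omega)]
        exact a1 i j (by omega) (by omega) (by omega)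
      · intro c hc hcm
        obtain ⟨i, rfl⟩ : ∃ i, c = 2 * i + 1 := ⟨c / 2, by omega⟩
        obtain ⟨j, hj, hr⟩ := a2 i (by omega)
        exact ⟨2 * j + 1, by omega, by omega, (e2 i j (by omega) (by omega)).2 hr⟩
      · intro hmo c d hc hcm hd hmd hdl
        obtain ⟨i, rfl⟩ : ∃ i, c = 2 * i + 1 := ⟨c / 2, by omega⟩
        obtain ⟨j, rfl⟩ : ∃ j, d = 2 * j + 1 := ⟨d / 2, by omega⟩
        rw [e1 i j (by omega) (by omega)]
        exact a3 hmo i j (by omega) (by omega) (by omega)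
    · rintro ⟨a1, a2, a3⟩
      refine ⟨?_, ?_, ?_⟩
      · intro i j hi hj hne
        rw [← e1 i j (by omega) (by omega)]
        exact a1 _ _ (by omega) (by omega) (by omega) (by omega) (by omega)
      · intro i hi
        obtain ⟨d, hd, hdm, hr⟩ := a2 (2 * i + 1) (by omega) (by omega)
        obtain ⟨j, rfl⟩ : ∃ j, d = 2 * j + 1 := ⟨d / 2, by omega⟩
        exact ⟨j, by omega, (e2 i j (by omega) (by omega)).1 hr⟩
      · intro hmo i j hi hj hjn
        rw [← e1 i j (by omega) (by omega)]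
        exact a3 hmo _ _ (by omega) (by omega) (by omega) (by omega) (by omega)
  · -- the dual class
    rw [hO, ← hE]
    have e1 : ∀ i j : ℕ, 2 * i + 2 ≤ 2 * n + 2 → 2 * j + 2 ≤ 2 * n + 2 →
        (Fc w (2 * i + 2) (2 * j + 2) ↔ Relation.EqvGen (SL n G) (pf (cv i)) (pf (cv j))) := by
      intro i j hi hj
      rw [hF _ _ hi hj, pf_cv, pf_cv]
    have e2 : ∀ i j : ℕ, 2 * i + 2 ≤ 2 * n + 2 → 2 * j + 2 ≤ 2 * n →
        (Fc w (2 * i + 2) (w.length - (2 * j + 2)) ↔
          Relation.EqvGen (SL n G) (pf (cv i)) (pf (cw n (j + 1)))) := by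
      intro i j hi hj
      rw [hlen, hF _ _ hi (by omega), pf_cv, pf_cw (by omega)]
    have e0 : ∀ j : ℕ, 2 * j + 2 ≤ 2 * n + 2 →
        (Fc w 0 (2 * j + 2) ↔ Relation.EqvGen (SL n G) (pf (cv j)) (pf (-1, -1))) := by
      intro j hj
      rw [hF _ _ (by omega) hj, pf_cv, Nat.cast_zero, pf_corner]
      exact ⟨fun h => h.symm, fun h => h.symm⟩
    have e0' : ∀ i : ℕ, 2 * i + 2 ≤ 2 * n + 2 →
        (Fc w (2 * i + 2) 0 ↔ Relation.EqvGen (SL n G) (pf (cv i)) (pf (-1, -1))) := by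
      intro i hi
      rw [hF _ _ hi (by omega), pf_cv, Nat.cast_zero, pf_corner]
    have hend : ∀ i : ℕ, 2 * i + 2 ≤ 2 * n + 2 → ∀ v, Wl n v →
        Relation.EqvGen (SL n G) (pf (cv i)) (pf v) →
        Relation.EqvGen (SL n G) (pf (cv i)) (pf (-1, -1)) := by
      intro i hi v hv h
      rcases wall_conn (G := G) hv with h1 | h1
      · rw [← pf_corner]; exact h.trans _ _ _ h1
      · rw [← e0' i hi]
        apply fc_end hdyck
        rw [hlen, hF _ _ hi le_rfl, pf_cv]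
        have h3 : (((2 * n + 2 : ℕ) : ℤ), (0 : ℤ)) = (2 * (n : ℤ) + 2, 0) := by
          push_cast; rfl
        rw [h3]
        exact h.trans _ _ _ h1
    have hcorner : Wl n (-1, -1) := ⟨le_rfl, Or.inl (by norm_num)⟩
    constructor
    · rintro ⟨a1, a2, a3, a4⟩
      have nw : ∀ i, i < (m - 1) / 2 → NW n G (cv i) := fun i hi v hv => a3 i v hi hv
      refine ⟨?_, ?_, ?_, ?_⟩
      · intro c d hc hd hc1 hd1 hcm hdm hne
        obtain ⟨i, rfl⟩ : ∃ i, c = 2 * i + 2 := ⟨c / 2 - 1, by omega⟩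
        obtain ⟨j, rfl⟩ : ∃ j, d = 2 * j + 2 := ⟨d / 2 - 1, by omega⟩
        rw [e1 i j (by omega) (by omega)]
        exact fun h => a1 i j (by omega) (by omega) (by omega) (dreach_of (nw i (by omega)) h)
      · intro c hc hc1 hcm
        obtain ⟨i, rfl⟩ : ∃ i, c = 2 * i + 2 := ⟨c / 2 - 1, by omega⟩
        obtain ⟨j, hj, hr⟩ := a2 i (by omega)
        exact ⟨2 * j + 2, by omega, by omega, by omega,
          (e2 i j (by omega) (by omega)).2 (dreach_link hr)⟩
      · intro c hc hc1 hcm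
        obtain ⟨i, rfl⟩ : ∃ i, c = 2 * i + 2 := ⟨c / 2 - 1, by omega⟩
        rw [e0' i (by omega)]
        exact fun h => a3 i _ (by omega) hcorner (dreach_of (nw i (by omega)) h)
      · intro hme c d hc hcm hd hmd hdl
        obtain ⟨j, rfl⟩ : ∃ j, d = 2 * j + 2 := ⟨d / 2 - 1, by omega⟩
        obtain ⟨b1, b2⟩ := a4 hme j (by omega) (by omega)
        rcases Nat.eq_zero_or_pos c with rfl | hc0
        · rw [e0 j (by omega)]
          have nwj : NW n G (cv j) := fun v hv hr => b2 v hv hr.symm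
          exact fun h => nwj _ hcorner (dreach_of nwj h)
        · obtain ⟨i, rfl⟩ : ∃ i, c = 2 * i + 2 := ⟨c / 2 - 1, by omega⟩
          rw [e1 i j (by omega) (by omega)]
          exact fun h => b1 i (by omega) (dreach_of (nw i (by omega)) h)
    · rintro ⟨a1, a2, a3, a4⟩
      have nw : ∀ i, i < (m - 1) / 2 → NW n G (cv i) := by
        intro i hi v hv hr
        have h1 := hend i (by omega) v hv (dreach_link hr)
        rw [← e0' i (by omega)] at h1
        exact a3 (2 * i + 2) (by omega) (by omega) (by omega) h1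
      refine ⟨?_, ?_, ?_, ?_⟩
      · intro i j hi hj hne hr
        exact a1 (2 * i + 2) (2 * j + 2) (by omega) (by omega) (by omega) (by omega) (by omega)
          (by omega) (by omega) ((e1 i j (by omega) (by omega)).2 (dreach_link hr))
      · intro i hi
        obtain ⟨d, hd, hd1, hdm, hr⟩ := a2 (2 * i + 2) (by omega) (by omega) (by omega)
        obtain ⟨j, rfl⟩ : ∃ j, d = 2 * j + 2 := ⟨d / 2 - 1, by omega⟩
        exact ⟨j, by omega, dreach_of (nw i hi) ((e2 i j (by omega) (by omega)).1 hr)⟩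
      · exact fun i v hi hv => nw i hi v hv
      · intro hme j hj hjn
        constructor
        · intro i hi hr
          exact a4 hme (2 * i + 2) (2 * j + 2) (by omega) (by omega) (by omega) (by omega) (by omega)
            ((e1 i j (by omega) (by omega)).2 (dreach_link hr))
        · intro v hv hr
          have h1 := hend j (by omega) v hv (dreach_link hr.symm)
          rw [← e0 j (by omega)] at h1
          exact a4 hme 0 (2 * j + 2) (by omega) (by omega) (by omega) (by omega) (by omega) h1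

end TPG

open TPG in
theorem t_PG : S_OW → S_SM → S_PG := by
  intro hOW hSM n m K G h2 hm hG
  obtain ⟨hLP, hF⟩ := hSM n K G hG
  obtain ⟨hlen, hdyck⟩ := Pool.Agent.H988R2.Perc.mem_LP.1 hLP
  obtain ⟨hO, hE⟩ := hOW m _ h2 hdyck (by omega)
  exact core h2 hm hdyck hlen hF hO hE

theorem t_HG : S_PG → S_HG := by
  intro hPG n m M G h2 hm hG
  obtain ⟨h3, h4⟩ := hPG n m M G h2 hm (fun e he => by have := hG e he; omega)
  rw [h3, h4]

end Pool.Agent.W808.KC
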