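import Pool.Agent.W808.KC.Stm
import Pool.Agent.H160R2.MU.T_SEPA

/-! SEPA at the corners: class 1, different clusters are far from each other at the boundary of
the tubes. -/

set_option autoImplicit false

namespace Pool.Agent.W808.KC
open H974 H906.Cyl
open H12S (Dir hbE segD rimE H4 Crs Nr sqE fl)
open Pool.Agent.H160R2.ML (nm)
open Pool.Agent.H160R2.MU (EP inSq PC Cc)
open Pool.Agent.W808.HU (du)

namespace TSEPA

open Pool.Agent.H160R2.MU.TSEPA (div_iff fl_iff EP_iff sh fl_sh red_eq pe pe_eq mem_Cc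
  EP_union hseg vseg btw adj_dist QQ QQ_div nz nz_QQ tc hc inn pj inn_c ext_c adj_c bal
  hb_iff seg_iff rim_iff bp dist_c cr1 cr2 col near_line line_eq)

/-- faces of the boxes -/
def Bv (N r : ℕ) (v : Vtx) : Prop := fl r v ∈ BxQ N

theorem BxQ_sh (N : ℕ) (q : ℤ) (z : ℤ × ℤ) : sh (q * (16 * N : ℕ)) z ∈ BxQ N ↔ z ∈ BxQ N := by
  have key : ∀ (q : ℤ) (z : ℤ × ℤ), z ∈ BxQ N → sh (q * (16 * N : ℕ)) z ∈ BxQ N := by
    rintro q z ⟨s, hs⟩
    refine ⟨s + 2 * q, ?_⟩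
    simp only [sh]
    have e1 : z.1 + q * ((16 * N : ℕ) : ℤ) - (s + 2 * q) * (8 * N) = z.1 - s * (8 * N) := by
      push_cast; ring
    have e2 : z.2 + q * ((16 * N : ℕ) : ℤ) - (s + 2 * q) * (8 * N) = z.2 - s * (8 * N) := by
      push_cast; ring
    rw [e1, e2]
    exact hs
  constructor
  · intro h
    have := key (-q) _ h
    have e : sh (-q * (16 * N : ℕ)) (sh (q * (16 * N : ℕ)) z) = z := by
      simp only [sh]
      ext <;> simp only <;> ring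
    rwa [e] at this
  · exact key q z

theorem P_sh {N : ℕ} {P : Set (ℤ × ℤ)}
    (hP : ∀ (z : ℤ × ℤ) (s : ℤ), z ∈ P ↔ (z.1 - s * (8 * N), z.2 - s * (8 * N)) ∈ P)
    (q : ℤ) (z : ℤ × ℤ) : sh (q * (16 * N : ℕ)) z ∈ P ↔ z ∈ P := by
  rw [hP z (-(2 * q))]
  have e : (z.1 - -(2 * q) * (8 * N), z.2 - -(2 * q) * (8 * N)) = sh (q * (16 * N : ℕ)) z := by
    simp only [sh]
    ext <;> push_cast <;> ring
  rw [e]

/-- faces of the strip -/
def Rg (n : ℕ) (v : Vtx) : Prop := v.2 ≤ v.1 ∧ -2 ≤ v.1 + v.2 ∧ v.1 + v.2 ≤ 2 * n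

/-- dual edges of the strip -/
def Sd (n : ℕ) : Set Edg := {g | du g ∈ Ss n}

theorem pe_sum (g : Edg) : (pe g).1 + (pe g).2.1 = g.1 + g.2.1 + 1 := by
  obtain ⟨x, y, b⟩ := g
  cases b
  · have e : pe (x, y, false) = (x, y + 1, true) := by
      unfold pe edz dco
      simp only [Bool.false_eq_true, if_false]
      rw [if_pos (by omega)]
      simp only [Prod.mk.injEq, and_true]
      omega
    rw [e]
    simp only
    ring
  · have e : pe (x, y, true) = (x + 1, y, false) := by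
      unfold pe edz dco
      simp only [if_true]
      rw [if_neg (by omega)]
      simp only [Prod.mk.injEq, and_true]
      omega
    rw [e]
    simp only
    ring

theorem Sd_iff (n : ℕ) (g : Edg) : g ∈ Sd n ↔ 0 ≤ dco g ∧ -1 ≤ g.1 + g.2.1 + 1 ∧
    g.1 + g.2.1 + 1 ≤ 2 * n := by
  obtain ⟨p1, p2, p3⟩ := pe_eq g
  have hd : du g = pe g := rfl
  unfold Sd Ss
  rw [Set.mem_setOf_eq, Set.mem_setOf_eq, hd, p3, pe_sum]

theorem Sd_of {n : ℕ} (g : Edg) (h1 : Rg n (src g)) (h2 : Rg n (tgt g)) : g ∈ Sd n := by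
  rw [Sd_iff]
  obtain ⟨a1, a2, a3⟩ := h1
  obtain ⟨b1, b2, b3⟩ := h2
  obtain ⟨x, y, b⟩ := g
  cases b
  · simp only [src_mk, tgt_false] at a1 a2 a3 b1 b2 b3
    simp only [dco, Bool.false_eq_true, if_false]
    omega
  · simp only [src_mk, tgt_true] at a1 a2 a3 b1 b2 b3
    simp only [dco, if_true]
    omega

theorem Rg_src {n : ℕ} {g : Edg} (h : g ∈ Sd n) : Rg n (src g) ∧ Rg n (tgt g) := by
  rw [Sd_iff] at h
  obtain ⟨x, y, b⟩ := g
  unfold Rg
  cases b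
  · simp only [dco, Bool.false_eq_true, if_false] at h
    simp only [src_mk, tgt_false]
    omega
  · simp only [dco, if_true] at h
    simp only [src_mk, tgt_true]
    omega

section L

variable {N r : ℕ}

/-- the line between a tube face and its neighbour in a box -/
theorem lineH (hr : 1 ≤ r) {U : Vtx} (hB : ¬ Bv N r U) {d : Dir} (hd : d = Dir.dn ∨ d = Dir.up)
    (hI : Bv N r (inn d U)) : ∃ j : ℤ, |U.2 - r * j| ≤ 1 ∧
      ((d = Dir.dn ∧ U.2 = r * j ∧ fl r U = (U.1 / (r : ℤ), j) ∧ fl r (inn d U) = (U.1 / (r : ℤ), j - 1)) ∨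
      (d = Dir.up ∧ U.2 + 1 = r * j ∧ fl r U = (U.1 / (r : ℤ), j - 1) ∧
        fl r (inn d U) = (U.1 / (r : ℤ), j))) := by
  rcases hd with rfl | rfl
  · have hne : (U.2 - 1) / (r : ℤ) ≠ U.2 / r := by
      intro he
      apply hB
      have : fl r U = fl r (inn Dir.dn U) := by
        unfold H12S.fl inn
        simp only [he]
      unfold Bv
      rw [this]
      exact hI
    obtain ⟨j, h1, h2, h3⟩ := cr1 hr hne
    refine ⟨j, by rw [abs_le]; omega, Or.inl ⟨rfl, h1, ?_, ?_⟩⟩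
    · unfold H12S.fl
      simp only [h2]
    · unfold H12S.fl inn
      simp only [h3]
  · have hne : (U.2 + 1) / (r : ℤ) ≠ U.2 / r := by
      intro he
      apply hB
      have : fl r U = fl r (inn Dir.up U) := by
        unfold H12S.fl inn
        simp only [he]
      unfold Bv
      rw [this]
      exact hI
    obtain ⟨j, h1, h2, h3⟩ := cr2 hr hne
    refine ⟨j, by rw [abs_le]; omega, Or.inr ⟨rfl, h1, ?_, ?_⟩⟩
    · unfold H12S.fl
      simp only [h2]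
    · unfold H12S.fl inn
      simp only [h3]

theorem lineV (hr : 1 ≤ r) {U : Vtx} (hB : ¬ Bv N r U) {d : Dir} (hd : d = Dir.lf ∨ d = Dir.rt)
    (hI : Bv N r (inn d U)) : ∃ i : ℤ, |U.1 - r * i| ≤ 1 ∧
      ((d = Dir.lf ∧ U.1 = r * i ∧ fl r U = (i, U.2 / (r : ℤ)) ∧ fl r (inn d U) = (i - 1, U.2 / (r : ℤ))) ∨
      (d = Dir.rt ∧ U.1 + 1 = r * i ∧ fl r U = (i - 1, U.2 / (r : ℤ)) ∧
        fl r (inn d U) = (i, U.2 / (r : ℤ)))) := by
  rcases hd with rfl | rfl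
  · have hne : (U.1 - 1) / (r : ℤ) ≠ U.1 / r := by
      intro he
      apply hB
      have : fl r U = fl r (inn Dir.lf U) := by
        unfold H12S.fl inn
        simp only [he]
      unfold Bv
      rw [this]
      exact hI
    obtain ⟨j, h1, h2, h3⟩ := cr1 hr hne
    refine ⟨j, by rw [abs_le]; omega, Or.inl ⟨rfl, h1, ?_, ?_⟩⟩
    · unfold H12S.fl
      simp only [h2]
    · unfold H12S.fl inn
      simp only [h3]
  · have hne : (U.1 + 1) / (r : ℤ) ≠ U.1 / r := by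
      intro he
      apply hB
      have : fl r U = fl r (inn Dir.rt U) := by
        unfold H12S.fl inn
        simp only [he]
      unfold Bv
      rw [this]
      exact hI
    obtain ⟨j, h1, h2, h3⟩ := cr2 hr hne
    refine ⟨j, by rw [abs_le]; omega, Or.inr ⟨rfl, h1, ?_, ?_⟩⟩
    · unfold H12S.fl
      simp only [h2]
    · unfold H12S.fl inn
      simp only [h3]

theorem inBox {n : ℕ} (hr : 1 ≤ r) (hn : n = 8 * N * r) (v : Vtx) (s : ℤ)
    (h1 : -((N : ℤ) * r) ≤ v.1 - s * n) (h2 : v.1 - s * n < N * r)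
    (h3 : -((N : ℤ) * r) ≤ v.2 - s * n) (h4 : v.2 - s * n < N * r) : Bv N r v := by
  have hr0 : (0 : ℤ) < r := by exact_mod_cast hr
  have hn' : (n : ℤ) = 8 * N * r := by exact_mod_cast hn
  obtain ⟨⟨a1, a2⟩, a3, a4⟩ := (fl_iff r hr v _).1 rfl
  refine ⟨s, ?_⟩
  rw [hn'] at h1 h2 h3 h4
  have e1 : 0 < (r : ℤ) * ((fl r v).1 + 1 - s * (8 * N) + N) := by nlinarith
  have e2 : 0 < (r : ℤ) * (s * (8 * N) + N - (fl r v).1) := by nlinarith
  have e3 : 0 < (r : ℤ) * ((fl r v).2 + 1 - s * (8 * N) + N) := by nlinarith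
  have e4 : 0 < (r : ℤ) * (s * (8 * N) + N - (fl r v).2) := by nlinarith
  have f1 := (mul_pos_iff_of_pos_left hr0).1 e1
  have f2 := (mul_pos_iff_of_pos_left hr0).1 e2
  have f3 := (mul_pos_iff_of_pos_left hr0).1 e3
  have f4 := (mul_pos_iff_of_pos_left hr0).1 e4
  refine ⟨by linarith, by linarith, by linarith, by linarith⟩

end L

section K

variable {N r k : ℕ} {c : Fin k → ℤ} {n M : ℕ} {F : Finset Edg}

/-- faces of boxes and tubes -/
def Pv (N r k : ℕ) (c : Fin k → ℤ) (v : Vtx) : Prop := fl r v ∈ BxQ N ∪ CrC N k c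

theorem red_EPB (hr : 1 ≤ r) (hn : n = 8 * N * r) (e : Edg) :
    red (2 * n) e ∈ EP r (BxQ N) ↔ fl r (dsrc e) ∈ BxQ N ∨ fl r (dtgt e) ∈ BxQ N := by
  obtain ⟨q, h1, h2⟩ := red_eq (2 * n) e
  have hn2 : 2 * n = (16 * N) * r := by rw [hn]; ring
  rw [hn2] at h1 h2 ⊢
  rw [EP_iff r hr, h1, h2, fl_sh r hr, fl_sh r hr, BxQ_sh, BxQ_sh]

theorem red_EPP (hr : 1 ≤ r) (hn : n = 8 * N * r)
    (hP : ∀ (z : ℤ × ℤ) (s : ℤ), z ∈ BxQ N ∪ CrC N k c ↔ (z.1 - s * (8 * N), z.2 - s * (8 * N)) ∈ BxQ N ∪ CrC N k c)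
    (e : Edg) : red (2 * n) e ∈ EP r (BxQ N ∪ CrC N k c) ↔
      fl r (dsrc e) ∈ BxQ N ∪ CrC N k c ∨ fl r (dtgt e) ∈ BxQ N ∪ CrC N k c := by
  obtain ⟨q, h1, h2⟩ := red_eq (2 * n) e
  have hn2 : 2 * n = (16 * N) * r := by rw [hn]; ring
  rw [hn2] at h1 h2 ⊢
  rw [EP_iff r hr, h1, h2, fl_sh r hr, fl_sh r hr, P_sh hP, P_sh hP]

theorem mem_FA (e : Edg) : e ∈ FA N r k c n M F ↔ e ∈ CE (2 * n) M ∧ ((e ∈ EP r (BxQ N) ∧ e ∈ F) ∨
    (e ∉ EP r (BxQ N) ∧ e ∈ EP r (BxQ N ∪ CrC N k c))) := by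
  classical
  unfold FA
  rw [Finset.mem_filter, EP_union]
  tauto

/-- abbreviation for the connection -/
abbrev RA (N r k : ℕ) (c : Fin k → ℤ) (n M : ℕ) (F : Finset Edg) : Vtx → Vtx → Prop :=
  Reach (dlq n (per (2 * n) (FA N r k c n M F)))

/-- abbreviation for the planar configuration -/
abbrev KK (N r k : ℕ) (c : Fin k → ℤ) (n M : ℕ) (F : Finset Edg) : Set Edg :=
  Cc 1 (2 * n) M (FA N r k c n M F) ∩ Sd n

theorem K_iff0 (hr : 1 ≤ r) (hn0 : 0 < n) (hn : n = 8 * N * r)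
    (hP : ∀ (z : ℤ × ℤ) (s : ℤ), z ∈ BxQ N ∪ CrC N k c ↔ (z.1 - s * (8 * N), z.2 - s * (8 * N)) ∈ BxQ N ∪ CrC N k c)
    (g : Edg) : g ∈ Cc 1 (2 * n) M (FA N r k c n M F) ↔ -(M : ℤ) ≤ dco g ∧ dco g < M ∧
      ((Bv N r (src g) ∨ Bv N r (tgt g)) → red (2 * n) (pe g) ∉ F) ∧
      (¬ Bv N r (src g) → ¬ Bv N r (tgt g) → ¬ Pv N r k c (src g) ∧ ¬ Pv N r k c (tgt g)) := by
  obtain ⟨p1, p2, p3⟩ := pe_eq g
  rw [mem_Cc, mem_FA, red_EPB hr hn, red_EPP hr hn hP, p1, p2]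
  unfold Bv Pv
  constructor
  · rintro ⟨h1, h2, h3⟩
    have h4 : red (2 * n) (pe g) ∈ CE (2 * n) M :=
      red_mem (by omega) (by rw [p3]; exact h1) (by rw [p3]; exact h2)
    refine ⟨h1, h2, ?_, ?_⟩
    · intro h5 h6
      exact h3 ⟨h4, Or.inl ⟨h5, h6⟩⟩
    · intro h5 h6
      by_contra h7
      apply h3
      refine ⟨h4, Or.inr ⟨by tauto, by tauto⟩⟩
  · rintro ⟨h1, h2, h3, h4⟩
    refine ⟨h1, h2, ?_⟩
    rintro ⟨-, ⟨h5, h6⟩ | ⟨h5, h6⟩⟩
    · exact h3 h5 h6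
    · tauto

theorem K_iff (hr : 1 ≤ r) (hn0 : 0 < n) (hn : n = 8 * N * r)
    (hP : ∀ (z : ℤ × ℤ) (s : ℤ), z ∈ BxQ N ∪ CrC N k c ↔ (z.1 - s * (8 * N), z.2 - s * (8 * N)) ∈ BxQ N ∪ CrC N k c)
    (g : Edg) : g ∈ KK N r k c n M F ↔ g ∈ Sd n ∧ -(M : ℤ) ≤ dco g ∧ dco g < M ∧
      ((Bv N r (src g) ∨ Bv N r (tgt g)) → red (2 * n) (pe g) ∉ F) ∧
      (¬ Bv N r (src g) → ¬ Bv N r (tgt g) → ¬ Pv N r k c (src g) ∧ ¬ Pv N r k c (tgt g)) := by
  have h0 : g ∈ KK N r k c n M F ↔ g ∈ Sd n ∧ g ∈ Cc 1 (2 * n) M (FA N r k c n M F) := by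
    constructor
    · rintro ⟨h1, h2⟩; exact ⟨h2, h1⟩
    · rintro ⟨h1, h2⟩; exact ⟨h2, h1⟩
  rw [h0, K_iff0 hr hn0 hn hP]

theorem dco_src (g : Edg) : dco g = (src g).1 - (src g).2 ∨ dco g = (src g).1 - (src g).2 - 1 := by
  obtain ⟨x, y, b⟩ := g
  cases b <;> simp [dco, src]

theorem dco_lt (g : Edg) (v : Vtx) (K : ℤ) (hv : src g = v ∨ tgt g = v) (h : |v.1 - v.2| + 2 < K) :
    -K ≤ dco g ∧ dco g < K := by
  have h' := abs_le.1 (le_refl |v.1 - v.2|)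
  obtain ⟨x, y, b⟩ := g
  cases b
  · simp only [src_mk, tgt_false] at hv
    simp only [dco, Bool.false_eq_true, if_false]
    rcases hv with rfl | rfl <;> simp only at h h' <;> constructor <;> linarith [h'.1, h'.2]
  · simp only [src_mk, tgt_true] at hv
    simp only [dco, if_true]
    rcases hv with rfl | rfl <;> simp only at h h' <;> constructor <;> linarith [h'.1, h'.2]

end K

section K2

variable {N r k : ℕ} {c : Fin k → ℤ} {n M : ℕ}

theorem near_face (e : Edg) :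
    |(src e).1 - (tgt e).1| ≤ 1 ∧ |(src e).2 - (tgt e).2| ≤ 1 := by
  obtain ⟨x, y, b⟩ := e
  cases b <;> simp

theorem U_facts (hr : 1 ≤ r) {u : Vtx} (h : ∃ e : Edg, du e ∈ Ss n ∧ du e ∉ EP r (BxQ N) ∧
      du e ∈ EP r (CrC N k c) ∧ (src e = u ∨ tgt e = u)) :
    ¬ Bv N r u ∧ Rg n u ∧ ∃ U2 : Vtx, |u.1 - U2.1| ≤ 1 ∧ |u.2 - U2.2| ≤ 1 ∧ fl r U2 ∈ CrC N k c := by
  obtain ⟨e, h0, h1, h2, hw⟩ := h
  obtain ⟨p1, p2, p3⟩ := pe_eq e
  have hd : du e = pe e := rfl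
  have hS : e ∈ Sd n := h0
  rw [hd, EP_iff r hr, p1, p2] at h1 h2
  obtain ⟨n1, n2⟩ := near_face e
  have hB : ¬ Bv N r (src e) ∧ ¬ Bv N r (tgt e) := by
    unfold Bv
    tauto
  have hR := Rg_src hS
  refine ⟨?_, ?_, ?_⟩
  · rcases hw with hw | hw
    · exact hw ▸ hB.1
    · exact hw ▸ hB.2
  · rcases hw with hw | hw
    · exact hw ▸ hR.1
    · exact hw ▸ hR.2
  · rcases h2 with h | h
    · refine ⟨src e, ?_, ?_, h⟩
      · rcases hw with hw | hw <;> rw [← hw]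
        · simp
        · rw [abs_sub_comm]; exact n1
      · rcases hw with hw | hw <;> rw [← hw]
        · simp
        · rw [abs_sub_comm]; exact n2
    · refine ⟨tgt e, ?_, ?_, h⟩
      · rcases hw with hw | hw <;> rw [← hw]
        · exact n1
        · simp
      · rcases hw with hw | hw <;> rw [← hw]
        · exact n2
        · simp

theorem XA_facts (hr : 1 ≤ r) {p : Vtx} (h : XA N r k c n p) : ¬ Pv N r k c p ∨ (p.1 = p.2 ∨ Wl n p) := by
  rcases h with h | h | ⟨e, -, h1, h2, hw⟩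
  · exact Or.inr (Or.inl h)
  · exact Or.inr (Or.inr h)
  · left
    obtain ⟨p1, p2, p3⟩ := pe_eq e
    have hd : du e = pe e := rfl
    rw [hd, EP_iff r hr, p1, p2] at h1 h2
    unfold Pv
    rintro (h | h)
    · apply h1
      rcases hw with hw | hw <;> rw [← hw] at h
      · exact Or.inl h
      · exact Or.inr h
    · apply h2
      rcases hw with hw | hw <;> rw [← hw] at h
      · exact Or.inl h
      · exact Or.inr h

end K2

/-! ### the outer region -/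

section K3

variable {N r k : ℕ} {c : Fin k → ℤ} {n M : ℕ} {F : Finset Edg}

/-- the outer region -/
def R0 (N r k : ℕ) (c : Fin k → ℤ) (n : ℕ) (D : ℤ) (w : Vtx) : Prop :=
  ¬ Pv N r k c w ∧ |w.1 - w.2| ≤ D ∧ Rg n w

theorem Pv_of_Bv {v : Vtx} (h : Bv N r v) : Pv N r k c v := Or.inl h

theorem K_outer (hr : 1 ≤ r) (hn0 : 0 < n) (hn : n = 8 * N * r)
    (hP : ∀ (z : ℤ × ℤ) (s : ℤ), z ∈ BxQ N ∪ CrC N k c ↔ (z.1 - s * (8 * N), z.2 - s * (8 * N)) ∈ BxQ N ∪ CrC N k c)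
    {D : ℤ} (hD : D + 1 < M) (g : Edg) (h1 : R0 N r k c n D (src g)) (h2 : R0 N r k c n D (tgt g)) :
    g ∈ KK N r k c n M F ∩ {g | R0 N r k c n D (src g) ∧ R0 N r k c n D (tgt g)} := by
  refine ⟨?_, h1, h2⟩
  rw [K_iff hr hn0 hn hP]
  have h3 := h1.2.1
  rw [abs_le] at h3
  have h4 := dco_src g
  refine ⟨Sd_of g h1.2.2 h2.2.2, by omega, by omega, ?_, fun _ _ => ⟨h1.1, h2.1⟩⟩
  rintro (h | h)
  · exact absurd (Pv_of_Bv h) h1.1
  · exact absurd (Pv_of_Bv h) h2.1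

theorem Lsh (hr : 1 ≤ r) (hn0 : 0 < n) (hn : n = 8 * N * r)
    (hP : ∀ (z : ℤ × ℤ) (s : ℤ), z ∈ BxQ N ∪ CrC N k c ↔ (z.1 - s * (8 * N), z.2 - s * (8 * N)) ∈ BxQ N ∪ CrC N k c)
    {D : ℤ} (hD : D + 1 < M) (v v' : Vtx) (hv : ¬ Pv N r k c v) (hv' : ¬ Pv N r k c v')
    (hm : ¬ Pv N r k c (v'.1, v.2))
    (h1 : |v.1 / (r : ℤ) - v'.1 / r| ≤ 1) (h2 : |v.2 / (r : ℤ) - v'.2 / r| ≤ 1)
    (hd : |v.1 - v.2| + 4 * r ≤ D) (q1 : Rg n v) (q2 : Rg n v') (q3 : Rg n (v'.1, v.2)) :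
    Reach (KK N r k c n M F ∩ {g | R0 N r k c n D (src g) ∧ R0 N r k c n D (tgt g)}) v v' := by
  have a1 := adj_dist r hr h1
  have a2 := adj_dist r hr h2
  have hH : ∀ w : ℤ, min v.1 v'.1 ≤ w → w ≤ max v.1 v'.1 → R0 N r k c n D (w, v.2) := by
    intro w h3 h4
    refine ⟨?_, ?_, ?_⟩
    · rcases btw r hr h1 h3 h4 with h | h
      · have e : fl r (w, v.2) = fl r v := by
          unfold H12S.fl
          simp only [h]
        unfold Pv
        rw [e]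
        exact hv
      · have e : fl r (w, v.2) = fl r (v'.1, v.2) := by
          unfold H12S.fl
          simp only [h]
        unfold Pv
        rw [e]
        exact hm
    · simp only
      rw [abs_le] at a1 a2 ⊢
      have := abs_le.1 (le_refl |v.1 - v.2|)
      have h5 : |w - v.1| ≤ 2 * r := by
        rw [abs_le]
        rcases le_total v.1 v'.1 with h6 | h6
        · rw [min_eq_left h6] at h3; rw [max_eq_right h6] at h4
          constructor <;> linarith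
        · rw [min_eq_right h6] at h3; rw [max_eq_left h6] at h4
          constructor <;> linarith
      rw [abs_le] at h5
      constructor <;> linarith [this.1, this.2, h5.1, h5.2]
    · obtain ⟨b1, b2, b3⟩ := q1
      obtain ⟨b4, b5, b6⟩ := q3
      simp only at b4 b5 b6
      refine ⟨?_, ?_, ?_⟩ <;> simp only <;> omega
  have hV : ∀ w : ℤ, min v.2 v'.2 ≤ w → w ≤ max v.2 v'.2 → R0 N r k c n D (v'.1, w) := by
    intro w h3 h4
    refine ⟨?_, ?_, ?_⟩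
    · rcases btw r hr h2 h3 h4 with h | h
      · have e : fl r (v'.1, w) = fl r (v'.1, v.2) := by
          unfold H12S.fl
          simp only [h]
        unfold Pv
        rw [e]
        exact hm
      · have e : fl r (v'.1, w) = fl r v' := by
          unfold H12S.fl
          simp only [h]
        unfold Pv
        rw [e]
        exact hv'
    · simp only
      rw [abs_le] at a1 a2 ⊢
      have := abs_le.1 (le_refl |v.1 - v.2|)
      have h5 : |w - v.2| ≤ 2 * r := by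
        rw [abs_le]
        rcases le_total v.2 v'.2 with h6 | h6
        · rw [min_eq_left h6] at h3; rw [max_eq_right h6] at h4
          constructor <;> linarith
        · rw [min_eq_right h6] at h3; rw [max_eq_left h6] at h4
          constructor <;> linarith
      rw [abs_le] at h5
      constructor <;> linarith [this.1, this.2, h5.1, h5.2]
    · obtain ⟨b1, b2, b3⟩ := q2
      obtain ⟨b4, b5, b6⟩ := q3
      simp only at b4 b5 b6
      refine ⟨?_, ?_, ?_⟩ <;> simp only <;> omega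
  have p1 : Reach (KK N r k c n M F ∩ {g | R0 N r k c n D (src g) ∧ R0 N r k c n D (tgt g)})
      (v.1, v.2) (v'.1, v.2) := by
    apply hseg
    intro w h3 h4
    apply K_outer hr hn0 hn hP hD
    · exact hH w h3 h4.le
    · exact hH (w + 1) (by omega) (by omega)
  have p2 : Reach (KK N r k c n M F ∩ {g | R0 N r k c n D (src g) ∧ R0 N r k c n D (tgt g)})
      (v'.1, v.2) (v'.1, v'.2) := by
    apply vseg
    intro w h3 h4
    apply K_outer hr hn0 hn hP hD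
    · exact hV w h3 h4.le
    · exact hV (w + 1) (by omega) (by omega)
  exact p1.trans p2

theorem RR (hr : 1 ≤ r) (hn0 : 0 < n) (hn : n = 8 * N * r)
    (hP : ∀ (z : ℤ × ℤ) (s : ℤ), z ∈ BxQ N ∪ CrC N k c ↔ (z.1 - s * (8 * N), z.2 - s * (8 * N)) ∈ BxQ N ∪ CrC N k c)
    (hc1 : ∀ x y : ℤ, (x, y) ∉ BxQ N ∪ CrC N k c → (x + 1, y + 1) ∉ BxQ N ∪ CrC N k c →
      (x + 1, y) ∉ BxQ N ∪ CrC N k c ∨ (x, y + 1) ∉ BxQ N ∪ CrC N k c)
    (hc2 : ∀ x y : ℤ, (x + 1, y) ∉ BxQ N ∪ CrC N k c → (x, y + 1) ∉ BxQ N ∪ CrC N k c →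
      (x, y) ∉ BxQ N ∪ CrC N k c ∨ (x + 1, y + 1) ∉ BxQ N ∪ CrC N k c)
    {D : ℤ} (hD : D + 1 < M) (v v' : Vtx) (hv : ¬ Pv N r k c v) (hv' : ¬ Pv N r k c v')
    (h1 : |v.1 / (r : ℤ) - v'.1 / r| ≤ 1) (h2 : |v.2 / (r : ℤ) - v'.2 / r| ≤ 1)
    (hd : |v.1 - v.2| + 8 * r ≤ D) (q1 : Rg n v) (q2 : Rg n v') (q3 : Rg n (v'.1, v.2))
    (q4 : Rg n (v.1, v'.2)) :
    Reach (KK N r k c n M F ∩ {g | R0 N r k c n D (src g) ∧ R0 N r k c n D (tgt g)}) v v' := by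
  have hr0 : (0 : ℤ) < r := by exact_mod_cast hr
  have a1 := adj_dist r hr h1
  have a2 := adj_dist r hr h2
  have hd' : |v'.1 - v'.2| + 4 * r ≤ D := by
    have h3 := abs_le.1 (le_refl |v.1 - v.2|)
    rw [abs_le] at a1 a2
    have : |v'.1 - v'.2| ≤ |v.1 - v.2| + 4 * r := by
      rw [abs_le]
      constructor <;> linarith [h3.1, h3.2, a1.1, a1.2, a2.1, a2.2]
    linarith
  have key : ¬ Pv N r k c (v'.1, v.2) ∨ ¬ Pv N r k c (v.1, v'.2) := by
    have ha := hv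
    have hb := hv'
    unfold Pv H12S.fl at ha hb ⊢
    simp only at ha hb ⊢
    rw [abs_le] at h1 h2
    set a := v.1 / (r : ℤ)
    set b := v.2 / (r : ℤ)
    set a' := v'.1 / (r : ℤ)
    set b' := v'.2 / (r : ℤ)
    by_cases e1 : a = a'
    · left; rw [← e1]; exact ha
    by_cases e2 : b = b'
    · left; rw [e2]; exact hb
    by_cases e3 : a' = a + 1
    · by_cases e4 : b' = b + 1
      · rw [e3, e4] at hb ⊢
        exact hc1 a b ha hb
      · have e5 : b = b' + 1 := by omega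
        rw [e3] at hb ⊢
        rw [e5] at ha ⊢
        exact (hc2 a b' hb ha).symm
    · have e6 : a = a' + 1 := by omega
      by_cases e4 : b' = b + 1
      · rw [e6] at ha ⊢
        rw [e4] at hb ⊢
        exact hc2 a' b ha hb
      · have e5 : b = b' + 1 := by omega
        rw [e6, e5] at ha ⊢
        exact (hc1 a' b' hb ha).symm
  rcases key with h | h
  · exact Lsh hr hn0 hn hP hD v v' hv hv' h h1 h2 (by linarith) q1 q2 q3
  · refine (Lsh hr hn0 hn hP hD v' v hv' hv h ?_ ?_ hd' q2 q1 q4).symm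
    · rw [abs_sub_comm]; exact h1
    · rw [abs_sub_comm]; exact h2

end K3

/-! ### the context -/

structure Ctx (N r k ρ l : ℕ) (c : Fin k → ℤ) (n M : ℕ) (F : Finset Edg) : Prop where
  hN : 6 ≤ N
  hl : 1 ≤ l
  hlρ : 32 * l ≤ ρ
  hρr : 32 * ρ ≤ r
  hn : n = 8 * N * r
  hM : M = 8 * n
  hF : F ⊆ CE (2 * n) M
  hbad : ¬ BadQ 1 N r ρ l n M F
  hP : ∀ (z : ℤ × ℤ) (s : ℤ), z ∈ BxQ N ∪ CrC N k c ↔ (z.1 - s * (8 * N), z.2 - s * (8 * N)) ∈ BxQ N ∪ CrC N k c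
  hc1 : ∀ x y : ℤ, (x, y) ∉ BxQ N ∪ CrC N k c → (x + 1, y + 1) ∉ BxQ N ∪ CrC N k c →
      (x + 1, y) ∉ BxQ N ∪ CrC N k c ∨ (x, y + 1) ∉ BxQ N ∪ CrC N k c
  hc2 : ∀ x y : ℤ, (x + 1, y) ∉ BxQ N ∪ CrC N k c → (x, y + 1) ∉ BxQ N ∪ CrC N k c →
      (x, y) ∉ BxQ N ∪ CrC N k c ∨ (x + 1, y + 1) ∉ BxQ N ∪ CrC N k c
  hband : ∀ z ∈ BxQ N ∪ CrC N k c, |z.1 - z.2| ≤ 10 * N

section C

variable {N r k ρ l : ℕ} {c : Fin k → ℤ} {n M : ℕ} {F : Finset Edg}

theorem Ctx.r1 (h : Ctx N r k ρ l c n M F) : 1024 ≤ r := by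
  have := h.hl; have := h.hlρ; have := h.hρr
  omega

theorem Ctx.nZ (h : Ctx N r k ρ l c n M F) : (n : ℤ) = 8 * N * r := by exact_mod_cast h.hn

theorem Ctx.n1 (h : Ctx N r k ρ l c n M F) : 1 ≤ (n : ℤ) ∧ 48 * (r : ℤ) ≤ n := by
  have h1 := h.r1
  have h4 := h.hN
  have h5 := h.nZ
  have h6 : (6 : ℤ) ≤ N := by exact_mod_cast h4
  have h7 : (1024 : ℤ) ≤ r := by exact_mod_cast h1
  rw [h5]
  refine ⟨by nlinarith, by nlinarith⟩

/-- vertices near a face of a tube -/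
theorem near_ok (h : Ctx N r k ρ l c n M F) {U : Vtx} (hU : 2 * (r : ℤ) - 2 ≤ U.1 - U.2)
    (hb : |U.1 - U.2| + 16 * r ≤ 2 * n) (hw : 2 * (r : ℤ) - 2 ≤ U.1 + U.2 ∧ U.1 + U.2 + 2 * r - 2 ≤ 2 * n)
    (v : Vtx) (h1 : 4 * |v.1 - U.1| ≤ 3 * r)
    (h2 : 4 * |v.2 - U.2| ≤ 3 * r) :
    |v.1 - v.2| + 2 < M ∧ 0 < v.1 - v.2 ∧ 0 < v.1 + v.2 ∧ v.1 + v.2 < 2 * n := by
  obtain ⟨n1, n2⟩ := h.n1
  have hM : (M : ℤ) = 8 * n := by exact_mod_cast h.hM
  have hr : (1024 : ℤ) ≤ r := by exact_mod_cast h.r1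
  have a1 := abs_le.1 (le_refl |v.1 - U.1|)
  have a2 := abs_le.1 (le_refl |v.2 - U.2|)
  have a3 := abs_le.1 (le_refl |U.1 - U.2|)
  refine ⟨?_, ?_, ?_, ?_⟩
  · rw [hM]
    have : |v.1 - v.2| ≤ |U.1 - U.2| + 2 * r := by
      rw [abs_le]
      constructor <;> linarith [a1.1, a1.2, a2.1, a2.2, a3.1, a3.2]
    linarith
  · linarith [a1.1, a1.2, a2.1, a2.2]
  · linarith [a1.1, a1.2, a2.1, a2.2, hw.1]
  · linarith [a1.1, a1.2, a2.1, a2.2, hw.2]

theorem Ctx.kn (h : Ctx N r k ρ l c n M F) : 1 ≤ n := by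
  obtain ⟨n1, n2⟩ := h.n1
  exact_mod_cast n1

/-- a boundary point connected to a marked point -/
structure Pnt (N r k : ℕ) (c : Fin k → ℤ) (n M : ℕ) (F : Finset Edg) (u p : Vtx) :
    Prop where
  nB : ¬ Bv N r u
  dg : 2 * (r : ℤ) - 2 ≤ u.1 - u.2
  wl : 2 * (r : ℤ) - 2 ≤ u.1 + u.2 ∧ u.1 + u.2 + 2 * r - 2 ≤ 2 * n
  band : |u.1 - u.2| + 16 * r ≤ 2 * n
  mark : ¬ Pv N r k c p ∨ (p.1 = p.2 ∨ Wl n p)
  con : RA N r k c n M F p u

/-- exit -/
theorem exit' (h : Ctx N r k ρ l c n M F) {u p : Vtx}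
    (hp : Pnt N r k c n M F u p) (P : Vtx → Prop) (hPu : P u) (hPp : ¬ P p)
    (hPn : ∀ v, P v → 4 * |v.1 - u.1| ≤ 3 * r ∧ 4 * |v.2 - u.2| ≤ 3 * r) :
    ∃ v w : Vtx, Reach (KK N r k c n M F ∩ {e | P (src e) ∧ P (tgt e)}) u v ∧ P v ∧ ¬ P w ∧
      ∃ e ∈ KK N r k c n M F, (src e = v ∧ tgt e = w) ∨ (src e = w ∧ tgt e = v) := by
  by_contra hcon
  have hok : ∀ v, P v → |v.1 - v.2| + 2 < M ∧ 0 < v.1 - v.2 ∧ 0 < v.1 + v.2 ∧ v.1 + v.2 < 2 * n :=
    fun v hv => near_ok h hp.dg hp.band hp.wl v (hPn v hv).1 (hPn v hv).2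
  have hdl : ∀ e ∈ dlq n (per (2 * n) (FA N r k c n M F)), P (src e) ∨ P (tgt e) →
      e ∈ KK N r k c n M F := by
    rintro e ⟨he1, he2⟩ hor
    refine ⟨?_, he1⟩
    rw [mem_Cc]
    have hb : -(M : ℤ) ≤ dco e ∧ dco e < M := by
      rcases hor with h1 | h1
      · exact dco_lt e (src e) M (Or.inl rfl) (hok _ h1).1
      · exact dco_lt e (tgt e) M (Or.inr rfl) (hok _ h1).1
    exact ⟨hb.1, hb.2, he2⟩
  have key : ∀ y, RA N r k c n M F u y →
      Reach (KK N r k c n M F ∩ {e | P (src e) ∧ P (tgt e)}) u y ∧ P y := by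
    intro y hy
    induction hy with
    | refl => exact ⟨Reach.refl _ _, hPu⟩
    | @tail a b hab hb ih =>
      obtain ⟨ih1, ih2⟩ := ih
      obtain ⟨e, he, hs⟩ := hb
      have heK : e ∈ KK N r k c n M F := by
        rcases hs with ⟨hs, ht⟩ | ⟨hs, ht⟩
        · exact hdl e he (Or.inl (hs ▸ ih2))
        · exact hdl e he (Or.inr (ht ▸ ih2))
      by_cases hy : P b
      · refine ⟨ih1.trans (Relation.ReflTransGen.single ⟨e, ⟨heK, ?_⟩, hs⟩), hy⟩
        rcases hs with ⟨hs, ht⟩ | ⟨hs, ht⟩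
        · exact ⟨hs ▸ ih2, ht ▸ hy⟩
        · exact ⟨hs ▸ hy, ht ▸ ih2⟩
      · exact absurd ⟨a, b, ih1, ih2, hy, e, heK, hs⟩ hcon
  exact hPp (key _ hp.con.symm).2

/-- lift -/
theorem lift' {P : Vtx → Prop} {u y : Vtx}
    (hR : Reach (KK N r k c n M F ∩ {e | P (src e) ∧ P (tgt e)}) u y) :
    RA N r k c n M F u y := by
  refine Reach.mono ?_ hR
  rintro e ⟨⟨he1, he2⟩, -⟩
  rw [mem_Cc] at he1
  exact ⟨he2, he1.2.2⟩

theorem outer (h : Ctx N r k ρ l c n M F) {y y' : Vtx} (hv : ¬ Pv N r k c y)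
    (hv' : ¬ Pv N r k c y')
    (h1 : |y.1 / (r : ℤ) - y'.1 / r| ≤ 1) (h2 : |y.2 / (r : ℤ) - y'.2 / r| ≤ 1)
    (hb : |y.1 - y.2| + 12 * r ≤ 2 * n) (q1 : Rg n (y.1, y.2)) (q2 : Rg n (y'.1, y'.2))
    (q3 : Rg n (y'.1, y.2))
    (q4 : Rg n (y.1, y'.2)) : RA N r k c n M F y y' := by
  have n1 := h.kn
  obtain ⟨m1, m2⟩ := h.n1
  have hM : (M : ℤ) = 8 * n := by exact_mod_cast h.hM
  have hr : (1024 : ℤ) ≤ r := by exact_mod_cast h.r1
  have hr1 : 1 ≤ r := by have := h.r1; omega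
  have hR := RR (F := F) (M := M) hr1 (by omega) h.hn h.hP h.hc1 h.hc2 (D := (M : ℤ) - 3)
    (by linarith) y y' hv hv' h1 h2 (by linarith) q1 q2 q3 q4
  exact lift' hR

theorem zeta_ok (h : Ctx N r k ρ l c n M F) {U : Vtx} (hB : ¬ Bv N r U) (hU : Pv N r k c U)
    {ζ : ℤ × ℤ} (hz : QQ r ζ U) : |ζ.1 - ζ.2| ≤ 32 * (N : ℤ) ∧
      ∀ s : ℤ, (N : ℤ) ≤ |ζ.1 - s * (8 * N)| ∨ (N : ℤ) ≤ |ζ.2 - s * (8 * N)| := by
  have hr1 : 1 ≤ r := by have := h.r1; omega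
  obtain ⟨h1, h2⟩ := QQ_div hr1 hz
  have hN : (6 : ℤ) ≤ N := by exact_mod_cast h.hN
  have hb := h.hband _ hU
  unfold H12S.fl at hb
  simp only at hb
  rw [abs_le] at hb
  constructor
  · rw [abs_le]; omega
  · intro s
    by_contra hcon
    push Not at hcon
    obtain ⟨h3, h4⟩ := hcon
    apply hB
    refine ⟨s, ?_⟩
    simp only [H12S.fl]
    rw [abs_lt] at h3 h4
    generalize s * (8 * (N : ℤ)) = w at *
    omega

/-- everything near a coarse vertex near a tube is in the strip -/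
theorem QQ_sep (h : Ctx N r k ρ l c n M F) {ζ : ℤ × ℤ} {u v w : Vtx}
    (hd : 2 * (r : ℤ) - 2 ≤ u.1 - u.2)
    (hwl : 2 * (r : ℤ) - 2 ≤ u.1 + u.2 ∧ u.1 + u.2 + 2 * r - 2 ≤ 2 * n)
    (hz : nz r (4 * ρ) ζ u) (hv : QQ r ζ v) (hw : QQ r ζ w) :
    Rg n (v.1, w.2) := by
  have hr : (1024 : ℤ) ≤ r := by exact_mod_cast h.r1
  have hρ : (32 : ℤ) * ρ ≤ r := by exact_mod_cast h.hρr
  obtain ⟨⟨h1, h2⟩, h3, h4⟩ := hv
  obtain ⟨⟨h5, h6⟩, h7, h8⟩ := hw
  obtain ⟨h9, h10⟩ := hz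
  have a1 := abs_le.1 h9
  have a2 := abs_le.1 h10
  have : 2 * ((r / 2 : ℕ) : ℤ) ≤ r := by push_cast; omega
  refine ⟨?_, ?_, ?_⟩ <;> simp only <;> linarith [a1.1, a1.2, a2.1, a2.2, hwl.1, hwl.2]

theorem not_mark (h : Ctx N r k ρ l c n M F) {u p : Vtx}
    (hp : Pnt N r k c n M F u p) (v : Vtx) (h1 : 4 * |v.1 - u.1| ≤ 3 * r)
    (h2 : 4 * |v.2 - u.2| ≤ 3 * r) (hm : v.1 = v.2 ∨ Wl n v) : False := by
  obtain ⟨-, a1, a2, a3⟩ := near_ok h hp.dg hp.band hp.wl v h1 h2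
  rcases hm with hm | ⟨-, hm | hm⟩
  · omega
  · omega
  · omega

theorem QQ_band (h : Ctx N r k ρ l c n M F) {ζ : ℤ × ℤ} {U v : Vtx} (hU : QQ r ζ U)
    (hb : |U.1 - U.2| + 16 * r ≤ 2 * n) (hv : QQ r ζ v) : |v.1 - v.2| + 12 * r ≤ 2 * n := by
  have hr : (1024 : ℤ) ≤ r := by exact_mod_cast h.r1
  obtain ⟨⟨h1, h2⟩, h3, h4⟩ := hU
  obtain ⟨⟨h5, h6⟩, h7, h8⟩ := hv
  have a3 := abs_le.1 (le_refl |U.1 - U.2|)
  have : 2 * ((r / 2 : ℕ) : ℤ) ≤ r := by push_cast; omega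
  have : |v.1 - v.2| ≤ |U.1 - U.2| + 4 * r := by
    rw [abs_le]
    constructor <;> linarith [a3.1, a3.2]
  linarith

/-- near a coarse vertex the cluster reaches the outer region -/
theorem lemE (h : Ctx N r k ρ l c n M F) {u p : Vtx}
    (hp : Pnt N r k c n M F u p) (hU : Pv N r k c u) (ζ : ℤ × ℤ)
    (hz : nz r (4 * ρ) ζ u) : ∃ y : Vtx, ¬ Pv N r k c y ∧
      QQ r ζ y ∧ RA N r k c n M F u y := by
  have hρ := h.hρr
  have hlρ := h.hlρ
  have hl := h.hl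
  have hr := h.r1
  have hr1 : 1 ≤ r := by omega
  have n1 := h.kn
  have hQu : QQ r ζ u := nz_QQ hz (by push_cast; omega)
  have hnear : ∀ v, QQ r ζ v → 4 * |v.1 - u.1| ≤ 3 * r ∧ 4 * |v.2 - u.2| ≤ 3 * r := by
    rintro v ⟨⟨h1, h2⟩, h3, h4⟩
    obtain ⟨h5, h6⟩ := hz
    have h5' := abs_le.1 h5
    have h6' := abs_le.1 h6
    have hr2 : 2 * ((r / 2 : ℕ) : ℤ) ≤ r := by push_cast; omega
    have hρ' : (32 : ℤ) * ρ ≤ r := by exact_mod_cast hρ
    constructor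
    · have : |v.1 - u.1| ≤ (r / 2 : ℕ) + 4 * ρ := by
        rw [abs_le]; constructor <;> linarith [h5'.1, h5'.2]
      linarith
    · have : |v.2 - u.2| ≤ (r / 2 : ℕ) + 4 * ρ := by
        rw [abs_le]; constructor <;> linarith [h6'.1, h6'.2]
      linarith
  by_cases hq : QQ r ζ p
  · refine ⟨p, ?_, hq, hp.con.symm⟩
    rcases hp.mark with h1 | h1
    · exact h1
    · exfalso
      have h4 := hnear _ hq
      exact not_mark h hp _ h4.1 h4.2 h1
  · obtain ⟨v, w, hR, hv, hw, e, he, hew⟩ := exit' h hp (QQ r ζ) hQu hq hnear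
    have key : ∀ v, Reach (KK N r k c n M F ∩ {e | QQ r ζ (src e) ∧ QQ r ζ (tgt e)}) u v →
        (∃ g, Reach (KK N r k c n M F ∩ {e | QQ r ζ (src e) ∧ QQ r ζ (tgt e)}) u g ∧
          ¬ Pv N r k c g ∧ QQ r ζ g) ∨ (Reach (Cc 1 (2 * n) M F) u v ∧ Pv N r k c v) := by
      intro v hR
      induction hR with
      | refl => exact Or.inr ⟨Reach.refl _ _, hU⟩
      | @tail a b hab hb ih =>
        rcases ih with ih | ⟨ih1, ih2⟩
        · exact Or.inl ih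
        · obtain ⟨e, ⟨he1, he2, he3⟩, hab'⟩ := hb
          by_cases hbP : Pv N r k c b
          · right
            refine ⟨ih1.trans (Relation.ReflTransGen.single ⟨e, ?_, hab'⟩), hbP⟩
            obtain ⟨-, k1, k2, k3, k4⟩ := (K_iff hr1 (by omega) h.hn h.hP e).1 he1
            rw [mem_Cc]
            refine ⟨k1, k2, k3 ?_⟩
            by_contra hcon
            push Not at hcon
            have k5 := k4 hcon.1 hcon.2
            rcases hab' with ⟨h1, h2⟩ | ⟨h1, h2⟩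
            · exact k5.1 (h1 ▸ ih2)
            · exact k5.2 (h2 ▸ ih2)
          · left
            refine ⟨b, hab.trans (Relation.ReflTransGen.single ⟨e, ⟨he1, he2, he3⟩, hab'⟩), hbP, ?_⟩
            rcases hab' with ⟨h1, h2⟩ | ⟨h1, h2⟩
            · exact h2 ▸ he3
            · exact h1 ▸ he2
    rcases key v hR with ⟨g, hg1, hg2, hg3⟩ | ⟨hv1, hv2⟩
    · exact ⟨g, hg2, hg3, lift' hg1⟩
    · exfalso
      apply h.hbad
      left
      obtain ⟨z1, z2⟩ := zeta_ok h hp.nB hU hQu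
      refine ⟨ζ, z1, z2, u, w, ?_, ?_, ?_⟩
      · obtain ⟨h5, h6⟩ := hz
        rw [abs_le] at h5 h6
        unfold inR
        push_cast
        refine ⟨⟨by linarith, by linarith⟩, by linarith, by linarith⟩
      · by_contra hcon
        apply hw
        push Not at hcon
        obtain ⟨h5, h6, h7, h8⟩ := hcon
        exact ⟨⟨h5, h6⟩, h7, h8⟩
      · refine hv1.trans (Relation.ReflTransGen.single ⟨e, ?_, hew⟩)
        obtain ⟨-, k1, k2, k3, k4⟩ := (K_iff hr1 (by omega) h.hn h.hP e).1 he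
        rw [mem_Cc]
        refine ⟨k1, k2, k3 ?_⟩
        by_contra hcon
        push Not at hcon
        have k5 := k4 hcon.1 hcon.2
        rcases hew with ⟨h1, h2⟩ | ⟨h1, h2⟩
        · exact k5.1 (h1 ▸ hv2)
        · exact k5.2 (h2 ▸ hv2)

theorem RA_chain {p u y y' u' p' : Vtx} (h1 : RA N r k c n M F p u)
    (h2 : RA N r k c n M F u y) (h3 : RA N r k c n M F y y')
    (h4 : RA N r k c n M F u' y') (h5 : RA N r k c n M F p' u') :
    RA N r k c n M F p p' :=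
  (((h1.trans h2).trans h3).trans h4.symm).trans h5.symm

/-- both near a coarse vertex -/
theorem two (h : Ctx N r k ρ l c n M F) {u p u' p' : Vtx}
    (hp : Pnt N r k c n M F u p) (hp' : Pnt N r k c n M F u' p')
    (hU : Pv N r k c u) (hU' : Pv N r k c u') (ζ : ℤ × ℤ)
    (hz : nz r (4 * ρ) ζ u) (hz' : nz r (4 * ρ) ζ u') :
    RA N r k c n M F p p' := by
  have hρ := h.hρr
  have hr := h.r1
  have hr1 : 1 ≤ r := by omega
  obtain ⟨y, y2, y3, y4⟩ := lemE h hp hU ζ hz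
  obtain ⟨y', y2', y3', y4'⟩ := lemE h hp' hU' ζ hz'
  refine RA_chain hp.con y4 (outer h y2 y2' ?_ ?_ ?_ (QQ_sep h hp.dg hp.wl hz y3 y3)
    (QQ_sep h hp.dg hp.wl hz y3' y3') (QQ_sep h hp.dg hp.wl hz y3' y3) (QQ_sep h hp.dg hp.wl hz y3 y3')) y4' hp'.con
  · have a1 := (QQ_div hr1 y3).1
    have a2 := (QQ_div hr1 y3').1
    rw [abs_le]; omega
  · have a1 := (QQ_div hr1 y3).2
    have a2 := (QQ_div hr1 y3').2
    rw [abs_le]; omega
  · exact QQ_band h (nz_QQ hz (by push_cast; omega)) hp.band y3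

/-- one near a coarse vertex, the other in the outer region -/
theorem mixed (h : Ctx N r k ρ l c n M F) {u p u' p' : Vtx}
    (hp : Pnt N r k c n M F u p) (hp' : Pnt N r k c n M F u' p')
    (hU : Pv N r k c u) (hU' : ¬ Pv N r k c u') (ζ : ℤ × ℤ)
    (hz : nz r (4 * ρ) ζ u) (hz' : nz r (4 * ρ) ζ u') :
    RA N r k c n M F p p' := by
  have hρ := h.hρr
  have hr := h.r1
  have hr1 : 1 ≤ r := by omega
  obtain ⟨y, y2, y3, y4⟩ := lemE h hp hU ζ hz
  have y3' : QQ r ζ u' := nz_QQ hz' (by push_cast; omega)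
  refine RA_chain hp.con y4 (outer h y2 hU' ?_ ?_ ?_ (QQ_sep h hp.dg hp.wl hz y3 y3)
    (QQ_sep h hp.dg hp.wl hz y3' y3') (QQ_sep h hp.dg hp.wl hz y3' y3) (QQ_sep h hp.dg hp.wl hz y3 y3'))
    (Reach.refl _ _) hp'.con
  · have a1 := (QQ_div hr1 y3).1
    have a2 := (QQ_div hr1 y3').1
    rw [abs_le]; omega
  · have a1 := (QQ_div hr1 y3).2
    have a2 := (QQ_div hr1 y3').2
    rw [abs_le]; omega
  · exact QQ_band h (nz_QQ hz (by push_cast; omega)) hp.band y3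

/-! ### the neighbour of a tube face in a box -/

theorem nb (h : Ctx N r k ρ l c n M F) {u p : Vtx}
    (hp : Pnt N r k c n M F u p) (hU : Pv N r k c u) :
    ∃ w : Vtx, Bv N r w ∧ (∃ e ∈ KK N r k c n M F, (src e = u ∧ tgt e = w) ∨
      (src e = w ∧ tgt e = u)) := by
  have hr1 : 1 ≤ r := by have := h.r1; omega
  have n1 := h.kn
  have hr : (1024 : ℤ) ≤ r := by exact_mod_cast h.r1
  have hne : ¬ (p = u) := by
    intro he
    rcases hp.mark with h1 | h1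
    · exact h1 (he ▸ hU)
    · rw [he] at h1
      exact not_mark h hp u (by simp) (by simp) h1
  obtain ⟨v, w, hR, hv, hw, e, he, hew⟩ := exit' h hp (fun v => v = u) rfl hne
    (fun v hv => by rw [hv]; simp)
  subst hv
  refine ⟨w, ?_, e, he, hew⟩
  by_contra hB
  obtain ⟨-, k1, k2, k3, k4⟩ := (K_iff hr1 (by omega) h.hn h.hP e).1 he
  rcases hew with ⟨h1, h2⟩ | ⟨h1, h2⟩
  · have := k4 (by rw [h1]; exact hp.nB) (by rw [h2]; exact hB)
    rw [h1] at this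
    exact this.1 hU
  · have := k4 (by rw [h1]; exact hB) (by rw [h2]; exact hp.nB)
    rw [h2] at this
    exact this.2 hU

end C

/-! ### half balls -/

section D

variable {N r k ρ l : ℕ} {c : Fin k → ℤ} {n M : ℕ} {F : Finset Edg}

theorem KC (h : Ctx N r k ρ l c n M F) {e : Edg} (he : e ∈ KK N r k c n M F)
    (hB : Bv N r (src e) ∨ Bv N r (tgt e)) : e ∈ Cc 1 (2 * n) M F := by
  have n1 := h.kn
  obtain ⟨-, k1, k2, k3, k4⟩ := (K_iff (by have := h.r1; omega) (by omega) h.hn h.hP e).1 he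
  rw [mem_Cc]
  exact ⟨k1, k2, k3 hB⟩

theorem CK (h : Ctx N r k ρ l c n M F) {e : Edg} (he : e ∈ Cc 1 (2 * n) M F) (hd : e ∈ Sd n)
    (hB : Bv N r (src e) ∨ Bv N r (tgt e)) : e ∈ KK N r k c n M F := by
  have n1 := h.kn
  rw [mem_Cc] at he
  refine (K_iff (by have := h.r1; omega) (by omega) h.hn h.hP e).2
    ⟨hd, he.1, he.2.1, fun _ => he.2.2, ?_⟩
  intro h1 h2
  rcases hB with h3 | h3
  · exact absurd h3 h1
  · exact absurd h3 h2

/-- a half ball below a cell -/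
structure HBc (N r k : ℕ) (c : Fin k → ℤ) (d : Dir) (x0 y0 : ℤ) (ρ : ℕ) : Prop where
  ball : ∀ v, bal d x0 y0 ρ v → Bv N r v
  row : ∀ v, (-(ρ : ℤ) - 1 ≤ tc d x0 y0 v ∧ tc d x0 y0 v ≤ ρ + 1) →
    (hc d x0 y0 v = -1 ∨ hc d x0 y0 v = -2) → Pv N r k c v ∧ ¬ Bv N r v

theorem pj_reach (h : Ctx N r k ρ l c n M F) {d : Dir} {x0 y0 : ℤ} (hb : HBc N r k c d x0 y0 ρ)
    {a b : Vtx} (hR : Reach (KK N r k c n M F ∩ {e | bp d x0 y0 ρ (src e) ∧ bp d x0 y0 ρ (tgt e)}) a b) :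
    Reach (Cc 1 (2 * n) M F ∩ ↑(hbE d x0 y0 ρ)) (pj d x0 y0 a) (pj d x0 y0 b) := by
  have n1 := h.kn
  have key : ∀ e ∈ KK N r k c n M F, bp d x0 y0 ρ (src e) → bp d x0 y0 ρ (tgt e) →
      Reach (Cc 1 (2 * n) M F ∩ ↑(hbE d x0 y0 ρ)) (pj d x0 y0 (src e)) (pj d x0 y0 (tgt e)) := by
    intro e he h1 h2
    obtain ⟨-, k1, k2, k3, k4⟩ := (K_iff (by have := h.r1; omega) (by omega) h.hn h.hP e).1 he
    have hadj := adj_c d x0 y0 e
    unfold pj
    by_cases c1 : hc d x0 y0 (src e) = -1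
    · by_cases c2 : hc d x0 y0 (tgt e) = -1
      · exfalso
        have r1 := hb.row (src e) ⟨by linarith [h1.1.1], by linarith [h1.1.2]⟩ (Or.inl c1)
        have r2 := hb.row (tgt e) ⟨by linarith [h2.1.1], by linarith [h2.1.2]⟩ (Or.inl c2)
        exact (k4 r1.2 r2.2).1 r1.1
      · rw [if_pos c1, if_neg c2]
        have e1 : inn d (src e) = tgt e := by
          obtain ⟨i1, i2⟩ := inn_c d x0 y0 (src e)
          apply ext_c d x0 y0
          · rw [i1]; obtain ⟨-, h3, -⟩ := h2; omega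
          · rw [i2]; obtain ⟨-, h3, -⟩ := h2; omega
        rw [e1]
        exact Reach.refl _ _
    · by_cases c2 : hc d x0 y0 (tgt e) = -1
      · rw [if_neg c1, if_pos c2]
        have e1 : inn d (tgt e) = src e := by
          obtain ⟨i1, i2⟩ := inn_c d x0 y0 (tgt e)
          apply ext_c d x0 y0
          · rw [i1]; obtain ⟨-, h3, -⟩ := h1; omega
          · rw [i2]; obtain ⟨-, h3, -⟩ := h1; omega
        rw [e1]
        exact Reach.refl _ _
      · rw [if_neg c1, if_neg c2]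
        have b1 : bal d x0 y0 ρ (src e) := ⟨h1.1, by obtain ⟨-, h3, h4⟩ := h1; omega, h1.2.2⟩
        have b2 : bal d x0 y0 ρ (tgt e) := ⟨h2.1, by obtain ⟨-, h3, h4⟩ := h2; omega, h2.2.2⟩
        refine Relation.ReflTransGen.single ⟨e, ⟨KC h he (Or.inl (hb.ball _ b1)), ?_⟩, Or.inl ⟨rfl, rfl⟩⟩
        rw [Finset.mem_coe, hb_iff]
        exact ⟨b1, b2⟩
  induction hR with
  | refl => exact Reach.refl _ _
  | tail _ hs ih =>
    refine ih.trans ?_
    obtain ⟨e, ⟨he1, he2, he3⟩, ⟨h1, h2⟩ | ⟨h1, h2⟩⟩ := hs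
    · rw [← h1, ← h2]
      exact key e he1 he2 he3
    · rw [← h1, ← h2]
      exact (key e he1 he2 he3).symm

theorem bp_near (h : Ctx N r k ρ l c n M F) {u : Vtx} {d : Dir} {x0 y0 : ℤ}
    (ht : -(ρ : ℤ) ≤ tc d x0 y0 u ∧ tc d x0 y0 u ≤ ρ) (hh : hc d x0 y0 u = -1) {v : Vtx}
    (hv : bp d x0 y0 ρ v) : 4 * |v.1 - u.1| ≤ 3 * r ∧ 4 * |v.2 - u.2| ≤ 3 * r := by
  have hρ' : (32 : ℤ) * ρ ≤ r := by exact_mod_cast h.hρr
  have hrr : (1024 : ℤ) ≤ r := by exact_mod_cast h.r1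
  have hdc := dist_c d x0 y0 v u (2 * ρ + 1)
    (by
      rw [abs_le]
      obtain ⟨⟨a1, a2⟩, -⟩ := hv
      obtain ⟨a3, a4⟩ := ht
      constructor <;> omega)
    (by
      rw [abs_le, hh]
      obtain ⟨-, a1, a2⟩ := hv
      constructor <;> omega)
  constructor
  · linarith [hdc.1]
  · linarith [hdc.2]

/-- the cluster of a tube face reaches the rim -/
theorem to_rim (h : Ctx N r k ρ l c n M F) {u p : Vtx}
    (hp : Pnt N r k c n M F u p) {d : Dir} {x0 y0 : ℤ} (hb : HBc N r k c d x0 y0 ρ)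
    (ht : -(ρ : ℤ) ≤ tc d x0 y0 u ∧ tc d x0 y0 u ≤ ρ)
    (hh : hc d x0 y0 u = -1) :
    (∃ b ∈ rimE d x0 y0 ρ, Reach (Cc 1 (2 * n) M F ∩ ↑(hbE d x0 y0 ρ)) (inn d u) b) ∧
      (∃ e ∈ KK N r k c n M F, (src e = u ∧ tgt e = inn d u) ∨
        (src e = inn d u ∧ tgt e = u)) := by
  have n1 := h.kn
  have hρ := h.hρr
  have hr1 : 1 ≤ r := by have := h.r1; omega
  have hrow := hb.row u ⟨by linarith [ht.1], by linarith [ht.2]⟩ (Or.inl hh)
  constructor
  · have hPu : bp d x0 y0 ρ u := ⟨ht, by rw [hh], by rw [hh]; omega⟩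
    have hnear : ∀ v, bp d x0 y0 ρ v → 4 * |v.1 - u.1| ≤ 3 * r ∧ 4 * |v.2 - u.2| ≤ 3 * r :=
      fun v hv => bp_near h ht hh hv
    have hPp : ¬ bp d x0 y0 ρ p := by
      intro hv
      rcases hp.mark with h1 | h1
      · apply h1
        by_cases c1 : hc d x0 y0 p = -1
        · exact (hb.row _ ⟨by linarith [hv.1.1], by linarith [hv.1.2]⟩ (Or.inl c1)).1
        · exact Pv_of_Bv (hb.ball _ ⟨hv.1, by obtain ⟨-, h3, h4⟩ := hv; omega, hv.2.2⟩)
      · have h4 := hnear _ hv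
        exact not_mark h hp _ h4.1 h4.2 h1
    obtain ⟨v, w, hR, hv, hw, e, he, hew⟩ := exit' h hp (bp d x0 y0 ρ) hPu hPp hnear
    have hv1 : hc d x0 y0 v ≠ -1 := by
      intro c1
      have rv := hb.row v ⟨by linarith [hv.1.1], by linarith [hv.1.2]⟩ (Or.inl c1)
      have hadj := adj_c d x0 y0 e
      have hw2 : hc d x0 y0 w = -1 ∨ hc d x0 y0 w = -2 := by
        by_contra hcon
        apply hw
        unfold bp at hv ⊢
        rcases hew with ⟨h1, h2⟩ | ⟨h1, h2⟩ <;> rw [h1, h2] at hadj <;> omega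
      have rw' := hb.row w (by
        unfold bp at hv
        rcases hew with ⟨h1, h2⟩ | ⟨h1, h2⟩ <;> rw [h1, h2] at hadj <;> omega) hw2
      obtain ⟨-, k1, k2, k3, k4⟩ := (K_iff hr1 (by omega) h.hn h.hP e).1 he
      rcases hew with ⟨h1, h2⟩ | ⟨h1, h2⟩
      · rw [h1, h2] at k4
        exact (k4 rv.2 rw'.2).1 rv.1
      · rw [h1, h2] at k4
        exact (k4 rw'.2 rv.2).1 rw'.1
    refine ⟨v, ?_, ?_⟩
    · rw [rim_iff]
      have hadj := adj_c d x0 y0 e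
      unfold bp at hv hw
      unfold bal
      rcases hew with ⟨h1, h2⟩ | ⟨h1, h2⟩ <;> rw [h1, h2] at hadj <;> omega
    · have := pj_reach h hb hR
      rw [pj, if_pos hh, pj, if_neg hv1] at this
      exact this
  · obtain ⟨w, hwB, e, he, hew⟩ := nb h hp hrow.1
    have hadj := adj_c d x0 y0 e
    have hwe : w = inn d u := by
      obtain ⟨i1, i2⟩ := inn_c d x0 y0 u
      have hcon : ¬ (hc d x0 y0 w = -1 ∨ hc d x0 y0 w = -2) := by
        intro hcon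
        have rw' := hb.row w (by
          rcases hew with ⟨h1, h2⟩ | ⟨h1, h2⟩ <;> rw [h1, h2] at hadj <;> omega) hcon
        exact rw'.2 hwB
      apply ext_c d x0 y0
      · rw [i1]
        rcases hew with ⟨h1, h2⟩ | ⟨h1, h2⟩ <;> rw [h1, h2] at hadj <;> omega
      · rw [i2]
        rcases hew with ⟨h1, h2⟩ | ⟨h1, h2⟩ <;> rw [h1, h2] at hadj <;> omega
    rw [← hwe]
    exact ⟨e, he, hew⟩

/-- two tube faces in the middle of a cell -/
theorem middle (h : Ctx N r k ρ l c n M F) {u p u' p' : Vtx}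
    (hp : Pnt N r k c n M F u p) (hp' : Pnt N r k c n M F u' p')
    {d : Dir} {x0 y0 : ℤ} (hb : HBc N r k c d x0 y0 ρ)
    (ht : -(8 * l : ℤ) ≤ tc d x0 y0 u ∧ tc d x0 y0 u ≤ 8 * l)
    (hh : hc d x0 y0 u = -1)
    (ht' : -(8 * l : ℤ) ≤ tc d x0 y0 u' ∧ tc d x0 y0 u' ≤ 8 * l)
    (hh' : hc d x0 y0 u' = -1)
    (hcen : ∃ i j : ℤ, ((d = Dir.up ∨ d = Dir.dn) ∧ x0 = l * i ∧ (y0 = r * j ∨ y0 = r * j - 1)) ∨
      ((d = Dir.rt ∨ d = Dir.lf) ∧ y0 = l * i ∧ (x0 = r * j ∨ x0 = r * j - 1))) :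
    RA N r k c n M F p p' := by
  have n1 := h.kn
  have hρ := h.hρr
  have hlρ := h.hlρ
  have hl := h.hl
  have hr1 : 1 ≤ r := by have := h.r1; omega
  obtain ⟨⟨b, hb1, hb2⟩, e, he, hew⟩ := to_rim h hp hb (by omega) hh
  obtain ⟨⟨b', hb1', hb2'⟩, e', he', hew'⟩ := to_rim h hp' hb (by omega) hh'
  obtain ⟨i1, i2⟩ := inn_c d x0 y0 u
  obtain ⟨i1', i2'⟩ := inn_c d x0 y0 u'
  have hcon : Reach (Cc 1 (2 * n) M F ∩ ↑(hbE d x0 y0 ρ)) (inn d u) (inn d u') := by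
    by_contra hcon
    apply h.hbad
    right
    obtain ⟨i, j, hij⟩ := hcen
    obtain ⟨m1, m2⟩ := h.n1
    have hd0 : |x0 - u.1| ≤ 8 * l + 1 ∧ |y0 - u.2| ≤ 8 * l + 1 := by
      rw [abs_le, abs_le]
      cases d <;> simp only [tc, hc] at ht hh <;> omega
    refine ⟨d, x0, y0, i, j, ?_, ?_, hij, ?_⟩
    · have hband := hp.band
      obtain ⟨a1, a2⟩ := abs_le.1 (le_refl |u.1 - u.2|)
      obtain ⟨b1, b2⟩ := abs_le.1 hd0.1
      obtain ⟨b3, b4⟩ := abs_le.1 hd0.2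
      have c1 : (32 : ℤ) * l ≤ ρ := by exact_mod_cast hlρ
      have c2 : (32 : ℤ) * ρ ≤ r := by exact_mod_cast hρ
      have c3 : (1 : ℤ) ≤ l := by exact_mod_cast hl
      rw [abs_le]
      constructor <;> linarith
    · intro s
      by_contra hc2
      push Not at hc2
      obtain ⟨h3, h4⟩ := hc2
      -- the outer neighbour of the centre
      obtain ⟨z, hz1, hz2, hz3⟩ : ∃ z : Vtx, (|z.1 - x0| ≤ 1 ∧ |z.2 - y0| ≤ 1) ∧
          tc d x0 y0 z = 0 ∧ hc d x0 y0 z = -1 := by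
        cases d
        · exact ⟨(x0, y0 - 1), by simp, by simp [tc], by simp [hc]⟩
        · exact ⟨(x0, y0 + 1), by simp, by simp [tc], by simp [hc]⟩
        · exact ⟨(x0 - 1, y0), by simp, by simp [tc], by simp [hc]⟩
        · exact ⟨(x0 + 1, y0), by simp, by simp [tc], by simp [hc]⟩
      have hrow := hb.row z ⟨by rw [hz2]; omega, by rw [hz2]; omega⟩ (Or.inl hz3)
      apply hrow.2
      rw [abs_lt] at h3 h4
      rw [abs_le, abs_le] at hz1
      apply inBox hr1 h.hn z s <;> linarith [hz1.1.1, hz1.1.2, hz1.2.1, hz1.2.2, h3.1, h3.2, h4.1, h4.2]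
    · refine ⟨inn d u, ?_, inn d u', ?_, ⟨b, hb1, hb2⟩, ⟨b', hb1', hb2'⟩, hcon⟩
      · rw [seg_iff, i1, i2, hh]
        refine ⟨⟨?_, ?_⟩, by norm_num⟩ <;> push_cast <;> omega
      · rw [seg_iff, i1', i2', hh']
        refine ⟨⟨?_, ?_⟩, by norm_num⟩ <;> push_cast <;> omega
  -- lift
  have hPu : bp d x0 y0 ρ u := ⟨by omega, by rw [hh], by rw [hh]; omega⟩
  have hPu' : bp d x0 y0 ρ u' := ⟨by omega, by rw [hh'], by rw [hh']; omega⟩
  have hPi : bp d x0 y0 ρ (inn d u) := ⟨by rw [i1]; omega, by rw [i2, hh]; omega, by rw [i2, hh]; omega⟩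
  have hPi' : bp d x0 y0 ρ (inn d u') := ⟨by rw [i1']; omega, by rw [i2', hh']; omega, by rw [i2', hh']; omega⟩
  have hpos : ∀ v, bp d x0 y0 ρ v → Rg n v := by
    intro v hv
    have h1 := bp_near h ⟨by omega, by omega⟩ hh hv
    obtain ⟨-, h2, h3, h4⟩ := near_ok h hp.dg hp.band hp.wl v h1.1 h1.2
    exact ⟨by omega, by omega, by omega⟩
  have hR : Reach (KK N r k c n M F ∩ {e | bp d x0 y0 ρ (src e) ∧ bp d x0 y0 ρ (tgt e)})
      u u' := by
    have r1 : Reach (KK N r k c n M F ∩ {e | bp d x0 y0 ρ (src e) ∧ bp d x0 y0 ρ (tgt e)})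
        u (inn d u) := by
      refine Relation.ReflTransGen.single ⟨e, ⟨he, ?_⟩, hew⟩
      rcases hew with ⟨h1, h2⟩ | ⟨h1, h2⟩
      · exact ⟨h1 ▸ hPu, h2 ▸ hPi⟩
      · exact ⟨h1 ▸ hPi, h2 ▸ hPu⟩
    have r2 : Reach (KK N r k c n M F ∩ {e | bp d x0 y0 ρ (src e) ∧ bp d x0 y0 ρ (tgt e)})
        u' (inn d u') := by
      refine Relation.ReflTransGen.single ⟨e', ⟨he', ?_⟩, hew'⟩
      rcases hew' with ⟨h1, h2⟩ | ⟨h1, h2⟩
      · exact ⟨h1 ▸ hPu', h2 ▸ hPi'⟩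
      · exact ⟨h1 ▸ hPi', h2 ▸ hPu'⟩
    have r3 : Reach (KK N r k c n M F ∩ {e | bp d x0 y0 ρ (src e) ∧ bp d x0 y0 ρ (tgt e)})
        (inn d u) (inn d u') := by
      refine Reach.mono ?_ hcon
      rintro e ⟨he1, he2⟩
      rw [Finset.mem_coe, hb_iff] at he2
      have hs : bp d x0 y0 ρ (src e) := ⟨he2.1.1, by linarith [he2.1.2.1], he2.1.2.2⟩
      have ht2 : bp d x0 y0 ρ (tgt e) := ⟨he2.2.1, by linarith [he2.2.2.1], he2.2.2.2⟩
      exact ⟨CK h he1 (Sd_of e (hpos _ hs) (hpos _ ht2)) (Or.inl (hb.ball _ he2.1)), hs, ht2⟩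
    exact (r1.trans r3).trans r2.symm
  have := lift' hR
  exact (hp.con.trans this).trans hp'.con.symm


theorem Ctx.nums (h : Ctx N r k ρ l c n M F) : (32 : ℤ) * l ≤ ρ ∧ (32 : ℤ) * ρ ≤ r ∧ (1 : ℤ) ≤ l :=
  ⟨by exact_mod_cast h.hlρ, by exact_mod_cast h.hρr, by exact_mod_cast h.hl⟩

/-- the direction -/
theorem dirn (h : Ctx N r k ρ l c n M F) {u p : Vtx}
    (hp : Pnt N r k c n M F u p) (hU : Pv N r k c u) :
    ∃ d : Dir, Bv N r (inn d u) := by
  obtain ⟨w, hw, e, -, hew⟩ := nb h hp hU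
  obtain ⟨x, y, b⟩ := e
  rcases hew with ⟨h1, h2⟩ | ⟨h1, h2⟩
  · cases b
    · refine ⟨Dir.up, ?_⟩
      rw [src_mk] at h1; rw [tgt_false] at h2
      rw [← h1]; rw [← h2] at hw; exact hw
    · refine ⟨Dir.rt, ?_⟩
      rw [src_mk] at h1; rw [tgt_true] at h2
      rw [← h1]; rw [← h2] at hw; exact hw
  · cases b
    · refine ⟨Dir.dn, ?_⟩
      rw [src_mk] at h1; rw [tgt_false] at h2
      rw [← h2]; rw [← h1] at hw
      simpa [inn] using hw
    · refine ⟨Dir.lf, ?_⟩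
      rw [src_mk] at h1; rw [tgt_true] at h2
      rw [← h2]; rw [← h1] at hw
      simpa [inn] using hw

theorem caseB (h : Ctx N r k ρ l c n M F) {u p u' p' : Vtx}
    (hp : Pnt N r k c n M F u p) (hp' : Pnt N r k c n M F u' p')
    (hU : Pv N r k c u) (hU' : ¬ Pv N r k c u')
    (d1 : |u.1 - u'.1| ≤ 4 * l) (d2 : |u.2 - u'.2| ≤ 4 * l) :
    RA N r k c n M F p p' := by
  have hr1 : 1 ≤ r := by have := h.r1; omega
  obtain ⟨c1, c2, c3⟩ := h.nums
  obtain ⟨d, hd⟩ := dirn h hp hU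
  have e1 := abs_le.1 d1
  have e2 := abs_le.1 d2
  by_cases hdH : d = Dir.dn ∨ d = Dir.up
  · obtain ⟨j, hj, hfl⟩ := lineH hr1 hp.nB hdH hd
    have ej := abs_le.1 hj
    have hl' := near_line (r := r) hr1 (y := u'.2) (j := j) (by linarith [e2.1, e2.2, ej.1, ej.2])
      (by linarith [e2.1, e2.2, ej.1, ej.2])
    have hne : u.1 / (r : ℤ) ≠ u'.1 / r := by
      intro he
      apply hU'
      have : fl r u' = (u.1 / (r : ℤ), u'.2 / (r : ℤ)) := by
        unfold H12S.fl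
        rw [he]
      unfold Pv
      rw [this]
      rcases hfl with ⟨-, -, f1, f2⟩ | ⟨-, -, f1, f2⟩ <;> rcases hl' with hl' | hl' <;> rw [hl']
      · rw [← f1]; exact hU
      · rw [← f2]; exact Pv_of_Bv hd
      · rw [← f2]; exact Pv_of_Bv hd
      · rw [← f1]; exact hU
    obtain ⟨i, i1, i2⟩ := col hr1 hne d1
    have ei1 := abs_le.1 i1
    have ei2 := abs_le.1 i2
    refine mixed h hp hp' hU hU' (i, j) ⟨?_, ?_⟩ ⟨?_, ?_⟩ <;> simp only <;> rw [abs_le] <;>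
      constructor <;> linarith [e2.1, e2.2, ej.1, ej.2, ei1.1, ei1.2, ei2.1, ei2.2]
  · have hdV : d = Dir.lf ∨ d = Dir.rt := by cases d <;> simp_all
    obtain ⟨i, hi, hfl⟩ := lineV hr1 hp.nB hdV hd
    have ei := abs_le.1 hi
    have hl' := near_line (r := r) hr1 (y := u'.1) (j := i) (by linarith [e1.1, e1.2, ei.1, ei.2])
      (by linarith [e1.1, e1.2, ei.1, ei.2])
    have hne : u.2 / (r : ℤ) ≠ u'.2 / r := by
      intro he
      apply hU'
      have : fl r u' = (u'.1 / (r : ℤ), u.2 / (r : ℤ)) := by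
        unfold H12S.fl
        rw [he]
      unfold Pv
      rw [this]
      rcases hfl with ⟨-, -, f1, f2⟩ | ⟨-, -, f1, f2⟩ <;> rcases hl' with hl' | hl' <;> rw [hl']
      · rw [← f1]; exact hU
      · rw [← f2]; exact Pv_of_Bv hd
      · rw [← f2]; exact Pv_of_Bv hd
      · rw [← f1]; exact hU
    obtain ⟨j, i1, i2⟩ := col hr1 hne d2
    have ei1 := abs_le.1 i1
    have ei2 := abs_le.1 i2
    refine mixed h hp hp' hU hU' (i, j) ⟨?_, ?_⟩ ⟨?_, ?_⟩ <;> simp only <;> rw [abs_le] <;>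
      constructor <;> linarith [e1.1, e1.2, ei.1, ei.2, ei1.1, ei1.2, ei2.1, ei2.2]


theorem sameDn (h : Ctx N r k ρ l c n M F) {u p u' p' : Vtx}
    (hp : Pnt N r k c n M F u p) (hp' : Pnt N r k c n M F u' p')
    (hU : Pv N r k c u) (hU' : Pv N r k c u')
    (d1 : |u.1 - u'.1| ≤ 4 * l) {a j : ℤ}
    (hj : u.2 = r * j) (hj' : u'.2 = r * j)
    (f1 : fl r u = (a, j)) (f1' : fl r u' = (a, j))
    (f2 : fl r (inn Dir.dn u) = (a, j - 1)) (hB : Bv N r (inn Dir.dn u)) :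
    RA N r k c n M F p p' := by
  have hr1 : 1 ≤ r := by have := h.r1; omega
  obtain ⟨c1, c2, c3⟩ := h.nums
  have e1 := abs_le.1 d1
  obtain ⟨⟨g1, g2⟩, -⟩ := (fl_iff r hr1 _ _).1 f1
  simp only at g1 g2
  by_cases h1 : u.1 - r * a ≤ 2 * ρ
  · refine two h hp hp' hU hU' (a, j) ⟨?_, ?_⟩ ⟨?_, ?_⟩ <;> simp only <;> rw [abs_le] <;>
      constructor <;> linarith [e1.1, e1.2]
  by_cases h2 : r * a + r - u.1 ≤ 2 * ρ
  · have e : (r : ℤ) * (a + 1) = r * a + r := by ring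
    refine two h hp hp' hU hU' (a + 1, j) ⟨?_, ?_⟩ ⟨?_, ?_⟩ <;> simp only <;> rw [abs_le] <;>
      constructor <;> linarith [e1.1, e1.2]
  push Not at h1 h2
  have hl1 : 1 ≤ l := h.hl
  obtain ⟨g3, g4⟩ := (div_iff l hl1 u.1 _).1 rfl
  have er : (r : ℤ) * (j - 1) = r * j - r := by ring
  refine middle h hp hp' (d := Dir.dn) (x0 := l * (u.1 / (l : ℤ))) (y0 := r * j - 1)
    ⟨?_, ?_⟩ ?_ ?_ ?_ ?_ ⟨_, j, Or.inl ⟨Or.inr rfl, rfl, Or.inr rfl⟩⟩
  · intro v hv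
    unfold bal at hv
    simp only [tc, hc] at hv
    obtain ⟨⟨v1, v2⟩, v3, v4⟩ := hv
    have : fl r v = (a, j - 1) := by
      rw [fl_iff r hr1]
      simp only
      rw [er]
      refine ⟨⟨by linarith, by linarith⟩, by linarith, by linarith⟩
    unfold Bv
    rw [this, ← f2]
    exact hB
  · intro v hv hv'
    simp only [tc, hc] at hv hv'
    have : fl r v = fl r u := by
      rw [f1, fl_iff r hr1]
      simp only
      rcases hv' with hv' | hv' <;>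
        exact ⟨⟨by linarith [hv.1, hv.2], by linarith [hv.1, hv.2]⟩, by linarith, by linarith⟩
    unfold Pv Bv
    rw [this]
    exact ⟨hU, hp.nB⟩
  · simp only [tc]
    constructor <;> linarith
  · simp only [hc]
    linarith
  · simp only [tc]
    constructor <;> linarith [e1.1, e1.2]
  · simp only [hc]
    linarith

theorem sameUp (h : Ctx N r k ρ l c n M F) {u p u' p' : Vtx}
    (hp : Pnt N r k c n M F u p) (hp' : Pnt N r k c n M F u' p')
    (hU : Pv N r k c u) (hU' : Pv N r k c u')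
    (d1 : |u.1 - u'.1| ≤ 4 * l) {a j : ℤ}
    (hj : u.2 + 1 = r * j) (hj' : u'.2 + 1 = r * j)
    (f1 : fl r u = (a, j - 1)) (f1' : fl r u' = (a, j - 1))
    (f2 : fl r (inn Dir.up u) = (a, j)) (hB : Bv N r (inn Dir.up u)) :
    RA N r k c n M F p p' := by
  have hr1 : 1 ≤ r := by have := h.r1; omega
  obtain ⟨c1, c2, c3⟩ := h.nums
  have e1 := abs_le.1 d1
  obtain ⟨⟨g1, g2⟩, -⟩ := (fl_iff r hr1 _ _).1 f1
  simp only at g1 g2
  by_cases h1 : u.1 - r * a ≤ 2 * ρ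
  · refine two h hp hp' hU hU' (a, j) ⟨?_, ?_⟩ ⟨?_, ?_⟩ <;> simp only <;> rw [abs_le] <;>
      constructor <;> linarith [e1.1, e1.2]
  by_cases h2 : r * a + r - u.1 ≤ 2 * ρ
  · have e : (r : ℤ) * (a + 1) = r * a + r := by ring
    refine two h hp hp' hU hU' (a + 1, j) ⟨?_, ?_⟩ ⟨?_, ?_⟩ <;> simp only <;> rw [abs_le] <;>
      constructor <;> linarith [e1.1, e1.2]
  push Not at h1 h2
  have hl1 : 1 ≤ l := h.hl
  obtain ⟨g3, g4⟩ := (div_iff l hl1 u.1 _).1 rfl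
  have er : (r : ℤ) * (j - 1) = r * j - r := by ring
  refine middle h hp hp' (d := Dir.up) (x0 := l * (u.1 / (l : ℤ))) (y0 := r * j)
    ⟨?_, ?_⟩ ?_ ?_ ?_ ?_ ⟨_, j, Or.inl ⟨Or.inl rfl, rfl, Or.inl rfl⟩⟩
  · intro v hv
    unfold bal at hv
    simp only [tc, hc] at hv
    obtain ⟨⟨v1, v2⟩, v3, v4⟩ := hv
    have : fl r v = (a, j) := by
      rw [fl_iff r hr1]
      simp only
      refine ⟨⟨by linarith, by linarith⟩, by linarith, by linarith⟩
    unfold Bv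
    rw [this, ← f2]
    exact hB
  · intro v hv hv'
    simp only [tc, hc] at hv hv'
    have : fl r v = fl r u := by
      rw [f1, fl_iff r hr1]
      simp only
      rw [er]
      rcases hv' with hv' | hv' <;>
        exact ⟨⟨by linarith [hv.1, hv.2], by linarith [hv.1, hv.2]⟩, by linarith, by linarith⟩
    unfold Pv Bv
    rw [this]
    exact ⟨hU, hp.nB⟩
  · simp only [tc]
    constructor <;> linarith
  · simp only [hc]
    linarith
  · simp only [tc]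
    constructor <;> linarith [e1.1, e1.2]
  · simp only [hc]
    linarith

theorem sameLf (h : Ctx N r k ρ l c n M F) {u p u' p' : Vtx}
    (hp : Pnt N r k c n M F u p) (hp' : Pnt N r k c n M F u' p')
    (hU : Pv N r k c u) (hU' : Pv N r k c u')
    (d1 : |u.2 - u'.2| ≤ 4 * l) {a j : ℤ}
    (hj : u.1 = r * j) (hj' : u'.1 = r * j)
    (f1 : fl r u = (j, a)) (f1' : fl r u' = (j, a))
    (f2 : fl r (inn Dir.lf u) = (j - 1, a)) (hB : Bv N r (inn Dir.lf u)) :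
    RA N r k c n M F p p' := by
  have hr1 : 1 ≤ r := by have := h.r1; omega
  obtain ⟨c1, c2, c3⟩ := h.nums
  have e1 := abs_le.1 d1
  obtain ⟨-, g1, g2⟩ := (fl_iff r hr1 _ _).1 f1
  simp only at g1 g2
  by_cases h1 : u.2 - r * a ≤ 2 * ρ
  · refine two h hp hp' hU hU' (j, a) ⟨?_, ?_⟩ ⟨?_, ?_⟩ <;> simp only <;> rw [abs_le] <;>
      constructor <;> linarith [e1.1, e1.2]
  by_cases h2 : r * a + r - u.2 ≤ 2 * ρ
  · have e : (r : ℤ) * (a + 1) = r * a + r := by ring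
    refine two h hp hp' hU hU' (j, a + 1) ⟨?_, ?_⟩ ⟨?_, ?_⟩ <;> simp only <;> rw [abs_le] <;>
      constructor <;> linarith [e1.1, e1.2]
  push Not at h1 h2
  have hl1 : 1 ≤ l := h.hl
  obtain ⟨g3, g4⟩ := (div_iff l hl1 u.2 _).1 rfl
  have er : (r : ℤ) * (j - 1) = r * j - r := by ring
  refine middle h hp hp' (d := Dir.lf) (x0 := r * j - 1) (y0 := l * (u.2 / (l : ℤ)))
    ⟨?_, ?_⟩ ?_ ?_ ?_ ?_ ⟨_, j, Or.inr ⟨Or.inr rfl, rfl, Or.inr rfl⟩⟩
  · intro v hv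
    unfold bal at hv
    simp only [tc, hc] at hv
    obtain ⟨⟨v1, v2⟩, v3, v4⟩ := hv
    have : fl r v = (j - 1, a) := by
      rw [fl_iff r hr1]
      simp only
      rw [er]
      refine ⟨⟨by linarith, by linarith⟩, by linarith, by linarith⟩
    unfold Bv
    rw [this, ← f2]
    exact hB
  · intro v hv hv'
    simp only [tc, hc] at hv hv'
    have : fl r v = fl r u := by
      rw [f1, fl_iff r hr1]
      simp only
      rcases hv' with hv' | hv' <;>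
        exact ⟨⟨by linarith, by linarith⟩, by linarith [hv.1, hv.2], by linarith [hv.1, hv.2]⟩
    unfold Pv Bv
    rw [this]
    exact ⟨hU, hp.nB⟩
  · simp only [tc]
    constructor <;> linarith
  · simp only [hc]
    linarith
  · simp only [tc]
    constructor <;> linarith [e1.1, e1.2]
  · simp only [hc]
    linarith

theorem sameRt (h : Ctx N r k ρ l c n M F) {u p u' p' : Vtx}
    (hp : Pnt N r k c n M F u p) (hp' : Pnt N r k c n M F u' p')
    (hU : Pv N r k c u) (hU' : Pv N r k c u')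
    (d1 : |u.2 - u'.2| ≤ 4 * l) {a j : ℤ}
    (hj : u.1 + 1 = r * j) (hj' : u'.1 + 1 = r * j)
    (f1 : fl r u = (j - 1, a)) (f1' : fl r u' = (j - 1, a))
    (f2 : fl r (inn Dir.rt u) = (j, a)) (hB : Bv N r (inn Dir.rt u)) :
    RA N r k c n M F p p' := by
  have hr1 : 1 ≤ r := by have := h.r1; omega
  obtain ⟨c1, c2, c3⟩ := h.nums
  have e1 := abs_le.1 d1
  obtain ⟨-, g1, g2⟩ := (fl_iff r hr1 _ _).1 f1
  simp only at g1 g2
  by_cases h1 : u.2 - r * a ≤ 2 * ρ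
  · refine two h hp hp' hU hU' (j, a) ⟨?_, ?_⟩ ⟨?_, ?_⟩ <;> simp only <;> rw [abs_le] <;>
      constructor <;> linarith [e1.1, e1.2]
  by_cases h2 : r * a + r - u.2 ≤ 2 * ρ
  · have e : (r : ℤ) * (a + 1) = r * a + r := by ring
    refine two h hp hp' hU hU' (j, a + 1) ⟨?_, ?_⟩ ⟨?_, ?_⟩ <;> simp only <;> rw [abs_le] <;>
      constructor <;> linarith [e1.1, e1.2]
  push Not at h1 h2
  have hl1 : 1 ≤ l := h.hl
  obtain ⟨g3, g4⟩ := (div_iff l hl1 u.2 _).1 rfl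
  have er : (r : ℤ) * (j - 1) = r * j - r := by ring
  refine middle h hp hp' (d := Dir.rt) (x0 := r * j) (y0 := l * (u.2 / (l : ℤ)))
    ⟨?_, ?_⟩ ?_ ?_ ?_ ?_ ⟨_, j, Or.inr ⟨Or.inl rfl, rfl, Or.inl rfl⟩⟩
  · intro v hv
    unfold bal at hv
    simp only [tc, hc] at hv
    obtain ⟨⟨v1, v2⟩, v3, v4⟩ := hv
    have : fl r v = (j, a) := by
      rw [fl_iff r hr1]
      simp only
      refine ⟨⟨by linarith, by linarith⟩, by linarith, by linarith⟩
    unfold Bv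
    rw [this, ← f2]
    exact hB
  · intro v hv hv'
    simp only [tc, hc] at hv hv'
    have : fl r v = fl r u := by
      rw [f1, fl_iff r hr1]
      simp only
      rw [er]
      rcases hv' with hv' | hv' <;>
        exact ⟨⟨by linarith, by linarith⟩, by linarith [hv.1, hv.2], by linarith [hv.1, hv.2]⟩
    unfold Pv Bv
    rw [this]
    exact ⟨hU, hp.nB⟩
  · simp only [tc]
    constructor <;> linarith
  · simp only [hc]
    linarith
  · simp only [tc]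
    constructor <;> linarith [e1.1, e1.2]
  · simp only [hc]
    linarith

/-- two lines at distance less than `r` coincide -/
theorem line_eq (hr : 1 ≤ r) {j j' : ℤ} (h1 : (r : ℤ) * j - r * j' < r) (h2 : (r : ℤ) * j' - r * j < r) :
    j = j' := by
  have hr0 : (0 : ℤ) < r := by exact_mod_cast hr
  by_contra hne
  rcases lt_or_gt_of_ne hne with h3 | h3
  · have : j + 1 ≤ j' := h3
    nlinarith
  · have : j' + 1 ≤ j := h3
    nlinarith

theorem caseC (h : Ctx N r k ρ l c n M F) {u p u' p' : Vtx}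
    (hp : Pnt N r k c n M F u p) (hp' : Pnt N r k c n M F u' p')
    (hU : Pv N r k c u) (hU' : Pv N r k c u')
    (d1 : |u.1 - u'.1| ≤ 4 * l) (d2 : |u.2 - u'.2| ≤ 4 * l) :
    RA N r k c n M F p p' := by
  have hr1 : 1 ≤ r := by have := h.r1; omega
  obtain ⟨c1, c2, c3⟩ := h.nums
  obtain ⟨d, hd⟩ := dirn h hp hU
  obtain ⟨d', hd'⟩ := dirn h hp' hU'
  have e1 := abs_le.1 d1
  have e2 := abs_le.1 d2
  by_cases hdH : d = Dir.dn ∨ d = Dir.up
  · obtain ⟨j, hj, hfl⟩ := lineH hr1 hp.nB hdH hd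
    have ej := abs_le.1 hj
    by_cases hdH' : d' = Dir.dn ∨ d' = Dir.up
    · obtain ⟨j', hj', hfl'⟩ := lineH hr1 hp'.nB hdH' hd'
      have ej' := abs_le.1 hj'
      by_cases hne : u.1 / (r : ℤ) = u'.1 / r
      · have hjj : j = j' := line_eq hr1 (by linarith [e2.1, e2.2, ej.1, ej.2, ej'.1, ej'.2])
          (by linarith [e2.1, e2.2, ej.1, ej.2, ej'.1, ej'.2])
        subst hjj
        rw [← hne] at hfl'
        rcases hfl with ⟨rfl, f0, f1, f2⟩ | ⟨rfl, f0, f1, f2⟩ <;>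
          rcases hfl' with ⟨rfl, f0', f1', f2'⟩ | ⟨rfl, f0', f1', f2'⟩
        · exact sameDn h hp hp' hU hU' d1 f0 f0' f1 f1' f2 hd
        · exfalso
          apply hp'.nB
          unfold Bv
          rw [f1', ← f2]
          exact hd
        · exfalso
          apply hp'.nB
          unfold Bv
          rw [f1', ← f2]
          exact hd
        · exact sameUp h hp hp' hU hU' d1 f0 f0' f1 f1' f2 hd
      · obtain ⟨i, i1, i2⟩ := col hr1 hne d1
        have ei1 := abs_le.1 i1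
        have ei2 := abs_le.1 i2
        refine two h hp hp' hU hU' (i, j) ⟨?_, ?_⟩ ⟨?_, ?_⟩ <;> simp only <;> rw [abs_le] <;>
          constructor <;> linarith [e2.1, e2.2, ej.1, ej.2, ei1.1, ei1.2, ei2.1, ei2.2]
    · have hdV' : d' = Dir.lf ∨ d' = Dir.rt := by cases d' <;> simp_all
      obtain ⟨i, hi, -⟩ := lineV hr1 hp'.nB hdV' hd'
      have ei := abs_le.1 hi
      refine two h hp hp' hU hU' (i, j) ⟨?_, ?_⟩ ⟨?_, ?_⟩ <;> simp only <;> rw [abs_le] <;>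
        constructor <;> linarith [e1.1, e1.2, e2.1, e2.2, ej.1, ej.2, ei.1, ei.2]
  · have hdV : d = Dir.lf ∨ d = Dir.rt := by cases d <;> simp_all
    obtain ⟨j, hj, hfl⟩ := lineV hr1 hp.nB hdV hd
    have ej := abs_le.1 hj
    by_cases hdH' : d' = Dir.dn ∨ d' = Dir.up
    · obtain ⟨i, hi, -⟩ := lineH hr1 hp'.nB hdH' hd'
      have ei := abs_le.1 hi
      refine two h hp hp' hU hU' (j, i) ⟨?_, ?_⟩ ⟨?_, ?_⟩ <;> simp only <;> rw [abs_le] <;>
        constructor <;> linarith [e1.1, e1.2, e2.1, e2.2, ej.1, ej.2, ei.1, ei.2]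
    · have hdV' : d' = Dir.lf ∨ d' = Dir.rt := by cases d' <;> simp_all
      obtain ⟨j', hj', hfl'⟩ := lineV hr1 hp'.nB hdV' hd'
      have ej' := abs_le.1 hj'
      by_cases hne : u.2 / (r : ℤ) = u'.2 / r
      · have hjj : j = j' := line_eq hr1 (by linarith [e1.1, e1.2, ej.1, ej.2, ej'.1, ej'.2])
          (by linarith [e1.1, e1.2, ej.1, ej.2, ej'.1, ej'.2])
        subst hjj
        rw [← hne] at hfl'
        rcases hfl with ⟨rfl, f0, f1, f2⟩ | ⟨rfl, f0, f1, f2⟩ <;>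
          rcases hfl' with ⟨rfl, f0', f1', f2'⟩ | ⟨rfl, f0', f1', f2'⟩
        · exact sameLf h hp hp' hU hU' d2 f0 f0' f1 f1' f2 hd
        · exfalso
          apply hp'.nB
          unfold Bv
          rw [f1', ← f2]
          exact hd
        · exfalso
          apply hp'.nB
          unfold Bv
          rw [f1', ← f2]
          exact hd
        · exact sameRt h hp hp' hU hU' d2 f0 f0' f1 f1' f2 hd
      · obtain ⟨i, i1, i2⟩ := col hr1 hne d2
        have ei1 := abs_le.1 i1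
        have ei2 := abs_le.1 i2
        refine two h hp hp' hU hU' (j, i) ⟨?_, ?_⟩ ⟨?_, ?_⟩ <;> simp only <;> rw [abs_le] <;>
          constructor <;> linarith [e1.1, e1.2, ej.1, ej.2, ei1.1, ei1.2, ei2.1, ei2.2]

theorem caseA (h : Ctx N r k ρ l c n M F) {u p u' p' : Vtx}
    (hp : Pnt N r k c n M F u p) (hp' : Pnt N r k c n M F u' p')
    (hU : ¬ Pv N r k c u) (hU' : ¬ Pv N r k c u')
    (d1 : |u.1 - u'.1| ≤ 4 * l) (d2 : |u.2 - u'.2| ≤ 4 * l) :
    RA N r k c n M F p p' := by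
  have hr1 : 1 ≤ r := by have := h.r1; omega
  have hrr : (1024 : ℤ) ≤ r := by exact_mod_cast h.r1
  obtain ⟨c1, c2, c3⟩ := h.nums
  have hr0 : (0 : ℤ) < r := by exact_mod_cast hr1
  have key : ∀ x x' : ℤ, |x - x'| ≤ 4 * l → |x / (r : ℤ) - x' / r| ≤ 1 := by
    intro x x' hx
    have h1 := (div_iff r hr1 x _).1 rfl
    have h2 := (div_iff r hr1 x' _).1 rfl
    have h3 := abs_le.1 hx
    rw [abs_le]
    constructor
    · by_contra hcon
      have h4 : x / (r : ℤ) + 2 ≤ x' / r := by omega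
      nlinarith
    · by_contra hcon
      have h4 : x' / (r : ℤ) + 2 ≤ x / r := by omega
      nlinarith
  have e1 := abs_le.1 d1
  have e2 := abs_le.1 d2
  have g1 := hp.dg
  obtain ⟨g2, g3⟩ := hp.wl
  exact RA_chain hp.con (outer h hU hU' (key _ _ d1) (key _ _ d2)
    (by linarith [hp.band])
    ⟨by simp only; linarith, by simp only; linarith, by simp only; linarith⟩
    ⟨by simp only; linarith [e1.1, e1.2, e2.1, e2.2], by simp only; linarith [e1.1, e1.2, e2.1, e2.2],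
      by simp only; linarith [e1.1, e1.2, e2.1, e2.2]⟩
    ⟨by simp only; linarith [e1.1, e1.2, e2.1, e2.2], by simp only; linarith [e1.1, e1.2, e2.1, e2.2],
      by simp only; linarith [e1.1, e1.2, e2.1, e2.2]⟩
    ⟨by simp only; linarith [e1.1, e1.2, e2.1, e2.2], by simp only; linarith [e1.1, e1.2, e2.1, e2.2],
      by simp only; linarith [e1.1, e1.2, e2.1, e2.2]⟩)
    (Reach.refl _ _) (Reach.refl _ _) hp'.con

end D

end TSEPA

open Pool.Agent.H160R2.MU.TSEPA (fl_iff) in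
open TSEPA in
/-- **class 1: different clusters are far from each other at the boundary of the tubes** -/
theorem t_SEPA : S_q1 → S_q4 → S_SEPA := by
  intro hq1 hq4 N r m ρ l c hm hmN hAdm hl hlρ hρr n M hn hM F hF hbad p p' u u'
    hXp hXp' hpu hpu' hu hu' hNr
  obtain ⟨-, -, g0⟩ := hq1 N (m / 2) c (by omega) hAdm
  obtain ⟨g1, g2, g3, g4⟩ := hq4 N (m / 2) c (by omega) hAdm _ rfl
  have h : Ctx N r (m / 2) ρ l c n M F :=
    ⟨by omega, hl, hlρ, hρr, hn, hM, hF, hbad, g3, g1, g2, g4⟩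
  have hr1 : 1 ≤ r := by have := h.r1; omega
  have mk : ∀ u p : Vtx, XA N r (m / 2) c n p →
      Reach (dlq n (per (2 * n) (FA N r (m / 2) c n M F))) p u →
      (∃ e : Edg, du e ∈ Ss n ∧ du e ∉ EP r (BxQ N) ∧ du e ∈ EP r (CrC N (m / 2) c) ∧
        (src e = u ∨ tgt e = u)) →
      Pnt N r (m / 2) c n M F u p := by
    intro u p hX hR hu
    obtain ⟨a2, aR, U2, a3, a4, a5⟩ := U_facts hr1 hu
    have b2 := XA_facts hr1 hX
    obtain ⟨a, s, ht⟩ := a5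
    obtain ⟨t1, t2, t3, t4⟩ := g0 a s _ ht
    obtain ⟨⟨z1, z2⟩, z3, z4⟩ := (fl_iff r hr1 U2 _).1 rfl
    have hr0 : (0 : ℤ) < r := by exact_mod_cast hr1
    have hrr : (1024 : ℤ) ≤ r := by exact_mod_cast h.r1
    have hnZ := h.nZ
    have hN6 : (6 : ℤ) ≤ N := by exact_mod_cast h.hN
    have e3 := abs_le.1 a3
    have e4 := abs_le.1 a4
    obtain ⟨r1, r2, r3⟩ := aR
    have m0 : 3 * (r : ℤ) ≤ r * (fl r U2).1 - r * (fl r U2).2 := by nlinarith [t1]
    have m1 : (r : ℤ) * (fl r U2).1 - r * (fl r U2).2 ≤ 10 * N * r := by nlinarith [t2]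
    have m2 : 3 * (r : ℤ) + 2 * (s * n) ≤ r * (fl r U2).1 + r * (fl r U2).2 := by
      rw [hnZ]; nlinarith [t3]
    have m3 : (r : ℤ) * (fl r U2).1 + r * (fl r U2).2 ≤ 2 * (s * n) + 2 * n - 5 * r := by
      rw [hnZ]; nlinarith [t4]
    have m4 : (10 : ℤ) * N * r + 17 * r + 4 ≤ 2 * n := by
      rw [hnZ]; nlinarith
    have hn0 : (0 : ℤ) < n := by have := h.n1; omega
    have hs : s = 0 := by
      rcases lt_trichotomy s 0 with h1 | h1 | h1
      · exfalso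
        have : s * (n : ℤ) ≤ -1 * n := by
          apply mul_le_mul_of_nonneg_right _ hn0.le
          omega
        linarith [e3.1, e3.2, e4.1, e4.2]
      · exact h1
      · exfalso
        have : 1 * (n : ℤ) ≤ s * n := by
          apply mul_le_mul_of_nonneg_right _ hn0.le
          omega
        linarith [e3.1, e3.2, e4.1, e4.2]
    rw [hs] at m2 m3
    refine ⟨a2, ?_, ⟨?_, ?_⟩, ?_, b2, hR⟩
    · linarith [e3.1, e3.2, e4.1, e4.2]
    · linarith [e3.1, e3.2, e4.1, e4.2]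
    · linarith [e3.1, e3.2, e4.1, e4.2]
    · have : |u.1 - u.2| ≤ 10 * N * r + r + 2 := by
        rw [abs_le]
        constructor <;> linarith [e3.1, e3.2, e4.1, e4.2]
      linarith
  have hp := mk u p hXp hpu hu
  have hp' := mk u' p' hXp' hpu' hu'
  obtain ⟨d1, d2⟩ := hNr
  by_cases hU : Pv N r (m / 2) c u
  · by_cases hU' : Pv N r (m / 2) c u'
    · exact caseC h hp hp' hU hU' d1 d2
    · exact caseB h hp hp' hU hU' d1 d2
  · by_cases hU' : Pv N r (m / 2) c u'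
    · refine (caseB h hp' hp hU' hU ?_ ?_).symm
      · rw [abs_sub_comm]; exact d1
      · rw [abs_sub_comm]; exact d2
    · exact caseA h hp hp' hU hU' d1 d2

end Pool.Agent.W808.KC
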