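import Pool.Agent.W808.KC.T_Fc

/-!
Connections in the strip and faces of the word (`S_SM`).
-/

set_option autoImplicit false

namespace Pool.Agent.W808.KC
open H974
open H906.Cyl hiding up
open Pool.Agent.W808.HU (du)
open Pool.Agent.H988R2.Perc (Word ins cap act Dyck LP mem_LP length_ins length_act length_cap
  dyck_act dyck_cap)
open Pool.Agent.H988R2.Perc.St (low up)
open Relation

namespace TSM
open TFc

/-! ### equivalence closures -/

theorem eqvGen_mono {α : Type*} {E E' : α → α → Prop} (h : ∀ a b, E a b → EqvGen E' a b) {x y : α}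
    (hxy : EqvGen E x y) : EqvGen E' x y := by
  induction hxy with
  | rel a b k => exact h a b k
  | refl a => exact EqvGen.refl _
  | symm a b _ ih => exact EqvGen.symm _ _ ih
  | trans a b d _ _ ih1 ih2 => exact EqvGen.trans _ _ _ ih1 ih2

theorem eqvGen_add {α : Type*} {E E' : α → α → Prop} {p p' : α}
    (hE : ∀ a b, E' a b ↔ (E a b ∨ (a = p ∧ b = p'))) (x y : α) :
    EqvGen E' x y ↔ EqvGen E x y ∨ ((EqvGen E x p ∧ EqvGen E p' y) ∨
        (EqvGen E x p' ∧ EqvGen E p y)) := by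
  constructor
  · intro h
    induction h with
    | rel a b h =>
      rcases (hE a b).1 h with h | ⟨rfl, rfl⟩
      · exact Or.inl (EqvGen.rel _ _ h)
      · exact Or.inr (Or.inl ⟨EqvGen.refl _, EqvGen.refl _⟩)
    | refl a => exact Or.inl (EqvGen.refl _)
    | symm a b _ ih =>
      rcases ih with h | ⟨h1, h2⟩ | ⟨h1, h2⟩
      · exact Or.inl (h.symm _ _)
      · exact Or.inr (Or.inr ⟨h2.symm _ _, h1.symm _ _⟩)
      · exact Or.inr (Or.inl ⟨h2.symm _ _, h1.symm _ _⟩)
    | trans a b d _ _ ih1 ih2 =>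
      rcases ih1 with h | ⟨h1, h2⟩ | ⟨h1, h2⟩ <;>
        rcases ih2 with k | ⟨k1, k2⟩ | ⟨k1, k2⟩
      · exact Or.inl (h.trans _ _ _ k)
      · exact Or.inr (Or.inl ⟨h.trans _ _ _ k1, k2⟩)
      · exact Or.inr (Or.inr ⟨h.trans _ _ _ k1, k2⟩)
      · exact Or.inr (Or.inl ⟨h1, h2.trans _ _ _ k⟩)
      · exact Or.inr (Or.inl ⟨h1, k2⟩)
      · exact Or.inl (h1.trans _ _ _ k2)
      · exact Or.inr (Or.inr ⟨h1, h2.trans _ _ _ k⟩)
      · exact Or.inl (h1.trans _ _ _ k2)
      · exact Or.inr (Or.inr ⟨h1, k2⟩)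
  · intro h
    have hmono : ∀ a b, EqvGen E a b → EqvGen E' a b :=
      fun a b k => eqvGen_mono (fun a b k => EqvGen.rel _ _ ((hE a b).2 (Or.inl k))) k
    have h3 : EqvGen E' p p' := EqvGen.rel _ _ ((hE p p').2 (Or.inr ⟨rfl, rfl⟩))
    rcases h with h | ⟨h1, h2⟩ | ⟨h1, h2⟩
    · exact hmono _ _ h
    · exact ((hmono _ _ h1).trans _ _ _ h3).trans _ _ _ (hmono _ _ h2)
    · exact ((hmono _ _ h1).trans _ _ _ (h3.symm _ _)).trans _ _ _ (hmono _ _ h2)

/-- `v` is isolated -/
def Iso {α : Type*} (E : α → α → Prop) (v : α) : Prop := ∀ a, ¬ E v a ∧ ¬ E a v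

theorem Iso.eqv {α : Type*} {E : α → α → Prop} {v : α} (hv : Iso E v) {x y : α}
    (h : EqvGen E x y) : x = y ∨ (x ≠ v ∧ y ≠ v) := by
  induction h with
  | rel a b h =>
    refine Or.inr ⟨?_, ?_⟩
    · rintro rfl; exact (hv _).1 h
    · rintro rfl; exact (hv _).2 h
  | refl a => exact Or.inl rfl
  | symm a b _ ih =>
    rcases ih with h | ⟨h, h'⟩
    · exact Or.inl h.symm
    · exact Or.inr ⟨h', h⟩
  | trans a b d _ _ ih1 ih2 =>
    rcases ih1 with h | ⟨h, h'⟩ <;> rcases ih2 with k | ⟨k, k'⟩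
    · exact Or.inl (h.trans k)
    · subst h; exact Or.inr ⟨k, k'⟩
    · subst k; exact Or.inr ⟨h, h'⟩
    · exact Or.inr ⟨h, k'⟩

theorem Iso.left {α : Type*} {E : α → α → Prop} {v : α} (hv : Iso E v) {x : α} (hx : x ≠ v) :
    ¬ EqvGen E v x := by
  intro h
  rcases hv.eqv h with h | h
  · exact hx h.symm
  · exact h.1 rfl

theorem Iso.right {α : Type*} {E : α → α → Prop} {v : α} (hv : Iso E v) {x : α} (hx : x ≠ v) :
    ¬ EqvGen E x v := fun h => hv.left hx (h.symm _ _)

/-! ### words and connections of a frontier -/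

/-- the word `w` describes the connections of the frontier `α` -/
def Rep (N : ℕ) (w : Word) (E : ℤ × ℤ → ℤ × ℤ → Prop) (α : ℕ → ℤ × ℤ) : Prop :=
  ∀ a b, a ≤ N → b ≤ N → (Fc w a b ↔ EqvGen E (α a) (α b))

theorem Rep.congr {N : ℕ} {w : Word} {E E' : ℤ × ℤ → ℤ × ℤ → Prop} {α α' : ℕ → ℤ × ℤ}
    (h : Rep N w E α) (hE : ∀ a b, E a b ↔ E' a b) (hα : ∀ a, a ≤ N → α a = α' a) :
    Rep N w E' α' := by
  have : E = E' := by
    funext a b; exact propext (hE a b)
  subst this
  intro a b ha hb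
  rw [h a b ha hb, hα a ha, hα b hb]

theorem Rep.tileT {N i : ℕ} {w : Word} {E E' : ℤ × ℤ → ℤ × ℤ → Prop} {α α' : ℕ → ℤ × ℤ}
    (h : Rep N w E α) (hw : Dyck w) (hl : w.length = N) (hi : i + 2 ≤ N) {v p p' : ℤ × ℤ}
    (hv : Iso E v) (hne : ∀ a, a ≤ N → α a ≠ v) (hv' : α' (i + 1) = v)
    (hα : ∀ a, a ≤ N → a ≠ i + 1 → α' a = α a)
    (hp : (p = α i ∧ p' = α (i + 2)) ∨ (p = α (i + 2) ∧ p' = α i))
    (hE : ∀ a b, E' a b ↔ (E a b ∨ (a = p ∧ b = p'))) :
    Rep N (act i w) E' α' := by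
  intro a b ha hb
  have hpv : p ≠ v := by
    rcases hp with ⟨h1, _⟩ | ⟨h1, _⟩
    · rw [h1]; exact hne _ (by omega)
    · rw [h1]; exact hne _ (by omega)
  have hpv' : p' ≠ v := by
    rcases hp with ⟨_, h1⟩ | ⟨_, h1⟩
    · rw [h1]; exact hne _ (by omega)
    · rw [h1]; exact hne _ (by omega)
  rw [Fc_act hw (by omega), eqvGen_add hE]
  unfold actR
  by_cases hai : a = i + 1
  · by_cases hbi : b = i + 1
    · subst hai; subst hbi
      simp [EqvGen.refl]
    · rw [hai, hv', hα b hb hbi]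
      constructor
      · rintro (h | h)
        · omega
        · exact absurd rfl h.1
      · rintro (h | ⟨h, _⟩ | ⟨h, _⟩)
        · exact absurd h (hv.left (hne b hb))
        · exact absurd h (hv.left hpv)
        · exact absurd h (hv.left hpv')
  · by_cases hbi : b = i + 1
    · rw [hbi, hv', hα a ha hai]
      constructor
      · rintro (h | h)
        · omega
        · exact absurd rfl h.2.1
      · rintro (h | ⟨_, h⟩ | ⟨_, h⟩)
        · exact absurd h (hv.right (hne a ha))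
        · exact absurd h (hv.right hpv')
        · exact absurd h (hv.right hpv)
    · rw [hα a ha hai, hα b hb hbi, h a b ha hb, h a i ha (by omega), h (i + 2) b (by omega) hb,
        h a (i + 2) ha (by omega), h i b (by omega) hb]
      have key : (a = b ∨ (a ≠ i + 1 ∧ b ≠ i + 1 ∧
          (EqvGen E (α a) (α b) ∨ (EqvGen E (α a) (α i) ∧ EqvGen E (α (i + 2)) (α b)) ∨
            (EqvGen E (α a) (α (i + 2)) ∧ EqvGen E (α i) (α b))))) ↔
          (EqvGen E (α a) (α b) ∨ (EqvGen E (α a) (α i) ∧ EqvGen E (α (i + 2)) (α b)) ∨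
            (EqvGen E (α a) (α (i + 2)) ∧ EqvGen E (α i) (α b))) := by
        constructor
        · rintro (h | h)
          · rw [h]; exact Or.inl (EqvGen.refl _)
          · exact h.2.2
        · intro h; exact Or.inr ⟨hai, hbi, h⟩
      rw [key]
      rcases hp with ⟨h1, h2⟩ | ⟨h1, h2⟩
      · rw [h1, h2]
      · rw [h1, h2]
        constructor
        · rintro (h | h | h)
          · exact Or.inl h
          · exact Or.inr (Or.inr h)
          · exact Or.inr (Or.inl h)
        · rintro (h | h | h)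
          · exact Or.inl h
          · exact Or.inr (Or.inr h)
          · exact Or.inr (Or.inl h)

theorem Rep.tileF {N i : ℕ} {w : Word} {E E' : ℤ × ℤ → ℤ × ℤ → Prop} {α α' : ℕ → ℤ × ℤ}
    (h : Rep N w E α) (hi : i + 1 ≤ N) {v p p' : ℤ × ℤ}
    (hv : Iso E v) (hne : ∀ a, a ≤ N → α a ≠ v) (hv' : α' (i + 1) = v)
    (hα : ∀ a, a ≤ N → a ≠ i + 1 → α' a = α a)
    (hp : (p = α (i + 1) ∧ p' = v) ∨ (p = v ∧ p' = α (i + 1)))
    (hE : ∀ a b, E' a b ↔ (E a b ∨ (a = p ∧ b = p'))) :
    Rep N w E' α' := by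
  intro a b ha hb
  have hE2 : ∀ x y, EqvGen E' x y ↔ EqvGen E x y ∨ ((EqvGen E x (α (i + 1)) ∧ EqvGen E v y) ∨
        (EqvGen E x v ∧ EqvGen E (α (i + 1)) y)) := by
    intro x y
    rw [eqvGen_add hE]
    rcases hp with ⟨h1, h2⟩ | ⟨h1, h2⟩
    · rw [h1, h2]
    · rw [h1, h2]
      constructor
      · rintro (h | h | h)
        · exact Or.inl h
        · exact Or.inr (Or.inr h)
        · exact Or.inr (Or.inl h)
      · rintro (h | h | h)
        · exact Or.inl h
        · exact Or.inr (Or.inr h)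
        · exact Or.inr (Or.inl h)
  rw [hE2]
  by_cases hai : a = i + 1
  · by_cases hbi : b = i + 1
    · subst hai; subst hbi
      simp [EqvGen.refl, Fc_refl]
    · rw [h a b ha hb, hai, hv', hα b hb hbi]
      have hb' := hv.left (hne b hb)
      constructor
      · intro h; exact Or.inr (Or.inr ⟨EqvGen.refl _, h⟩)
      · rintro (h | ⟨_, h⟩ | ⟨_, h⟩)
        · exact absurd h hb'
        · exact absurd h hb'
        · exact h
  · by_cases hbi : b = i + 1
    · rw [h a b ha hb, hbi, hv', hα a ha hai]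
      have ha' := hv.right (hne a ha)
      constructor
      · intro h; exact Or.inr (Or.inl ⟨h, EqvGen.refl _⟩)
      · rintro (h | ⟨h, _⟩ | ⟨h, _⟩)
        · exact absurd h ha'
        · exact h
        · exact absurd h ha'
    · rw [hα a ha hai, hα b hb hbi, h a b ha hb]
      have hb' := hv.left (hne b hb)
      have ha' := hv.right (hne a ha)
      constructor
      · intro h; exact Or.inl h
      · rintro (h | ⟨_, h⟩ | ⟨h, _⟩)
        · exact h
        · exact absurd h hb'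
        · exact absurd h ha'

/-! ### links of the squares -/

/-- the link of the square of columns `j, j+1` and depths `t, t+1` -/
def Lk (G : Set Edg) (j t : ℤ) (p q : ℤ × ℤ) : Prop :=
  ((edz (j - 1) t ∈ G ↔ (j + t) % 2 = 1) ∧ p = (j, t) ∧ q = (j + 1, t + 1)) ∨
  (¬ (edz (j - 1) t ∈ G ↔ (j + t) % 2 = 1) ∧ p = (j + 1, t) ∧ q = (j, t + 1))

/-- links of a set `S` of squares; left wall below depth `dl`, right wall below depth `dr` -/
def EE (n : ℕ) (G : Set Edg) (S : ℤ → ℤ → Prop) (dl dr : ℤ) (p q : ℤ × ℤ) : Prop :=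
  (∃ j t : ℤ, 0 ≤ j ∧ j ≤ 2 * (n : ℤ) + 1 ∧ S j t ∧ Lk G j t p q) ∨
  (∃ s : ℤ, dl ≤ 2 * s ∧ p = (0, 2 * s) ∧ q = (0, 2 * s + 2)) ∨
  (∃ s : ℤ, dr ≤ 2 * s ∧ p = (2 * (n : ℤ) + 2, 2 * s) ∧ q = (2 * (n : ℤ) + 2, 2 * s + 2))

theorem EE_add {n : ℕ} {G : Set Edg} {S S' : ℤ → ℤ → Prop} {dl dr : ℤ} {j t : ℤ} {p p' : ℤ × ℤ}
    (hj : 0 ≤ j) (hj' : j ≤ 2 * n + 1)
    (hS : ∀ j' t' : ℤ, 0 ≤ j' → j' ≤ 2 * (n : ℤ) + 1 → (S' j' t' ↔ (S j' t' ∨ (j' = j ∧ t' = t))))
    (hp : Lk G j t p p') (a b : ℤ × ℤ) :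
    EE n G S' dl dr a b ↔ (EE n G S dl dr a b ∨ (a = p ∧ b = p')) := by
  constructor
  · rintro (⟨j', t', h1, h2, h3, h4⟩ | h)
    · rcases (hS j' t' h1 h2).1 h3 with h3 | ⟨rfl, rfl⟩
      · exact Or.inl (Or.inl ⟨j', t', h1, h2, h3, h4⟩)
      · right
        rcases hp with ⟨k1, k2, k3⟩ | ⟨k1, k2, k3⟩ <;> rcases h4 with ⟨l1, l2, l3⟩ | ⟨l1, l2, l3⟩
        · rw [k2, k3]; exact ⟨l2, l3⟩
        · exact absurd k1 l1
        · exact absurd l1 k1
        · rw [k2, k3]; exact ⟨l2, l3⟩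
    · exact Or.inl (Or.inr h)
  · rintro ((⟨j', t', h1, h2, h3, h4⟩ | h) | ⟨h1, h2⟩)
    · exact Or.inl ⟨j', t', h1, h2, (hS j' t' h1 h2).2 (Or.inl h3), h4⟩
    · exact Or.inr h
    · refine Or.inl ⟨j, t, hj, hj', (hS j t hj hj').2 (Or.inr ⟨rfl, rfl⟩), ?_⟩
      rw [h1, h2]; exact hp

theorem EE_addR {n : ℕ} {G : Set Edg} {S : ℤ → ℤ → Prop} {dl s : ℤ} (a b : ℤ × ℤ) :
    EE n G S dl (2 * s) a b ↔ (EE n G S dl (2 * s + 2) a b ∨
      (a = (2 * (n : ℤ) + 2, 2 * s) ∧ b = (2 * (n : ℤ) + 2, 2 * s + 2))) := by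
  constructor
  · rintro (h | h | ⟨s', h1, h2, h3⟩)
    · exact Or.inl (Or.inl h)
    · exact Or.inl (Or.inr (Or.inl h))
    · by_cases hs : s' = s
      · subst hs; exact Or.inr ⟨h2, h3⟩
      · exact Or.inl (Or.inr (Or.inr ⟨s', by omega, h2, h3⟩))
  · rintro ((h | h | ⟨s', h1, h2, h3⟩) | ⟨h1, h2⟩)
    · exact Or.inl h
    · exact Or.inr (Or.inl h)
    · exact Or.inr (Or.inr ⟨s', by omega, h2, h3⟩)
    · exact Or.inr (Or.inr ⟨s, by omega, h1, h2⟩)

theorem EE_addL {n : ℕ} {G : Set Edg} {S : ℤ → ℤ → Prop} {dr s : ℤ} (a b : ℤ × ℤ) :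
    EE n G S (2 * s) dr a b ↔ (EE n G S (2 * s + 2) dr a b ∨
      (a = (0, 2 * s) ∧ b = (0, 2 * s + 2))) := by
  constructor
  · rintro (h | ⟨s', h1, h2, h3⟩ | h)
    · exact Or.inl (Or.inl h)
    · by_cases hs : s' = s
      · subst hs; exact Or.inr ⟨h2, h3⟩
      · exact Or.inl (Or.inr (Or.inl ⟨s', by omega, h2, h3⟩))
    · exact Or.inl (Or.inr (Or.inr h))
  · rintro ((h | ⟨s', h1, h2, h3⟩ | h) | ⟨h1, h2⟩)
    · exact Or.inl h
    · exact Or.inr (Or.inl ⟨s', by omega, h2, h3⟩)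
    · exact Or.inr (Or.inr h)
    · exact Or.inr (Or.inl ⟨s, by omega, h1, h2⟩)

/-- a point not touched by the squares of `S` and the walls is isolated -/
theorem EE_iso {n : ℕ} {G : Set Edg} {S : ℤ → ℤ → Prop} {dl dr x y : ℤ}
    (hS : ∀ j t : ℤ, 0 ≤ j → j ≤ 2 * (n : ℤ) + 1 → S j t →
      ¬ ((x = j ∧ y = t) ∨ (x = j + 1 ∧ y = t + 1) ∨ (x = j + 1 ∧ y = t) ∨ (x = j ∧ y = t + 1)))
    (hl : x = 0 → dl ≤ y → y % 2 = 1) (hr : x = 2 * n + 2 → dr ≤ y → y % 2 = 1) :
    Iso (EE n G S dl dr) (x, y) := by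
  intro a
  constructor
  · rintro (⟨j, t, h1, h2, h3, ⟨_, h5, h6⟩ | ⟨_, h5, h6⟩⟩ | ⟨s, h1, h2, h3⟩ | ⟨s, h1, h2, h3⟩)
    · apply hS j t h1 h2 h3
      simp only [Prod.mk.injEq] at h5
      exact Or.inl h5
    · apply hS j t h1 h2 h3
      simp only [Prod.mk.injEq] at h5
      exact Or.inr (Or.inr (Or.inl h5))
    · simp only [Prod.mk.injEq] at h2
      have := hl h2.1 (by omega)
      omega
    · simp only [Prod.mk.injEq] at h2
      have := hr h2.1 (by omega)
      omega
  · rintro (⟨j, t, h1, h2, h3, ⟨_, h5, h6⟩ | ⟨_, h5, h6⟩⟩ | ⟨s, h1, h2, h3⟩ | ⟨s, h1, h2, h3⟩)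
    · apply hS j t h1 h2 h3
      simp only [Prod.mk.injEq] at h6
      exact Or.inr (Or.inl h6)
    · apply hS j t h1 h2 h3
      simp only [Prod.mk.injEq] at h6
      exact Or.inr (Or.inr (Or.inr h6))
    · simp only [Prod.mk.injEq] at h3
      have := hl h3.1 (by omega)
      omega
    · simp only [Prod.mk.injEq] at h3
      have := hr h3.1 (by omega)
      omega

/-! ### the stages of a double row, from depth `D` to depth `D - 2` -/

def SF (D : ℤ) (i : ℕ) (j t : ℤ) : Prop := D ≤ t ∨ (t = D - 1 ∧ j < i)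

def SB (D : ℤ) (i : ℕ) (j t : ℤ) : Prop := D - 1 ≤ t ∨ (t = D - 2 ∧ (i : ℤ) ≤ j)

def fF (D : ℤ) (i a : ℕ) : ℤ × ℤ :=
  if a = 0 then (0, D) else if a ≤ i + 1 then ((a : ℤ) - 1, D - 1) else ((a : ℤ) - 2, D)

def fB (D : ℤ) (i a : ℕ) : ℤ × ℤ :=
  if a = 0 then (0, D) else if a ≤ i + 1 then ((a : ℤ) - 1, D - 1) else ((a : ℤ) - 2, D - 2)

theorem rep_ins {n : ℕ} {G : Set Edg} {D : ℤ} (hD : D % 2 = 0) {w : Word}
    (hl : w.length = 2 * n + 2)
    (h : Rep (2 * n + 2) w (EE n G (fun _ t => D ≤ t) D D) (fun a => ((a : ℤ), D))) :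
    Rep (2 * n + 4) (ins 0 w) (EE n G (SF D 0) D D) (fF D 0) := by
  have hE : EE n G (SF D 0) D D = EE n G (fun _ t => D ≤ t) D D := by
    funext p q
    apply propext
    unfold EE
    constructor
    · rintro (⟨j, t, h1, h2, h3, h4⟩ | h)
      · refine Or.inl ⟨j, t, h1, h2, ?_, h4⟩
        unfold SF at h3; push_cast at h3; omega
      · exact Or.inr h
    · rintro (⟨j, t, h1, h2, h3, h4⟩ | h)
      · exact Or.inl ⟨j, t, h1, h2, Or.inl h3, h4⟩
      · exact Or.inr h
  rw [hE]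
  have hv : Iso (EE n G (fun _ t => D ≤ t) D D) (0, D - 1) := by
    apply EE_iso
    · intro j t h1 h2 h3; omega
    · intro _ h; omega
    · intro _ h; omega
  have e1 : fF D 0 1 = (0, D - 1) := by
    unfold fF; rw [if_neg (by omega), if_pos (by omega)]; simp
  have e2 : ∀ a, a ≠ 1 → fF D 0 a = (((low 0 a : ℕ) : ℤ), D) := by
    intro a ha
    unfold fF low
    by_cases h0 : a = 0
    · subst h0; simp
    · rw [if_neg h0, if_neg (by omega), if_neg (by omega)]
      have : ((a - 2 : ℕ) : ℤ) = (a : ℤ) - 2 := by omega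
      rw [this]
  have e3 : ∀ a, a ≠ 1 → fF D 0 a ≠ (0, D - 1) := by
    intro a ha h
    rw [e2 a ha] at h
    simp only [Prod.mk.injEq] at h
    omega
  intro a b ha hb
  rw [Fc_ins (by omega)]
  unfold insR
  by_cases ha1 : a = 1
  · by_cases hb1 : b = 1
    · subst ha1; subst hb1
      simp [EqvGen.refl]
    · rw [ha1, e1]
      constructor
      · rintro (h | h)
        · omega
        · exact absurd rfl h.1
      · intro h
        exact absurd h (hv.left (e3 b hb1))
  · by_cases hb1 : b = 1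
    · rw [hb1, e1]
      constructor
      · rintro (h | h)
        · omega
        · exact absurd rfl h.2.1
      · intro h
        exact absurd h (hv.right (e3 a ha1))
    · rw [e2 a ha1, e2 b hb1, h (low 0 a) (low 0 b) (by unfold low; split_ifs <;> omega)
        (by unfold low; split_ifs <;> omega)]
      constructor
      · rintro (h | h)
        · rw [h]; exact EqvGen.refl _
        · exact h.2.2
      · intro h; exact Or.inr ⟨by omega, by omega, h⟩

/-- invariant of the stages -/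
def Inv (N : ℕ) (w : Word) (E : ℤ × ℤ → ℤ × ℤ → Prop) (α : ℕ → ℤ × ℤ) : Prop :=
  Dyck w ∧ w.length = N ∧ Rep N w E α

open Classical in
/-- the bit of a tile -/
theorem cF_iff (K : ℕ) (G : Set Edg) (k i : ℕ) (j t : ℤ) (hj : j = i) (ht : t = 2 * K - 1 - k) :
    cF K G k (i + 1) = true ↔ (edz (j - 1) t ∈ G ↔ j % 2 = 0) := by
  subst hj; subst ht
  unfold cF
  have e : ((i + 1 : ℕ) : ℤ) - 2 = (i : ℤ) - 1 := by push_cast; ring
  rw [e]
  by_cases hodd : (i + 1) % 2 = 1
  · rw [if_pos hodd]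
    have h0 : ((i : ℤ) % 2 = 0) := by omega
    simp [h0]
  · rw [if_neg hodd]
    have h0 : ¬ ((i : ℤ) % 2 = 0) := by omega
    simp [h0]

open Classical in
theorem rep_fwd {n K r : ℕ} {G : Set Edg} {D : ℤ} (hD : D = 2 * K - 2 * r) {w : Word}
    (h : Inv (2 * n + 4) w (EE n G (SF D 0) D D) (fF D 0)) (i : ℕ) (hi : i ≤ 2 * n + 2) :
    Inv (2 * n + 4) (fwdW i (cF K G (2 * r)) w) (EE n G (SF D i) D D) (fF D i) := by
  induction i with
  | zero => simpa [fwdW] using h
  | succ i ih =>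
    obtain ⟨hw, hl, ih⟩ := ih (by omega)
    simp only [fwdW]
    have hS : ∀ j' t', 0 ≤ j' → j' ≤ 2 * (n : ℤ) + 1 →
        (SF D (i + 1) j' t' ↔ (SF D i j' t' ∨ (j' = (i : ℤ) ∧ t' = D - 1))) := by
      intro j' t' h1 h2; unfold SF; push_cast; omega
    have hv : Iso (EE n G (SF D i) D D) ((i : ℤ) + 1, D - 1) := by
      apply EE_iso
      · intro j t h1 h2 h3
        unfold SF at h3
        omega
      · intro _ h; omega
      · intro _ h; omega
    have hne : ∀ a, a ≤ 2 * n + 4 → fF D i a ≠ ((i : ℤ) + 1, D - 1) := by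
      intro a ha h
      unfold fF at h
      split_ifs at h <;> simp only [Prod.mk.injEq] at h <;> omega
    have hv' : fF D (i + 1) (i + 1 + 1) = ((i : ℤ) + 1, D - 1) := by
      unfold fF; rw [if_neg (by omega), if_pos (by omega)]; push_cast; simp
    have hα : ∀ a, a ≤ 2 * n + 4 → a ≠ i + 1 + 1 → fF D (i + 1) a = fF D i a := by
      intro a ha h
      unfold fF
      by_cases h0 : a = 0
      · rw [if_pos h0, if_pos h0]
      · by_cases h1 : a ≤ i + 1
        · rw [if_neg h0, if_pos (by omega), if_neg h0, if_pos (by omega)]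
        · rw [if_neg h0, if_neg (by omega), if_neg h0, if_neg (by omega)]
    have f1 : fF D i (i + 1) = ((i : ℤ), D - 1) := by
      unfold fF; rw [if_neg (by omega), if_pos (by omega)]; push_cast; simp
    have f2 : fF D i (i + 1 + 1) = ((i : ℤ), D) := by
      unfold fF; rw [if_neg (by omega), if_neg (by omega)]; push_cast; simp <;> ring
    have f3 : fF D i (i + 1 + 2) = ((i : ℤ) + 1, D) := by
      unfold fF; rw [if_neg (by omega), if_neg (by omega)]; push_cast; simp <;> ring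
    have hbit := cF_iff K G (2 * r) i i (D - 1) rfl (by rw [hD]; push_cast; ring)
    have hpar : (((i : ℤ) + (D - 1)) % 2 = 1) ↔ ((i : ℤ) % 2 = 0) := by omega
    by_cases hc : cF K G (2 * r) (i + 1) = true
    · rw [if_pos hc]
      refine ⟨dyck_act hw (by omega), by rw [length_act (by omega)]; exact hl, ?_⟩
      refine ih.tileT hw hl (i := i + 1) (by omega) (v := ((i : ℤ) + 1, D - 1))
        (p := ((i : ℤ), D - 1)) (p' := ((i : ℤ) + 1, D - 1 + 1)) hv hne hv' hα ?_ ?_
      · left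
        rw [f1, f3]
        refine ⟨rfl, ?_⟩
        congr 1; ring
      · refine EE_add (j := i) (t := D - 1) (by omega) (by omega) hS ?_
        refine Or.inl ⟨?_, rfl, rfl⟩
        rw [hpar]; exact hbit.1 hc
    · rw [if_neg hc]
      refine ⟨hw, hl, ?_⟩
      refine ih.tileF (i := i + 1) (by omega) (v := ((i : ℤ) + 1, D - 1))
        (p := ((i : ℤ) + 1, D - 1)) (p' := ((i : ℤ), D - 1 + 1)) hv hne hv' hα ?_ ?_
      · right
        rw [f2]
        refine ⟨rfl, ?_⟩
        congr 1; ring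
      · refine EE_add (j := i) (t := D - 1) (by omega) (by omega) hS ?_
        refine Or.inr ⟨?_, rfl, rfl⟩
        rw [hpar]; exact fun h => hc (hbit.2 h)

theorem rep_turn {n : ℕ} {G : Set Edg} {s : ℤ} {w : Word}
    (h : Inv (2 * n + 4) w (EE n G (SF (2 * s + 2) (2 * n + 2)) (2 * s + 2) (2 * s + 2))
      (fF (2 * s + 2) (2 * n + 2))) :
    Inv (2 * n + 4) w (EE n G (SB (2 * s + 2) (2 * n + 2)) (2 * s + 2) (2 * s))
      (fB (2 * s + 2) (2 * n + 2)) := by
  obtain ⟨hw, hl, h⟩ := h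
  refine ⟨hw, hl, ?_⟩
  have hE : ∀ dl dr, EE n G (SF (2 * s + 2) (2 * n + 2)) dl dr =
      EE n G (SB (2 * s + 2) (2 * n + 2)) dl dr := by
    intro dl dr
    funext p q
    apply propext
    unfold EE
    constructor
    · rintro (⟨j, t, h1, h2, h3, h4⟩ | h)
      · refine Or.inl ⟨j, t, h1, h2, ?_, h4⟩
        unfold SF at h3; unfold SB; push_cast at *; omega
      · exact Or.inr h
    · rintro (⟨j, t, h1, h2, h3, h4⟩ | h)
      · refine Or.inl ⟨j, t, h1, h2, ?_, h4⟩
        unfold SB at h3; unfold SF; push_cast at *; omega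
      · exact Or.inr h
  rw [hE] at h
  refine h.tileF (i := 2 * n + 3) (by omega) (v := (2 * (n : ℤ) + 2, 2 * s))
    (p := (2 * (n : ℤ) + 2, 2 * s)) (p' := (2 * (n : ℤ) + 2, 2 * s + 2)) ?_ ?_ ?_ ?_ ?_ EE_addR
  · apply EE_iso
    · intro j t h1 h2 h3
      unfold SB at h3
      push_cast at *
      omega
    · intro h; omega
    · intro _ h; omega
  · intro a ha h
    unfold fF at h
    split_ifs at h <;> simp only [Prod.mk.injEq] at h <;> omega
  · unfold fB
    rw [if_neg (by omega), if_neg (by omega)]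
    refine Prod.ext ?_ ?_ <;> dsimp only <;> push_cast <;> ring
  · intro a ha h
    unfold fF fB
    by_cases h0 : a = 0
    · rw [if_pos h0, if_pos h0]
    · rw [if_neg h0, if_pos (by omega), if_neg h0, if_pos (by omega)]
  · right
    refine ⟨rfl, ?_⟩
    unfold fF
    rw [if_neg (by omega), if_neg (by omega)]
    refine Prod.ext ?_ ?_ <;> dsimp only <;> push_cast <;> ring

open Classical in
theorem rep_bwd {n K r : ℕ} {G : Set Edg} {D dl dr : ℤ} (hD : D = 2 * K - 2 * r) (hdl : D ≤ dl)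
    (i : ℕ) (hi : i ≤ 2 * n + 2) : ∀ {w : Word},
    Inv (2 * n + 4) w (EE n G (SB D i) dl dr) (fB D i) →
    Inv (2 * n + 4) (bwdW i (cF K G (2 * r + 1)) w) (EE n G (SB D 0) dl dr) (fB D 0) := by
  induction i with
  | zero => intro w h; simpa [bwdW] using h
  | succ i ih =>
    intro w h
    simp only [bwdW]
    apply ih (by omega)
    obtain ⟨hw, hl, h⟩ := h
    have hS : ∀ j' t', 0 ≤ j' → j' ≤ 2 * (n : ℤ) + 1 →
        (SB D i j' t' ↔ (SB D (i + 1) j' t' ∨ (j' = (i : ℤ) ∧ t' = D - 2))) := by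
      intro j' t' h1 h2; unfold SB; push_cast; omega
    have hv : Iso (EE n G (SB D (i + 1)) dl dr) ((i : ℤ), D - 2) := by
      apply EE_iso
      · intro j t h1 h2 h3
        unfold SB at h3
        push_cast at h3
        omega
      · intro _ h; omega
      · intro h; omega
    have hne : ∀ a, a ≤ 2 * n + 4 → fB D (i + 1) a ≠ ((i : ℤ), D - 2) := by
      intro a ha h
      unfold fB at h
      split_ifs at h <;> simp only [Prod.mk.injEq] at h <;> omega
    have hv' : fB D i (i + 1 + 1) = ((i : ℤ), D - 2) := by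
      unfold fB; rw [if_neg (by omega), if_neg (by omega)]; push_cast; simp <;> ring
    have hα : ∀ a, a ≤ 2 * n + 4 → a ≠ i + 1 + 1 → fB D i a = fB D (i + 1) a := by
      intro a ha h
      unfold fB
      by_cases h0 : a = 0
      · rw [if_pos h0, if_pos h0]
      · by_cases h1 : a ≤ i + 1
        · rw [if_neg h0, if_pos (by omega), if_neg h0, if_pos (by omega)]
        · rw [if_neg h0, if_neg (by omega), if_neg h0, if_neg (by omega)]
    have f1 : fB D (i + 1) (i + 1) = ((i : ℤ), D - 1) := by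
      unfold fB; rw [if_neg (by omega), if_pos (by omega)]; push_cast; simp
    have f2 : fB D (i + 1) (i + 1 + 1) = ((i : ℤ) + 1, D - 1) := by
      unfold fB; rw [if_neg (by omega), if_pos (by omega)]; push_cast; simp
    have f3 : fB D (i + 1) (i + 1 + 2) = ((i : ℤ) + 1, D - 2) := by
      unfold fB; rw [if_neg (by omega), if_neg (by omega)]; push_cast; simp <;> ring
    have hbit := cF_iff K G (2 * r + 1) i i (D - 2) rfl (by rw [hD]; push_cast; ring)
    have hpar : ¬ (((i : ℤ) + (D - 2)) % 2 = 1) ↔ ((i : ℤ) % 2 = 0) := by omega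
    by_cases hc : cF K G (2 * r + 1) (i + 1) = true
    · rw [if_pos hc]
      refine ⟨dyck_act hw (by omega), by rw [length_act (by omega)]; exact hl, ?_⟩
      refine h.tileT hw hl (i := i + 1) (by omega) (v := ((i : ℤ), D - 2))
        (p := ((i : ℤ) + 1, D - 2)) (p' := ((i : ℤ), D - 2 + 1)) hv hne hv' hα ?_ ?_
      · right
        rw [f1, f3]
        refine ⟨rfl, ?_⟩
        congr 1; ring
      · refine EE_add (j := i) (t := D - 2) (by omega) (by omega) hS ?_
        refine Or.inr ⟨?_, rfl, rfl⟩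
        have := hbit.1 hc
        tauto
    · rw [if_neg hc]
      refine ⟨hw, hl, ?_⟩
      refine h.tileF (i := i + 1) (by omega) (v := ((i : ℤ), D - 2))
        (p := ((i : ℤ), D - 2)) (p' := ((i : ℤ) + 1, D - 2 + 1)) hv hne hv' hα ?_ ?_
      · right
        rw [f2]
        refine ⟨rfl, ?_⟩
        congr 1; ring
      · refine EE_add (j := i) (t := D - 2) (by omega) (by omega) hS ?_
        refine Or.inl ⟨?_, rfl, rfl⟩
        have : ¬ (edz ((i : ℤ) - 1) (D - 2) ∈ G ↔ (i : ℤ) % 2 = 0) := fun h => hc (hbit.2 h)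
        tauto

theorem rep_cap {n : ℕ} {G : Set Edg} {s : ℤ} {w : Word}
    (h : Inv (2 * n + 4) w (EE n G (SB (2 * s + 2) 0) (2 * s + 2) (2 * s)) (fB (2 * s + 2) 0)) :
    Inv (2 * n + 2) (cap 0 w) (EE n G (fun _ t => 2 * s ≤ t) (2 * s) (2 * s))
      (fun a => ((a : ℤ), 2 * s)) := by
  obtain ⟨hw, hl, h⟩ := h
  refine ⟨dyck_cap hw (by omega), by rw [length_cap (by omega)]; omega, ?_⟩
  have hE : EE n G (SB (2 * s + 2) 0) (2 * s) (2 * s) =
      EE n G (fun _ t => 2 * s ≤ t) (2 * s) (2 * s) := by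
    funext p q
    apply propext
    unfold EE
    constructor
    · rintro (⟨j, t, h1, h2, h3, h4⟩ | h)
      · refine Or.inl ⟨j, t, h1, h2, ?_, h4⟩
        unfold SB at h3; push_cast at *; omega
      · exact Or.inr h
    · rintro (⟨j, t, h1, h2, h3, h4⟩ | h)
      · refine Or.inl ⟨j, t, h1, h2, ?_, h4⟩
        unfold SB; push_cast at *; omega
      · exact Or.inr h
  rw [← hE]
  have g0 : fB (2 * s + 2) 0 0 = (0, 2 * s + 2) := by unfold fB; simp
  have g2 : fB (2 * s + 2) 0 2 = (0, 2 * s) := by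
    unfold fB; rw [if_neg (by omega), if_neg (by omega)]
    simp
  intro a b ha hb
  have hup : ∀ a, a ≤ 2 * n + 2 → up 0 a ≤ 2 * n + 4 := by
    intro a ha; unfold up; split_ifs <;> omega
  rw [Fc_cap' hw (by omega), h _ _ (hup a ha) (hup b hb), h _ _ (hup a ha) (by omega),
    h _ _ (by omega) (hup b hb), h _ _ (hup a ha) (by omega), h _ _ (by omega) (hup b hb)]
  have hadd := fun x y => eqvGen_add (E := EE n G (SB (2 * s + 2) 0) (2 * s + 2) (2 * s))
    (E' := EE n G (SB (2 * s + 2) 0) (2 * s) (2 * s)) (p := (0, 2 * s)) (p' := (0, 2 * s + 2))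
    (fun a b => EE_addL (S := SB (2 * s + 2) 0) a b) x y
  have key : ∀ a, a ≤ 2 * n + 2 → EqvGen (EE n G (SB (2 * s + 2) 0) (2 * s) (2 * s))
      ((a : ℤ), 2 * s) (fB (2 * s + 2) 0 (up 0 a)) := by
    intro a ha
    by_cases h0 : a = 0
    · subst h0
      have e : up 0 0 = 0 := by unfold up; simp
      rw [e, g0]
      exact EqvGen.rel _ _ ((EE_addL _ _).2 (Or.inr ⟨by simp, rfl⟩))
    · have e : up 0 a = a + 2 := by unfold up; rw [if_neg (by omega)]
      rw [e]
      have e2 : fB (2 * s + 2) 0 (a + 2) = ((a : ℤ), 2 * s) := by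
        unfold fB; rw [if_neg (by omega), if_neg (by omega)]
        simp
      rw [e2]
      exact EqvGen.refl _
  have hmain : EqvGen (EE n G (SB (2 * s + 2) 0) (2 * s) (2 * s)) ((a : ℤ), 2 * s) ((b : ℤ), 2 * s) ↔
      EqvGen (EE n G (SB (2 * s + 2) 0) (2 * s) (2 * s)) (fB (2 * s + 2) 0 (up 0 a))
        (fB (2 * s + 2) 0 (up 0 b)) :=
    ⟨fun h => (((key a ha).symm _ _).trans _ _ _ h).trans _ _ _ (key b hb),
      fun h => ((key a ha).trans _ _ _ h).trans _ _ _ ((key b hb).symm _ _)⟩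
  show _ ↔ EqvGen (EE n G (SB (2 * s + 2) 0) (2 * s) (2 * s)) ((a : ℤ), 2 * s) ((b : ℤ), 2 * s)
  rw [hmain, hadd, ← g0]
  have e02 : (0 + 2 : ℕ) = 2 := rfl
  rw [e02, ← g2, g0]
  rw [← g0]
  constructor
  · rintro (h | h | h)
    · exact Or.inl h
    · exact Or.inr (Or.inr h)
    · exact Or.inr (Or.inl h)
  · rintro (h | h | h)
    · exact Or.inl h
    · exact Or.inr (Or.inr h)
    · exact Or.inr (Or.inl h)

/-! ### the word `()()…()` -/

theorem w0_succ (m : ℕ) : w0 (m + 1) = true :: false :: w0 m := by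
  unfold w0
  rw [List.replicate_succ, List.flatten_cons]
  rfl

theorem w0_length (m : ℕ) : (w0 m).length = 2 * m := by
  induction m with
  | zero => rfl
  | succ m ih => rw [w0_succ]; simp [ih]; ring

theorem w0_dyck (m : ℕ) : Dyck (w0 m) := by
  induction m with
  | zero => exact Dyck.nil
  | succ m ih =>
    have : w0 (m + 1) = ins 0 (w0 m) := by rw [w0_succ]; rfl
    rw [this]
    exact Dyck.ins 0 _ (by omega) ih

theorem w0_hgt (m : ℕ) : ∀ a, a ≤ 2 * m → hgt (w0 m) a = (a % 2 : ℕ) := by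
  induction m with
  | zero => intro a ha; obtain rfl : a = 0 := by omega
            simp [hgt_zero]
  | succ m ih =>
    intro a ha
    rw [w0_succ]
    rcases Nat.lt_or_ge a 2 with h | h
    · interval_cases a
      · simp [hgt_zero]
      · rw [show (1 : ℕ) = 0 + 1 from rfl, hgt_cons, hgt_zero]; simp
    · obtain ⟨b, rfl⟩ : ∃ b, a = b + 1 + 1 := ⟨a - 2, by omega⟩
      rw [hgt_cons, hgt_cons, ih b (by omega)]
      simp
      omega

theorem w0_Fc (m a b : ℕ) (ha : a ≤ 2 * m) (hb : b ≤ 2 * m) :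
    Fc (w0 m) a b ↔ (a = b ∨ (a % 2 = 0 ∧ b % 2 = 0)) := by
  have key : ∀ a b, a < b → b ≤ 2 * m → (Fc (w0 m) a b ↔ (a = b ∨ (a % 2 = 0 ∧ b % 2 = 0))) := by
    intro a b hab hb
    rw [Fc_le hab.le]
    constructor
    · rintro ⟨h1, h2⟩
      right
      have h3 := h2 (a + 1) (by omega) (by omega)
      rw [w0_hgt m a (by omega), w0_hgt m _ (by omega)] at h3
      rw [w0_hgt m a (by omega), w0_hgt m _ (by omega)] at h1
      omega
    · rintro (h | ⟨h1, h2⟩)
      · omega
      · refine ⟨?_, fun c h3 h4 => ?_⟩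
        · rw [w0_hgt m a (by omega), w0_hgt m _ (by omega), h1, h2]
        · rw [w0_hgt m a (by omega), w0_hgt m _ (by omega), h1]
          push_cast
          omega
  rcases lt_trichotomy a b with h | h | h
  · exact key a b h hb
  · subst h
    exact ⟨fun _ => Or.inl rfl, fun _ => Fc_refl _ _⟩
  · rw [Fc_comm, key b a h ha]
    constructor
    · rintro (h | h)
      · exact Or.inl h.symm
      · exact Or.inr ⟨h.2, h.1⟩
    · rintro (h | h)
      · exact Or.inl h.symm
      · exact Or.inr ⟨h.2, h.1⟩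

theorem dco_edz (s d : ℤ) : dco (edz s d) = d := by
  unfold edz dco
  split_ifs with h h1 h1 <;> simp at * <;> omega

theorem sum_edz (s d : ℤ) : (edz s d).1 + (edz s d).2.1 = s := by
  unfold edz
  split_ifs with h <;> simp <;> omega

theorem rep_base (n K : ℕ) (G : Set Edg) (hG : ∀ e ∈ G, dco e < 2 * K) :
    Inv (2 * n + 2) (w0 (n + 1)) (EE n G (fun _ t => 2 * (K : ℤ) ≤ t) (2 * K) (2 * K))
      (fun a => ((a : ℤ), 2 * (K : ℤ))) := by
  refine ⟨w0_dyck _, by rw [w0_length]; ring, ?_⟩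
  intro a b ha hb
  rw [w0_Fc _ _ _ (by omega) (by omega)]
  have hclosed : ∀ j t : ℤ, 2 * (K : ℤ) ≤ t → edz (j - 1) t ∉ G := by
    intro j t ht h
    have := hG _ h
    rw [dco_edz] at this
    omega
  have key : ∀ x y : ℤ × ℤ, EqvGen (EE n G (fun _ t => 2 * (K : ℤ) ≤ t) (2 * K) (2 * K)) x y →
      x = y ∨ ((x.1 + x.2) % 2 = 0 ∧ (y.1 + y.2) % 2 = 0) := by
    intro x y h
    induction h with
    | rel x y h =>
      right
      rcases h with ⟨j, t, h1, h2, h3, ⟨h4, h5, h6⟩ | ⟨h4, h5, h6⟩⟩ | ⟨s, h1, h2, h3⟩ |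
        ⟨s, h1, h2, h3⟩
      · have := hclosed j t h3
        rw [h5, h6]
        simp only
        have h7 : ¬ ((j + t) % 2 = 1) := fun h => this (h4.2 h)
        omega
      · have := hclosed j t h3
        rw [h5, h6]
        simp only
        have h7 : (j + t) % 2 = 1 := by
          by_contra h
          exact h4 ⟨fun h' => absurd h' this, fun h' => absurd h' h⟩
        omega
      · rw [h2, h3]; simp only; omega
      · rw [h2, h3]; simp only; omega
    | refl a => exact Or.inl rfl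
    | symm a b _ ih =>
      rcases ih with h | ⟨h, h'⟩
      · exact Or.inl h.symm
      · exact Or.inr ⟨h', h⟩
    | trans a b d _ _ ih1 ih2 =>
      rcases ih1 with h | ⟨h, h'⟩ <;> rcases ih2 with k | ⟨k, k'⟩
      · exact Or.inl (h.trans k)
      · subst h; exact Or.inr ⟨k, k'⟩
      · subst k; exact Or.inr ⟨h, h'⟩
      · exact Or.inr ⟨h, k'⟩
  have step : ∀ c : ℕ, 2 * c ≤ 2 * n + 2 →
      EqvGen (EE n G (fun _ t => 2 * (K : ℤ) ≤ t) (2 * K) (2 * K)) (0, 2 * (K : ℤ))
        (((2 * c : ℕ) : ℤ), 2 * (K : ℤ)) := by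
    intro c
    induction c with
    | zero => intro _; simpa using EqvGen.refl _
    | succ c ih =>
      intro hc
      refine (ih (by omega)).trans _ _ _ ?_
      refine EqvGen.trans _ (((2 * c : ℕ) : ℤ) + 1, 2 * (K : ℤ) + 1) _ ?_ ?_
      · apply EqvGen.rel
        refine Or.inl ⟨((2 * c : ℕ) : ℤ), 2 * K, by omega, by omega, le_rfl, Or.inl ⟨?_, rfl, rfl⟩⟩
        have := hclosed ((2 * c : ℕ) : ℤ) (2 * K) le_rfl
        constructor
        · intro h; exact absurd h this
        · intro h; omega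
      · apply EqvGen.symm
        apply EqvGen.rel
        refine Or.inl ⟨((2 * c : ℕ) : ℤ) + 1, 2 * K, by omega, by omega, le_rfl,
          Or.inr ⟨?_, ?_, rfl⟩⟩
        · have := hclosed (((2 * c : ℕ) : ℤ) + 1) (2 * K) le_rfl
          intro h
          exact this (h.2 (by omega))
        · refine Prod.ext ?_ ?_ <;> dsimp only <;> push_cast <;> ring
  constructor
  · rintro (h | ⟨h1, h2⟩)
    · rw [h]; exact EqvGen.refl _
    · obtain ⟨a', rfl⟩ : ∃ a', a = 2 * a' := ⟨a / 2, by omega⟩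
      obtain ⟨b', rfl⟩ : ∃ b', b = 2 * b' := ⟨b / 2, by omega⟩
      exact ((step a' ha).symm _ _).trans _ _ _ (step b' hb)
  · intro h
    rcases key _ _ h with h | ⟨h1, h2⟩
    · left
      simp only [Prod.mk.injEq] at h
      omega
    · right
      simp only at h1 h2
      omega

open Classical in
theorem rep_XW (n K : ℕ) (G : Set Edg) (hG : ∀ e ∈ G, dco e < 2 * K) (r : ℕ) (hr : r ≤ K) :
    Inv (2 * n + 2) (XW (2 * n + 2) (cF K G) (w0 (n + 1)) r)
      (EE n G (fun _ t => 2 * ((K : ℤ) - r) ≤ t) (2 * ((K : ℤ) - r)) (2 * ((K : ℤ) - r)))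
      (fun a => ((a : ℤ), 2 * ((K : ℤ) - r))) := by
  induction r with
  | zero => simpa [XW] using rep_base n K G hG
  | succ r ih =>
    obtain ⟨hw, hl, ih⟩ := ih (by omega)
    simp only [XW, rowW]
    have e1 : 2 * ((K : ℤ) - r) = 2 * ((K : ℤ) - (r + 1 : ℕ)) + 2 := by push_cast; ring
    have h1 := rep_ins (D := 2 * ((K : ℤ) - r)) (by omega) hl ih
    have h1' : Inv (2 * n + 4) (ins 0 (XW (2 * n + 2) (cF K G) (w0 (n + 1)) r))
        (EE n G (SF (2 * ((K : ℤ) - r)) 0) (2 * ((K : ℤ) - r)) (2 * ((K : ℤ) - r)))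
        (fF (2 * ((K : ℤ) - r)) 0) :=
      ⟨Dyck.ins 0 _ (by omega) hw, by rw [length_ins, hl], h1⟩
    have h2 := rep_fwd (K := K) (r := r) (D := 2 * ((K : ℤ) - r)) (by ring) h1' (2 * n + 2) le_rfl
    rw [e1] at h2
    have h3 := rep_turn h2
    have h4 := rep_bwd (K := K) (r := r) (D := 2 * ((K : ℤ) - (r + 1 : ℕ)) + 2)
      (dl := 2 * ((K : ℤ) - (r + 1 : ℕ)) + 2) (dr := 2 * ((K : ℤ) - (r + 1 : ℕ)))
      (by push_cast; ring) le_rfl (2 * n + 2) le_rfl h3
    exact rep_cap h4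

/-! ### the links of the strip -/

theorem SL_sub (n : ℕ) (G : Set Edg) {p q : ℤ × ℤ} (h : SL n G p q) :
    EqvGen (EE n G (fun _ t => (0 : ℤ) ≤ t) 0 0) p q := by
  rcases h with ⟨e, he, hs⟩ | ⟨e, he, hs⟩ | s | s
  · obtain ⟨x, y, b⟩ := e
    obtain ⟨h1, h2, h3⟩ := hs
    simp only at h2 h3
    cases b
    · simp only [dco, Bool.false_eq_true, if_false] at h1
      simp only [src_mk, tgt_false]
      apply EqvGen.symm
      apply EqvGen.rel
      refine Or.inl ⟨x + y + 1, x - y - 1, by omega, by omega, h1, Or.inr ⟨?_, ?_, ?_⟩⟩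
      · have e1 : edz (x + y + 1 - 1) (x - y - 1) = (x, y, false) := by
          unfold edz
          rw [if_neg (by omega)]
          simp only [Prod.mk.injEq, and_true]
          omega
        rw [e1]
        intro h
        have := h.1 he
        omega
      · refine Prod.ext ?_ ?_ <;> dsimp only <;> ring
      · refine Prod.ext ?_ ?_ <;> dsimp only <;> ring
    · simp only [dco, if_true] at h1
      simp only [src_mk, tgt_true]
      apply EqvGen.rel
      refine Or.inl ⟨x + y + 1, x - y, by omega, by omega, h1, Or.inl ⟨?_, ?_, ?_⟩⟩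
      · have e1 : edz (x + y + 1 - 1) (x - y) = (x, y, true) := by
          unfold edz
          rw [if_pos (by omega)]
          simp only [Prod.mk.injEq, and_true]
          omega
        rw [e1]
        constructor
        · intro _; omega
        · intro _; exact he
      · refine Prod.ext ?_ ?_ <;> dsimp only <;> ring
      · refine Prod.ext ?_ ?_ <;> dsimp only <;> ring
  · obtain ⟨x, y, b⟩ := e
    obtain ⟨h1, h2, h3⟩ := hs
    have hd : dco (du (x, y, b)) = dco (x, y, b) := by unfold du; rw [dco_edz]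
    have hsu : (du (x, y, b)).1 + (du (x, y, b)).2.1 = x + y + 1 := by
      unfold du; rw [sum_edz]
    rw [hd] at h1
    rw [hsu] at h2 h3
    cases b
    · simp only [dco, Bool.false_eq_true, if_false] at h1
      simp only [src_mk, tgt_false]
      apply EqvGen.symm
      apply EqvGen.rel
      refine Or.inl ⟨x + y + 2, x - y - 1, by omega, by omega, h1, Or.inr ⟨?_, ?_, ?_⟩⟩
      · have e1 : edz (x + y + 2 - 1) (x - y - 1) = du (x, y, false) := by
          unfold du dco
          simp only [Bool.false_eq_true, if_false]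
          congr 1
          ring
        rw [e1]
        intro h
        exact he (h.2 (by omega))
      · refine Prod.ext ?_ ?_ <;> dsimp only <;> ring
      · refine Prod.ext ?_ ?_ <;> dsimp only <;> ring
    · simp only [dco, if_true] at h1
      simp only [src_mk, tgt_true]
      apply EqvGen.rel
      refine Or.inl ⟨x + y + 2, x - y, by omega, by omega, h1, Or.inl ⟨?_, ?_, ?_⟩⟩
      · have e1 : edz (x + y + 2 - 1) (x - y) = du (x, y, true) := by
          unfold du dco
          simp only [if_true]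
          congr 1
          ring
        rw [e1]
        constructor
        · intro h; exact absurd h he
        · intro h; omega
      · refine Prod.ext ?_ ?_ <;> dsimp only <;> ring
      · refine Prod.ext ?_ ?_ <;> dsimp only <;> ring
  · exact EqvGen.rel _ _ (Or.inr (Or.inl ⟨s, by omega, rfl, rfl⟩))
  · exact EqvGen.rel _ _ (Or.inr (Or.inr ⟨s, by omega, rfl, rfl⟩))

theorem EE_sub (n : ℕ) (G : Set Edg) {p q : ℤ × ℤ}
    (h : EE n G (fun _ t => (0 : ℤ) ≤ t) 0 0 p q) : EqvGen (SL n G) p q := by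
  rcases h with ⟨j, t, h1, h2, h3, h4⟩ | ⟨s, h1, h2, h3⟩ | ⟨s, h1, h2, h3⟩
  · by_cases he : edz (j - 1) t ∈ G
    · have hS : edz (j - 1) t ∈ Ss n := by
        refine ⟨by rw [dco_edz]; exact h3, ?_, ?_⟩
        · rw [sum_edz]; omega
        · rw [sum_edz]; omega
      have key := SL.prim (n := n) (G := G) _ he hS
      rcases h4 with ⟨k1, k2, k3⟩ | ⟨k1, k2, k3⟩
      · have hp := k1.1 he
        rw [k2, k3]
        apply EqvGen.rel
        have e : edz (j - 1) t = ((j - 1 + t) / 2, (j - 1 - t) / 2, true) := by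
          unfold edz; rw [if_pos (by omega)]
        rw [e] at key
        simp only [src_mk, tgt_true] at key
        have e1 : (j - 1 + t) / 2 + (j - 1 - t) / 2 + 1 = j := by omega
        have e2 : (j - 1 + t) / 2 - (j - 1 - t) / 2 = t := by omega
        have e3 : (j - 1 + t) / 2 + 1 + (j - 1 - t) / 2 + 1 = j + 1 := by omega
        have e4 : (j - 1 + t) / 2 + 1 - (j - 1 - t) / 2 = t + 1 := by omega
        rw [e1, e2, e3, e4] at key
        exact key
      · have hp : ¬ ((j + t) % 2 = 1) := fun h => k1 ⟨fun _ => h, fun _ => he⟩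
        rw [k2, k3]
        apply EqvGen.symm
        apply EqvGen.rel
        have e : edz (j - 1) t = ((j - 1 + t + 1) / 2, (j - 1 - t - 1) / 2, false) := by
          unfold edz; rw [if_neg (by omega)]
        rw [e] at key
        simp only [src_mk, tgt_false] at key
        have e1 : (j - 1 + t + 1) / 2 + (j - 1 - t - 1) / 2 + 1 = j := by omega
        have e2 : (j - 1 + t + 1) / 2 - (j - 1 - t - 1) / 2 = t + 1 := by omega
        have e3 : (j - 1 + t + 1) / 2 + ((j - 1 - t - 1) / 2 + 1) + 1 = j + 1 := by omega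
        have e4 : (j - 1 + t + 1) / 2 - ((j - 1 - t - 1) / 2 + 1) = t := by omega
        rw [e1, e2, e3, e4] at key
        exact key
    · have hdu : du (edz (j - 2) t) = edz (j - 1) t := by
        unfold du
        rw [sum_edz, dco_edz]
        congr 1; ring
      have hS : du (edz (j - 2) t) ∈ Ss n := by
        rw [hdu]
        refine ⟨by rw [dco_edz]; exact h3, ?_, ?_⟩
        · rw [sum_edz]; omega
        · rw [sum_edz]; omega
      have key := SL.dual (n := n) (G := G) (edz (j - 2) t) (by rw [hdu]; exact he) hS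
      rcases h4 with ⟨k1, k2, k3⟩ | ⟨k1, k2, k3⟩
      · have hp : ¬ ((j + t) % 2 = 1) := fun h => he (k1.2 h)
        rw [k2, k3]
        apply EqvGen.rel
        have e : edz (j - 2) t = ((j - 2 + t) / 2, (j - 2 - t) / 2, true) := by
          unfold edz; rw [if_pos (by omega)]
        rw [e] at key
        simp only [src_mk, tgt_true] at key
        have e1 : (j - 2 + t) / 2 + (j - 2 - t) / 2 + 2 = j := by omega
        have e2 : (j - 2 + t) / 2 - (j - 2 - t) / 2 = t := by omega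
        have e3 : (j - 2 + t) / 2 + 1 + (j - 2 - t) / 2 + 2 = j + 1 := by omega
        have e4 : (j - 2 + t) / 2 + 1 - (j - 2 - t) / 2 = t + 1 := by omega
        rw [e1, e2, e3, e4] at key
        exact key
      · have hp : (j + t) % 2 = 1 := by
          by_contra h
          exact k1 ⟨fun h' => absurd h' he, fun h' => absurd h' h⟩
        rw [k2, k3]
        apply EqvGen.symm
        apply EqvGen.rel
        have e : edz (j - 2) t = ((j - 2 + t + 1) / 2, (j - 2 - t - 1) / 2, false) := by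
          unfold edz; rw [if_neg (by omega)]
        rw [e] at key
        simp only [src_mk, tgt_false] at key
        have e1 : (j - 2 + t + 1) / 2 + (j - 2 - t - 1) / 2 + 2 = j := by omega
        have e2 : (j - 2 + t + 1) / 2 - (j - 2 - t - 1) / 2 = t + 1 := by omega
        have e3 : (j - 2 + t + 1) / 2 + ((j - 2 - t - 1) / 2 + 1) + 2 = j + 1 := by omega
        have e4 : (j - 2 + t + 1) / 2 - ((j - 2 - t - 1) / 2 + 1) = t := by omega
        rw [e1, e2, e3, e4] at key
        exact key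
  · obtain ⟨m, rfl⟩ : ∃ m : ℕ, s = m := ⟨s.toNat, by omega⟩
    rw [h2, h3]
    exact EqvGen.rel _ _ (SL.wallL m)
  · obtain ⟨m, rfl⟩ : ∃ m : ℕ, s = m := ⟨s.toNat, by omega⟩
    rw [h2, h3]
    exact EqvGen.rel _ _ (SL.wallR m)

end TSM

open TSM in
theorem t_SM : S_SM := by
  intro n K G hG
  obtain ⟨hw, hl, h⟩ := rep_XW n K G hG K le_rfl
  refine ⟨mem_LP.2 ⟨hl, hw⟩, fun a b ha hb => ?_⟩
  rw [h a b ha hb]
  have e : 2 * ((K : ℤ) - K) = 0 := by ring
  simp only [e]
  exact ⟨fun h => eqvGen_mono (fun _ _ k => EE_sub n G k) h,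
    fun h => eqvGen_mono (fun _ _ k => SL_sub n G k) h⟩

end Pool.Agent.W808.KC
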