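import Pool.Agent.W808.KC.T_DEC

/-!
# SQ: the two corners are independent
-/

set_option autoImplicit false

namespace Pool.Agent.W808.KC
open H974 H906.Cyl
open Pool.Agent.H160R2.ML (nm)
open Pool.Agent.H160R2.MU.TMON (nm_le_iff nm_tgt_le nm_src_le mem_box box_mono)

namespace TSQ
open TDEC

theorem mem_SE {n M : ℕ} {e : Edg} : e ∈ SE n M ↔
    (-1 ≤ e.1 + e.2.1 ∧ e.1 + e.2.1 ≤ 2 * n) ∧ (0 ≤ dco e ∧ dco e < M) := by
  obtain ⟨x, y, b⟩ := e
  unfold SE edz dco
  simp only [Finset.mem_image, Finset.mem_product, Finset.mem_range, Prod.exists]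
  constructor
  · rintro ⟨s, r, ⟨h1, h2⟩, h3⟩
    split_ifs at h3 with h4
    · simp only [Prod.mk.injEq] at h3
      obtain ⟨h5, h6, h7⟩ := h3
      subst h7
      simp only [if_true]
      omega
    · simp only [Prod.mk.injEq] at h3
      obtain ⟨h5, h6, h7⟩ := h3
      subst h7
      simp only [Bool.false_eq_true, if_false]
      omega
  · rintro ⟨⟨h1, h2⟩, h3, h4⟩
    cases b
    · simp only [Bool.false_eq_true, if_false] at h3 h4
      refine ⟨(x + y + 1).toNat, (x - y - 1).toNat, ⟨by omega, by omega⟩, ?_⟩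
      rw [if_neg (by omega)]
      simp only [Prod.mk.injEq, and_true]
      omega
    · simp only [if_true] at h3 h4
      refine ⟨(x + y + 1).toNat, (x - y).toNat, ⟨by omega, by omega⟩, ?_⟩
      rw [if_pos (by omega)]
      simp only [Prod.mk.injEq, and_true]
      omega

open Classical in
/-- the edges of the box of the quarter-plane -/
noncomputable def QE (R : ℕ) : Finset Edg := (boxE R).filter (fun e => e ∈ qbx (R : ℤ))

theorem mem_QE {R : ℕ} {e : Edg} : e ∈ QE R ↔ e ∈ qbx (R : ℤ) := by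
  classical
  unfold QE
  rw [Finset.mem_filter]
  exact ⟨fun h => h.2, fun h => ⟨qbx_sub_box h, h⟩⟩

theorem qbx_bd {R : ℤ} {e : Edg} (he : e ∈ qbx R) :
    (-1 ≤ e.1 + e.2.1 ∧ e.1 + e.2.1 ≤ 2 * R) ∧ (0 ≤ dco e ∧ dco e ≤ 2 * R - 1) := by
  obtain ⟨h1, h2, h3, h4⟩ := he
  rw [nm_le_iff] at h3 h4
  refine ⟨⟨h2, ?_⟩, h1, ?_⟩
  · simp only [src] at h3
    omega
  · rcases e with ⟨x, y, b⟩
    cases b
    · simp only [src, tgt_false] at h3 h4
      simp only [dco, Bool.false_eq_true, if_false]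
      omega
    · simp only [src, tgt_true] at h3 h4
      simp only [dco, if_true]
      omega

end TSQ

open TDEC TSQ in
theorem t_SQ : S_MIR → S_SQ := by
  classical
  intro hmir n m M R hm hmR hn hM
  have ok : Ok (fun _ : Edg => (1 / 2 : ℝ)) := fun _ => ⟨by norm_num, by norm_num⟩
  have inv : ∀ e, mirE n (mirE n e) = e := fun e => ((hmir n m ∅).1 e).1
  have dc : ∀ e, dco (mirE n e) = dco e := fun e => ((hmir n m ∅).1 e).2.1
  have sm : ∀ e : Edg, (mirE n e).1 + (mirE n e).2.1 = 2 * n - 1 - (e.1 + e.2.1) :=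
    fun e => ((hmir n m ∅).1 e).2.2
  have hQU : QE R ⊆ SE n M := by
    intro e he
    have h1 := qbx_bd (mem_QE.1 he)
    rw [mem_SE]
    omega
  have hQU' : (QE R).image (mirE n) ⊆ SE n M := by
    intro e he
    obtain ⟨f, hf, rfl⟩ := Finset.mem_image.1 he
    have h1 := qbx_bd (mem_QE.1 hf)
    have h2 := dc f
    have h3 := sm f
    rw [mem_SE]
    omega
  have hdis : Disjoint (QE R) ((QE R).image (mirE n)) := by
    rw [Finset.disjoint_left]
    intro e he he'
    obtain ⟨f, hf, rfl⟩ := Finset.mem_image.1 he'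
    have h1 := qbx_bd (mem_QE.1 he)
    have h2 := qbx_bd (mem_QE.1 hf)
    have h3 := sm f
    omega
  have hA : ∀ F : Finset Edg,
      (SEq m (R : ℤ) (↑F : Set Edg) ↔ SEq m (R : ℤ) (↑(F ∩ QE R) : Set Edg)) := by
    intro F
    refine seq_congr fun e he => ?_
    rw [Finset.mem_coe, Finset.mem_coe, Finset.mem_inter, mem_QE]
    exact ⟨fun h => ⟨h, he⟩, fun h => h.1⟩
  have hB : ∀ F : Finset Edg, (SEq m (R : ℤ) (mirG n (↑F : Set Edg)) ↔
      SEq m (R : ℤ) (mirG n (↑(F ∩ (QE R).image (mirE n)) : Set Edg))) := by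
    intro F
    refine seq_congr fun e he => ?_
    unfold mirG
    rw [Set.mem_ofPred_eq, Set.mem_ofPred_eq, Finset.mem_coe, Finset.mem_coe, Finset.mem_inter]
    exact ⟨fun h => ⟨h, Finset.mem_image_of_mem _ (mem_QE.2 he)⟩, fun h => h.1⟩
  have step1 : pS n m M ≤ Pr (fun _ => (1 / 2 : ℝ)) (SE n M) (fun F =>
      SEq m (R : ℤ) (↑F : Set Edg) ∧ SEq m (R : ℤ) (mirG n (↑F : Set Edg))) := by
    unfold pS
    refine Pr_mono ok fun F _ h => ⟨left hm hmR hn h, left hm hmR hn (((hmir n m _).2).2 h)⟩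
  have step2 := Pr_indep (p := fun _ : Edg => (1 / 2 : ℝ)) hQU hQU' hdis
    (A := fun F => SEq m (R : ℤ) (↑F : Set Edg))
    (B := fun F => SEq m (R : ℤ) (mirG n (↑F : Set Edg))) (fun F _ => hA F) (fun F _ => hB F)
  have e0 : Pr (fun _ => (1 / 2 : ℝ)) (QE R) (fun F => SEq m (R : ℤ) (↑F : Set Edg)) = sPq m R := by
    unfold sPq
    symm
    refine Pr_local ?_ fun F _ => hA F
    exact Finset.filter_subset _ _
  have e1 : Pr (fun _ => (1 / 2 : ℝ)) (SE n M) (fun F => SEq m (R : ℤ) (↑F : Set Edg)) =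
      sPq m R := by
    rw [← e0]
    exact Pr_local hQU fun F _ => hA F
  have e2 : Pr (fun _ => (1 / 2 : ℝ)) (SE n M) (fun F => SEq m (R : ℤ) (mirG n (↑F : Set Edg))) =
      sPq m R := by
    rw [Pr_local hQU' fun F _ => hB F, ← e0]
    unfold Pr
    rw [Ex_image _ _ _ ((Function.LeftInverse.injective inv).injOn)]
    refine Ex_congr fun F _ => ?_
    have : mirG n (↑(F.image (mirE n)) : Set Edg) = (↑F : Set Edg) := by
      ext e
      unfold mirG
      rw [Set.mem_ofPred_eq, Finset.mem_coe, Finset.mem_image, Finset.mem_coe]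
      constructor
      · rintro ⟨f, hf, hfe⟩
        have := congrArg (mirE n) hfe
        rw [inv, inv] at this
        rw [← this]
        exact hf
      · intro h
        exact ⟨e, h, rfl⟩
    show ind (SEq m (R : ℤ) (mirG n (↑(F.image (mirE n)) : Set Edg))) = _
    rw [this]
  rw [e1, e2] at step2
  calc pS n m M ≤ _ := step1
    _ = sPq m R * sPq m R := step2
    _ = sPq m R ^ 2 := by ring

end Pool.Agent.W808.KC
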