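import Pool.Agent.W808.KC.Stm
import Pool.Agent.W808.HU.T_STA

/-!
# Arms at a corner: re-randomising the tubes (class 1)
-/

set_option autoImplicit false

namespace Pool.Agent.W808.KC
open H974 H906.Cyl
open H12S (Dir hbE segD rimE H4 Crs Nr sqE)
open Pool.Agent.H160R2.ML (nm Gn)
open Pool.Agent.H160R2.MU (EP inSq PC Cc)
open Pool.Agent.W808.HU (du PTr)

namespace TSTA

open Pool.Agent.H160R2.MU.TSTA (eqv_iff eqv_mono eqv_inv)
open Pool.Agent.W808.HU.TSTA (te tv src_te tgt_te dco_te te_te te_zero du_te dco_du red_eq te_of_red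
  du_inj reach_iff aux1 aux2 aux3)

/-! ### coarse sets -/

/-- periodic coarse sets -/
def Peri (N : ℕ) (P : Set (ℤ × ℤ)) : Prop :=
  ∀ (z : ℤ × ℤ) (s : ℤ), z ∈ P → (z.1 - s * (8 * N), z.2 - s * (8 * N)) ∈ P

theorem peri_BxQ (N : ℕ) : Peri N (BxQ N) := by
  rintro z q ⟨s, h1, h2, h3, h4⟩
  refine ⟨s - q, ?_⟩
  have e1 : ∀ a : ℤ, a - q * (8 * N) - (s - q) * (8 * N) = a - s * (8 * N) := fun a => by ring
  simp only [e1]
  exact ⟨h1, h2, h3, h4⟩

theorem peri_CrC (N k : ℕ) (c : Fin k → ℤ) : Peri N (CrC N k c) := by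
  rintro z q ⟨a, s, h⟩
  refine ⟨a, s - q, ?_⟩
  have e1 : ∀ a : ℤ, a - q * (8 * N) - (s - q) * (8 * N) = a - s * (8 * N) := fun a => by ring
  have h' : (z.1 - s * (8 * N), z.2 - s * (8 * N)) ∈ TbC N (c a) := h
  show (z.1 - q * (8 * N) - (s - q) * (8 * N), z.2 - q * (8 * N) - (s - q) * (8 * N)) ∈ TbC N (c a)
  rw [e1, e1]
  exact h'

theorem EP_te1 {N r n : ℕ} {P : Set (ℤ × ℤ)} (hP : Peri N P) (hn : n = 8 * N * r) (q : ℤ)
    (e : Edg) : te n q e ∈ EP r P ↔ e ∈ EP r P := by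
  have key : ∀ (q : ℤ) (e : Edg), te n q e ∈ EP r P → e ∈ EP r P := by
    rintro q e ⟨z, hz, he⟩
    refine ⟨(z.1 - q * (8 * N), z.2 - q * (8 * N)), hP z q hz, ?_⟩
    obtain ⟨x, y, b⟩ := e
    have hnz : (n : ℤ) = 8 * N * r := by rw [hn]; push_cast; ring
    have e1 : (r : ℤ) * (z.1 - q * (8 * N)) = r * z.1 - n * q := by rw [hnz]; ring
    have e2 : (r : ℤ) * (z.2 - q * (8 * N)) = r * z.2 - n * q := by rw [hnz]; ring
    unfold te at he
    cases b
    · simp only [sqE, mem_RE_false] at he ⊢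
      rw [e1, e2]
      omega
    · simp only [sqE, mem_RE_true] at he ⊢
      rw [e1, e2]
      omega
  refine ⟨key q e, fun h => ?_⟩
  refine key (-q) _ ?_
  rw [te_te, neg_add_cancel, te_zero]
  exact h

theorem te_two (n : ℕ) (q : ℤ) (e : Edg) : te (2 * n) q e = te n (2 * q) e := by
  unfold te
  push_cast
  simp only [Prod.mk.injEq, and_true]
  constructor <;> ring

theorem EP_red {N r n : ℕ} {P : Set (ℤ × ℤ)} (hP : Peri N P) (hn : n = 8 * N * r)
    (e : Edg) : red (2 * n) e ∈ EP r P ↔ e ∈ EP r P := by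
  obtain ⟨q, hq⟩ := red_eq (2 * n) e
  rw [hq, te_two]
  exact EP_te1 hP hn _ e

/-- two edges of the strip with the same reduction are equal -/
theorem red_inj {n : ℕ} {e e' : Edg} (he : e ∈ Ss n) (he' : e' ∈ Ss n)
    (h : red (2 * n) e = red (2 * n) e') (hn : 2 ≤ n) : e = e' := by
  obtain ⟨q, hq⟩ := te_of_red h
  have h1 := he.2
  have h2 := he'.2
  rw [hq] at h2
  unfold te at h2
  simp only at h2
  push_cast at h2
  have h3 : q = 0 := by
    by_contra hne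
    rcases lt_or_gt_of_ne hne with h4 | h4
    · nlinarith
    · nlinarith
  rw [hq, h3, te_zero]

/-! ### the two configurations -/

section
variable {N r k n M : ℕ} {c : Fin k → ℤ}

/-- the standing assumptions -/
structure St (N r k n M : ℕ) (c : Fin k → ℤ) : Prop where
  hn : n = 8 * N * r
  hn1 : 2 ≤ n
  hM : M = 8 * n
  hb : ∀ e ∈ EP r (BxQ N) ∪ EP r (CrC N k c), -(4 * (n : ℤ)) ≤ dco e ∧ dco e + 1 ≤ 4 * n

theorem St.ce (h : St N r k n M c) {e : Edg} (he : e ∈ EP r (BxQ N) ∨ e ∈ EP r (CrC N k c)) :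
    red (2 * n) e ∈ CE (2 * n) M := by
  have h1 := h.hb e he
  have h2 := h.hM
  have h3 := h.hn1
  exact red_mem (by omega) (by omega) (by omega)

theorem A_eq (h : St N r k n M c) {F : Finset Edg} (e : Edg) :
    e ∈ dlq n (per (2 * n) (FA N r k c n M F)) ↔ du e ∈ Ss n ∧
      ((du e ∈ EP r (BxQ N) ∧ red (2 * n) (du e) ∉ F) ∨
        (du e ∉ EP r (BxQ N) ∧ du e ∉ EP r (CrC N k c))) := by
  classical
  show (du e ∈ Ss n ∧ red (2 * n) (du e) ∉ FA N r k c n M F) ↔ _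
  unfold FA
  rw [Finset.mem_filter, EP_red (peri_BxQ N) h.hn, EP_red (peri_CrC N k c) h.hn]
  have h1 := @St.ce _ _ _ _ _ _ h (du e)
  tauto

theorem B_eq (h : St N r k n M c) {F : Finset Edg} (e : Edg) :
    e ∈ dlq n (per (2 * n) (FB N r k c n M F)) ↔ du e ∈ Ss n ∧
      (((du e ∈ EP r (BxQ N) ∨ du e ∈ EP r (CrC N k c)) ∧ red (2 * n) (du e) ∉ F) ∨
        (du e ∉ EP r (BxQ N) ∧ du e ∉ EP r (CrC N k c))) := by
  classical
  show (du e ∈ Ss n ∧ red (2 * n) (du e) ∉ FB N r k c n M F) ↔ _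
  unfold FB
  rw [Finset.mem_filter, EP_red (peri_BxQ N) h.hn, EP_red (peri_CrC N k c) h.hn]
  have h1 := @St.ce _ _ _ _ _ _ h (du e)
  tauto

/-- the dual edges of the boxes and of the closed region -/
def ST (N r k : ℕ) (c : Fin k → ℤ) (n : ℕ) : Set Edg :=
  {e | du e ∈ Ss n ∧ (du e ∈ EP r (BxQ N) ∨ du e ∉ EP r (CrC N k c))}

/-- the dual edges of the tubes -/
def SD (N r k : ℕ) (c : Fin k → ℤ) (n : ℕ) : Set Edg :=
  {e | du e ∈ Ss n ∧ du e ∉ EP r (BxQ N) ∧ du e ∈ EP r (CrC N k c)}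

theorem AT_eq (h : St N r k n M c) {F : Finset Edg} :
    dlq n (per (2 * n) (FA N r k c n M F)) ∩ ST N r k c n =
      dlq n (per (2 * n) (FA N r k c n M F)) := by
  apply Set.inter_eq_left.2
  intro e he
  rw [A_eq h] at he
  exact ⟨he.1, he.2.imp (fun h => h.1) (fun h => h.2)⟩

/-! ### the exploration -/

/-- the connections, as an equivalence generated by the edges -/
def RR (A : Set Edg) : Vtx → Vtx → Prop :=
  Relation.EqvGen (fun u v => ∃ e ∈ A, src e = u ∧ tgt e = v)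

/-- the explored faces -/
def KK (N r k : ℕ) (c : Fin k → ℤ) (n M : ℕ) (F : Finset Edg) (u : Vtx) : Prop :=
  ∃ x : Vtx, XA N r k c n x ∧ RR (dlq n (per (2 * n) (FA N r k c n M F))) x u

theorem KK_R1 {F : Finset Edg} {u v : Vtx} (h : RR (dlq n (per (2 * n) (FA N r k c n M F))) u v) :
    KK N r k c n M F u ↔ KK N r k c n M F v := by
  constructor
  · rintro ⟨x, hx, h1⟩
    exact ⟨x, hx, Relation.EqvGen.trans _ _ _ h1 h⟩
  · rintro ⟨x, hx, h1⟩
    exact ⟨x, hx, Relation.EqvGen.trans _ _ _ h1 (Relation.EqvGen.symm _ _ h)⟩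

theorem KK_agree (h : St N r k n M c) {F F' : Finset Edg}
    (hF : ∀ e : Edg, du e ∈ Ss n → du e ∈ EP r (BxQ N) →
      (KK N r k c n M F (src e) ∨ KK N r k c n M F (tgt e)) →
      (red (2 * n) (du e) ∈ F' ↔ red (2 * n) (du e) ∈ F)) (u : Vtx) :
    KK N r k c n M F' u ↔ KK N r k c n M F u := by
  have hK : ∀ x, XA N r k c n x → KK N r k c n M F x := fun x hx =>
    ⟨x, hx, Relation.EqvGen.refl _⟩
  have hE : ∀ e : Edg, (KK N r k c n M F (src e) ∨ KK N r k c n M F (tgt e)) →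
      (e ∈ dlq n (per (2 * n) (FA N r k c n M F')) ↔
        e ∈ dlq n (per (2 * n) (FA N r k c n M F))) := by
    intro e he
    rw [A_eq h, A_eq h]
    have := fun h0 h1 => hF e h0 h1 he
    tauto
  have hP : ∀ a b : Vtx,
      (∃ e ∈ dlq n (per (2 * n) (FA N r k c n M F')), src e = a ∧ tgt e = b) →
      (KK N r k c n M F a ↔ KK N r k c n M F b) := by
    rintro a b ⟨e, he, rfl, rfl⟩
    by_cases h1 : KK N r k c n M F (src e) ∨ KK N r k c n M F (tgt e)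
    · exact KK_R1 (Relation.EqvGen.rel _ _ ⟨e, (hE e h1).1 he, rfl, rfl⟩)
    · push Not at h1
      exact ⟨fun h2 => absurd h2 h1.1, fun h2 => absurd h2 h1.2⟩
  constructor
  · rintro ⟨x, hx, h1⟩
    exact (eqv_iff hP h1).1 (hK x hx)
  · rintro ⟨x, hx, h1⟩
    refine ⟨x, hx, eqv_inv (P := KK N r k c n M F) ?_ ?_ h1 (hK x hx)⟩
    · intro a b hab
      exact KK_R1 (Relation.EqvGen.rel _ _ hab)
    · rintro a b ⟨e, he, rfl, rfl⟩ ha
      exact ⟨e, (hE e (Or.inl ha)).2 he, rfl, rfl⟩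

open Classical in
/-- the explored squares -/
noncomputable def Xp (N r k : ℕ) (c : Fin k → ℤ) (n M : ℕ) (F : Finset Edg) : Finset Edg :=
  (CE (2 * n) M).filter (fun e' => e' ∈ EP r (BxQ N) ∧ ∃ e : Edg, du e ∈ Ss n ∧
    red (2 * n) (du e) = e' ∧ (KK N r k c n M F (src e) ∨ KK N r k c n M F (tgt e)))

theorem mem_Xp0 {F : Finset Edg} {e' : Edg} : e' ∈ Xp N r k c n M F ↔
    e' ∈ CE (2 * n) M ∧ e' ∈ EP r (BxQ N) ∧ ∃ e : Edg, du e ∈ Ss n ∧ red (2 * n) (du e) = e' ∧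
    (KK N r k c n M F (src e) ∨ KK N r k c n M F (tgt e)) := by
  classical
  unfold Xp
  rw [Finset.mem_filter]

theorem mem_Xp (h : St N r k n M c) {F : Finset Edg} {e : Edg} (he : du e ∈ Ss n) :
    red (2 * n) (du e) ∈ Xp N r k c n M F ↔ du e ∈ EP r (BxQ N) ∧
    (KK N r k c n M F (src e) ∨ KK N r k c n M F (tgt e)) := by
  rw [mem_Xp0, EP_red (peri_BxQ N) h.hn]
  constructor
  · rintro ⟨_, h2, e', h3, h4, h5⟩
    refine ⟨h2, ?_⟩
    have h6 := du_inj (red_inj h3 he h4 h.hn1)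
    rw [← h6]
    exact h5
  · rintro ⟨h1, h2⟩
    exact ⟨h.ce (Or.inl h1), h1, e, he, rfl, h2⟩

/-- the re-randomised configuration -/
noncomputable def mx (N r k : ℕ) (c : Fin k → ℤ) (n M : ℕ) (F G : Finset Edg) :
    Finset Edg := (F ∩ Xp N r k c n M F) ∪ (G \ Xp N r k c n M F)

theorem mem_mx {F G : Finset Edg} {e : Edg} :
    (e ∈ Xp N r k c n M F → (e ∈ mx N r k c n M F G ↔ e ∈ F)) ∧
    (e ∉ Xp N r k c n M F → (e ∈ mx N r k c n M F G ↔ e ∈ G)) := by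
  unfold mx
  rw [Finset.mem_union, Finset.mem_inter, Finset.mem_sdiff]
  tauto

theorem Xp_mx (h : St N r k n M c) {F G : Finset Edg} :
    Xp N r k c n M (mx N r k c n M F G) = Xp N r k c n M F := by
  have h1 : ∀ u, KK N r k c n M (mx N r k c n M F G) u ↔ KK N r k c n M F u := by
    refine KK_agree h ?_
    intro e he h1 h2
    exact mem_mx.1 ((mem_Xp h he).2 ⟨h1, h2⟩)
  ext e'
  rw [mem_Xp0, mem_Xp0]
  simp only [h1]

/-- the faces of the tubes -/
def Dp (N r k : ℕ) (c : Fin k → ℤ) (n : ℕ) (u : Vtx) : Prop :=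
  ∃ e ∈ SD N r k c n, ∃ w, (src e = u ∧ tgt e = w) ∨ (src e = w ∧ tgt e = u)

theorem Dp_band (h : St N r k n M c) {u : Vtx} (hu : Dp N r k c n u) :
    |u.1 - u.2| ≤ 2 * (2 * n : ℕ) := by
  obtain ⟨e, he, w, h1⟩ := hu
  have h2 := h.hb _ (Or.inr he.2.2)
  rw [dco_du] at h2
  obtain ⟨x, y, b⟩ := e
  push_cast
  rw [abs_le]
  cases b
  · simp only [dco, Bool.false_eq_true, if_false] at h2
    simp only [src_mk, tgt_false] at h1
    rcases h1 with ⟨rfl, -⟩ | ⟨-, rfl⟩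
    · simp only; omega
    · simp only; omega
  · simp only [dco, if_true] at h2
    simp only [src_mk, tgt_true] at h1
    rcases h1 with ⟨rfl, -⟩ | ⟨-, rfl⟩
    · simp only; omega
    · simp only; omega

theorem mem_Cc {G : Finset Edg} {e : Edg} (h1 : -(M : ℤ) ≤ dco e) (h2 : dco e < M)
    (h3 : red (2 * n) (du e) ∉ G) : e ∈ Cc 1 (2 * n) M G := by
  unfold Cc
  rw [Set.mem_ofPred_eq, if_neg one_ne_zero]
  exact ⟨h1, h2, h3⟩

end

/-- **the clusters of the marked points do not merge** -/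
theorem stay (hABS : Pool.Agent.H160R2.MU.S_ABS) (hSEPA : S_SEPA) {N r m n M : ℕ}
    {c : Fin (m / 2) → ℤ} {ρ l : ℕ} (hk : 2 ≤ m)
    (hN : m + 4 ≤ N) (hc : AdmC N (m / 2) c) (hl : 1 ≤ l) (hlρ : 32 * l ≤ ρ) (hρ : 32 * ρ ≤ r)
    (h : St N r (m / 2) n M c) {F G : Finset Edg}
    (hF : F ⊆ CE (2 * n) M) (hBad : ¬ BadQ 1 N r ρ l n M F) (hT : PTr 1 (2 * n) M l G)
    {x x' : Vtx} (hx : XA N r (m / 2) c n x) (hx' : XA N r (m / 2) c n x') :
    RR (dlq n (per (2 * n) (FB N r (m / 2) c n M (mx N r (m / 2) c n M F G)))) x x' ↔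
      RR (dlq n (per (2 * n) (FA N r (m / 2) c n M F))) x x' := by
  have hR : ∀ B : Set Edg, RR B = Relation.EqvGen (fun u v => (False ∨ False ∨
      ∃ e ∈ B, src e = u ∧ tgt e = v)) := by
    intro B
    unfold RR
    simp only [false_or]
  have hmain := hABS Vtx Edg (fun e u v => src e = u ∧ tgt e = v) (fun _ _ => False)
    (fun _ _ => False)
    (ST N r (m / 2) c n) (SD N r (m / 2) c n) (dlq n (per (2 * n) (FA N r (m / 2) c n M F)))
    (Cc 1 (2 * n) M G)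
    (dlq n (per (2 * n) (FB N r (m / 2) c n M (mx N r (m / 2) c n M F G))))
    {p | XA N r (m / 2) c n p} (fun u v => Nr (4 * l) u v) RR
    (KK N r (m / 2) c n M F) (Dp N r (m / 2) c n) hR
  rw [AT_eq h] at hmain
  refine hmain ?_ ?_ ?_ ?_ ?_ ?_ ?_ ?_ ?_ ?_ x hx x' hx'
  · intro u; exact Iff.rfl
  · intro u; exact Iff.rfl
  · intro u v huv
    exact huv.elim
  · rintro e he ⟨u, v, ⟨rfl, rfl⟩, h2⟩
    refine ⟨?_, ?_⟩
    · rintro u' v' ⟨rfl, rfl⟩
      exact h2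
    · rw [B_eq h, A_eq h]
      have h3 : du e ∈ EP r (BxQ N) →
          (red (2 * n) (du e) ∈ mx N r (m / 2) c n M F G ↔ red (2 * n) (du e) ∈ F) :=
        fun h4 => mem_mx.1 ((mem_Xp h he.1).2 ⟨h4, h2⟩)
      exact aux1 h3 he.2
  · intro e he h1 h2
    obtain ⟨h3, h4⟩ := h1 _ _ ⟨rfl, rfl⟩
    rw [B_eq h] at h2
    have h5 : du e ∈ EP r (BxQ N) := by
      by_contra h5
      have h6 : du e ∉ EP r (CrC N (m / 2) c) := he.2.resolve_left h5
      exact h3 ⟨src e, Or.inr (Or.inr ⟨e, he.1, h5, h6, Or.inl rfl⟩), Relation.EqvGen.refl _⟩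
    have h6 : red (2 * n) (du e) ∉ Xp N r (m / 2) c n M F := by
      rw [mem_Xp h he.1]
      rintro ⟨_, h7 | h7⟩
      · exact h3 h7
      · exact h4 h7
    have h7 : red (2 * n) (du e) ∉ mx N r (m / 2) c n M F G := aux2 h2 (Or.inl h5)
    have h8 : red (2 * n) (du e) ∉ G := fun h9 => h7 ((mem_mx.2 h6).2 h9)
    have h9 := h.hb _ (Or.inl h5)
    rw [dco_du] at h9
    have h10 := h.hM
    have h11 := h.hn1
    exact mem_Cc (by omega) (by omega) h8
  · intro e he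
    exact aux3 he.1
  · intro e he h2
    rw [B_eq h] at h2
    have h6 : red (2 * n) (du e) ∉ Xp N r (m / 2) c n M F := by
      rw [mem_Xp h he.1]
      exact fun h7 => he.2.1 h7.1
    have h7 : red (2 * n) (du e) ∉ mx N r (m / 2) c n M F G := aux2 h2 (Or.inr he.2.2)
    have h8 : red (2 * n) (du e) ∉ G := fun h9 => h7 ((mem_mx.2 h6).2 h9)
    have h9 := h.hb _ (Or.inr he.2.2)
    rw [dco_du] at h9
    have h10 := h.hM
    have h11 := h.hn1
    exact mem_Cc (by omega) (by omega) h8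
  · rw [Set.disjoint_left]
    intro e h1 h2
    exact h1.2.elim h2.2.1 (fun h3 => h3 h2.2.2)
  · intro u v hu hDu huv
    refine hT u v (Dp_band h hDu) ((reach_iff _ _ _).2 (eqv_mono ?_ huv))
    rintro a b (hab | hab)
    · exact hab.elim
    · exact hab
  · intro x hx x' hx' u u' h1 h2 hu hu' hnear
    obtain ⟨e, he, w, h3⟩ := hu
    obtain ⟨e', he', w', h3'⟩ := hu'
    exact (reach_iff _ _ _).1 (hSEPA N r m ρ l c hk hN hc hl hlρ hρ n M h.hn h.hM F hF hBad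
      x x' u u' hx hx' ((reach_iff _ _ _).2 h1) ((reach_iff _ _ _).2 h2)
      ⟨e, he.1, he.2.1, he.2.2, h3.imp (fun h => h.1) (fun h => h.2)⟩
      ⟨e', he'.1, he'.2.1, he'.2.2, h3'.imp (fun h => h.1) (fun h => h.2)⟩ hnear)

theorem P1_stay (hABS : Pool.Agent.H160R2.MU.S_ABS) (hSEPA : S_SEPA) {N r m n M : ℕ}
    {c : Fin (m / 2) → ℤ} {ρ l : ℕ} (hk : 2 ≤ m)
    (hN : m + 4 ≤ N) (hc : AdmC N (m / 2) c) (hl : 1 ≤ l) (hlρ : 32 * l ≤ ρ) (hρ : 32 * ρ ≤ r)
    (h : St N r (m / 2) n M c) {F G : Finset Edg}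
    (hF : F ⊆ CE (2 * n) M) (hBad : ¬ BadQ 1 N r ρ l n M F) (hT : PTr 1 (2 * n) M l G)
    (h1 : P1 n m (per (2 * n) (FA N r (m / 2) c n M F))) :
    P1 n m (per (2 * n) (FB N r (m / 2) c n M (mx N r (m / 2) c n M F G))) := by
  have key : ∀ (x x' : Vtx), XA N r (m / 2) c n x → XA N r (m / 2) c n x' →
      (Reach (dlq n (per (2 * n) (FB N r (m / 2) c n M (mx N r (m / 2) c n M F G)))) x x' ↔
      Reach (dlq n (per (2 * n) (FA N r (m / 2) c n M F))) x x') := by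
    intro x x' hx hx'
    rw [reach_iff, reach_iff]
    exact stay hABS hSEPA hk hN hc hl hlρ hρ h hF hBad hT hx hx'
  have hcv : ∀ i : ℕ, XA N r (m / 2) c n (cv i) := fun i => Or.inl rfl
  have hcw : ∀ i : ℕ, XA N r (m / 2) c n (cw n i) := fun i => Or.inl rfl
  refine ⟨?_, ?_, ?_, ?_⟩
  · intro i j hi hj hij h2
    exact h1.1 i j hi hj hij ((key _ _ (hcv i) (hcv j)).1 h2)
  · intro i hi
    obtain ⟨j, hj, h2⟩ := h1.2.1 i hi
    exact ⟨j, hj, (key _ _ (hcv i) (hcw _)).2 h2⟩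
  · intro i v hi hv h2
    exact h1.2.2.1 i v hi hv ((key _ _ (hcv i) (Or.inr (Or.inl hv))).1 h2)
  · intro hm j hj1 hj2
    obtain ⟨h2, h3⟩ := h1.2.2.2 hm j hj1 hj2
    refine ⟨fun i hi h4 => h2 i hi ((key _ _ (hcv i) (hcv j)).1 h4), fun v hv h4 => ?_⟩
    exact h3 v hv ((key _ _ (Or.inr (Or.inl hv)) (hcv j)).1 h4)

section
variable {N r k n M : ℕ} {c : Fin k → ℤ}

theorem FA_sub {F : Finset Edg} : FA N r k c n M F ⊆ CE (2 * n) M := by
  classical
  unfold FA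
  exact Finset.filter_subset _ _

theorem FB_sub {F : Finset Edg} : FB N r k c n M F ⊆ CE (2 * n) M := by
  classical
  unfold FB
  exact Finset.filter_subset _ _

/-- an edge at distance at most `N r / 2` of the centre of a box -/
theorem near_box (hr : 1 ≤ r) (hN : 1 ≤ N) (hn : n = 8 * N * r) (s : ℤ) {x y : ℤ} (b : Bool)
    (hx : -((N * r / 2 : ℕ) : ℤ) - 1 ≤ x - s * n ∧ x - s * n ≤ ((N * r / 2 : ℕ) : ℤ))
    (hy : -((N * r / 2 : ℕ) : ℤ) - 1 ≤ y - s * n ∧ y - s * n ≤ ((N * r / 2 : ℕ) : ℤ)) :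
    ((x, y, b) : Edg) ∈ EP r (BxQ N) := by
  have hNr : N * r / 2 < N * r := Nat.div_lt_self (Nat.mul_pos hN hr) (by norm_num)
  have hNr' : ((N * r / 2 : ℕ) : ℤ) < N * r := by exact_mod_cast hNr
  have hr0 : (0 : ℤ) < r := by exact_mod_cast hr
  have hnz : (n : ℤ) = 8 * N * r := by rw [hn]; push_cast; ring
  set x' := x - s * n with hx'
  set y' := y - s * n with hy'
  have hx1 := Int.emod_nonneg x' hr0.ne'
  have hx2 := Int.emod_lt_of_pos x' hr0
  have hx3 := Int.mul_ediv_add_emod x' r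
  have hy1 := Int.emod_nonneg y' hr0.ne'
  have hy2 := Int.emod_lt_of_pos y' hr0
  have hy3 := Int.mul_ediv_add_emod y' r
  have bx1 : -(N : ℤ) ≤ x' / r := by
    rw [Int.le_ediv_iff_mul_le hr0]; nlinarith [hx.1]
  have bx2 : x' / r < N := by
    rw [Int.ediv_lt_iff_lt_mul hr0]; nlinarith [hx.2]
  have by1 : -(N : ℤ) ≤ y' / r := by
    rw [Int.le_ediv_iff_mul_le hr0]; nlinarith [hy.1]
  have by2 : y' / r < N := by
    rw [Int.ediv_lt_iff_lt_mul hr0]; nlinarith [hy.2]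
  refine ⟨(x' / r + s * (8 * N), y' / r + s * (8 * N)), ⟨s, ?_⟩, ?_⟩
  · have e1 : ∀ a : ℤ, (a + s * (8 * N)) - s * (8 * N) = a := fun a => by ring
    simp only [e1]
    exact ⟨bx1, bx2, by1, by2⟩
  · have e1 : (r : ℤ) * (x' / r + s * (8 * N)) = r * (x' / r) + s * n := by rw [hnz]; ring
    have e2 : (r : ℤ) * (y' / r + s * (8 * N)) = r * (y' / r) + s * n := by rw [hnz]; ring
    cases b
    · show ((x, y, false) : Edg) ∈ RE _ _ _ _
      simp only [mem_RE_false]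
      rw [e1, e2]
      omega
    · show ((x, y, true) : Edg) ∈ RE _ _ _ _
      simp only [mem_RE_true]
      rw [e1, e2]
      omega

theorem box_left (hr : 1 ≤ r) (hN : 1 ≤ N) (hn : n = 8 * N * r) {e : Edg}
    (he : e ∈ boxE (N * r / 2)) : e ∈ EP r (BxQ N) := by
  obtain ⟨x, y, b⟩ := e
  have hbd : (-((N * r / 2 : ℕ) : ℤ) ≤ x ∧ x ≤ ((N * r / 2 : ℕ) : ℤ)) ∧
      (-((N * r / 2 : ℕ) : ℤ) ≤ y ∧ y ≤ ((N * r / 2 : ℕ) : ℤ)) := by
    cases b
    · simp only [boxE, mem_RE_false] at he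
      omega
    · simp only [boxE, mem_RE_true] at he
      omega
  exact near_box hr hN hn 0 b (by constructor <;> omega) (by constructor <;> omega)

theorem box_right (hr : 1 ≤ r) (hN : 1 ≤ N) (hn : n = 8 * N * r) {e : Edg}
    (he : e ∈ boxE (N * r / 2)) : mirE n e ∈ EP r (BxQ N) := by
  obtain ⟨x, y, b⟩ := e
  have hbd : (-((N * r / 2 : ℕ) : ℤ) ≤ x ∧ x ≤ ((N * r / 2 : ℕ) : ℤ)) ∧
      (-((N * r / 2 : ℕ) : ℤ) ≤ y ∧ y ≤ ((N * r / 2 : ℕ) : ℤ)) := by
    cases b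
    · simp only [boxE, mem_RE_false] at he
      omega
    · simp only [boxE, mem_RE_true] at he
      omega
  unfold mirE
  cases b
  · simp only [Bool.false_eq_true, if_false]
    exact near_box hr hN hn 1 true (by constructor <;> omega) (by constructor <;> omega)
  · simp only [if_true]
    exact near_box hr hN hn 1 false (by constructor <;> omega) (by constructor <;> omega)

theorem FA_box (hn : n = 8 * N * r) {F : Finset Edg} (hF : F ⊆ CE (2 * n) M) {e : Edg}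
    (he : e ∈ EP r (BxQ N)) : red (2 * n) e ∈ FA N r k c n M F ↔ red (2 * n) e ∈ F := by
  classical
  have h : red (2 * n) e ∈ EP r (BxQ N) := (EP_red (peri_BxQ N) hn e).2 he
  unfold FA
  rw [Finset.mem_filter]
  constructor
  · rintro ⟨_, h1 | h1⟩
    · exact h1.2
    · exact absurd h h1.1
  · intro h1
    exact ⟨hF h1, Or.inl ⟨h, h1⟩⟩

theorem per_dco {F : Finset Edg} (hF : F ⊆ CE (2 * n) M) :
    ∀ e ∈ per (2 * n) F, dco e < M := by
  intro e he
  have h1 := hF he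
  rw [mem_CE, dco_red] at h1
  exact h1.2.2

end

end TSTA

/-- **the tubes are re-randomised: class 1** -/
theorem t_STA : Pool.Agent.H160R2.MU.S_ABS → Pool.Agent.H160R2.MU.S_PRB → S_SEPA →
    Pool.Agent.W808.HU.S_TRP → S_BADQ → S_DEC → S_IND → S_q4 → S_HG → S_STA := by
  intro hABS hPRB hSEPA hTRAP hBADP hDEC hIND hq4 hG N m c hk hN hc δ hδ
  obtain ⟨M3, M4, hM3, hM4, hB⟩ := hBADP N (by omega) δ hδ
  obtain ⟨κ, hκ, r0, hT⟩ := hTRAP (16 * N) M4 (by omega) (by omega)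
  refine ⟨1 / κ, by positivity, max r0 M4, ?_⟩
  intro r hr n M hn hM
  have hr1 : r0 ≤ r := le_trans (le_max_left _ _) hr
  have hr2 : M4 ≤ r := le_trans (le_max_right _ _) hr
  have hrb : 64 * 64 ≤ r := by omega
  have hl : 1 ≤ r / M4 := (Nat.one_le_div_iff (by omega)).2 hr2
  have hρ : 32 * (r / M3) ≤ r := by
    have h1 : M3 * (r / M3) ≤ r := Nat.mul_div_le r M3
    nlinarith [Nat.zero_le (r / M3)]
  have hlρ : 32 * (r / M4) ≤ r / M3 := by
    rw [Nat.le_div_iff_mul_le (by omega)]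
    have h1 : M4 * (r / M4) ≤ r := Nat.mul_div_le r M4
    nlinarith [Nat.zero_le (r / M4), Nat.mul_le_mul_right (r / M4) hM4]
  have hnr : 8 * (N * r) = n := by rw [hn]; ring
  have hNr1 : N * 2 ≤ N * r := Nat.mul_le_mul_left N (by omega)
  have hNr2 : 6 * r ≤ N * r := Nat.mul_le_mul_right r (by omega)
  have hb : ∀ e ∈ EP r (BxQ N) ∪ EP r (CrC N (m / 2) c),
      -(4 * (n : ℤ)) ≤ dco e ∧ dco e + 1 ≤ 4 * n := by
    have h4 := (hq4 N (m / 2) c (by omega) hc _ rfl).2.2.2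
    have h5 : ∀ e ∈ EP r (BxQ N ∪ CrC N (m / 2) c), -(4 * (n : ℤ)) ≤ dco e ∧ dco e + 1 ≤ 4 * n := by
      intro e he
      have := Pool.Agent.H160R2.MU.TSTA.EP_bd (r := r) (ν := 10 * N)
        (by intro z hz; have := h4 z hz; push_cast; exact this) he
      have h6 : 10 * N * r = 10 * (N * r) := by ring
      rw [h6] at this
      omega
    rintro e (⟨z, hz, he⟩ | ⟨z, hz, he⟩)
    · exact h5 e ⟨z, Or.inl hz, he⟩
    · exact h5 e ⟨z, Or.inr hz, he⟩
  have hst : TSTA.St N r (m / 2) n M c := ⟨hn, by omega, hM, hb⟩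
  have hok : H974.Ok (fun _ : Edg => (1 / 2 : ℝ)) := okq (by norm_num) (by norm_num)
  have e2 : 16 * N * r = 2 * n := by rw [← hnr]; ring
  have e3 : 4 * (2 * n) = M := by rw [hM]; ring
  have hn8 : 8 * n = M := hM.symm
  -- the bad part
  have hbad : PC (2 * n) M (fun F => SEq m (N * r / 2 : ℕ) (per (2 * n) F) ∧
      SEq m (N * r / 2 : ℕ) (mirG n (per (2 * n) F)) ∧
      BadQ 1 N r (r / M3) (r / M4) n M F) ≤ δ * sPq m (N * r / 2) ^ 2 := by
    have h1 := hIND 1 N r (r / M3) (r / M4) m (by norm_num) (by omega) (by omega) hlρ hl hρ n hn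
    have h2 := hB 1 r n (by norm_num) hr2 hn
    rw [hn8] at h1 h2
    have h3 : 0 ≤ sPq m (N * r / 2) ^ 2 := sq_nonneg _
    calc _ ≤ _ := h1
      _ ≤ sPq m (N * r / 2) ^ 2 * δ := mul_le_mul_of_nonneg_left h2 h3
      _ = _ := mul_comm _ _
  -- the good part
  have hgood : PC (2 * n) M (fun F => P0 n m (per (2 * n) (FA N r (m / 2) c n M F)) ∧
      ¬ BadQ 1 N r (r / M3) (r / M4) n M F) * PC (2 * n) M (PTr 1 (2 * n) M (r / M4)) ≤
      PC (2 * n) M (fun F => P0 n m (per (2 * n) (FB N r (m / 2) c n M F))) := by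
    refine hPRB (CE (2 * n) M) (TSTA.Xp N r (m / 2) c n M) _ _ _ ?_ ?_
    · intro F G _ _
      exact TSTA.Xp_mx hst
    · rintro F G hF hG' ⟨h1, h2⟩ h3
      rw [hG n m M _ hk (by omega) (TSTA.per_dco TSTA.FA_sub)] at h1
      rw [hG n m M _ hk (by omega) (TSTA.per_dco TSTA.FB_sub)]
      exact TSTA.P1_stay hABS hSEPA hk hN hc hl hlρ hρ hst hF h2 h3 h1
  have htrap : κ ≤ PC (2 * n) M (PTr 1 (2 * n) M (r / M4)) := by
    have h1 := hT 1 r (by norm_num) hr1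
    rw [e2, e3] at h1
    exact h1
  have hsplit : PC (2 * n) M (fun F => P0 n m (per (2 * n) (FA N r (m / 2) c n M F))) ≤
      PC (2 * n) M (fun F => SEq m (N * r / 2 : ℕ) (per (2 * n) F) ∧
      SEq m (N * r / 2 : ℕ) (mirG n (per (2 * n) F)) ∧
        BadQ 1 N r (r / M3) (r / M4) n M F) +
      PC (2 * n) M (fun F => P0 n m (per (2 * n) (FA N r (m / 2) c n M F)) ∧
        ¬ BadQ 1 N r (r / M3) (r / M4) n M F) := by
    refine le_trans ?_ (Pr_or_le hok _ _ _)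
    refine Pr_mono hok ?_
    intro F hF h
    by_cases h1 : BadQ 1 N r (r / M3) (r / M4) n M F
    · have h2 := hDEC n M m (N * r / 2) hk (by omega) (by omega) (by omega)
        (FA N r (m / 2) c n M F) F TSTA.FA_sub hF
        (fun e he => TSTA.FA_box hn hF (TSTA.box_left (by omega) (by omega) hn he))
        (fun e he => TSTA.FA_box hn hF (TSTA.box_right (by omega) (by omega) hn he)) h
      exact Or.inl ⟨h2.1, h2.2, h1⟩
    · exact Or.inr ⟨h, h1⟩
  have hg0 : 0 ≤ PC (2 * n) M (fun F => P0 n m (per (2 * n) (FA N r (m / 2) c n M F)) ∧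
      ¬ BadQ 1 N r (r / M3) (r / M4) n M F) := Pr_nonneg hok _ _
  have hfin : PC (2 * n) M (fun F => P0 n m (per (2 * n) (FA N r (m / 2) c n M F)) ∧
      ¬ BadQ 1 N r (r / M3) (r / M4) n M F) ≤
      1 / κ * PC (2 * n) M (fun F => P0 n m (per (2 * n) (FB N r (m / 2) c n M F))) := by
    rw [one_div, ← div_eq_inv_mul, le_div_iff₀ hκ]
    exact le_trans (mul_le_mul_of_nonneg_left htrap hg0) hgood
  linarith

end Pool.Agent.W808.KC
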