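import Pool.Agent.W808.KC.Stm
import Pool.Agent.W808.HU.T_STB

/-!
# STB: re-randomising everything, strip version (helper500, after helper45)
-/

set_option autoImplicit false

namespace Pool.Agent.W808.KC
open H974 H906.Cyl
open H12S (Dir hbE segD rimE H4 Crs Nr sqE)
open Pool.Agent.H160R2.ML (nm Gn)
open Pool.Agent.H160R2.MU (EP inSq PC Cc)
open Pool.Agent.W808.HU (du PTr)
open Pool.Agent.H160R2.MU.TSTB (mem_sq EP_dco mix mem_mix eqv_rtg rtg_eqv step_eqv)
open Pool.Agent.W808.HU.TSTB (rr_iff clu te red_eq_te EP_or src_diff tgt_diff te_te te_zero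
  dco_te)

namespace TSTB

open Relation

/-! ### periodicity of the coarse sets -/

theorem EP_te {N r n : ℕ} (hn : n = 8 * N * r) {P : Set (ℤ × ℤ)}
    (hP : ∀ (z : ℤ × ℤ) (s : ℤ), z ∈ P ↔ (z.1 - s * (8 * N), z.2 - s * (8 * N)) ∈ P) (q : ℤ)
    (e : Edg) : te (2 * n) q e ∈ EP r P ↔ e ∈ EP r P := by
  have key : ∀ (q : ℤ) (e : Edg), e ∈ EP r P → te (2 * n) q e ∈ EP r P := by
    rintro q e ⟨z, hz, he⟩
    refine ⟨(z.1 + (2 * q) * (8 * N), z.2 + (2 * q) * (8 * N)), ?_, ?_⟩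
    · rw [hP _ (2 * q)]
      have : ((z.1 + (2 * q) * (8 * N) - (2 * q) * (8 * N),
          z.2 + (2 * q) * (8 * N) - (2 * q) * (8 * N)) : ℤ × ℤ) = z :=
        Prod.ext (by simp only; ring) (by simp only; ring)
      simp only
      rw [this]; exact hz
    · rw [mem_sq] at he ⊢
      have e1 : ∀ a : ℤ, (r : ℤ) * (a + (2 * q) * (8 * N)) = r * a + ((2 * n : ℕ) : ℤ) * q := by
        intro a; rw [hn]; push_cast; ring
      unfold te
      simp only [e1]
      generalize ((2 * n : ℕ) : ℤ) * q = w at *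
      split_ifs at he ⊢ <;> refine ⟨⟨by omega, by omega⟩, by omega, by omega⟩
  constructor
  · intro h
    have := key (-q) _ h
    rw [te_te, neg_add_cancel, te_zero] at this
    exact this
  · exact key q e

theorem EP_red {N r n : ℕ} (hn : n = 8 * N * r) {P : Set (ℤ × ℤ)}
    (hP : ∀ (z : ℤ × ℤ) (s : ℤ), z ∈ P ↔ (z.1 - s * (8 * N), z.2 - s * (8 * N)) ∈ P)
    (e : Edg) : red (2 * n) e ∈ EP r P ↔ e ∈ EP r P := by
  rw [red_eq_te]
  exact EP_te hn hP _ e

/-- edges near the multiples of `(n, n)` are edges of the boxes -/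
theorem near_EP {N r n : ℕ} (hr : 1 ≤ r) (hn : n = 8 * N * r) (s : ℤ) {e : Edg}
    (h1 : -((N : ℤ) * r) ≤ e.1 - s * n ∧ e.1 - s * n < (N : ℤ) * r)
    (h2 : -((N : ℤ) * r) ≤ e.2.1 - s * n ∧ e.2.1 - s * n < (N : ℤ) * r) :
    e ∈ EP r (BxQ N) := by
  have hr0 : (0 : ℤ) < r := by exact_mod_cast hr
  have hx1 := Int.emod_nonneg e.1 hr0.ne'
  have hx2 := Int.emod_lt_of_pos e.1 hr0
  have hx3 := Int.mul_ediv_add_emod e.1 r
  have hy1 := Int.emod_nonneg e.2.1 hr0.ne'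
  have hy2 := Int.emod_lt_of_pos e.2.1 hr0
  have hy3 := Int.mul_ediv_add_emod e.2.1 r
  have e1 : s * (n : ℤ) = (s * (8 * N)) * r := by rw [hn]; push_cast; ring
  have b1 : ∀ a : ℤ, -((N : ℤ) * r) ≤ a - s * n → -(N : ℤ) ≤ a / r - s * (8 * N) := by
    intro a ha
    have : -(N : ℤ) + s * (8 * N) ≤ a / r := by
      rw [Int.le_ediv_iff_mul_le hr0]
      rw [e1] at ha
      linarith
    linarith
  have b2 : ∀ a : ℤ, a - s * n < (N : ℤ) * r → a / r - s * (8 * N) < N := by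
    intro a ha
    have : a / r < N + s * (8 * N) := by
      rw [Int.ediv_lt_iff_lt_mul hr0]
      rw [e1] at ha
      linarith
    linarith
  refine ⟨(e.1 / r, e.2.1 / r), ⟨s, b1 _ h1.1, b2 _ h1.2, b1 _ h2.1, b2 _ h2.2⟩, ?_⟩
  rw [mem_sq]
  simp only
  generalize (r : ℤ) * (e.1 / r) = w1 at *
  generalize (r : ℤ) * (e.2.1 / r) = w2 at *
  split_ifs <;> refine ⟨⟨by omega, by omega⟩, by omega, by omega⟩

theorem boxE_bd {R : ℕ} {e : Edg} (he : e ∈ boxE R) :
    -(R : ℤ) ≤ e.1 ∧ e.1 ≤ R ∧ -(R : ℤ) ≤ e.2.1 ∧ e.2.1 ≤ R := by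
  obtain ⟨x, y, b⟩ := e
  unfold boxE at he
  cases b
  · rw [mem_RE_false] at he
    simp only
    omega
  · rw [mem_RE_true] at he
    simp only
    omega

theorem box_EP {N r n : ℕ} (hr : 2 ≤ r) (hN : 6 ≤ N) (hn : n = 8 * N * r) {e : Edg}
    (he : e ∈ boxE (N * r / 2)) : e ∈ EP r (BxQ N) ∧ mirE n e ∈ EP r (BxQ N) := by
  have hb := boxE_bd he
  have hR : 2 * (((N * r / 2 : ℕ) : ℤ)) ≤ (N : ℤ) * r := by
    have : 2 * (N * r / 2) ≤ N * r := Nat.mul_div_le _ _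
    exact_mod_cast this
  have hNr : (12 : ℤ) ≤ (N : ℤ) * r := by
    have : 6 * 2 ≤ N * r := Nat.mul_le_mul hN hr
    exact_mod_cast this
  constructor
  · refine near_EP (by omega) hn 0 ?_ ?_ <;> constructor <;> rw [zero_mul] <;> omega
  · refine near_EP (by omega) hn 1 ?_ ?_ <;> rw [one_mul] <;> unfold mirE <;> split_ifs <;>
      simp only <;> constructor <;> omega

theorem mem_FB {N r k : ℕ} {c : Fin k → ℤ} {n M : ℕ} {F : Finset Edg} {e : Edg} :
    e ∈ FB N r k c n M F ↔ e ∈ CE (2 * n) M ∧ e ∈ EP r (BxQ N ∪ CrC N k c) ∧ e ∈ F := by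
  classical
  rw [← EP_or]
  simp only [FB, Finset.mem_filter]

/-- `red` is injective on the strip -/
theorem red_inj {n : ℕ} (hn : 2 ≤ n) {e e' : Edg} (he : e ∈ Ss n) (he' : e' ∈ Ss n)
    (h : red (2 * n) e = red (2 * n) e') : e = e' := by
  obtain ⟨x, y, b⟩ := e
  obtain ⟨x', y', b'⟩ := e'
  obtain ⟨_, h1, h2⟩ := he
  obtain ⟨_, h1', h2'⟩ := he'
  simp only [red, Prod.mk.injEq] at h h1 h2 h1' h2'
  obtain ⟨h3, h4, h5⟩ := h
  have h6 : ((2 * n : ℕ) : ℤ) = 2 * (n : ℤ) := by push_cast; ring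
  rw [h6] at h3 h4
  set q := (x + y) / (2 * (2 * (n : ℤ))) with hq
  set q' := (x' + y') / (2 * (2 * (n : ℤ))) with hq'
  have h7 : (x - x') = 2 * (n : ℤ) * (q - q') := by linarith
  have h8 : (y - y') = 2 * (n : ℤ) * (q - q') := by linarith
  have h9 : (x + y) - (x' + y') = 4 * (n : ℤ) * (q - q') := by linarith
  have hn' : (2 : ℤ) ≤ n := by exact_mod_cast hn
  have h10 : q - q' = 0 := by
    by_contra hne
    rcases lt_or_gt_of_ne hne with hlt | hgt
    · have : q - q' ≤ -1 := by omega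
      nlinarith
    · have : 1 ≤ q - q' := by omega
      nlinarith
  rw [h10, mul_zero] at h7 h8
  simp only [Prod.mk.injEq]
  exact ⟨by omega, by omega, h5⟩

/-! ### exploration -/

/-- the vertices of the flat side at the corners -/
def XX (n m : ℕ) : Set Vtx := {x | ∃ i : ℕ, i < m / 2 ∧ (x = cv i ∨ x = cw n i)}

section expl

variable (N r m : ℕ) (c : Fin (m / 2) → ℤ) (n M : ℕ)

/-- edges of boxes and tubes of the strip -/
def TT : Set Edg := {e | e ∈ Ss n ∧ dco e < M ∧ e ∈ EP r (BxQ N ∪ CrC N (m / 2) c)}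

/-- edges of the closed region of the strip -/
def DD : Set Edg := {e | e ∈ Ss n ∧ dco e < M ∧ e ∉ EP r (BxQ N ∪ CrC N (m / 2) c)}

/-- the vertices of the clusters of the corner points -/
def KK (F : Finset Edg) (u : Vtx) : Prop :=
  ∃ x ∈ XX n m, Reach (per (2 * n) (FB N r (m / 2) c n M F) ∩ Ss n) x u

open Classical in
/-- the explored edges -/
noncomputable def ExK (K : Vtx → Prop) : Finset Edg :=
  (CE (2 * n) M).filter (fun e => ∃ e' ∈ TT N r m c n M, red (2 * n) e' = e ∧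
    (K (src e') ∨ K (tgt e')))

/-- the explored edges -/
noncomputable def Exx (F : Finset Edg) : Finset Edg := ExK N r m c n M (KK N r m c n M F)

end expl

section
variable {N r m : ℕ} {c : Fin (m / 2) → ℤ} {n M : ℕ}

theorem mem_Exx {F : Finset Edg} {e : Edg} :
    e ∈ Exx N r m c n M F ↔ e ∈ CE (2 * n) M ∧ ∃ e' ∈ TT N r m c n M, red (2 * n) e' = e ∧
      (KK N r m c n M F (src e') ∨ KK N r m c n M F (tgt e')) := by
  classical
  simp only [Exx, ExK, Finset.mem_filter]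

/-- an edge of boxes and tubes which touches the clusters has its representative explored -/
theorem touch_Exx (hn0 : 2 ≤ n) {F : Finset Edg} {e : Edg} (he : e ∈ TT N r m c n M)
    (h : KK N r m c n M F (src e) ∨ KK N r m c n M F (tgt e)) :
    red (2 * n) e ∈ Exx N r m c n M F := by
  rw [mem_Exx]
  refine ⟨red_mem (by omega) (by have := he.1.1; omega) he.2.1, e, he, rfl, h⟩

theorem of_Exx (hn0 : 2 ≤ n) {F : Finset Edg} {e : Edg} (he : e ∈ Ss n)
    (h : red (2 * n) e ∈ Exx N r m c n M F) :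
    e ∈ TT N r m c n M ∧ (KK N r m c n M F (src e) ∨ KK N r m c n M F (tgt e)) := by
  rw [mem_Exx] at h
  obtain ⟨_, e', he', h1, h2⟩ := h
  have := red_inj hn0 he'.1 he h1
  subst this
  exact ⟨he', h2⟩

/-- open edges of boxes and tubes -/
theorem mem_perFB (hn : n = 8 * N * r)
    (hP : ∀ (z : ℤ × ℤ) (s : ℤ), z ∈ BxQ N ∪ CrC N (m / 2) c ↔
      (z.1 - s * (8 * N), z.2 - s * (8 * N)) ∈ BxQ N ∪ CrC N (m / 2) c)
    {F : Finset Edg} {e : Edg} :
    e ∈ per (2 * n) (FB N r (m / 2) c n M F) ∩ Ss n ↔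
      e ∈ TT N r m c n M ∧ red (2 * n) e ∈ F ∧ red (2 * n) e ∈ CE (2 * n) M := by
  constructor
  · rintro ⟨h1, h2⟩
    have h1' : red (2 * n) e ∈ FB N r (m / 2) c n M F := h1
    rw [mem_FB] at h1'
    have h3 := (mem_CE.1 h1'.1).2
    rw [dco_red] at h3
    exact ⟨⟨h2, h3.2, (EP_red hn hP e).1 h1'.2.1⟩, h1'.2.2, h1'.1⟩
  · rintro ⟨h1, h2, h3⟩
    refine ⟨?_, h1.1⟩
    show red (2 * n) e ∈ FB N r (m / 2) c n M F
    rw [mem_FB]
    exact ⟨h3, (EP_red hn hP e).2 h1.2.2, h2⟩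

/-- the clusters are determined by the explored edges -/
theorem Reach_mix (hn0 : 2 ≤ n) (hn : n = 8 * N * r)
    (hP : ∀ (z : ℤ × ℤ) (s : ℤ), z ∈ BxQ N ∪ CrC N (m / 2) c ↔
      (z.1 - s * (8 * N), z.2 - s * (8 * N)) ∈ BxQ N ∪ CrC N (m / 2) c)
    (F G : Finset Edg) (x : Vtx) (hx : x ∈ XX n m) (u : Vtx) :
    Reach (per (2 * n) (FB N r (m / 2) c n M F) ∩ Ss n) x u ↔
      Reach (per (2 * n) (FB N r (m / 2) c n M (mix (Exx N r m c n M F) F G)) ∩ Ss n) x u := by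
  refine clu _ _ _ ?_ u
  intro e he
  rw [mem_perFB hn hP, mem_perFB hn hP, mem_mix]
  by_cases hT : e ∈ TT N r m c n M
  · have hE : red (2 * n) e ∈ Exx N r m c n M F := by
      refine touch_Exx hn0 hT ?_
      exact he.imp (fun h => ⟨x, hx, h⟩) (fun h => ⟨x, hx, h⟩)
    tauto
  · tauto

theorem KK_mix (hn0 : 2 ≤ n) (hn : n = 8 * N * r)
    (hP : ∀ (z : ℤ × ℤ) (s : ℤ), z ∈ BxQ N ∪ CrC N (m / 2) c ↔
      (z.1 - s * (8 * N), z.2 - s * (8 * N)) ∈ BxQ N ∪ CrC N (m / 2) c)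
    (F G : Finset Edg) :
    KK N r m c n M (mix (Exx N r m c n M F) F G) = KK N r m c n M F := by
  funext u
  refine propext ⟨?_, ?_⟩
  · rintro ⟨x, h1, h2⟩
    exact ⟨x, h1, (Reach_mix hn0 hn hP F G x h1 u).2 h2⟩
  · rintro ⟨x, h1, h2⟩
    exact ⟨x, h1, (Reach_mix hn0 hn hP F G x h1 u).1 h2⟩

theorem Exx_mix (hn0 : 2 ≤ n) (hn : n = 8 * N * r)
    (hP : ∀ (z : ℤ × ℤ) (s : ℤ), z ∈ BxQ N ∪ CrC N (m / 2) c ↔
      (z.1 - s * (8 * N), z.2 - s * (8 * N)) ∈ BxQ N ∪ CrC N (m / 2) c)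
    (F G : Finset Edg) :
    Exx N r m c n M (mix (Exx N r m c n M F) F G) = Exx N r m c n M F := by
  have h := KK_mix (M := M) hn0 hn hP F G
  calc Exx N r m c n M (mix (Exx N r m c n M F) F G)
      = ExK N r m c n M (KK N r m c n M (mix (Exx N r m c n M F) F G)) := rfl
    _ = ExK N r m c n M (KK N r m c n M F) := by rw [h]
    _ = _ := rfl

/-- depth of the vertices of the clusters -/
theorem KK_depth (hn : n = 8 * N * r)
    (hP : ∀ (z : ℤ × ℤ) (s : ℤ), z ∈ BxQ N ∪ CrC N (m / 2) c ↔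
      (z.1 - s * (8 * N), z.2 - s * (8 * N)) ∈ BxQ N ∪ CrC N (m / 2) c)
    {D : ℕ} (hD : ∀ e ∈ EP r (BxQ N ∪ CrC N (m / 2) c), |dco e| ≤ D) {F : Finset Edg} {u : Vtx}
    (h : KK N r m c n M F u) : 0 ≤ u.1 - u.2 ∧ u.1 - u.2 ≤ D + 1 := by
  obtain ⟨x, ⟨i, hi, hx⟩, h⟩ := h
  induction h with
  | refl =>
    rcases hx with rfl | rfl
    · unfold cv; simp only [sub_self]; omega
    · unfold cw; simp only [sub_self]; omega
  | tail _ h ih =>
    obtain ⟨e, he, h⟩ := h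
    rw [mem_perFB hn hP] at he
    have h1 := abs_le.1 (hD e he.1.2.2)
    have h2 := he.1.1.1
    have h3 := src_diff e
    have h4 := tgt_diff e
    rcases h with h | h
    · rw [← h.2]; omega
    · rw [← h.1]; omega

theorem DD_split {e : Edg} (h : e ∈ DD N r m c n M) :
    e ∈ Ss n ∧ e ∉ EP r (BxQ N) ∧ e ∉ EP r (CrC N (m / 2) c) := by
  have h1 := h.2.2
  rw [← EP_or] at h1
  push Not at h1
  exact ⟨h.1, h1.1, h1.2⟩

/-- the deterministic step -/
theorem det0 (hABS : Pool.Agent.H160R2.MU.S_ABS) (hSEPB : S_SEPB) {ρ l : ℕ} (hm : 2 ≤ m)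
    (hN : m + 4 ≤ N) (hc : AdmC N (m / 2) c) (hl : 1 ≤ l) (hlρ : 32 * l ≤ ρ) (hρr : 32 * ρ ≤ r)
    (hn : n = 8 * N * r) (hM : M = 8 * n) (hn0 : 2 ≤ n)
    (hP : ∀ (z : ℤ × ℤ) (s : ℤ), z ∈ BxQ N ∪ CrC N (m / 2) c ↔
      (z.1 - s * (8 * N), z.2 - s * (8 * N)) ∈ BxQ N ∪ CrC N (m / 2) c)
    (hD : ∀ e ∈ EP r (BxQ N ∪ CrC N (m / 2) c), |dco e| ≤ ((4 * n - 1 : ℕ) : ℤ))
    {F G : Finset Edg} (hF : F ⊆ CE (2 * n) M) (hG : G ⊆ CE (2 * n) M)
    (hbad : ¬ BadQ 0 N r ρ l n M F) (hT : PTr 0 (2 * n) M l G) :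
    ∀ x ∈ XX n m, ∀ x' ∈ XX n m,
      (Reach (per (2 * n) (mix (Exx N r m c n M F) F G) ∩ Ss n) x x' ↔
        Reach (per (2 * n) (FB N r (m / 2) c n M F) ∩ Ss n) x x') := by
  have hAT : per (2 * n) F ∩ TT N r m c n M = per (2 * n) (FB N r (m / 2) c n M F) ∩ Ss n := by
    ext e
    rw [mem_perFB hn hP]
    constructor
    · rintro ⟨h1, h2⟩
      exact ⟨h2, h1, hF h1⟩
    · rintro ⟨h1, h2, h3⟩
      exact ⟨h2, h1⟩
  have hmix : mix (Exx N r m c n M F) F G ⊆ CE (2 * n) M := by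
    intro e he
    rw [mem_mix] at he
    rcases he with h | h
    · exact hF h.1
    · exact hG h.1
  have hCc : Cc 0 (2 * n) M G = per (2 * n) G := by
    unfold Cc
    simp
  have key := hABS Vtx Edg (fun e u v => src e = u ∧ tgt e = v) (fun _ _ => False)
    (fun _ _ => False) (TT N r m c n M) (DD N r m c n M) (per (2 * n) F) (per (2 * n) G)
    (per (2 * n) (mix (Exx N r m c n M F) F G) ∩ Ss n) (XX n m)
    (fun u v => Nr (4 * (l : ℤ)) u v) HU.TSTB.RR (KK N r m c n M F)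
    (fun u => ∃ e ∈ DD N r m c n M, ∃ w, (src e = u ∧ tgt e = w) ∨ (src e = w ∧ tgt e = u))
    (fun B => rfl) ?_ (fun u => Iff.rfl) (fun u v h => h.elim) ?_ ?_ ?_ ?_ ?_ ?_ ?_
  · intro x hx x' hx'
    have := key x hx x' hx'
    rw [rr_iff, rr_iff, hAT] at this
    exact this
  · intro u
    constructor
    · rintro ⟨x, hx, h⟩
      exact ⟨x, hx, by rw [rr_iff, hAT]; exact h⟩
    · rintro ⟨x, hx, h⟩
      rw [rr_iff, hAT] at h
      exact ⟨x, hx, h⟩
  · rintro e he ⟨u, v, ⟨rfl, rfl⟩, hor⟩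
    refine ⟨?_, ?_⟩
    · rintro u' v' ⟨rfl, rfl⟩
      exact hor
    · have hE := touch_Exx hn0 he hor
      constructor
      · rintro ⟨h1, _⟩
        have h1' : red (2 * n) e ∈ mix (Exx N r m c n M F) F G := h1
        rw [mem_mix] at h1'
        rcases h1' with h | h
        · exact h.1
        · exact absurd hE h.2
      · intro h
        refine ⟨?_, he.1⟩
        show red (2 * n) e ∈ mix (Exx N r m c n M F) F G
        rw [mem_mix]
        exact Or.inl ⟨h, hE⟩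
  · intro e he hno heH
    have hE : red (2 * n) e ∉ Exx N r m c n M F := by
      intro h
      rcases (of_Exx hn0 he.1 h).2 with h | h
      · exact (hno _ _ ⟨rfl, rfl⟩).1 h
      · exact (hno _ _ ⟨rfl, rfl⟩).2 h
    have h1 : red (2 * n) e ∈ mix (Exx N r m c n M F) F G := heH.1
    rw [mem_mix] at h1
    rcases h1 with h | h
    · exact absurd h.2 hE
    · exact h.1
  · rintro e ⟨h1, h2⟩
    have h3 := (mem_CE.1 (hmix h1)).2
    rw [dco_red] at h3
    by_cases h : e ∈ EP r (BxQ N ∪ CrC N (m / 2) c)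
    · exact Or.inl ⟨h2, h3.2, h⟩
    · exact Or.inr ⟨h2, h3.2, h⟩
  · intro e he heH
    have hE : red (2 * n) e ∉ Exx N r m c n M F := fun h => he.2.2 (of_Exx hn0 he.1 h).1.2.2
    have h1 : red (2 * n) e ∈ mix (Exx N r m c n M F) F G := heH.1
    rw [mem_mix] at h1
    rcases h1 with h | h
    · exact absurd h.2 hE
    · exact h.1
  · rw [Set.disjoint_left]
    intro e he he'
    exact he'.2.2 he.2.2
  · intro u v hu _ h
    have hd := KK_depth hn hP hD hu
    refine hT u v ?_ ?_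
    · rw [abs_le]
      constructor
      · push_cast; omega
      · have : ((4 * n - 1 : ℕ) : ℤ) = 4 * n - 1 := by omega
        push_cast
        omega
    · rw [hCc, ← rr_iff]
      unfold HU.TSTB.RR
      have h2 : (fun a b : Vtx => False ∨ ∃ e ∈ per (2 * n) G, src e = a ∧ tgt e = b) =
          (fun u v : Vtx => False ∨ False ∨ ∃ e ∈ per (2 * n) G, src e = u ∧ tgt e = v) := by
        funext a b
        exact propext ⟨fun h => h.elim False.elim (fun h => Or.inr (Or.inr h)),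
          fun h => h.elim False.elim (fun h => h.elim False.elim Or.inr)⟩
      rw [← h2]
      exact h
  · rintro x hx x' hx' u u' hu hu' hDu hDu' hnear
    rw [rr_iff, hAT] at hu hu' ⊢
    refine (hSEPB N r m ρ l c hm hN hc hl hlρ hρr n M hn hM F hF hbad x x' u u' hx hx' hu hu'
      ?_ ?_).2 hnear
    · obtain ⟨e, he, w, hw⟩ := hDu
      have h1 := DD_split he
      refine ⟨e, h1.1, h1.2.1, h1.2.2, ?_⟩
      rcases hw with hw | hw
      · exact Or.inl hw.1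
      · exact Or.inr hw.2
    · obtain ⟨e, he, w, hw⟩ := hDu'
      have h1 := DD_split he
      refine ⟨e, h1.1, h1.2.1, h1.2.2, ?_⟩
      rcases hw with hw | hw
      · exact Or.inl hw.1
      · exact Or.inr hw.2

/-- the vertices of the clusters of the mixed configuration -/
theorem new_vert (hn : n = 8 * N * r) (hn0 : 2 ≤ n)
    (hP : ∀ (z : ℤ × ℤ) (s : ℤ), z ∈ BxQ N ∪ CrC N (m / 2) c ↔
      (z.1 - s * (8 * N), z.2 - s * (8 * N)) ∈ BxQ N ∪ CrC N (m / 2) c)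
    {F G : Finset Edg} (hF : F ⊆ CE (2 * n) M) (hG : G ⊆ CE (2 * n) M) {x u : Vtx}
    (hx : x ∈ XX n m)
    (h : Reach (per (2 * n) (mix (Exx N r m c n M F) F G) ∩ Ss n) x u) :
    KK N r m c n M F u ∨ ∃ u0, KK N r m c n M F u0 ∧
      (∃ e ∈ DD N r m c n M, src e = u0 ∨ tgt e = u0) ∧ Reach (per (2 * n) G) u0 u := by
  have hmix : mix (Exx N r m c n M F) F G ⊆ CE (2 * n) M := by
    intro e he
    rw [mem_mix] at he
    rcases he with h | h
    · exact hF h.1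
    · exact hG h.1
  induction h with
  | refl => exact Or.inl ⟨x, hx, Reach.refl _ _⟩
  | @tail a b _ hab ih =>
    obtain ⟨e, ⟨he, heS⟩, hor⟩ := hab
    have he' : red (2 * n) e ∈ mix (Exx N r m c n M F) F G := he
    have h3 := (mem_CE.1 (hmix he')).2
    rw [dco_red] at h3
    rw [mem_mix] at he'
    by_cases hE : red (2 * n) e ∈ Exx N r m c n M F
    · -- explored edge: both ends in `K`
      have heF : red (2 * n) e ∈ F := by
        rcases he' with h | h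
        · exact h.1
        · exact absurd hE h.2
      have heT := of_Exx hn0 heS hE
      have heB : e ∈ per (2 * n) (FB N r (m / 2) c n M F) ∩ Ss n :=
        (mem_perFB hn hP).2 ⟨heT.1, heF, hF heF⟩
      left
      have hK : KK N r m c n M F (src e) ∧ KK N r m c n M F (tgt e) := by
        rcases heT.2 with ⟨y, hy, h⟩ | ⟨y, hy, h⟩
        · exact ⟨⟨y, hy, h⟩, ⟨y, hy, h.tail ⟨e, heB, Or.inl ⟨rfl, rfl⟩⟩⟩⟩
        · exact ⟨⟨y, hy, h.tail ⟨e, heB, Or.inr ⟨rfl, rfl⟩⟩⟩, ⟨y, hy, h⟩⟩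
      rcases hor with hor | hor
      · rw [← hor.2]; exact hK.2
      · rw [← hor.1]; exact hK.1
    · have heG : e ∈ per (2 * n) G := by
        rcases he' with h | h
        · exact absurd h.2 hE
        · exact h.1
      right
      rcases ih with ih | ⟨u0, h0, h01, h1⟩
      · refine ⟨a, ih, ⟨e, ⟨heS, h3.2, ?_⟩, ?_⟩, Relation.ReflTransGen.single ⟨e, heG, hor⟩⟩
        · intro hEP
          apply hE
          refine touch_Exx hn0 ⟨heS, h3.2, hEP⟩ ?_
          rcases hor with hor | hor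
          · rw [hor.1]; exact Or.inl ih
          · rw [hor.2]; exact Or.inr ih
        · rcases hor with hor | hor
          · exact Or.inl hor.1
          · exact Or.inr hor.2
      · exact ⟨u0, h0, h01, h1.tail ⟨e, heG, hor⟩⟩

theorem det (hABS : Pool.Agent.H160R2.MU.S_ABS) (hSEPB : S_SEPB) {ρ l : ℕ} (hm : 2 ≤ m)
    (hN : m + 4 ≤ N) (hc : AdmC N (m / 2) c) (hl : 1 ≤ l) (hlρ : 32 * l ≤ ρ) (hρr : 32 * ρ ≤ r)
    (hn : n = 8 * N * r) (hM : M = 8 * n) (hn0 : 2 ≤ n) (hln : 4 * l < n)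
    (hP : ∀ (z : ℤ × ℤ) (s : ℤ), z ∈ BxQ N ∪ CrC N (m / 2) c ↔
      (z.1 - s * (8 * N), z.2 - s * (8 * N)) ∈ BxQ N ∪ CrC N (m / 2) c)
    (hD : ∀ e ∈ EP r (BxQ N ∪ CrC N (m / 2) c), |dco e| ≤ ((4 * n - 1 : ℕ) : ℤ))
    {F G : Finset Edg} (hF : F ⊆ CE (2 * n) M) (hG : G ⊆ CE (2 * n) M)
    (hbad : ¬ BadQ 0 N r ρ l n M F)
    (hP0 : P0 n m (per (2 * n) (FB N r (m / 2) c n M F))) (hT : PTr 0 (2 * n) M l G) :
    P0 n m (per (2 * n) (mix (Exx N r m c n M F) F G)) ∧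
      Shl n m M (per (2 * n) (mix (Exx N r m c n M F) F G)) := by
  have habs := det0 hABS hSEPB hm hN hc hl hlρ hρr hn hM hn0 hP hD hF hG hbad hT
  have hCc : Cc 0 (2 * n) M G = per (2 * n) G := by
    unfold Cc
    simp
  have hcast : ((4 * n - 1 : ℕ) : ℤ) = 4 * n - 1 := by omega
  have hcast2 : ((2 * n : ℕ) : ℤ) = 2 * n := by push_cast; ring
  have hXl : ∀ i, i < m / 2 → cv i ∈ XX n m := fun i hi => ⟨i, hi, Or.inl rfl⟩
  have hXr : ∀ i, i < m / 2 → cw n i ∈ XX n m := fun i hi => ⟨i, hi, Or.inr rfl⟩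
  -- vertices near the clusters
  have hnear : ∀ u0 u : Vtx, KK N r m c n M F u0 → Reach (per (2 * n) G) u0 u →
      Nr (4 * (l : ℤ)) u0 u := by
    intro u0 u h0 h1
    have hd := KK_depth hn hP hD h0
    refine hT u0 u ?_ (by rw [hCc]; exact h1)
    rw [abs_le, hcast2]
    constructor <;> omega
  have hdeep : ∀ u0 : Vtx, KK N r m c n M F u0 →
      (∃ e ∈ DD N r m c n M, src e = u0 ∨ tgt e = u0) → (ρ : ℤ) ≤ u0.1 - u0.2 := by
    rintro u0 ⟨x, hx, h⟩ ⟨e, he, h1⟩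
    have h2 := DD_split he
    exact (hSEPB N r m ρ l c hm hN hc hl hlρ hρr n M hn hM F hF hbad x x u0 u0 hx hx h h
      ⟨e, h2.1, h2.2.1, h2.2.2, h1⟩ ⟨e, h2.1, h2.2.1, h2.2.2, h1⟩).1
  refine ⟨⟨?_, ?_, ?_⟩, ?_⟩
  · intro i j hi hj hij h
    exact hP0.1 i j hi hj hij ((habs _ (hXl i hi) _ (hXl j hj)).1 h)
  · intro i hi
    obtain ⟨j, hj, h⟩ := hP0.2.1 i hi
    exact ⟨j, hj, (habs _ (hXl i hi) _ (hXr j hj)).2 h⟩
  · intro hodd i j hi hj hjn h
    rcases new_vert hn hn0 hP hF hG (hXl i hi) h with ⟨x, hx, h1⟩ | ⟨u0, h0, h01, h1⟩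
    · have h2 := (Reach_mix hn0 hn hP F G x hx _).1 h1
      have hsub : per (2 * n) (FB N r (m / 2) c n M (mix (Exx N r m c n M F) F G)) ∩ Ss n ⊆
          per (2 * n) (mix (Exx N r m c n M F) F G) ∩ Ss n := by
        rintro e ⟨he1, he2⟩
        refine ⟨?_, he2⟩
        have he1' : red (2 * n) e ∈ FB N r (m / 2) c n M (mix (Exx N r m c n M F) F G) := he1
        rw [mem_FB] at he1'
        exact he1'.2.2
      have h3 : Reach (per (2 * n) (mix (Exx N r m c n M F) F G) ∩ Ss n) x (cv j) :=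
        Reach.mono hsub h2
      have h4 := (habs _ (hXl i hi) _ hx).1 (h.trans h3.symm)
      exact hP0.2.2 hodd i j hi hj hjn (h4.trans h1)
    · have h2 := hnear u0 _ h0 h1
      have h3 := hdeep u0 h0 h01
      obtain ⟨a1, a2⟩ := h2
      unfold cv at a1 a2
      rw [abs_le] at a1 a2
      simp only at a1 a2
      omega
  · intro i u hi h
    rcases new_vert hn hn0 hP hF hG (hXl i hi) h with h1 | ⟨u0, h0, _, h1⟩
    · have := KK_depth hn hP hD h1
      omega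
    · have hd := KK_depth hn hP hD h0
      have h2 := hnear u0 _ h0 h1
      obtain ⟨a1, a2⟩ := h2
      rw [abs_le] at a1 a2
      omega

end

end TSTB

open TSTB in
theorem t_STB : Pool.Agent.H160R2.MU.S_ABS → Pool.Agent.H160R2.MU.S_PRB → S_SEPB →
    Pool.Agent.W808.HU.S_TRP → S_BADQ → S_DEC → S_IND → S_q4 → S_STB := by
  classical
  intro hABS hPRB hSEPB hTRAP hBADQ hDEC hIND hq4 N m c hm hN hc δ hδ
  have hN6 : 6 ≤ N := by omega
  obtain ⟨M3, M4, hM3, hM4, hbad⟩ := hBADQ N (by omega) δ hδ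
  obtain ⟨κ, hκ, r0, htrap⟩ := hTRAP (16 * N) M4 (by omega) (by omega)
  refine ⟨1 / κ, by positivity, max r0 (max M4 2), ?_⟩
  intro r hr n M hn hM
  have hr1 : r0 ≤ r := (le_max_left _ _).trans hr
  have hr2 : M4 ≤ r := (le_max_left _ _).trans ((le_max_right _ _).trans hr)
  have hr3 : 2 ≤ r := (le_max_right _ _).trans ((le_max_right _ _).trans hr)
  set ρ := r / M3 with hρ
  set l := r / M4 with hl
  have hM3p : 0 < M3 := by omega
  have hM4p : 0 < M4 := by omega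
  have hl1 : 1 ≤ l := Nat.div_pos hr2 hM4p
  have hlρ : 32 * l ≤ ρ := by
    rw [hρ, Nat.le_div_iff_mul_le hM3p]
    have h1 : l * M4 ≤ r := Nat.div_mul_le_self r M4
    have h2 : l * (64 * M3) ≤ l * M4 := Nat.mul_le_mul_left _ hM4
    nlinarith
  have hρr : 32 * ρ ≤ r := by
    have h1 : ρ * M3 ≤ r := Nat.div_mul_le_self r M3
    have h2 : ρ * 64 ≤ ρ * M3 := Nat.mul_le_mul_left _ hM3
    omega
  have hnN : 8 * (N * r) = n := by
    rw [hn]; ring
  have hNr : 6 * r ≤ N * r := Nat.mul_le_mul_right _ hN6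
  have hmr : (m + 4) * 2 ≤ N * r := Nat.mul_le_mul hN hr3
  have hn0 : 2 ≤ n := by omega
  have hln : 4 * l < n := by omega
  have hg := hq4 N (m / 2) c (by omega) hc (BxQ N ∪ CrC N (m / 2) c) rfl
  have hP := hg.2.2.1
  have hD : ∀ e ∈ EP r (BxQ N ∪ CrC N (m / 2) c), |dco e| ≤ ((4 * n - 1 : ℕ) : ℤ) := by
    intro e he
    have h1 := EP_dco (q := 10 * N) (by
      intro z hz
      have := hg.2.2.2 z hz
      push_cast
      exact this) he
    refine h1.trans ?_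
    have h2 : 10 * N * r = 10 * (N * r) := by ring
    have h3 : 10 * N * r + r + 1 ≤ 4 * n - 1 := by omega
    exact_mod_cast h3
  have hok : H974.Ok (fun _ : Edg => (1 / 2 : ℝ)) := fun _ => by constructor <;> norm_num
  -- the first term
  have h1 : PC (2 * n) M (fun F => P0 n m (per (2 * n) (FB N r (m / 2) c n M F)) ∧
      BadQ 0 N r ρ l n M F) ≤ δ * sPq m (N * r / 2) ^ 2 := by
    have hi := hIND 0 N r ρ l m (by norm_num) (by omega) hr3 hlρ hl1 hρr n hn
    have hb := hbad 0 r n (by norm_num) hr2 hn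
    rw [← hρ, ← hl] at hb
    rw [← hM] at hi hb
    have hsP : 0 ≤ sPq m (N * r / 2) ^ 2 := by positivity
    have hmono : PC (2 * n) M (fun F => P0 n m (per (2 * n) (FB N r (m / 2) c n M F)) ∧
        BadQ 0 N r ρ l n M F) ≤
        PC (2 * n) M (fun F => SEq m (N * r / 2 : ℕ) (per (2 * n) F) ∧
          SEq m (N * r / 2 : ℕ) (mirG n (per (2 * n) F)) ∧ BadQ 0 N r ρ l n M F) := by
      refine Pr_mono hok ?_
      rintro F hF ⟨h1, h2⟩
      have h3 := hDEC n M m (N * r / 2) hm (by omega) (by omega) (by omega)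
        (FB N r (m / 2) c n M F) F ?_ hF ?_ ?_ h1
      · exact ⟨h3.1, h3.2, h2⟩
      · intro e he
        exact (mem_FB.1 he).1
      · intro e he
        rw [mem_FB]
        constructor
        · exact fun h => h.2.2
        · refine fun h => ⟨hF h, ?_, h⟩
          rw [EP_red hn hP, ← EP_or]
          exact Or.inl (box_EP hr3 hN6 hn he).1
      · intro e he
        rw [mem_FB]
        constructor
        · exact fun h => h.2.2
        · refine fun h => ⟨hF h, ?_, h⟩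
          rw [EP_red hn hP, ← EP_or]
          exact Or.inl (box_EP hr3 hN6 hn he).2
    calc _ ≤ _ := hmono
      _ ≤ sPq m (N * r / 2) ^ 2 * PC (2 * n) M (BadQ 0 N r ρ l n M) := hi
      _ ≤ sPq m (N * r / 2) ^ 2 * δ := mul_le_mul_of_nonneg_left hb hsP
      _ = δ * sPq m (N * r / 2) ^ 2 := mul_comm _ _
  -- the second term
  have h2 : PC (2 * n) M (fun F => P0 n m (per (2 * n) (FB N r (m / 2) c n M F)) ∧
      ¬ BadQ 0 N r ρ l n M F) * PC (2 * n) M (PTr 0 (2 * n) M l) ≤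
      PC (2 * n) M (fun F => P0 n m (per (2 * n) F) ∧ Shl n m M (per (2 * n) F)) := by
    refine hPRB (CE (2 * n) M) (Exx N r m c n M) _ _ _ ?_ ?_
    · intro F G _ _
      exact Exx_mix hn0 hn hP F G
    · intro F G hF hG hA hK
      exact det hABS hSEPB hm hN hc hl1 hlρ hρr hn hM hn0 hln hP hD hF hG hA.2 hA.1 hK
  have h3 := htrap 0 r (by norm_num) hr1
  have e1 : 16 * N * r = 2 * n := by rw [hn]; ring
  have e2 : 4 * (2 * n) = M := by rw [hM]; ring
  rw [← hl, e1, e2] at h3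
  have h4 : PC (2 * n) M (fun F => P0 n m (per (2 * n) (FB N r (m / 2) c n M F)) ∧
      ¬ BadQ 0 N r ρ l n M F) ≤
      1 / κ * PC (2 * n) M (fun F => P0 n m (per (2 * n) F) ∧ Shl n m M (per (2 * n) F)) := by
    rw [div_mul_eq_mul_div, one_mul, le_div_iff₀ hκ]
    refine le_trans ?_ h2
    exact mul_le_mul_of_nonneg_left h3 (Pr_nonneg hok _ _)
  have h5 : PC (2 * n) M (fun F => P0 n m (per (2 * n) (FB N r (m / 2) c n M F))) ≤
      PC (2 * n) M (fun F => P0 n m (per (2 * n) (FB N r (m / 2) c n M F)) ∧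
        BadQ 0 N r ρ l n M F) +
      PC (2 * n) M (fun F => P0 n m (per (2 * n) (FB N r (m / 2) c n M F)) ∧
        ¬ BadQ 0 N r ρ l n M F) := by
    refine le_trans ?_ (Pr_or_le hok _ _ _)
    refine Pr_mono hok ?_
    intro F _ hF
    by_cases h : BadQ 0 N r ρ l n M F
    · exact Or.inl ⟨hF, h⟩
    · exact Or.inr ⟨hF, h⟩
  linarith

end Pool.Agent.W808.KC
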