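import Pool.Agent.W808.KC.Stm
import Pool.Agent.H988R2.Perc.T13
import Pool.Agent.H988R2.Perc.T20

/-!
# KC-SW: stationarity at the level of words
-/

set_option autoImplicit false

namespace Pool.Agent.W808.KC

open Pool.Agent.H988R2.Perc (Word ins cap act rainbow Dyck LP Fw fac q)

namespace TSW

open Pool.Agent.H988R2.Perc hiding tile fwd bwd
open Pool.Agent.H988R2.Perc.T20 (q4 q2)

/-- the vector at the level of words -/
noncomputable def VV (l : List ℂ) : Word →₀ ℂ :=
  ∑ w ∈ LP l.length, Finsupp.single w (Fw w l)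

theorem VV_eq {l : List ℂ} {N : ℕ} (h : l.length = N) :
    VV l = ∑ w ∈ LP N, Finsupp.single w (Fw w l) := by
  unfold VV
  rw [h]

theorem VV_exch (u v : List ℂ) (x y : ℂ) (h : Even (u.length + v.length)) :
    (q * x - q^2 * y) • VV (u ++ y :: x :: v) =
      (q * y - q^2 * x) • VV (u ++ x :: y :: v) +
      (y - x) • Finsupp.mapDomain (act u.length) (VV (u ++ x :: y :: v)) := by
  obtain ⟨m, hm⟩ := h.exists_two_nsmul
  rw [smul_eq_mul] at hm
  have hl1 : (u ++ y :: x :: v).length = 2 * (m+1) := by simp; omega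
  have hl2 : (u ++ x :: y :: v).length = 2 * (m+1) := by simp; omega
  rw [VV_eq hl1, VV_eq hl2, Finsupp.mapDomain_finsetSum, Finset.smul_sum, Finset.smul_sum,
    Finset.smul_sum]
  have h1 : ∀ pi ∈ LP (2*(m+1)),
      (q * x - q^2 * y) • Finsupp.single pi (Fw pi (u ++ y :: x :: v)) =
      (q * y - q^2 * x) • Finsupp.single pi (Fw pi (u ++ x :: y :: v)) +
      ∑ w ∈ LP (2*(m+1)), (if act u.length w = pi then
        (y - x) • Finsupp.single pi (Fw w (u ++ x :: y :: v)) else 0) := by
    intro pi hpi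
    rw [Finsupp.smul_single, Finsupp.smul_single, smul_eq_mul, smul_eq_mul,
      Fw_exch hpi u v x y (by omega), Finsupp.single_add]
    congr 1
    rw [Finset.mul_sum, Finsupp.single_finsetSum]
    refine Finset.sum_congr rfl fun w _ => ?_
    split_ifs
    · rw [Finsupp.smul_single, smul_eq_mul]
    · rw [mul_zero, Finsupp.single_zero]
  rw [Finset.sum_congr rfl h1, Finset.sum_add_distrib]
  congr 1
  rw [Finset.sum_comm]
  refine Finset.sum_congr rfl fun w hw => ?_
  have hw' := mem_LP.1 hw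
  have hmem : act u.length w ∈ LP (2*(m+1)) :=
    mem_LP.2 ⟨by rw [length_act (by omega)]; exact hw'.1, dyck_act hw'.2 (by omega)⟩
  rw [Finset.sum_ite_eq, if_pos hmem, Finsupp.mapDomain_single]

theorem VV_rec (u v : List ℂ) (x : ℂ) (h : Even (u.length + v.length)) :
    VV (u ++ x :: (q^2 * x) :: v) =
      fac x (u ++ v) • Finsupp.mapDomain (ins u.length) (VV (u ++ v)) := by
  obtain ⟨m, hm⟩ := h.exists_two_nsmul
  rw [smul_eq_mul] at hm
  have hl1 : (u ++ x :: (q^2 * x) :: v).length = 2 * (m+1) := by simp; omega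
  have hl2 : (u ++ v).length = 2 * m := by simp; omega
  rw [VV_eq hl1, VV_eq hl2, Finsupp.mapDomain_finsetSum, Finset.smul_sum]
  have h1 : ∀ w ∈ LP (2*(m+1)),
      Finsupp.single w (Fw w (u ++ x :: (q^2 * x) :: v)) =
      ∑ w' ∈ LP (2*m), (if ins u.length w' = w then
        fac x (u ++ v) • Finsupp.single w (Fw w' (u ++ v)) else 0) := by
    intro w hw
    rw [Fw_rec hw u v x (by omega), Finset.mul_sum, Finsupp.single_finsetSum]
    refine Finset.sum_congr rfl fun w' _ => ?_
    split_ifs
    · rw [Finsupp.smul_single, smul_eq_mul]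
    · rw [mul_zero, Finsupp.single_zero]
  rw [Finset.sum_congr rfl h1, Finset.sum_comm]
  refine Finset.sum_congr rfl fun w' hw' => ?_
  have hw1 := mem_LP.1 hw'
  have hmem : ins u.length w' ∈ LP (2*(m+1)) :=
    mem_LP.2 ⟨by rw [length_ins, hw1.1]; ring, (dyck_ins_iff (by omega)).2 hw1.2⟩
  rw [Finset.sum_ite_eq, if_pos hmem, Finsupp.mapDomain_single]

theorem VV_inv1 (x : ℂ) (l : List ℂ) (hx : x ≠ 0) (h : Odd l.length) :
    VV (x :: l) = x^(l.length - 1) • VV (x⁻¹ :: l) := by
  obtain ⟨m, hm⟩ := h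
  have hl1 : (x :: l).length = 2 * (m+1) := by simp; omega
  have hl2 : (x⁻¹ :: l).length = 2 * (m+1) := by simp; omega
  rw [VV_eq hl1, VV_eq hl2, Finset.smul_sum]
  refine Finset.sum_congr rfl fun w hw => ?_
  have hw1 := mem_LP.1 hw
  rw [Finsupp.smul_single, smul_eq_mul]
  congr 1
  have := (Fw_spec hw1.2).2.1
  rw [hw1.1] at this
  have h2 := this x l hx (by omega)
  rw [h2]
  congr 2; omega

theorem VV_invN (x : ℂ) (l : List ℂ) (hx : x ≠ 0) (h : Odd l.length) :
    VV (l ++ [x]) = x^(l.length - 1) • VV (l ++ [x⁻¹]) := by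
  obtain ⟨m, hm⟩ := h
  have hl1 : (l ++ [x]).length = 2 * (m+1) := by simp; omega
  have hl2 : (l ++ [x⁻¹]).length = 2 * (m+1) := by simp; omega
  rw [VV_eq hl1, VV_eq hl2, Finset.smul_sum]
  refine Finset.sum_congr rfl fun w hw => ?_
  have hw1 := mem_LP.1 hw
  rw [Finsupp.smul_single, smul_eq_mul]
  congr 1
  have := (Fw_spec hw1.2).2.2.1
  rw [hw1.1] at this
  have h2 := this x l hx (by omega)
  rw [h2]
  congr 2; omega

/-- one tile -/
noncomputable def tl (i : ℕ) (f : Word →₀ ℂ) : Word →₀ ℂ :=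
  (1/2 : ℂ) • (f + Finsupp.mapDomain (act i) f)

noncomputable def fw : ℕ → (Word →₀ ℂ) → (Word →₀ ℂ)
  | 0, f => f
  | L+1, f => tl (L+1) (fw L f)

noncomputable def bw : ℕ → (Word →₀ ℂ) → (Word →₀ ℂ)
  | 0, f => f
  | L+1, f => bw L (tl (L+1) f)

noncomputable def Tv (L : ℕ) (f : Word →₀ ℂ) : Word →₀ ℂ :=
  Finsupp.mapDomain (cap 0) (bw L (fw L (Finsupp.mapDomain (ins 0) f)))

theorem mapDomain_lin (φ : Word → Word) (c : ℂ) (f : Word →₀ ℂ) :
    Finsupp.mapDomain φ (c • f) = c • Finsupp.mapDomain φ f :=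
  Finsupp.mapDomain_smul c f

theorem tl_smul (i : ℕ) (c : ℂ) (f : Word →₀ ℂ) : tl i (c • f) = c • tl i f := by
  unfold tl
  rw [mapDomain_lin, ← smul_add, smul_comm]

theorem fw_smul (L : ℕ) (c : ℂ) (f : Word →₀ ℂ) : fw L (c • f) = c • fw L f := by
  induction L with
  | zero => rfl
  | succ L ih => simp only [fw]; rw [ih, tl_smul]

theorem bw_smul (L : ℕ) (c : ℂ) (f : Word →₀ ℂ) : bw L (c • f) = c • bw L f := by
  induction L generalizing f with
  | zero => rfl
  | succ L ih => simp only [bw]; rw [tl_smul, ih]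

theorem Tv_smul (L : ℕ) (c : ℂ) (f : Word →₀ ℂ) : Tv L (c • f) = c • Tv L f := by
  unfold Tv
  rw [mapDomain_lin, fw_smul, bw_smul, mapDomain_lin]

/-- moving `-q` to the right through a `1` is a tile -/
theorem move_right (u v : List ℂ) (h : Even (u.length + v.length)) :
    VV (u ++ 1 :: (-q) :: v) = tl u.length (VV (u ++ (-q) :: 1 :: v)) := by
  have h1 := VV_exch u v (-q) 1 h
  have e1 : q * (-q) - q^2 * 1 = -2 * q^2 := by ring
  have e2 : q * 1 - q^2 * (-q) = -q^2 := by
    have := q_cube; have h2 := q_spec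
    linear_combination this + h2
  have e3 : (1 : ℂ) - (-q) = -q^2 := by
    have h2 := q_spec
    linear_combination h2
  rw [e1, e2, e3, ← smul_add] at h1
  have hq : (-2 * q^2) ≠ 0 := mul_ne_zero (by norm_num) (pow_ne_zero _ q_ne_zero)
  unfold tl
  have h3 : VV (u ++ 1 :: (-q) :: v) = (-2 * q^2)⁻¹ • ((-2 * q^2) • VV (u ++ 1 :: (-q) :: v)) := by
    rw [smul_smul, inv_mul_cancel₀ hq, one_smul]
  rw [h3, h1, smul_smul]
  congr 1
  have hq1 : q ≠ 0 := q_ne_zero
  have hq2 : q^2 ≠ 0 := pow_ne_zero _ q_ne_zero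
  field_simp

/-- moving `-q^2` to the left through a `1` is a tile -/
theorem move_left (u v : List ℂ) (h : Even (u.length + v.length)) :
    VV (u ++ (-q^2) :: 1 :: v) = tl u.length (VV (u ++ 1 :: (-q^2) :: v)) := by
  have h1 := VV_exch u v 1 (-q^2) h
  have e1 : q * 1 - q^2 * (-q^2) = 2 * q := by
    have := q4
    linear_combination this
  have e2 : q * (-q^2) - q^2 * 1 = q := by
    have := q_cube; have h2 := q_spec
    linear_combination -this - h2
  have e3 : (-q^2 : ℂ) - 1 = q := by
    have h2 := q_spec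
    linear_combination -h2
  rw [e1, e2, e3, ← smul_add] at h1
  have hq : (2 * q) ≠ 0 := mul_ne_zero (by norm_num) q_ne_zero
  unfold tl
  have h3 : VV (u ++ (-q^2) :: 1 :: v) = (2 * q)⁻¹ • ((2 * q) • VV (u ++ (-q^2) :: 1 :: v)) := by
    rw [smul_smul, inv_mul_cancel₀ hq, one_smul]
  rw [h3, h1, smul_smul]
  congr 1
  have hq2 := q_ne_zero
  field_simp

theorem fw_eq (L : ℕ) (hL : Even L) (k : ℕ) (hk : k ≤ L) :
    VV ((-q^2) :: List.replicate k 1 ++ (-q) :: (List.replicate (L-k) 1)) =
      fw k (VV ((-q^2) :: (-q) :: (List.replicate L 1))) := by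
  induction k with
  | zero => simp [fw]
  | succ k ih =>
    have ih' := ih (by omega)
    simp only [fw]
    rw [← ih']
    obtain ⟨m, hm⟩ : ∃ m, L - k = m + 1 := ⟨L - k - 1, by omega⟩
    have hm' : L - (k+1) = m := by omega
    rw [hm, hm']
    have hu : ((-q^2) :: List.replicate k (1:ℂ)).length = k + 1 := by simp
    have key := move_right ((-q^2) :: List.replicate k (1:ℂ)) (List.replicate m 1) (by
      simp only [List.length_cons, List.length_replicate]
      obtain ⟨t, ht⟩ := hL
      exact ⟨t, by omega⟩)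
    rw [hu] at key
    have e1 : (-q^2) :: List.replicate (k+1) (1:ℂ) ++ (-q) :: (List.replicate m 1)
        = ((-q^2) :: List.replicate k (1:ℂ)) ++ 1 :: (-q) :: (List.replicate m 1) := by
      rw [List.replicate_succ']; simp
    have e2 : (-q^2) :: List.replicate k (1:ℂ) ++ (-q) :: (List.replicate (m+1) 1)
        = ((-q^2) :: List.replicate k (1:ℂ)) ++ (-q) :: 1 :: (List.replicate m 1) := by
      rw [List.replicate_succ]
    rw [e1, e2]
    exact key

theorem bw_eq (L : ℕ) (hL : Even L) (k : ℕ) (hk : k ≤ L) :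
    bw k (VV ((-q^2) :: List.replicate k 1 ++ (-q^2) :: (List.replicate (L-k) 1))) =
      VV ((-q^2) :: (-q^2) :: (List.replicate L 1)) := by
  induction k with
  | zero => simp [bw]
  | succ k ih =>
    have ih' := ih (by omega)
    simp only [bw]
    rw [← ih']
    obtain ⟨m, hm⟩ : ∃ m, L - k = m + 1 := ⟨L - k - 1, by omega⟩
    have hm' : L - (k+1) = m := by omega
    rw [hm, hm']
    have hu : ((-q^2) :: List.replicate k (1:ℂ)).length = k + 1 := by simp
    have key := move_left ((-q^2) :: List.replicate k (1:ℂ)) (List.replicate m 1) (by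
      simp only [List.length_cons, List.length_replicate]
      obtain ⟨t, ht⟩ := hL
      exact ⟨t, by omega⟩)
    rw [hu] at key
    have e1 : (-q^2) :: List.replicate (k+1) (1:ℂ) ++ (-q^2) :: (List.replicate m 1)
        = ((-q^2) :: List.replicate k (1:ℂ)) ++ 1 :: (-q^2) :: (List.replicate m 1) := by
      rw [List.replicate_succ']; simp
    have e2 : (-q^2) :: List.replicate k (1:ℂ) ++ (-q^2) :: (List.replicate (m+1) 1)
        = ((-q^2) :: List.replicate k (1:ℂ)) ++ (-q^2) :: 1 :: (List.replicate m 1) := by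
      rw [List.replicate_succ]
    rw [e1, e2, key]

theorem fac_ne (L : ℕ) : fac (-q^2) (List.replicate L 1) ≠ 0 := by
  unfold fac
  rw [List.map_replicate, List.prod_replicate]
  have h4 := q4
  have hq := q_ne_zero
  apply pow_ne_zero
  have : (-q^2 - q^2 * 1) * (-q^2 * 1 - q^2) = 4 * q := by
    linear_combination 4 * h4
  rw [this]
  exact mul_ne_zero (by norm_num) hq

theorem ins_inj : Function.Injective (ins 0) := by
  intro a b h
  simpa [ins] using h

theorem stationary (L : ℕ) (hL : Even L) :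
    Tv L (VV (List.replicate L 1)) = VV (List.replicate L 1) := by
  set v0 := VV (List.replicate L 1) with hv0
  set l0 : List ℂ := List.replicate L 1 with hl0
  have hlen : l0.length = L := by simp [hl0]
  have h4 := q4
  have h3 := q_cube
  have hqs := q_spec
  have hq := q_ne_zero
  -- recursion at the start
  have hrec : VV ((-q^2) :: (-q) :: l0) = fac (-q^2) l0 • Finsupp.mapDomain (ins 0) v0 := by
    have := VV_rec [] l0 (-q^2) (by simpa [hlen] using hL)
    have e : q^2 * (-q^2) = -q := by linear_combination -h4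
    rw [e] at this
    simpa using this
  -- forward
  have hf := fw_eq L hL L le_rfl
  rw [Nat.sub_self] at hf
  simp only [List.replicate_zero] at hf
  -- inversion of the last variable
  have hinv : VV ((-q^2) :: List.replicate L 1 ++ [(-q)]) =
      (-q)^L • VV ((-q^2) :: List.replicate L 1 ++ [(-q^2)]) := by
    have := VV_invN (-q) ((-q^2) :: List.replicate L 1) (neg_ne_zero.mpr hq)
      (by simpa using hL.add_one)
    have e : (-q)⁻¹ = -q^2 := by
      rw [inv_eq_iff_eq_inv]
      have : (-q^2) ≠ 0 := neg_ne_zero.mpr (pow_ne_zero _ hq)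
      apply mul_right_cancel₀ this
      rw [inv_mul_cancel₀ this]
      linear_combination h3
    rw [e] at this
    simpa using this
  have hb := bw_eq L hL L le_rfl
  rw [Nat.sub_self] at hb
  simp only [List.replicate_zero] at hb
  -- inversion of the first variable
  have hinv1 : VV ((-q^2) :: (-q^2) :: l0) = (-q^2)^L • VV ((-q) :: (-q^2) :: l0) := by
    have := VV_inv1 (-q^2) ((-q^2) :: l0) (neg_ne_zero.mpr (pow_ne_zero _ hq))
      (by simp only [List.length_cons, hlen]; exact hL.add_one)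
    have e : (-q^2)⁻¹ = -q := by
      rw [inv_eq_iff_eq_inv]
      have : (-q) ≠ 0 := neg_ne_zero.mpr hq
      apply mul_right_cancel₀ this
      rw [inv_mul_cancel₀ this]
      linear_combination h3
    rw [e] at this
    simpa [hlen] using this
  -- exchange
  have hexch : VV ((-q^2) :: (-q) :: l0) =
      Finsupp.mapDomain (act 0) (VV ((-q) :: (-q^2) :: l0)) := by
    have := VV_exch [] l0 (-q) (-q^2) (by simpa [hlen] using hL)
    have e1 : q * (-q) - q^2 * (-q^2) = -q^2 + q := by linear_combination h4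
    have e2 : q * (-q^2) - q^2 * (-q) = 0 := by ring
    have e3 : (-q^2) - (-q) = -q^2 + q := by ring
    rw [e1, e2, e3, zero_smul, zero_add] at this
    have hne : -q^2 + q ≠ 0 := by
      intro h
      have h1 : q * (1 - q) = 0 := by linear_combination h
      rcases mul_eq_zero.mp h1 with h2 | h2
      · exact hq h2
      · exact q_ne_one (by linear_combination -h2)
    have h5 := congrArg (fun f => (-q^2 + q)⁻¹ • f) this
    simp only [smul_smul, inv_mul_cancel₀ hne, one_smul] at h5
    simpa using h5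
  -- cancel ins 0
  have hact : ∀ g : Word →₀ ℂ, Finsupp.mapDomain (act 0) g =
      Finsupp.mapDomain (ins 0) (Finsupp.mapDomain (cap 0) g) := by
    intro g
    rw [← Finsupp.mapDomain_comp]
    rfl
  have hcap : Finsupp.mapDomain (cap 0) (VV ((-q) :: (-q^2) :: l0)) = fac (-q^2) l0 • v0 := by
    apply Finsupp.mapDomain_injective ins_inj
    rw [← hact, ← hexch, hrec, mapDomain_lin]
  -- conclusion
  have hmain : fac (-q^2) l0 • Tv L v0 = fac (-q^2) l0 • v0 := by
    rw [← Tv_smul]
    unfold Tv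
    rw [mapDomain_lin, ← hrec]
    rw [← hf, hinv, bw_smul, hb, hinv1, smul_smul, mapDomain_lin, hcap]
    have e3 : (-q)^L * (-q^2)^L = 1 := by
      rw [← mul_pow]
      have : -q * -q^2 = 1 := by linear_combination h3
      rw [this, one_pow]
    rw [e3, one_smul]
  have hne : fac (-q^2) l0 ≠ 0 := fac_ne L
  have h5 := congrArg (fun f => (fac (-q^2) l0)⁻¹ • f) hmain
  simp only [smul_smul, inv_mul_cancel₀ hne, one_smul] at h5
  exact h5

/-! ### expansion over the bits -/

theorem fwdW_congr (k : ℕ) (c c' : ℕ → Bool) (h : ∀ i, 1 ≤ i → i ≤ k → c i = c' i) (w : Word) :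
    fwdW k c w = fwdW k c' w := by
  induction k with
  | zero => rfl
  | succ k ih =>
    simp only [fwdW]
    rw [h (k + 1) (by omega) le_rfl, ih fun i h1 h2 => h i h1 (by omega)]

theorem bwdW_congr (k : ℕ) (c c' : ℕ → Bool) (h : ∀ i, 1 ≤ i → i ≤ k → c i = c' i) (w : Word) :
    bwdW k c w = bwdW k c' w := by
  induction k generalizing w with
  | zero => rfl
  | succ k ih =>
    simp only [bwdW]
    rw [h (k + 1) (by omega) le_rfl, ih fun i h1 h2 => h i h1 (by omega)]

theorem ex_snoc {k : ℕ} (c : Fin k → Bool) (b : Bool) :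
    (∀ i, 1 ≤ i → i ≤ k → ex (Fin.snoc c b : Fin (k + 1) → Bool) i = ex c i) ∧
      ex (Fin.snoc c b : Fin (k + 1) → Bool) (k + 1) = b := by
  constructor
  · intro i h1 h2
    unfold ex
    rw [dif_pos ⟨h1, by omega⟩, dif_pos ⟨h1, h2⟩]
    have : (⟨i - 1, by omega⟩ : Fin (k + 1)) = Fin.castSucc ⟨i - 1, by omega⟩ := rfl
    rw [this, Fin.snoc_castSucc (α := fun _ => Bool)]
  · unfold ex
    rw [dif_pos ⟨by omega, le_rfl⟩]
    have : (⟨k + 1 - 1, by omega⟩ : Fin (k + 1)) = Fin.last k := rfl
    rw [this, Fin.snoc_last (α := fun _ => Bool)]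

theorem sum_snoc {k : ℕ} {A : Type*} [AddCommMonoid A] (F : (Fin (k + 1) → Bool) → A) :
    ∑ c, F c = ∑ c : Fin k → Bool, (F (Fin.snoc c false) + F (Fin.snoc c true)) := by
  rw [← (Fin.snocEquiv (fun _ : Fin (k + 1) => Bool)).sum_comp, Fintype.sum_prod_type,
    Finset.sum_comm]
  refine Finset.sum_congr rfl fun c _ => ?_
  rw [Fintype.sum_bool, add_comm]
  rfl

theorem mapDomain_id' (f : Word →₀ ℂ) : Finsupp.mapDomain (fun w => w) f = f :=
  Finsupp.mapDomain_id

theorem fw_exp (k : ℕ) (f : Word →₀ ℂ) :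
    fw k f = ((1 : ℂ) / 2 ^ k) • ∑ c : Fin k → Bool, Finsupp.mapDomain (fwdW k (ex c)) f := by
  induction k with
  | zero =>
    simp only [fw, pow_zero, div_one, one_smul]
    rw [Fintype.sum_unique]
    exact (mapDomain_id' f).symm
  | succ k ih =>
    simp only [fw]
    rw [ih]
    unfold tl
    rw [mapDomain_lin, ← smul_add, smul_smul, sum_snoc, Finsupp.mapDomain_finsetSum,
      ← Finset.sum_add_distrib]
    congr 1
    · rw [pow_succ]
      field_simp
    · refine Finset.sum_congr rfl fun c _ => ?_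
      rw [← Finsupp.mapDomain_comp]
      congr 2
      · funext w
        simp only [fwdW]
        rw [(ex_snoc c false).2, fwdW_congr k _ _ (ex_snoc c false).1]
        rfl
      · funext w
        simp only [fwdW]
        rw [(ex_snoc c true).2, fwdW_congr k _ _ (ex_snoc c true).1]
        rfl

theorem bw_exp (k : ℕ) (f : Word →₀ ℂ) :
    bw k f = ((1 : ℂ) / 2 ^ k) • ∑ c : Fin k → Bool, Finsupp.mapDomain (bwdW k (ex c)) f := by
  induction k generalizing f with
  | zero =>
    simp only [bw, pow_zero, div_one, one_smul]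
    rw [Fintype.sum_unique]
    exact (mapDomain_id' f).symm
  | succ k ih =>
    simp only [bw]
    rw [ih]
    unfold tl
    simp only [mapDomain_lin]
    rw [← Finset.smul_sum, smul_smul, sum_snoc]
    congr 1
    · rw [pow_succ]
      field_simp
    · refine Finset.sum_congr rfl fun c _ => ?_
      rw [Finsupp.mapDomain_add, ← Finsupp.mapDomain_comp]
      congr 2
      · funext w
        simp only [bwdW]
        rw [(ex_snoc c false).2, bwdW_congr k _ _ (ex_snoc c false).1]
        rfl
      · funext w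
        simp only [bwdW]
        rw [(ex_snoc c true).2, bwdW_congr k _ _ (ex_snoc c true).1]
        rfl

theorem Tv_exp (L : ℕ) (f : Word →₀ ℂ) :
    Tv L f = ((1 : ℂ) / 4 ^ L) • ∑ c : Fin L → Bool, ∑ c' : Fin L → Bool,
      Finsupp.mapDomain (rowW L (ex c) (ex c')) f := by
  unfold Tv
  rw [fw_exp, bw_smul, bw_exp, mapDomain_lin, mapDomain_lin, smul_smul]
  congr 1
  · rw [show (4 : ℂ) = 2 * 2 by norm_num, mul_pow]
    field_simp
  · rw [Finset.sum_comm, Finsupp.mapDomain_finsetSum]
    refine Finset.sum_congr rfl fun c' _ => ?_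
    rw [Finsupp.mapDomain_finsetSum, Finsupp.mapDomain_finsetSum]
    refine Finset.sum_congr rfl fun c _ => ?_
    rw [← Finsupp.mapDomain_comp, ← Finsupp.mapDomain_comp, ← Finsupp.mapDomain_comp]
    rfl

end TSW

open TSW in
theorem t_SW : S_SW := by
  classical
  intro n _ w' hw'
  have h1 := stationary (2 * n) (even_two_mul n)
  rw [Tv_exp] at h1
  have hlen : (List.replicate (2 * n) (1 : ℂ)).length = 2 * n := List.length_replicate
  have h2 := congrArg (fun f : Word →₀ ℂ => f w') h1
  simp only [Finsupp.smul_apply, Finsupp.finsetSum_apply, smul_eq_mul] at h2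
  have e1 : (VV (List.replicate (2 * n) 1)) w' = Fw w' (List.replicate (2 * n) 1) := by
    rw [VV_eq hlen, Finsupp.finsetSum_apply]
    simp only [Finsupp.single_apply]
    rw [Finset.sum_ite_eq', if_pos hw']
  have e2 : ∀ c c' : Fin (2 * n) → Bool,
      (Finsupp.mapDomain (rowW (2 * n) (ex c) (ex c')) (VV (List.replicate (2 * n) 1))) w' =
      ∑ w ∈ LP (2 * n), (if rowW (2 * n) (ex c) (ex c') w = w' then
        Fw w (List.replicate (2 * n) 1) else 0) := by
    intro c c'
    rw [VV_eq hlen, Finsupp.mapDomain_finsetSum, Finsupp.finsetSum_apply]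
    refine Finset.sum_congr rfl fun w _ => ?_
    rw [Finsupp.mapDomain_single, Finsupp.single_apply]
  simp only [e1, e2] at h2
  have h3 : ∑ w ∈ LP (2 * n), ∑ c : Fin (2 * n) → Bool, ∑ c' : Fin (2 * n) → Bool,
      (if rowW (2 * n) (ex c) (ex c') w = w' then Fw w (List.replicate (2 * n) 1) else 0) =
      ∑ c : Fin (2 * n) → Bool, ∑ c' : Fin (2 * n) → Bool, ∑ w ∈ LP (2 * n),
      (if rowW (2 * n) (ex c) (ex c') w = w' then Fw w (List.replicate (2 * n) 1) else 0) := by
    rw [Finset.sum_comm]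
    refine Finset.sum_congr rfl fun c _ => ?_
    rw [Finset.sum_comm]
  rw [h3, ← h2]
  have h4 : (4 : ℂ) ^ (2 * n) ≠ 0 := pow_ne_zero _ (by norm_num)
  rw [← mul_assoc, mul_one_div_cancel h4, one_mul]

end Pool.Agent.W808.KC
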