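import Pool.Agent.W808.KC.Stm
import Pool.Agent.W808.HB.T_TK

/-!
# KC-TK: the determinant in the variables `Y` (`S_TK`)
-/

set_option autoImplicit false

namespace Pool.Agent.W808.KC
open Pool.Agent.H988R2.Perc (q q_spec q_ne_zero)
open Pool.Agent.W808.HB (Xf Yf bet xY)
namespace TTK
open Pool.Agent.W808.HB.TTK

theorem qm1 : q - 1 ≠ 0 := sub_ne_zero.2 Pool.Agent.H988R2.Perc.q_ne_one

theorem gs_x (Y : ℂ) (hW : Y ^ 2 - Y + 1 ≠ 0) (h1 : Y ^ 2 - 1 ≠ 0) :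
    gs (xY q Y) = q * (q - 1) * (2 * Y - 1) * Y * (Y - 2) / ((Y ^ 2 - Y + 1) * (Y ^ 2 - 1)) := by
  have hq := q_spec
  have ha := a0 q Y hq hW
  have hb := b0 q Y hq hW
  have hq0 := q0 q hq
  have h3 := q3 q hq
  have e1 : (xY q Y)⁻¹ - q * xY q Y = q * (1 - q) * (2 * Y - 1) / ((q + Y) * (1 + q * Y)) := by
    rw [xinv, xY, ← mul_div_assoc, div_sub_div _ _ hb ha, mul_comm (1 + q * Y) (q + Y)]
    congr 1
    linear_combination (-Y ^ 2) * h3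
  have e2 : (xY q Y)⁻¹ - q ^ 2 * xY q Y = (1 - q) * (Y ^ 2 - 2 * Y) / ((q + Y) * (1 + q * Y)) := by
    rw [xinv, xY, ← mul_div_assoc, div_sub_div _ _ hb ha, mul_comm (1 + q * Y) (q + Y)]
    congr 1
    linear_combination (-2 * Y - q * Y ^ 2) * h3
  have e3 : (xY q Y)⁻¹ - xY q Y = (1 - q ^ 2) * (Y ^ 2 - 1) / ((q + Y) * (1 + q * Y)) := by
    rw [xinv, xY, div_sub_div _ _ hb ha, mul_comm (1 + q * Y) (q + Y)]
    congr 1
    ring
  have hq2 : 1 - q ^ 2 ≠ 0 := sub_ne_zero.2 (Ne.symm Pool.Agent.H988R2.Perc.q_sq_ne_one)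
  have hW2 : q * (Y ^ 2 - Y + 1) ≠ 0 := mul_ne_zero hq0 hW
  have hN : (1 - q ^ 2) * (Y ^ 2 - 1) ≠ 0 := mul_ne_zero hq2 h1
  have gen : ∀ P N1 N2 N3 : ℂ, P ≠ 0 → N3 ≠ 0 →
      (N1 / P) * (N2 / P) / (N3 / P) = N1 * N2 / (P * N3) := by
    intro P N1 N2 N3 hP hN3
    field_simp
  rw [gs, e1, e2, e3, ab q Y hq, gen _ _ _ _ hW2 hN,
    div_eq_div_iff (mul_ne_zero hW2 hN) (mul_ne_zero hW h1)]
  linear_combination (q * (1 - q) ^ 2 * (2 * Y - 1) * (Y ^ 2 - 2 * Y)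
    * (Y ^ 2 - Y + 1) * (Y ^ 2 - 1)) * hq

theorem term (Y b : ℂ) (t : ℕ) (hY : Y ≠ 0)
    (hW : Y ^ 2 - Y + 1 ≠ 0) (h1 : Y ^ 2 - 1 ≠ 0) (hb : 1 + b ≠ 0)
    (hd : 1 - b * (Y * (Y - 1)) ≠ 0) :
    gs (xY q Y) * HB.lp q (List.replicate t 1) (xY q Y) / ((2 - b) / (1 + b) - Yf q (xY q Y))
      = (-(q * (q - 1)) / 3 * 3 ^ t) * (1 - 2 * bet Y) / (1 + bet Y) ^ t * (1 + b)
        * ((Y ^ (t + 1) / (1 - b * (Y * (Y - 1)))) / (Y - Y⁻¹)) := by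
  have hq := q_spec
  have e1 : 1 + bet Y = (Y ^ 2 - Y + 1) / Y := by
    unfold bet; field_simp; ring
  have e2 : 1 - 2 * bet Y = -((2 * Y - 1) * (Y - 2)) / Y := by
    unfold bet; field_simp; ring
  have e3 : (2 - b) / (1 + b) - Yf q (xY q Y)
      = 3 * (1 - b * (Y * (Y - 1))) / ((1 + b) * (Y ^ 2 - Y + 1)) := by
    rw [Yf_x q Y hq hW, div_sub_div _ _ hb hW]
    congr 1; ring
  have e4 : Y - Y⁻¹ = (Y ^ 2 - 1) / Y := by field_simp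
  rw [e1, e2, e3, e4, gs_x Y hW h1, lp_x q Y hq hW t]
  generalize Y ^ 2 - Y + 1 = W at *
  generalize 1 - b * (Y * (Y - 1)) = D at *
  generalize Y ^ 2 - 1 = E at *
  rw [div_pow, mul_pow, div_pow, ← pow_mul, mul_comm 2 t, pow_mul]
  field_simp
  ring

end TTK

open TTK Pool.Agent.W808.HB.TTK in
theorem t_TK : S_TK := by
  intro t M Y hpos hne hd hd'
  have hq := q_spec
  have hY : ∀ i, (Y i : ℂ) ≠ 0 := fun i => by exact_mod_cast (hpos i).ne'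
  have hW : ∀ i, (Y i : ℂ) ^ 2 - Y i + 1 ≠ 0 := fun i => by
    have : (Y i) ^ 2 - Y i + 1 ≠ 0 := by nlinarith [sq_nonneg (Y i - 1), hpos i]
    exact_mod_cast this
  have hE : ∀ i, (Y i : ℂ) ^ 2 - 1 ≠ 0 := fun i => by
    have : (Y i) ^ 2 - 1 ≠ 0 := by
      intro h
      have h2 : (Y i - 1) * (Y i + 1) = 0 := by linear_combination h
      rcases mul_eq_zero.1 h2 with h3 | h3
      · exact hne i (by linarith)
      · have := hpos i; linarith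
    exact_mod_cast this
  have hW' : ∀ i, ((Y i : ℂ)⁻¹) ^ 2 - (Y i : ℂ)⁻¹ + 1 ≠ 0 := fun i => by
    have : ((Y i : ℂ)⁻¹) ^ 2 - (Y i : ℂ)⁻¹ + 1 = ((Y i : ℂ) ^ 2 - Y i + 1) / (Y i : ℂ) ^ 2 := by
      have := hY i
      field_simp
      ring
    rw [this]
    exact div_ne_zero (hW i) (pow_ne_zero 2 (hY i))
  have hE' : ∀ i, ((Y i : ℂ)⁻¹) ^ 2 - 1 ≠ 0 := fun i => by
    have : ((Y i : ℂ)⁻¹) ^ 2 - 1 = -((Y i : ℂ) ^ 2 - 1) / (Y i : ℂ) ^ 2 := by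
      have := hY i
      field_simp
      ring
    rw [this]
    exact div_ne_zero (neg_ne_zero.2 (hE i)) (pow_ne_zero 2 (hY i))
  have hB : ∀ i, 1 + bet (Y i) ≠ 0 := fun i => by
    have : 1 + bet (Y i : ℂ) = ((Y i : ℂ) ^ 2 - Y i + 1) / Y i := by
      have := hY i
      unfold bet; field_simp; ring
    rw [this]
    exact div_ne_zero (hW i) (hY i)
  have hX : ∀ i, Xf (xY q (Y i)) = (2 - bet (Y i)) / (1 + bet (Y i)) := fun i => by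
    rw [Xf_x q _ hq (hW i), div_eq_div_iff (hW i) (hB i)]
    have := hY i
    unfold bet; field_simp; ring
  have ent : ∀ i j, gs (xY q (Y j)) * HB.lp q (List.replicate t 1) (xY q (Y j))
        / (Xf (xY q (Y i)) - Yf q (xY q (Y j)))
      + gs (xY q (Y j))⁻¹ * HB.lp q (List.replicate t 1) (xY q (Y j))⁻¹
        / (Xf (xY q (Y i)) - Yf q (xY q (Y j))⁻¹)
      = (1 + bet (Y i)) * (((-(q * (q - 1)) / 3 * 3 ^ t) * (1 - 2 * bet (Y j)) / (1 + bet (Y j)) ^ t)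
        * Kf t (bet (Y i)) (Y j)) := by
    intro i j
    rw [← xYinv q (Y j) (hY j), hX i,
      term (Y j) (bet (Y i)) t (hY j) (hW j) (hE j) (hB i) (hd i j),
      term (Y j : ℂ)⁻¹ (bet (Y i)) t (inv_ne_zero (hY j)) (hW' j) (hE' j) (hB i) (hd' i j),
      bet_inv _ (hY j), inv_inv, Kf]
    have : (Y j : ℂ)⁻¹ - (Y j : ℂ) = -((Y j : ℂ) - (Y j : ℂ)⁻¹) := by ring
    rw [this, div_neg]
    ring
  have hT : TT (List.replicate t 1) (fun i => xY q (Y i))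
      = (∏ i, (1 + bet (Y i))) * ((∏ j, ((-(q * (q - 1)) / 3 * 3 ^ t) * (1 - 2 * bet (Y j))
        / (1 + bet (Y j)) ^ t)) * (Matrix.of fun i j : Fin M => Kf t (bet (Y i)) (Y j)).det) := by
    rw [← Matrix.det_mul_row, ← Matrix.det_mul_column]
    unfold TT
    congr 1
    ext i j
    simp only [Matrix.of_apply]
    exact ent i j
  rw [hT]
  have hc : 3 ^ t * q ^ 2 / (q - 1) = -(q * (q - 1)) / 3 * 3 ^ t := by
    rw [div_eq_iff qm1]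
    linear_combination (3 ^ t * q / 3) * hq
  have hP : (∏ i, (1 + bet (Y i))) * (∏ j, ((-(q * (q - 1)) / 3 * 3 ^ t) * (1 - 2 * bet (Y j))
        / (1 + bet (Y j)) ^ t)) * ∏ j, (1 + bet (Y j)) ^ t
      = (-(q * (q - 1)) / 3 * 3 ^ t) ^ M * (∏ j, (1 + bet (Y j))) * ∏ j, (1 - 2 * bet (Y j)) := by
    rw [← Finset.prod_mul_distrib, ← Finset.prod_mul_distrib, mul_assoc, ← Finset.prod_mul_distrib]
    have : (-(q * (q - 1)) / 3 * 3 ^ t) ^ M = ∏ _j : Fin M, (-(q * (q - 1)) / 3 * 3 ^ t) := by simp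
    rw [this, ← Finset.prod_mul_distrib]
    refine Finset.prod_congr rfl fun j _ => ?_
    have := hB j
    field_simp
  calc _ = ((∏ i, (1 + bet (Y i))) * (∏ j, ((-(q * (q - 1)) / 3 * 3 ^ t) * (1 - 2 * bet (Y j))
        / (1 + bet (Y j)) ^ t)) * ∏ j, (1 + bet (Y j)) ^ t)
        * (Matrix.of fun i j : Fin M => Kf t (bet (Y i)) (Y j)).det := by ring
    _ = _ := by rw [hP, hc]

end Pool.Agent.W808.KC
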