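import Pool.Agent.W808.KC.Stm
import Pool.Agent.W808.HB.T_TR

/-!
# The recursion of the determinant (leg `q / x₀`), by helper440
-/

set_option autoImplicit false

namespace Pool.Agent.W808.KC
open Pool.Agent.H160R2.ML (Gn)
open Pool.Agent.H988R2.Perc (q)
open Pool.Agent.W808.HB (prs Xf Yf lp)

namespace TTR
open Pool.Agent.W808.HB.T_TRaux

/-- the point `X` of the leg `q / x` -/
theorem XP' {x : ℂ} (hx : x ≠ 0) : Xf (q * x⁻¹) = Yf q x := by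
  have hq : q ^ 2 + q + 1 = 0 := Pool.Agent.H988R2.Perc.q_spec
  have e3 := q3 hq
  have hxx : x * x⁻¹ = 1 := mul_inv_cancel₀ hx
  have : (q * x⁻¹)⁻¹ = q ^ 2 * x := by
    apply inv_eq_of_mul_eq_one_right
    linear_combination q ^ 3 * hxx + e3
  rw [Xf, this, Yf]
  ring

end TTR

open TTR Pool.Agent.W808.HB.T_TRaux in
theorem t_TR : S_TR := by
  intro C M x0 x hG
  have hq : q ^ 2 + q + 1 = 0 := Pool.Agent.H988R2.Perc.q_spec
  have hG' : Gn (prs (List.ofFn (Fin.cons x0 x : Fin (M + 1) → ℂ))) := by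
    rw [List.ofFn_succ]
    simpa using hG
  obtain ⟨hz, hd⟩ := gn hG'
  have h0 : Nz x0 := by simpa using hz 0
  have hx : ∀ j, Nz (x j) := fun j => by simpa using hz j.succ
  have d0 : ∀ j, Df x0 (x j) := fun j => by
    simpa using hd 0 j.succ (Fin.succ_ne_zero j).symm
  have dx : ∀ i j, i ≠ j → Df (x i) (x j) := fun i j hij => by
    simpa using hd i.succ j.succ (fun h => hij (Fin.succ_injective _ h))
  clear hz hd hG' hG
  have e3 := q3 hq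
  have hq0 := q0 hq
  have hq1 := q1 hq
  obtain ⟨n1, n2, n4, n5, n6⟩ := ne1 hq h0
  have hx0 : x0 ≠ 0 := h0.1
  have ha : q * x0⁻¹ ≠ 0 := mul_ne_zero hq0 (inv_ne_zero hx0)
  have hxx0 : x0 * x0⁻¹ = 1 := mul_inv_cancel₀ hx0
  have yne : ∀ i j, Xf (x i) - Yf q (x j) ≠ 0 ∧ Xf (x i) - Yf q (x j)⁻¹ ≠ 0 := by
    intro i j
    by_cases h : i = j
    · subst h
      obtain ⟨-, -, -, a, b⟩ := ne1 hq (hx i)
      exact ⟨a, b⟩
    · exact (ne3 hq (hx i).1 (hx j).1 (dx i j h)).2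
  have y0 : ∀ j, Xf x0 - Yf q (x j) ≠ 0 ∧ Xf x0 - Yf q (x j)⁻¹ ≠ 0 := fun j =>
    (ne3 hq hx0 (hx j).1 (d0 j)).2
  have yP : ∀ j, Xf (x j) - Yf q x0 ≠ 0 := fun j =>
    (ne3 hq (hx j).1 hx0 (d0 j).symm).2.1
  unfold TT
  set N : Matrix (Fin (M + 1)) (Fin (M + 1)) ℂ := Matrix.of fun i j : Fin (M + 1) =>
    gs ((Fin.cons x0 x : Fin (M + 1) → ℂ) j) *
        lp q (q * x0⁻¹ :: C) ((Fin.cons x0 x : Fin (M + 1) → ℂ) j) /
        (Xf ((Fin.cons x0 x : Fin (M + 1) → ℂ) i) -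
          Yf q ((Fin.cons x0 x : Fin (M + 1) → ℂ) j)) +
      gs ((Fin.cons x0 x : Fin (M + 1) → ℂ) j)⁻¹ *
        lp q (q * x0⁻¹ :: C) ((Fin.cons x0 x : Fin (M + 1) → ℂ) j)⁻¹ /
        (Xf ((Fin.cons x0 x : Fin (M + 1) → ℂ) i) -
          Yf q ((Fin.cons x0 x : Fin (M + 1) → ℂ) j)⁻¹)
    with hN
  have hl0 : lp q (q * x0⁻¹ :: C) x0⁻¹ = 0 := by
    rw [lp_cons, sub_self, zero_mul, zero_mul]
  have hK : gs x0 * lp q (q * x0⁻¹ :: C) x0 / (Xf x0 - Yf q x0) =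
      q ^ 2 * x0⁻¹ * (x0⁻¹ - q * x0) * lp q C x0 := by
    rw [div_eq_iff n5, lp_cons]
    have hD : Xf x0 - Yf q x0 = (1 - q) * (x0⁻¹ - q ^ 2 * x0) := by
      simp only [Xf, Yf]
      linear_combination (-x0) * e3
    rw [hD, gs, div_mul_eq_mul_div, div_eq_iff n1]
    ring
  have hN00 : N 0 0 = q ^ 2 * x0⁻¹ * (x0⁻¹ - q * x0) * lp q C x0 := by
    rw [hN, Matrix.of_apply, Fin.cons_zero, hl0, mul_zero, zero_div, add_zero, hK]
  have hNs0 : ∀ i : Fin M, N i.succ 0 = (Xf x0 - Yf q x0) / (Xf (x i) - Yf q x0) * N 0 0 := by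
    intro i
    rw [hN00, ← hK, hN, Matrix.of_apply, Fin.cons_zero, Fin.cons_succ, hl0, mul_zero, zero_div,
      add_zero, div_mul_div_comm, mul_comm (Xf x0 - Yf q x0), mul_div_mul_right _ _ n5]
  rw [det_col0 N _ hNs0, hN00]
  have hent : (Matrix.of fun i j : Fin M => N i.succ j.succ -
      (Xf x0 - Yf q x0) / (Xf (x i) - Yf q x0) * N 0 j.succ) =
      Matrix.of fun i j : Fin M => ((Xf x0 - Xf (x i)) / (Xf (x i) - Yf q x0)) *
        (Matrix.of fun i j : Fin M =>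
          (q * x0⁻¹ * x0⁻¹ * (Xf x0 - Xf (x j)) / (Xf (x j) - Yf q x0)) *
          (Matrix.of fun i j : Fin M =>
            gs (x j) * lp q (x0 :: C) (x j) / (Xf (x i) - Yf q (x j))
            + gs (x j)⁻¹ * lp q (x0 :: C) (x j)⁻¹ / (Xf (x i) - Yf q (x j)⁻¹)) i j) i j := by
    ext i j
    simp only [Matrix.of_apply, hN, Fin.cons_succ, Fin.cons_zero]
    rw [lp_cons, lp_cons, lp_cons, lp_cons, leg hq (hx j).1 ha, leg hq (inv_ne_zero (hx j).1) ha,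
      leg hq (hx j).1 hx0, leg hq (inv_ne_zero (hx j).1) hx0, XP' hx0]
    rw [inv_inv]
    have hr : (Xf x0 - Xf (x j)) * (Xf x0 - Yf q (x j)) * (Xf x0 - Yf q (x j)⁻¹) =
        (Yf q x0 - Xf (x j)) * (Yf q x0 - Yf q (x j)) * (Yf q x0 - Yf q (x j)⁻¹) := by
      rw [root hq (hx j).1, root hq (hx j).1, rX hx0, rY hq hx0]
    have := ent (A := gs (x j) * lp q C (x j)) (B := gs (x j)⁻¹ * lp q C (x j)⁻¹)
      (a := q * x0⁻¹) (yne i j).1 (yne i j).2 (y0 j).1 (y0 j).2 (yP i) (Xf (x j)) (yP j) hr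
    linear_combination this - ((Xf x0 - Xf (x i)) / (Xf (x i) - Yf q x0) *
      (q * x0⁻¹ * (Xf x0 - Xf (x j)) / (Xf (x j) - Yf q x0) *
      (gs (x j) * lp q C (x j) * (Xf x0 - Yf q (x j)⁻¹) / (Xf (x i) - Yf q (x j)) +
        gs (x j)⁻¹ * lp q C (x j)⁻¹ * (Xf x0 - Yf q (x j)) / (Xf (x i) - Yf q (x j)⁻¹)))) * hxx0
  rw [hent, Matrix.det_mul_column, Matrix.det_mul_row]
  have hprod : (∏ i : Fin M, (Xf x0 - Xf (x i)) / (Xf (x i) - Yf q x0)) *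
      (∏ j : Fin M, q * x0⁻¹ * x0⁻¹ * (Xf x0 - Xf (x j)) / (Xf (x j) - Yf q x0)) *
      (∏ j : Fin M, (Xf (x j) - Yf q x0) ^ 2) =
      (q * x0⁻¹ * x0⁻¹) ^ M * ∏ j : Fin M, (Xf x0 - Xf (x j)) ^ 2 := by
    have hc : (q * x0⁻¹ * x0⁻¹) ^ M = ∏ _j : Fin M, (q * x0⁻¹ * x0⁻¹) := by simp
    rw [hc, ← Finset.prod_mul_distrib, ← Finset.prod_mul_distrib, ← Finset.prod_mul_distrib]
    refine Finset.prod_congr rfl fun j _ => ?_
    have hj := yP j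
    generalize Xf (x j) - Yf q x0 = D at hj ⊢
    field_simp
  have hpw : q ^ 2 * x0⁻¹ * (q * x0⁻¹ * x0⁻¹) ^ M = q ^ (M + 2) * x0⁻¹ ^ (2 * M + 1) := by
    rw [mul_pow, mul_pow]
    ring
  linear_combination (q ^ 2 * x0⁻¹ * (x0⁻¹ - q * x0) * lp q C x0 *
    (Matrix.of fun i j : Fin M =>
            gs (x j) * lp q (x0 :: C) (x j) / (Xf (x i) - Yf q (x j))
            + gs (x j)⁻¹ * lp q (x0 :: C) (x j)⁻¹ / (Xf (x i) - Yf q (x j)⁻¹)).det) * hprod +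
    ((x0⁻¹ - q * x0) * lp q C x0 * (∏ j : Fin M, (Xf x0 - Xf (x j)) ^ 2) *
    (Matrix.of fun i j : Fin M =>
            gs (x j) * lp q (x0 :: C) (x j) / (Xf (x i) - Yf q (x j))
            + gs (x j)⁻¹ * lp q (x0 :: C) (x j)⁻¹ / (Xf (x i) - Yf q (x j)⁻¹)).det) * hpw

end Pool.Agent.W808.KC
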