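import Pool.Agent.W808.KC.Stm
import Pool.Agent.W808.HB.T_U

/-!
# Expansions in `bet Y` (`S_U`), by helper440
-/

set_option autoImplicit false

namespace Pool.Agent.W808.KC
open Pool.Agent.W808.HB (bet)

namespace TU
open Pool.Agent.W808.HB.TU

theorem uc_co (t k l : ℕ) : uc t k l = co (t + 1 + k) k l := rfl

end TU

open TU Pool.Agent.W808.HB.TU in
theorem t_U : S_U := by
  intro t k Y h0 h
  have e : (Y ^ (t + 1) * (Y * (Y - 1)) ^ k - Y⁻¹ ^ (t + 1) * (Y⁻¹ * (Y⁻¹ - 1)) ^ k) / (Y - Y⁻¹)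
      = Ph Y (t + 1 + k) k := by
    unfold Ph
    congr 1
    rw [mul_pow, mul_pow, pow_add Y (t + 1) k, pow_add Y⁻¹ (t + 1) k]
    ring
  rw [e, gen Y h0 h k (t + 1 + k) (t + 2 * k + 1) (by omega)]
  refine Finset.sum_congr rfl fun l _ => ?_
  rw [uc_co]

end Pool.Agent.W808.KC
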