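import Pool.Agent.W808.KC.Stm
import Pool.Agent.H988R2.Perc.T03
import Pool.Agent.H988R2.Perc.T13

/-!
# Arms at a corner: inversion of the first leg, degree in a leg
-/

set_option autoImplicit false

namespace Pool.Agent.W808.KC
open Pool.Agent.H988R2.Perc (Word ins cap act rainbow Dyck LP Fw fac q mem_LP)
open Pool.Agent.H988R2.Perc.T10 (pairs fA fB)

theorem t_inv : S_inv := by
  intro A z B a ha hAB hz
  have l1 : (a :: A).length = A.length + 1 := by simp
  have l2 : (a⁻¹ :: A).length = A.length + 1 := by simp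
  have n1 : A.length + 1 + z.length + B.length = 2 * B.length + z.length := by omega
  unfold GG
  rw [l1, l2, n1, Finset.mul_sum]
  refine Finset.sum_congr rfl fun w hw => ?_
  have hw1 := mem_LP.1 hw
  have h1 := (Pool.Agent.H988R2.Perc.Fw_spec hw1.2).2.1 a (A ++ z ++ B) ha
    (by rw [hw1.1]; simp only [List.length_append]; omega)
  rw [hw1.1] at h1
  have e1 : a :: A ++ z ++ B = a :: (A ++ z ++ B) := by simp
  have e2 : a⁻¹ :: A ++ z ++ B = a⁻¹ :: (A ++ z ++ B) := by simp
  rw [e1, e2, h1]
  ring

theorem t_deg : S_deg := by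
  intro u v z B huv hz
  have hl : ∀ x : ℂ, (u ++ x :: v).length = u.length + v.length + 1 := by
    intro x
    simp only [List.length_append, List.length_cons]; omega
  have n1 : u.length + v.length + 1 + z.length + B.length = 2 * B.length + z.length := by omega
  have hPD : ∀ w : Word, ∃ P : Polynomial ℂ, w ∈ LP (2 * B.length + z.length) →
      P.natDegree ≤ 2 * B.length + z.length - 2 ∧
      ∀ x, Fw w (u ++ x :: (v ++ z ++ B)) = P.eval x := by
    intro w
    by_cases hw : w ∈ LP (2 * B.length + z.length)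
    · obtain ⟨P, hP, hPe⟩ := Pool.Agent.H988R2.Perc.PD.univ (Pool.Agent.H988R2.Perc.Fw_V hw).pd u
        (v ++ z ++ B) (by simp only [List.length_append]; omega)
      exact ⟨P, fun _ => ⟨hP, hPe⟩⟩
    · exact ⟨0, fun h => absurd h hw⟩
  choose P hP using hPD
  refine ⟨∑ w ∈ LP (2 * B.length + z.length),
    Polynomial.C (el (u.length + v.length + 1) w) * P w, ?_, ?_⟩
  · refine Polynomial.natDegree_sum_le_of_forall_le _ _ fun w hw => ?_
    exact (Polynomial.natDegree_C_mul_le _ _).trans (hP w hw).1
  · intro x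
    unfold GG
    rw [hl, n1, Polynomial.eval_finsetSum]
    refine Finset.sum_congr rfl fun w hw => ?_
    have e1 : u ++ x :: v ++ z ++ B = u ++ x :: (v ++ z ++ B) := by simp
    rw [e1, (hP w hw).2, Polynomial.eval_mul, Polynomial.eval_C]

end Pool.Agent.W808.KC
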