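import Pool.Agent.W808.KC.Stm
import Pool.Agent.H988R2.Perc.T13

/-!
# Exchange of two legs, exchange inside a pair (helper249)
-/

set_option autoImplicit false

namespace Pool.Agent.W808.KC
open Pool.Agent.H988R2.Perc
open Pool.Agent.H988R2.Perc (Word ins cap act rainbow Dyck LP Fw fac q)

namespace Tflip

/-- a functional applied to the vector `w ↦ Fw w l` -/
noncomputable def Gf (f : Word → ℂ) (l : List ℂ) : ℂ := ∑ w ∈ LP l.length, f w * Fw w l

theorem GG_eq (A z B : List ℂ) : GG A z B = Gf (el A.length) (A ++ z ++ B) := by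
  unfold GG Gf
  have h : (A ++ z ++ B).length = A.length + z.length + B.length := by
    simp only [List.length_append]
  rw [h]

theorem Gf_congr {f g : Word → ℂ} {l : List ℂ} (h : ∀ w : Word, w.length = l.length → Dyck w →
    f w = g w) : Gf f l = Gf g l := by
  unfold Gf
  refine Finset.sum_congr rfl fun w hw => ?_
  have := mem_LP.1 hw
  rw [h w this.1 this.2]

theorem Gf_zero (l : List ℂ) : Gf (fun _ => (0 : ℂ)) l = 0 := by
  unfold Gf
  simp

/-- well-formed words have even length -/
theorem even_length {w : Word} (hw : Dyck w) : Even w.length := by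
  induction hw with
  | nil => exact ⟨0, rfl⟩
  | ins i w hi hw ih =>
    obtain ⟨k, hk⟩ := ih
    exact ⟨k + 1, by rw [length_ins, hk]; ring⟩

/-- the exchange relation for a functional -/
theorem Gf_exch (f : Word → ℂ) (u v : List ℂ) (x y : ℂ) :
    (q * x - q ^ 2 * y) * Gf f (u ++ y :: x :: v) =
      (q * y - q ^ 2 * x) * Gf f (u ++ x :: y :: v) +
      (y - x) * Gf (fun w => f (act u.length w)) (u ++ x :: y :: v) := by
  have l1 : (u ++ y :: x :: v).length = u.length + v.length + 2 := by
    simp only [List.length_append, List.length_cons]; omega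
  have l2 : (u ++ x :: y :: v).length = u.length + v.length + 2 := by
    simp only [List.length_append, List.length_cons]; omega
  unfold Gf
  rw [l1, l2]
  by_cases hev : ∃ n, u.length + v.length + 2 = 2 * n
  · obtain ⟨n, hn⟩ := hev
    rw [hn, Finset.mul_sum]
    have h1 : ∀ pi ∈ LP (2 * n), (q * x - q ^ 2 * y) * (f pi * Fw pi (u ++ y :: x :: v)) =
        (q * y - q ^ 2 * x) * (f pi * Fw pi (u ++ x :: y :: v)) +
        (y - x) * ∑ w ∈ LP (2 * n), (if act u.length w = pi then
          f pi * Fw w (u ++ x :: y :: v) else 0) := by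
      intro pi hpi
      have h2 := Fw_exch hpi u v x y hn
      have h3 : ∑ w ∈ LP (2 * n), (if act u.length w = pi then
          f pi * Fw w (u ++ x :: y :: v) else 0) =
          f pi * ∑ w ∈ LP (2 * n), (if act u.length w = pi then
            Fw w (u ++ x :: y :: v) else 0) := by
        rw [Finset.mul_sum]
        refine Finset.sum_congr rfl fun w _ => ?_
        rw [mul_ite, mul_zero]
      rw [h3]
      linear_combination f pi * h2
    rw [Finset.sum_congr rfl h1, Finset.sum_add_distrib, ← Finset.mul_sum, ← Finset.mul_sum]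
    congr 2
    rw [Finset.sum_comm]
    refine Finset.sum_congr rfl fun w hw => ?_
    have hw' := mem_LP.1 hw
    have hi : u.length + 2 ≤ w.length := by rw [hw'.1]; omega
    have hmem : act u.length w ∈ LP (2 * n) :=
      mem_LP.2 ⟨by rw [length_act hi, hw'.1], dyck_act hw'.2 hi⟩
    rw [Finset.sum_ite_eq, if_pos hmem]
  · have h0 : LP (u.length + v.length + 2) = ∅ := by
      rw [Finset.eq_empty_iff_forall_notMem]
      intro w hw
      have hw' := mem_LP.1 hw
      obtain ⟨k, hk⟩ := even_length hw'.2
      exact hev ⟨k, by omega⟩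
    rw [h0]
    simp

/-- the general exchange relation of the partition function -/
theorem GG_exch (A z B u v : List ℂ) (m : ℕ) (x y : ℂ) (hA : A.length = m)
    (h : A ++ z ++ B = u ++ x :: y :: v) :
    (q * x - q ^ 2 * y) * Gf (el m) (u ++ y :: x :: v) =
      (q * y - q ^ 2 * x) * GG A z B +
      (y - x) * Gf (fun w => el m (act u.length w)) (u ++ x :: y :: v) := by
  rw [GG_eq, hA, h]
  exact Gf_exch (el m) u v x y

theorem el_congr {m : ℕ} {w w' : Word} (h : Gd m w ↔ Gd m w') : el m w = el m w' := by
  unfold el
  by_cases h1 : Gd m w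
  · rw [if_pos h1, if_pos (h.1 h1)]
  · rw [if_neg h1, if_neg (fun h2 => h1 (h.2 h2))]

theorem el_zero {m : ℕ} {w : Word} (h : ¬ Gd m w) : el m w = 0 := if_neg h

/-- closing and inserting an aligned pair does not change the functional -/
theorem el_act (hi : S_Ei) (hc : S_Ec) {m M j : ℕ} {w : Word} (hw : Dyck w)
    (hl : w.length = 2 * m + 2 * M + 2) (hj : j ≤ M) : el m (act (m + 2 * j) w) = el m w := by
  have h1 : m + 2 * j + 2 ≤ w.length := by omega
  have h2 := length_cap h1
  unfold act
  rw [el_congr (hi m M (m + 2 * j) (cap (m + 2 * j) w) (dyck_cap hw h1) (by omega) (by omega)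
    (by omega) (by omega))]
  exact el_congr (hc m M j w hw hl hj)

end Tflip

open Tflip in
theorem t_legx : S_Ez → S_legx := by
  intro hz u v z B x y hl hE
  obtain ⟨k, hk⟩ := hE
  have e1 : (u ++ y :: x :: v) ++ z ++ B = u ++ y :: x :: (v ++ z ++ B) := by simp
  have e2 : (u ++ x :: y :: v) ++ z ++ B = u ++ x :: y :: (v ++ z ++ B) := by simp
  have l1 : (u ++ y :: x :: v).length = u.length + v.length + 2 := by
    simp only [List.length_append, List.length_cons]; omega
  have l2 : (u ++ x :: y :: v).length = u.length + v.length + 2 := by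
    simp only [List.length_append, List.length_cons]; omega
  rw [GG_eq, GG_eq, l1, l2, e1, e2, Gf_exch]
  have h3 : Gf (fun w => el (u.length + v.length + 2) (act u.length w))
      (u ++ x :: y :: (v ++ z ++ B)) = 0 := by
    rw [Gf_congr (g := fun _ => (0 : ℂ)), Gf_zero]
    intro w hw hd
    have hlen : w.length = 2 * (u.length + v.length + 2) + 2 * k := by
      rw [hw]
      simp only [List.length_append, List.length_cons]
      omega
    have h5 : u.length + 2 ≤ w.length := by omega
    have h6 := length_cap h5
    refine el_zero ?_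
    unfold act
    exact hz (u.length + v.length + 2) k u.length (cap u.length w) (dyck_cap hd h5) (by omega)
      (by omega) (Or.inl (by omega))
  rw [h3, mul_zero, add_zero]

open Tflip in
theorem t_flip : S_Ei → S_Ec → S_flip := by
  intro hi hc A B u v x y hAB hu hv hne
  obtain ⟨j, hj⟩ := hu
  obtain ⟨k, hk⟩ := hv
  have e1 : A ++ (u ++ y :: x :: v) ++ B = (A ++ u) ++ y :: x :: (v ++ B) := by simp
  have e2 : A ++ (u ++ x :: y :: v) ++ B = (A ++ u) ++ x :: y :: (v ++ B) := by simp
  rw [GG_eq, GG_eq, e1, e2]
  have h1 := Gf_exch (el A.length) (A ++ u) (v ++ B) x y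
  have h2 : Gf (fun w => el A.length (act (A ++ u).length w))
      ((A ++ u) ++ x :: y :: (v ++ B)) =
      Gf (el A.length) ((A ++ u) ++ x :: y :: (v ++ B)) := by
    refine Gf_congr fun w hw hd => ?_
    have h8 : (A ++ u).length = A.length + 2 * j := by
      rw [List.length_append]; omega
    rw [h8]
    refine el_act hi hc (M := j + k) hd ?_ (by omega)
    rw [hw]
    simp only [List.length_append, List.length_cons]
    omega
  rw [h2] at h1
  apply mul_left_cancel₀ hne
  rw [h1]
  generalize Gf (el A.length) ((A ++ u) ++ x :: y :: (v ++ B)) = G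
  linear_combination (y - x) * G * q_spec

end Pool.Agent.W808.KC
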