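import Pool.Agent.W808.KC.Stm
import Pool.Agent.H988R2.Perc.T10
import Pool.Agent.H988R2.Perc.T13

/-!
# Arms at a corner: recursion at the last left leg, value without other strands
-/

set_option autoImplicit false

namespace Pool.Agent.W808.KC
open Pool.Agent.H988R2.Perc (Word ins cap act rainbow Dyck LP Fw fac q mem_LP)
open Pool.Agent.H988R2.Perc.T10 (pairs fA fB)

namespace TmvR

theorem sum_ins (m n i : ℕ) (f : Word → ℂ) (hi : i ≤ 2 * n)
    (h : ∀ w' ∈ LP (2 * n), el m (ins i w') = el m w') :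
    ∑ w ∈ LP (2 * (n + 1)), el m w *
      ∑ w' ∈ LP (2 * n), (if ins i w' = w then f w' else 0) = ∑ w' ∈ LP (2 * n), el m w' * f w' := by
  have h1 : ∀ w ∈ LP (2 * (n + 1)), el m w *
      ∑ w' ∈ LP (2 * n), (if ins i w' = w then f w' else 0) =
      ∑ w' ∈ LP (2 * n), (if ins i w' = w then el m w * f w' else 0) := by
    intro w _
    rw [Finset.mul_sum]
    refine Finset.sum_congr rfl fun w' _ => ?_
    split_ifs
    · rfl
    · rw [mul_zero]
  rw [Finset.sum_congr rfl h1, Finset.sum_comm]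
  refine Finset.sum_congr rfl fun w' hw' => ?_
  have hw1 := mem_LP.1 hw'
  have hmem : ins i w' ∈ LP (2 * (n + 1)) :=
    mem_LP.2 ⟨by rw [Pool.Agent.H988R2.Perc.length_ins, hw1.1]; ring,
      (Pool.Agent.H988R2.Perc.dyck_ins_iff (by omega)).2 hw1.2⟩
  rw [Finset.sum_ite_eq, if_pos hmem, h w' hw']

/-- the component of the rainbow -/
theorem Fw_rainbow (n : ℕ) (l : List ℂ) (hl : l.length = 2 * n) :
    Fw (rainbow n) l = Pool.Agent.H988R2.Perc.base n l := by
  have hd := Pool.Agent.H988R2.Perc.base_dual n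
  have hlen : (rainbow n).length = 2 * n := Pool.Agent.H988R2.Perc.length_rainbow n
  have hdy : Dyck (rainbow n) := Pool.Agent.H988R2.Perc.dyck_rainbow n
  have hmem : rainbow n ∈ LP (2 * n) := mem_LP.2 ⟨hlen, hdy⟩
  rw [Pool.Agent.H988R2.Perc.V_expand (Pool.Agent.H988R2.Perc.base_V n) l hl]
  have h1 : ∀ w ∈ LP (2 * n), Pool.Agent.H988R2.Perc.ev n w (Pool.Agent.H988R2.Perc.base n) * Fw w l =
      if w = rainbow n then Fw w l else 0 := by
    intro w hw
    have hw1 := mem_LP.1 hw
    have h2 := hd.2.2.2 w hw1.2 (by rw [hw1.1, hlen])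
    have hn : (rainbow n).length / 2 = n := by omega
    rw [hn] at h2
    rw [h2]
    split_ifs
    · rw [one_mul]
    · rw [zero_mul]
  rw [Finset.sum_congr rfl h1, Finset.sum_ite_eq', if_pos hmem]

end TmvR

theorem t_mvR : S_Ei → S_mvR := by
  intro hEi A z B a y hAB hz
  obtain ⟨M, hM⟩ := hz
  have l1 : (A ++ [a]).length = A.length + 1 := by simp
  have l2 : (A ++ [y]).length = A.length + 1 := by simp
  have e1 : (A ++ [a]) ++ ((q ^ 2 * a) :: y :: z) ++ B = A ++ a :: (q ^ 2 * a) :: (y :: z ++ B) := by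
    simp
  have e2 : (A ++ [y]) ++ z ++ B = A ++ (y :: z ++ B) := by simp
  have e3 : A ++ y :: z ++ B = A ++ (y :: z ++ B) := by simp
  have n1 : (A ++ [a]).length + ((q ^ 2 * a) :: y :: z).length + B.length =
      2 * ((A.length + 1 + M) + 1) := by
    rw [l1]; simp only [List.length_cons]; omega
  have n2 : (A ++ [y]).length + z.length + B.length = 2 * (A.length + 1 + M) := by
    rw [l2]; omega
  unfold GG
  rw [n1, n2, e1, e2, e3, l1, l2]
  have hlen : A.length + (y :: z ++ B).length = 2 * (A.length + 1 + M) := by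
    simp only [List.length_cons, List.length_append]; omega
  have h1 : ∀ w ∈ LP (2 * ((A.length + 1 + M) + 1)),
      el (A.length + 1) w * Fw w (A ++ a :: (q ^ 2 * a) :: (y :: z ++ B)) =
      fac a (A ++ (y :: z ++ B)) * (el (A.length + 1) w * ∑ w' ∈ LP (2 * (A.length + 1 + M)),
        (if ins A.length w' = w then Fw w' (A ++ (y :: z ++ B)) else 0)) := by
    intro w hw
    rw [Pool.Agent.H988R2.Perc.Fw_rec hw A (y :: z ++ B) a hlen]
    ring
  rw [Finset.sum_congr rfl h1, ← Finset.mul_sum]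
  congr 1
  refine TmvR.sum_ins (A.length + 1) (A.length + 1 + M) A.length
    (fun w' => Fw w' (A ++ (y :: z ++ B))) (by omega) ?_
  intro w' hw'
  have hw1 := mem_LP.1 hw'
  have h2 := hEi (A.length + 1) M A.length w' hw1.2 (by omega) (by omega) (by omega) (by omega)
  unfold el
  by_cases h3 : Gd (A.length + 1) w'
  · rw [if_pos h3, if_pos (h2.2 h3)]
  · rw [if_neg h3, if_neg (fun h => h3 (h2.1 h))]

theorem t_bs : S_E1 → S_bs := by
  intro hE1 A B hAB
  have n1 : A.length + ([] : List ℂ).length + B.length = 2 * A.length := by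
    simp only [List.length_nil]; omega
  unfold GG
  rw [n1, List.append_nil]
  have h1 : ∀ w ∈ LP (2 * A.length), el A.length w * Fw w (A ++ B) =
      if w = rainbow A.length then Fw w (A ++ B) else 0 := by
    intro w hw
    have hw1 := mem_LP.1 hw
    have h2 := hE1.2 A.length w hw1.1
    unfold el
    by_cases h3 : w = rainbow A.length
    · rw [if_pos (h2.2 h3), if_pos h3, one_mul]
    · rw [if_neg (fun h => h3 (h2.1 h)), if_neg h3, zero_mul]
  have hmem : rainbow A.length ∈ LP (2 * A.length) :=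
    mem_LP.2 ⟨Pool.Agent.H988R2.Perc.length_rainbow _, Pool.Agent.H988R2.Perc.dyck_rainbow _⟩
  rw [Finset.sum_congr rfl h1, Finset.sum_ite_eq', if_pos hmem,
    TmvR.Fw_rainbow A.length (A ++ B) (by rw [List.length_append]; omega),
    Pool.Agent.H988R2.Perc.T10.base_append A.length A B rfl hAB.symm]

end Pool.Agent.W808.KC
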