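import Pool.Agent.W808.KC.T_flip

/-!
# Exchange of pairs (helper249)
-/

set_option autoImplicit false

namespace Pool.Agent.W808.KC
open Pool.Agent.H160R2.ML (Gn)
open Pool.Agent.H988R2.Perc
open Pool.Agent.H988R2.Perc (Word ins cap act rainbow Dyck LP Fw fac q)

namespace Tpex
open Tflip

/-- the middle generator after an aligned one -/
theorem el_mid_left (hi : S_Ei) (hc : S_Ec) {m M j : ℕ} {w : Word} (hw : Dyck w)
    (hl : w.length = 2 * m + 2 * M + 4) (hj : j ≤ M) :
    el m (act (m + 2 * j + 1) (act (m + 2 * j) w)) = el m w := by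
  have h1 : m + 2 * j + 2 ≤ w.length := by omega
  have h2 := length_cap h1
  have o1 := dyck_cap hw h1
  have h4 : cap (m + 2 * j + 1) (act (m + 2 * j) w) = cap (m + 2 * j) w := by
    unfold act
    exact cap_succ_ins (by omega)
  have h5 : act (m + 2 * j + 1) (act (m + 2 * j) w) =
      ins (m + 2 * j + 1) (cap (m + 2 * j) w) := by
    conv_lhs => unfold act
    congr 1
  rw [h5, el_congr (hi m (M + 1) (m + 2 * j + 1) _ o1 (by omega) (by omega) (by omega)
    (by omega))]
  exact el_congr (hc m (M + 1) j w hw (by omega) (by omega))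

theorem el_mid_right (hi : S_Ei) (hc : S_Ec) {m M j : ℕ} {w : Word} (hw : Dyck w)
    (hl : w.length = 2 * m + 2 * M + 4) (hj : j ≤ M) :
    el m (act (m + 2 * j + 1) (act (m + 2 * j + 2) w)) = el m w := by
  have h1 : (m + 2 * j + 2) + 2 ≤ w.length := by omega
  have h2 := length_cap h1
  have o1 := dyck_cap hw h1
  have h4 : cap (m + 2 * j + 1) (act (m + 2 * j + 2) w) = cap (m + 2 * j + 2) w := by
    unfold act
    exact cap_ins_succ (i := m + 2 * j + 1) (by omega)
  have h5 : act (m + 2 * j + 1) (act (m + 2 * j + 2) w) =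
      ins (m + 2 * j + 1) (cap (m + 2 * j + 2) w) := by
    conv_lhs => unfold act
    congr 1
  rw [h5, el_congr (hi m (M + 1) (m + 2 * j + 1) _ o1 (by omega) (by omega) (by omega)
    (by omega))]
  have := hc m (M + 1) (j + 1) w hw (by omega) (by omega)
  have e2 : m + 2 * (j + 1) = m + 2 * j + 2 := by ring
  rw [e2] at this
  exact el_congr this

theorem act_act {i : ℕ} {w : Word} (hl : i + 2 ≤ w.length) : act i (act i w) = act i w := by
  have h2 := length_cap hl
  show ins i (cap i (ins i (cap i w))) = ins i (cap i w)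
  rw [cap_ins_self (by omega)]

theorem hden (a b : ℂ) (hab : a ^ 3 ≠ b ^ 3) : q * b - q ^ 2 * a ≠ 0 := by
  intro h0
  apply hab
  have hq0 : q ≠ 0 := by
    intro h
    have := q_spec
    rw [h] at this
    norm_num at this
  have h1 : b = q * a := by
    have : q * (b - q * a) = 0 := by linear_combination h0
    rcases mul_eq_zero.1 this with h2 | h2
    · exact absurd h2 hq0
    · linear_combination h2
  rw [h1]
  linear_combination (-a ^ 3) * q_cube

end Tpex

open Tflip Tpex in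
theorem t_pex : S_Ei → S_Ec → S_pex := by
  intro hi hc A B u v x y hAB hu hv hG
  have hq := q_spec
  have hx0 : x ≠ 0 := hG.1 x (by simp)
  have hy0 : y ≠ 0 := hG.1 y (by simp)
  obtain ⟨-, hnd⟩ := hG
  simp only [List.map_cons, List.map_nil, List.nodup_cons, List.mem_cons, List.not_mem_nil,
    or_false, not_or, not_false_eq_true, List.nodup_nil, and_true] at hnd
  obtain ⟨⟨n12, n13, n14⟩, ⟨n23, n24⟩, n34⟩ := hnd
  obtain ⟨m, hm⟩ : ∃ m, m = A.length := ⟨_, rfl⟩
  obtain ⟨j, hj⟩ := hu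
  obtain ⟨k, hk⟩ := hv
  set i := m + 2 * j with hidef
  -- the lists
  obtain ⟨L, hL⟩ : ∃ L : ℂ → ℂ → ℂ → ℂ → List ℂ, L = fun a b c d =>
    A ++ (u ++ a :: b :: c :: d :: v) ++ B := ⟨_, rfl⟩
  have hLlen : ∀ a b c d, (L a b c d).length = 2 * m + 2 * (j + k) + 4 := by
    intro a b c d
    rw [hL]
    simp only [List.length_append, List.length_cons]
    omega
  -- exchange at the three positions
  have ex1 : ∀ (φ : Word → ℂ) (a b c d : ℂ), (q * a - q ^ 2 * b) * Gf φ (L b a c d) =
      (q * b - q ^ 2 * a) * Gf φ (L a b c d) +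
      (b - a) * Gf (fun w => φ (act i w)) (L a b c d) := by
    intro φ a b c d
    have := Gf_exch φ (A ++ u) (c :: d :: v ++ B) a b
    have h2 : (A ++ u).length = i := by rw [List.length_append]; omega
    rw [h2] at this
    rw [hL]
    simpa only [List.append_assoc, List.cons_append] using this
  have ex2 : ∀ (φ : Word → ℂ) (a b c d : ℂ), (q * b - q ^ 2 * c) * Gf φ (L a c b d) =
      (q * c - q ^ 2 * b) * Gf φ (L a b c d) +
      (c - b) * Gf (fun w => φ (act (i + 1) w)) (L a b c d) := by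
    intro φ a b c d
    have := Gf_exch φ (A ++ (u ++ [a])) (d :: v ++ B) b c
    have h2 : (A ++ (u ++ [a])).length = i + 1 := by
      simp only [List.length_append, List.length_cons, List.length_nil]; omega
    rw [h2] at this
    rw [hL]
    simpa only [List.append_assoc, List.cons_append, List.nil_append] using this
  have ex3 : ∀ (φ : Word → ℂ) (a b c d : ℂ), (q * c - q ^ 2 * d) * Gf φ (L a b d c) =
      (q * d - q ^ 2 * c) * Gf φ (L a b c d) +
      (d - c) * Gf (fun w => φ (act (i + 2) w)) (L a b c d) := by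
    intro φ a b c d
    have := Gf_exch φ (A ++ (u ++ [a, b])) (v ++ B) c d
    have h2 : (A ++ (u ++ [a, b])).length = i + 2 := by
      simp only [List.length_append, List.length_cons, List.length_nil]; omega
    rw [h2] at this
    rw [hL]
    simpa only [List.append_assoc, List.cons_append, List.nil_append] using this
  -- the two functionals
  obtain ⟨f, hf⟩ : ∃ f : List ℂ → ℂ, f = Gf (el m) := ⟨_, rfl⟩
  obtain ⟨g, hg⟩ : ∃ g : List ℂ → ℂ, g = Gf (fun w => el m (act (i + 1) w)) := ⟨_, rfl⟩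
  have f1 : ∀ a b c d, Gf (fun w => el m (act i w)) (L a b c d) = f (L a b c d) := by
    intro a b c d
    rw [hf]
    refine Gf_congr fun w hw hd => ?_
    rw [hLlen] at hw
    exact el_act hi hc (M := j + k + 1) hd (by omega) (by omega)
  have f3 : ∀ a b c d, Gf (fun w => el m (act (i + 2) w)) (L a b c d) = f (L a b c d) := by
    intro a b c d
    rw [hf]
    refine Gf_congr fun w hw hd => ?_
    rw [hLlen] at hw
    exact el_act hi hc (M := j + k + 1) (j := j + 1) hd (by omega) (by omega)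
  have g1 : ∀ a b c d, Gf (fun w => el m (act (i + 1) (act i w))) (L a b c d) =
      f (L a b c d) := by
    intro a b c d
    rw [hf]
    refine Gf_congr fun w hw hd => ?_
    rw [hLlen] at hw
    exact el_mid_left hi hc (M := j + k) hd (by omega) (by omega)
  have g3 : ∀ a b c d, Gf (fun w => el m (act (i + 1) (act (i + 2) w))) (L a b c d) =
      f (L a b c d) := by
    intro a b c d
    rw [hf]
    refine Gf_congr fun w hw hd => ?_
    rw [hLlen] at hw
    exact el_mid_right hi hc (M := j + k) hd (by omega) (by omega)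
  have g2 : ∀ a b c d, Gf (fun w => el m (act (i + 1) (act (i + 1) w))) (L a b c d) =
      g (L a b c d) := by
    intro a b c d
    rw [hg]
    refine Gf_congr fun w hw hd => ?_
    rw [hLlen] at hw
    rw [act_act (by omega)]
  -- scalar form of the exchanges
  have F1 : ∀ a b c d : ℂ, a ^ 3 ≠ b ^ 3 → f (L b a c d) = f (L a b c d) := by
    intro a b c d hab
    have h1 := ex1 (el m) a b c d
    rw [f1 a b c d, ← hf] at h1
    apply mul_left_cancel₀ (hden b a (Ne.symm hab))
    linear_combination h1 + (b - a) * f (L a b c d) * hq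
  have F3 : ∀ a b c d : ℂ, c ^ 3 ≠ d ^ 3 → f (L a b d c) = f (L a b c d) := by
    intro a b c d hab
    have h1 := ex3 (el m) a b c d
    rw [f3 a b c d, ← hf] at h1
    apply mul_left_cancel₀ (hden d c (Ne.symm hab))
    linear_combination h1 + (d - c) * f (L a b c d) * hq
  have G2 : ∀ a b c d : ℂ, b ^ 3 ≠ c ^ 3 → g (L a c b d) = g (L a b c d) := by
    intro a b c d hab
    have h1 := ex2 (fun w => el m (act (i + 1) w)) a b c d
    rw [g2 a b c d, ← hg] at h1
    apply mul_left_cancel₀ (hden c b (Ne.symm hab))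
    linear_combination h1 + (c - b) * g (L a b c d) * hq
  have sc : ∀ (a b P0 P1 P2 G : ℂ), a ≠ 0 → b ≠ 0 → a ^ 3 ≠ b ^ 3 →
      (q * a - q ^ 2 * b) * P1 = (q * b - q ^ 2 * a) * P0 + (b - a) * G →
      (q * a⁻¹ - q ^ 2 * b⁻¹) * P2 = (q * b⁻¹ - q ^ 2 * a⁻¹) * P1 + (b⁻¹ - a⁻¹) * G → P2 = P0 := by
    intro a b P0 P1 P2 G ha hb hab h1 h2
    apply mul_left_cancel₀ (hden a b hab)
    have h3 : (q * b - q ^ 2 * a) * P2 = (q * a - q ^ 2 * b) * P1 + (a - b) * G := by
      have h4 : a * b * ((q * a⁻¹ - q ^ 2 * b⁻¹) * P2) =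
          a * b * ((q * b⁻¹ - q ^ 2 * a⁻¹) * P1 + (b⁻¹ - a⁻¹) * G) := by rw [h2]
      have e1 : a * b * ((q * a⁻¹ - q ^ 2 * b⁻¹) * P2) = (q * b - q ^ 2 * a) * P2 := by
        field_simp
      have e2 : a * b * ((q * b⁻¹ - q ^ 2 * a⁻¹) * P1 + (b⁻¹ - a⁻¹) * G) =
          (q * a - q ^ 2 * b) * P1 + (a - b) * G := by
        field_simp
      rw [← e1, h4, e2]
    linear_combination h3 + h1
  have hinv : ∀ a : ℂ, (a⁻¹)⁻¹ = a := inv_inv
  -- step 1
  have s1f := ex2 (el m) x x⁻¹ y y⁻¹
  have s1g := G2 x x⁻¹ y y⁻¹ n23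
  rw [← hf, ← hg] at s1f
  -- step 2
  have s2f := F1 x y x⁻¹ y⁻¹ n13
  have s2g := ex1 (fun w => el m (act (i + 1) w)) x y x⁻¹ y⁻¹
  rw [g1, ← hg] at s2g
  -- step 3
  have s3f := F3 y x x⁻¹ y⁻¹ n24
  have s3g := ex3 (fun w => el m (act (i + 1) w)) y x x⁻¹ y⁻¹
  rw [g3, s2f, ← hg] at s3g
  have s3 := sc x y _ _ _ _ hx0 hy0 n13 s2g s3g
  -- step 4
  have s4f := ex2 (el m) y x y⁻¹ x⁻¹
  rw [← hf, ← hg, s3f, s2f, s3, s1g] at s4f
  have fin := sc x⁻¹ y (f (L x x⁻¹ y y⁻¹)) (f (L x y x⁻¹ y⁻¹)) (f (L y y⁻¹ x x⁻¹))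
    (g (L x x⁻¹ y y⁻¹)) (inv_ne_zero hx0) hy0 n23 s1f (by rw [hinv]; exact s4f)
  rw [GG_eq, GG_eq, ← hm, ← hf]
  rw [hL] at fin
  exact fin.symm

end Pool.Agent.W808.KC
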