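import Pool.Agent.W808.KC.Stm

/-! q1 (helper598): coarse geometry of the tubes at the corner. -/

set_option autoImplicit false

namespace Pool.Agent.W808.KC

namespace Tq1

lemma mulgap {s s' : ℤ} (N : ℕ) (h : s + 1 ≤ s') :
    s * (8 * (N : ℤ)) + 8 * N ≤ s' * (8 * N) := by
  have h0 : (0 : ℤ) ≤ 8 * (N : ℤ) := by positivity
  have := mul_le_mul_of_nonneg_right h h0
  linarith

lemma mulgap2 {s s' : ℤ} (N : ℕ) (h : s + 2 ≤ s') :
    s * (8 * (N : ℤ)) + 16 * N ≤ s' * (8 * N) := by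
  have h0 : (0 : ℤ) ≤ 8 * (N : ℤ) := by positivity
  have := mul_le_mul_of_nonneg_right h h0
  linarith

lemma far {N : ℕ} {h h' : ℤ} (hN : 4 ≤ N) (h1 : -(N : ℤ) + 3 ≤ h) (h2 : h + 3 ≤ N)
    (h1' : -(N : ℤ) + 3 ≤ h') (h2' : h' + 3 ≤ N) (hh : h' + 2 ≤ h) (P : ℤ) (z z' : ℤ × ℤ)
    (hz : (z.1 - P, z.2 - P) ∈ TbC N h) (hz' : (z'.1 - P, z'.2 - P) ∈ TbC N h')
    (e1 : |z.1 - z'.1| ≤ 1) (e2 : |z.2 - z'.2| ≤ 1) : False := by
  rw [abs_le] at e1 e2
  simp only [TbC, Set.mem_ofPred_eq] at hz hz'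
  rcases hz with ⟨a1, a2, a3⟩ | ⟨a1, a2, a3⟩ <;> rcases hz' with ⟨b1, b2, b3⟩ | ⟨b1, b2, b3⟩ <;>
    omega

lemma ext {N : ℕ} {h : ℤ} (hN : 4 ≤ N) (h1 : -(N : ℤ) + 3 ≤ h) (h2 : h + 3 ≤ N) (x y : ℤ)
    (hz : (x, y) ∈ TbC N h) : (N : ℤ) ≤ x ∧ x ≤ 9 * N - 4 ∧ -(N : ℤ) + 3 ≤ y ∧ y ≤ 7 * N - 1 := by
  simp only [TbC, Set.mem_ofPred_eq] at hz
  rcases hz with ⟨a1, a2, a3⟩ | ⟨a1, a2, a3⟩ <;> omega

end Tq1

theorem t_q1 : S_q1 := by
  intro N k c hN hA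
  obtain ⟨hA1, hA2⟩ := hA
  refine ⟨?_, ?_, ?_⟩
  · intro a a' s s' z z' hz hz' e1 e2
    have x1 := Tq1.ext hN (hA1 a).1 (hA1 a).2 _ _ hz
    have x2 := Tq1.ext hN (hA1 a').1 (hA1 a').2 _ _ hz'
    have hss : s = s' := by
      rw [abs_le] at e1 e2
      by_contra hne
      rcases lt_or_gt_of_ne hne with h | h
      · have := Tq1.mulgap N (show s + 1 ≤ s' by omega)
        omega
      · have := Tq1.mulgap N (show s' + 1 ≤ s by omega)
        omega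
    subst hss
    refine ⟨?_, rfl⟩
    by_contra hne
    rcases lt_or_gt_of_ne hne with h | h
    · exact Tq1.far hN (hA1 a).1 (hA1 a).2 (hA1 a').1 (hA1 a').2 (hA2 a a' h) _ z z' hz hz' e1 e2
    · rw [abs_sub_comm] at e1 e2
      exact Tq1.far hN (hA1 a').1 (hA1 a').2 (hA1 a).1 (hA1 a).2 (hA2 a' a h) _ z' z hz' hz e1 e2
  · intro a s s' z b hz hb e1 e2
    have x1 := Tq1.ext hN (hA1 a).1 (hA1 a).2 _ _ hz
    have hc := hA1 a
    rw [abs_le] at e1 e2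
    have hcase : s' = s ∨ s' = s + 1 := by
      by_contra hne
      push Not at hne
      rcases lt_trichotomy s' s with h | h | h
      · have := Tq1.mulgap N (show s' + 1 ≤ s by omega)
        omega
      · exact hne.1 h
      · have := Tq1.mulgap2 N (show s + 2 ≤ s' by omega)
        omega
    obtain ⟨z1, z2⟩ := z
    simp only [TubeC, TbC, Set.mem_ofPred_eq] at hz
    simp only at e1 e2
    rcases hcase with h | h
    · subst h
      left
      refine ⟨rfl, ?_⟩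
      rcases hz with ⟨a1, a2, a3⟩ | ⟨a1, a2, a3⟩
      · ext <;> simp only <;> omega
      · exfalso; omega
    · subst h
      right
      refine ⟨rfl, ?_⟩
      have hm : (s + 1) * (8 * (N : ℤ)) = s * (8 * N) + 8 * N := by ring
      rw [hm] at hb
      rcases hz with ⟨a1, a2, a3⟩ | ⟨a1, a2, a3⟩
      · exfalso; omega
      · ext <;> simp only <;> omega
  · intro a s z hz
    have hc := hA1 a
    obtain ⟨z1, z2⟩ := z
    simp only [TubeC, TbC, Set.mem_ofPred_eq] at hz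
    simp only
    have hm : 2 * s * (8 * (N : ℤ)) = 2 * (s * (8 * N)) := by ring
    rw [hm]
    rcases hz with ⟨a1, a2, a3⟩ | ⟨a1, a2, a3⟩ <;> omega

end Pool.Agent.W808.KC
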