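import Pool.Agent.W808.KC.Stm
import Pool.Agent.H160R2.MU.T_g4

/-! q4 (helper598): no checkerboard, periodicity, extent. -/

set_option autoImplicit false

namespace Pool.Agent.W808.KC

open Pool.Agent.H160R2.MU.Tg4 (Cor Nb)

namespace Tq4

lemma mulgap {s s' : ℤ} (N : ℕ) (h : s + 1 ≤ s') :
    s * (8 * (N : ℤ)) + 8 * N ≤ s' * (8 * N) := by
  have h0 : (0 : ℤ) ≤ 8 * (N : ℤ) := by positivity
  have := mul_le_mul_of_nonneg_right h h0
  linarith

variable {N k : ℕ} {c : Fin k → ℤ}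

lemma box_box (hN : 4 ≤ N) {s s' : ℤ} {z b : ℤ × ℤ}
    (hz : -(N : ℤ) ≤ z.1 - s * (8 * N) ∧ z.1 - s * (8 * N) < N ∧
      -(N : ℤ) ≤ z.2 - s * (8 * N) ∧ z.2 - s * (8 * N) < N)
    (hb : -(N : ℤ) ≤ b.1 - s' * (8 * N) ∧ b.1 - s' * (8 * N) < N ∧
      -(N : ℤ) ≤ b.2 - s' * (8 * N) ∧ b.2 - s' * (8 * N) < N)
    (hn : Nb z b) : Cor (BxQ N ∪ CrC N k c) z b := by
  obtain ⟨z1, z2⟩ := z
  obtain ⟨b1, b2⟩ := b
  obtain ⟨e1, e2⟩ := hn
  rw [abs_le] at e1 e2
  simp only at hz hb e1 e2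
  have hss : s = s' := by
    by_contra hne
    rcases lt_or_gt_of_ne hne with h | h
    · have := mulgap N (show s + 1 ≤ s' by omega)
      omega
    · have := mulgap N (show s' + 1 ≤ s by omega)
      omega
  subst hss
  left
  left
  exact ⟨s, by simp only; omega⟩

lemma tube_box (h1 : S_q1) (hN : 4 ≤ N) (hA : AdmC N k c) {a : Fin k} {s s' : ℤ} {z b : ℤ × ℤ}
    (hz : z ∈ TubeC N k c a s)
    (hb : -(N : ℤ) ≤ b.1 - s' * (8 * N) ∧ b.1 - s' * (8 * N) < N ∧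
      -(N : ℤ) ≤ b.2 - s' * (8 * N) ∧ b.2 - s' * (8 * N) < N)
    (hn : Nb z b) : Cor (BxQ N ∪ CrC N k c) z b := by
  have hc := hA.1 a
  rcases (h1 N k c hN hA).2.1 a s s' z b hz hb hn.1 hn.2 with ⟨e, e'⟩ | ⟨e, e'⟩
  · subst e e'
    right
    left
    exact ⟨s', by simp only; omega⟩
  · subst e e'
    left
    left
    refine ⟨s + 1, ?_⟩
    have hm : (s + 1) * (8 * (N : ℤ)) = s * (8 * N) + 8 * N := by ring
    rw [hm] at hb ⊢
    simp only
    omega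

lemma tube_tube (h1 : S_q1) (hN : 4 ≤ N) (hA : AdmC N k c) {a a' : Fin k} {s s' : ℤ}
    {z z' : ℤ × ℤ} (hz : z ∈ TubeC N k c a s) (hz' : z' ∈ TubeC N k c a' s') (hn : Nb z z') :
    Cor (BxQ N ∪ CrC N k c) z z' := by
  obtain ⟨e1, e2⟩ := (h1 N k c hN hA).1 a a' s s' z z' hz hz' hn.1 hn.2
  subst e1 e2
  have hc := hA.1 a
  obtain ⟨z1, z2⟩ := z
  obtain ⟨w1, w2⟩ := z'
  have hzz := hz
  have hzz' := hz'
  simp only [TubeC, TbC, Set.mem_ofPred_eq] at hz hz'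
  rcases hz with ⟨a1, a2, a3⟩ | ⟨a1, a2, a3⟩ <;> rcases hz' with ⟨b1, b2, b3⟩ | ⟨b1, b2, b3⟩
  · left
    right
    refine ⟨a, s, ?_⟩
    have : w2 = z2 := by omega
    simp only
    rw [this]
    exact hzz
  · right
    right
    refine ⟨a, s, ?_⟩
    simp only [TubeC, TbC, Set.mem_ofPred_eq]
    omega
  · left
    right
    refine ⟨a, s, ?_⟩
    simp only [TubeC, TbC, Set.mem_ofPred_eq]
    omega
  · right
    right
    refine ⟨a, s, ?_⟩
    have : w1 = z1 := by omega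
    simp only
    rw [this]
    exact hzz

lemma all (h1 : S_q1) (hN : 4 ≤ N) (hA : AdmC N k c) {z z' : ℤ × ℤ}
    (hz : z ∈ BxQ N ∪ CrC N k c) (hz' : z' ∈ BxQ N ∪ CrC N k c) (hn : Nb z z') :
    Cor (BxQ N ∪ CrC N k c) z z' := by
  have hn' : Nb z' z := by
    obtain ⟨h1, h2⟩ := hn
    exact ⟨by rwa [abs_sub_comm], by rwa [abs_sub_comm]⟩
  rcases hz with ⟨s, hz⟩ | ⟨a, s, hz⟩ <;> rcases hz' with ⟨s', hz'⟩ | ⟨a', s', hz'⟩
  · exact box_box hN hz hz' hn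
  · exact (tube_box h1 hN hA hz' hz hn').symm
  · exact tube_box h1 hN hA hz hz' hn
  · exact tube_tube h1 hN hA hz hz' hn

lemma shift {z : ℤ × ℤ} (s : ℤ) (hz : z ∈ BxQ N ∪ CrC N k c) :
    (z.1 - s * (8 * N), z.2 - s * (8 * N)) ∈ BxQ N ∪ CrC N k c := by
  obtain ⟨z1, z2⟩ := z
  rcases hz with ⟨t, hz⟩ | ⟨a, t, hz⟩
  · left
    refine ⟨t - s, ?_⟩
    have hm : (t - s) * (8 * (N : ℤ)) = t * (8 * N) - s * (8 * N) := by ring
    rw [hm]
    simp only at hz ⊢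
    omega
  · right
    refine ⟨a, t - s, ?_⟩
    have hm : (t - s) * (8 * (N : ℤ)) = t * (8 * N) - s * (8 * N) := by ring
    simp only [TubeC, TbC, Set.mem_ofPred_eq] at hz ⊢
    rw [hm]
    omega

end Tq4

open Tq4 in
theorem t_q4 (h1 : S_q1) : S_q4 := by
  intro N k c hN hA P hP
  subst hP
  refine ⟨?_, ?_, ?_, ?_⟩
  · intro x y ha hb
    by_contra hcon
    push Not at hcon
    have hnb : Nb (x + 1, y) (x, y + 1) := by
      constructor <;> simp
    rcases Tq4.all h1 hN hA hcon.1 hcon.2 hnb with h | h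
    · exact hb h
    · exact ha h
  · intro x y ha hb
    by_contra hcon
    push Not at hcon
    have hnb : Nb (x, y) (x + 1, y + 1) := by
      constructor <;> simp
    rcases Tq4.all h1 hN hA hcon.1 hcon.2 hnb with h | h
    · exact hb h
    · exact ha h
  · intro z s
    constructor
    · exact Tq4.shift s
    · intro h
      have h3 := Tq4.shift (-s) h
      simp only [neg_mul, sub_neg_eq_add, sub_add_cancel] at h3
      exact h3
  · intro z hz
    rcases hz with ⟨t, hz⟩ | ⟨a, t, hz⟩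
    · rw [abs_le]
      omega
    · have := (h1 N k c hN hA).2.2 a t z hz
      rw [abs_le]
      omega

end Pool.Agent.W808.KC
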