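import Pool.Agent.W808.HU.All
import Pool.Agent.W808.KC.T_AS
import Pool.Agent.W808.KC.T_BADQ
import Pool.Agent.W808.KC.T_CV
import Pool.Agent.W808.KC.T_DC
import Pool.Agent.W808.KC.T_DEC
import Pool.Agent.W808.KC.T_DET
import Pool.Agent.W808.KC.T_DETP
import Pool.Agent.W808.KC.T_END
import Pool.Agent.W808.KC.T_Ec
import Pool.Agent.W808.KC.T_Ei
import Pool.Agent.W808.KC.T_FIN
import Pool.Agent.W808.KC.T_Fc
import Pool.Agent.W808.KC.T_HV
import Pool.Agent.W808.KC.T_IND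
import Pool.Agent.W808.KC.T_INF
import Pool.Agent.W808.KC.T_KL
import Pool.Agent.W808.KC.T_LAND
import Pool.Agent.W808.KC.T_LIM
import Pool.Agent.W808.KC.T_LW
import Pool.Agent.W808.KC.T_M1
import Pool.Agent.W808.KC.T_M2
import Pool.Agent.W808.KC.T_MIR
import Pool.Agent.W808.KC.T_MON
import Pool.Agent.W808.KC.T_MRa
import Pool.Agent.W808.KC.T_MRb
import Pool.Agent.W808.KC.T_OW
import Pool.Agent.W808.KC.T_PG
import Pool.Agent.W808.KC.T_SEPA
import Pool.Agent.W808.KC.T_SEPB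
import Pool.Agent.W808.KC.T_SM
import Pool.Agent.W808.KC.T_SQ
import Pool.Agent.W808.KC.T_STA
import Pool.Agent.W808.KC.T_STB
import Pool.Agent.W808.KC.T_SW
import Pool.Agent.W808.KC.T_TK
import Pool.Agent.W808.KC.T_TP
import Pool.Agent.W808.KC.T_TR
import Pool.Agent.W808.KC.T_U
import Pool.Agent.W808.KC.T_deg
import Pool.Agent.W808.KC.T_flip
import Pool.Agent.W808.KC.T_mvR
import Pool.Agent.W808.KC.T_pex
import Pool.Agent.W808.KC.T_q1
import Pool.Agent.W808.KC.T_q3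
import Pool.Agent.W808.KC.T_q4
import Pool.Agent.W808.KC.T_sym

/-!
# Arms at a corner: assembly
-/

set_option autoImplicit false

namespace Pool.Agent.W808.KC
open Pool.Agent.H160R2

theorem a_legx : S_legx := t_legx t_Ez
theorem a_flip : S_flip := t_flip t_Ei t_Ec
theorem a_pex : S_pex := t_pex t_Ei t_Ec
theorem a_sym : S_sym := t_sym a_flip a_pex
theorem a_mvR : S_mvR := t_mvR t_Ei
theorem a_bs : S_bs := t_bs t_E1
theorem a_M1 : S_M1 := t_M1 a_legx a_sym a_mvR t_inv t_deg a_bs t_TP t_TR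
theorem a_M2 : S_M2 := t_M2 a_M1 t_deg t_TP
theorem a_KL : S_KL := t_KL t_U
theorem a_HV : S_HV := t_HV a_M2 t_TK a_KL
theorem a_MRb : S_MRb := t_MRb t_MRa HB.t_KR
theorem a_DC : S_DC := t_DC a_MRb
theorem a_CV : S_CV := t_CV t_SW
theorem a_PG : S_PG := t_PG t_OW t_SM
theorem a_HG : S_HG := t_HG a_PG
theorem a_LW : S_LW := t_LW a_PG
theorem a_LIM : S_LIM := t_LIM a_CV a_LW a_HV a_DC t_E1
theorem a_INF : S_INF := t_INF a_LIM
theorem a_q3 : S_q3 := t_q3 t_q1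
theorem a_q4 : S_q4 := t_q4 t_q1
theorem a_DET : S_DET := t_DET t_q1 a_q3 t_MIR
theorem a_DETP : S_DETP := t_DETP a_DET
theorem a_DEC : S_DEC := t_DEC t_MIR
theorem a_SQ : S_SQ := t_SQ t_MIR
theorem a_BADQ : S_BADQ := t_BADQ MU.t_BADP'
theorem a_SEPB : S_SEPB := t_SEPB t_q1 a_q4
theorem a_SEPA : S_SEPA := t_SEPA t_q1 a_q4
theorem a_STB : S_STB := t_STB MU.t_ABS MU.t_PRB a_SEPB HU.a_TRP a_BADQ a_DEC t_IND a_q4
theorem a_STA : S_STA := t_STA MU.t_ABS MU.t_PRB a_SEPA HU.a_TRP a_BADQ a_DEC t_IND a_q4 a_HG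
theorem a_FIN : S_FIN := t_FIN a_LIM
theorem a_RCR : S_RCR := t_RCR t_LAND a_DETP a_STA a_STB a_FIN t_AS
theorem a_UB : S_UB := t_UB a_RCR t_MON
theorem a_LB : S_LB := t_LB a_SQ a_LIM t_AS t_MON
theorem a_SHARP : S_SHARP := t_SHARP a_LB a_UB

end Pool.Agent.W808.KC
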