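import Pool.Agent.H988R2.Perc.T20
import Pool.Agent.H988R2.Perc.T24
import Pool.Agent.W808.HU.Stm

/-!
# Arms at a corner: definitions

Critical bond percolation on `ℤ²` in the half-infinite strip `x ≥ y`, `-1 ≤ x + y ≤ 2 n + 1`
(flat end `x = y`, two corners of angle `π / 2`) and in the quarter-plane `x ≥ y`, `-1 ≤ x + y`.
`m ≥ 2` legs at each of the corners; `m / 2` primal clusters and `(m - 1) / 2` dual clusters.
-/

set_option autoImplicit false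

namespace Pool.Agent.W808.KC
open H974 H906.Cyl
open H12S (Dir hbE segD rimE H4 Crs Nr sqE)
open Pool.Agent.H160R2.ML (nm Gn)
open Pool.Agent.H160R2.MU (EP inSq PC Cc)
open Pool.Agent.W808.HU (du PTr)
open Pool.Agent.H988R2.Perc (Word ins cap act rainbow Dyck LP Fw fac q)
open Pool.Agent.H988R2.Perc.T10 (pairs fA fB)
open Pool.Agent.W808.HB (prs Xf Yf vdx wdx bet xY Yv)

/-! ## the leg functional on (Dyck) words -/

/-- close the strands `m, m+1`, `M` times -/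
def capit (m : ℕ) : ℕ → Word → Word
  | 0, w => w
  | (M + 1), w => capit m M (cap m w)

/-- the first `m` strands are joined to the last `m` strands when the others are closed pairwise -/
def Gd (m : ℕ) (w : Word) : Prop := capit m ((w.length - 2 * m) / 2) w = rainbow m

instance (m : ℕ) (w : Word) : Decidable (Gd m w) := inferInstanceAs (Decidable (_ = _))

/-- its indicator -/
def el (m : ℕ) (w : Word) : ℂ := if Gd m w then 1 else 0

/-- the partition function with the legs `A` (left), `B` (right) and the other strands `z` -/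
noncomputable def GG (A z B : List ℂ) : ℂ :=
  ∑ w ∈ LP (A.length + z.length + B.length), el A.length w * Fw w (A ++ z ++ B)

/-- the normalisation -/
noncomputable def kap (m M : ℕ) : ℂ := (q - 1) ^ M * q ^ (M * (2 * m + M))

/-! ## the determinant -/

noncomputable def gs (x : ℂ) : ℂ := (x⁻¹ - q * x) * (x⁻¹ - q ^ 2 * x) / (x⁻¹ - x)

/-- the determinant with the legs `C` -/
noncomputable def TT (C : List ℂ) {M : ℕ} (x : Fin M → ℂ) : ℂ :=
  (Matrix.of fun i j : Fin M => gs (x j) * HB.lp q C (x j) / (Xf (x i) - Yf q (x j))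
    + gs (x j)⁻¹ * HB.lp q C (x j)⁻¹ / (Xf (x i) - Yf q (x j)⁻¹)).det

/-- the coefficients -/
def uc (t k l : ℕ) : ℕ := if k ≤ 2 * l + 1 then (t + 1 + k + l).choose (2 * l + 1 - k) else 0

noncomputable def Kf (t : ℕ) (b Y : ℂ) : ℂ :=
  (Y ^ (t + 1) / (1 - b * (Y * (Y - 1))) - Y⁻¹ ^ (t + 1) / (1 - b * (Y⁻¹ * (Y⁻¹ - 1)))) / (Y - Y⁻¹)

/-- the determinant of the coefficients (Mills, Robbins and Rumsey) -/
noncomputable def Dc (t M : ℕ) : ℝ := (Matrix.of fun k l : Fin M => (uc t k l : ℝ)).det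

/-- its value -/
noncomputable def Cn (t M : ℕ) : ℝ := ∏ i ∈ Finset.range M,
  (((2 * t + 3 * i + 2 : ℕ) : ℝ) * (i + 1).factorial *
      ∏ s ∈ Finset.range (i + 1), (((2 * t + 3 + 4 * i + 2 * s) * (2 * t + 1 + 2 * i + s) : ℕ) : ℝ)) /
    ((2 * i + 2).factorial * ∏ s ∈ Finset.range (i + 2), ((2 * t + 1 + 2 * i + 2 * s : ℕ) : ℝ))

/-- the probability of `m` legs at both corners, width `2 m + 2 M` -/
noncomputable def Pk (m M : ℕ) : ℝ := Cn (2 * m) M / Cn 2 (m + M - 1)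

/-- binomial coefficient with real upper entry -/
noncomputable def chR (x : ℝ) (n : ℕ) : ℝ := (∏ i ∈ Finset.range n, (x - i)) / n.factorial

/-- the coefficients for a real parameter (`uR (t + 1) = uc t`) -/
noncomputable def uR (p : ℝ) (k l : ℕ) : ℝ := if k ≤ 2 * l + 1 then chR (p + k + l) (2 * l + 1 - k) else 0

/-- coefficients of `Y ^ δ + Y ^ (-δ)` -/
noncomputable def cD (δ : ℝ) (j : ℕ) : ℝ := 2 * (∏ i ∈ Finset.range j, (δ ^ 2 - (i : ℝ) ^ 2)) / (2 * j).factorial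

/-! ## words: rows and faces -/

/-- tiles `1, …, L` (in this order); `true` = apply `act` -/
def fwdW : ℕ → (ℕ → Bool) → Word → Word
  | 0, _, w => w
  | L + 1, c, w => if c (L + 1) then act (L + 1) (fwdW L c w) else fwdW L c w

/-- tiles `L, …, 1` (in this order) -/
def bwdW : ℕ → (ℕ → Bool) → Word → Word
  | 0, _, w => w
  | L + 1, c, w => bwdW L c (if c (L + 1) then act (L + 1) w else w)

/-- a double row -/
def rowW (L : ℕ) (c c' : ℕ → Bool) (w : Word) : Word := cap 0 (bwdW L c' (fwdW L c (ins 0 w)))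

/-- `K` double rows -/
def XW (L : ℕ) (c : ℕ → ℕ → Bool) (w : Word) : ℕ → Word
  | 0 => w
  | K + 1 => rowW L (c (2 * K)) (c (2 * K + 1)) (XW L c w K)

/-- `()()…()` -/
def w0 (n : ℕ) : Word := (List.replicate n [true, false]).flatten

/-- extension of a row of bits to `ℕ` (tiles `1, …, L`) -/
def ex {L : ℕ} (c : Fin L → Bool) (i : ℕ) : Bool := if h : 1 ≤ i ∧ i ≤ L then c ⟨i - 1, by omega⟩ else false

/-- height of the face `i` -/
def hgt (w : Word) (i : ℕ) : ℤ := ((w.take i).count true : ℤ) - (w.take i).count false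

/-- the faces `a` and `b` are joined -/
def Fc (w : Word) (a b : ℕ) : Prop := hgt w a = hgt w b ∧ ∀ c, min a b ≤ c → c ≤ max a b → hgt w a ≤ hgt w c

/-- the leg event seen by the odd faces -/
def OC (m : ℕ) (w : Word) : Prop :=
  (∀ c d : ℕ, c % 2 = 1 → d % 2 = 1 → c < m → d < m → c ≠ d → ¬ Fc w c d) ∧
  (∀ c : ℕ, c % 2 = 1 → c < m → ∃ d : ℕ, d % 2 = 1 ∧ d < m ∧ Fc w c (w.length - d)) ∧
  (m % 2 = 1 → ∀ c d : ℕ, c % 2 = 1 → c < m → d % 2 = 1 → m ≤ d → d + m ≤ w.length → ¬ Fc w c d)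

/-- the leg event seen by the even faces -/
def EC (m : ℕ) (w : Word) : Prop :=
  (∀ c d : ℕ, c % 2 = 0 → d % 2 = 0 → 1 ≤ c → 1 ≤ d → c < m → d < m → c ≠ d → ¬ Fc w c d) ∧
  (∀ c : ℕ, c % 2 = 0 → 1 ≤ c → c < m → ∃ d : ℕ, d % 2 = 0 ∧ 1 ≤ d ∧ d < m ∧ Fc w c (w.length - d)) ∧
  (∀ c : ℕ, c % 2 = 0 → 1 ≤ c → c < m → ¬ Fc w c 0) ∧
  (m % 2 = 0 → ∀ c d : ℕ, c % 2 = 0 → c < m → d % 2 = 0 → m ≤ d → d + m ≤ w.length → ¬ Fc w c d)

/-- law of the word after `K` double rows of fair bits (width `2 n`) -/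
noncomputable def lawW (n : ℕ) : ℕ → Word → ℝ
  | 0, w => if w = w0 n then 1 else 0
  | K + 1, w' => (∑ w ∈ LP (2 * n), ∑ c : Fin (2 * n) → Bool, ∑ c' : Fin (2 * n) → Bool,
      if rowW (2 * n) (ex c) (ex c') w = w' then lawW n K w else 0) / 4 ^ (2 * n)

/-! ## the strip and the quarter-plane -/

/-- the edges of the half-infinite strip `x ≥ y`, `-1 ≤ x + y ≤ 2 n + 1` -/
def Ss (n : ℕ) : Set Edg := {e | 0 ≤ dco e ∧ -1 ≤ e.1 + e.2.1 ∧ e.1 + e.2.1 ≤ 2 * n}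

/-- the edges of the strip at depth `< M` -/
noncomputable def SE (n M : ℕ) : Finset Edg :=
  (Finset.range (2 * n + 2) ×ˢ Finset.range M).image (fun p => edz ((p.1 : ℤ) - 1) (p.2 : ℤ))

/-- the edges of the box `|v| ≤ R` of the quarter-plane `x ≥ y`, `-1 ≤ x + y` -/
def qbx (R : ℤ) : Set Edg := {e | 0 ≤ dco e ∧ -1 ≤ e.1 + e.2.1 ∧ nm (src e) ≤ R ∧ nm (tgt e) ≤ R}

/-- the vertex (or face) number `i` of the flat side -/
def cv (i : ℕ) : Vtx := ((i : ℤ), (i : ℤ))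

/-- counted from the right corner -/
def cw (n i : ℕ) : Vtx := ((n : ℤ) - i, (n : ℤ) - i)

/-- the arm event at the corner: the vertices `(i, i)`, `i < m / 2`, are in different clusters of the box
of the quarter-plane, which reach distance `R`, and, if `m` is odd, do not touch the rest of the flat
side -/
def SEq (m : ℕ) (R : ℤ) (G : Set Edg) : Prop :=
  (∀ i j : ℕ, i < m / 2 → j < m / 2 → i ≠ j → ¬ Reach (G ∩ qbx R) (cv i) (cv j)) ∧
  (∀ i : ℕ, i < m / 2 → ∃ y : Vtx, nm y = R ∧ Reach (G ∩ qbx R) (cv i) y) ∧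
  (m % 2 = 1 → ∀ i j : ℕ, i < m / 2 → m / 2 ≤ j → (j : ℤ) ≤ R → ¬ Reach (G ∩ qbx R) (cv i) (cv j))

/-- its probability -/
noncomputable def sPq (m R : ℕ) : ℝ :=
  Pr (fun _ => (1 / 2 : ℝ)) (boxE R) (fun F => SEq m R (↑F : Set Edg))

/-- the leg event in the strip, open clusters -/
def P0 (n m : ℕ) (G : Set Edg) : Prop :=
  (∀ i j : ℕ, i < m / 2 → j < m / 2 → i ≠ j → ¬ Reach (G ∩ Ss n) (cv i) (cv j)) ∧
  (∀ i : ℕ, i < m / 2 → ∃ j : ℕ, j < m / 2 ∧ Reach (G ∩ Ss n) (cv i) (cw n j)) ∧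
  (m % 2 = 1 → ∀ i j : ℕ, i < m / 2 → m / 2 ≤ j → j + m / 2 ≤ n → ¬ Reach (G ∩ Ss n) (cv i) (cv j))

/-- the clusters of the corner stay at depth `< M` -/
def Shl (n m M : ℕ) (G : Set Edg) : Prop :=
  ∀ (i : ℕ) (u : Vtx), i < m / 2 → Reach (G ∩ Ss n) (cv i) u → u.1 - u.2 < M

/-- its probability in the finite strip -/
noncomputable def pS (n m M : ℕ) : ℝ :=
  Pr (fun _ => (1 / 2 : ℝ)) (SE n M) (fun F => P0 n m (↑F : Set Edg))

/-- the dual edges of the strip which cross a closed edge (the face of lower left corner `v` is called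
`v`) -/
def dlq (n : ℕ) (G : Set Edg) : Set Edg := {e | du e ∈ Ss n ∧ du e ∉ G}

/-- the faces of the two walls -/
def Wl (n : ℕ) (v : Vtx) : Prop := v.2 ≤ v.1 ∧ (v.1 + v.2 = -2 ∨ v.1 + v.2 = 2 * n)

/-- the leg event in the strip, dual clusters -/
def P1 (n m : ℕ) (G : Set Edg) : Prop :=
  (∀ i j : ℕ, i < (m - 1) / 2 → j < (m - 1) / 2 → i ≠ j → ¬ Reach (dlq n G) (cv i) (cv j)) ∧
  (∀ i : ℕ, i < (m - 1) / 2 → ∃ j : ℕ, j < (m - 1) / 2 ∧ Reach (dlq n G) (cv i) (cw n (j + 1))) ∧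
  (∀ (i : ℕ) (v : Vtx), i < (m - 1) / 2 → Wl n v → ¬ Reach (dlq n G) (cv i) v) ∧
  (m % 2 = 0 → ∀ j : ℕ, m / 2 ≤ j + 1 → j + m / 2 ≤ n →
    (∀ i : ℕ, i < (m - 1) / 2 → ¬ Reach (dlq n G) (cv i) (cv j)) ∧
    ∀ v : Vtx, Wl n v → ¬ Reach (dlq n G) v (cv j))

/-- links of the points `(j, t)` of the strip (`0 ≤ j ≤ 2 n + 2`): open edges (`j + t` odd), dual edges
and walls (`j + t` even) -/
inductive SL (n : ℕ) (G : Set Edg) : ℤ × ℤ → ℤ × ℤ → Prop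
  | prim (e : Edg) : e ∈ G → e ∈ Ss n →
      SL n G ((src e).1 + (src e).2 + 1, (src e).1 - (src e).2)
        ((tgt e).1 + (tgt e).2 + 1, (tgt e).1 - (tgt e).2)
  | dual (e : Edg) : du e ∉ G → du e ∈ Ss n →
      SL n G ((src e).1 + (src e).2 + 2, (src e).1 - (src e).2)
        ((tgt e).1 + (tgt e).2 + 2, (tgt e).1 - (tgt e).2)
  | wallL (s : ℕ) : SL n G (0, 2 * s) (0, 2 * s + 2)
  | wallR (s : ℕ) : SL n G (2 * n + 2, 2 * s) (2 * n + 2, 2 * s + 2)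

/-- the bits of the rows: row `k` is the depth `2 K - 1 - k`; tile `i` is the edge
`edz (i - 2) (2 K - 1 - k)` -/
def cF (K : ℕ) (F : Set Edg) [DecidablePred (· ∈ F)] (k i : ℕ) : Bool :=
  if i % 2 = 1 then decide (edz ((i : ℤ) - 2) (2 * K - 1 - k) ∈ F)
  else !decide (edz ((i : ℤ) - 2) (2 * K - 1 - k) ∈ F)

/-! ## mirror image (exchange of the two corners) -/

/-- `(x, y) ↦ (n - y, n - x)` on edges -/
def mirE (n : ℕ) (e : Edg) : Edg :=
  if e.2.2 then ((n : ℤ) - e.2.1, (n : ℤ) - e.1 - 1, false) else ((n : ℤ) - e.2.1 - 1, (n : ℤ) - e.1, true)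

def mirG (n : ℕ) (G : Set Edg) : Set Edg := {e | mirE n e ∈ G}

/-! ## coarse geometry: boxes of radius `N` at the multiples of `(8 N, 8 N)` -/

/-- the boxes -/
def BxQ (N : ℕ) : Set (ℤ × ℤ) := {z | ∃ s : ℤ, -(N : ℤ) ≤ z.1 - s * (8 * N) ∧ z.1 - s * (8 * N) < N ∧
  -(N : ℤ) ≤ z.2 - s * (8 * N) ∧ z.2 - s * (8 * N) < N}

/-- admissible heights of the landing cells `(N, c a)` -/
def AdmC (N k : ℕ) (c : Fin k → ℤ) : Prop :=
  (∀ a, -(N : ℤ) + 3 ≤ c a ∧ c a + 3 ≤ N) ∧ (∀ a b, a < b → c b + 2 ≤ c a)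

/-- the tube from the cell `(N, h)` to its mirror image `(8 N - 1 - h, 7 N - 1)` -/
def TbC (N : ℕ) (h : ℤ) : Set (ℤ × ℤ) := {z | (z.2 = h ∧ (N : ℤ) ≤ z.1 ∧ z.1 ≤ 8 * N - 1 - h) ∨
  (z.1 = 8 * N - 1 - h ∧ h ≤ z.2 ∧ z.2 ≤ 7 * N - 1)}

/-- the tube number `a` between the boxes `s` and `s + 1` -/
def TubeC (N k : ℕ) (c : Fin k → ℤ) (a : Fin k) (s : ℤ) : Set (ℤ × ℤ) :=
  {z | (z.1 - s * (8 * N), z.2 - s * (8 * N)) ∈ TbC N (c a)}

def CrC (N k : ℕ) (c : Fin k → ℤ) : Set (ℤ × ℤ) := {z | ∃ a s, z ∈ TubeC N k c a s}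

/-! ## the configurations of the steps: `n = 8 N r`, period `2 n`, `M = 8 n` -/

/-- the clusters land at the cells `(N, c a)`, and different cells are not connected -/
def LandC (N r m : ℕ) (c : Fin (m / 2) → ℤ) (G : Set Edg) : Prop :=
  (∃ π : Fin (m / 2) → ℕ, Function.Injective π ∧ ∀ a, π a < m / 2 ∧
    ∃ v : Vtx, inSq r ((N : ℤ), c a) v ∧ nm v = (N * r : ℕ) ∧
      Reach (G ∩ qbx (N * r : ℕ)) (cv (π a)) v) ∧
  (∀ a b, a ≠ b → ∀ u v : Vtx, inSq r ((N : ℤ), c a) u → nm u = (N * r : ℕ) →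
    inSq r ((N : ℤ), c b) v → nm v = (N * r : ℕ) → ¬ Reach (G ∩ qbx (N * r : ℕ)) u v) ∧
  (m % 2 = 1 → ∀ a, ∀ v : Vtx, inSq r ((N : ℤ), c a) v → nm v = (N * r : ℕ) →
    ∀ j : ℕ, m / 2 ≤ j → j ≤ N * r → ¬ Reach (G ∩ qbx (N * r : ℕ)) v (cv j))

open Classical in
/-- boxes random, tubes open, the rest closed -/
noncomputable def FA (N r k : ℕ) (c : Fin k → ℤ) (n M : ℕ) (F : Finset Edg) : Finset Edg :=
  (CE (2 * n) M).filter (fun e => (e ∈ EP r (BxQ N) ∧ e ∈ F) ∨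
    (e ∉ EP r (BxQ N) ∧ e ∈ EP r (CrC N k c)))

open Classical in
/-- boxes and tubes random, the rest closed -/
noncomputable def FB (N r k : ℕ) (c : Fin k → ℤ) (n M : ℕ) (F : Finset Edg) : Finset Edg :=
  (CE (2 * n) M).filter (fun e => (e ∈ EP r (BxQ N) ∨ e ∈ EP r (CrC N k c)) ∧ e ∈ F)

/-- bad event outside the boxes: an arm near a coarse vertex or three arms along a coarse line -/
def BadQ (c N r ρ l n M : ℕ) (F : Finset Edg) : Prop :=
  (∃ ζ : ℤ × ℤ, |ζ.1 - ζ.2| ≤ 32 * N ∧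
    (∀ s : ℤ, (N : ℤ) ≤ |ζ.1 - s * (8 * N)| ∨ (N : ℤ) ≤ |ζ.2 - s * (8 * N)|) ∧
    Crs (r * ζ.1) (r * ζ.2) (4 * ρ) (r / 2) (Cc c (2 * n) M F)) ∨
  (∃ (d : Dir) (x0 y0 i j : ℤ), |x0 - y0| ≤ 4 * n ∧
    (∀ s : ℤ, (N : ℤ) * r - 1 ≤ |x0 - s * n| ∨ (N : ℤ) * r - 1 ≤ |y0 - s * n|) ∧
    (((d = Dir.up ∨ d = Dir.dn) ∧ x0 = l * i ∧ (y0 = r * j ∨ y0 = r * j - 1)) ∨
      ((d = Dir.rt ∨ d = Dir.lf) ∧ y0 = l * i ∧ (x0 = r * j ∨ x0 = r * j - 1))) ∧
    H4 d x0 y0 (8 * l) ρ (Cc c (2 * n) M F))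

/-- the marked faces of class 1: the flat side, the walls and the closed region -/
def XA (N r k : ℕ) (c : Fin k → ℤ) (n : ℕ) (p : Vtx) : Prop := p.1 = p.2 ∨ Wl n p ∨
  ∃ e : Edg, du e ∈ Ss n ∧ du e ∉ EP r (BxQ N) ∧ du e ∉ EP r (CrC N k c) ∧ (src e = p ∨ tgt e = p)

end Pool.Agent.W808.KC
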