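import Pool.Agent.W808.KC.Defs

/-!
# Arms at a corner: the steps
(every step is a `Prop`; the file `T_X.lean` proves `t_X` from its hypotheses)
-/

set_option autoImplicit false

namespace Pool.Agent.W808.KC
open H974 H906.Cyl
open H12S (Dir hbE segD rimE H4 Crs Nr sqE)
open Pool.Agent.H160R2.ML (nm Gn)
open Pool.Agent.H160R2.MU (EP inSq PC Cc)
open Pool.Agent.W808.HU (du PTr)
open Pool.Agent.H988R2.Perc (Word ins cap act rainbow Dyck LP Fw fac q)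
open Pool.Agent.H988R2.Perc.T10 (pairs fA fB)
open Pool.Agent.W808.HB (prs Xf Yf vdx wdx bet xY Yv)
open Filter Topology MeasureTheory

/-! ## E: the leg functional -/

/-- arcs inside the left or the right legs -/
def S_Ez : Prop := ∀ (m M i : ℕ) (u : Word), Dyck u → u.length + 2 = 2 * m + 2 * M → i ≤ u.length →
  (i + 2 ≤ m ∨ m + 2 * M ≤ i) → ¬ Gd m (ins i u)

def S_Ei : Prop := ∀ (m M i : ℕ) (u : Word), Dyck u → u.length = 2 * m + 2 * M → i ≤ u.length →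
  m ≤ i + 1 → i ≤ m + 2 * M + 1 → (Gd m (ins i u) ↔ Gd m u)

def S_Ec : Prop := ∀ (m M j : ℕ) (w : Word), Dyck w → w.length = 2 * m + 2 * M + 2 → j ≤ M →
  (Gd m (cap (m + 2 * j) w) ↔ Gd m w)

def S_E1 : Prop := (∀ w : Word, Dyck w → 2 ≤ w.length → Gd 1 w) ∧
  (∀ (m : ℕ) (w : Word), w.length = 2 * m → (Gd m w ↔ w = rainbow m))

/-! ## G: the partition function with legs -/

/-- exchange of left legs -/
def S_legx : Prop := ∀ (u v z B : List ℂ) (x y : ℂ), u.length + v.length + 2 = B.length →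
  Even z.length →
  (q * x - q ^ 2 * y) * GG (u ++ y :: x :: v) z B = (q * y - q ^ 2 * x) * GG (u ++ x :: y :: v) z B

/-- exchange inside a pair -/
def S_flip : Prop := ∀ (A B u v : List ℂ) (x y : ℂ), A.length = B.length → Even u.length →
  Even v.length → q * x - q ^ 2 * y ≠ 0 →
  GG A (u ++ y :: x :: v) B = GG A (u ++ x :: y :: v) B

/-- exchange of pairs -/
def S_pex : Prop := ∀ (A B u v : List ℂ) (x y : ℂ), A.length = B.length → Even u.length →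
  Even v.length → Gn [x, x⁻¹, y, y⁻¹] →
  GG A (u ++ x :: x⁻¹ :: y :: y⁻¹ :: v) B = GG A (u ++ y :: y⁻¹ :: x :: x⁻¹ :: v) B

/-- symmetry in the pairs -/
def S_sym : Prop := ∀ (A B l : List ℂ), A.length = B.length → Gn (prs l) →
  (∀ l' : List ℂ, l.Perm l' → GG A (prs l) B = GG A (prs l') B) ∧
  (∀ (u v : List ℂ) (x : ℂ), l = u ++ x :: v → GG A (prs (u ++ x⁻¹ :: v)) B = GG A (prs l) B)

/-- recursion at the last left leg -/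
def S_mvR : Prop := ∀ (A z B : List ℂ) (a y : ℂ), A.length + 1 = B.length → Even z.length →
  GG (A ++ [a]) ((q ^ 2 * a) :: y :: z) B = fac a (A ++ y :: z ++ B) * GG (A ++ [y]) z B

/-- inversion of the first left leg -/
def S_inv : Prop := ∀ (A z B : List ℂ) (a : ℂ), a ≠ 0 → A.length + 1 = B.length → Even z.length →
  GG (a :: A) z B = a ^ (2 * B.length + z.length - 2) * GG (a⁻¹ :: A) z B

/-- polynomial in every left leg -/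
def S_deg : Prop := ∀ (u v z B : List ℂ), u.length + v.length + 1 = B.length → Even z.length →
  ∃ P : Polynomial ℂ, P.natDegree ≤ 2 * B.length + z.length - 2 ∧
    ∀ x, P.eval x = GG (u ++ x :: v) z B

/-- no other strands -/
def S_bs : Prop := ∀ (A B : List ℂ), A.length = B.length → GG A [] B = pairs fA A * pairs fB B

/-! ## T: the determinant -/

/-- polynomial in a leg; symmetric; invariant under the inversions -/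
def S_TP : Prop := ∀ (C : List ℂ) (M : ℕ) (x : Fin M → ℂ),
  (∃ P : Polynomial ℂ, P.natDegree ≤ 2 * M ∧ ∀ a, P.eval a = TT (a :: C) x) ∧
  (∀ C', C.Perm C' → TT C x = TT C' x) ∧
  (∀ s : Equiv.Perm (Fin M), TT C (x ∘ s) = TT C x) ∧
  (∀ i, x i ≠ 0 → TT C (Function.update x i (x i)⁻¹) = TT C x) ∧
  ((∀ i, x i ≠ 0) → ∀ a, a ≠ 0 → TT (a⁻¹ :: C) x * a ^ (2 * M) = TT (a :: C) x)

/-- recursion -/
def S_TR : Prop := ∀ (C : List ℂ) (M : ℕ) (x0 : ℂ) (x : Fin M → ℂ),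
  Gn (prs (x0 :: List.ofFn x)) →
  TT ((q * x0⁻¹) :: C) (Fin.cons x0 x : Fin (M + 1) → ℂ) * ∏ j, (Xf (x j) - Yf q x0) ^ 2
    = q ^ (M + 2) * x0⁻¹ ^ (2 * M + 1) * (x0⁻¹ - q * x0) * HB.lp q C x0
      * (∏ j, (Xf x0 - Xf (x j)) ^ 2) * TT (x0 :: C) x

/-- **the exact formula** (generic parameters) -/
def S_M1 : Prop := ∀ (m M : ℕ), 1 ≤ m → ∀ (A B : List ℂ) (x : Fin M → ℂ), A.length = m →
  B.length = m → Gn (prs (A ++ List.ofFn x)) →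
  GG A (prs (List.ofFn x)) B * vdx x ^ 2 =
    kap m M * (pairs fA A * pairs fB B) * (wdx x * TT (A ++ B) x)

/-- the same for arbitrary legs -/
def S_M2 : Prop := ∀ (m M : ℕ), 1 ≤ m → ∀ (A B : List ℂ) (x : Fin M → ℂ), A.length = m →
  B.length = m → Gn (prs (List.ofFn x)) →
  GG A (prs (List.ofFn x)) B * vdx x ^ 2 =
    kap m M * (pairs fA A * pairs fB B) * (wdx x * TT (A ++ B) x)

/-! ## H: the homogeneous limit -/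

/-- expansions -/
def S_U : Prop := ∀ (t k : ℕ) (Y : ℂ), Y ≠ 0 → Y - Y⁻¹ ≠ 0 →
  (Y ^ (t + 1) * (Y * (Y - 1)) ^ k - Y⁻¹ ^ (t + 1) * (Y⁻¹ * (Y⁻¹ - 1)) ^ k) / (Y - Y⁻¹)
  = ∑ l ∈ Finset.range (t + 2 * k + 1), (uc t k l : ℂ) * bet Y ^ l

/-- limit of the determinant -/
def S_KL : Prop := ∀ t M : ℕ,
  Tendsto (fun s : ℝ => (Matrix.of fun i j : Fin M => Kf t (bet (Yv s i)) (Yv s j)).det
      / (Matrix.vandermonde (fun i : Fin M => bet (Yv s i))).det ^ 2) (𝓝[>] 0)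
    (𝓝 (Matrix.of fun k l : Fin M => (uc t k l : ℂ)).det)

/-- the determinant in the variables `Y` -/
def S_TK : Prop := ∀ (t M : ℕ) (Y : Fin M → ℝ), (∀ i, 0 < Y i) → (∀ i, Y i ≠ 1) →
  (∀ i j, 1 - bet (Y i) * ((Y j : ℂ) * (Y j - 1)) ≠ 0) →
  (∀ i j, 1 - bet (Y i) * ((Y j : ℂ)⁻¹ * ((Y j : ℂ)⁻¹ - 1)) ≠ 0) →
  TT (List.replicate t 1) (fun i => xY q (Y i)) * ∏ j, (1 + bet (Y j)) ^ t
    = (3 ^ t * q ^ 2 / (q - 1)) ^ M * (∏ j, (1 + bet (Y j))) * (∏ j, (1 - 2 * bet (Y j)))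
      * (Matrix.of fun i j : Fin M => Kf t (bet (Y i)) (Y j)).det

/-- the homogeneous value -/
def S_HV : Prop := ∀ m M : ℕ, 1 ≤ m →
  GG (List.replicate m 1) (List.replicate (2 * M) 1) (List.replicate m 1)
    = (3 * q) ^ ((m + M) * (m + M - 1)) * (Dc (2 * m) M : ℂ)

/-! ## D: evaluation and asymptotics -/

/-- multiplication by `Y ^ δ + Y ^ (-δ)` -/
def S_MRa : Prop := ∀ (x δ : ℝ) (k l : ℕ),
  ∑ l' ∈ Finset.range (l + 1), cD δ (l - l') * uR x k l' = uR (x + δ) k l + uR (x - δ) k l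

/-- value of the determinant at half-integers, from Krattenthaler's determinant -/
def S_MRb : Prop := ∀ (M ν : ℕ), 3 ≤ ν →
  (Matrix.of fun k l : Fin M => uR ((ν : ℝ) - 1 / 2) k l).det =
    ∏ i ∈ Finset.range M,
      ((2 * ((ν : ℝ) - 1 / 2) + 3 * i) * (i + 1).factorial *
        ∏ s ∈ Finset.range (i + 1), ((2 * ((ν : ℝ) - 1 / 2) + 1 + 4 * i + 2 * s) *
          (2 * ((ν : ℝ) - 1 / 2) - 1 + 2 * i + s))) /
      ((2 * i + 2).factorial * ∏ s ∈ Finset.range (i + 2), (2 * ((ν : ℝ) - 1 / 2) - 1 + 2 * i + 2 * s))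

def S_DC : Prop := ∀ t M : ℕ, Dc t M = Cn t M

def S_AS : Prop := ∀ m : ℕ, 1 ≤ m → ∃ c C : ℝ, 0 < c ∧ 0 < C ∧ ∀ M : ℕ,
  c * ((M : ℝ) + 1) ^ (-(2 * (m : ℝ) * (m - 1) / 3)) ≤ Pk m M ∧
  Pk m M ≤ C * ((M : ℝ) + 1) ^ (-(2 * (m : ℝ) * (m - 1) / 3))

/-! ## P: probability in the strip -/

/-- stationarity of the vector `Fw` (width `2 n`) -/
def S_SW : Prop := ∀ n : ℕ, 1 ≤ n → ∀ w' ∈ LP (2 * n),
  ∑ w ∈ LP (2 * n), ∑ c : Fin (2 * n) → Bool, ∑ c' : Fin (2 * n) → Bool,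
    (if rowW (2 * n) (ex c) (ex c') w = w' then Fw w (List.replicate (2 * n) 1) else 0)
    = 4 ^ (2 * n) * Fw w' (List.replicate (2 * n) 1)

/-- convergence of the law of the word -/
def S_CV : Prop := ∀ n : ℕ, 1 ≤ n → (∑ w ∈ LP (2 * n), Fw w (List.replicate (2 * n) 1)) ≠ 0 →
  ∀ w ∈ LP (2 * n), Tendsto (fun K => (lawW n K w : ℂ)) atTop
    (𝓝 (Fw w (List.replicate (2 * n) 1) / ∑ w' ∈ LP (2 * n), Fw w' (List.replicate (2 * n) 1)))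

/-- one class is enough (words) -/
def S_OW : Prop := ∀ (m : ℕ) (w : Word), 2 ≤ m → Dyck w → 2 * m ≤ w.length →
  (OC m w ↔ Gd m w) ∧ (EC m w ↔ Gd m w)

open Classical in
/-- connections in the finite strip and faces of the word -/
def S_SM : Prop := ∀ (n K : ℕ) (G : Set Edg), (∀ e ∈ G, dco e < 2 * K) →
  XW (2 * n + 2) (cF K G) (w0 (n + 1)) K ∈ LP (2 * n + 2) ∧
  ∀ a b : ℕ, a ≤ 2 * n + 2 → b ≤ 2 * n + 2 →
    (Fc (XW (2 * n + 2) (cF K G) (w0 (n + 1)) K) a b ↔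
      Relation.EqvGen (SL n G) ((a : ℤ), 0) ((b : ℤ), 0))

open Classical in
/-- the leg events and the word -/
def S_PG : Prop := ∀ (n m K : ℕ) (G : Set Edg), 2 ≤ m → m ≤ n + 1 → (∀ e ∈ G, dco e < 2 * K) →
  (P0 n m G ↔ Gd m (XW (2 * n + 2) (cF K G) (w0 (n + 1)) K)) ∧
  (P1 n m G ↔ Gd m (XW (2 * n + 2) (cF K G) (w0 (n + 1)) K))

/-- one class is enough (configurations) -/
def S_HG : Prop := ∀ (n m M : ℕ) (G : Set Edg), 2 ≤ m → m ≤ n + 1 → (∀ e ∈ G, dco e < M) →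
  (P0 n m G ↔ P1 n m G)

/-- probability in the finite strip and law of the word -/
def S_LW : Prop := ∀ (n m K : ℕ), 2 ≤ m → m ≤ n + 1 →
  pS n m (2 * K) = ∑ w ∈ LP (2 * n + 2), if Gd m w then lawW (n + 1) K w else 0

/-- **the exact law**: limit of the probabilities in the finite strips -/
def S_LIM : Prop := ∀ (n m : ℕ), 2 ≤ m → m ≤ n + 1 →
  Tendsto (fun K => pS n m (2 * K)) atTop (𝓝 (Pk m (n + 1 - m)))

/-- **the exact law** in the half-infinite strip -/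
def S_INF : Prop := ∀ (n m : ℕ), 2 ≤ m → m ≤ n + 1 →
  Pool.Agent.H988R2.Perc.perc.real {ω | P0 n m {e | ω e = true}} = Pk m (n + 1 - m)

/-! ## coarse geometry -/

/-- the tubes are far from each other and from the boxes, away from the sides, connected -/
def S_q1 : Prop := ∀ (N k : ℕ) (c : Fin k → ℤ), 4 ≤ N → AdmC N k c →
  (∀ (a a' : Fin k) (s s' : ℤ) (z z' : ℤ × ℤ), z ∈ TubeC N k c a s → z' ∈ TubeC N k c a' s' →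
    |z.1 - z'.1| ≤ 1 → |z.2 - z'.2| ≤ 1 → a = a' ∧ s = s') ∧
  (∀ (a : Fin k) (s s' : ℤ) (z b : ℤ × ℤ), z ∈ TubeC N k c a s →
    (-(N : ℤ) ≤ b.1 - s' * (8 * N) ∧ b.1 - s' * (8 * N) < N ∧
      -(N : ℤ) ≤ b.2 - s' * (8 * N) ∧ b.2 - s' * (8 * N) < N) →
    |z.1 - b.1| ≤ 1 → |z.2 - b.2| ≤ 1 →
    (s' = s ∧ z = (s * (8 * N) + N, s * (8 * N) + c a)) ∨
      (s' = s + 1 ∧ z = (s * (8 * N) + (8 * N - 1 - c a), s * (8 * N) + (7 * N - 1)))) ∧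
  (∀ (a : Fin k) (s : ℤ) (z : ℤ × ℤ), z ∈ TubeC N k c a s → 3 ≤ z.1 - z.2 ∧ z.1 - z.2 ≤ 10 * N ∧
    3 ≤ z.1 + z.2 - 2 * s * (8 * N) ∧ z.1 + z.2 - 2 * s * (8 * N) ≤ 2 * (8 * N) - 5)

def S_q3 : Prop := ∀ (N k : ℕ) (c : Fin k → ℤ), 4 ≤ N → AdmC N k c →
  ∀ (r : ℕ) (a : Fin k) (s : ℤ) (z z' : ℤ × ℤ) (u v : Vtx), 1 ≤ r → z ∈ TubeC N k c a s →
    z' ∈ TubeC N k c a s → inSq r z u → inSq r z' v →
    Reach (EP r (TubeC N k c a s) \ EP r (BxQ N)) u v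

/-- no checkerboard, periodicity -/
def S_q4 : Prop := ∀ (N k : ℕ) (c : Fin k → ℤ), 4 ≤ N → AdmC N k c →
  ∀ P : Set (ℤ × ℤ), P = BxQ N ∪ CrC N k c →
  (∀ x y : ℤ, (x, y) ∉ P → (x + 1, y + 1) ∉ P → (x + 1, y) ∉ P ∨ (x, y + 1) ∉ P) ∧
  (∀ x y : ℤ, (x + 1, y) ∉ P → (x, y + 1) ∉ P → (x, y) ∉ P ∨ (x + 1, y + 1) ∉ P) ∧
  (∀ (z : ℤ × ℤ) (s : ℤ), z ∈ P ↔ (z.1 - s * (8 * N), z.2 - s * (8 * N)) ∈ P) ∧
  (∀ z ∈ P, |z.1 - z.2| ≤ 10 * N)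

/-! ## deterministic steps -/

/-- the mirror image -/
def S_MIR : Prop := ∀ (n m : ℕ) (G : Set Edg),
  (∀ e : Edg, mirE n (mirE n e) = e ∧ dco (mirE n e) = dco e ∧
    (mirE n e).1 + (mirE n e).2.1 = 2 * n - 1 - (e.1 + e.2.1)) ∧
  (P0 n m (mirG n G) ↔ P0 n m G)

def S_DET : Prop := ∀ (N r m : ℕ) (c : Fin (m / 2) → ℤ), 2 ≤ m → m + 4 ≤ N → 2 ≤ r →
  AdmC N (m / 2) c → ∀ (n M : ℕ), n = 8 * N * r → M = 8 * n → ∀ F : Finset Edg, F ⊆ CE (2 * n) M →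
  LandC N r m c (per (2 * n) F) → LandC N r m c (mirG n (per (2 * n) F)) →
  P0 n m (per (2 * n) (FA N r (m / 2) c n M F))

def S_DETP : Prop := ∀ (N r m : ℕ) (c : Fin (m / 2) → ℤ), 2 ≤ m → m + 4 ≤ N → 2 ≤ r →
  AdmC N (m / 2) c → ∀ (n M : ℕ), n = 8 * N * r → M = 8 * n →
  Pr (fun _ => (1 / 2 : ℝ)) (boxE (N * r)) (fun F => LandC N r m c (↑F : Set Edg)) ^ 2 ≤
    PC (2 * n) M (fun F => P0 n m (per (2 * n) (FA N r (m / 2) c n M F)))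

/-- the leg event implies the arm events at both corners -/
def S_DEC : Prop := ∀ (n M m R : ℕ), 2 ≤ m → m ≤ R → 4 * R ≤ n → 2 * R ≤ M → ∀ (B F : Finset Edg),
  B ⊆ CE (2 * n) M → F ⊆ CE (2 * n) M →
  (∀ e ∈ boxE R, red (2 * n) e ∈ B ↔ red (2 * n) e ∈ F) →
  (∀ e ∈ boxE R, red (2 * n) (mirE n e) ∈ B ↔ red (2 * n) (mirE n e) ∈ F) →
  P0 n m (per (2 * n) B) → SEq m R (per (2 * n) F) ∧ SEq m R (mirG n (per (2 * n) F))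

def S_MON : Prop := ∀ m R R' : ℕ, 2 ≤ m → m ≤ R → R ≤ R' → sPq m R' ≤ sPq m R

/-- both corners, independence -/
def S_SQ : Prop := ∀ n m M R : ℕ, 2 ≤ m → m ≤ R → 4 * R ≤ n → 2 * R ≤ M → pS n m M ≤ sPq m R ^ 2

/-! ## bad events -/

def S_BADQ : Prop := ∀ N : ℕ, 1 ≤ N → ∀ δ : ℝ, 0 < δ → ∃ M3 M4 : ℕ, 64 ≤ M3 ∧
  64 * M3 ≤ M4 ∧ ∀ (c r n : ℕ), c < 2 → M4 ≤ r → n = 8 * N * r →
  PC (2 * n) (8 * n) (BadQ c N r (r / M3) (r / M4) n (8 * n)) ≤ δ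

/-- class 0: different clusters are far from each other at the boundary of boxes and tubes -/
def S_SEPB : Prop := ∀ (N r m ρ l : ℕ) (c : Fin (m / 2) → ℤ), 2 ≤ m → m + 4 ≤ N →
  AdmC N (m / 2) c → 1 ≤ l → 32 * l ≤ ρ → 32 * ρ ≤ r → ∀ (n M : ℕ), n = 8 * N * r → M = 8 * n →
  ∀ F : Finset Edg, F ⊆ CE (2 * n) M → ¬ BadQ 0 N r ρ l n M F → ∀ (x x' u u' : Vtx),
  (∃ i : ℕ, i < m / 2 ∧ (x = cv i ∨ x = cw n i)) → (∃ i : ℕ, i < m / 2 ∧ (x' = cv i ∨ x' = cw n i)) →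
  Reach (per (2 * n) (FB N r (m / 2) c n M F) ∩ Ss n) x u →
  Reach (per (2 * n) (FB N r (m / 2) c n M F) ∩ Ss n) x' u' →
  (∃ e : Edg, e ∈ Ss n ∧ e ∉ EP r (BxQ N) ∧ e ∉ EP r (CrC N (m / 2) c) ∧ (src e = u ∨ tgt e = u)) →
  (∃ e : Edg, e ∈ Ss n ∧ e ∉ EP r (BxQ N) ∧ e ∉ EP r (CrC N (m / 2) c) ∧ (src e = u' ∨ tgt e = u')) →
  (ρ : ℤ) ≤ u.1 - u.2 ∧ (Nr (4 * l) u u' →
    Reach (per (2 * n) (FB N r (m / 2) c n M F) ∩ Ss n) x x')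

/-- class 1 -/
def S_SEPA : Prop := ∀ (N r m ρ l : ℕ) (c : Fin (m / 2) → ℤ), 2 ≤ m → m + 4 ≤ N →
  AdmC N (m / 2) c → 1 ≤ l → 32 * l ≤ ρ → 32 * ρ ≤ r → ∀ (n M : ℕ), n = 8 * N * r → M = 8 * n →
  ∀ F : Finset Edg, F ⊆ CE (2 * n) M → ¬ BadQ 1 N r ρ l n M F → ∀ (p p' u u' : Vtx),
  XA N r (m / 2) c n p → XA N r (m / 2) c n p' →
  Reach (dlq n (per (2 * n) (FA N r (m / 2) c n M F))) p u →
  Reach (dlq n (per (2 * n) (FA N r (m / 2) c n M F))) p' u' →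
  (∃ e : Edg, du e ∈ Ss n ∧ du e ∉ EP r (BxQ N) ∧ du e ∈ EP r (CrC N (m / 2) c) ∧
    (src e = u ∨ tgt e = u)) →
  (∃ e : Edg, du e ∈ Ss n ∧ du e ∉ EP r (BxQ N) ∧ du e ∈ EP r (CrC N (m / 2) c) ∧
    (src e = u' ∨ tgt e = u')) →
  Nr (4 * l) u u' →
  Reach (dlq n (per (2 * n) (FA N r (m / 2) c n M F))) p p'

/-- independence -/
def S_IND : Prop := ∀ (c N r ρ l m : ℕ), c < 2 → 4 ≤ N → 2 ≤ r → 32 * l ≤ ρ → 1 ≤ l →
  32 * ρ ≤ r → ∀ n : ℕ, n = 8 * N * r →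
  PC (2 * n) (8 * n) (fun F => SEq m (N * r / 2 : ℕ) (per (2 * n) F) ∧
      SEq m (N * r / 2 : ℕ) (mirG n (per (2 * n) F)) ∧ BadQ c N r ρ l n (8 * n) F)
    ≤ sPq m (N * r / 2) ^ 2 * PC (2 * n) (8 * n) (BadQ c N r ρ l n (8 * n))

/-! ## the three steps -/

def S_STB : Prop := ∀ (N m : ℕ) (c : Fin (m / 2) → ℤ), 2 ≤ m → m + 4 ≤ N → AdmC N (m / 2) c →
  ∀ δ : ℝ, 0 < δ → ∃ C : ℝ, 0 < C ∧ ∃ r0 : ℕ, ∀ r : ℕ, r0 ≤ r → ∀ (n M : ℕ), n = 8 * N * r →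
  M = 8 * n →
  PC (2 * n) M (fun F => P0 n m (per (2 * n) (FB N r (m / 2) c n M F))) ≤
    δ * sPq m (N * r / 2) ^ 2 +
      C * PC (2 * n) M (fun F => P0 n m (per (2 * n) F) ∧ Shl n m M (per (2 * n) F))

def S_STA : Prop := ∀ (N m : ℕ) (c : Fin (m / 2) → ℤ), 2 ≤ m → m + 4 ≤ N → AdmC N (m / 2) c →
  ∀ δ : ℝ, 0 < δ → ∃ C : ℝ, 0 < C ∧ ∃ r0 : ℕ, ∀ r : ℕ, r0 ≤ r → ∀ (n M : ℕ), n = 8 * N * r →
  M = 8 * n →
  PC (2 * n) M (fun F => P0 n m (per (2 * n) (FA N r (m / 2) c n M F))) ≤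
    δ * sPq m (N * r / 2) ^ 2 +
      C * PC (2 * n) M (fun F => P0 n m (per (2 * n) (FB N r (m / 2) c n M F)))

/-- landing -/
def S_LAND : Prop := ∀ m : ℕ, 2 ≤ m → ∀ δ : ℝ, 0 < δ → ∃ N : ℕ, m + 4 ≤ N ∧
  ∃ Cs : Finset (Fin (m / 2) → ℤ), (∀ c ∈ Cs, AdmC N (m / 2) c) ∧ ∃ r0 : ℕ, ∀ r : ℕ, r0 ≤ r →
  sPq m (N * r) ≤ δ * sPq m (N * r / 2) + ∑ c ∈ Cs,
    Pr (fun _ => (1 / 2 : ℝ)) (boxE (N * r)) (fun F => LandC N r m c (↑F : Set Edg))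

/-- from the band to the half-infinite strip -/
def S_FIN : Prop := ∀ (n M m : ℕ), 2 ≤ m → m ≤ n + 1 →
  PC (2 * n) M (fun F => P0 n m (per (2 * n) F) ∧ Shl n m M (per (2 * n) F)) ≤ Pk m (n + 1 - m)

/-- the recursion -/
def S_RCR : Prop := ∀ m : ℕ, 2 ≤ m → ∀ δ : ℝ, 0 < δ → ∃ N : ℕ, m + 4 ≤ N ∧ ∃ C : ℝ, 0 < C ∧
  ∃ r0 : ℕ, ∀ r : ℕ, r0 ≤ r →
  sPq m (N * r) ≤ δ * sPq m (N * r / 2) + C * (r : ℝ) ^ (-((m : ℝ) * (m - 1) / 3))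

/-- **upper bound** -/
def S_UB : Prop := ∀ m : ℕ, 2 ≤ m → ∃ C : ℝ, 0 < C ∧ ∀ R : ℕ, m ≤ R →
  sPq m R ≤ C * (R : ℝ) ^ (-((m : ℝ) * (m - 1) / 3))

/-- **lower bound** -/
def S_LB : Prop := ∀ m : ℕ, 2 ≤ m → ∃ c : ℝ, 0 < c ∧ ∀ R : ℕ, m ≤ R →
  c * (R : ℝ) ^ (-((m : ℝ) * (m - 1) / 3)) ≤ sPq m R

/-- **sharp bounds for all arm events at a corner of angle `π / 2`** -/
def S_SHARP : Prop := ∀ m : ℕ, 2 ≤ m → ∃ c C : ℝ, 0 < c ∧ 0 < C ∧ ∀ R : ℕ, m ≤ R →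
  c * (R : ℝ) ^ (-((m : ℝ) * (m - 1) / 3)) ≤ sPq m R ∧
  sPq m R ≤ C * (R : ℝ) ^ (-((m : ℝ) * (m - 1) / 3))

end Pool.Agent.W808.KC
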