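import Pool.Agent.W808.KC.T_DETP
import Pool.Agent.H160R2.MU.T_IND

/-!
Independence of the arm events at the two corners and of the bad event outside of the boxes.
-/

set_option autoImplicit false

namespace Pool.Agent.W808.KC
open H974 H906.Cyl
open H12S (Dir hbE segD rimE H4 Crs Nr sqE)
open Pool.Agent.H160R2.ML (nm)
open Pool.Agent.H160R2.MU (EP inSq PC Cc)

namespace TIND

open Pool.Agent.H160R2.MU.TIND (Far abs_shift Crs_mono' H4_congr hbE_close far_of mem_boxE_of)
open TDETP (fm)

/-- the representatives of the two boxes -/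
noncomputable def TT2 (n R : ℕ) : Finset Edg :=
  (boxE R).image (red (2 * n)) ∪ (boxE R).image (fm n)

theorem not_mem_TT2 {n R : ℕ} {e : Edg}
    (he : ∀ s : ℤ, (R : ℤ) < |e.1 - s * n| ∨ (R : ℤ) < |e.2.1 - s * n|) :
    red (2 * n) e ∉ TT2 n R := by
  intro h
  rcases Finset.mem_union.1 h with h | h
  · obtain ⟨e', he', h'⟩ := Finset.mem_image.1 h
    obtain ⟨K, h1, h2, -⟩ := TDETP.red_eq h'
    have c := TDETP.box_close he'
    push_cast at h1 h2
    have e1 : e.1 - (-2 * K) * n = e'.1 := by linarith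
    have e2 : e.2.1 - (-2 * K) * n = e'.2.1 := by linarith
    rcases he (-2 * K) with h4 | h4
    · rw [e1] at h4
      linarith [c.1]
    · rw [e2] at h4
      linarith [c.2]
  · obtain ⟨e', he', h'⟩ := Finset.mem_image.1 h
    obtain ⟨K, h1, h2, -⟩ := TDETP.red_eq h'
    have c := TDETP.mirE_close (n := n) he'
    push_cast at h1 h2
    have e1 : e.1 - (-2 * K + 1) * n = (mirE n e').1 - n := by linarith
    have e2 : e.2.1 - (-2 * K + 1) * n = (mirE n e').2.1 - n := by linarith
    rcases he (-2 * K + 1) with h4 | h4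
    · rw [e1] at h4
      linarith [c.1]
    · rw [e2] at h4
      linarith [c.2]

theorem per_congr {n M R : ℕ} {F : Finset Edg} (hF : F ⊆ CE (2 * n) M) {e : Edg}
    (he : ∀ s : ℤ, (R : ℤ) < |e.1 - s * n| ∨ (R : ℤ) < |e.2.1 - s * n|) :
    e ∈ per (2 * n) F ↔ e ∈ per (2 * n) (F ∩ (CE (2 * n) M \ TT2 n R)) := by
  show red (2 * n) e ∈ F ↔ red (2 * n) e ∈ F ∩ (CE (2 * n) M \ TT2 n R)
  rw [Finset.mem_inter, Finset.mem_sdiff]
  exact ⟨fun h => ⟨h, hF h, not_mem_TT2 he⟩, fun h => h.1⟩

theorem Cc_congr {c n M R : ℕ} {F : Finset Edg} (hF : F ⊆ CE (2 * n) M) {e : Edg}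
    (he : Far n R e) :
    e ∈ Cc c (2 * n) M F ↔ e ∈ Cc c (2 * n) M (F ∩ (CE (2 * n) M \ TT2 n R)) := by
  unfold Cc
  simp only [Set.mem_setOf_eq]
  split_ifs with hc
  · refine per_congr hF fun s => ?_
    rcases he s with h | h
    · left; linarith
    · right; linarith
  · have key : edz (e.1 + e.2.1 + 1) (dco e) ∈ per (2 * n) F ↔
        edz (e.1 + e.2.1 + 1) (dco e) ∈ per (2 * n) (F ∩ (CE (2 * n) M \ TT2 n R)) := by
      refine per_congr hF fun s => ?_
      obtain ⟨x, y, _ | _⟩ := e
      · have e1 : edz (x + y + 1) (dco (x, y, false)) = (x, y + 1, true) := by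
          simp only [edz, dco, Bool.false_eq_true, if_false]
          rw [if_pos (by omega)]
          simp only [Prod.mk.injEq, and_true]
          omega
        simp only [e1]
        rcases he s with h | h
        · left
          simp only at h
          linarith
        · right
          simp only at h
          have := abs_shift h (b := 1) (by norm_num)
          rwa [show y + 1 - s * n = y - s * n + 1 by ring]
      · have e1 : edz (x + y + 1) (dco (x, y, true)) = (x + 1, y, false) := by
          simp only [edz, dco, if_true]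
          rw [if_neg (by omega)]
          simp only [Prod.mk.injEq, and_true]
          omega
        simp only [e1]
        rcases he s with h | h
        · left
          simp only at h
          have := abs_shift h (b := 1) (by norm_num)
          rwa [show x + 1 - s * n = x - s * n + 1 by ring]
        · right
          simp only at h
          linarith
    rw [key]

theorem BadQ_mono' {c N r ρ l n M R : ℕ} (hn : n = 8 * N * r) (hr : 0 < r) (hρ : 4 * ρ < r / 2)
    (h1 : r / 2 + R + 1 < N * r) (h2 : ρ + R + 1 < N * r - 1) {F F' : Finset Edg}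
    (h : ∀ e : Edg, Far n R e → (e ∈ Cc c (2 * n) M F ↔ e ∈ Cc c (2 * n) M F')) :
    BadQ c N r ρ l n M F → BadQ c N r ρ l n M F' := by
  rintro (⟨ζ, h3, h4, h5⟩ | ⟨d, x0, y0, i, j, h3, h4, h5, h6⟩)
  · left
    refine ⟨ζ, h3, h4, Crs_mono' hρ ?_ h5⟩
    intro e he1 he2 he3
    refine (h e (far_of h1 ?_ he1 he2)).1 he3
    intro s
    subst hn
    have hr' : (0 : ℤ) ≤ r := by positivity
    rcases h4 s with h4 | h4
    · left
      have : (r : ℤ) * ζ.1 - s * ((8 * N * r : ℕ) : ℤ) = r * (ζ.1 - s * (8 * N)) := by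
        push_cast; ring
      rw [this, abs_mul, abs_of_nonneg hr']
      push_cast
      nlinarith
    · right
      have : (r : ℤ) * ζ.2 - s * ((8 * N * r : ℕ) : ℤ) = r * (ζ.2 - s * (8 * N)) := by
        push_cast; ring
      rw [this, abs_mul, abs_of_nonneg hr']
      push_cast
      nlinarith
  · right
    refine ⟨d, x0, y0, i, j, h3, h4, h5, (H4_congr ?_).1 h6⟩
    intro e he
    obtain ⟨he1, he2⟩ := hbE_close he
    refine h e (far_of h2 ?_ he1 he2)
    intro s
    have e1 : ((N * r - 1 : ℕ) : ℤ) = (N : ℤ) * r - 1 := by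
      rw [Nat.cast_sub (by omega)]
      push_cast
      ring
    rw [e1]
    exact h4 s

end TIND

open TIND in
open Pool.Agent.H160R2.MU.TIND (Far mem_boxE_of) in
open TDETP (fm) in
theorem t_IND : S_IND := by
  intro c N r ρ l m hc hN hr h1 hl h2 n hn
  set M : ℕ := 8 * n with hMdef
  set R : ℕ := N * r / 2 with hRdef
  have hP : 4 * r ≤ N * r := Nat.mul_le_mul_right r hN
  have hnP : n = 8 * (N * r) := by rw [hn]; ring
  have hn0 : 0 < n := by omega
  have h4R : 4 * R < n := by omega
  have h2R : 2 * R ≤ M := by omega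
  -- the two corner events as functions of the boxes
  set A : Finset Edg → Prop := fun F => SEq m R (↑F : Set Edg) with hA
  have eA : ∀ F : Finset Edg, (SEq m R (per (2 * n) F) ∧ SEq m R (mirG n (per (2 * n) F))) ↔
      (A ((boxE R).filter (fun e => red (2 * n) e ∈ F)) ∧
        A ((boxE R).filter (fun e => fm n e ∈ F))) := by
    intro F
    apply and_congr
    · apply TDETP.SEq_congr
      intro e h1 h2
      rw [Finset.mem_coe, Finset.mem_filter]
      exact ⟨fun h => ⟨mem_boxE_of h1 h2, h⟩, fun h => h.2⟩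
    · apply TDETP.SEq_congr
      intro e h1 h2
      rw [Finset.mem_coe, Finset.mem_filter]
      exact ⟨fun h => ⟨mem_boxE_of h1 h2, h⟩, fun h => h.2⟩
  have hfil : ∀ f : Edg → Edg, (boxE R).image f ⊆ TT2 n R → ∀ F : Finset Edg,
      (boxE R).filter (fun e => f e ∈ F) = (boxE R).filter (fun e => f e ∈ F ∩ TT2 n R) := by
    intro f hf F
    apply Finset.filter_congr
    intro e he
    rw [Finset.mem_inter]
    exact ⟨fun h => ⟨h, hf (Finset.mem_image_of_mem _ he)⟩, fun h => h.1⟩
  have hT : TT2 n R ⊆ CE (2 * n) M :=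
    Finset.union_subset (TDETP.sub1 hn0 h2R) (TDETP.sub2 hn0 h2R)
  have hAl : ∀ F, F ⊆ CE (2 * n) M →
      ((SEq m R (per (2 * n) F) ∧ SEq m R (mirG n (per (2 * n) F))) ↔
        (SEq m R (per (2 * n) (F ∩ TT2 n R)) ∧
          SEq m R (mirG n (per (2 * n) (F ∩ TT2 n R))))) := by
    intro F _
    rw [eA F, eA (F ∩ TT2 n R), ← hfil (red (2 * n)) Finset.subset_union_left F,
      ← hfil (fm n) Finset.subset_union_right F]
  have hB : ∀ F, F ⊆ CE (2 * n) M → (BadQ c N r ρ l n M F ↔
      BadQ c N r ρ l n M (F ∩ (CE (2 * n) M \ TT2 n R))) := by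
    intro F hF
    have key : ∀ e : Edg, Far n R e → (e ∈ Cc c (2 * n) M F ↔
      e ∈ Cc c (2 * n) M (F ∩ (CE (2 * n) M \ TT2 n R))) := fun e he => Cc_congr hF he
    constructor
    · exact BadQ_mono' hn (by omega) (by omega) (by omega) (by omega) key
    · exact BadQ_mono' hn (by omega) (by omega) (by omega) (by omega)
        fun e he => (key e he).symm
  have e1 : PC (2 * n) M (fun F => (SEq m R (per (2 * n) F) ∧
        SEq m R (mirG n (per (2 * n) F))) ∧ BadQ c N r ρ l n M F) =
      PC (2 * n) M (fun F => SEq m R (per (2 * n) F) ∧ SEq m R (mirG n (per (2 * n) F))) *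
        PC (2 * n) M (BadQ c N r ρ l n M) :=
    Pr_indep hT Finset.sdiff_subset Finset.disjoint_sdiff hAl hB
  have e2 : PC (2 * n) M (fun F => SEq m R (per (2 * n) F) ∧ SEq m R (mirG n (per (2 * n) F))) =
      sPq m R ^ 2 := by
    unfold sPq PC
    rw [← TDETP.Pr_two h4R h2R A]
    exact Pr_congr fun F _ => eA F
  have e4 : PC (2 * n) M (fun F => SEq m (N * r / 2 : ℕ) (per (2 * n) F) ∧
      SEq m (N * r / 2 : ℕ) (mirG n (per (2 * n) F)) ∧ BadQ c N r ρ l n M F) =
      PC (2 * n) M (fun F => (SEq m R (per (2 * n) F) ∧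
        SEq m R (mirG n (per (2 * n) F))) ∧ BadQ c N r ρ l n M F) :=
    Pr_congr fun F _ => and_assoc.symm
  rw [e4, e1, e2]

end Pool.Agent.W808.KC
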