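import Pool.Agent.W808.KC.Stm
import Pool.Agent.H160R2.MU.T_SEPB

/-!
# Corner: different primal clusters are far from each other at the boundary of boxes and tubes
(helper372, adapted from `Pool.Agent.W808.HU.T_SEPB` of helper741 and `Pool.Agent.H160R2.MU.T_SEPB`
of helper536)
-/

set_option autoImplicit false

namespace Pool.Agent.W808.KC
open H974 H906.Cyl
open H12S (Dir hbE segD rimE H4 H3g Crs Nr sqE FD_nb FD_nb_of FD_mem_RE FD_of_mem_RE FD_div)
open Pool.Agent.H160R2.ML (nm)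
open Pool.Agent.H160R2.MU (EP inSq PC Cc prd shf)
open Pool.Agent.H160R2.MU.TSEPB (sq_uniq sq_below EP_loc EP_of nb_sym hb_case farx EP_shift
  EP_shift_iff EP_red EP_union)

namespace TSEPB

/-- leaving a region -/
theorem exit_reach {G : Set Edg} {x y : Vtx} (h : Reach G x y) (R : Vtx → Prop) (hx : R x)
    (hy : ¬ R y) : ∃ v w, Reach (G ∩ {e | R (src e) ∧ R (tgt e)}) x v ∧ R v ∧ ¬ R w ∧
      ∃ e ∈ G, (src e = v ∧ tgt e = w) ∨ (src e = w ∧ tgt e = v) := by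
  have key : (Reach (G ∩ {e | R (src e) ∧ R (tgt e)}) x y ∧ R y) ∨
      ∃ v w, Reach (G ∩ {e | R (src e) ∧ R (tgt e)}) x v ∧ R v ∧ ¬ R w ∧
        ∃ e ∈ G, (src e = v ∧ tgt e = w) ∨ (src e = w ∧ tgt e = v) := by
    clear hy
    induction h with
    | refl => exact Or.inl ⟨Reach.refl _ _, hx⟩
    | @tail b c hab hbc ih =>
      rcases ih with ⟨h1, h2⟩ | h1
      · by_cases hc : R c
        · left
          obtain ⟨e, he, hec⟩ := hbc
          refine ⟨h1.trans (Adj.reach ⟨e, ⟨he, ?_⟩, hec⟩), hc⟩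
          rcases hec with ⟨h3, h4⟩ | ⟨h3, h4⟩
          · exact ⟨by rw [h3]; exact h2, by rw [h4]; exact hc⟩
          · exact ⟨by rw [h3]; exact hc, by rw [h4]; exact h2⟩
        · right
          obtain ⟨e, he, hec⟩ := hbc
          exact ⟨b, c, h1, h2, hc, e, he, hec⟩
      · exact Or.inr h1
  rcases key with ⟨-, h2⟩ | h1
  · exact absurd h2 hy
  · exact h1

theorem RE_S {S : Set Edg} {ρ l : ℕ} {u : Vtx}
    (hb : ∀ g : Edg, |(src g).1 - u.1| ≤ ρ + l → |(src g).2 - u.2| ≤ ρ + l → g ∈ S)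
    {a b c d : ℤ} {g : Edg} (hg : g ∈ RE a b c d) (h1 : u.1 - (ρ + l) ≤ a)
    (h2 : b ≤ u.1 + (ρ + l)) (h3 : u.2 - (ρ + l) ≤ c) (h4 : d ≤ u.2 + (ρ + l)) : g ∈ S := by
  obtain ⟨g1, -⟩ := FD_of_mem_RE hg
  unfold inR at g1
  apply hb
  · rw [abs_le]
    omega
  · rw [abs_le]
    omega

theorem H4_S {S : Set Edg} {d : Dir} {x0 y0 : ℤ} {r ρ : ℕ} {CF : Set Edg}
    (hs : ∀ g ∈ hbE d x0 y0 ρ, g ∈ S) (h : H4 d x0 y0 r ρ (CF ∩ S)) : H4 d x0 y0 r ρ CF := by
  have e : (CF ∩ S) ∩ ↑(hbE d x0 y0 ρ) = CF ∩ (↑(hbE d x0 y0 ρ) : Set Edg) := by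
    ext g
    constructor
    · rintro ⟨⟨h1, -⟩, h3⟩
      exact ⟨h1, h3⟩
    · rintro ⟨h1, h3⟩
      exact ⟨⟨h1, hs g (Finset.mem_coe.1 h3)⟩, h3⟩
  unfold H4 H3g at h ⊢
  rw [e] at h
  exact h

/-- common data -/
structure Ctx (N r ρ l ν : ℕ) (P : Set (ℤ × ℤ)) (S C CF : Set Edg) (u u' : Vtx) : Prop where
  hl : 1 ≤ l
  h1 : 32 * l ≤ ρ
  h2 : 32 * ρ ≤ r
  c1 : ∀ g ∈ C, g ∈ EP r P
  c2 : ∀ g ∈ CF, g ∈ S → g ∈ EP r P → g ∈ C
  c3 : C ⊆ CF
  c4 : C ⊆ S
  un : ∃ g, g ∉ EP r P ∧ (src g = u ∨ tgt g = u)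
  un' : ∃ g, g ∉ EP r P ∧ (src g = u' ∨ tgt g = u')
  uy' : ∃ g ∈ EP r P, (src g = u' ∨ tgt g = u')
  n1 : |u.1 - u'.1| ≤ 4 * l
  n2 : |u.2 - u'.2| ≤ 4 * l
  ex : ∀ R : Vtx → Prop, R u → (∀ v, R v → |v.1 - u.1| ≤ r ∧ |v.2 - u.2| ≤ r) →
      ∃ v w, Reach (C ∩ {e | R (src e) ∧ R (tgt e)}) u v ∧ R v ∧ ¬ R w ∧
        ∃ e ∈ C, (src e = v ∧ tgt e = w) ∨ (src e = w ∧ tgt e = v)
  ex' : ∀ R : Vtx → Prop, R u' → (∀ v, R v → |v.1 - u.1| ≤ r ∧ |v.2 - u.2| ≤ r) →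
      ∃ v w, Reach (C ∩ {e | R (src e) ∧ R (tgt e)}) u' v ∧ R v ∧ ¬ R w ∧
        ∃ e ∈ C, (src e = v ∧ tgt e = w) ∨ (src e = w ∧ tgt e = v)
  hD : ∀ s : ℤ, (N : ℤ) * r ≤ |u.1 - s * (ν * r : ℕ)| ∨ (N : ℤ) * r ≤ |u.2 - s * (ν * r : ℕ)|
  hext : |u.1 - u.2| ≤ 2 * ((ν * r : ℕ) : ℤ) - 2 * r

/-- the conclusion -/
def Con (N r ρ l ν : ℕ) (C CF : Set Edg) (u u' : Vtx) : Prop :=
  Pool.Agent.H160R2.MU.TSEPB.BadQ N r ρ l ν CF ∨ ∃ R : Vtx → Prop, (∀ v, R v → |v.1 - u.1| ≤ r ∧ |v.2 - u.2| ≤ r) ∧ R u ∧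
    Reach (C ∩ {e | R (src e) ∧ R (tgt e)}) u u'

section
variable {N r ρ l ν : ℕ} {P : Set (ℤ × ℤ)} {S C CF : Set Edg} {u u' : Vtx}

/-- near a coarse vertex -/
theorem corner_bad (h : Ctx N r ρ l ν P S C CF u u') {ζ : ℤ × ℤ} (a1 : |u.1 - r * ζ.1| ≤ 3 * ρ)
    (a2 : |u.2 - r * ζ.2| ≤ 3 * ρ) : Pool.Agent.H160R2.MU.TSEPB.BadQ N r ρ l ν CF := by
  have b1 := h.hl
  have b2 := h.h1
  have b3 := h.h2
  have hr : (0 : ℤ) < r := by have : 0 < r := by omega
                              exact_mod_cast this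
  left
  refine ⟨ζ, ?_, ?_, ?_⟩
  · have h1 := h.hext
    rw [abs_le] at h1 a1 a2 ⊢
    have e1 : (r : ℤ) * (ζ.1 - ζ.2) < r * (2 * ν) := by
      push_cast at h1
      have : (r : ℤ) * (ζ.1 - ζ.2) = r * ζ.1 - r * ζ.2 := by ring
      rw [this]
      have : (r : ℤ) * (2 * ν) = 2 * (ν * r) := by ring
      rw [this]
      omega
    have e2 : (r : ℤ) * (ζ.2 - ζ.1) < r * (2 * ν) := by
      push_cast at h1
      have : (r : ℤ) * (ζ.2 - ζ.1) = r * ζ.2 - r * ζ.1 := by ring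
      rw [this]
      have : (r : ℤ) * (2 * ν) = 2 * (ν * r) := by ring
      rw [this]
      omega
    have e3 := lt_of_mul_lt_mul_left e1 hr.le
    have e4 := lt_of_mul_lt_mul_left e2 hr.le
    constructor <;> linarith
  · intro s
    have key : ∀ x ζ' : ℤ, |x - r * ζ'| ≤ 3 * ρ → (N : ℤ) * r ≤ |x - s * (ν * r : ℕ)| →
        (N : ℤ) ≤ |ζ' - s * ν| := by
      intro x ζ' h1 h2
      rw [abs_le] at h1
      have e0 : s * ((ν * r : ℕ) : ℤ) = r * (s * ν) := by push_cast; ring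
      rw [e0] at h2
      rw [le_abs] at h2 ⊢
      rcases h2 with h2 | h2
      · left
        have : (r : ℤ) * N < r * (ζ' - s * ν + 1) := by
          have : (r : ℤ) * (ζ' - s * ν + 1) = r * ζ' - r * (s * ν) + r := by ring
          rw [this]
          have : (r : ℤ) * N = N * r := by ring
          rw [this]
          omega
        have := lt_of_mul_lt_mul_left this hr.le
        omega
      · right
        have : (r : ℤ) * N < r * (-(ζ' - s * ν) + 1) := by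
          have : (r : ℤ) * (-(ζ' - s * ν) + 1) = r * (s * ν) - r * ζ' + r := by ring
          rw [this]
          have : (r : ℤ) * N = N * r := by ring
          rw [this]
          omega
        have := lt_of_mul_lt_mul_left this hr.le
        omega
    rcases h.hD s with h3 | h3
    · exact Or.inl (key _ _ a1 h3)
    · exact Or.inr (key _ _ a2 h3)
  · obtain ⟨A, hA⟩ : ∃ A : ℤ, A = r * ζ.1 := ⟨_, rfl⟩
    obtain ⟨B, hB⟩ : ∃ B : ℤ, B = r * ζ.2 := ⟨_, rfl⟩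
    rw [← hA] at a1
    rw [← hB] at a2
    rw [← hA, ← hB]
    rw [abs_le] at a1 a2
    obtain ⟨v, w, k1, k2, k3, e, he, hvw⟩ := h.ex
      (fun v => |v.1 - A| < ((r / 2 : ℕ) : ℤ) ∧ |v.2 - B| < ((r / 2 : ℕ) : ℤ))
      (by
        rw [abs_lt, abs_lt]
        push_cast
        omega)
      (by
        intro v hv
        rw [abs_lt, abs_lt] at hv
        rw [abs_le, abs_le]
        push_cast at hv
        omega)
    refine ⟨u, w, ?_, ?_, ?_⟩
    · unfold inR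
      push_cast
      omega
    · rw [abs_lt, abs_lt] at k3
      push_cast at k3 ⊢
      omega
    · exact (k1.mono fun g hg => h.c3 hg.1).trans (Adj.reach ⟨e, h.c3 he, hvw⟩)

theorem dir_up (h : Ctx N r ρ l ν P S C CF u u') 
    (hb : ∀ g : Edg, |(src g).1 - u.1| ≤ ρ + l → |(src g).2 - u.2| ≤ ρ + l → g ∈ S)
    {z : ℤ × ℤ} (hz : z ∈ P) (hz' : (z.1, z.2 - 1) ∉ P) (a1 : r * z.1 + 2 * ρ < u.1) (a2 : u.1 < r * z.1 + r - 2 * ρ)
    (a3 : u.2 = r * z.2) : Con N r ρ l ν C CF u u' := by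
  have b1 := h.hl
  have b2 := h.h1
  have b3 := h.h2
  have hr : 1 ≤ r := by omega
  have n1 := h.n1
  have n2 := h.n2
  rw [abs_le] at n1 n2
  obtain ⟨A, hA⟩ : ∃ A : ℤ, A = (r : ℤ) * z.1 := ⟨_, rfl⟩
  obtain ⟨E, hE0⟩ : ∃ E : ℤ, E = (r : ℤ) * z.2 := ⟨_, rfl⟩
  obtain ⟨B, hB⟩ : ∃ B : ℤ, B = E := ⟨_, rfl⟩
  have hzp : (r : ℤ) * (z.2 - 1) = E - r := by rw [hE0]; ring
  have hBj : B = r * z.2 := by rw [hB, hE0]
  -- location of squares of `P` near the line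
  have tang : ∀ (q : ℤ × ℤ) (x : ℤ), A < x → x < A + r → (r : ℤ) * q.1 ≤ x → x ≤ (r : ℤ) * q.1 + r →
      q.1 = z.1 := by
    intro q x k1 k2 k3 k4
    exact sq_uniq hr (hA ▸ k1) (hA ▸ k2) k3 k4
  rw [← hA] at a1 a2
  have a3' : u.2 = B := by rw [a3, hB, hE0]
  have hu'2 : u'.2 = B := by
    rcases lt_trichotomy u'.2 B with hlt | heq | hgt
    · exfalso
      obtain ⟨g, hg, hgu⟩ := h.uy'
      obtain ⟨q, hq, hq1⟩ : ∃ q ∈ P, inSq r q u' := by
        rcases hgu with hgu | hgu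
        · obtain ⟨q, hq, hq1, -⟩ := EP_loc hg (Or.inl ⟨hgu, rfl⟩)
          exact ⟨q, hq, hq1⟩
        · obtain ⟨q, hq, -, hq1⟩ := EP_loc hg (Or.inl ⟨rfl, hgu⟩)
          exact ⟨q, hq, hq1⟩
      unfold inSq at hq1
      have k1 : q.1 = z.1 := tang q u'.1 (by omega) (by omega) (by omega) (by omega)
      have k2 : q.2 = z.2 - 1 := by
        refine sq_uniq hr (x := u'.2) ?_ ?_ ?_ ?_
        · rw [hzp]; omega
        · rw [hzp]; omega
        · omega
        · omega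
      exact hz' (by rw [← k2, ← k1]; exact hq)
    · exact heq
    · exfalso
      obtain ⟨g, hg, hgu⟩ := h.un'
      apply hg
      have hnb : ∀ w : Vtx, (w = u' ∨ FD_nb u' w) → inSq r z w := by
        intro w hw
        unfold inSq
        rw [← hA, ← hE0]
        rcases hw with rfl | hw
        · omega
        · unfold FD_nb at hw
          omega
      rcases hgu with hgu | hgu
      · exact EP_of hz (hnb _ (Or.inl hgu)) (hnb _ (Or.inr (FD_nb_of (Or.inl ⟨hgu, rfl⟩))))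
      · exact EP_of hz (hnb _ (Or.inr (FD_nb_of (Or.inr ⟨rfl, hgu⟩)))) (hnb _ (Or.inl hgu))
  obtain ⟨i, hi1, hi2⟩ : ∃ i : ℤ, (l : ℤ) * i ≤ u.1 ∧ u.1 < (l : ℤ) * i + l :=
    ⟨u.1 / l, (FD_div b1).1 rfl⟩
  obtain ⟨x0, hx0⟩ : ∃ x0 : ℤ, x0 = (l : ℤ) * i := ⟨_, rfl⟩
  rw [← hx0] at hi1 hi2
  have hEq : hbE Dir.up x0 B ρ = RE (x0 - ρ) (x0 + ρ) B (B + ρ) := rfl
  have hrimdef : ∀ w : Vtx, w ∈ rimE Dir.up x0 B ρ ↔ (inR (x0 - ρ) (x0 + ρ) B (B + ρ) w ∧
      (w.1 = x0 - ρ ∨ w.1 = x0 + ρ ∨ w.2 = B + ρ)) := fun w => Iff.rfl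
  have hsegdef : ∀ v : Vtx, v ∈ segD Dir.up x0 B (8 * l) ↔ (v.2 = B ∧ x0 - (8 * l : ℕ) ≤ v.1 ∧ v.1 ≤ x0 + (8 * l : ℕ)) := fun v => Iff.rfl
  have key : H4 Dir.up x0 B (8 * l) ρ (CF ∩ S) ∨ Reach (C ∩ {e | inR (x0 - ρ) (x0 + ρ) B (B + ρ) (src e) ∧
      inR (x0 - ρ) (x0 + ρ) B (B + ρ) (tgt e)}) u u' := by
    refine hb_case (P := P) (r := r) (CF := CF ∩ S) h.c1 (fun g hg hg2 => h.c2 g hg.1 hg.2 hg2)
      (fun g hg => ⟨h.c3 hg, h.c4 hg⟩) hEq ?_ ?_ ?_ ?_ ?_ ?_ ?_ ?_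
    · intro w w2 hw hwr g hg hgw
      rw [hrimdef] at hwr
      have hwr' : ¬ (w.1 = x0 - ρ ∨ w.1 = x0 + ρ ∨ w.2 = B + ρ) := fun hh => hwr ⟨hw, hh⟩
      obtain ⟨q, hq, hq1, hq2⟩ := EP_loc hg hgw
      have hnb := FD_nb_of hgw
      unfold inR at hw ⊢
      unfold FD_nb at hnb
      unfold inSq at hq1 hq2
      by_cases h5 : w2.2 < B
      · exfalso
        have k1 : q.1 = z.1 := tang q w.1 (by omega) (by omega) (by omega) (by omega)
        have k2 : q.2 = z.2 - 1 := by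
          refine sq_below hr ?_ ?_
          · rw [← hE0]; omega
          · rw [← hE0]; omega
        exact hz' (by rw [← k2, ← k1]; exact hq)
      · omega
    · intro g hg
      obtain ⟨g1, g2⟩ := FD_of_mem_RE hg
      unfold inR at g1 g2
      refine EP_of hz ?_ ?_ <;> · unfold inSq
                                  rw [← hA, ← hE0]
                                  omega
    · unfold inR
      omega
    · unfold inR
      omega
    · rw [hsegdef]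
      push_cast
      omega
    · rw [hsegdef]
      push_cast
      omega
    · intro R hR hR2
      refine h.ex R hR fun v hv => ?_
      have := hR2 v hv
      unfold inR at this
      rw [abs_le, abs_le]
      omega
    · intro R hR hR2
      refine h.ex' R hR fun v hv => ?_
      have := hR2 v hv
      unfold inR at this
      rw [abs_le, abs_le]
      omega
  rcases key with hres | hres
  · left
    right
    refine ⟨Dir.up, x0, B, i, z.2, ?_, ?_, ?_,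
      H4_S (fun g hg => RE_S hb (hEq ▸ hg) (by omega) (by omega) (by omega) (by omega)) hres⟩
    · have h1 := h.hext
      rw [abs_le] at h1 ⊢
      push_cast at h1 ⊢
      omega
    · intro s
      rcases h.hD s with h3 | h3
      · exact Or.inl (farx hr b1 b2 (hA ▸ a1) (hA ▸ a2) hi1 hi2 h3)
      · right
        rw [a3'] at h3
        omega
    · exact Or.inl ⟨Or.inl rfl, hx0, Or.inl hBj⟩
  · right
    refine ⟨fun v => inR (x0 - ρ) (x0 + ρ) B (B + ρ) v, ?_, ?_, hres⟩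
    · intro v hv
      unfold inR at hv
      rw [abs_le, abs_le]
      omega
    · unfold inR
      omega

theorem dir_dn (h : Ctx N r ρ l ν P S C CF u u') 
    (hb : ∀ g : Edg, |(src g).1 - u.1| ≤ ρ + l → |(src g).2 - u.2| ≤ ρ + l → g ∈ S)
    {z : ℤ × ℤ} (hz : z ∈ P) (hz' : (z.1, z.2 + 1) ∉ P) (a1 : r * z.1 + 2 * ρ < u.1) (a2 : u.1 < r * z.1 + r - 2 * ρ)
    (a3 : u.2 = r * z.2 + r) : Con N r ρ l ν C CF u u' := by
  have b1 := h.hl
  have b2 := h.h1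
  have b3 := h.h2
  have hr : 1 ≤ r := by omega
  have n1 := h.n1
  have n2 := h.n2
  rw [abs_le] at n1 n2
  obtain ⟨A, hA⟩ : ∃ A : ℤ, A = (r : ℤ) * z.1 := ⟨_, rfl⟩
  obtain ⟨E, hE0⟩ : ∃ E : ℤ, E = (r : ℤ) * z.2 := ⟨_, rfl⟩
  obtain ⟨B, hB⟩ : ∃ B : ℤ, B = E + r := ⟨_, rfl⟩
  have hzp : (r : ℤ) * (z.2 + 1) = E + r := by rw [hE0]; ring
  have hBj : B = r * (z.2 + 1) := by rw [hB, hE0]; ring
  -- location of squares of `P` near the line
  have tang : ∀ (q : ℤ × ℤ) (x : ℤ), A < x → x < A + r → (r : ℤ) * q.1 ≤ x → x ≤ (r : ℤ) * q.1 + r →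
      q.1 = z.1 := by
    intro q x k1 k2 k3 k4
    exact sq_uniq hr (hA ▸ k1) (hA ▸ k2) k3 k4
  rw [← hA] at a1 a2
  have a3' : u.2 = B := by rw [a3, hB, hE0]
  have hu'2 : u'.2 = B := by
    rcases lt_trichotomy u'.2 B with hlt | heq | hgt
    · exfalso
      obtain ⟨g, hg, hgu⟩ := h.un'
      apply hg
      have hnb : ∀ w : Vtx, (w = u' ∨ FD_nb u' w) → inSq r z w := by
        intro w hw
        unfold inSq
        rw [← hA, ← hE0]
        rcases hw with rfl | hw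
        · omega
        · unfold FD_nb at hw
          omega
      rcases hgu with hgu | hgu
      · exact EP_of hz (hnb _ (Or.inl hgu)) (hnb _ (Or.inr (FD_nb_of (Or.inl ⟨hgu, rfl⟩))))
      · exact EP_of hz (hnb _ (Or.inr (FD_nb_of (Or.inr ⟨rfl, hgu⟩)))) (hnb _ (Or.inl hgu))
    · exact heq
    · exfalso
      obtain ⟨g, hg, hgu⟩ := h.uy'
      obtain ⟨q, hq, hq1⟩ : ∃ q ∈ P, inSq r q u' := by
        rcases hgu with hgu | hgu
        · obtain ⟨q, hq, hq1, -⟩ := EP_loc hg (Or.inl ⟨hgu, rfl⟩)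
          exact ⟨q, hq, hq1⟩
        · obtain ⟨q, hq, -, hq1⟩ := EP_loc hg (Or.inl ⟨rfl, hgu⟩)
          exact ⟨q, hq, hq1⟩
      unfold inSq at hq1
      have k1 : q.1 = z.1 := tang q u'.1 (by omega) (by omega) (by omega) (by omega)
      have k2 : q.2 = z.2 + 1 := by
        refine sq_uniq hr (x := u'.2) ?_ ?_ ?_ ?_
        · rw [hzp]; omega
        · rw [hzp]; omega
        · omega
        · omega
      exact hz' (by rw [← k2, ← k1]; exact hq)
  obtain ⟨i, hi1, hi2⟩ : ∃ i : ℤ, (l : ℤ) * i ≤ u.1 ∧ u.1 < (l : ℤ) * i + l :=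
    ⟨u.1 / l, (FD_div b1).1 rfl⟩
  obtain ⟨x0, hx0⟩ : ∃ x0 : ℤ, x0 = (l : ℤ) * i := ⟨_, rfl⟩
  rw [← hx0] at hi1 hi2
  have hEq : hbE Dir.dn x0 B ρ = RE (x0 - ρ) (x0 + ρ) (B - ρ) B := rfl
  have hrimdef : ∀ w : Vtx, w ∈ rimE Dir.dn x0 B ρ ↔ (inR (x0 - ρ) (x0 + ρ) (B - ρ) B w ∧
      (w.1 = x0 - ρ ∨ w.1 = x0 + ρ ∨ w.2 = B - ρ)) := fun w => Iff.rfl
  have hsegdef : ∀ v : Vtx, v ∈ segD Dir.dn x0 B (8 * l) ↔ (v.2 = B ∧ x0 - (8 * l : ℕ) ≤ v.1 ∧ v.1 ≤ x0 + (8 * l : ℕ)) := fun v => Iff.rfl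
  have key : H4 Dir.dn x0 B (8 * l) ρ (CF ∩ S) ∨ Reach (C ∩ {e | inR (x0 - ρ) (x0 + ρ) (B - ρ) B (src e) ∧
      inR (x0 - ρ) (x0 + ρ) (B - ρ) B (tgt e)}) u u' := by
    refine hb_case (P := P) (r := r) (CF := CF ∩ S) h.c1 (fun g hg hg2 => h.c2 g hg.1 hg.2 hg2)
      (fun g hg => ⟨h.c3 hg, h.c4 hg⟩) hEq ?_ ?_ ?_ ?_ ?_ ?_ ?_ ?_
    · intro w w2 hw hwr g hg hgw
      rw [hrimdef] at hwr
      have hwr' : ¬ (w.1 = x0 - ρ ∨ w.1 = x0 + ρ ∨ w.2 = B - ρ) := fun hh => hwr ⟨hw, hh⟩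
      obtain ⟨q, hq, hq1, hq2⟩ := EP_loc hg hgw
      have hnb := FD_nb_of hgw
      unfold inR at hw ⊢
      unfold FD_nb at hnb
      unfold inSq at hq1 hq2
      by_cases h5 : B < w2.2
      · exfalso
        have k1 : q.1 = z.1 := tang q w.1 (by omega) (by omega) (by omega) (by omega)
        have k2 : q.2 = z.2 + 1 := by
          have hh : z.2 = q.2 - 1 := by
            refine sq_below hr ?_ ?_
            · rw [← hE0]; omega
            · rw [← hE0]; omega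
          omega
        exact hz' (by rw [← k2, ← k1]; exact hq)
      · omega
    · intro g hg
      obtain ⟨g1, g2⟩ := FD_of_mem_RE hg
      unfold inR at g1 g2
      refine EP_of hz ?_ ?_ <;> · unfold inSq
                                  rw [← hA, ← hE0]
                                  omega
    · unfold inR
      omega
    · unfold inR
      omega
    · rw [hsegdef]
      push_cast
      omega
    · rw [hsegdef]
      push_cast
      omega
    · intro R hR hR2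
      refine h.ex R hR fun v hv => ?_
      have := hR2 v hv
      unfold inR at this
      rw [abs_le, abs_le]
      omega
    · intro R hR hR2
      refine h.ex' R hR fun v hv => ?_
      have := hR2 v hv
      unfold inR at this
      rw [abs_le, abs_le]
      omega
  rcases key with hres | hres
  · left
    right
    refine ⟨Dir.dn, x0, B, i, (z.2 + 1), ?_, ?_, ?_,
      H4_S (fun g hg => RE_S hb (hEq ▸ hg) (by omega) (by omega) (by omega) (by omega)) hres⟩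
    · have h1 := h.hext
      rw [abs_le] at h1 ⊢
      push_cast at h1 ⊢
      omega
    · intro s
      rcases h.hD s with h3 | h3
      · exact Or.inl (farx hr b1 b2 (hA ▸ a1) (hA ▸ a2) hi1 hi2 h3)
      · right
        rw [a3'] at h3
        omega
    · exact Or.inl ⟨Or.inr rfl, hx0, Or.inl hBj⟩
  · right
    refine ⟨fun v => inR (x0 - ρ) (x0 + ρ) (B - ρ) B v, ?_, ?_, hres⟩
    · intro v hv
      unfold inR at hv
      rw [abs_le, abs_le]
      omega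
    · unfold inR
      omega

theorem dir_rt (h : Ctx N r ρ l ν P S C CF u u') 
    (hb : ∀ g : Edg, |(src g).1 - u.1| ≤ ρ + l → |(src g).2 - u.2| ≤ ρ + l → g ∈ S)
    {z : ℤ × ℤ} (hz : z ∈ P) (hz' : (z.1 - 1, z.2) ∉ P) (a1 : r * z.2 + 2 * ρ < u.2) (a2 : u.2 < r * z.2 + r - 2 * ρ)
    (a3 : u.1 = r * z.1) : Con N r ρ l ν C CF u u' := by
  have b1 := h.hl
  have b2 := h.h1
  have b3 := h.h2
  have hr : 1 ≤ r := by omega
  have n1 := h.n1
  have n2 := h.n2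
  rw [abs_le] at n1 n2
  obtain ⟨A, hA⟩ : ∃ A : ℤ, A = (r : ℤ) * z.2 := ⟨_, rfl⟩
  obtain ⟨E, hE0⟩ : ∃ E : ℤ, E = (r : ℤ) * z.1 := ⟨_, rfl⟩
  obtain ⟨B, hB⟩ : ∃ B : ℤ, B = E := ⟨_, rfl⟩
  have hzp : (r : ℤ) * (z.1 - 1) = E - r := by rw [hE0]; ring
  have hBj : B = r * z.1 := by rw [hB, hE0]
  -- location of squares of `P` near the line
  have tang : ∀ (q : ℤ × ℤ) (x : ℤ), A < x → x < A + r → (r : ℤ) * q.2 ≤ x → x ≤ (r : ℤ) * q.2 + r →
      q.2 = z.2 := by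
    intro q x k1 k2 k3 k4
    exact sq_uniq hr (hA ▸ k1) (hA ▸ k2) k3 k4
  rw [← hA] at a1 a2
  have a3' : u.1 = B := by rw [a3, hB, hE0]
  have hu'2 : u'.1 = B := by
    rcases lt_trichotomy u'.1 B with hlt | heq | hgt
    · exfalso
      obtain ⟨g, hg, hgu⟩ := h.uy'
      obtain ⟨q, hq, hq1⟩ : ∃ q ∈ P, inSq r q u' := by
        rcases hgu with hgu | hgu
        · obtain ⟨q, hq, hq1, -⟩ := EP_loc hg (Or.inl ⟨hgu, rfl⟩)
          exact ⟨q, hq, hq1⟩
        · obtain ⟨q, hq, -, hq1⟩ := EP_loc hg (Or.inl ⟨rfl, hgu⟩)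
          exact ⟨q, hq, hq1⟩
      unfold inSq at hq1
      have k1 : q.2 = z.2 := tang q u'.2 (by omega) (by omega) (by omega) (by omega)
      have k2 : q.1 = z.1 - 1 := by
        refine sq_uniq hr (x := u'.1) ?_ ?_ ?_ ?_
        · rw [hzp]; omega
        · rw [hzp]; omega
        · omega
        · omega
      exact hz' (by rw [← k2, ← k1]; exact hq)
    · exact heq
    · exfalso
      obtain ⟨g, hg, hgu⟩ := h.un'
      apply hg
      have hnb : ∀ w : Vtx, (w = u' ∨ FD_nb u' w) → inSq r z w := by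
        intro w hw
        unfold inSq
        rw [← hA, ← hE0]
        rcases hw with rfl | hw
        · omega
        · unfold FD_nb at hw
          omega
      rcases hgu with hgu | hgu
      · exact EP_of hz (hnb _ (Or.inl hgu)) (hnb _ (Or.inr (FD_nb_of (Or.inl ⟨hgu, rfl⟩))))
      · exact EP_of hz (hnb _ (Or.inr (FD_nb_of (Or.inr ⟨rfl, hgu⟩)))) (hnb _ (Or.inl hgu))
  obtain ⟨i, hi1, hi2⟩ : ∃ i : ℤ, (l : ℤ) * i ≤ u.2 ∧ u.2 < (l : ℤ) * i + l :=
    ⟨u.2 / l, (FD_div b1).1 rfl⟩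
  obtain ⟨x0, hx0⟩ : ∃ x0 : ℤ, x0 = (l : ℤ) * i := ⟨_, rfl⟩
  rw [← hx0] at hi1 hi2
  have hEq : hbE Dir.rt B x0 ρ = RE B (B + ρ) (x0 - ρ) (x0 + ρ) := rfl
  have hrimdef : ∀ w : Vtx, w ∈ rimE Dir.rt B x0 ρ ↔ (inR B (B + ρ) (x0 - ρ) (x0 + ρ) w ∧
      (w.1 = B + ρ ∨ w.2 = x0 - ρ ∨ w.2 = x0 + ρ)) := fun w => Iff.rfl
  have hsegdef : ∀ v : Vtx, v ∈ segD Dir.rt B x0 (8 * l) ↔ (v.1 = B ∧ x0 - (8 * l : ℕ) ≤ v.2 ∧ v.2 ≤ x0 + (8 * l : ℕ)) := fun v => Iff.rfl
  have key : H4 Dir.rt B x0 (8 * l) ρ (CF ∩ S) ∨ Reach (C ∩ {e | inR B (B + ρ) (x0 - ρ) (x0 + ρ) (src e) ∧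
      inR B (B + ρ) (x0 - ρ) (x0 + ρ) (tgt e)}) u u' := by
    refine hb_case (P := P) (r := r) (CF := CF ∩ S) h.c1 (fun g hg hg2 => h.c2 g hg.1 hg.2 hg2)
      (fun g hg => ⟨h.c3 hg, h.c4 hg⟩) hEq ?_ ?_ ?_ ?_ ?_ ?_ ?_ ?_
    · intro w w2 hw hwr g hg hgw
      rw [hrimdef] at hwr
      have hwr' : ¬ (w.1 = B + ρ ∨ w.2 = x0 - ρ ∨ w.2 = x0 + ρ) := fun hh => hwr ⟨hw, hh⟩
      obtain ⟨q, hq, hq1, hq2⟩ := EP_loc hg hgw
      have hnb := FD_nb_of hgw
      unfold inR at hw ⊢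
      unfold FD_nb at hnb
      unfold inSq at hq1 hq2
      by_cases h5 : w2.1 < B
      · exfalso
        have k1 : q.2 = z.2 := tang q w.2 (by omega) (by omega) (by omega) (by omega)
        have k2 : q.1 = z.1 - 1 := by
          refine sq_below hr ?_ ?_
          · rw [← hE0]; omega
          · rw [← hE0]; omega
        exact hz' (by rw [← k2, ← k1]; exact hq)
      · omega
    · intro g hg
      obtain ⟨g1, g2⟩ := FD_of_mem_RE hg
      unfold inR at g1 g2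
      refine EP_of hz ?_ ?_ <;> · unfold inSq
                                  rw [← hA, ← hE0]
                                  omega
    · unfold inR
      omega
    · unfold inR
      omega
    · rw [hsegdef]
      push_cast
      omega
    · rw [hsegdef]
      push_cast
      omega
    · intro R hR hR2
      refine h.ex R hR fun v hv => ?_
      have := hR2 v hv
      unfold inR at this
      rw [abs_le, abs_le]
      omega
    · intro R hR hR2
      refine h.ex' R hR fun v hv => ?_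
      have := hR2 v hv
      unfold inR at this
      rw [abs_le, abs_le]
      omega
  rcases key with hres | hres
  · left
    right
    refine ⟨Dir.rt, B, x0, i, z.1, ?_, ?_, ?_,
      H4_S (fun g hg => RE_S hb (hEq ▸ hg) (by omega) (by omega) (by omega) (by omega)) hres⟩
    · have h1 := h.hext
      rw [abs_le] at h1 ⊢
      push_cast at h1 ⊢
      omega
    · intro s
      rcases h.hD s with h3 | h3
      · left
        rw [a3'] at h3
        omega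
      · exact Or.inr (farx hr b1 b2 (hA ▸ a1) (hA ▸ a2) hi1 hi2 h3)
    · exact Or.inr ⟨Or.inl rfl, hx0, Or.inl hBj⟩
  · right
    refine ⟨fun v => inR B (B + ρ) (x0 - ρ) (x0 + ρ) v, ?_, ?_, hres⟩
    · intro v hv
      unfold inR at hv
      rw [abs_le, abs_le]
      omega
    · unfold inR
      omega

theorem dir_lf (h : Ctx N r ρ l ν P S C CF u u') 
    (hb : ∀ g : Edg, |(src g).1 - u.1| ≤ ρ + l → |(src g).2 - u.2| ≤ ρ + l → g ∈ S)
    {z : ℤ × ℤ} (hz : z ∈ P) (hz' : (z.1 + 1, z.2) ∉ P) (a1 : r * z.2 + 2 * ρ < u.2) (a2 : u.2 < r * z.2 + r - 2 * ρ)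
    (a3 : u.1 = r * z.1 + r) : Con N r ρ l ν C CF u u' := by
  have b1 := h.hl
  have b2 := h.h1
  have b3 := h.h2
  have hr : 1 ≤ r := by omega
  have n1 := h.n1
  have n2 := h.n2
  rw [abs_le] at n1 n2
  obtain ⟨A, hA⟩ : ∃ A : ℤ, A = (r : ℤ) * z.2 := ⟨_, rfl⟩
  obtain ⟨E, hE0⟩ : ∃ E : ℤ, E = (r : ℤ) * z.1 := ⟨_, rfl⟩
  obtain ⟨B, hB⟩ : ∃ B : ℤ, B = E + r := ⟨_, rfl⟩
  have hzp : (r : ℤ) * (z.1 + 1) = E + r := by rw [hE0]; ring
  have hBj : B = r * (z.1 + 1) := by rw [hB, hE0]; ring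
  -- location of squares of `P` near the line
  have tang : ∀ (q : ℤ × ℤ) (x : ℤ), A < x → x < A + r → (r : ℤ) * q.2 ≤ x → x ≤ (r : ℤ) * q.2 + r →
      q.2 = z.2 := by
    intro q x k1 k2 k3 k4
    exact sq_uniq hr (hA ▸ k1) (hA ▸ k2) k3 k4
  rw [← hA] at a1 a2
  have a3' : u.1 = B := by rw [a3, hB, hE0]
  have hu'2 : u'.1 = B := by
    rcases lt_trichotomy u'.1 B with hlt | heq | hgt
    · exfalso
      obtain ⟨g, hg, hgu⟩ := h.un'
      apply hg
      have hnb : ∀ w : Vtx, (w = u' ∨ FD_nb u' w) → inSq r z w := by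
        intro w hw
        unfold inSq
        rw [← hA, ← hE0]
        rcases hw with rfl | hw
        · omega
        · unfold FD_nb at hw
          omega
      rcases hgu with hgu | hgu
      · exact EP_of hz (hnb _ (Or.inl hgu)) (hnb _ (Or.inr (FD_nb_of (Or.inl ⟨hgu, rfl⟩))))
      · exact EP_of hz (hnb _ (Or.inr (FD_nb_of (Or.inr ⟨rfl, hgu⟩)))) (hnb _ (Or.inl hgu))
    · exact heq
    · exfalso
      obtain ⟨g, hg, hgu⟩ := h.uy'
      obtain ⟨q, hq, hq1⟩ : ∃ q ∈ P, inSq r q u' := by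
        rcases hgu with hgu | hgu
        · obtain ⟨q, hq, hq1, -⟩ := EP_loc hg (Or.inl ⟨hgu, rfl⟩)
          exact ⟨q, hq, hq1⟩
        · obtain ⟨q, hq, -, hq1⟩ := EP_loc hg (Or.inl ⟨rfl, hgu⟩)
          exact ⟨q, hq, hq1⟩
      unfold inSq at hq1
      have k1 : q.2 = z.2 := tang q u'.2 (by omega) (by omega) (by omega) (by omega)
      have k2 : q.1 = z.1 + 1 := by
        refine sq_uniq hr (x := u'.1) ?_ ?_ ?_ ?_
        · rw [hzp]; omega
        · rw [hzp]; omega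
        · omega
        · omega
      exact hz' (by rw [← k2, ← k1]; exact hq)
  obtain ⟨i, hi1, hi2⟩ : ∃ i : ℤ, (l : ℤ) * i ≤ u.2 ∧ u.2 < (l : ℤ) * i + l :=
    ⟨u.2 / l, (FD_div b1).1 rfl⟩
  obtain ⟨x0, hx0⟩ : ∃ x0 : ℤ, x0 = (l : ℤ) * i := ⟨_, rfl⟩
  rw [← hx0] at hi1 hi2
  have hEq : hbE Dir.lf B x0 ρ = RE (B - ρ) B (x0 - ρ) (x0 + ρ) := rfl
  have hrimdef : ∀ w : Vtx, w ∈ rimE Dir.lf B x0 ρ ↔ (inR (B - ρ) B (x0 - ρ) (x0 + ρ) w ∧
      (w.1 = B - ρ ∨ w.2 = x0 - ρ ∨ w.2 = x0 + ρ)) := fun w => Iff.rfl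
  have hsegdef : ∀ v : Vtx, v ∈ segD Dir.lf B x0 (8 * l) ↔ (v.1 = B ∧ x0 - (8 * l : ℕ) ≤ v.2 ∧ v.2 ≤ x0 + (8 * l : ℕ)) := fun v => Iff.rfl
  have key : H4 Dir.lf B x0 (8 * l) ρ (CF ∩ S) ∨ Reach (C ∩ {e | inR (B - ρ) B (x0 - ρ) (x0 + ρ) (src e) ∧
      inR (B - ρ) B (x0 - ρ) (x0 + ρ) (tgt e)}) u u' := by
    refine hb_case (P := P) (r := r) (CF := CF ∩ S) h.c1 (fun g hg hg2 => h.c2 g hg.1 hg.2 hg2)
      (fun g hg => ⟨h.c3 hg, h.c4 hg⟩) hEq ?_ ?_ ?_ ?_ ?_ ?_ ?_ ?_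
    · intro w w2 hw hwr g hg hgw
      rw [hrimdef] at hwr
      have hwr' : ¬ (w.1 = B - ρ ∨ w.2 = x0 - ρ ∨ w.2 = x0 + ρ) := fun hh => hwr ⟨hw, hh⟩
      obtain ⟨q, hq, hq1, hq2⟩ := EP_loc hg hgw
      have hnb := FD_nb_of hgw
      unfold inR at hw ⊢
      unfold FD_nb at hnb
      unfold inSq at hq1 hq2
      by_cases h5 : B < w2.1
      · exfalso
        have k1 : q.2 = z.2 := tang q w.2 (by omega) (by omega) (by omega) (by omega)
        have k2 : q.1 = z.1 + 1 := by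
          have hh : z.1 = q.1 - 1 := by
            refine sq_below hr ?_ ?_
            · rw [← hE0]; omega
            · rw [← hE0]; omega
          omega
        exact hz' (by rw [← k2, ← k1]; exact hq)
      · omega
    · intro g hg
      obtain ⟨g1, g2⟩ := FD_of_mem_RE hg
      unfold inR at g1 g2
      refine EP_of hz ?_ ?_ <;> · unfold inSq
                                  rw [← hA, ← hE0]
                                  omega
    · unfold inR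
      omega
    · unfold inR
      omega
    · rw [hsegdef]
      push_cast
      omega
    · rw [hsegdef]
      push_cast
      omega
    · intro R hR hR2
      refine h.ex R hR fun v hv => ?_
      have := hR2 v hv
      unfold inR at this
      rw [abs_le, abs_le]
      omega
    · intro R hR hR2
      refine h.ex' R hR fun v hv => ?_
      have := hR2 v hv
      unfold inR at this
      rw [abs_le, abs_le]
      omega
  rcases key with hres | hres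
  · left
    right
    refine ⟨Dir.lf, B, x0, i, (z.1 + 1), ?_, ?_, ?_,
      H4_S (fun g hg => RE_S hb (hEq ▸ hg) (by omega) (by omega) (by omega) (by omega)) hres⟩
    · have h1 := h.hext
      rw [abs_le] at h1 ⊢
      push_cast at h1 ⊢
      omega
    · intro s
      rcases h.hD s with h3 | h3
      · left
        rw [a3'] at h3
        omega
      · exact Or.inr (farx hr b1 b2 (hA ▸ a1) (hA ▸ a2) hi1 hi2 h3)
    · exact Or.inr ⟨Or.inr rfl, hx0, Or.inl hBj⟩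
  · right
    refine ⟨fun v => inR (B - ρ) B (x0 - ρ) (x0 + ρ) v, ?_, ?_, hres⟩
    · intro v hv
      unfold inR at hv
      rw [abs_le, abs_le]
      omega
    · unfold inR
      omega

theorem planar (h : Ctx N r ρ l ν P S C CF u u') {z : ℤ × ℤ} (hz : z ∈ P) (hzu : inSq r z u)
    (hb : ∀ g : Edg, |(src g).1 - u.1| ≤ ρ + l → |(src g).2 - u.2| ≤ ρ + l → g ∈ S) :
    Con N r ρ l ν C CF u u' := by
  by_cases hc : ∃ ζ : ℤ × ℤ, |u.1 - r * ζ.1| ≤ 3 * ρ ∧ |u.2 - r * ζ.2| ≤ 3 * ρ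
  · obtain ⟨ζ, a1, a2⟩ := hc
    exact Or.inl (corner_bad h a1 a2)
  · have c0 : ∀ ζ : ℤ × ℤ, ¬ (|u.1 - r * ζ.1| ≤ 3 * ρ ∧ |u.2 - r * ζ.2| ≤ 3 * ρ) :=
      fun ζ hh => hc ⟨ζ, hh⟩
    have d1 := c0 (z.1, z.2)
    have d2 := c0 (z.1 + 1, z.2)
    have d3 := c0 (z.1, z.2 + 1)
    have d4 := c0 (z.1 + 1, z.2 + 1)
    have b1 := h.hl
    have b2 := h.h1
    have b3 := h.h2
    have e1 : (r : ℤ) * (z.1 + 1) = r * z.1 + r := by ring
    have e2 : (r : ℤ) * (z.2 + 1) = r * z.2 + r := by ring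
    have e3 : (r : ℤ) * (z.1 - 1) = r * z.1 - r := by ring
    have e4 : (r : ℤ) * (z.2 - 1) = r * z.2 - r := by ring
    simp only [e1, e2, abs_le] at d1 d2 d3 d4
    obtain ⟨g, hg, hgu⟩ := h.un
    obtain ⟨w, hw⟩ : ∃ w, (src g = u ∧ tgt g = w) ∨ (src g = w ∧ tgt g = u) := by
      rcases hgu with hgu | hgu
      · exact ⟨_, Or.inl ⟨hgu, rfl⟩⟩
      · exact ⟨_, Or.inr ⟨rfl, hgu⟩⟩
    have hnot : ∀ q ∈ P, inSq r q u → ¬ inSq r q w := by
      intro q hq k1 k2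
      apply hg
      rcases hw with ⟨k3, k4⟩ | ⟨k3, k4⟩
      · exact EP_of hq (k3 ▸ k1) (k4 ▸ k2)
      · exact EP_of hq (k3 ▸ k2) (k4 ▸ k1)
    have hz1 := hnot z hz hzu
    have hnb := FD_nb_of hw
    have hR := hnot (z.1 + 1, z.2)
    have hL := hnot (z.1 - 1, z.2)
    have hU := hnot (z.1, z.2 + 1)
    have hD := hnot (z.1, z.2 - 1)
    unfold inSq at hzu hz1 hR hL hU hD
    simp only [e1, e2, e3, e4] at hzu hz1 hR hL hU hD
    rcases hnb with ⟨k1, k2 | k2⟩ | ⟨k1, k2 | k2⟩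
    · have hx : u.1 = r * z.1 + r := by omega
      refine dir_lf h hb hz (fun hq => ?_) ?_ ?_ hx
      · exact hR hq (by omega) (by omega)
      · omega
      · omega
    · have hx : u.1 = r * z.1 := by omega
      refine dir_rt h hb hz (fun hq => ?_) ?_ ?_ hx
      · exact hL hq (by omega) (by omega)
      · omega
      · omega
    · have hx : u.2 = r * z.2 + r := by omega
      refine dir_dn h hb hz (fun hq => ?_) ?_ ?_ hx
      · exact hU hq (by omega) (by omega)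
      · omega
      · omega
    · have hx : u.2 = r * z.2 := by omega
      refine dir_up h hb hz (fun hq => ?_) ?_ ?_ hx
      · exact hD hq (by omega) (by omega)
      · omega
      · omega

end


theorem mem_FB {N r k : ℕ} {c : Fin k → ℤ} {n M : ℕ} {F : Finset Edg} {e : Edg} :
    e ∈ FB N r k c n M F ↔
      e ∈ CE (2 * n) M ∧ (e ∈ EP r (BxQ N) ∨ e ∈ EP r (CrC N k c)) ∧ e ∈ F := by
  classical
  unfold FB
  simp only [Finset.mem_filter]

/-- the coarse set `P` has period `(16 N, 16 N)` -/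
theorem EP_red2 {N r : ℕ} {P : Set (ℤ × ℤ)}
    (hP : ∀ (z : ℤ × ℤ) (s : ℤ), z ∈ P ↔ (z.1 - s * (8 * N), z.2 - s * (8 * N)) ∈ P) {n : ℕ}
    (hn : n = 8 * N * r) {e : Edg} : red (2 * n) e ∈ EP r P ↔ e ∈ EP r P := by
  have h1 : ∀ (z : ℤ × ℤ) (s : ℤ), z ∈ P ↔ shf (4 * N) 0 s z ∈ P := by
    intro z s
    rw [hP z (2 * s)]
    have : shf (4 * N) 0 s z = (z.1 - 2 * s * (8 * N), z.2 - 2 * s * (8 * N)) := by
      unfold shf prd
      push_cast
      refine Prod.ext ?_ ?_ <;> dsimp only <;> ring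
    rw [this]
  have h2 : 2 * n = prd (4 * N) 0 * r := by
    rw [hn]
    unfold prd
    ring
  rw [h2]
  exact EP_red h1

/-- an edge with an endpoint strictly inside a box belongs to it -/
theorem far_box' {N r n : ℕ} (hr : 1 ≤ r) (hn : n = 8 * N * r) {g : Edg} (hg : g ∉ EP r (BxQ N))
    {v : Vtx} (hv : src g = v ∨ tgt g = v) (s : ℤ) :
    (N : ℤ) * r ≤ |v.1 - s * n| ∨ (N : ℤ) * r ≤ |v.2 - s * n| := by
  by_contra hc
  push Not at hc
  obtain ⟨hc1, hc2⟩ := hc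
  rw [abs_lt] at hc1 hc2
  apply hg
  have hr' : (0 : ℤ) < r := by exact_mod_cast hr
  have e0 : s * (n : ℤ) = r * (s * (8 * N)) := by rw [hn]; push_cast; ring
  rw [e0] at hc1 hc2
  obtain ⟨x, y, b⟩ := g
  have hx := (FD_div hr (x := x) (k := x / (r : ℤ))).1 rfl
  have hy := (FD_div hr (x := y) (k := y / (r : ℤ))).1 rfl
  obtain ⟨S, hS⟩ : ∃ S : ℤ, S = s * (8 * N) := ⟨_, rfl⟩
  rw [← hS] at hc1 hc2
  obtain ⟨X, hX⟩ : ∃ X : ℤ, X = x / (r : ℤ) := ⟨_, rfl⟩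
  obtain ⟨Y, hY⟩ : ∃ Y : ℤ, Y = y / (r : ℤ) := ⟨_, rfl⟩
  rw [← hX] at hx
  rw [← hY] at hy
  have bnd : ∀ t T : ℤ, (r : ℤ) * T ≤ t → t < r * T + r → -((N : ℤ) * r) ≤ t - r * S →
      t - r * S < N * r → -(N : ℤ) ≤ T - S ∧ T - S < N := by
    intro t T h1 h2 h3 h4
    constructor
    · have : (r : ℤ) * (S - N) < r * (T + 1) := by
        have i1 : (r : ℤ) * (S - N) = r * S - N * r := by ring
        have i2 : (r : ℤ) * (T + 1) = r * T + r := by ring
        rw [i1, i2]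
        omega
      have := lt_of_mul_lt_mul_left this hr'.le
      omega
    · have : (r : ℤ) * T < r * (S + N) := by
        have i1 : (r : ℤ) * (S + N) = r * S + N * r := by ring
        rw [i1]
        omega
      have := lt_of_mul_lt_mul_left this hr'.le
      omega
  have hxb : -((N : ℤ) * r) ≤ x - r * S ∧ x - r * S < N * r := by
    cases b <;> simp only [src_mk, tgt_false, tgt_true] at hv <;>
      rcases hv with rfl | rfl <;> dsimp only at hc1 hc2 <;> omega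
  have hyb : -((N : ℤ) * r) ≤ y - r * S ∧ y - r * S < N * r := by
    cases b <;> simp only [src_mk, tgt_false, tgt_true] at hv <;>
      rcases hv with rfl | rfl <;> dsimp only at hc1 hc2 <;> omega
  have hxx := bnd x X hx.1 hx.2 hxb.1 hxb.2
  have hyy := bnd y Y hy.1 hy.2 hyb.1 hyb.2
  refine ⟨(X, Y), ⟨s, ?_⟩, ?_⟩
  · dsimp only
    rw [← hS]
    omega
  · unfold sqE
    cases b
    · rw [mem_RE_false]
      dsimp only
      omega
    · rw [mem_RE_true]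
      dsimp only
      omega

/-- the endpoints of an edge of the strip lie in the strip -/
theorem Ss_end {n : ℕ} {g : Edg} (hg : g ∈ Ss n) {v : Vtx} (hv : src g = v ∨ tgt g = v) :
    v.2 ≤ v.1 ∧ -1 ≤ v.1 + v.2 ∧ v.1 + v.2 ≤ 2 * n + 1 := by
  obtain ⟨x, y, b⟩ := g
  cases b
  · simp only [Ss, Set.mem_ofPred_eq, dco, Bool.false_eq_true, if_false] at hg
    simp only [src_mk, tgt_false] at hv
    rcases hv with rfl | rfl <;> dsimp only <;> omega
  · simp only [Ss, Set.mem_ofPred_eq, dco, if_true] at hg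
    simp only [src_mk, tgt_true] at hv
    rcases hv with rfl | rfl <;> dsimp only <;> omega

/-- a vertex of the boundary of the coarse set which is not near a coarse vertex is far from the
boundary of the strip -/
theorem strip3 {N r n ρ k : ℕ} {c : Fin k → ℤ} (hN : 4 ≤ N) (hr : 1 ≤ r) (h2 : 32 * ρ ≤ r)
    (hρ : 1 ≤ ρ) (hn : n = 8 * N * r)
    (htube : ∀ (a : Fin k) (s : ℤ) (z : ℤ × ℤ), z ∈ TubeC N k c a s → 3 ≤ z.1 - z.2 ∧
      z.1 - z.2 ≤ 10 * N ∧ 3 ≤ z.1 + z.2 - 2 * s * (8 * N) ∧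
      z.1 + z.2 - 2 * s * (8 * N) ≤ 2 * (8 * N) - 5)
    {z : ℤ × ℤ} (hz : z ∈ BxQ N ∪ CrC N k c) {u : Vtx} (hzu : inSq r z u) (hu1 : u.2 ≤ u.1)
    (hu2 : -1 ≤ u.1 + u.2) (hu3 : u.1 + u.2 ≤ 2 * n + 1)
    (hfar : ∀ q : ℤ, (N : ℤ) * r ≤ |u.1 - q * n| ∨ (N : ℤ) * r ≤ |u.2 - q * n|)
    (hc : ∀ ζ : ℤ × ℤ, ¬ (|u.1 - r * ζ.1| ≤ 3 * ρ ∧ |u.2 - r * ζ.2| ≤ 3 * ρ)) :
    3 * (ρ : ℤ) < u.1 - u.2 ∧ 3 * (ρ : ℤ) < u.1 + u.2 ∧ u.1 + u.2 + 3 * ρ < 2 * n := by
  have hr' : (0 : ℤ) < r := by exact_mod_cast hr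
  have hnr : (n : ℤ) = r * (8 * N) := by rw [hn]; push_cast; ring
  have hN' : (4 : ℤ) ≤ N := by exact_mod_cast hN
  have hNr4 : (r : ℤ) * 4 ≤ r * N := mul_le_mul_of_nonneg_left hN' hr'.le
  obtain ⟨W, hW⟩ : ∃ W : ℤ, W = r * N := ⟨_, rfl⟩
  have hnW : (n : ℤ) = 8 * W := by rw [hnr, hW]; ring
  rw [← hW] at hNr4
  unfold inSq at hzu
  rcases hz with hz | hz
  · obtain ⟨s, q1, q2, q3, q4⟩ := hz
    have hq5 := hfar s
    obtain ⟨S, hS⟩ : ∃ S : ℤ, S = s * (8 * N) := ⟨_, rfl⟩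
    rw [← hS] at q1 q2 q3 q4
    have hsn : s * (n : ℤ) = r * S := by rw [hnr, hS]; ring
    have hsW : s * (n : ℤ) = 8 * (s * W) := by rw [hnW]; ring
    rw [hsn] at hq5 hsW
    obtain ⟨T, hT⟩ : ∃ T : ℤ, T = (r : ℤ) * S := ⟨_, rfl⟩
    rw [← hT] at hq5 hsW
    have i1 : (r : ℤ) * (-(N : ℤ)) ≤ r * (z.1 - S) := mul_le_mul_of_nonneg_left q1 hr'.le
    have i2 : (r : ℤ) * (z.1 - S + 1) ≤ r * N := mul_le_mul_of_nonneg_left (by omega) hr'.le
    have i3 : (r : ℤ) * (-(N : ℤ)) ≤ r * (z.2 - S) := mul_le_mul_of_nonneg_left q3 hr'.le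
    have i4 : (r : ℤ) * (z.2 - S + 1) ≤ r * N := mul_le_mul_of_nonneg_left (by omega) hr'.le
    have j3 : (r : ℤ) * (-(N : ℤ)) = -W := by rw [hW]; ring
    have j4 : (r : ℤ) * (z.1 - S) = r * z.1 - T := by rw [hT]; ring
    have j5 : (r : ℤ) * (z.2 - S) = r * z.2 - T := by rw [hT]; ring
    have j6 : (r : ℤ) * (z.1 - S + 1) = r * z.1 - T + r := by rw [hT]; ring
    have j7 : (r : ℤ) * (z.2 - S + 1) = r * z.2 - T + r := by rw [hT]; ring
    have j8 : (N : ℤ) * r = W := by rw [hW]; ring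
    rw [j3] at i1 i3
    rw [j4] at i1
    rw [j5] at i3
    rw [j6, ← hW] at i2
    rw [j7, ← hW] at i4
    rw [j8] at hq5
    have c1 := hc (S + N, S + N)
    have c2 := hc (S - N, S - N)
    have c3 := hc (S + N, S - N)
    have k1 : (r : ℤ) * (S + N) = T + W := by rw [hT, hW]; ring
    have k2 : (r : ℤ) * (S - N) = T - W := by rw [hT, hW]; ring
    simp only [abs_le, k1, k2] at c1 c2 c3
    simp only [le_abs] at hq5
    rw [hnW] at hu3 ⊢
    have v1 : T - W ≤ u.1 ∧ u.1 ≤ T + W ∧ T - W ≤ u.2 ∧ u.2 ≤ T + W := by omega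
    clear hzu
    -- `s = 0` or `s = 1`
    have hs0 : 0 ≤ s := by
      by_contra hcon
      have h5 : s ≤ -1 := by omega
      have h6 : s * W ≤ (-1) * W := mul_le_mul_of_nonneg_right h5 (by omega)
      omega
    have hs1 : s ≤ 1 := by
      by_contra hcon
      have h5 : 2 ≤ s := by omega
      have h6 : 2 * W ≤ s * W := mul_le_mul_of_nonneg_right h5 (by omega)
      omega
    have hs : s = 0 ∨ s = 1 := by omega
    clear hs0 hs1
    have hT2 : T = 0 ∨ T = 8 * W := by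
      rcases hs with rfl | rfl
      · left
        rw [zero_mul] at hsW
        omega
      · right
        rw [one_mul] at hsW
        omega
    clear hs hsW hT hsn hS hW hnr hnW hn hfar hc k1 k2 j3 j4 j5 j6 j7 j8 i1 i2 i3 i4 q1 q2 q3 q4
    rcases hq5 with (h | h) | (h | h)
    · have e1 : u.1 = T + W := by omega
      have e2 : u.2 < T + W - 3 * ρ := by
        by_contra hh
        apply c1
        omega
      have e3 : T - W + 3 * ρ < u.2 := by
        by_contra hh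
        apply c3
        omega
      rcases hT2 with rfl | rfl <;> omega
    · have e1 : u.1 = T - W := by omega
      have e2 : u.2 = T - W := by omega
      exfalso
      apply c2
      omega
    · have e1 : u.2 = T + W := by omega
      have e2 : u.1 = T + W := by omega
      exfalso
      apply c1
      omega
    · have e1 : u.2 = T - W := by omega
      have e2 : u.1 < T + W - 3 * ρ := by
        by_contra hh
        apply c3
        omega
      have e3 : T - W + 3 * ρ < u.1 := by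
        by_contra hh
        apply c2
        omega
      rcases hT2 with rfl | rfl <;> omega
  · obtain ⟨a, s, hz⟩ := hz
    obtain ⟨t1, -, t2, t3⟩ := htube a s z hz
    obtain ⟨S, hS⟩ : ∃ S : ℤ, S = s * (8 * N) := ⟨_, rfl⟩
    have hS' : 2 * s * (8 * (N : ℤ)) = 2 * S := by rw [hS]; ring
    rw [hS'] at t2 t3
    have hsn : s * (n : ℤ) = r * S := by rw [hnr, hS]; ring
    have hsW : s * (n : ℤ) = 8 * (s * W) := by rw [hnW]; ring
    rw [hsn] at hsW
    obtain ⟨T, hT⟩ : ∃ T : ℤ, T = (r : ℤ) * S := ⟨_, rfl⟩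
    rw [← hT] at hsW
    have i1 : (r : ℤ) * 3 ≤ r * (z.1 - z.2) := mul_le_mul_of_nonneg_left t1 hr'.le
    have i2 : (r : ℤ) * 3 ≤ r * (z.1 + z.2 - 2 * S) := mul_le_mul_of_nonneg_left t2 hr'.le
    have i3 : (r : ℤ) * (z.1 + z.2 - 2 * S) ≤ r * (2 * (8 * N) - 5) :=
      mul_le_mul_of_nonneg_left t3 hr'.le
    have j1 : (r : ℤ) * (z.1 - z.2) = r * z.1 - r * z.2 := by ring
    have j2 : (r : ℤ) * (z.1 + z.2 - 2 * S) = r * z.1 + r * z.2 - 2 * T := by rw [hT]; ring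
    have j3 : (r : ℤ) * (2 * (8 * N) - 5) = 16 * W - 5 * r := by rw [hW]; ring
    rw [j1] at i1
    rw [j2] at i2
    rw [j2, j3] at i3
    rw [hnW] at hu3 ⊢
    have hs0 : 0 ≤ s := by
      by_contra hcon
      have h5 : s ≤ -1 := by omega
      have h6 : s * W ≤ (-1) * W := mul_le_mul_of_nonneg_right h5 (by omega)
      omega
    have hs1 : s ≤ 0 := by
      by_contra hcon
      have h5 : 1 ≤ s := by omega
      have h6 : 1 * W ≤ s * W := mul_le_mul_of_nonneg_right h5 (by omega)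
      omega
    have hs : s = 0 := by omega
    subst hs
    rw [zero_mul] at hsW
    omega

end TSEPB

open TSEPB in
theorem t_SEPB (hq1 : S_q1) (h4 : S_q4) : S_SEPB := by
  intro N r m ρ l c hm hN hAdm hl h1 h2 n M hn hM F hF hB x x' u u' hx hx' hu hu' hue hu'e
  have hN4 : 4 ≤ N := by omega
  obtain ⟨-, -, hper, hext⟩ := h4 N (m / 2) c hN4 hAdm _ rfl
  obtain ⟨-, -, htube⟩ := hq1 N (m / 2) c hN4 hAdm
  set P : Set (ℤ × ℤ) := BxQ N ∪ CrC N (m / 2) c with hPdef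
  set G : Finset Edg := FB N r (m / 2) c n M F with hGdef
  have hr1 : 1 ≤ r := by omega
  have hr' : (0 : ℤ) < r := by exact_mod_cast hr1
  have hCc : Cc 0 (2 * n) M F = per (2 * n) F := by
    unfold Cc
    simp
  have hnν : ((8 * N * r : ℕ) : ℤ) = n := by rw [hn]
  have hNr : (m : ℤ) + 4 * r ≤ N * r := by
    have e1 : (m : ℤ) + 4 ≤ N := by exact_mod_cast hN
    have e2 : (1 : ℤ) ≤ r := by exact_mod_cast hr1
    have e3 : (0 : ℤ) ≤ m := by positivity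
    nlinarith
  -- the planar configurations
  have c3 : (per (2 * n) G ∩ Ss n : Set Edg) ⊆ per (2 * n) F := by
    intro e he
    exact per_mono (2 * n) (fun e he => (mem_FB.1 he).2.2) he.1
  have c1 : ∀ g ∈ (per (2 * n) G ∩ Ss n : Set Edg), g ∈ EP r P := by
    rintro g ⟨hg, -⟩
    have h3 : red (2 * n) g ∈ G := hg
    have h4 := (mem_FB.1 h3).2.1
    rw [← EP_union, ← hPdef] at h4
    exact (EP_red2 hper hn).1 h4
  have c2 : ∀ g ∈ (per (2 * n) F : Set Edg), g ∈ Ss n → g ∈ EP r P →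
      g ∈ (per (2 * n) G ∩ Ss n : Set Edg) := by
    intro g hg hgH hgP
    have h3 : red (2 * n) g ∈ F := hg
    have h4 : red (2 * n) g ∈ EP r P := (EP_red2 hper hn).2 hgP
    rw [hPdef, EP_union] at h4
    exact ⟨mem_FB.2 ⟨hF h3, h4, h3⟩, hgH⟩
  -- the corner vertices
  have hcor : ∀ y : Vtx, (∃ i : ℕ, i < m / 2 ∧ (y = cv i ∨ y = cw n i)) →
      ∃ q : ℤ, |y.1 - q * n| < m ∧ |y.2 - q * n| < m := by
    rintro y ⟨i, hi, rfl | rfl⟩
    · refine ⟨0, ?_⟩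
      unfold cv
      simp only [abs_lt]
      omega
    · refine ⟨1, ?_⟩
      unfold cw
      simp only [abs_lt]
      omega
  -- facts about a point of the boundary
  have main : ∀ (y p : Vtx), (∃ i : ℕ, i < m / 2 ∧ (y = cv i ∨ y = cw n i)) →
      Reach (per (2 * n) G ∩ Ss n) y p →
      (∃ e : Edg, e ∈ Ss n ∧ e ∉ EP r (BxQ N) ∧ e ∉ EP r (CrC N (m / 2) c) ∧
        (src e = p ∨ tgt e = p)) →
      (∃ g, g ∉ EP r P ∧ (src g = p ∨ tgt g = p)) ∧
      (∃ g ∈ EP r P, g ∈ Ss n ∧ (src g = p ∨ tgt g = p)) ∧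
      (∀ q : ℤ, (N : ℤ) * r ≤ |p.1 - q * n| ∨ (N : ℤ) * r ≤ |p.2 - q * n|) := by
    rintro y p hy hp ⟨e, -, he1, he2, hw⟩
    have hgn : e ∉ EP r P := by
      rw [hPdef, EP_union]
      tauto
    have hfar : ∀ q : ℤ, (N : ℤ) * r ≤ |p.1 - q * n| ∨ (N : ℤ) * r ≤ |p.2 - q * n| :=
      fun q' => far_box' hr1 hn he1 hw q'
    refine ⟨⟨_, hgn, hw⟩, ?_, hfar⟩
    obtain ⟨v, w', -, k2, -, g, hg, hgv⟩ := exit_reach hp.symm (fun v => v = p) rfl
      (by
        intro hh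
        obtain ⟨q, hq1, hq2⟩ := hcor y hy
        have := hfar q
        rw [← hh] at this
        omega)
    have k2' : v = p := k2
    refine ⟨g, c1 g hg, hg.2, ?_⟩
    rcases hgv with ⟨h, -⟩ | ⟨-, h⟩
    · exact Or.inl (h.trans k2')
    · exact Or.inr (h.trans k2')
  have sqof : ∀ p : Vtx, (∃ g ∈ EP r P, g ∈ Ss n ∧ (src g = p ∨ tgt g = p)) →
      ∃ z ∈ P, inSq r z p := by
    rintro p ⟨gy, hgy, -, hv | hv⟩
    · obtain ⟨q, hq, hq1, -⟩ := EP_loc hgy (Or.inl ⟨hv, rfl⟩)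
      exact ⟨q, hq, hq1⟩
    · obtain ⟨q, hq, -, hq1⟩ := EP_loc hgy (Or.inl ⟨rfl, hv⟩)
      exact ⟨q, hq, hq1⟩
  -- the common data
  have mk : ∀ (y y' p p' : Vtx), (∃ i : ℕ, i < m / 2 ∧ (y = cv i ∨ y = cw n i)) →
      (∃ i : ℕ, i < m / 2 ∧ (y' = cv i ∨ y' = cw n i)) →
      Reach (per (2 * n) G ∩ Ss n) y p → Reach (per (2 * n) G ∩ Ss n) y' p' →
      (∃ e : Edg, e ∈ Ss n ∧ e ∉ EP r (BxQ N) ∧ e ∉ EP r (CrC N (m / 2) c) ∧
        (src e = p ∨ tgt e = p)) →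
      (∃ e : Edg, e ∈ Ss n ∧ e ∉ EP r (BxQ N) ∧ e ∉ EP r (CrC N (m / 2) c) ∧
        (src e = p' ∨ tgt e = p')) →
      |p.1 - p'.1| ≤ 4 * l → |p.2 - p'.2| ≤ 4 * l →
      Ctx N r ρ l (8 * N) P (Ss n) (per (2 * n) G ∩ Ss n) (per (2 * n) F) p p' := by
    intro y y' p p' hy hy' hp hp' hpe hpe' hn1 hn2
    obtain ⟨hun, hgy, hfar⟩ := main y p hy hp hpe
    obtain ⟨hun', ⟨gy', hgy', -, hgyu'⟩, -⟩ := main y' p' hy' hp' hpe'
    obtain ⟨z, hz, hzu⟩ := sqof p hgy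
    have exit : ∀ (a b : Vtx), (∃ i : ℕ, i < m / 2 ∧ (a = cv i ∨ a = cw n i)) →
        Reach (per (2 * n) G ∩ Ss n) a b →
        ∀ R : Vtx → Prop, R b → (∀ v, R v → |v.1 - p.1| ≤ r ∧ |v.2 - p.2| ≤ r) →
        ∃ v w, Reach ((per (2 * n) G ∩ Ss n) ∩ {e | R (src e) ∧ R (tgt e)}) b v ∧ R v ∧ ¬ R w ∧
          ∃ e ∈ (per (2 * n) G ∩ Ss n : Set Edg),
            (src e = v ∧ tgt e = w) ∨ (src e = w ∧ tgt e = v) := by
      intro a b ha hab R hR hRn
      refine exit_reach hab.symm R hR ?_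
      intro hh
      obtain ⟨q, hq1, hq2⟩ := hcor a ha
      have h3 := hRn _ hh
      have h4 := hfar q
      simp only [abs_le, le_abs, abs_lt] at h3 h4 hq1 hq2
      omega
    refine
      { hl := hl
        h1 := h1
        h2 := h2
        c1 := c1
        c2 := c2
        c3 := c3
        c4 := Set.inter_subset_right
        un := hun
        un' := hun'
        uy' := ⟨gy', hgy', hgyu'⟩
        n1 := hn1
        n2 := hn2
        ex := exit y p hy hp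
        ex' := exit y' p' hy' hp'
        hD := ?_
        hext := ?_ }
    · intro s
      rw [hnν]
      exact hfar s
    · rw [hnν]
      have h5 := hext z hz
      have h6 : (r : ℤ) * (z.1 - z.2) ≤ r * (10 * N) :=
        mul_le_mul_of_nonneg_left (abs_le.1 h5).2 hr'.le
      have h7 : (r : ℤ) * (-(10 * N)) ≤ r * (z.1 - z.2) :=
        mul_le_mul_of_nonneg_left (abs_le.1 h5).1 hr'.le
      have h8 : (n : ℤ) = 8 * (r * N) := by rw [hn]; push_cast; ring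
      have h9 : (r : ℤ) * 6 ≤ r * N := mul_le_mul_of_nonneg_left (by omega) hr'.le
      have e1 : (r : ℤ) * (z.1 - z.2) = r * z.1 - r * z.2 := by ring
      have e2 : (r : ℤ) * (10 * N) = 10 * (r * N) := by ring
      have e3 : (r : ℤ) * (-(10 * N)) = -(10 * (r * N)) := by ring
      rw [e1, e2] at h6
      rw [e1, e3] at h7
      rw [h8]
      unfold inSq at hzu
      rw [abs_le]
      omega
  have hnobad : ¬ Pool.Agent.H160R2.MU.TSEPB.BadQ N r ρ l (8 * N) (per (2 * n) F) := by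
    intro hbad
    apply hB
    unfold BadQ
    rw [hCc]
    rcases hbad with ⟨ζ, b1, b2, b3⟩ | ⟨d, x0, y0, i, j, b1, b2, b3, b4⟩
    · left
      refine ⟨ζ, ?_, ?_, b3⟩
      · push_cast at b1
        omega
      · intro s
        have := b2 s
        push_cast at this
        exact this
    · right
      refine ⟨d, x0, y0, i, j, ?_, ?_, b3, b4⟩
      · rw [hnν] at b1
        omega
      · intro s
        have := b2 s
        rw [hnν] at this
        exact this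
  obtain ⟨hun, hgy, hfar⟩ := main x u hx hu hue
  obtain ⟨z, hz, hzu⟩ := sqof u hgy
  obtain ⟨gy, hgyP, hgyS, hgyu⟩ := hgy
  obtain ⟨s1, s2, s3⟩ := Ss_end hgyS hgyu
  have hctx0 := mk x x u u hx hx hu hu hue hue (by simp) (by simp)
  have hc : ∀ ζ : ℤ × ℤ, ¬ (|u.1 - r * ζ.1| ≤ 3 * ρ ∧ |u.2 - r * ζ.2| ≤ 3 * ρ) := by
    rintro ζ ⟨a1, a2⟩
    -- an arm near a coarse vertex
    have hco := corner_bad hctx0 a1 a2
    exact hnobad hco
  obtain ⟨t1, t2, t3⟩ := strip3 hN4 hr1 h2 (by omega) hn htube hz hzu s1 s2 s3 hfar hc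
  refine ⟨by omega, ?_⟩
  intro hnear
  have hctx := mk x x' u u' hx hx' hu hu' hue hu'e hnear.1 hnear.2
  have hb : ∀ g : Edg, |(src g).1 - u.1| ≤ ρ + l → |(src g).2 - u.2| ≤ ρ + l → g ∈ Ss n := by
    intro g g1 g2
    rw [abs_le] at g1 g2
    obtain ⟨a, b, b'⟩ := g
    rw [src_mk] at g1 g2
    dsimp only at g1 g2
    cases b'
    · simp only [Ss, Set.mem_ofPred_eq, dco, Bool.false_eq_true, if_false]
      omega
    · simp only [Ss, Set.mem_ofPred_eq, dco, if_true]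
      omega
  rcases planar hctx hz hzu hb with hbad | ⟨R, hRn, hRu, hreach⟩
  · exact absurd hbad hnobad
  · exact (hu.trans (hreach.mono Set.inter_subset_left)).trans hu'.symm

end Pool.Agent.W808.KC
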