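import Pool.Agent.W808.KC.Stm
import Pool.Agent.H160R2.MU.T_g3

/-! q3 (helper598): the tubes are connected outside the boxes. -/

set_option autoImplicit false

namespace Pool.Agent.W808.KC

open H974 H906.Cyl
open H12S (Dir hbE segD rimE H4 Crs Nr sqE)
open Pool.Agent.H160R2.ML (nm)
open Pool.Agent.H160R2.MU (EP inSq PC Cc)

namespace Tq3

open Pool.Agent.H160R2.MU.Tg3 (K Kh Kv mem_sq full close top left)

variable {N k : ℕ} {c : Fin k → ℤ}

/-- a tube is a chain -/
lemma tube (hA : AdmC N k c) (a : Fin k) (s : ℤ) (z : ℤ × ℤ) (hz : z ∈ TubeC N k c a s) :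
    K (TubeC N k c a s) z (s * (8 * N) + N, s * (8 * N) + c a) := by
  have hc := hA.1 a
  obtain ⟨z1, z2⟩ := z
  have mh : ∀ t : ℤ, s * (8 * N) + N ≤ t → t ≤ s * (8 * N) + (8 * N - 1 - c a) →
      ((t, s * (8 * N) + c a) : ℤ × ℤ) ∈ TubeC N k c a s := by
    intro t h1 h2
    simp only [TubeC, TbC, Set.mem_ofPred_eq]
    left
    omega
  have mv : ∀ t : ℤ, s * (8 * N) + c a ≤ t → t ≤ s * (8 * N) + (7 * N - 1) →
      ((s * (8 * N) + (8 * N - 1 - c a), t) : ℤ × ℤ) ∈ TubeC N k c a s := by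
    intro t h1 h2
    simp only [TubeC, TbC, Set.mem_ofPred_eq]
    right
    omega
  have eh : ∀ t : ℤ, s * (8 * N) + N ≤ t → t ≤ s * (8 * N) + (8 * N - 1 - c a) →
      K (TubeC N k c a s) (t, s * (8 * N) + c a) (s * (8 * N) + N, s * (8 * N) + c a) := by
    intro t h1 h2
    exact (Kh h1 fun t' h3 h4 => mh t' h3 (h4.trans h2)).symm
  have ev : ∀ t : ℤ, s * (8 * N) + c a ≤ t → t ≤ s * (8 * N) + (7 * N - 1) →
      K (TubeC N k c a s) (s * (8 * N) + (8 * N - 1 - c a), t)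
        (s * (8 * N) + N, s * (8 * N) + c a) := by
    intro t h1 h2
    exact ((Kv h1 fun t' h3 h4 => mv t' h3 (h4.trans h2)).symm).trans
      (eh _ (by omega) le_rfl)
  have hz' := hz
  simp only [TubeC, TbC, Set.mem_ofPred_eq] at hz
  rcases hz with ⟨a1, a2, a3⟩ | ⟨a1, a2, a3⟩
  · have e : z2 = s * (8 * N) + c a := by omega
    subst e
    exact eh z1 (by omega) (by omega)
  · have e : z1 = s * (8 * N) + (8 * N - 1 - c a) := by omega
    subst e
    exact ev z2 (by omega) (by omega)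

/-- the squares of a tube are connected inside -/
lemma inner (h1 : S_q1) (hN : 4 ≤ N) (hA : AdmC N k c) {r : ℕ} (hr : 1 ≤ r) {a : Fin k} {s : ℤ}
    {z : ℤ × ℤ} (hz : z ∈ TubeC N k c a s) {u v : Vtx} (hu : inSq r z u) (hv : inSq r z v) :
    Reach (EP r (TubeC N k c a s) \ EP r (BxQ N)) u v := by
  have hg2 := (h1 N k c hN hA).2.1 a s
  have hc := hA.1 a
  have hr' : (1 : ℤ) ≤ r := by exact_mod_cast hr
  have key : ∀ e ∈ sqE r z, e ∉ EP r (BxQ N) → e ∈ EP r (TubeC N k c a s) \ EP r (BxQ N) :=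
    fun e he hn => ⟨⟨z, hz, he⟩, hn⟩
  have hbox : ∀ e ∈ sqE r z, e ∈ EP r (BxQ N) → ∃ (b : ℤ × ℤ) (s' : ℤ),
      (-(N : ℤ) ≤ b.1 - s' * (8 * N) ∧ b.1 - s' * (8 * N) < N ∧
        -(N : ℤ) ≤ b.2 - s' * (8 * N) ∧ b.2 - s' * (8 * N) < N) ∧
      inSq r b (src e) ∧ inSq r b (tgt e) ∧
      ((s' = s ∧ z = (s * (8 * N) + N, s * (8 * N) + c a)) ∨
      (s' = s + 1 ∧ z = (s * (8 * N) + (8 * N - 1 - c a), s * (8 * N) + (7 * N - 1)))) := by
    rintro e he ⟨b, ⟨s', hb⟩, heb⟩
    have q1 := mem_sq he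
    have q2 := mem_sq heb
    have q3 := close hr q1.1 q2.1
    exact ⟨b, s', hb, q2.1, q2.2, hg2 s' z b hz hb q3.1 q3.2⟩
  by_cases hf : z = (s * (8 * N) + N, s * (8 * N) + c a)
  · refine left hr (fun e he hne => key e he fun hB => hne ?_) hu hv
    obtain ⟨b, s', hb, p1, p2, hcase⟩ := hbox e he hB
    obtain ⟨q1, q2⟩ := mem_sq he
    have hs : s' = s := by
      rcases hcase with h | h
      · exact h.1
      · exfalso
        have e1 := congrArg Prod.fst (hf.symm.trans h.2)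
        simp only at e1
        omega
    subst hs
    have w2 : b.1 + 1 ≤ z.1 := by
      rw [hf]
      simp only
      omega
    have w3 : (r : ℤ) * (b.1 + 1) ≤ r * z.1 := mul_le_mul_of_nonneg_left w2 (by omega)
    have w4 : (r : ℤ) * (b.1 + 1) = r * b.1 + r := by ring
    have := p1.2.1
    have := p2.2.1
    have := q1.1
    have := q2.1
    constructor <;> omega
  by_cases hl : z = (s * (8 * N) + (8 * N - 1 - c a), s * (8 * N) + (7 * N - 1))
  · refine top hr (fun e he hne => key e he fun hB => hne ?_) hu hv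
    obtain ⟨b, s', hb, p1, p2, hcase⟩ := hbox e he hB
    obtain ⟨q1, q2⟩ := mem_sq he
    have hs : s' = s + 1 := by
      rcases hcase with h | h
      · exact absurd h.2 hf
      · exact h.1
    subst hs
    have hm : (s + 1) * (8 * (N : ℤ)) = s * (8 * N) + 8 * N := by ring
    rw [hm] at hb
    have w2 : z.2 + 1 ≤ b.2 := by
      rw [hl]
      simp only
      omega
    have w3 : (r : ℤ) * (z.2 + 1) ≤ r * b.2 := mul_le_mul_of_nonneg_left w2 (by omega)
    have w4 : (r : ℤ) * (z.2 + 1) = r * z.2 + r := by ring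
    have := p1.2.2.1
    have := p2.2.2.1
    have := q1.2.2.2
    have := q2.2.2.2
    constructor <;> omega
  · refine full (F := EP r (TubeC N k c a s) \ EP r (BxQ N)) (fun e he => key e he ?_) hu hv
    intro hB
    obtain ⟨b, s', hb, p1, p2, hcase⟩ := hbox e he hB
    rcases hcase with h | h
    · exact hf h.2
    · exact hl h.2

end Tq3

theorem t_q3 (h1 : S_q1) : S_q3 := by
  intro N k c hN hA r a s z z' u v hr hz hz' hu hv
  exact Pool.Agent.H160R2.MU.Tg3.K.reach
    (fun w hw x y hx hy => Tq3.inner h1 hN hA hr hw hx hy)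
    ((Tq3.tube hA a s z hz).trans (Tq3.tube hA a s z' hz').symm) hz u v hu hv

end Pool.Agent.W808.KC
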